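import Pool.Agent.R887.DefsTTh

/-!
Definitions: upper bounds for the rank one subsheaves of the pull backs of the tensor powers of the
sheaf of (logarithmic) differential forms to the finite covers.
-/

set_option autoImplicit false

open FF Pool.Agent.W602.GT Pool.Agent.Y172

namespace Pool.Agent.R887

section

variable {K : Type} [Field K] [Algebra ℂ K] {N : ℕ}

/-- Let `Z → X` be a finite cover, and `K`, `M` the function fields of `X` and `Z`. A rational section
of the pull back to `Z` of the `r`-th tensor power of the cotangent bundle of `X`: a `K`-multilinear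
function of `r` rational vector fields of `X` with values in `M`. -/
abbrev CoverTensor (K M : Type) [Field K] [Algebra ℂ K] [Field M] [Algebra K M] (r : ℕ) : Type :=
  MultilinearMap K (fun _ : Fin r => Derivation ℂ K K) M

/-- Let `X` be a normal projective variety with generic point `y`, `Bd` a set of prime divisors of
`X`, `g : Z → X` a finite cover by a normal variety with function field `M`, and `σ ≠ 0` a rational
section of the pull back of the `r`-th tensor power of the sheaf of differential forms of `X`. Let
`L` be the saturated rank one subsheaf of `g^* Ω¹_X(log Bd)^(⊗ r)` generated by `σ`; at the prime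
divisor `Q` of `Z`, over the prime divisor `P` of `X`, it is generated by `h σ`, if `Q.ord h` is
`-o`, where `o` is the smallest order along `Q` of the functions `σ E` for vector fields `E` on `X`
which are regular at `P`, and logarithmic if `P` is in `Bd`.
The condition says that `t g^* H - L` is pseudo-effective, `H` being the hyperplane section
`y i = 0`: for all `ε > 0` there are `m ≥ 1`, `b ≤ (t + ε) m` and a rational function `k ≠ 0` on `Z`
with `m o ≤ ord k + b ord (y i / y l)` at all prime divisors `Q` of `Z` (if the centre of `P` is in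
the chart `y l ≠ 0`, and `e` is the ramification index, `ord (y i / y l) = e P.ord (y i / y l)`). -/
def CoverTensorLe {M : Type} [Field M] [Algebra ℂ M] [Algebra K M] [IsScalarTower ℂ K M]
    (y : Fin (N + 1) → K) (Bd : Set (Place ℂ K)) {r : ℕ} (σ : CoverTensor K M r) (t : ℝ) : Prop :=
  ∀ i, y i ≠ 0 → ∀ ε : ℝ, 0 < ε → ∃ m b : ℕ, 1 ≤ m ∧ (b : ℝ) ≤ (t + ε) * m ∧ ∃ k : M, k ≠ 0 ∧
    ∀ P l, IsPrimeDivisor y P → Centred y l P → ∀ (Q : Place ℂ M) (e : ℕ),
      LiesOver (IsScalarTower.toAlgHom ℂ K M) Q P e → ∃ E : Fin r → Derivation ℂ K K,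
        (∀ j, DerReg P (E j)) ∧ (P ∈ Bd → ∀ j, DerLog P (E j)) ∧ σ E ≠ 0 ∧
        m * Q.ord (σ E) ≤ Q.ord k + b * (e * P.ord (y i / y l))

/-- The number `C` bounds the rank one subsheaves of the tensor powers of `Ω¹_X(log Bd)` absolutely:
for all finite covers `g : Z → X`, all `r` and all rank one subsheaves `L` of
`g^* Ω¹_X(log Bd)^(⊗ r)` the divisor `C r g^* H - L` is pseudo-effective. -/
def AbsTensorLe (y : Fin (N + 1) → K) (Bd : Set (Place ℂ K)) (C : ℝ) : Prop :=
  ∀ (M : Type) [Field M] [Algebra ℂ M] [Algebra K M] [IsScalarTower ℂ K M],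
    FiniteDimensional K M → ∀ (r : ℕ) (σ : CoverTensor K M r), σ ≠ 0 →
      CoverTensorLe y Bd σ (C * r)

end

end Pool.Agent.R887
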