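import Pool.Agent.R887.TrvU
import Pool.Agent.R887.DefsAbs

/-!
Tensor fields on finite covers: local computations.
-/

set_option autoImplicit false
set_option linter.overlappingInstances false
set_option linter.unusedSectionVars false

open FF Module MvPolynomial Pool.Agent.W602.GT Pool.Agent.W603.LV Pool.Agent.W619.PQ
open Pool.Agent.Y172 Pool.Agent.Y191

namespace Pool.Agent.R887

section

variable {K Ω : Type} [Field K] [Field Ω] [Algebra ℂ K] [Algebra ℂ Ω] [Algebra K Ω]
  [IsScalarTower ℂ K Ω] {N n r : ℕ} {y : Fin (N + 1) → K}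

/-- the values of a tensor field on the vector fields of a cover -/
noncomputable def cpull (x : Fin n → K) (E : Fin n → Derivation ℂ K K) (σ : CoverTensor K Ω r)
    (D : Fin r → Derivation ℂ Ω Ω) : Ω :=
  ∑ I : Fin r → Fin n, (∏ k, D k (algebraMap K Ω (x (I k)))) * σ fun k => E (I k)

theorem cpull_sum (x : Fin n → K) (E : Fin n → Derivation ℂ K K) (σ : CoverTensor K Ω r) {l : ℕ}
    (a : Fin r → Fin l → Ω) (D : Fin l → Derivation ℂ Ω Ω) :
    cpull x E σ (fun k => ∑ j, a k j • D j) =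
      ∑ J : Fin r → Fin l, (∏ k, a k (J k)) * cpull x E σ fun k => D (J k) := by
  unfold cpull
  have h1 : ∀ I : Fin r → Fin n, (∏ k, (∑ j, a k j • D j) (algebraMap K Ω (x (I k)))) =
      ∑ J : Fin r → Fin l, (∏ k, a k (J k)) * ∏ k, D (J k) (algebraMap K Ω (x (I k))) := by
    intro I
    have h2 : ∀ k, (∑ j, a k j • D j) (algebraMap K Ω (x (I k))) =
        ∑ j, a k j * D j (algebraMap K Ω (x (I k))) := fun k => sum_smul_apply _ _ _ _
    rw [Finset.prod_congr rfl fun k _ => h2 k, Finset.prod_univ_sum, Fintype.piFinset_univ]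
    exact Finset.sum_congr rfl fun J _ => Finset.prod_mul_distrib
  rw [Finset.sum_congr rfl fun I _ => by rw [h1 I]]
  simp only [Finset.sum_mul, Finset.mul_sum]
  rw [Finset.sum_comm]
  refine Finset.sum_congr rfl fun J _ => Finset.sum_congr rfl fun I _ => ?_
  ring

/-- tensor fields in coordinates -/
theorem cover_coord {x : Fin n → K} {E : Fin n → Derivation ℂ K K}
    (hx : IsTranscendenceBasis ℂ x) (hE : ∀ i j, E i (x j) = if i = j then 1 else 0)
    (σ : CoverTensor K Ω r) (D : Fin r → Derivation ℂ K K) :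
    σ D = ∑ I : Fin r → Fin n, (∏ k, algebraMap K Ω (D k (x (I k)))) * σ fun k => E (I k) := by
  have h1 : D = fun k => ∑ j, D k (x j) • E j := by
    funext k
    exact (Pool.Agent.W73.PG.PULL.expand x hx E hE (D k)).symm
  conv_lhs => rw [h1]
  rw [MultilinearMap.map_sum]
  refine Finset.sum_congr rfl fun I _ => ?_
  rw [MultilinearMap.map_smul_univ, Algebra.smul_def, map_prod]

theorem cpull_lift {x : Fin n → K} {E : Fin n → Derivation ℂ K K}
    (hx : IsTranscendenceBasis ℂ x) (hE : ∀ i j, E i (x j) = if i = j then 1 else 0)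
    (σ : CoverTensor K Ω r) {G : Fin r → Derivation ℂ K K} {D : Fin r → Derivation ℂ Ω Ω}
    (hD : ∀ k f, D k (algebraMap K Ω f) = algebraMap K Ω (G k f)) : cpull x E σ D = σ G := by
  rw [cover_coord hx hE σ G]
  unfold cpull
  refine Finset.sum_congr rfl fun I _ => ?_
  congr 1
  exact Finset.prod_congr rfl fun k _ => hD k _

variable [FiniteDimensional K Ω]

theorem cpull_change (hn : Algebra.trdeg ℂ K = n) {x x2 : Fin n → K}
    {E E2 : Fin n → Derivation ℂ K K} (hx : IsTranscendenceBasis ℂ x)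
    (hE : ∀ i j, E i (x j) = if i = j then 1 else 0) (hx2 : IsTranscendenceBasis ℂ x2)
    (hE2 : ∀ i j, E2 i (x2 j) = if i = j then 1 else 0) (σ : CoverTensor K Ω r)
    (D : Fin r → Derivation ℂ Ω Ω) :
    cpull x E σ D = cpull x2 E2 σ D := by
  unfold cpull
  have h1 : ∀ J : Fin r → Fin n, (σ fun k => E2 (J k)) =
      ∑ I : Fin r → Fin n, (∏ k, algebraMap K Ω (E2 (J k) (x (I k)))) *
        (σ fun k => E (I k)) := fun J => cover_coord hx hE σ fun k => E2 (J k)
  symm
  have h3 : ∀ J ∈ (Finset.univ : Finset (Fin r → Fin n)),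
      (∏ k, D k (algebraMap K Ω (x2 (J k)))) * (σ fun k => E2 (J k)) =
        ∑ I : Fin r → Fin n, (∏ k, D k (algebraMap K Ω (x2 (J k)))) *
          ((∏ k, algebraMap K Ω (E2 (J k) (x (I k)))) * (σ fun k => E (I k))) :=
    fun J _ => by rw [h1 J, Finset.mul_sum]
  rw [Finset.sum_congr rfl h3, Finset.sum_comm]
  refine Finset.sum_congr rfl fun I _ => ?_
  have h2 : (∏ k, D k (algebraMap K Ω (x (I k)))) = ∑ J : Fin r → Fin n,
      ∏ k, D k (algebraMap K Ω (x2 (J k))) * algebraMap K Ω (E2 (J k) (x (I k))) := by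
    rw [Finset.prod_congr rfl fun k _ => chain hn hx2 hE2 (D k) (x (I k)),
      Finset.prod_univ_sum, Fintype.piFinset_univ]
  rw [h2, Finset.sum_mul]
  refine Finset.sum_congr rfl fun J _ => ?_
  rw [Finset.prod_mul_distrib, mul_assoc]

theorem cpull_ne (hn : Algebra.trdeg ℂ K = n) {x : Fin n → K} {E : Fin n → Derivation ℂ K K}
    (hx : IsTranscendenceBasis ℂ x) (hE : ∀ i j, E i (x j) = if i = j then 1 else 0)
    {σ : CoverTensor K Ω r} (hσ : σ ≠ 0) {D : Fin n → Derivation ℂ Ω Ω} (hD : IsFrame D) :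
    ∃ J : Fin r → Fin n, cpull x E σ (fun k => D (J k)) ≠ 0 := by
  by_contra hcon
  push Not at hcon
  apply hσ
  ext F
  rw [cover_coord hx hE σ F]
  refine Finset.sum_eq_zero fun I _ => ?_
  choose E' hE' using fun i => exists_lift (L := Ω) hn (E i)
  choose a ha using fun i => hD (E' i)
  have h1 := cpull_sum x E σ (fun k : Fin r => a (I k)) D
  rw [Finset.sum_eq_zero fun J _ => by rw [hcon J, mul_zero]] at h1
  have h2 : (fun k : Fin r => ∑ j, a (I k) j • D j) = fun k => E' (I k) := by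
    funext k
    exact (ha (I k)).symm
  rw [h2, cpull_lift hx hE σ (G := fun k => E (I k)) fun k f => hE' (I k) f] at h1
  rw [h1, mul_zero]

/-- **The order of a tensor field at a place of a cover.** -/
theorem exists_mu_cover (hy : NormalModel y) (hn : Algebra.trdeg ℂ K = n) {Bd : Set (Place ℂ K)}
    {x : Fin n → K} {E : Fin n → Derivation ℂ K K} (hx : IsTranscendenceBasis ℂ x)
    (hE : ∀ i j, E i (x j) = if i = j then 1 else 0) {σ : CoverTensor K Ω r} (hσ : σ ≠ 0)
    {P : Place ℂ K} (hP : IsPrimeDivisor y P) (R : Place ℂ Ω) :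
    ∃ μ : ℤ, (∃ G : Fin r → Derivation ℂ K K, (∀ k, DerReg P (G k)) ∧
        (P ∈ Bd → ∀ k, DerLog P (G k)) ∧ σ G ≠ 0 ∧ R.ord (σ G) = μ) ∧
      ∀ D : Fin r → Derivation ℂ Ω Ω,
        (∀ k (f : K), P.Reg f → R.Reg (D k (algebraMap K Ω f))) →
        (P ∈ Bd → ∀ k (f : K), R.Reg (D k (algebraMap K Ω f) / algebraMap K Ω f)) →
        Ge R μ (cpull x E σ D) := by
  classical
  have hess := hy.ess
  obtain ⟨z, G, i0, hl⟩ := exists_loc hn (hP.divisorial hy hn)
  obtain ⟨l, hldef⟩ : ∃ l : Fin n → K, l = if P ∈ Bd then lc z i0 else fun _ => 1 := ⟨_, rfl⟩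
  have hl0 : ∀ i, l i ≠ 0 := by
    intro i
    rw [hldef]
    split_ifs
    · unfold lc
      split_ifs
      · exact hl.ne
      · exact one_ne_zero
    · exact one_ne_zero
  have hreg : ∀ i, DerReg P (l i • G i) := by
    intro i
    rw [hldef]
    split_ifs
    · exact derLog_reg' (hl.log i)
    · rw [one_smul]
      exact hl.pres i
  have hlog : P ∈ Bd → ∀ i, DerLog P (l i • G i) := by
    intro hB i
    rw [hldef, if_pos hB]
    exact hl.log i
  have hsm : ∀ I : Fin r → Fin n, (σ fun k => l (I k) • G (I k)) =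
      (∏ k, algebraMap K Ω (l (I k))) * σ fun k => G (I k) := by
    intro I
    rw [MultilinearMap.map_smul_univ, Algebra.smul_def, map_prod]
  have hl0' : ∀ I : Fin r → Fin n, (∏ k, algebraMap K Ω (l (I k))) ≠ 0 := fun I =>
    Finset.prod_ne_zero_iff.2 fun k _ => by
      rw [Ne, map_eq_zero]
      exact hl0 _
  have hex : ∃ I : Fin r → Fin n, σ (fun k => l (I k) • G (I k)) ≠ 0 := by
    by_contra hcon
    push Not at hcon
    apply hσ
    ext F
    rw [cover_coord hl.bas hl.dual σ F]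
    refine Finset.sum_eq_zero fun I _ => ?_
    have h1 := hcon I
    rw [hsm] at h1
    rcases mul_eq_zero.1 h1 with h2 | h2
    · exact absurd h2 (hl0' I)
    · rw [h2, mul_zero]
  obtain ⟨I1, hI1⟩ := hex
  obtain ⟨I0, hI0, hmin⟩ := Finset.exists_min_image
    (Finset.univ.filter fun I : Fin r → Fin n => σ (fun k => l (I k) • G (I k)) ≠ 0)
    (fun I => R.ord (σ fun k => l (I k) • G (I k))) ⟨I1, by simp [hI1]⟩
  rw [Finset.mem_filter] at hI0
  refine ⟨R.ord (σ fun k => l (I0 k) • G (I0 k)), ⟨fun k => l (I0 k) • G (I0 k),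
    fun k => hreg _, fun hB k => hlog hB _, hI0.2, rfl⟩, fun D hD hDl => ?_⟩
  obtain ⟨μ, hμ⟩ : ∃ μ, μ = R.ord (σ fun k => l (I0 k) • G (I0 k)) := ⟨_, rfl⟩
  rw [← hμ, cpull_change hn hx hE hl.bas hl.dual σ D]
  have hq : ∀ k i, R.Reg (D k (algebraMap K Ω (z i)) / algebraMap K Ω (l i)) := by
    intro k i
    rw [hldef]
    split_ifs with hB
    · unfold lc
      split_ifs with hi
      · rw [hi]
        exact hDl hB k _
      · rw [map_one, div_one]
        exact hD k _ (hl.reg i)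
    · rw [map_one, div_one]
      exact hD k _ (hl.reg i)
  unfold cpull
  refine Ge.sum _ _ fun I _ => ?_
  have e1 : (∏ k, D k (algebraMap K Ω (z (I k)))) * (σ fun k => G (I k)) =
      (∏ k, D k (algebraMap K Ω (z (I k))) / algebraMap K Ω (l (I k))) *
        σ fun k => l (I k) • G (I k) := by
    rw [hsm, ← mul_assoc, ← Finset.prod_mul_distrib]
    congr 1
    refine Finset.prod_congr rfl fun k _ => ?_
    rw [div_mul_cancel₀]
    rw [Ne, map_eq_zero]
    exact hl0 _
  rw [e1]
  have hpr : R.Reg (∏ k, D k (algebraMap K Ω (z (I k))) / algebraMap K Ω (l (I k))) := by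
    have : ∀ t : Finset (Fin r), R.Reg (∏ k ∈ t, D k (algebraMap K Ω (z (I k))) /
        algebraMap K Ω (l (I k))) := by
      intro t
      induction t using Finset.induction_on with
      | empty => exact R.reg_one
      | insert k t hk ih =>
        rw [Finset.prod_insert hk]
        exact R.reg_mul (hq k _) ih
    exact this _
  by_cases hs : σ (fun k => l (I k) • G (I k)) = 0
  · left
    rw [hs, mul_zero]
  by_cases hp0 : (∏ k, D k (algebraMap K Ω (z (I k))) / algebraMap K Ω (l (I k))) = 0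
  · left
    rw [hp0, zero_mul]
  right
  have h4 := (R.reg_iff hp0).1 hpr
  have h2 := hmin I (by simp [hs])
  rw [← hμ] at h2
  rw [R.ord_mul hp0 hs]
  omega

end

section

variable {K K' Ω : Type} [Field K] [Field K'] [Field Ω] [Algebra ℂ K] [Algebra ℂ K']
  [Algebra ℂ Ω] [Algebra K Ω] [IsScalarTower ℂ K Ω] [FiniteDimensional K Ω] [Algebra K' Ω]
  [IsScalarTower ℂ K' Ω] [FiniteDimensional K' Ω] {n r : ℕ}

/-- the derivatives of a function of the cover along the vector fields of the base -/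
noncomputable def lamL (x' : Fin n → K') (D' : Fin n → Derivation ℂ Ω Ω) (z : Ω) :
    Derivation ℂ K' K' →ₗ[K'] Ω where
  toFun E' := ∑ j, algebraMap K' Ω (E' (x' j)) * D' j z
  map_add' a b := by
    rw [← Finset.sum_add_distrib]
    refine Finset.sum_congr rfl fun j _ => ?_
    rw [Derivation.add_apply, map_add, add_mul]
  map_smul' c a := by
    rw [RingHom.id_apply, Algebra.smul_def, Finset.mul_sum]
    refine Finset.sum_congr rfl fun j _ => ?_
    rw [Derivation.smul_apply, smul_eq_mul, map_mul, mul_assoc]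

/-- the tensor field of the cover, as a tensor field over the other base -/
noncomputable def cten (x' : Fin n → K') (D' : Fin n → Derivation ℂ Ω Ω) (x : Fin n → K)
    (E : Fin n → Derivation ℂ K K) (σ : CoverTensor K Ω r) : CoverTensor K' Ω r :=
  ∑ I : Fin r → Fin n, (σ fun k => E (I k)) •
    (MultilinearMap.mkPiAlgebra K' (Fin r) Ω).compLinearMap fun k =>
      lamL x' D' (algebraMap K Ω (x (I k)))

theorem lamL_apply {x' : Fin n → K'} {E' : Fin n → Derivation ℂ K' K'}
    (hx' : IsTranscendenceBasis ℂ x') (hE' : ∀ i j, E' i (x' j) = if i = j then 1 else 0)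
    {D' : Fin n → Derivation ℂ Ω Ω}
    (hD' : ∀ i f, D' i (algebraMap K' Ω f) = algebraMap K' Ω (E' i f))
    {G : Derivation ℂ K' K'} {D : Derivation ℂ Ω Ω}
    (hD : ∀ f, D (algebraMap K' Ω f) = algebraMap K' Ω (G f)) (z : Ω) :
    lamL x' D' z G = D z := by
  have h1 := Pool.Agent.W73.PG.PULL.expand _ (hx'.algebraMap_comp (A := Ω)) D'
    (lift_dual hE' hD') D
  conv_rhs => rw [← h1]
  rw [sum_smul_apply]
  change ∑ j, algebraMap K' Ω (G (x' j)) * D' j z = _
  exact Finset.sum_congr rfl fun j _ => by rw [← hD]; rfl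

theorem cten_apply {x' : Fin n → K'} {E' : Fin n → Derivation ℂ K' K'}
    (hx' : IsTranscendenceBasis ℂ x') (hE' : ∀ i j, E' i (x' j) = if i = j then 1 else 0)
    {D' : Fin n → Derivation ℂ Ω Ω}
    (hD' : ∀ i f, D' i (algebraMap K' Ω f) = algebraMap K' Ω (E' i f)) {x : Fin n → K}
    {E : Fin n → Derivation ℂ K K} (σ : CoverTensor K Ω r) {G : Fin r → Derivation ℂ K' K'}
    {D : Fin r → Derivation ℂ Ω Ω}
    (hD : ∀ k f, D k (algebraMap K' Ω f) = algebraMap K' Ω (G k f)) :
    cten x' D' x E σ G = cpull x E σ D := by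
  unfold cten cpull
  rw [sum_apply]
  refine Finset.sum_congr rfl fun I _ => ?_
  rw [smul_apply, MultilinearMap.compLinearMap_apply,
    MultilinearMap.mkPiAlgebra_apply, smul_eq_mul, mul_comm]
  congr 1
  exact Finset.prod_congr rfl fun k _ => lamL_apply hx' hE' hD' (hD k) _

theorem cten_ne (hn : Algebra.trdeg ℂ K = n) {x : Fin n → K} {E : Fin n → Derivation ℂ K K}
    (hx : IsTranscendenceBasis ℂ x) (hE : ∀ i j, E i (x j) = if i = j then 1 else 0)
    {x' : Fin n → K'} {E' : Fin n → Derivation ℂ K' K'}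
    (hx' : IsTranscendenceBasis ℂ x') (hE' : ∀ i j, E' i (x' j) = if i = j then 1 else 0)
    {D' : Fin n → Derivation ℂ Ω Ω}
    (hD' : ∀ i f, D' i (algebraMap K' Ω f) = algebraMap K' Ω (E' i f))
    {σ : CoverTensor K Ω r} (hσ : σ ≠ 0) : cten x' D' x E σ ≠ 0 := by
  have hfr : IsFrame D' := fun F => ⟨fun j => F (algebraMap K' Ω (x' j)),
    (Pool.Agent.W73.PG.PULL.expand _ (hx'.algebraMap_comp (A := Ω)) D'
      (lift_dual hE' hD') F).symm⟩
  obtain ⟨J, hJ⟩ := cpull_ne hn hx hE hσ hfr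
  intro h0
  apply hJ
  rw [← cten_apply hx' hE' hD' σ (G := fun k => E' (J k)) fun k f => hD' (J k) f, h0]
  rfl

end

section

variable {K Ω : Type} [Field K] [Field Ω] [Algebra ℂ K] [Algebra ℂ Ω] [Algebra K Ω]
  [IsScalarTower ℂ K Ω] [FiniteDimensional K Ω]

/-- the conjugates of a place -/
theorem conj_place {R : Place ℂ Ω} {P : Place ℂ K} {E : ℕ} (hR : Over R P E) (τ : Ω ≃ₐ[K] Ω) :
    ∃ R1 : Place ℂ Ω, Over R1 P E ∧ ∀ z, R.ord (τ z) = R1.ord z := by
  obtain ⟨R1, e, e1, hR1, he1, hee, hord⟩ := below_emb (L := Ω) (τ : Ω →ₐ[K] Ω) hR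
  obtain ⟨w, -, hw⟩ := R.surj
  have h1 : R.ord (τ (τ.symm w)) = e1 * R1.ord (τ.symm w) := hord _
  rw [AlgEquiv.apply_symm_apply, hw] at h1
  have h2 : (e1 : ℤ) ∣ 1 := ⟨_, h1⟩
  have h3 : e1 = 1 := by
    have h4 := Int.le_of_dvd one_pos h2
    omega
  rw [h3, one_mul] at hee
  refine ⟨R1, by rw [hee]; exact hR1, fun z => ?_⟩
  have h5 : R.ord (τ z) = e1 * R1.ord z := hord z
  rw [h5, h3, Nat.cast_one, one_mul]

end

end Pool.Agent.R887
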