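import Pool.Agent.R887.AbsA

/-!
The conjugates of hyperplane sections, and the transfer of the bounds for tensor fields on covers.
-/

set_option autoImplicit false
set_option linter.overlappingInstances false
set_option linter.unusedSectionVars false

open FF Module MvPolynomial Pool.Agent.W602.GT Pool.Agent.W603.LV Pool.Agent.W619.PQ
open Pool.Agent.Y172 Pool.Agent.Y191

namespace Pool.Agent.R887

section

variable {K K' Ω : Type} [Field K] [Field K'] [Field Ω] [Algebra ℂ K] [Algebra ℂ K'] [Algebra ℂ Ω]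
  [Algebra K Ω] [IsScalarTower ℂ K Ω] [FiniteDimensional K Ω] [Algebra K' Ω]
  [IsScalarTower ℂ K' Ω] [FiniteDimensional K' Ω] {n N N' : ℕ} {y : Fin (N + 1) → K}
  {y' : Fin (N' + 1) → K'}

/-- **The sum of the conjugates of a hyperplane section.** -/
theorem hyp_sum [IsGalois K Ω] (hy : NormalModel y) (hn : Algebra.trdeg ℂ K = n) (hn0 : 0 < n)
    (hnΩ : Algebra.trdeg ℂ Ω = n) {i0 : Fin (N + 1)} (hi0 : y i0 ≠ 0)
    {i : Fin (N' + 1)} (hi : y' i ≠ 0) {μ : Place ℂ Ω → ℤ} (hμ : IsMin (affL Ω y' i) μ) {B : ℕ}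
    (hB : ∀ u : Fin (n - 1) → K, (∀ a, IsPencil y (u a)) →
      ∀ v ∈ Submodule.span ℂ (affL Ω y' i),
        degreeOver (fun a => algebraMap K Ω (u a)) (fun _ : Fin 1 => v) ≤ B) :
    ∃ q2 : K, q2 ≠ 0 ∧ ∀ P l, IsPrimeDivisor y P → Centred y l P → ∀ (R : Place ℂ Ω) (E : ℕ),
      Over R P E → ∀ T : (Ω ≃ₐ[K] Ω) → Place ℂ Ω,
      (∀ τ, Over (T τ) P E) → (∀ τ z, R.ord (τ z) = (T τ).ord z) →
      -(∑ τ, μ (T τ)) ≤ E * (P.ord q2 + B * P.ord (y i0 / y l)) := by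
  classical
  have hess := hy.ess
  have h1S : (1 : Ω) ∈ affL Ω y' i := ⟨i, by simp only []; rw [_root_.div_self hi, map_one]⟩
  have hSfin : (affL Ω y' i).Finite := Set.finite_range _
  -- the places with poles
  obtain ⟨T0, hT0⟩ : ∃ T : Set (Place ℂ Ω), T = ⋃ s ∈ affL Ω y' i,
      {R : Place ℂ Ω | IsPrimeDivisor y (bel K R) ∧ R.ord s ≠ 0} := ⟨_, rfl⟩
  have hTfin : T0.Finite := by
    rw [hT0]
    refine hSfin.biUnion fun s _ => ?_
    by_cases hs : s = 0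
    · refine Set.finite_empty.subset ?_
      rintro R ⟨-, h⟩
      exact absurd (by rw [hs, R.ord_zero]) h
    · exact finite_ord_up hy hs
  obtain ⟨S', hS'⟩ : ∃ S' : Set (Place ℂ Ω), S' = ⋃ P ∈ bel K '' T0, {R | ∃ e, Over R P e} :=
    ⟨_, rfl⟩
  have hcK : CharZero K := charZero_of_injective_algebraMap (algebraMap ℂ K).injective
  have hS'fin : S'.Finite := by
    rw [hS']
    exact (hTfin.image _).biUnion fun P _ => Pool.Agent.Y172.finite_over (K' := Ω) P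
  obtain ⟨v, hv, hv0, hvo⟩ := exists_generic (k₀ := ℂ) (k := ℂ) hSfin S' hS'fin
    ⟨1, h1S, one_ne_zero⟩
  obtain ⟨q2, hq20, hq2⟩ := norm_bound hy hn hn0 hi0 (w := Algebra.norm K v) (B := B)
    fun u hu => (degree_norm hnΩ hn0 hv0).trans (hB u hu v hv)
  refine ⟨q2, hq20, fun P l hP hl R E hR T hT hTo => ?_⟩
  obtain ⟨h1, h2⟩ := hq2 P l hl
  have hE : (0 : ℤ) ≤ E := Int.natCast_nonneg _
  by_cases hPT : P ∈ bel K '' T0
  · have h3 : (E : ℤ) * P.ord (Algebra.norm K v) = ∑ τ : Ω ≃ₐ[K] Ω, (T τ).ord v := by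
      rw [← hR.2, Algebra.norm_eq_prod_automorphisms K v,
        ord_finprod R _ _ fun σ _ => by rwa [Ne, map_eq_zero]]
      exact Finset.sum_congr rfl fun τ _ => hTo τ v
    have h4 : ∑ τ : Ω ≃ₐ[K] Ω, (T τ).ord v ≤ ∑ τ : Ω ≃ₐ[K] Ω, μ (T τ) := by
      refine Finset.sum_le_sum fun τ _ => ?_
      have h5 : T τ ∈ S' := by
        rw [hS']
        exact Set.mem_iUnion₂.2 ⟨P, hPT, ⟨E, hT τ⟩⟩
      obtain ⟨s, hs, hs0, h6⟩ := hμ.att (T τ)
      have h7 := hvo (T τ) h5 s hs hs0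
      rw [h6] at h7
      exact h7
    have h5 := mul_le_mul_of_nonneg_left h2 hE
    linarith
  · have hm0 : ∀ τ, μ (T τ) = 0 := by
      intro τ
      by_contra h6
      apply hPT
      obtain ⟨s, hs, hs0, h7⟩ := hμ.att (T τ)
      obtain ⟨h8, -⟩ := bel_eq K (hT τ)
      refine ⟨T τ, ?_, h8⟩
      rw [hT0]
      refine Set.mem_iUnion₂.2 ⟨s, hs, ?_, ?_⟩
      · rw [h8]
        exact hP
      · rw [h7]
        exact h6
    rw [Finset.sum_eq_zero fun τ _ => hm0 τ, neg_zero]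
    exact mul_nonneg hE h1

end

section

variable {K K' L M Ω : Type} [Field K] [Algebra ℂ K] [Field K'] [Algebra ℂ K'] [Field L]
  [Algebra ℂ L] [Field M] [Algebra ℂ M] [Field Ω] [Algebra ℂ Ω]
  [Algebra K L] [IsScalarTower ℂ K L] [FiniteDimensional K L] [Algebra K' L]
  [IsScalarTower ℂ K' L] [FiniteDimensional K' L] [Algebra K M] [IsScalarTower ℂ K M]
  [FiniteDimensional K M] [Algebra K Ω] [Algebra L Ω]
  [IsScalarTower ℂ K Ω] [IsScalarTower ℂ L Ω] [IsScalarTower K L Ω] [FiniteDimensional K Ω]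
  [FiniteDimensional L Ω] [Algebra K' Ω] [IsScalarTower ℂ K' Ω] [IsScalarTower K' L Ω]
  [FiniteDimensional K' Ω] [Algebra M Ω] [IsScalarTower ℂ M Ω] [IsScalarTower K M Ω]
  [FiniteDimensional M Ω] [IsGalois K Ω]
  {N N' : ℕ} {y : Fin (N + 1) → K} {y' : Fin (N' + 1) → K'} {n : ℕ}

/-- the lift of an admissible vector field to the top of the tower -/
theorem lift_adm (hn' : Algebra.trdeg ℂ K' = n) (hy' : NormalModel y')
    {Bd : Set (Place ℂ K)} {Bd' : Set (Place ℂ K')}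
    (hfe : ∀ (Q : Place ℂ L) (P : Place ℂ K) (e : ℕ), Over Q P e → IsPrimeDivisor y P →
      ∀ (P' : Place ℂ K') (e' : ℕ), Over Q P' e' →
        IsPrimeDivisor y' P' ∧ (P' ∉ Bd' → P ∉ Bd ∧ e' = 1))
    {R : Place ℂ Ω} {P : Place ℂ K} {E : ℕ} (hR : Over R P E) (hP : IsPrimeDivisor y P)
    {P' : Place ℂ K'} {E' : ℕ} (hR' : Over R P' E') {G : Derivation ℂ K' K'}
    (hG : DerReg P' G) (hGl : P' ∈ Bd' → DerLog P' G) {D : Derivation ℂ Ω Ω}
    (hD : ∀ f, D (algebraMap K' Ω f) = algebraMap K' Ω (G f)) :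
    (∀ f : K, P.Reg f → R.Reg (D (algebraMap K Ω f))) ∧
    (P ∈ Bd → ∀ f : K, R.Reg (D (algebraMap K Ω f) / algebraMap K Ω f)) := by
  have hess' := hy'.ess
  have h1 := over_bel L R
  obtain ⟨e2, h2, h3⟩ := over_of_tower (K := K) h1 hR
  obtain ⟨e2', h2', h3'⟩ := over_of_tower (K := K') h1 hR'
  obtain ⟨hP', h5⟩ := hfe _ P e2 h2 hP P' e2' h2'
  obtain ⟨DL, hDL⟩ := exists_lift (L := L) hn' G
  have hnL : Algebra.trdeg ℂ L = n := trdeg_up (K := K') hn'
  obtain ⟨DΩ, hDΩ⟩ := exists_lift (L := Ω) hnL DL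
  have hDD : D = DΩ := by
    obtain ⟨x', E0, hx', hE0⟩ := exists_crd hn' (k := ℂ) (K := K')
    apply Pool.Agent.TH122.AB.der_ext' (hx'.algebraMap_comp (A := Ω))
    intro j
    change D (algebraMap K' Ω (x' j)) = DΩ (algebraMap K' Ω (x' j))
    rw [hD, IsScalarTower.algebraMap_apply K' L Ω, IsScalarTower.algebraMap_apply K' L Ω, hDΩ, hDL]
  have hval : ∀ f : K, D (algebraMap K Ω f) = algebraMap L Ω (DL (algebraMap K L f)) := by
    intro f
    rw [hDD, IsScalarTower.algebraMap_apply K L Ω, hDΩ]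
  have hadm : DerReg (bel L R) DL ∧ (P ∈ Bd → DerLog (bel L R) DL) := by
    by_cases hB : P' ∈ Bd'
    · have h4 := lift_log h2' (hGl hB) hDL
      exact ⟨derLog_reg' h4, fun _ => h4⟩
    · obtain ⟨h4, h6⟩ := h5 hB
      refine ⟨?_, fun h7 => absurd h7 h4⟩
      rw [h6] at h2'
      have hdP' : Divisorial n P' := hP'.divisorial hy' hn'
      exact reg_up hn' h2' hdP' (divisorial_up h2' hdP') hDL hG
  refine ⟨fun f hf => ?_, fun hB f => ?_⟩
  · rw [hval]
    exact h1.reg.2 (hadm.1 _ (h2.reg.2 hf))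
  · rw [hval, IsScalarTower.algebraMap_apply K L Ω, ← map_div₀]
    exact h1.reg.2 (hadm.2 hB _)

open scoped Classical in
/-- **The transfer of a bound for tensor fields.** -/
theorem abs_aux (hy : NormalModel y) (hn : Algebra.trdeg ℂ K = n) (hn0 : 0 < n)
    (hy' : NormalModel y') (hn' : Algebra.trdeg ℂ K' = n) {Bd : Set (Place ℂ K)}
    {Bd' : Set (Place ℂ K')} (φ : K →ₐ[ℂ] L) (ψ : K' →ₐ[ℂ] L)
    (hφ : ∀ f, φ f = algebraMap K L f) (hψ : ∀ f, ψ f = algebraMap K' L f)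
    (hdeg : mapDegree φ = Module.finrank K L)
    (hfe : ∀ (Q : Place ℂ L) (P : Place ℂ K) (e : ℕ), Over Q P e → IsPrimeDivisor y P →
      ∀ (P' : Place ℂ K') (e' : ℕ), Over Q P' e' →
        IsPrimeDivisor y' P' ∧ (P' ∉ Bd' → P ∉ Bd ∧ e' = 1))
    {c : ℝ} (hc0 : 0 ≤ c) (hc : MultiDegreeLe φ ψ y y' (n - 1) 1 c) {r : ℕ} {t : ℝ}
    (habs : ∀ σ : CoverTensor K' Ω r, σ ≠ 0 → CoverTensorLe y' Bd' σ t)
    {σ : CoverTensor K M r} (hσ : σ ≠ 0) : CoverTensorLe y Bd σ (c * t) := by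
  have hess := hy.ess
  have hnΩ : Algebra.trdeg ℂ Ω = n := trdeg_up (K := K) hn
  have hG : Fintype.card (Ω ≃ₐ[K] Ω) = finrank K Ω := by
    rw [← Nat.card_eq_fintype_card]
    exact IsGalois.card_aut_eq_finrank K Ω
  have hF1 : 1 ≤ finrank K Ω := finrank_pos
  have hgalM : IsGalois M Ω := IsGalois.tower_top_of_isGalois K M Ω
  have hFM : 1 ≤ finrank M Ω := finrank_pos
  obtain ⟨x, E, hx, hE⟩ := exists_crd hn (k := ℂ) (K := K)
  obtain ⟨x', E', hx', hE'⟩ := exists_crd hn' (k := ℂ) (K := K')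
  choose D' hD' using fun i => exists_lift (L := Ω) hn' (E' i)
  intro i0 hi0 ε hε
  obtain ⟨i, hi⟩ : ∃ i, y' i ≠ 0 := by
    obtain ⟨P'⟩ : Nonempty (Place ℂ K') := by
      obtain ⟨P1, hP1⟩ := exists_prime hy' hn' hn0
      exact ⟨P1⟩
    obtain ⟨l, hl⟩ := exists_centred hy' P'
    exact ⟨l, hl.1⟩
  obtain ⟨ε', hε'⟩ : ∃ ε', ε' = ε / (c + 1) := ⟨_, rfl⟩
  have hε0 : 0 < ε' := by
    rw [hε']
    positivity
  have hcε : c * ε' ≤ ε := by
    rw [hε', mul_div_assoc', div_le_iff₀ (by positivity)]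
    nlinarith
  -- the tensor fields
  have hσΩ : ((IsScalarTower.toAlgHom K M Ω).toLinearMap).compMultilinearMap σ ≠ 0 := by
    intro h0
    apply hσ
    ext G
    have h1 : algebraMap M Ω (σ G) = 0 := by
      have h2 := congrArg (fun s => s G) h0
      exact h2
    rwa [map_eq_zero] at h1
  have hτ : ∀ τ : Ω ≃ₐ[K] Ω, (τ.symm.toLinearMap).compMultilinearMap
      (((IsScalarTower.toAlgHom K M Ω).toLinearMap).compMultilinearMap σ) ≠ 0 := by
    intro τ h0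
    apply hσΩ
    ext G
    have h1 : τ.symm (algebraMap M Ω (σ G)) = 0 := by
      have h2 := congrArg (fun s => s G) h0
      exact h2
    rw [map_eq_zero] at h1
    exact h1
  obtain ⟨στ, hστ⟩ : ∃ στ : (Ω ≃ₐ[K] Ω) → CoverTensor K Ω r,
      ∀ τ, στ τ = (τ.symm.toLinearMap).compMultilinearMap
        (((IsScalarTower.toAlgHom K M Ω).toLinearMap).compMultilinearMap σ) :=
    ⟨_, fun _ => rfl⟩
  have hστ0 : ∀ τ, στ τ ≠ 0 := fun τ => by rw [hστ]; exact hτ τ
  have hστv : ∀ (τ : Ω ≃ₐ[K] Ω) (G : Fin r → Derivation ℂ K K),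
      τ (στ τ G) = algebraMap M Ω (σ G) := by
    intro τ G
    rw [hστ]
    change τ (τ.symm (algebraMap M Ω (σ G))) = _
    exact τ.apply_symm_apply _
  choose m b hm hb k hk0 hk using fun τ =>
    habs (cten x' D' x E (στ τ)) (cten_ne hn hx hE hx' hE' hD' (hστ0 τ)) i hi ε' hε0
  -- the hyperplane sections
  have h1S : (1 : Ω) ∈ affL Ω y' i := ⟨i, by simp only []; rw [_root_.div_self hi, map_one]⟩
  obtain ⟨μ, hμ⟩ := exists_isMin (k := ℂ) (S := affL Ω y' i) (Set.finite_range _)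
    ⟨1, h1S, one_ne_zero⟩
  have hμ0 : ∀ R, μ R ≤ 0 := fun R => hμ.nonpos h1S R
  obtain ⟨B, hB⟩ : ∃ B : ℕ, B = ⌊c * (finrank K Ω : ℝ)⌋₊ := ⟨_, rfl⟩
  have hdg : ∀ u : Fin (n - 1) → K, (∀ a, IsPencil y (u a)) →
      ∀ v ∈ Submodule.span ℂ (affL Ω y' i),
        degreeOver (fun a => algebraMap K Ω (u a)) (fun _ : Fin 1 => v) ≤ B := by
    intro u hu v hv
    have hv' : v ∈ Submodule.span ℂ (affL Ω y' i) := hv
    obtain ⟨ψΩ, hψΩ⟩ : ∃ ψΩ : K' →ₐ[ℂ] Ω, ψΩ = IsScalarTower.toAlgHom ℂ K' Ω := ⟨_, rfl⟩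
    obtain ⟨v', hv'1, hv'2⟩ := pencil_of_span2 ψΩ (fun f => by rw [hψΩ]; rfl) hi hv'
    have h1 := hc u hu (fun _ => v') (fun _ => hv'1)
    rw [hdeg] at h1
    have h2 : degreeOver (fun a => algebraMap K Ω (u a)) (fun _ : Fin 1 => v) =
        degreeOver (fun a => φ (u a)) (fun _ : Fin 1 => ψ v') * finrank L Ω := by
      rw [degreeOver_eq, degreeOver_eq, ← dg_tower]
      congr 1
      funext k
      rcases k with k | k
      · change algebraMap K Ω (u k) = algebraMap L Ω (φ (u k))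
        rw [hφ, ← IsScalarTower.algebraMap_apply K L Ω]
      · change v = algebraMap L Ω (ψ v')
        rw [hψ, ← IsScalarTower.algebraMap_apply K' L Ω, hv'2, hψΩ]
        rfl
    rw [h2, hB]
    refine Nat.le_floor ?_
    rw [← finrank_mul_finrank K L Ω]
    push_cast
    have h3 := mul_le_mul_of_nonneg_right h1 (show (0 : ℝ) ≤ (finrank L Ω : ℕ) from
      Nat.cast_nonneg _)
    linarith
  obtain ⟨q2, hq20, hq2⟩ := hyp_sum hy hn hn0 hnΩ hi0 hi hμ hdg
  -- the common multiples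
  obtain ⟨mm, hmm⟩ : ∃ mm : ℕ, mm = ∏ τ, m τ := ⟨_, rfl⟩
  obtain ⟨s, hs⟩ : ∃ s : (Ω ≃ₐ[K] Ω) → ℕ, ∀ τ, s τ = ∏ τ' ∈ Finset.univ.erase τ, m τ' :=
    ⟨_, fun _ => rfl⟩
  have hms : ∀ τ, m τ * s τ = mm := by
    intro τ
    rw [hs, hmm]
    exact Finset.mul_prod_erase _ _ (Finset.mem_univ τ)
  have hmm1 : 1 ≤ mm := by
    rw [hmm]
    exact Finset.one_le_prod' fun τ _ => hm τ
  have ht0 : 0 ≤ t + ε' := by
    have h1 := hb 1
    have h2 : (0 : ℝ) ≤ b 1 := Nat.cast_nonneg _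
    have h3 : (0 : ℝ) < m 1 := by exact_mod_cast hm 1
    by_contra h4
    push Not at h4
    have := mul_neg_of_neg_of_pos h4 h3
    linarith
  obtain ⟨bb, hbb⟩ : ∃ bb : ℕ, bb = ⌊(t + ε') * mm⌋₊ := ⟨_, rfl⟩
  have hbb1 : (bb : ℝ) ≤ (t + ε') * mm := by
    rw [hbb]
    exact Nat.floor_le (by positivity)
  have hbs : ∀ τ, b τ * s τ ≤ bb := by
    intro τ
    rw [hbb]
    refine Nat.le_floor ?_
    rw [← hms τ]
    push_cast
    have h1 := mul_le_mul_of_nonneg_right (hb τ) (show (0 : ℝ) ≤ s τ from Nat.cast_nonneg _)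
    linarith
  obtain ⟨kk, hkk⟩ : ∃ kk : Ω, kk = (∏ τ : Ω ≃ₐ[K] Ω, τ (k τ ^ s τ)) * algebraMap K Ω q2 ^ bb :=
    ⟨_, rfl⟩
  have hq2Ω : algebraMap K Ω q2 ≠ 0 := by rwa [Ne, map_eq_zero]
  have hprod0 : (∏ τ : Ω ≃ₐ[K] Ω, τ (k τ ^ s τ)) ≠ 0 := Finset.prod_ne_zero_iff.2 fun τ _ => by
    rw [Ne, map_eq_zero]
    exact pow_ne_zero _ (hk0 τ)
  have hkk0 : kk ≠ 0 := by
    rw [hkk]
    exact mul_ne_zero hprod0 (pow_ne_zero _ hq2Ω)
  have hB0 : (B : ℝ) ≤ c * finrank K Ω := by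
    rw [hB]
    exact Nat.floor_le (by positivity)
  refine ⟨finrank M Ω * (finrank K Ω * mm), finrank M Ω * (bb * B), ?_, ?_,
    Algebra.norm M kk, by rwa [Ne, Algebra.norm_eq_zero_iff], fun P l hP hl Q eQ hQ0 => ?_⟩
  · exact Nat.mul_pos hFM (Nat.mul_pos hF1 hmm1)
  · push_cast
    have h1 : (bb : ℝ) * B ≤ ((t + ε') * mm) * (c * finrank K Ω) :=
      mul_le_mul hbb1 hB0 (Nat.cast_nonneg _) (by positivity)
    have h2 : (finrank M Ω : ℝ) * (bb * B) ≤ finrank M Ω * (((t + ε') * mm) * (c * finrank K Ω)) :=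
      mul_le_mul_of_nonneg_left h1 (Nat.cast_nonneg _)
    have h3 : (0 : ℝ) ≤ finrank M Ω * (finrank K Ω * mm) := by positivity
    have h4 := mul_le_mul_of_nonneg_right hcε h3
    have h5 : (finrank M Ω : ℝ) * (((t + ε') * mm) * (c * finrank K Ω)) =
        c * t * (finrank M Ω * (finrank K Ω * mm)) +
          c * ε' * (finrank M Ω * (finrank K Ω * mm)) := by ring
    rw [h5] at h2
    linarith
  · have hQ : Over Q P eQ := hQ0
    obtain ⟨ν, ⟨G0, hG01, hG02, hG03, hG04⟩, hν⟩ :=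
      exists_mu_cover (Ω := M) (Bd := Bd) hy hn hx hE hσ hP Q
    refine ⟨G0, hG01, hG02, hG03, ?_⟩
    have hνG : ∀ G : Fin r → Derivation ℂ K K, (∀ k, DerReg P (G k)) →
        (P ∈ Bd → ∀ k, DerLog P (G k)) → σ G ≠ 0 → ν ≤ Q.ord (σ G) := by
      intro G hG1 hG2 hG3
      choose GM hGM using fun k => exists_lift (L := M) hn (G k)
      have h1 := hν GM (fun k f hf => by
        rw [hGM]
        exact hQ.reg.2 (hG1 k f hf)) (fun hB' k f => by
        rw [hGM, ← map_div₀]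
        exact hQ.reg.2 (hG2 hB' k f))
      rw [cpull_lift hx hE σ hGM] at h1
      exact h1.resolve_left hG3
    rw [hG04]
    have h0yl : (0 : ℤ) ≤ P.ord (y i0 / y l) :=
      (P.reg_iff (div_ne_zero hi0 hl.1)).1 (hl.2 i0)
    -- the bound on `Ω`
    have main : ∀ (R : Place ℂ Ω) (e1 : ℕ), Over R Q e1 →
        (e1 : ℤ) * ((finrank K Ω * mm : ℕ) * ν - (bb * B : ℕ) * (eQ * P.ord (y i0 / y l))) ≤
          R.ord kk := by
      intro R e1 hRQ
      have hRP : Over R P (e1 * eQ) := over_tower (K := K) (Ω := Ω) hRQ hQ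
      choose T hT hTo using fun τ => conj_place hRP τ
      have h1 := hq2 P l hP hl R _ hRP T hT hTo
      have hone : ∀ τ : Ω ≃ₐ[K] Ω, (mm : ℤ) * (e1 * ν) ≤
          R.ord (τ (k τ ^ s τ)) - bb * μ (T τ) := by
        intro τ
        have hov' := over_bel K' (T τ)
        have h1' := over_bel L (T τ)
        obtain ⟨e2, h2, -⟩ := over_of_tower (K := K) h1' (hT τ)
        obtain ⟨e2', h2', -⟩ := over_of_tower (K := K') h1' hov'
        obtain ⟨hP', -⟩ := hfe _ P e2 h2 hP _ e2' h2'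
        obtain ⟨l', hl'⟩ := exists_centred hy' (bel K' (T τ))
        obtain ⟨G, hG1, hG2, hG3, hG4⟩ := hk τ _ l' hP' hl' (T τ) _ hov'
        choose D hD using fun j => exists_lift (L := Ω) hn' (G j)
        rw [cten_apply hx' hE' hD' (στ τ) hD] at hG3 hG4
        obtain ⟨ντ, ⟨G1, hG11, hG12, hG13, hG14⟩, hντ⟩ :=
          exists_mu_cover (Ω := Ω) (Bd := Bd) hy hn hx hE (hστ0 τ) hP (T τ)
        have h3 := (hντ D (fun j f hf => (lift_adm (L := L) hn' hy' hfe (hT τ) hP hov' (hG1 j)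
            (fun h => hG2 h j) (hD j)).1 f hf)
          (fun hB' j f => (lift_adm (L := L) hn' hy' hfe (hT τ) hP hov' (hG1 j)
            (fun h => hG2 h j) (hD j)).2 hB' f)).resolve_left hG3
        have h4 : (e1 : ℤ) * ν ≤ ντ := by
          have h5 : σ G1 ≠ 0 := by
            intro h6
            apply hG13
            have h7 := hστv τ G1
            rw [h6, map_zero] at h7
            exact (map_eq_zero _).1 h7
          rw [← hG14, ← hTo τ, hστv τ G1, hRQ.2]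
          exact mul_le_mul_of_nonneg_left (hνG G1 hG11 hG12 h5) (Int.natCast_nonneg _)
        have hyl : algebraMap K' Ω (y' l' / y' i) ≠ 0 := by
          rw [Ne, map_eq_zero]
          exact div_ne_zero hl'.1 hi
        have h5 : μ (T τ) ≤ (T τ).ord (algebraMap K' Ω (y' l' / y' i)) := hμ.le _ _ ⟨l', rfl⟩ hyl
        have h6 : (T τ).ord (algebraMap K' Ω (y' l' / y' i)) =
            -((ram K' (T τ) : ℤ) * (bel K' (T τ)).ord (y' i / y' l')) := by
          rw [← hov'.2, ← (T τ).ord_inv, ← map_inv₀, inv_div]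
        rw [h6] at h5
        have h7 : R.ord (τ (k τ ^ s τ)) = s τ * (T τ).ord (k τ) := by
          rw [hTo, (T τ).ord_pow]
        rw [h7]
        have hs0 : (0 : ℤ) ≤ s τ := Int.natCast_nonneg _
        have hm0 : (0 : ℤ) ≤ m τ := Int.natCast_nonneg _
        have hb0 : (0 : ℤ) ≤ b τ := Int.natCast_nonneg _
        have h8 : (m τ : ℤ) * (e1 * ν) ≤ (T τ).ord (k τ) + b τ * (-μ (T τ)) := by
          have h9 := mul_le_mul_of_nonneg_left (h4.trans h3) hm0
          have h10 : (b τ : ℤ) * ((ram K' (T τ) : ℤ) * (bel K' (T τ)).ord (y' i / y' l')) ≤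
              b τ * (-μ (T τ)) := mul_le_mul_of_nonneg_left (by linarith) hb0
          linarith
        have h11 := mul_le_mul_of_nonneg_left h8 hs0
        have h12 : (mm : ℤ) = m τ * s τ := by
          rw [← hms τ]
          push_cast
          ring
        have h13 : ((b τ : ℤ) * s τ) * (-μ (T τ)) ≤ bb * (-μ (T τ)) := by
          refine mul_le_mul_of_nonneg_right ?_ (by have := hμ0 (T τ); omega)
          exact_mod_cast hbs τ
        rw [h12]
        nlinarith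
      have h2 : ∑ τ : Ω ≃ₐ[K] Ω, (mm : ℤ) * (e1 * ν) ≤
          ∑ τ : Ω ≃ₐ[K] Ω, (R.ord (τ (k τ ^ s τ)) - bb * μ (T τ)) :=
        Finset.sum_le_sum fun τ _ => hone τ
      rw [Finset.sum_const, Finset.card_univ, hG, nsmul_eq_mul, Finset.sum_sub_distrib,
        ← Finset.mul_sum] at h2
      have h3 : R.ord kk = ∑ τ : Ω ≃ₐ[K] Ω, R.ord (τ (k τ ^ s τ)) +
          bb * ((e1 * eQ : ℕ) * P.ord q2) := by
        rw [hkk, R.ord_mul hprod0 (pow_ne_zero _ hq2Ω), R.ord_pow, hRP.2,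
          ord_finprod R _ _ fun τ _ => by
            rw [Ne, map_eq_zero]
            exact pow_ne_zero _ (hk0 τ)]
      rw [h3]
      have h4 := mul_le_mul_of_nonneg_left h1 (show (0 : ℤ) ≤ bb from Int.natCast_nonneg _)
      push_cast at h4 h2 ⊢
      nlinarith
    have h2 := norm_ord_ge (K := M) (Ω := Ω) (P := Q) (R := (exists_above (k := ℂ) (K := M)
      (L := Ω) Q).choose) (E := (exists_above (k := ℂ) (K := M) (L := Ω) Q).choose_spec.choose)
      (exists_above (k := ℂ) (K := M) (L := Ω) Q).choose_spec.choose_spec (z := kk) hkk0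
      (v := 1) one_ne_zero (g := 0)
      (d := ((finrank K Ω * mm : ℕ) * ν - (bb * B : ℕ) * (eQ * P.ord (y i0 / y l)) : ℤ))
      (ρ := 0) (fun R1 e hR1 => by
        have h3 := main R1 e hR1
        have h4 : (((e : ℤ) * ((finrank K Ω * mm : ℕ) * ν - (bb * B : ℕ) *
          (eQ * P.ord (y i0 / y l))) : ℤ) : ℝ) ≤ ((R1.ord kk : ℤ) : ℝ) := by exact_mod_cast h3
        push_cast at h4 ⊢
        linarith) (by
        have h3 := main _ _ (exists_above (k := ℂ) (K := M) (L := Ω) Q).choose_spec.choose_spec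
        have h4 : ((((exists_above (k := ℂ) (K := M) (L := Ω) Q).choose_spec.choose : ℤ) *
          ((finrank K Ω * mm : ℕ) * ν - (bb * B : ℕ) *
          (eQ * P.ord (y i0 / y l))) : ℤ) : ℝ) ≤
            ((((exists_above (k := ℂ) (K := M) (L := Ω) Q).choose).ord kk : ℤ) : ℝ) := by
          exact_mod_cast h3
        push_cast at h4 ⊢
        linarith)
    rw [zero_div, add_zero, Nat.cast_zero, zero_mul, sub_zero] at h2
    have h3 : (finrank M Ω : ℤ) * ((finrank K Ω * mm : ℕ) * ν - (bb * B : ℕ) *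
        (eQ * P.ord (y i0 / y l))) ≤ Q.ord (Algebra.norm M kk) := by exact_mod_cast h2
    push_cast at h3 ⊢
    linarith

end

end Pool.Agent.R887
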