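import Pool.Agent.R887.TrvU

/-!
Anti-pseudo-effective subsheaves have at most one section.
-/

set_option autoImplicit false
set_option linter.overlappingInstances false
set_option linter.unusedSectionVars false

open FF Module MvPolynomial Pool.Agent.W602.GT Pool.Agent.W603.LV Pool.Agent.W619.PQ
open Pool.Agent.Y172 Pool.Agent.Y191

namespace Pool.Agent.R887

section

variable {K : Type} [Field K] [Algebra ℂ K] {N n r : ℕ} {y : Fin (N + 1) → K}

/-- the degrees of the quotients of functions with bounded poles -/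
theorem ratio_degree (hy : NormalModel y) (hn : Algebra.trdeg ℂ K = n) (hn0 : 0 < n) {d : ℕ}
    (hd : ∀ u : Fin (n - 1) → K, (∀ a, IsPencil y (u a)) → ∀ v, IsPencil y v →
      degreeOver u (fun _ : Fin 1 => v) ≤ d) {l0 : Fin (N + 1)} (hl0 : y l0 ≠ 0) {M : ℕ}
    {f0 f1 : K} (h0 : f0 ≠ 0) (h1 : f1 ≠ 0)
    (hh0 : ∀ P l, IsPrimeDivisor y P → Centred y l P → 0 ≤ P.ord f0 + M * P.ord (y l0 / y l))
    (hh1 : ∀ P l, IsPrimeDivisor y P → Centred y l P → 0 ≤ P.ord f1 + M * P.ord (y l0 / y l))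
    {u : Fin (n - 1) → K} (hu : ∀ a, IsPencil y (u a)) :
    degreeOver u (fun _ : Fin 1 => f1 / f0) ≤ M * d := by
  classical
  have hb : ∀ f : K, f ≠ 0 → (∀ P l, IsPrimeDivisor y P → Centred y l P →
      0 ≤ P.ord f + M * P.ord (y l0 / y l)) → Bnd ℂ (affL K y l0) M f := fun f hf hh =>
    bnd_of_prime hy hl0 hf fun Q P e hov hP l hl => by
      have h1 := hh P l hP hl
      obtain ⟨h3, h4⟩ := Pool.Agent.Y172.over_unique' hov
        (show Over Q Q 1 from ⟨Nat.one_pos, fun f => by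
          rw [Nat.cast_one, one_mul]
          rfl⟩)
      rw [← h3]
      exact h1
  have hone : (1 : K) ∈ affL K y l0 := ⟨l0, by simp only []; rw [div_self hl0, map_one]⟩
  obtain ⟨v, hv, hle⟩ := replace_one (k := ℂ) (K := K) (ι := Fin (n - 1) ⊕ Fin 1) (by
    rw [hn, Nat.card_eq_fintype_card, Fintype.card_sum, Fintype.card_fin, Fintype.card_fin]
    congr 1
    omega) (S := affL K y l0) (Set.finite_range _) hone h0 h1 (hb f0 h0 hh0) (hb f1 h1 hh1)
    (Sum.elim u fun _ => f1 / f0) (Sum.inr 0) (by rw [Sum.elim_inr])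
  have hv' : IsPencil y v := by
    have h1 : affL K y l0 = aff y l0 := by
      unfold affL aff
      congr 1
    rw [h1] at hv
    exact pencil_of_span hl0 hv
  have h1 : Function.update (Sum.elim u fun _ : Fin 1 => f1 / f0) (Sum.inr 0) v =
      Sum.elim u fun _ : Fin 1 => v := by
    funext k
    rcases k with k | k
    · rw [Function.update_of_ne (by simp), Sum.elim_inl, Sum.elim_inl]
    · rw [Subsingleton.elim k 0, Function.update_self, Sum.elim_inr]
  rw [h1] at hle
  have h2 := hd u hu v hv'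
  rw [degreeOver_eq] at h2 ⊢
  exact hle.trans (Nat.mul_le_mul_left _ h2)

/-- the degree of a power -/
theorem degree_pow (hn : Algebra.trdeg ℂ K = n) (hn0 : 0 < n) {u : Fin (n - 1) → K} {w : K}
    {q : ℕ} (hq : 1 ≤ q) :
    q * degreeOver u (fun _ : Fin 1 => w) ≤ degreeOver u (fun _ : Fin 1 => w ^ q) := by
  classical
  rw [degreeOver_eq, degreeOver_eq]
  by_cases h0 : dg ℂ (Sum.elim u fun _ : Fin 1 => w) = 0
  · rw [h0, mul_zero]
    exact Nat.zero_le _
  have h1 := dg_pow_all (k := ℂ) (by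
    rw [hn, Nat.card_eq_fintype_card, Fintype.card_sum, Fintype.card_fin, Fintype.card_fin]
    congr 1
    omega) (Sum.elim u fun _ : Fin 1 => w) ({Sum.inr 0} : Finset (Fin (n - 1) ⊕ Fin 1))
    (q := q) hq h0
  have h2 : (fun i => if i ∈ ({Sum.inr 0} : Finset (Fin (n - 1) ⊕ Fin 1)) then
      (Sum.elim u fun _ : Fin 1 => w) i ^ q else (Sum.elim u fun _ : Fin 1 => w) i) =
      Sum.elim u fun _ : Fin 1 => w ^ q := by
    funext k
    rcases k with k | k
    · simp
    · rw [Subsingleton.elim k 0]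
      simp
  rw [h2, Finset.card_singleton, pow_one] at h1
  exact h1.ge

/-- **Anti-pseudo-effective subsheaves have Kodaira dimension at most zero.** -/
theorem tens_kod (hy : NormalModel y) (hn : Algebra.trdeg ℂ K = n) (hn0 : 0 < n)
    {Bd : Set (Place ℂ K)} {σ : Tensor K r} (ht : ∀ t : ℝ, 0 < t → TensorLe y Bd σ t) :
    ¬ TensorKodairaGe n Bd σ 1 := by
  classical
  rintro ⟨m, hm, g, hg, hg0, hind⟩
  have hg1 : g 1 ≠ 0 := by
    intro h
    have h1 := hind.ne_zero 0
    simp only [Fin.succ_zero_eq_one] at h1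
    exact h1 (by rw [h, zero_div])
  obtain ⟨d, hd⟩ := bezout hy hn
  have hd' : ∀ u : Fin (n - 1) → K, (∀ a, IsPencil y (u a)) → ∀ v, IsPencil y v →
      degreeOver u (fun _ : Fin 1 => v) ≤ d := fun u hu v hv => by
    rw [degreeOver_eq]
    refine hd (by
      rw [Nat.card_eq_fintype_card, Fintype.card_sum, Fintype.card_fin, Fintype.card_fin]
      omega) _ fun k => ?_
    rcases k with k | k
    · exact hu k
    · exact hv
  obtain ⟨l0, hl0⟩ := hy.ne
  have hzero : ∀ u : Fin (n - 1) → K, (∀ a, IsPencil y (u a)) →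
      degreeOver u (fun _ : Fin 1 => g 1 / g 0) = 0 := by
    intro u hu
    obtain ⟨m1, b, hm1, hb, k, hk0, hk⟩ := ht (1 / (m * d + 1)) (by positivity) l0 hl0
    have hm10 : (0 : ℤ) < m1 := by exact_mod_cast hm1
    have hbd : ∀ i, g i ≠ 0 → g i ^ m1 * k ^ m ≠ 0 ∧ ∀ P l, IsPrimeDivisor y P →
        Centred y l P → 0 ≤ P.ord (g i ^ m1 * k ^ m) + (m * b : ℕ) * P.ord (y l0 / y l) := by
      intro i hgi
      refine ⟨mul_ne_zero (pow_ne_zero _ hgi) (pow_ne_zero _ hk0), fun P l hP hl => ?_⟩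
      obtain ⟨E, hE1, hE2, hE3, hE4⟩ := hk P l hP hl
      have hPd : Divisorial n P := hP.divisorial hy hn
      have h1 : P.Reg (g i * σ E ^ m) := by
        by_cases hB : P ∈ Bd
        · exact (hg i).1 P hPd E (hE2 hB)
        · exact (hg i).2 P hPd hB E hE1
      rw [P.reg_iff (mul_ne_zero hgi (pow_ne_zero _ hE3)), P.ord_mul hgi (pow_ne_zero _ hE3),
        P.ord_pow] at h1
      rw [P.ord_mul (pow_ne_zero _ hgi) (pow_ne_zero _ hk0), P.ord_pow, P.ord_pow]
      have h2 := mul_nonneg hm10.le h1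
      have h3 := mul_le_mul_of_nonneg_left hE4 (show (0 : ℤ) ≤ m from Int.natCast_nonneg _)
      push_cast
      linarith
    obtain ⟨h1, h2⟩ := hbd 0 hg0
    obtain ⟨h3, h4⟩ := hbd 1 hg1
    have h5 := ratio_degree hy hn hn0 hd' hl0 h1 h3 h2 h4 hu
    have h6 : g 1 ^ m1 * k ^ m / (g 0 ^ m1 * k ^ m) = (g 1 / g 0) ^ m1 := by
      rw [mul_div_mul_right _ _ (pow_ne_zero _ hk0), div_pow]
    rw [h6] at h5
    have h7 := (degree_pow (u := u) (w := g 1 / g 0) hn hn0 hm1).trans h5
    by_contra h8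
    have h9 : 1 ≤ degreeOver u (fun _ : Fin 1 => g 1 / g 0) := Nat.one_le_iff_ne_zero.2 h8
    have h10 : m1 ≤ m * b * d := (Nat.le_mul_of_pos_right m1 h9).trans h7
    have h11 : (m1 : ℝ) ≤ m * b * d := by exact_mod_cast h10
    have h12 : (b : ℝ) * (m * d + 1) ≤ m1 := by
      have h13 := mul_le_mul_of_nonneg_right hb (show (0 : ℝ) ≤ m * d + 1 by positivity)
      have h14 : 1 / ((m : ℝ) * d + 1) * m1 * (m * d + 1) = m1 := by field_simp
      linarith
    have h13 : (b : ℝ) ≤ 0 := by linarith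
    have h14 : b = 0 := by
      have h15 : (b : ℝ) = 0 := le_antisymm h13 (Nat.cast_nonneg _)
      exact_mod_cast h15
    rw [h14, mul_zero, zero_mul] at h10
    omega
  obtain ⟨z, hz⟩ := const_of_degree hy hn hn0 hzero
  have h1 : Transcendental ℂ (g (Fin.succ 0) / g 0) := hind.transcendental 0
  apply h1
  rw [Fin.succ_zero_eq_one, ← hz]
  exact isAlgebraic_algebraMap z

end

end Pool.Agent.R887
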