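import Pool.Agent.R887.TrvW

/-!
Sections of the log canonical divisor of a pair with pseudo-effective anticanonical divisor.
-/

set_option autoImplicit false
set_option linter.overlappingInstances false
set_option linter.unusedSectionVars false

open FF Module MvPolynomial Pool.Agent.W602.GT Pool.Agent.W603.LV Pool.Agent.W619.PQ
open Pool.Agent.Y172 Pool.Agent.Y191

namespace Pool.Agent.R887

section

variable {K : Type} [Field K] [Algebra ℂ K] {N n : ℕ} {y : Fin (N + 1) → K}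

/-- If `-(K_X + Δ)` is pseudo-effective, the sections of `m (K_X + Δ)` have no zeros. -/
theorem no_zeros_of_anti (hy : NormalModel y) (hn : Algebra.trdeg ℂ K = n) (hn0 : 0 < n)
    {Δ : Place ℂ K → ℝ} (h : AntiPseudoEffectiveR y n Δ) {m : ℕ} (hm : 1 ≤ m)
    {η : (Fin n → Derivation ℂ K K) → K} (hη : IsPluri m η)
    (hsec : ∀ P, IsPrimeDivisor y P → ∃ z : ℚ, OrdEq P η z ∧ -(m * Δ P) ≤ z) :
    ∀ P, IsPrimeDivisor y P → ∀ z : ℚ, OrdEq P η z → (z : ℝ) = -(m * Δ P) := by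
  classical
  obtain ⟨x, E, hx, hE⟩ := exists_crd hn (k := ℂ) (K := K)
  obtain ⟨κ, -, hκ⟩ := exists_ordc hy hn hx hE
  intro P0 hP0 z0 hz0
  obtain ⟨i, hi⟩ := hy.ne
  obtain ⟨h0, h1⟩ := val_of_ordEq hκ hP0 hη hz0
  have hord : ∀ P, IsPrimeDivisor y P → -((m : ℝ) * (κ P + Δ P)) ≤ P.ord (η E) := by
    intro P hP
    obtain ⟨z, hz, hz1⟩ := hsec P hP
    rw [(val_of_ordEq hκ hP hη hz).2] at hz1
    push_cast at hz1
    linarith
  have hge : -(m * Δ P0) ≤ (z0 : ℝ) := by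
    rw [h1]
    push_cast
    have := hord P0 hP0
    linarith
  refine le_antisymm ?_ hge
  obtain ⟨C, hC0, hC⟩ := small_zeros hy hn hn0 hi hP0
  have hm0 : (0 : ℝ) < m := by exact_mod_cast hm
  refine le_of_forall_pos_le_add fun ε hε => ?_
  obtain ⟨δ, hδ⟩ : ∃ δ : ℝ, δ = ε / (m * (C + 1)) := ⟨_, rfl⟩
  have hδ0 : 0 < δ := by
    rw [hδ]
    positivity
  obtain ⟨r, g, hr, hg, θ, hθ, hθo⟩ := h i hi δ hδ0
  have hθE : θ E ≠ 0 := by
    obtain ⟨l, hl⟩ := exists_centred hy P0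
    obtain ⟨z, hz, -⟩ := hθo P0 l hP0 hl
    exact (val_of_ordEq hκ hP0 hθ hz).1
  have hb : ∀ P l, IsPrimeDivisor y P → Centred y l P →
      (r : ℝ) * (κ P + Δ P) ≤ P.ord (θ E)⁻¹ + g * P.ord (y i / y l) := by
    intro P l hP hl
    obtain ⟨z, hz, hz1⟩ := hθo P l hP hl
    rw [(val_of_ordEq hκ hP hθ hz).2] at hz1
    rw [P.ord_inv]
    push_cast at hz1 ⊢
    linarith
  have hq : (θ E)⁻¹ ≠ 0 := inv_ne_zero hθE
  have hr0 : (0 : ℝ) < r := by exact_mod_cast hr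
  have h3 := hC (m * g) ((θ E)⁻¹ ^ m * η E ^ r) (r * (z0 + m * Δ P0))
    (mul_ne_zero (pow_ne_zero _ hq) (pow_ne_zero _ h0)) (fun P l hP hl => by
      rw [P.ord_mul (pow_ne_zero _ hq) (pow_ne_zero _ h0), P.ord_pow, P.ord_pow]
      have h4 := mul_le_mul_of_nonneg_left (hb P l hP hl) hm0.le
      have h5 := mul_le_mul_of_nonneg_left (hord P hP) hr0.le
      push_cast at h4 h5 ⊢
      linarith) (fun l hl => by
      rw [P0.ord_mul (pow_ne_zero _ hq) (pow_ne_zero _ h0), P0.ord_pow, P0.ord_pow]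
      have h4 := mul_le_mul_of_nonneg_left (hb P0 l hP0 hl) hm0.le
      rw [h1]
      push_cast at h4 ⊢
      linarith)
  have h4 : C * ((m * g : ℕ) : ℝ) ≤ r * ε := by
    have h5 : ((m * g : ℕ) : ℝ) ≤ m * (δ * r) := by
      push_cast
      exact mul_le_mul_of_nonneg_left hg hm0.le
    have h6 := mul_le_mul_of_nonneg_left h5 hC0
    have h7 : C * (m * (δ * r)) ≤ (C + 1) * (m * (δ * r)) :=
      mul_le_mul_of_nonneg_right (by linarith) (by positivity)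
    have h8 : (C + 1) * (m * (δ * r)) = r * ε := by
      rw [hδ]
      field_simp
    linarith
  have h5 : (r : ℝ) * (z0 + m * Δ P0) ≤ r * ε := h3.trans h4
  have h6 := le_of_mul_le_mul_left h5 hr0
  linarith

end

section

variable {K L : ℕ → Type} [∀ k, Field (K k)] [∀ k, Algebra ℂ (K k)]
  [∀ k, Field (L k)] [∀ k, Algebra ℂ (L k)] {N : ℕ → ℕ} {y : ∀ k, Fin (N k + 1) → K k} {n : ℕ}

/-- limits of the shifted products -/
theorem tail_limit {c τ : ℕ → ℝ} (hc0 : ∀ k, 0 < c k)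
    (hlim : Filter.Tendsto (fun s => (∏ l ∈ Finset.range s, c l) * τ s) Filter.atTop (nhds 0))
    (k : ℕ) {ε : ℝ} (hε : 0 < ε) :
    ∃ s : ℕ, (∏ l ∈ Finset.range s, c (k + l)) * τ (k + s) < ε := by
  have hp : 0 < ∏ l ∈ Finset.range k, c l := Finset.prod_pos fun l _ => hc0 l
  have h1 : ∀ᶠ s in Filter.atTop, (∏ l ∈ Finset.range s, c l) * τ s <
      (∏ l ∈ Finset.range k, c l) * ε :=
    hlim.eventually_lt_const (mul_pos hp hε)
  obtain ⟨s0, hs0⟩ := Filter.eventually_atTop.1 h1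
  refine ⟨s0, ?_⟩
  have h2 := hs0 (k + s0) (Nat.le_add_left _ _)
  rw [Finset.prod_range_add, mul_assoc] at h2
  exact lt_of_mul_lt_mul_left h2 hp.le

/-- **Towers of finite multi-valued maps of pairs.** -/
theorem tower_main (hy : ∀ k, NormalModel (y k)) (hn : ∀ k, Algebra.trdeg ℂ (K k) = n)
    (hn0 : 0 < n) {Δ : ∀ k, Place ℂ (K k) → ℝ} (φ : ∀ k, K k →ₐ[ℂ] L k)
    (ψ : ∀ k, K (k + 1) →ₐ[ℂ] L k) (hψ : ∀ k, FiniteDimensional (ψ k).fieldRange (L k))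
    (hlog : ∀ k, FiniteLogPullBackLe (φ k) (ψ k) (y k) (Δ k) (y (k + 1)) (Δ (k + 1)))
    {c τ : ℕ → ℝ} (hc0 : ∀ k, 0 < c k)
    (hc : ∀ k, MultiDegreeLe (φ k) (ψ k) (y k) (y (k + 1)) (n - 1) 1 (c k))
    (hτ0 : ∀ k, 0 ≤ τ k) (hτ : ∀ k, ThresholdLe (y k) n (Δ k) (τ k))
    (hτ' : ∀ k, LowerThresholdLe (y k) n (Δ k) (τ k))
    (hlim : Filter.Tendsto (fun s => (∏ l ∈ Finset.range s, c l) * τ s) Filter.atTop (nhds 0)) :
    (∀ k, AntiPseudoEffectiveR (y k) n (Δ k)) ∧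
    (∀ k, PseudoEffectiveR (y k) n (Δ k) → NumTrivialR (y k) n (Δ k) ∧
      CrepantOver (φ k) (ψ k) (y k) (Δ k) (Δ (k + 1))) ∧
    ((∀ k, CrepantOver (φ k) (ψ k) (y k) (Δ k) (Δ (k + 1))) →
      ∀ k, NumTrivialR (y k) n (Δ k)) := by
  have h1 : ∀ k, AntiPseudoEffectiveR (y k) n (Δ k) := by
    intro k
    refine thresholdLe_zero (thresholdLe_of_forall fun ε hε => ?_)
    obtain ⟨s, hs⟩ := tail_limit hc0 hlim k hε
    refine (tower_upper hy hn hn0 φ ψ hψ hlog hc s k (hτ0 _) (hτ _)).2.mono ?_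
    linarith
  refine ⟨h1, fun k hk => ⟨⟨hk, h1 k⟩, crepant_of_psef (hy k) (hn k) hn0 (hy (k + 1))
    (hn (k + 1)) (φ k) (ψ k) (hψ k) (hlog k) (hc k) hk (h1 (k + 1))⟩, fun hcr k => ⟨?_, h1 k⟩⟩
  refine lowerThresholdLe_zero (lowerThresholdLe_of_forall fun ε hε => ?_)
  obtain ⟨s, hs⟩ := tail_limit hc0 hlim k hε
  refine (tower_lower hy hn hn0 φ ψ hψ (fun k P hP Q e hQ P' e' hQ' => ?_) hc s k (hτ0 _)
    (hτ' _)).2.mono ?_
  · exact ⟨(hlog k P hP Q e hQ P' e' hQ').1, (hcr k P hP Q e hQ P' e' hQ').ge⟩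
  · linarith

end

end Pool.Agent.R887
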