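import Pool.Agent.R887.AbsB
import Pool.Agent.R887.TrvX
import Pool.Agent.R887.TrvV

/-!
Absolute bounds for the rank one subsheaves of the tensor powers: existence, correspondences, towers.
-/

set_option autoImplicit false
set_option linter.overlappingInstances false
set_option linter.unusedSectionVars false

open FF Module MvPolynomial Pool.Agent.W602.GT Pool.Agent.W603.LV Pool.Agent.W619.PQ
open Pool.Agent.Y172 Pool.Agent.Y191

namespace Pool.Agent.R887

/-- a Galois extension above two finite extensions -/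
theorem exists_top (K L M : Type) [Field K] [CharZero K] [Field L] [Field M] [Algebra K L]
    [Algebra K M] [FiniteDimensional K L] [FiniteDimensional K M] :
    ∃ (Ω : Type) (_ : Field Ω) (_ : Algebra K Ω) (_ : L →ₐ[K] Ω) (_ : M →ₐ[K] Ω),
      FiniteDimensional K Ω ∧ IsGalois K Ω := by
  let A := AlgebraicClosure L
  let j1 : L →ₐ[K] A := IsScalarTower.toAlgHom K L A
  let j2 : M →ₐ[K] A := IsAlgClosed.lift
  let F : IntermediateField K A := j1.fieldRange ⊔ j2.fieldRange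
  have hf1 : FiniteDimensional K j1.fieldRange :=
    (AlgEquiv.ofInjectiveField j1).toLinearEquiv.finiteDimensional
  have hf2 : FiniteDimensional K j2.fieldRange :=
    (AlgEquiv.ofInjectiveField j2).toLinearEquiv.finiteDimensional
  have hfF : FiniteDimensional K F := IntermediateField.finiteDimensional_sup _ _
  let Ω := IntermediateField.normalClosure K F A
  have hle : F ≤ Ω := IntermediateField.le_normalClosure F
  have h1 : ∀ z : L, j1 z ∈ Ω := fun z => hle (le_sup_left (a := j1.fieldRange)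
    (b := j2.fieldRange) ⟨z, rfl⟩)
  have h2 : ∀ z : M, j2 z ∈ Ω := fun z => hle (le_sup_right (a := j1.fieldRange)
    (b := j2.fieldRange) ⟨z, rfl⟩)
  have hfin : FiniteDimensional K Ω := inferInstance
  have hnorm : Normal K Ω := inferInstance
  exact ⟨Ω, inferInstance, inferInstance, j1.codRestrict Ω.toSubalgebra h1,
    j2.codRestrict Ω.toSubalgebra h2, hfin, IsGalois.mk⟩

section

variable {K K' L : Type} [Field K] [Algebra ℂ K] [Field K'] [Algebra ℂ K'] [Field L]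
  [Algebra ℂ L] {N N' : ℕ} {y : Fin (N + 1) → K} {y' : Fin (N' + 1) → K'} {n : ℕ}

/-- **Absolute bounds and correspondences.** -/
theorem abs_step (hy : NormalModel y) (hn : Algebra.trdeg ℂ K = n) (hn0 : 0 < n)
    (hy' : NormalModel y') (hn' : Algebra.trdeg ℂ K' = n) {Bd : Set (Place ℂ K)}
    {Bd' : Set (Place ℂ K')} (φ : K →ₐ[ℂ] L) (ψ : K' →ₐ[ℂ] L)
    (hψ0 : FiniteDimensional ψ.fieldRange L) (hfe : FiniteEtale φ ψ y Bd y' Bd')
    {c : ℝ} (hc : MultiDegreeLe φ ψ y y' (n - 1) 1 c) {C : ℝ} (hC : AbsTensorLe y' Bd' C) :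
    0 ≤ c ∧ AbsTensorLe y Bd (c * C) := by
  have hess' := hy'.ess
  have hess := hy.ess
  let _ : Algebra K L := φ.toRingHom.toAlgebra
  let _ : Algebra K' L := ψ.toRingHom.toAlgebra
  have hst : IsScalarTower ℂ K L := IsScalarTower.of_algebraMap_eq fun c => (φ.commutes c).symm
  have hst' : IsScalarTower ℂ K' L := IsScalarTower.of_algebraMap_eq fun c => (ψ.commutes c).symm
  have hfd' : FiniteDimensional K' L := fd_of_range ψ hψ0
  have hessL : Algebra.EssFiniteType ℂ L := by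
    have h1 : Algebra.EssFiniteType K' L := inferInstance
    exact Algebra.EssFiniteType.comp ℂ K' L
  have hnL : Algebra.trdeg ℂ L = n := trdeg_up (K := K') hn'
  have hfd : FiniteDimensional K L := finite_map hn hnL
  have hdeg : mapDegree φ = Module.finrank K L := by
    unfold mapDegree
    let e : K ≃ₐ[ℂ] φ.fieldRange := AlgEquiv.ofInjectiveField φ
    refine (Algebra.finrank_eq_of_equiv_equiv e.toRingEquiv (RingEquiv.refl L) ?_).symm
    ext x
    rfl
  have hc0 : 0 ≤ c := multi_nonneg hy hy' hc (by rw [hdeg]; exact Module.finrank_pos)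
  refine ⟨hc0, fun M _ _ _ _ hM r σ hσ => ?_⟩
  have hcK : CharZero K := charZero_of_injective_algebraMap (algebraMap ℂ K).injective
  obtain ⟨Ω, iF, iK, j1, j2, hfin, hgal⟩ := exists_top K L M
  let _ : Algebra L Ω := j1.toRingHom.toAlgebra
  let _ : Algebra M Ω := j2.toRingHom.toAlgebra
  let _ : Algebra ℂ Ω := ((algebraMap K Ω).comp (algebraMap ℂ K)).toAlgebra
  have htow : IsScalarTower ℂ K Ω := IsScalarTower.of_algebraMap_eq fun _ => rfl
  have ht1 : IsScalarTower K L Ω := IsScalarTower.of_algebraMap_eq fun z => (j1.commutes z).symm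
  have ht2 : IsScalarTower K M Ω := IsScalarTower.of_algebraMap_eq fun z => (j2.commutes z).symm
  have ht3 : IsScalarTower ℂ L Ω := IsScalarTower.of_algebraMap_eq fun c => by
    rw [IsScalarTower.algebraMap_apply ℂ K L, ← IsScalarTower.algebraMap_apply K L Ω]
    rfl
  have ht4 : IsScalarTower ℂ M Ω := IsScalarTower.of_algebraMap_eq fun c => by
    rw [IsScalarTower.algebraMap_apply ℂ K M, ← IsScalarTower.algebraMap_apply K M Ω]
    rfl
  have hfinL : FiniteDimensional L Ω := FiniteDimensional.right K L Ω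
  have hfinM : FiniteDimensional M Ω := FiniteDimensional.right K M Ω
  let ik' : Algebra K' Ω := ((algebraMap L Ω).comp (algebraMap K' L)).toAlgebra
  have ht5 : IsScalarTower K' L Ω := IsScalarTower.of_algebraMap_eq fun _ => rfl
  have ht6 : IsScalarTower ℂ K' Ω := IsScalarTower.of_algebraMap_eq fun c => by
    rw [IsScalarTower.algebraMap_apply ℂ L Ω, IsScalarTower.algebraMap_apply ℂ K' L]
    rfl
  have hfinK' : FiniteDimensional K' Ω := FiniteDimensional.trans K' L Ω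
  rw [mul_assoc]
  exact abs_aux (Ω := Ω) (L := L) hy hn hn0 hy' hn' φ ψ (fun _ => rfl) (fun _ => rfl) hdeg
    (fun Q P e hov hP P' e' hov' => hfe P hP Q e hov P' e' hov') hc0 hc
    (fun σ hσ => hC Ω hfinK' r σ hσ) hσ

theorem AbsTensorLe.mono {Bd : Set (Place ℂ K)} {C C' : ℝ} (h : AbsTensorLe y Bd C)
    (hC : C ≤ C') : AbsTensorLe y Bd C' := by
  intro M _ _ _ _ hM r σ hσ i hi ε hε
  obtain ⟨m, b, hm, hb, k, hk0, hk⟩ := h M hM r σ hσ i hi ε hε
  refine ⟨m, b, hm, hb.trans ?_, k, hk0, hk⟩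
  refine mul_le_mul_of_nonneg_right ?_ (Nat.cast_nonneg _)
  have h1 := mul_le_mul_of_nonneg_right hC (show (0 : ℝ) ≤ r from Nat.cast_nonneg _)
  linarith

theorem abs_of_forall {Bd : Set (Place ℂ K)} {C : ℝ}
    (h : ∀ ε : ℝ, 0 < ε → AbsTensorLe y Bd (C + ε)) : AbsTensorLe y Bd C := by
  intro M _ _ _ _ hM r σ hσ i hi ε hε
  have hr0 : (0 : ℝ) < r + 1 := by positivity
  obtain ⟨m, b, hm, hb, k, hk0, hk⟩ := h (ε / (2 * (r + 1))) (by positivity) M hM r σ hσ i hi
    (ε / 2) (by positivity)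
  refine ⟨m, b, hm, hb.trans ?_, k, hk0, hk⟩
  refine mul_le_mul_of_nonneg_right ?_ (Nat.cast_nonneg _)
  have h1 : ε / (2 * (r + 1)) * r ≤ ε / 2 := by
    rw [div_mul_eq_mul_div, div_le_div_iff₀ (by positivity) (by norm_num)]
    nlinarith
  linarith

/-- there is an absolute bound -/
theorem exists_abs (hy : NormalModel y) (hn : Algebra.trdeg ℂ K = n)
    {Bd : Set (Place ℂ K)} (hBd : Bd.Finite) : ∃ C : ℝ, 0 ≤ C ∧ AbsTensorLe y Bd C := by
  classical
  obtain ⟨x, E, hx, hE⟩ := exists_crd hn (k := ℂ) (K := K)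
  obtain ⟨t, htfin, ht⟩ := exists_poles hy E
  obtain ⟨T, hTdef⟩ : ∃ T : Place ℂ K → ℕ, ∀ P, T P = t P + if P ∈ Bd then 1 else 0 :=
    ⟨_, fun _ => rfl⟩
  have hT : ∀ P, IsPrimeDivisor y P → ∀ z : K, z ≠ 0 →
      (T P : ℤ) ≤ P.ord z → ∀ i, DerReg P (z • E i) ∧ (P ∈ Bd → DerLog P (z • E i)) := by
    intro P hP z hz0 hz i
    rw [hTdef] at hz
    refine ⟨ht P hP z hz0 (by push_cast at hz; split_ifs at hz <;> omega) i, fun hB => ?_⟩
    rw [if_pos hB] at hz
    obtain ⟨π, hπ0, hπ⟩ := P.surj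
    have h1 := ht P hP (z / π) (div_ne_zero hz0 hπ0) (by
      rw [P.ord_div hz0 hπ0, hπ]
      push_cast at hz
      omega) i
    have h2 := log_of_reg h1 (z := π) (Or.inr hπ.ge)
    rw [smul_smul, mul_div_cancel₀ _ hπ0] at h2
    exact h2
  have hTfin : {P | IsPrimeDivisor y P ∧ (T P : ℝ) ≠ 0}.Finite := by
    refine (htfin.union hBd).subset ?_
    rintro P ⟨hP, h0⟩
    by_contra hcon
    simp only [Set.mem_union, Set.mem_ofPred_eq, not_or, not_and, not_not] at hcon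
    apply h0
    rw [hTdef, hcon.1 hP, if_neg hcon.2]
    simp
  have hfb : ∀ i, y i ≠ 0 → ∃ (q : K) (g : ℕ), q ≠ 0 ∧ ∀ P l, IsPrimeDivisor y P →
      Centred y l P → (T P : ℝ) ≤ P.ord q + g * P.ord (y i / y l) := fun i hi =>
    first_bound hy hi (D := fun P => (T P : ℝ)) hTfin
  have hfb' : ∀ i, ∃ (q : K) (g : ℕ), y i ≠ 0 → q ≠ 0 ∧ ∀ P l, IsPrimeDivisor y P →
      Centred y l P → (T P : ℝ) ≤ P.ord q + g * P.ord (y i / y l) := by
    intro i
    by_cases hi : y i = 0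
    · exact ⟨1, 0, fun h => absurd hi h⟩
    · obtain ⟨q, g, h⟩ := hfb i hi
      exact ⟨q, g, fun _ => h⟩
  choose q g hqg using hfb'
  refine ⟨∑ i, (g i : ℝ), Finset.sum_nonneg fun i _ => Nat.cast_nonneg _,
    fun M _ _ _ _ hM r σ hσ i hi ε hε => ?_⟩
  obtain ⟨hq0, hq⟩ := hqg i hi
  obtain ⟨J, hJ⟩ : ∃ J : Fin r → Fin n, σ (fun k => E (J k)) ≠ 0 := by
    by_contra hcon
    push Not at hcon
    apply hσ
    ext F
    rw [cover_coord hx hE σ F]
    exact Finset.sum_eq_zero fun I _ => by rw [hcon I, mul_zero]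
  have hqM : algebraMap K M (q i) ≠ 0 := by rwa [Ne, map_eq_zero]
  refine ⟨1, r * g i, le_rfl, ?_, σ (fun k => E (J k)) * algebraMap K M (q i) ^ r,
    mul_ne_zero hJ (pow_ne_zero _ hqM), fun P l hP hl Q e hQ0 => ?_⟩
  · have h1 : (g i : ℝ) ≤ ∑ i, (g i : ℝ) :=
      Finset.single_le_sum (f := fun i => (g i : ℝ)) (fun _ _ => Nat.cast_nonneg _)
        (Finset.mem_univ i)
    have h2 := mul_le_mul_of_nonneg_right h1 (show (0 : ℝ) ≤ r from Nat.cast_nonneg _)
    push_cast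
    linarith
  · have hQ : Over Q P e := hQ0
    obtain ⟨z, hz0, hz⟩ := exists_ord_eq P (T P)
    have hzM : algebraMap K M z ≠ 0 := by rwa [Ne, map_eq_zero]
    have hadm := hT P hP z hz0 (by rw [hz])
    have hval : (σ fun k => z • E (J k)) = algebraMap K M z ^ r * σ fun k => E (J k) := by
      rw [MultilinearMap.map_smul_univ σ (fun _ => z) (fun k => E (J k)), Finset.prod_const,
        Finset.card_univ, Fintype.card_fin, Algebra.smul_def, map_pow]
    refine ⟨fun k => z • E (J k), fun k => (hadm _).1, fun hB k => (hadm _).2 hB, ?_, ?_⟩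
    · rw [hval]
      exact mul_ne_zero (pow_ne_zero _ hzM) hJ
    · rw [hval, Q.ord_mul (pow_ne_zero _ hzM) hJ, Q.ord_mul hJ (pow_ne_zero _ hqM), Q.ord_pow,
        Q.ord_pow, hQ.2, hQ.2, hz]
      have h1 : (T P : ℤ) ≤ P.ord (q i) + g i * P.ord (y i / y l) := by exact_mod_cast hq P l hP hl
      have h2 := mul_le_mul_of_nonneg_left h1 (show (0 : ℤ) ≤ r * e by positivity)
      push_cast
      nlinarith

/-- the bound for the tensor fields of the variety itself -/
theorem AbsTensorLe.tensorLe {Bd : Set (Place ℂ K)} (h : AbsTensorLe y Bd 0) {r : ℕ}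
    {σ : Tensor K r} (hσ : σ ≠ 0) {t : ℝ} (ht : 0 < t) : TensorLe y Bd σ t := by
  intro i hi
  obtain ⟨m, b, hm, hb, k, hk0, hk⟩ := h K inferInstance r σ hσ i hi t ht
  rw [zero_mul, zero_add] at hb
  refine ⟨m, b, hm, hb, k, hk0, fun P l hP hl => ?_⟩
  obtain ⟨E, hE1, hE2, hE3, hE4⟩ := hk P l hP hl P 1 ⟨le_rfl, fun f => by
    rw [Nat.cast_one, one_mul]
    rfl⟩
  refine ⟨E, hE1, hE2, hE3, ?_⟩
  rw [Nat.cast_one, one_mul] at hE4
  exact hE4

end

section

variable {K L : ℕ → Type} [∀ k, Field (K k)] [∀ k, Algebra ℂ (K k)] [∀ k, Field (L k)]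
  [∀ k, Algebra ℂ (L k)] {N : ℕ → ℕ} {y : ∀ k, Fin (N k + 1) → K k} {n : ℕ}

/-- **Towers of finite multi-valued maps**, absolute bounds. -/
theorem tower_abs (hy : ∀ k, NormalModel (y k)) (hn : ∀ k, Algebra.trdeg ℂ (K k) = n)
    (hn0 : 0 < n) {Bd : ∀ k, Set (Place ℂ (K k))} (φ : ∀ k, K k →ₐ[ℂ] L k)
    (ψ : ∀ k, K (k + 1) →ₐ[ℂ] L k) (hψ : ∀ k, FiniteDimensional (ψ k).fieldRange (L k))
    (hfe : ∀ k, FiniteEtale (φ k) (ψ k) (y k) (Bd k) (y (k + 1)) (Bd (k + 1)))
    {c : ℕ → ℝ} (hc : ∀ k, MultiDegreeLe (φ k) (ψ k) (y k) (y (k + 1)) (n - 1) 1 (c k)) (s : ℕ) :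
    ∀ (k : ℕ) {C : ℝ}, AbsTensorLe (y (k + s)) (Bd (k + s)) C →
      AbsTensorLe (y k) (Bd k) ((∏ l ∈ Finset.range s, c (k + l)) * C) := by
  induction s with
  | zero =>
    intro k C h
    rw [Finset.prod_range_zero, one_mul]
    exact h
  | succ s ih =>
    intro k C h
    have h0 : AbsTensorLe (y (k + 1 + s)) (Bd (k + 1 + s)) C := by
      have he : k + (s + 1) = k + 1 + s := by ring
      rw [← he]
      exact h
    have h2 := ih (k + 1) h0
    obtain ⟨-, h4⟩ := abs_step (hy k) (hn k) hn0 (hy (k + 1)) (hn (k + 1)) (φ k) (ψ k) (hψ k)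
      (hfe k) (hc k) h2
    have h5 : (∏ l ∈ Finset.range (s + 1), c (k + l)) * C =
        c k * ((∏ l ∈ Finset.range s, c (k + 1 + l)) * C) := by
      rw [Finset.prod_range_succ', add_zero]
      have h6 : ∏ l ∈ Finset.range s, c (k + (l + 1)) = ∏ l ∈ Finset.range s, c (k + 1 + l) :=
        Finset.prod_congr rfl fun l _ => by
          congr 1
          ring
      rw [h6]
      ring
    rw [h5]
    exact h4

/-- **Contracting towers.** -/
theorem tower_abs_zero (hy : ∀ k, NormalModel (y k)) (hn : ∀ k, Algebra.trdeg ℂ (K k) = n)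
    (hn0 : 0 < n) {Bd : ∀ k, Set (Place ℂ (K k))} (φ : ∀ k, K k →ₐ[ℂ] L k)
    (ψ : ∀ k, K (k + 1) →ₐ[ℂ] L k) (hψ : ∀ k, FiniteDimensional (ψ k).fieldRange (L k))
    (hfe : ∀ k, FiniteEtale (φ k) (ψ k) (y k) (Bd k) (y (k + 1)) (Bd (k + 1)))
    {c C : ℕ → ℝ} (hc0 : ∀ k, 0 < c k)
    (hc : ∀ k, MultiDegreeLe (φ k) (ψ k) (y k) (y (k + 1)) (n - 1) 1 (c k))
    (hC : ∀ k, AbsTensorLe (y k) (Bd k) (C k))
    (hlim : Filter.Tendsto (fun s => (∏ l ∈ Finset.range s, c l) * C s) Filter.atTop (nhds 0))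
    (k : ℕ) : AbsTensorLe (y k) (Bd k) 0 := by
  refine abs_of_forall fun ε hε => ?_
  rw [zero_add]
  obtain ⟨s, hs⟩ := tail_limit hc0 hlim k hε
  exact (tower_abs hy hn hn0 φ ψ hψ hfe hc s k (hC (k + s))).mono hs.le

end

end Pool.Agent.R887
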