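import Pool.Agent.R887.AbsC

/-!
Absolute bounds for finite covers which are unramified in codimension one.
-/

set_option autoImplicit false
set_option linter.overlappingInstances false
set_option linter.unusedSectionVars false

open FF Module MvPolynomial Pool.Agent.W602.GT Pool.Agent.W603.LV Pool.Agent.W619.PQ
open Pool.Agent.Y172 Pool.Agent.Y191

namespace Pool.Agent.R887

section

variable {K M : Type} [Field K] [Algebra ℂ K] [Field M] [Algebra ℂ M] {N N' : ℕ}
  {y : Fin (N + 1) → K} {z : Fin (N' + 1) → M} {n : ℕ}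

theorem mapDegree_id : mapDegree (AlgHom.id ℂ M) = 1 := by
  unfold mapDegree
  have h1 : (AlgHom.id ℂ M).fieldRange = ⊤ := by
    ext x
    simp
  rw [h1]
  exact IntermediateField.finrank_top

/-- the degrees of the pencils of the base on a cover are bounded -/
theorem exists_multi_cover (hz : NormalModel z) (hn : Algebra.trdeg ℂ M = n) (hn0 : 0 < n)
    (hy : NormalModel y) (θ : K →ₐ[ℂ] M) :
    ∃ c : ℝ, MultiDegreeLe (AlgHom.id ℂ M) θ z y (n - 1) 1 c := by
  classical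
  obtain ⟨d, hd⟩ := bezout hz hn
  have hd' : ∀ u : Fin (n - 1) → M, (∀ a, IsPencil z (u a)) → ∀ v, IsPencil z v →
      degreeOver u (fun _ : Fin 1 => v) ≤ d := fun u hu v hv => by
    rw [degreeOver_eq]
    refine hd (by
      rw [Nat.card_eq_fintype_card, Fintype.card_sum, Fintype.card_fin, Fintype.card_fin]
      omega) _ fun k => ?_
    rcases k with k | k
    · exact hu k
    · exact hv
  obtain ⟨j, hj⟩ := hy.ne
  obtain ⟨l0, hl0⟩ := hz.ne
  have h1S : (1 : M) ∈ Set.range fun i => θ (y i / y j) :=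
    ⟨j, by simp only []; rw [_root_.div_self hj, map_one]⟩
  obtain ⟨μ, hμ⟩ := exists_isMin (k := ℂ) (S := Set.range fun i => θ (y i / y j))
    (Set.finite_range _) ⟨1, h1S, one_ne_zero⟩
  obtain ⟨q, g, hq0, hq⟩ := first_bound hz hl0 (D := fun P => (-(μ P : ℤ) : ℝ)) (by
    have hf : (⋃ i, {P | IsPrimeDivisor z P ∧ P.ord (θ (y i / y j)) ≠ 0}).Finite := by
      refine Set.finite_iUnion fun i => ?_
      by_cases hi : θ (y i / y j) = 0
      · refine Set.finite_empty.subset ?_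
        rintro P ⟨-, h⟩
        exact absurd (by rw [hi, P.ord_zero]) h
      · exact finite_ord hz hi
    refine hf.subset ?_
    rintro P ⟨hP, h0⟩
    obtain ⟨s, ⟨i, rfl⟩, hs0, hs⟩ := hμ.att P
    refine Set.mem_iUnion.2 ⟨i, hP, fun h => h0 ?_⟩
    rw [← hs, h]
    simp)
  refine ⟨(g * d : ℕ), fun u hu v hv => ?_⟩
  rw [mapDegree_id, Nat.cast_one, mul_one]
  have hu' : (fun a => (AlgHom.id ℂ M) (u a)) = u := rfl
  rw [hu']
  have hvv : (fun b => θ (v b)) = fun _ : Fin 1 => θ (v 0) := by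
    funext b
    rw [Subsingleton.elim b 0]
  rw [hvv]
  obtain ⟨a, b, hb, hvab⟩ := hv 0
  have hsum : ∀ a : Fin (N + 1) → ℂ, θ ((∑ i, algebraMap ℂ K (a i) * y i) / y j) =
      ∑ i, algebraMap ℂ M (a i) * θ (y i / y j) := by
    intro a
    rw [Finset.sum_div, map_sum]
    refine Finset.sum_congr rfl fun i _ => ?_
    rw [mul_div_assoc, map_mul, AlgHom.commutes]
  have hb0 : (∑ i, algebraMap ℂ K (b i) * y i) / y j ≠ 0 := div_ne_zero hb hj
  obtain ⟨f0, hf0⟩ : ∃ f0, f0 = θ ((∑ i, algebraMap ℂ K (b i) * y i) / y j) := ⟨_, rfl⟩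
  obtain ⟨f1, hf1⟩ : ∃ f1, f1 = θ ((∑ i, algebraMap ℂ K (a i) * y i) / y j) := ⟨_, rfl⟩
  have hf00 : f0 ≠ 0 := by
    rw [hf0, Ne, map_eq_zero]
    exact hb0
  have hv0 : θ (v 0) = f1 / f0 := by
    rw [hvab, hf0, hf1, ← map_div₀]
    congr 1
    field_simp
  rw [hv0]
  by_cases hf10 : f1 = 0
  · rw [hf10, zero_div]
    have h0 : degreeOver u (fun _ : Fin 1 => (0 : M)) = 0 := by
      by_contra h0
      exact transc_of_degree hn hn0 h0 isAlgebraic_zero
    rw [h0, Nat.cast_zero]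
    exact Nat.cast_nonneg _
  have hge : ∀ (a : Fin (N + 1) → ℂ) (P : Place ℂ M),
      Ge P (μ P) (∑ i, algebraMap ℂ M (a i) * θ (y i / y j)) := by
    intro a P
    refine Ge.sum _ _ fun i _ => ?_
    by_cases hi : θ (y i / y j) = 0
    · left
      rw [hi, mul_zero]
    by_cases hai : a i = 0
    · left
      rw [hai, map_zero, zero_mul]
    · right
      have hai' : algebraMap ℂ M (a i) ≠ 0 := by rwa [Ne, map_eq_zero]
      rw [P.ord_mul hai' hi, P.ord_eq_zero_of_isAlgebraic hai' (isAlgebraic_algebraMap _), zero_add]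
      exact hμ.le P _ ⟨i, rfl⟩ hi
  have hbd : ∀ f : M, f ≠ 0 → (∀ P : Place ℂ M, Ge P (μ P) f) → ∀ P l, IsPrimeDivisor z P →
      Centred z l P → 0 ≤ P.ord (q * f) + g * P.ord (z l0 / z l) := by
    intro f hf hfP P l hP hl
    have h1 := (hfP P).resolve_left hf
    have h2 : (-(μ P) : ℤ) ≤ P.ord q + g * P.ord (z l0 / z l) := by exact_mod_cast hq P l hP hl
    rw [P.ord_mul hq0 hf]
    omega
  have h1 := ratio_degree hz hn hn0 hd' hl0 (M := g) (f0 := q * f0) (f1 := q * f1)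
    (mul_ne_zero hq0 hf00) (mul_ne_zero hq0 hf10)
    (hbd f0 hf00 fun P => by rw [hf0, hsum]; exact hge b P)
    (hbd f1 hf10 fun P => by rw [hf1, hsum]; exact hge a P) hu
  rw [mul_div_mul_left _ _ hq0] at h1
  exact_mod_cast h1

/-- **Absolute bounds for covers.** -/
theorem abs_cover (hy : NormalModel y) (hn : Algebra.trdeg ℂ K = n) (hn0 : 0 < n)
    {Bd : Set (Place ℂ K)} (h : AbsTensorLe y Bd 0) (hz : NormalModel z)
    (hnM : Algebra.trdeg ℂ M = n) (θ : K →ₐ[ℂ] M) (hθ : FiniteDimensional θ.fieldRange M)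
    {BdM : Set (Place ℂ M)} (hfe : FiniteEtale (AlgHom.id ℂ M) θ z BdM y Bd) :
    AbsTensorLe z BdM 0 := by
  obtain ⟨c, hc⟩ := exists_multi_cover hz hnM hn0 hy θ
  have h1 := (abs_step hz hnM hn0 hy hn (AlgHom.id ℂ M) θ hθ hfe hc h).2
  rwa [mul_zero] at h1

theorem abs_special (hy : NormalModel y) (hn : Algebra.trdeg ℂ K = n) (hn0 : 0 < n)
    {Bd : Set (Place ℂ K)} (h : AbsTensorLe y Bd 0) :
    (∀ (r : ℕ) (σ : Tensor K r), σ ≠ 0 → ¬ TensorKodairaGe n Bd σ 1) ∧ Special n Bd := by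
  have h1 : ∀ (r : ℕ) (σ : Tensor K r), σ ≠ 0 → ¬ TensorKodairaGe n Bd σ 1 :=
    fun r σ hσ => tens_kod hy hn hn0 fun t ht => h.tensorLe hσ ht
  exact ⟨h1, fun p hp σ hσ _ hk => h1 p σ hσ (hk.mono hp)⟩

end

end Pool.Agent.R887
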