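import Pool.Agent.R887.PsG

/-!
The positive products of all divisors are finite.
-/

set_option autoImplicit false
set_option linter.overlappingInstances false
set_option linter.unusedSectionVars false

open FF Module MvPolynomial Pool.Agent.W602.GT Pool.Agent.W603.LV Pool.Agent.W619.PQ
open Pool.Agent.Y172 Pool.Agent.Y191

namespace Pool.Agent.R887

section

variable {K : Type} [Field K] [Algebra ℂ K] {N n : ℕ} {y : Fin (N + 1) → K}

/-- **Several functions are replaced**, with several denominators. -/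
theorem replace_each {ι : Type} [Finite ι] [DecidableEq ι]
    (hn : Algebra.trdeg ℂ K = Nat.card ι) {S : Set K} (hS : S.Finite) (h1 : (1 : K) ∈ S) {B : ℕ}
    (f g : ι → K) (hf : ∀ i, f i ≠ 0) (hg : ∀ i, g i ≠ 0) (hbf : ∀ i, Bnd ℂ S B (f i))
    (hbg : ∀ i, Bnd ℂ S B (g i)) (J : Finset ι) (w : ι → K) (hw : ∀ i ∈ J, w i = f i / g i) :
    ∃ v : ι → K, (∀ i ∈ J, v i ∈ Submodule.span ℂ S) ∧ (∀ i ∉ J, v i = w i) ∧
      dg ℂ w ≤ B ^ J.card * dg ℂ v := by
  classical
  induction J using Finset.induction_on generalizing w with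
  | empty => exact ⟨w, fun i hi => absurd hi (Finset.notMem_empty i), fun i _ => rfl, by simp⟩
  | insert a J ha ih =>
    obtain ⟨z, hz, hle⟩ := replace_one hn hS h1 (hg a) (hf a) (hbg a) (hbf a) w a
      (hw a (Finset.mem_insert_self _ _))
    have hne : ∀ i ∈ J, i ≠ a := by
      rintro i hi rfl
      exact ha hi
    obtain ⟨v, hv1, hv2, hv3⟩ := ih (Function.update w a z) fun i hi => by
        rw [Function.update_of_ne (hne i hi)]
        exact hw i (Finset.mem_insert_of_mem hi)
    refine ⟨v, fun i hi => ?_, fun i hi => ?_, ?_⟩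
    · rcases Finset.mem_insert.1 hi with rfl | hi
      · rw [hv2 i ha, Function.update_self]
        exact hz
      · exact hv1 i hi
    · have h2 : i ≠ a := by
        rintro rfl
        exact hi (Finset.mem_insert_self _ _)
      rw [hv2 i fun h => hi (Finset.mem_insert_of_mem h), Function.update_of_ne h2]
    · rw [Finset.card_insert_of_notMem ha, pow_succ, mul_comm (B ^ _) B, mul_assoc]
      exact hle.trans (Nat.mul_le_mul_left _ hv3)

/-- affine linear functions of a transcendence basis -/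
theorem affine_le {ι : Type} [Finite ι] (hn : Algebra.trdeg ℂ K = Nat.card ι) {U : Fin n → K}
    (hess : Algebra.EssFiniteType ℂ K) (hU : IsTranscendenceBasis ℂ U) (hcard : Nat.card ι = n)
    {v : ι → K} (hv : ∀ i, v i ∈ Submodule.span ℂ (insert (1 : K) (Set.range U))) :
    dg ℂ v ≤ finrank (IntermediateField.adjoin ℂ (Set.range U)) K := by
  classical
  have : Fintype ι := Fintype.ofFinite ι
  by_cases h0 : dg ℂ v = 0
  · rw [h0]
    exact Nat.zero_le _
  have hbas := basis_of_dg hn h0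
  obtain ⟨g, hg⟩ : ∃ g : Option ι → K, g = fun o => o.elim 1 v := ⟨_, rfl⟩
  have hgi : LinearIndependent ℂ g := by
    have h1 : LinearIndependent ℂ (fun o : Option ι =>
        (basisMonomials ι ℂ) (o.elim 0 fun i => Finsupp.single i 1)) := by
      refine (basisMonomials ι ℂ).linearIndependent.comp
        (fun o : Option ι => (o.elim 0 fun i => Finsupp.single i 1 : ι →₀ ℕ)) ?_
      intro a b hab
      rcases a with _ | a <;> rcases b with _ | b
      · rfl
      · simp only [Option.elim_none, Option.elim_some] at hab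
        exact absurd hab.symm (by simp)
      · simp only [Option.elim_none, Option.elim_some] at hab
        exact absurd hab (by simp)
      · simp only [Option.elim_some] at hab
        rw [(Finsupp.single_left_injective one_ne_zero) hab]
    have h2 := h1.map' (aeval v : MvPolynomial ι ℂ →ₐ[ℂ] K).toLinearMap
      (LinearMap.ker_eq_bot.2 hbas.1)
    have h3 : (fun o => (aeval v : MvPolynomial ι ℂ →ₐ[ℂ] K).toLinearMap
        ((basisMonomials ι ℂ) (o.elim 0 fun i => Finsupp.single i 1))) = g := by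
      funext o
      rw [hg, coe_basisMonomials]
      rcases o with _ | i
      · simp only [Option.elim_none, AlgHom.toLinearMap_apply]
        exact map_one _
      · simp only [Option.elim_some, AlgHom.toLinearMap_apply]
        exact aeval_X v i
    rw [← h3]
    exact h2
  obtain ⟨W, hW⟩ : ∃ W, W = Submodule.span ℂ (insert (1 : K) (Set.range U)) := ⟨_, rfl⟩
  have hWr : insert (1 : K) (Set.range U) = Set.range fun o : Option (Fin n) => o.elim 1 U := by
    ext x
    simp only [Set.mem_insert_iff, Set.mem_range]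
    constructor
    · rintro (rfl | ⟨i, rfl⟩)
      · exact ⟨none, rfl⟩
      · exact ⟨some i, rfl⟩
    · rintro ⟨o, rfl⟩
      rcases o with _ | i
      · exact Or.inl rfl
      · exact Or.inr ⟨i, rfl⟩
  have hWf : FiniteDimensional ℂ W := by
    rw [hW, hWr]
    exact FiniteDimensional.span_of_finite _ (Set.finite_range _)
  have hWn : finrank ℂ W ≤ n + 1 := by
    rw [hW, hWr]
    have h1 := finrank_range_le_card (R := ℂ) (fun o : Option (Fin n) => o.elim (1 : K) U)
    rw [Fintype.card_option, Fintype.card_fin] at h1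
    exact h1
  have hgW : Submodule.span ℂ (Set.range g) ≤ W := by
    rw [Submodule.span_le]
    rintro _ ⟨o, rfl⟩
    rw [hg, hW]
    rcases o with _ | i
    · exact Submodule.subset_span (Set.mem_insert _ _)
    · exact hv i
  have heq : Submodule.span ℂ (Set.range g) = W := by
    refine Submodule.eq_of_le_of_finrank_le hgW ?_
    rw [finrank_span_eq_card hgi, Fintype.card_option, ← Nat.card_eq_fintype_card, hcard]
    exact hWn
  have hle : IntermediateField.adjoin ℂ (Set.range U) ≤
      IntermediateField.adjoin ℂ (Set.range v) := by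
    rw [IntermediateField.adjoin_le_iff]
    rintro _ ⟨i, rfl⟩
    have h1 : U i ∈ Submodule.span ℂ (Set.range g) := by
      rw [heq, hW]
      exact Submodule.subset_span (Set.mem_insert_of_mem _ ⟨i, rfl⟩)
    have h2 : Submodule.span ℂ (Set.range g) ≤
        (IntermediateField.adjoin ℂ (Set.range v)).toSubalgebra.toSubmodule := by
      rw [Submodule.span_le]
      rintro _ ⟨o, rfl⟩
      rw [hg]
      rcases o with _ | i
      · exact one_mem (IntermediateField.adjoin ℂ (Set.range v))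
      · exact IntermediateField.subset_adjoin ℂ _ ⟨i, rfl⟩
    exact h2 h1
  have hfin : FiniteDimensional (IntermediateField.adjoin ℂ (Set.range U)) K := fd_basis hU
  exact IntermediateField.finrank_le_of_le_left hle

/-- **The number of the points in the fibres of the maps given by pencils of hyperplane sections is
bounded.** -/
theorem bezout (hy : NormalModel y) (hn : Algebra.trdeg ℂ K = n) :
    ∃ C : ℕ, ∀ {ι : Type} [Finite ι], Nat.card ι = n → ∀ w : ι → K,
      (∀ i, IsPencil y (w i)) → dg ℂ w ≤ C := by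
  classical
  have hess := hy.ess
  obtain ⟨j0, hj0⟩ := hy.ne
  obtain ⟨U, hU, -, hint⟩ := exists_noether hy hn hj0
  obtain ⟨μ, hμ⟩ := exists_isMin (k := ℂ) (S := insert (1 : K) (Set.range U))
    ((Set.finite_range _).insert _) ⟨1, Set.mem_insert _ _, one_ne_zero⟩
  have h1 : ∀ l, ∃ D : ℕ, ∀ P : Place ℂ K, Ge P (D * μ P) (y l / y j0) := fun l =>
    ge_int hμ (hint _ (Algebra.subset_adjoin ⟨l, rfl⟩))
  choose D hD using h1
  obtain ⟨B, hB⟩ : ∃ B : ℕ, B = ∑ l, D l := ⟨_, rfl⟩
  have hlin : ∀ a : Fin (N + 1) → ℂ, ∑ l, algebraMap ℂ K (a l) * y l ≠ 0 →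
      (∑ l, algebraMap ℂ K (a l) * y l) / y j0 ≠ 0 ∧
      Bnd ℂ (insert (1 : K) (Set.range U)) B ((∑ l, algebraMap ℂ K (a l) * y l) / y j0) := by
    intro a ha
    refine ⟨div_ne_zero ha hj0, hμ.bnd (div_ne_zero ha hj0) fun P => ?_⟩
    have h2 : (∑ l, algebraMap ℂ K (a l) * y l) / y j0 =
        ∑ l, algebraMap ℂ K (a l) * (y l / y j0) := by
      rw [Finset.sum_div]
      exact Finset.sum_congr rfl fun l _ => by rw [mul_div_assoc]
    rw [h2]
    refine Ge.sum _ _ fun l _ => ?_
    have h3 := (Ge.const (P := P) (a l)).mul (hD l P)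
    refine h3.mono ?_
    rw [zero_add, hB]
    have h4 : (D l : ℤ) ≤ ((∑ l, D l : ℕ) : ℤ) := by
      exact_mod_cast Finset.single_le_sum (f := D) (fun _ _ => Nat.zero_le _) (Finset.mem_univ l)
    exact mul_le_mul_of_nonpos_right h4 (hμ.nonpos (Set.mem_insert _ _) P)
  refine ⟨B ^ n * finrank (IntermediateField.adjoin ℂ (Set.range U)) K, ?_⟩
  intro ι _ hcard w hw
  have : Fintype ι := Fintype.ofFinite ι
  by_cases h0 : dg ℂ w = 0
  · rw [h0]
    exact Nat.zero_le _
  have hn' : Algebra.trdeg ℂ K = Nat.card ι := by rw [hn, hcard]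
  have hbas := basis_of_dg hn' h0
  choose a b hb hab using hw
  have ha : ∀ i, ∑ l, algebraMap ℂ K (a i l) * y l ≠ 0 := by
    intro i h2
    have h3 := hbas.1.ne_zero i
    rw [hab i, h2, zero_div] at h3
    exact h3 rfl
  obtain ⟨v, hv1, -, hv2⟩ := replace_each hn' ((Set.finite_range _).insert _)
    (Set.mem_insert _ _) (S := insert (1 : K) (Set.range U)) (B := B)
    (fun i => (∑ l, algebraMap ℂ K (a i l) * y l) / y j0)
    (fun i => (∑ l, algebraMap ℂ K (b i l) * y l) / y j0)
    (fun i => (hlin (a i) (ha i)).1) (fun i => (hlin (b i) (hb i)).1)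
    (fun i => (hlin (a i) (ha i)).2) (fun i => (hlin (b i) (hb i)).2) Finset.univ w
    (fun i _ => by
      rw [div_div_div_cancel_right₀ hj0]
      exact hab i)
  rw [Finset.card_univ, ← Nat.card_eq_fintype_card, hcard] at hv2
  exact hv2.trans (Nat.mul_le_mul_left _ (affine_le hn' hess hU hcard
    fun i => hv1 i (Finset.mem_univ i)))

/-- **The positive products are finite.** -/
theorem finite_product (hy : NormalModel y) (hn : Algebra.trdeg ℂ K = n) {Δ : Place ℂ K → ℚ}
    (hΔ : {P | IsPrimeDivisor y P ∧ Δ P ≠ 0}.Finite) {j : ℕ} (hj : j ≤ n) :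
    ∃ μ : ℝ, 0 ≤ μ ∧ PositiveProductLe y n Δ j μ := by
  classical
  have hess := hy.ess
  obtain ⟨C, hC⟩ := bezout hy hn
  obtain ⟨i, hi⟩ := hy.ne
  obtain ⟨H, hH, hHP⟩ := exists_hyp hy hi
  obtain ⟨x, E, hx, hE⟩ := exists_crd hn (k := ℂ) (K := K)
  have hfr : IsFrame E := fun F => ⟨fun j => F (x j),
    (Pool.Agent.W73.PG.PULL.expand x hx E hE F).symm⟩
  obtain ⟨c, hcfin, hc⟩ := exists_ordc hy hn hx hE
  have hT : Effective y (fun P => |(c P : ℚ)| + |Δ P|) := by
    refine ⟨fun P hP => add_nonneg (abs_nonneg _) (abs_nonneg _), (hcfin.union hΔ).subset ?_⟩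
    rintro P ⟨hP, h0⟩
    by_cases h1 : c P = 0
    · right
      refine ⟨hP, fun h2 => h0 ?_⟩
      simp only []
      rw [h1, h2, Int.cast_zero, abs_zero, add_zero]
    · exact Or.inl ⟨hP, h1⟩
  obtain ⟨f, β, hf0, hfb⟩ := dominate hy hT hi hH hHP
  refine ⟨C * β ^ j, by positivity, product_of_bound (c := C) (Nat.cast_nonneg _) fun A hA => ?_⟩
  obtain ⟨g, βA, hg0, hgb⟩ := dominate hy hA hi hH hHP
  refine ⟨βA, 0, fun m b hm u hu ω E' hω hω0 => ?_⟩
  obtain ⟨w, hw⟩ : ∃ w : Fin j → K, w = fun i => ω i.succ E' / ω 0 E' := ⟨_, rfl⟩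
  rw [← hw, degreeOver_eq]
  by_cases h0 : dg ℂ (Sum.elim u w) = 0
  · rw [h0]
    push_cast
    positivity
  have hcard : Nat.card (Fin (n - j) ⊕ Fin j) = n := by
    rw [Nat.card_eq_fintype_card, Fintype.card_sum, Fintype.card_fin, Fintype.card_fin]
    omega
  have hbas := basis_of_dg (k := ℂ) (w := Sum.elim u w) (by rw [hn, hcard]) h0
  have hωE : ∀ i, ω i E ≠ 0 := by
    intro i
    have h1 := (ratio_frame hfr (hω 0).1 (hω 0).1 hω0).1
    refine Fin.cases h1 (fun i => ?_) i
    intro h2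
    have h3 := (ratio_frame hfr (hω 0).1 (hω i.succ).1 hω0).2
    rw [h2, zero_div] at h3
    have h4 := hbas.1.ne_zero (Sum.inr i)
    rw [Sum.elim_inr, hw] at h4
    exact h4 h3
  obtain ⟨B, hB⟩ : ∃ B : ℕ, B = m * β + b * βA := ⟨_, rfl⟩
  have hfg : f ^ m * g ^ b ≠ 0 := mul_ne_zero (pow_ne_zero _ hf0) (pow_ne_zero _ hg0)
  have hbnd : ∀ a, Bnd ℂ (affL K y i) B (ω a E * (f ^ m * g ^ b)) := by
    intro a
    have hn0 : ω a E * (f ^ m * g ^ b) ≠ 0 := mul_ne_zero (hωE a) hfg
    refine bnd_of_prime hy hi hn0 fun Q P e hov hP l hl => ?_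
    have h1 := ((hc P hP m _ (hω a).1 _).1 ((hω a).2 P hP)).resolve_left (hωE a)
    rw [Pi.add_apply, Pi.smul_apply, Pi.smul_apply, nsmul_eq_mul, nsmul_eq_mul] at h1
    have h2 := hfb P hP
    have h3 := hgb P hP
    rw [hHP P l hP hl] at h2 h3
    have hm0 : (0 : ℚ) ≤ m := Nat.cast_nonneg _
    have hb0 : (0 : ℚ) ≤ b := Nat.cast_nonneg _
    have h4 := mul_le_mul_of_nonneg_left h2 hm0
    have h5 := mul_le_mul_of_nonneg_left h3 hb0
    have h6 := mul_le_mul_of_nonneg_left (le_abs_self (c P : ℚ)) hm0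
    have h7 := mul_le_mul_of_nonneg_left (le_abs_self (Δ P)) hm0
    have h8 : (0 : ℚ) ≤ ((P.ord (ω a E * (f ^ m * g ^ b)) +
        B * P.ord (y i / y l) : ℤ) : ℚ) := by
      rw [P.ord_mul (hωE a) hfg, P.ord_mul (pow_ne_zero _ hf0) (pow_ne_zero _ hg0), P.ord_pow,
        P.ord_pow, hB]
      push_cast
      linarith
    have h9 : 0 ≤ P.ord (ω a E * (f ^ m * g ^ b)) + B * P.ord (y i / y l) := by exact_mod_cast h8
    have h10 : ∀ z : K, Q.ord z = e * P.ord z := fun z => hov.2 z
    have h11 : algebraMap K K (y i / y l) = y i / y l := rfl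
    rw [h11, h10, h10]
    have h12 := mul_nonneg (show (0 : ℤ) ≤ e from Int.natCast_nonneg _) h9
    linarith
  obtain ⟨v, hv1, hv2, hv3⟩ := replace_all (k := ℂ) (K := K) (ι := Fin (n - j) ⊕ Fin j)
    (by rw [hn, hcard]) (S := affL K y i) (Set.finite_range _)
    ⟨i, by simp only []; rw [div_self hi, map_one]⟩ (B := B)
    (f₀ := ω 0 E * (f ^ m * g ^ b)) (mul_ne_zero (hωE 0) hfg) (hbnd 0)
    (Finset.univ.image Sum.inr) (Sum.elim u w)
    (Sum.elim (fun _ => 1) fun a => ω a.succ E * (f ^ m * g ^ b)) (by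
      intro i hi
      obtain ⟨a, -, rfl⟩ := Finset.mem_image.1 hi
      exact mul_ne_zero (hωE _) hfg) (by
      intro i hi
      obtain ⟨a, -, rfl⟩ := Finset.mem_image.1 hi
      exact hbnd _) (by
      intro i hi
      obtain ⟨a, -, rfl⟩ := Finset.mem_image.1 hi
      rw [Sum.elim_inr, Sum.elim_inr, mul_div_mul_right _ _ hfg, hw]
      exact (ratio_frame hfr (hω 0).1 (hω a.succ).1 hω0).2)
  rw [Finset.card_image_of_injective _ Sum.inr_injective, Finset.card_univ,
    Fintype.card_fin] at hv3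
  have hvC : dg ℂ v ≤ C := by
    refine hC hcard v fun k => ?_
    rcases k with k | k
    · rw [hv2 (Sum.inl k) (by simp)]
      exact hu k
    · have h1 := hv1 (Sum.inr k) (Finset.mem_image_of_mem _ (Finset.mem_univ k))
      obtain ⟨v', hv', h2⟩ := pencil_of_span2 (y' := y) (AlgHom.id ℂ K) (fun _ => rfl) hi h1
      rw [h2]
      exact hv'
  have h1 : ((dg ℂ (Sum.elim u w) : ℕ) : ℝ) ≤ (B : ℝ) ^ j * C := by
    exact_mod_cast hv3.trans (Nat.mul_le_mul_left _ hvC)
  rw [hB] at h1
  push_cast at h1 ⊢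
  rw [add_zero]
  linarith

end

end Pool.Agent.R887
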