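import Pool.Agent.R887.Bez

/-!
Self-correspondences of pairs, without conditions on the coefficients.
-/

set_option autoImplicit false
set_option linter.overlappingInstances false
set_option linter.unusedSectionVars false

open FF Module MvPolynomial Pool.Agent.W602.GT Pool.Agent.W603.LV Pool.Agent.W619.PQ
open Pool.Agent.Y172 Pool.Agent.Y191

namespace Pool.Agent.R887

section

variable {K L : Type} [Field K] [Algebra ℂ K] [Field L] [Algebra ℂ L] {N n : ℕ}
  {y : Fin (N + 1) → K}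

/-- **Self-correspondences of pairs.** -/
theorem orb_gap (hy : NormalModel y) (hn : Algebra.trdeg ℂ K = n) (hn0 : 0 < n)
    {Δ : Place ℂ K → ℚ} (hΔ : {P | IsPrimeDivisor y P ∧ Δ P ≠ 0}.Finite) (φ ψ : K →ₐ[ℂ] L)
    (hψ0 : FiniteDimensional ψ.fieldRange L) (hlog : LogPullBackLe φ ψ y n Δ y Δ) {c : ℝ}
    (hc : MultiDegreeLe φ ψ y y (n - 1) 1 c) (hc1 : c < 1) : NumDimLt y n Δ 1 := by
  obtain ⟨μ, hμ, hpp⟩ := finite_product hy hn hΔ (j := 1) (by omega)
  exact orb_self_gap hy hn hn0 hΔ hμ hpp φ ψ hψ0 hlog hc hc1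

end

end Pool.Agent.R887
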