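import Pool.Agent.Y172.Defs

/-!
Definitions: canonical singularities, log discrepancies, pencils of hyperplane sections, mixed
degrees of rational maps, the log ramification condition, and the inequality `ν < j` for the
numerical dimension `ν` of `K_X + Δ` defined by means of positive intersection products.
-/

set_option autoImplicit false

open FF Pool.Agent.W602.GT Pool.Agent.Y172

namespace Pool.Agent.R887

section

variable {K K' : Type} [Field K] [Algebra ℂ K] [Field K'] [Algebra ℂ K'] {N N' : ℕ}

/-- The variety `X` with generic point `y`, of dimension `n`, has canonical singularities: for every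
prime divisor `Q` over `X` there is an `r`-canonical form `η` which generates `r K_X` at the centre
of `Q` on `X` (its order is `0` along all prime divisors `P` of `X` through this centre), with order
at least `0` along `Q`. -/
def Canonical (y : Fin (N + 1) → K) (n : ℕ) : Prop :=
  ∀ Q : Place ℂ K, Divisorial n Q → ∃ r : ℕ, 0 < r ∧ ∃ η : (Fin n → Derivation ℂ K K) → K,
    IsPluri r η ∧ (∀ P, IsPrimeDivisor y P → Through y P Q → OrdEq P η 0) ∧ OrdGe Q η 0

/-- `u` is a quotient of two linear forms in the homogeneous coordinates `y` of the generic point: a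
pencil of hyperplane sections. -/
def IsPencil (y : Fin (N + 1) → K) (u : K) : Prop :=
  ∃ a b : Fin (N + 1) → ℂ, ∑ i, algebraMap ℂ K (b i) * y i ≠ 0 ∧
    u = (∑ i, algebraMap ℂ K (a i) * y i) / ∑ i, algebraMap ℂ K (b i) * y i

/-- The degree of the field over its subfield which is generated by the functions `u i` and `v j`:
the number of the points in a general fibre of the rational map with the coordinates `u`, `v`. It is
zero if the degree is infinite. -/
noncomputable def degreeOver {p q : ℕ} (u : Fin p → K) (v : Fin q → K) : ℕ :=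
  Module.finrank (IntermediateField.adjoin ℂ (Set.range u ∪ Set.range v)) K

/-- The degree of the generically finite rational map `X' ⇢ X` given by the homomorphism `φ` of the
function fields. -/
noncomputable def mapDegree (φ : K →ₐ[ℂ] K') : ℕ := Module.finrank φ.fieldRange K'

/-- The place `Q` of `K'` lies over the place `P` of `K`, with ramification index `e`. -/
def LiesOver (φ : K →ₐ[ℂ] K') (Q : Place ℂ K') (P : Place ℂ K) (e : ℕ) : Prop :=
  1 ≤ e ∧ ∀ f : K, Q.ord (φ f) = e * P.ord f

/-- The log discrepancy of the pair `(X, Δ)` along `Q` is at least `α`: either `Q` is a prime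
divisor of `X` and `α ≤ 1 - Δ Q`, or there is an `r`-canonical form `η` which generates
`r (K_X + Δ)` at the centre of `Q` on `X` (its order is `- r Δ P` along all prime divisors `P` of `X`
through this centre), with order at least `r (α - 1)` along `Q`. -/
def LogDisc (y : Fin (N + 1) → K) (n : ℕ) (Δ : Place ℂ K → ℚ) (Q : Place ℂ K) (α : ℚ) : Prop :=
  (IsPrimeDivisor y Q ∧ α ≤ 1 - Δ Q) ∨
    ∃ r : ℕ, 0 < r ∧ ∃ η : (Fin n → Derivation ℂ K K) → K, IsPluri r η ∧
      (∀ P, IsPrimeDivisor y P → Through y P Q → OrdEq P η (-(r * Δ P))) ∧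
      OrdGe Q η (r * (α - 1))

/-- Outside of the prime divisors in `S` the pull back of `K_X + Δ` by the rational map
`f : X' ⇢ X` is at most `K_X'`: if `Q` is a prime divisor of `X'`, not in `S`, and `P` its image, a
divisor over `X`, then the product of the ramification index and of the log discrepancy of `(X, Δ)`
along `P` is at least `1`. -/
def PullBackLe (φ : K →ₐ[ℂ] K') (y : Fin (N + 1) → K) (n : ℕ) (Δ : Place ℂ K → ℚ)
    (y' : Fin (N' + 1) → K') (S : Set (Place ℂ K')) : Prop :=
  ∀ Q : Place ℂ K', IsPrimeDivisor y' Q → Q ∉ S → ∀ (P : Place ℂ K) (e : ℕ), LiesOver φ Q P e →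
    ∃ α : ℚ, LogDisc y n Δ P α ∧ 1 ≤ e * α

/-- The intersection number of `i` pull backs of hyperplane sections of `X` and `j` hyperplane
sections of `X'` is at most `c` times the degree of the map: whenever `u 1, ..., u i` are pencils of
hyperplane sections of `X` and `v 1, ..., v j` pencils of hyperplane sections of `X'`, a general
fibre of the map `(f^* u, v)` has at most `c deg f` points. -/
def MixedDegreeLe (φ : K →ₐ[ℂ] K') (y : Fin (N + 1) → K) (y' : Fin (N' + 1) → K') (i j : ℕ)
    (c : ℝ) : Prop :=
  ∀ u : Fin i → K, (∀ a, IsPencil y (u a)) → ∀ v : Fin j → K', (∀ b, IsPencil y' (v b)) →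
    (degreeOver (fun a => φ (u a)) v : ℝ) ≤ c * mapDegree φ

/-- The numerical dimension of `K_X + Δ` is less than `j`, `n` being the dimension of `X`: the
positive intersection product of `j` copies of `K_X + Δ` and `n - j` hyperplane sections is zero.
This means, for all effective divisors `A`: for all `ε > 0` there is `t > 0` such that for all large
`m` and all `b ≤ t m` the rational maps given by the sections `ω 0, ..., ω j` of
`m (K_X + Δ) + b A` together with `n - j` pencils `u` of hyperplane sections have degree at most
`ε m ^ j`. -/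
def NumDimLt (y : Fin (N + 1) → K) (n : ℕ) (Δ : Place ℂ K → ℚ) (j : ℕ) : Prop :=
  ∀ A : Place ℂ K → ℚ, Effective y A → ∀ ε : ℝ, 0 < ε → ∃ t : ℝ, 0 < t ∧ ∃ m₀ : ℕ, ∀ m b : ℕ,
    m₀ ≤ m → (b : ℝ) ≤ t * m → ∀ u : Fin (n - j) → K, (∀ a, IsPencil y (u a)) →
    ∀ (ω : Fin (j + 1) → (Fin n → Derivation ℂ K K) → K)
      (E : Fin n → Derivation ℂ K K), (∀ i, IsSection y n m (m • Δ + b • A) (ω i)) →
      ω 0 E ≠ 0 → (degreeOver u (fun i : Fin j => ω i.succ E / ω 0 E) : ℝ) ≤ ε * m ^ j

end

end Pool.Agent.R887
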