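import Pool.Agent.Y172.Dim
import Pool.Agent.Y172.Sec
import Pool.Agent.Y172.Grow
import Pool.Agent.Y172.Cov2
import Pool.Agent.Y172.Cov3
import Pool.Agent.Y172.UpB
import Pool.Agent.Y191.Base

/-!
The sections of `m K_X + D` as functions: the orders with respect to a fixed rational frame of vector
fields.
-/

set_option autoImplicit false
set_option linter.overlappingInstances false
set_option linter.unusedSectionVars false

open FF MvPolynomial Pool.Agent.W602.GT Pool.Agent.W603.LV
open Pool.Agent.Y172 Pool.Agent.Y191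

namespace Pool.Agent.R887

section

variable {K : Type} [Field K] [Algebra ℂ K] {N n : ℕ} {y : Fin (N + 1) → K}

/-- the pluricanonical form with the value `g` on the frame dual to `x` -/
noncomputable def frm (x : Fin n → K) (m : ℕ) (g : K) (D : Fin n → Derivation ℂ K K) : K :=
  (Matrix.of fun i j => D i (x j)).det ^ m * g

theorem frm_pluri (x : Fin n → K) (m : ℕ) (g : K) : IsPluri m (frm x m g) := by
  intro A D
  have e1 : (Matrix.of fun a b => (∑ j, A a j • D j) (x b)) =
      A * Matrix.of fun a b => D a (x b) := by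
    ext a b
    rw [Matrix.of_apply, Matrix.mul_apply, sum_smul_apply]
    rfl
  change (Matrix.of fun a b => (∑ j, A a j • D j) (x b)).det ^ m * g = _
  rw [e1, Matrix.det_mul, mul_pow, mul_assoc]
  rfl

theorem frm_self {x : Fin n → K} {E : Fin n → Derivation ℂ K K}
    (hE : ∀ i j, E i (x j) = if i = j then 1 else 0) (m : ℕ) (g : K) : frm x m g E = g := by
  have h1 : (Matrix.of fun i j => E i (x j)) = 1 := by
    ext i j
    rw [Matrix.of_apply, hE, Matrix.one_apply]
  unfold frm
  rw [h1, Matrix.det_one, one_pow, one_mul]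

theorem det_reg {P : Place ℂ K} {A : Matrix (Fin n) (Fin n) K} (hA : ∀ i j, P.Reg (A i j)) :
    P.Reg A.det := by
  rw [Matrix.det_apply]
  refine Ge.sum (P := P) (N := 0) _ _ fun s _ => ?_
  have h1 : Ge P 0 (∏ i, A (s i) i) := by
    have := Ge.prod (P := P) Finset.univ (fun i => A (s i) i) (fun _ => 0) fun i _ => hA _ _
    simpa using this
  have h2 : Ge P 0 (((Equiv.Perm.sign s : ℤ) : K)) := Ge.intCast _
  have h3 : Equiv.Perm.sign s • ∏ i, A (s i) i = ((Equiv.Perm.sign s : ℤ) : K) *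
      ∏ i, A (s i) i := by
    rw [Units.smul_def, zsmul_eq_mul]
  rw [h3]
  have := h2.mul h1
  rwa [add_zero] at this

/-- **The order of a form in terms of its value on a fixed frame.** -/
theorem exists_ordc (hy : NormalModel y) (hn : Algebra.trdeg ℂ K = n) {x : Fin n → K}
    {E : Fin n → Derivation ℂ K K} (hx : IsTranscendenceBasis ℂ x)
    (hE : ∀ i j, E i (x j) = if i = j then 1 else 0) :
    ∃ c : Place ℂ K → ℤ, {P | IsPrimeDivisor y P ∧ c P ≠ 0}.Finite ∧
      ∀ P, IsPrimeDivisor y P → ∀ (m : ℕ) (ω : (Fin n → Derivation ℂ K K) → K), IsPluri m ω →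
        ∀ r : ℚ, OrdGe P ω r ↔ (ω E = 0 ∨ r ≤ m * c P + P.ord (ω E)) := by
  classical
  have hess := hy.ess
  have hfr : IsFrame E := fun F => ⟨fun j => F (x j),
    (Pool.Agent.W73.PG.PULL.expand x hx E hE F).symm⟩
  have hloc : ∀ P : Place ℂ K, ∃ (z : Fin n → K) (G : Fin n → Derivation ℂ K K),
      IsPrimeDivisor y P → IsTranscendenceBasis ℂ z ∧
        (∀ i j, G i (z j) = if i = j then 1 else 0) ∧ (∀ i, P.Reg (z i)) ∧
        ∀ i, DerReg P (G i) := by
    intro P
    by_cases hP : IsPrimeDivisor y P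
    · obtain ⟨z, G, i0, hl⟩ := exists_loc hn (hP.divisorial hy hn)
      exact ⟨z, G, fun _ => ⟨hl.bas, hl.dual, hl.reg, hl.pres⟩⟩
    · exact ⟨x, E, fun h => absurd h hP⟩
  choose z G hzG using hloc
  let δ : Place ℂ K → K := fun P => (Matrix.of fun i j => G P i (x j)).det
  have hδ : ∀ P (m : ℕ) (ω : (Fin n → Derivation ℂ K K) → K), IsPluri m ω →
      ω (G P) = δ P ^ m * ω E := fun P m ω hω => pluri_coord hx hE hω (G P)
  have hδ0 : ∀ P, IsPrimeDivisor y P → δ P ≠ 0 := by
    intro P hP h0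
    obtain ⟨hz, hG, -, -⟩ := hzG P hP
    have h1 := hδ P 1 (frm (z P) 1 1) (frm_pluri _ _ _)
    rw [h0, pow_one, zero_mul, frm_self hG] at h1
    exact one_ne_zero h1
  refine ⟨fun P => P.ord (δ P), ?_, ?_⟩
  · -- finiteness
    obtain ⟨j0, hj0⟩ := hy.ne
    have hden : ∀ j, ∃ h : K, h ≠ 0 ∧ (y j ≠ 0 → h ∈ chart y j ∧
        ∀ i, ∀ f ∈ chart y j, h * E i f ∈ chart y j) := by
      intro j
      by_cases hj : y j = 0
      · exact ⟨1, one_ne_zero, fun h => absurd hj h⟩
      · obtain ⟨h, h1, h2, h3⟩ := exists_den_frame hy hj E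
        exact ⟨h, h2, fun _ => ⟨h1, h3⟩⟩
    choose h hh0 hh using hden
    have hx0 : ∀ i, x i ≠ 0 := fun i => hx.1.ne_zero i
    have hf1 : (⋃ j, {P | IsPrimeDivisor y P ∧ P.ord (h j) ≠ 0}).Finite :=
      Set.finite_iUnion fun j => finite_ord hy (hh0 j)
    have hf2 : (⋃ i, {P | IsPrimeDivisor y P ∧ P.ord (x i) ≠ 0}).Finite :=
      Set.finite_iUnion fun i => finite_ord hy (hx0 i)
    refine (hf1.union hf2).subset ?_
    rintro P ⟨hP, hcP⟩
    by_contra hcon
    simp only [Set.mem_union, Set.mem_iUnion, Set.mem_ofPred_eq, not_or, not_exists, not_and,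
      not_not] at hcon
    obtain ⟨hc1, hc2⟩ := hcon
    apply hcP
    obtain ⟨hz, hG, hzr, hGr⟩ := hzG P hP
    -- lower bound
    have h1 : P.Reg (δ P) := det_reg fun i j => by
      change P.Reg (G P i (x j))
      exact hGr i _ (Or.inr (hc2 j hP).ge)
    have h2 := (P.reg_iff (hδ0 P hP)).1 h1
    -- upper bound
    obtain ⟨j, hj⟩ := exists_centred hy P
    obtain ⟨hhc, hhE⟩ := hh j hj.1
    have hDr : ∀ i, DerReg P (h j • E i) := fun i => derReg_of_chart hP hj fun f hf => hhE i f hf
    have h3 : P.Reg (Matrix.of fun i l => (h j • E i) (z P l)).det := det_reg fun i l => by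
      change P.Reg ((h j • E i) (z P l))
      exact hDr i _ (hzr l)
    have h4 := pluri_coord hz hG (frm_pluri x 1 1) (fun i => h j • E i)
    have h5 := pluri_smul (frm_pluri x 1 1) (h j) E
    rw [h5, frm_self hE, hδ P 1 _ (frm_pluri x 1 1), frm_self hE, pow_one, pow_one, pow_one,
      mul_one, mul_one] at h4
    have h6 : (Matrix.of fun i l => (h j • E i) (z P l)).det ≠ 0 := by
      intro h0
      rw [h0, zero_mul] at h4
      exact pow_ne_zero _ (hh0 j) h4
    have h7 := congrArg P.ord h4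
    rw [P.ord_pow, hc1 j hP, mul_zero, P.ord_mul h6 (hδ0 P hP)] at h7
    have h8 := (P.reg_iff h6).1 h3
    change P.ord (δ P) = 0
    omega
  · intro P hP m ω hω r
    obtain ⟨hz, hG, hzr, hGr⟩ := hzG P hP
    have h1 := hδ P m ω hω
    have h2 : ω E ≠ 0 → (P.ord (ω (G P)) : ℚ) = m * P.ord (δ P) + P.ord (ω E) := by
      intro h0
      rw [h1, P.ord_mul (pow_ne_zero _ (hδ0 P hP)) h0, P.ord_pow]
      push_cast
      ring
    constructor
    · intro h
      by_cases h0 : ω E = 0
      · exact Or.inl h0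
      right
      rw [← h2 h0]
      refine (h (G P) hGr).resolve_left ?_
      rw [h1]
      exact mul_ne_zero (pow_ne_zero _ (hδ0 P hP)) h0
    · intro h D hD
      by_cases h0 : ω E = 0
      · left
        rw [pluri_zero hfr hω h0]
        rfl
      have h3 := h.resolve_left h0
      rw [← h2 h0] at h3
      have h4 := pluri_coord hz hG hω D
      obtain ⟨d, hd⟩ : ∃ d, d = (Matrix.of fun i j => D i (z P j)).det := ⟨_, rfl⟩
      rw [← hd] at h4
      by_cases hωD : ω D = 0
      · exact Or.inl hωD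
      right
      have h5 : d ^ m ≠ 0 := by
        intro h6
        rw [h6, zero_mul] at h4
        exact hωD h4
      have h6 : ω (G P) ≠ 0 := by
        intro h6
        rw [h6, mul_zero] at h4
        exact hωD h4
      rw [h4, P.ord_mul h5 h6, P.ord_pow]
      have hdr : P.Reg d := by
        rw [hd]
        exact det_reg fun i j => hD i _ (hzr j)
      push_cast
      by_cases hm : m = 0
      · rw [hm]
        push_cast
        linarith
      have hd0 : d ≠ 0 := by
        rintro rfl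
        exact h5 (zero_pow hm)
      have h7 := (P.reg_iff hd0).1 hdr
      have h8 : (0 : ℚ) ≤ P.ord d := by exact_mod_cast h7
      have h9 : (0 : ℚ) ≤ m := Nat.cast_nonneg _
      have := mul_nonneg h9 h8
      linarith

/-- the number of independent sections -/
theorem sec_growth (hy : NormalModel y) (hn : Algebra.trdeg ℂ K = n) {Δ A : Place ℂ K → ℚ}
    (hΔ : Effective y Δ) (hA : Effective y A) (E : Fin n → Derivation ℂ K K) :
    ∃ C : ℕ, ∀ m : ℕ, 1 ≤ m → ∀ (r : ℕ) (f : Fin r → K), LinearIndependent ℂ f →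
      (∀ i, ∃ ω, IsSection y n m (m • Δ + A) ω ∧ ω E = f i) → r ≤ C * m ^ n := by
  classical
  have hess := hy.ess
  obtain ⟨Z, -, hZ, -⟩ := exists_crd hn (k := ℂ) (K := K)
  obtain ⟨S, hS⟩ := sec_fin (n := n) hy hΔ hA E
  obtain ⟨C, hC⟩ := growth hZ (fd_basis hZ) S
    (fun m => {f | ∃ ω, IsSection y n m (m • Δ + A) ω ∧ ω E = f}) (fun P => by
      obtain ⟨C, hC⟩ := sec_all (n := n) hy hΔ hA E P
      refine ⟨C, fun m hm f hf => ?_⟩
      obtain ⟨ω, hω, rfl⟩ := hf
      exact hC m hm ω hω) (fun P hP m hm f hf => by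
      obtain ⟨ω, hω, rfl⟩ := hf
      exact hS P hP m hm ω hω)
  exact ⟨C, fun m hm r f hf h => hC m hm r f hf h⟩

end

end Pool.Agent.R887
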