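import Pool.Agent.R887.Low
import Pool.Agent.R887.Frm
import Pool.Agent.R887.Defs

/-!
If the numerical dimension is less than `j`, then `j` quotients of sections of `m (K_X + Δ)` are
algebraically dependent.
-/

set_option autoImplicit false
set_option linter.overlappingInstances false
set_option linter.unusedSectionVars false

open FF Module MvPolynomial Pool.Agent.W602.GT Pool.Agent.W603.LV
open Pool.Agent.Y172 Pool.Agent.Y191

namespace Pool.Agent.R887

section

variable {k K : Type} [Field k] [CharZero k] [Field K] [Algebra k K]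

theorem dg_pow_one {ι : Type} [Finite ι] [DecidableEq ι] (hn : Algebra.trdeg k K = Nat.card ι)
    (w : ι → K) (i : ι) {q : ℕ} (hq : 1 ≤ q) (h0 : dg k w ≠ 0) :
    dg k (Function.update w i (w i ^ q)) = q * dg k w := by
  have hbas := basis_of_dg hn h0
  obtain ⟨F, hF⟩ : ∃ F, F = IntermediateField.adjoin k (w '' {i}ᶜ) := ⟨_, rfl⟩
  have htr : Transcendental F (w i) := by
    rw [hF]
    exact transc_of_basis hbas.1 (by simp)
  have hr' : ∀ v, Set.range (Function.update w i v) = w '' {i}ᶜ ∪ {v} := by
    intro v
    ext x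
    simp only [Set.mem_range, Set.mem_union, Set.mem_image, Set.mem_compl_iff,
      Set.mem_singleton_iff]
    constructor
    · rintro ⟨j, rfl⟩
      by_cases hj : j = i
      · right
        rw [hj, Function.update_self]
      · left
        exact ⟨j, hj, by rw [Function.update_of_ne hj]⟩
    · rintro (⟨j, hj, rfl⟩ | rfl)
      · exact ⟨j, by rw [Function.update_of_ne hj]⟩
      · exact ⟨i, by rw [Function.update_self]⟩
  have hr : Set.range w = w '' {i}ᶜ ∪ {w i} := by
    rw [← hr' (w i), Function.update_eq_self]
  have h2 : dg k w = finrank (IntermediateField.adjoin F {w i}) K := by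
    rw [hF]
    exact dg_simple hr
  have h3 : FiniteDimensional (IntermediateField.adjoin F {w i}) K :=
    FiniteDimensional.of_finrank_pos (by
      rw [← h2]
      exact Nat.pos_of_ne_zero h0)
  have : IsFF F K := IsFF.of_finite htr h3
  have htq : Transcendental F (w i ^ q) := htr.pow (by omega)
  have h4 : dg k (Function.update w i (w i ^ q)) =
      finrank (IntermediateField.adjoin F {w i ^ q}) K := by
    rw [hF]
    exact dg_simple (hr' _)
  have h5 := ddeg_polar (k := F) htr
  have h6 := ddeg_polar (k := F) htq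
  have h7 : polar (k := F) (w i ^ q) = q • polar (k := F) (w i) := by
    ext P
    rw [polar_apply, Finsupp.smul_apply, polar_apply, P.ord_pow, nsmul_eq_mul,
      mul_max_of_nonneg _ _ (Int.natCast_nonneg q), mul_zero, mul_neg]
  rw [h7, ddeg_nsmul, h5] at h6
  rw [h2, h4]
  exact_mod_cast h6.symm

theorem dg_pow_all {ι : Type} [Finite ι] [DecidableEq ι] (hn : Algebra.trdeg k K = Nat.card ι)
    (w : ι → K) (J : Finset ι) {q : ℕ} (hq : 1 ≤ q) (h0 : dg k w ≠ 0) :
    dg k (fun i => if i ∈ J then w i ^ q else w i) = q ^ J.card * dg k w := by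
  classical
  induction J using Finset.induction_on with
  | empty => simp
  | insert a J ha ih =>
    have h1 : (fun i => if i ∈ insert a J then w i ^ q else w i) =
        Function.update (fun i => if i ∈ J then w i ^ q else w i) a
          ((fun i => if i ∈ J then w i ^ q else w i) a ^ q) := by
      funext i
      by_cases hi : i = a
      · rw [hi, Function.update_self, if_pos (Finset.mem_insert_self _ _)]
        simp only [if_neg ha]
      · rw [Function.update_of_ne hi]
        simp only [Finset.mem_insert, hi, false_or]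
    have h2 : dg k (fun i => if i ∈ J then w i ^ q else w i) ≠ 0 := by
      rw [ih]
      exact mul_ne_zero (pow_ne_zero _ (by omega)) h0
    rw [h1, dg_pow_one hn _ a hq h2, ih, Finset.card_insert_of_notMem ha, pow_succ]
    ring

theorem dg_pos [Algebra.EssFiniteType k K] {ι : Type} {w : ι → K}
    (hw : Algebra.IsAlgebraic (IntermediateField.adjoin k (Set.range w)) K) : 0 < dg k w := by
  have h4 : Algebra.EssFiniteType (IntermediateField.adjoin k (Set.range w)) K :=
    Algebra.EssFiniteType.of_comp k _ K
  obtain ⟨s, hs⟩ := IntermediateField.fg_top (IntermediateField.adjoin k (Set.range w)) K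
  have h5 : FiniteDimensional (IntermediateField.adjoin k (Set.range w))
      (IntermediateField.adjoin (IntermediateField.adjoin k (Set.range w)) (s : Set K)) :=
    IntermediateField.finiteDimensional_adjoin (fun x _ => (hw.isAlgebraic x).isIntegral)
  rw [hs] at h5
  have h6 : FiniteDimensional (IntermediateField.adjoin k (Set.range w)) K :=
    IntermediateField.topEquiv.toLinearEquiv.finiteDimensional
  exact Module.finrank_pos

end

section

variable {K : Type} [Field K] [Algebra ℂ K] {N n : ℕ} {y : Fin (N + 1) → K}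

theorem pencil_coord {j : Fin (N + 1)} (hj : y j ≠ 0) (i : Fin (N + 1)) :
    IsPencil y (y i / y j) := by
  classical
  have h1 : ∀ l, ∑ i, algebraMap ℂ K ((Pi.single l 1 : Fin (N + 1) → ℂ) i) * y i = y l := by
    intro l
    rw [Finset.sum_eq_single l]
    · simp
    · intro i _ hi
      rw [Pi.single_eq_of_ne hi, map_zero, zero_mul]
    · intro h
      exact absurd (Finset.mem_univ _) h
  exact ⟨Pi.single i 1, Pi.single j 1, by rwa [h1], by rw [h1, h1]⟩

/-- independent functions are completed to a transcendence basis by pencils -/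
theorem exists_complete (hy : NormalModel y) (hn : Algebra.trdeg ℂ K = n) {j : ℕ} (hj : j ≤ n)
    {g : Fin j → K} (hg : AlgebraicIndependent ℂ g) :
    ∃ u : Fin (n - j) → K, (∀ i, IsPencil y (u i)) ∧ 0 < dg ℂ (Sum.elim u g) := by
  classical
  have hess := hy.ess
  obtain ⟨j0, hj0⟩ := hy.ne
  obtain ⟨T, hT⟩ : ∃ T : Set K, T = Set.range fun i => y i / y j0 := ⟨_, rfl⟩
  have htop : IntermediateField.adjoin ℂ (Set.range g ∪ T) = ⊤ := by
    rw [eq_top_iff, ← hy.field j0 hj0, ← hT]
    exact IntermediateField.adjoin.mono _ _ _ Set.subset_union_right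
  have halg : Algebra.IsAlgebraic (Algebra.adjoin ℂ (Set.range g ∪ T)) K := by
    have h1 : Algebra.IsAlgebraic (IntermediateField.adjoin ℂ (Set.range g ∪ T)) K := by
      constructor
      intro x
      have hx : x ∈ IntermediateField.adjoin ℂ (Set.range g ∪ T) := by
        rw [htop]
        trivial
      exact isAlgebraic_algebraMap
        (⟨x, hx⟩ : IntermediateField.adjoin ℂ (Set.range g ∪ T))
    open scoped IntermediateField.algebraAdjoinAdjoin in
    exact Algebra.IsAlgebraic.trans _ (IntermediateField.adjoin ℂ (Set.range g ∪ T)) K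
  obtain ⟨b, hb1, hb2, hb⟩ := exists_isTranscendenceBasis_between (R := ℂ) (Set.range g)
    (Set.range g ∪ T) Set.subset_union_left hg.coe_range
  have hcard := hb.cardinalMk_eq_trdeg
  rw [hn] at hcard
  have hbfin : b.Finite := by
    have : Cardinal.mk b < Cardinal.aleph0 := by
      rw [hcard]
      exact Cardinal.natCast_lt_aleph0
    exact Cardinal.lt_aleph0_iff_set_finite.1 this
  have hbn : b.ncard = n := by
    rw [Set.ncard, Set.encard, ENat.card, hcard]
    simp
  have hgn : (Set.range g).ncard = j := by
    rw [← Set.image_univ, Set.ncard_image_of_injective _ hg.injective, Set.ncard_univ,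
      Nat.card_eq_fintype_card, Fintype.card_fin]
  have hdn : (b \ Set.range g).ncard = n - j := by
    rw [Set.ncard_sdiff hb1 (Set.finite_range g), hbn, hgn]
  have hdf : (b \ Set.range g).Finite := hbfin.sdiff
  have : Fintype (b \ Set.range g : Set K) := hdf.fintype
  have hc : Fintype.card (b \ Set.range g : Set K) = n - j := by
    rw [← hdn, Set.ncard_eq_toFinset_card', Set.toFinset_card]
  let e := (Fintype.equivFinOfCardEq hc).symm
  refine ⟨fun i => (e i : K), fun i => ?_, dg_pos ?_⟩
  · have h1 := (e i).2
    have h2 := hb2 h1.1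
    rcases h2 with h2 | h2
    · exact absurd h2 h1.2
    · rw [hT] at h2
      obtain ⟨l, hl⟩ := h2
      change IsPencil y (e i : K)
      rw [← hl]
      exact pencil_coord hj0 l
  · have h1 : Set.range (Sum.elim (fun i => (e i : K)) g) = b := by
      rw [Set.Sum.elim_range]
      have h2 : Set.range (fun i => (e i : K)) = b \ Set.range g := by
        ext x
        constructor
        · rintro ⟨i, rfl⟩
          exact (e i).2
        · intro hx
          exact ⟨e.symm ⟨x, hx⟩, by simp⟩
      rw [h2, Set.sdiff_union_of_subset hb1]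
    rw [h1]
    have h2 := hb.isAlgebraic_field
    rwa [Subtype.range_coe] at h2

/-- **The Kodaira dimension is at most the numerical dimension.** -/
theorem kappa_lt (hy : NormalModel y) (hn : Algebra.trdeg ℂ K = n) {Δ : Place ℂ K → ℚ} {j : ℕ}
    (hj : j ≤ n) (hnum : NumDimLt y n Δ j) {m : ℕ} (hm : 1 ≤ m)
    {ω : Fin (j + 1) → (Fin n → Derivation ℂ K K) → K} {E : Fin n → Derivation ℂ K K}
    (hω : ∀ i, IsSection y n m (m • Δ) (ω i)) (h0 : ω 0 E ≠ 0) :
    ¬ AlgebraicIndependent ℂ (fun i : Fin j => ω i.succ E / ω 0 E) := by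
  classical
  intro hind
  obtain ⟨g, hg⟩ : ∃ g : Fin j → K, g = fun i => ω i.succ E / ω 0 E := ⟨_, rfl⟩
  rw [← hg] at hind
  obtain ⟨u, hu, hd⟩ := exists_complete hy hn hj hind
  have hzero : Effective y (0 : Place ℂ K → ℚ) :=
    ⟨fun _ _ => le_rfl, Set.finite_empty.subset (by rintro P ⟨-, h⟩; exact h rfl)⟩
  have hm' : (0 : ℝ) < m := by exact_mod_cast hm
  obtain ⟨t, ht, m0, h⟩ := hnum 0 hzero (1 / (2 * m ^ j)) (by positivity)
  obtain ⟨q, hq⟩ : ∃ q, q = m0 + 1 := ⟨_, rfl⟩
  have h1 := h (q * m) 0 (by nlinarith) (by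
      push_cast
      positivity) u hu (fun i D => ω i D ^ q) E (fun i => by
      have h2 := (hω i).pow q
      rw [smul_smul] at h2
      rw [zero_smul, add_zero]
      exact h2) (pow_ne_zero _ h0)
  have hcard : Nat.card (Fin (n - j) ⊕ Fin j) = n := by
    rw [Nat.card_eq_fintype_card, Fintype.card_sum, Fintype.card_fin, Fintype.card_fin]
    omega
  have h2 := dg_pow_all (k := ℂ) (by rw [hn, hcard]) (Sum.elim u g) (Finset.univ.image Sum.inr)
    (q := q) (by omega) hd.ne'
  rw [Finset.card_image_of_injective _ Sum.inr_injective, Finset.card_univ,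
    Fintype.card_fin] at h2
  have h3' : (Sum.elim u fun i : Fin j => ω i.succ E ^ q / ω 0 E ^ q) =
      fun i => if i ∈ Finset.univ.image Sum.inr then Sum.elim u g i ^ q
        else Sum.elim u g i := by
    funext i
    rcases i with i | i
    · simp
    · simp [hg, div_pow]
  have h3 : degreeOver u (fun i : Fin j => ω i.succ E ^ q / ω 0 E ^ q) =
      dg ℂ (fun i => if i ∈ Finset.univ.image Sum.inr then Sum.elim u g i ^ q
        else Sum.elim u g i) := by
    rw [← h3']
    unfold degreeOver dg
    rw [Set.Sum.elim_range]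
  change ((degreeOver u (fun i : Fin j => ω i.succ E ^ q / ω 0 E ^ q) : ℕ) : ℝ) ≤ _ at h1
  rw [h3, h2] at h1
  push_cast at h1
  have hq' : (0 : ℝ) < q := by
    rw [hq]
    positivity
  have hd' : (1 : ℝ) ≤ dg ℂ (Sum.elim u g) := by exact_mod_cast hd
  have h4 : 1 / (2 * (m : ℝ) ^ j) * (q * m) ^ j = q ^ j / 2 := by
    rw [mul_pow]
    field_simp
  rw [h4] at h1
  have h5 : (0 : ℝ) < (q : ℝ) ^ j := by positivity
  nlinarith

end

end Pool.Agent.R887
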