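import Pool.Agent.R887.Num
import Pool.Agent.R887.Kap

/-!
Varieties with canonical singularities: the condition on the ramification holds for all rational
maps.
-/

set_option autoImplicit false
set_option linter.overlappingInstances false
set_option linter.unusedSectionVars false

open FF MvPolynomial Pool.Agent.W602.GT Pool.Agent.W603.LV Pool.Agent.W619.PQ
open Pool.Agent.Y172 Pool.Agent.Y191

namespace Pool.Agent.R887

section

variable {K K' : Type} [Field K] [Algebra ℂ K] [Field K'] [Algebra ℂ K'] {N N' : ℕ}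
  {y : Fin (N + 1) → K} {y' : Fin (N' + 1) → K'} {n : ℕ}

theorem Canonical.lc (hcan : Canonical y n) : LogCanonical y n 0 := by
  intro Q hQ
  obtain ⟨r, hr, η, h1, h2, h3⟩ := hcan Q hQ
  refine ⟨r, hr, η, h1, fun P hP hT => ?_, fun E hE => (h3 E hE).imp_right fun h => ?_⟩
  · have h4 := h2 P hP hT
    simpa using h4
  · have h4 : (0 : ℚ) ≤ r := Nat.cast_nonneg r
    linarith

theorem Canonical.pullBackLe (hcan : Canonical y n) (hy : NormalModel y) (hy' : NormalModel y')
    (hn : Algebra.trdeg ℂ K = n) (hn' : Algebra.trdeg ℂ K' = n) (φ : K →ₐ[ℂ] K') :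
    PullBackLe φ y n 0 y' ∅ := by
  intro Q hQ _ P e hPe
  have hess' := hy'.ess
  have hess := hy.ess
  let _ : Algebra K K' := φ.toRingHom.toAlgebra
  have hst : IsScalarTower ℂ K K' := IsScalarTower.of_algebraMap_eq fun c => (φ.commutes c).symm
  have hfd : FiniteDimensional K K' := finite_map hn hn'
  have hdQ : Divisorial n Q := hQ.divisorial hy' hn'
  have hov : Over Q P e := hPe
  have hdP := divisorial_down hov hdQ
  obtain ⟨r, hr, η, h1, h2, h3⟩ := hcan P hdP
  refine ⟨1, Or.inr ⟨r, hr, η, h1, fun P' hP' hT => ?_, fun E hE => ?_⟩, ?_⟩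
  · simpa using h2 P' hP' hT
  · simpa using h3 E hE
  · rw [mul_one]
    exact_mod_cast hPe.1

end

end Pool.Agent.R887
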