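import Pool.Agent.R887.Num
import Pool.Agent.Y191.UJac

/-!
Extensions of regular vector fields to finite extensions of the function field.
-/

set_option autoImplicit false
set_option linter.overlappingInstances false
set_option linter.unusedSectionVars false

open FF MvPolynomial Pool.Agent.W602.GT Pool.Agent.W603.LV Pool.Agent.W619.PQ
open Pool.Agent.Y172 Pool.Agent.Y191

namespace Pool.Agent.R887

section

variable {K0 L : Type} [Field K0] [Field L] [Algebra ℂ K0] [Algebra ℂ L]
  [Algebra K0 L] [IsScalarTower ℂ K0 L] [FiniteDimensional K0 L] {n : ℕ}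

theorem over_reg {w : Place ℂ L} {v : Place ℂ K0} {e : ℕ} (h : Over w v e) {x : K0}
    (hx : v.Reg x) : w.Reg (algebraMap K0 L x) := by
  rcases hx with rfl | hx
  · left
    rw [map_zero]
  · right
    rw [h.2]
    positivity

/-- a derivation which preserves a valuation ring and its maximal ideal extends to such a
derivation -/
theorem log_up {w : Place ℂ L} {v : Place ℂ K0} {e : ℕ} (h : Over w v e)
    {D : Derivation ℂ K0 K0} {D' : Derivation ℂ L L}
    (hD' : ∀ f, D' (algebraMap K0 L f) = algebraMap K0 L (D f)) (hD : DerReg v D) {π : K0}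
    (hπ : v.ord π = 1) (hDπ : Ge v 1 (D π)) : DerReg w D' := by
  have hπ0 : π ≠ 0 := by
    rintro rfl
    rw [v.ord_zero] at hπ
    omega
  have h1 := Pool.Agent.TH122.AB.log_of (D := D') h hπ (fun x hx => by
    rw [hD']
    exact over_reg h (hD x hx)) (by
    rw [hD', ← map_div₀]
    refine over_reg h ?_
    have h2 := ge_div hπ0 hDπ
    rw [hπ, sub_self] at h2
    exact h2)
  intro z hz
  by_cases hz0 : z = 0
  · rw [hz0, map_zero]
    exact w.reg_zero
  have h2 : D' z = D' z / z * z := (div_mul_cancel₀ _ hz0).symm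
  rw [h2]
  exact w.reg_mul (h1 z) hz

/-- a regular derivation extends to a regular derivation at an unramified place -/
theorem reg_up [Algebra.EssFiniteType ℂ K0] (hn : Algebra.trdeg ℂ K0 = n) {w : Place ℂ L}
    {v : Place ℂ K0} (h : Over w v 1) (hv : Divisorial n v) (hw : Divisorial n w)
    {D : Derivation ℂ K0 K0} {D' : Derivation ℂ L L}
    (hD' : ∀ f, D' (algebraMap K0 L f) = algebraMap K0 L (D f)) (hD : DerReg v D) :
    DerReg w D' := by
  classical
  have hessL : Algebra.EssFiniteType ℂ L := by
    have h1 : Algebra.EssFiniteType K0 L := inferInstance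
    exact Algebra.EssFiniteType.comp ℂ K0 L
  have hnL : Algebra.trdeg ℂ L = n := trdeg_up (K := K0) hn
  obtain ⟨y, E, i0, hl⟩ := exists_loc hn hv
  obtain ⟨y2, E2, i2, hl2⟩ := exists_loc hnL hw
  choose dd hdd using fun i => exists_lift (L := L) hn (E i)
  have hZ : IsTranscendenceBasis ℂ fun i => algebraMap K0 L (y i) := hl.bas.algebraMap_comp
  have hdual := lift_dual hl.dual hdd
  -- the matrix of the new coordinates
  have hpl : IsPluri 1 fun F : Fin n → Derivation ℂ L L =>
      (Matrix.of fun b c => F b (y2 c)).det := by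
    intro A F
    have e1 : (Matrix.of fun a b => (∑ j, A a j • F j) (y2 b)) =
        A * Matrix.of fun a b => F a (y2 b) := by
      ext a b
      rw [Matrix.of_apply, Matrix.mul_apply, sum_smul_apply]
      rfl
    change (Matrix.of fun a b => (∑ j, A a j • F j) (y2 b)).det = _
    rw [e1, Matrix.det_mul, pow_one]
  have h1 := jac1 hnL h hw dd _ hZ hdual (fun i x hx => by
    rw [hdd]
    exact over_reg h (hl.pres i x hx)) (π := y i0) hl.unif i0 (by
      rw [hdual, if_pos rfl]
      exact one_ne_zero) (by
      rw [hdual, if_pos rfl, w.ord_one]) hpl (c := 0) (fun F hF => by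
        have h2 : Ge w 0 (Matrix.of fun b c => F b (y2 c)).det :=
          ge_det w _ fun b c => hF b _ (hl2.reg c)
        exact h2.imp_right fun h3 => by exact_mod_cast h3)
  obtain ⟨M, hM⟩ : ∃ M : Matrix (Fin n) (Fin n) L, M = Matrix.of fun b c => dd b (y2 c) :=
    ⟨_, rfl⟩
  obtain ⟨J, hJ⟩ : ∃ J : Matrix (Fin n) (Fin n) L,
    J = Matrix.of fun a b => E2 a (algebraMap K0 L (y b)) := ⟨_, rfl⟩
  change (Matrix.of fun b c => dd b (y2 c)).det = 0 ∨ _ at h1
  rw [← hM] at h1
  have hEdd : ∀ a, E2 a = ∑ b, J a b • dd b := by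
    intro a
    apply Pool.Agent.TH122.AB.der_ext' hZ
    intro j
    rw [Pool.Agent.TH122.AB.sum_der, Finset.sum_eq_single j]
    · rw [hdual, if_pos rfl, mul_one, hJ]
      rfl
    · intro b _ hb
      rw [hdual, if_neg hb, mul_zero]
    · intro hj
      exact absurd (Finset.mem_univ _) hj
  have hJM : J * M = 1 := by
    ext a c
    rw [Matrix.mul_apply, Matrix.one_apply, hM]
    have h1 := hl2.dual a c
    rw [hEdd a, Pool.Agent.TH122.AB.sum_der] at h1
    exact h1
  have hdet : J.det * M.det = 1 := by rw [← Matrix.det_mul, hJM, Matrix.det_one]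
  have hM0 : M.det ≠ 0 := right_ne_zero_of_mul (by rw [hdet]; exact one_ne_zero)
  have hJ0 : J.det ≠ 0 := left_ne_zero_of_mul (by rw [hdet]; exact one_ne_zero)
  have hMo : 0 ≤ w.ord M.det := by
    rcases h1 with h1 | h1
    · exact absurd h1 hM0
    · have h2 : ((0 : ℝ)) ≤ (w.ord M.det : ℝ) := by
        refine le_trans (le_of_eq ?_) h1
        push_cast
        ring
      exact_mod_cast h2
  have hJr : ∀ a b, w.Reg (J a b) := by
    intro a b
    rw [hJ]
    exact hl2.pres a _ (over_reg h (hl.reg b))
  have hJo : 0 ≤ w.ord J.det := (ge_det w J hJr).resolve_left hJ0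
  have hJo' : w.ord J.det = 0 := by
    have h3 := congrArg w.ord hdet
    rw [w.ord_mul hJ0 hM0, w.ord_one] at h3
    omega
  -- the entries of the inverse
  have hMadj : M = J.det⁻¹ • J.adjugate := by
    have h4 : J⁻¹ = M := Matrix.inv_eq_right_inv hJM
    rw [← h4, Matrix.inv_def, Ring.inverse_eq_inv']
  have hMr : ∀ a b, w.Reg (M a b) := by
    intro a b
    rw [hMadj]
    change w.Reg (J.det⁻¹ * J.adjugate a b)
    refine w.reg_mul (Or.inr ?_) ?_
    · rw [w.ord_inv, hJo', neg_zero]
    · rw [Matrix.adjugate_apply]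
      refine ge_det w _ fun i j => ?_
      by_cases hi : i = b
      · subst hi
        rw [Matrix.updateRow_self]
        by_cases hj : j = a
        · subst hj
          rw [Pi.single_eq_same]
          exact w.reg_one
        · rw [Pi.single_eq_of_ne hj]
          exact w.reg_zero
      · rw [Matrix.updateRow_ne hi]
        exact hJr i j
  -- the vector field
  have hD1 : D' = ∑ b, algebraMap K0 L (D (y b)) • dd b := by
    apply Pool.Agent.TH122.AB.der_ext' hZ
    intro j
    rw [Pool.Agent.TH122.AB.sum_der, Finset.sum_eq_single j]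
    · rw [hdual, if_pos rfl, mul_one, hD']
    · intro b _ hb
      rw [hdual, if_neg hb, mul_zero]
    · intro hj
      exact absurd (Finset.mem_univ _) hj
  have hdreg : ∀ b, DerReg w (dd b) := by
    intro b
    have h5 : dd b = ∑ c, M b c • E2 c := by
      rw [hM]
      exact (Pool.Agent.W73.PG.PULL.expand y2 hl2.bas E2 hl2.dual (dd b)).symm
    intro f hf
    rw [h5, sum_smul_apply]
    refine Ge.sum _ _ fun c _ => ?_
    exact w.reg_mul (hMr b c) (hl2.pres c f hf)
  intro f hf
  rw [hD1, sum_smul_apply]
  refine Ge.sum _ _ fun b _ => ?_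
  exact w.reg_mul (over_reg h (hD _ (hl.reg b))) (hdreg b f hf)

end

end Pool.Agent.R887
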