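import Pool.Agent.R887.CorA

/-!
Uniform bounds for the pull backs of sections under multi-valued maps from a fixed variety: the data
on the coverings of the source.
-/

set_option autoImplicit false
set_option linter.overlappingInstances false
set_option linter.unusedSectionVars false

open FF MvPolynomial Pool.Agent.W602.GT Pool.Agent.W603.LV Pool.Agent.W619.PQ
open Pool.Agent.Y172 Pool.Agent.Y191

namespace Pool.Agent.R887

section down

variable {K0 L : Type} [Field K0] [Field L] [Algebra ℂ K0] [Algebra ℂ L]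
  [Algebra K0 L] [IsScalarTower ℂ K0 L] [FiniteDimensional K0 L] {n : ℕ}

theorem aeval_up {σ : Type} (U : σ → K0) (Q : MvPolynomial σ ℂ) :
    aeval (fun i => algebraMap K0 L (U i)) Q = algebraMap K0 L (aeval U Q) :=
  (aeval_algebraMap_apply L U Q)

theorem adic_down {w : Place ℂ L} {v : Place ℂ K0} {e : ℕ} (h : Over w v e) {U : Fin n → K0}
    {q : MvPolynomial (Fin n) ℂ} (hq : AdicS w (fun i => algebraMap K0 L (U i)) q) :
    AdicS v U q := by
  intro Q hQ
  obtain ⟨h1, h2⟩ := hq Q hQ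
  have he : (0 : ℤ) < e := by exact_mod_cast h.1
  rw [aeval_up, h.2] at h1 h2
  refine ⟨nonneg_of_mul_nonneg_right h1 he, ?_⟩
  rw [← h2]
  constructor
  · intro h3
    rw [h3, mul_zero]
  · intro h3
    exact (mul_eq_zero.1 h3).resolve_left he.ne'

theorem inf_down {w : Place ℂ L} {v : Place ℂ K0} {e : ℕ} (h : Over w v e) {U : Fin n → K0}
    (i0 : Fin n) {ρ : ℕ} (hρ : AtInf (fun i => algebraMap K0 L (U i)) w ρ) :
    ∃ ρ', AtInf U v ρ' := by
  have he : (0 : ℤ) < e := by exact_mod_cast h.1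
  have h1 := hρ.crd i0
  rw [h.2] at h1
  have hρ1 : (1 : ℤ) ≤ ρ := by exact_mod_cast hρ.1
  have h3 : v.ord (U i0) < 0 := by
    by_contra hcon
    push Not at hcon
    have := mul_nonneg he.le hcon
    omega
  obtain ⟨ρ', hρ'⟩ : ∃ ρ' : ℕ, (ρ' : ℤ) = -v.ord (U i0) := ⟨(-v.ord (U i0)).toNat, by omega⟩
  refine ⟨ρ', by omega, fun Q hQ => ?_⟩
  have h4 := hρ.2 Q hQ
  rw [aeval_up, h.2] at h4
  have h5 : (ρ : ℤ) = e * ρ' := by
    rw [hρ']
    linarith
  rw [h5] at h4
  have h6 : (e : ℤ) * v.ord (aeval U Q) = e * (-(ρ' * (bd (k := ℂ) Finset.univ Q : ℤ))) := by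
    rw [h4]
    ring
  exact mul_left_cancel₀ he.ne' h6

end down

/-- The data on a covering of the source of the maps. -/
structure Src2 {L : Type} [Field L] [Algebra ℂ L] {n : ℕ} (Good : Place ℂ L → Prop)
    (U : Fin n → L) (D : Fin n → Derivation ℂ L L) (G : MvPolynomial (Fin n) ℂ) (i0 : Fin n)
    (c : ℕ) : Prop where
  bas : IsTranscendenceBasis ℂ U
  fr : IsFrame D
  Gne : G ≠ 0
  adic : ∀ (Q : Place ℂ L) (q : MvPolynomial (Fin n) ℂ), Irreducible q → AdicS Q U q →
    Divisorial n Q ∧ (∀ i, DerReg Q (D i)) ∧ (Good Q ∨ 1 ≤ Q.ord (aeval U G))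
  inf : ∀ (w : Place ℂ L) (ρ : ℕ), AtInf U w ρ → ∀ i, DerReg w (((U i0)⁻¹ ^ c) • D i)

section up

variable {K' L : Type} [Field K'] [Field L] [Algebra ℂ K'] [Algebra ℂ L]
  [Algebra K' L] [IsScalarTower ℂ K' L] [FiniteDimensional K' L] {n N' : ℕ}
  {y' : Fin (N' + 1) → K'}

/-- The covering is unramified over the prime divisors of `y'` which are not in `S`. -/
def Unram (L : Type) [Field L] [Algebra ℂ L] [Algebra K' L] [IsScalarTower ℂ K' L]
    [FiniteDimensional K' L] (y' : Fin (N' + 1) → K') (S : Set (Place ℂ K')) : Prop :=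
  ∀ (Q : Place ℂ L) (Q' : Place ℂ K') (e : ℕ), IsPrimeDivisor y' Q' → Q' ∉ S → Over Q Q' e → e = 1

theorem src_up (hess : Algebra.EssFiniteType ℂ K') (hn' : Algebra.trdeg ℂ K' = n)
    {S : Set (Place ℂ K')} {j : Fin (N' + 1)} {U : Fin n → K'} {D : Fin n → Derivation ℂ K' K'}
    {G : MvPolynomial (Fin n) ℂ} {i0 : Fin n} {c : ℕ} (hs : Src y' j S U D G i0 c)
    (hun : Unram L y' S) :
    ∃ D' : Fin n → Derivation ℂ L L,
      Src2 (fun Q : Place ℂ L => ∀ Q' e, Over Q Q' e → IsPrimeDivisor y' Q' ∧ Q' ∉ S)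
      (fun i => algebraMap K' L (U i)) D' G i0 (c + 1 + bd (k := ℂ) Finset.univ G) := by
  classical
  choose D' hD' using fun i => exists_lift (L := L) hn' (D i)
  have hU0 : ∀ Q : MvPolynomial (Fin n) ℂ, Q ≠ 0 → aeval U Q ≠ 0 := fun Q hQ h0 =>
    hQ ((injective_iff_map_eq_zero _).1 hs.bas.1 Q h0)
  have hUL : IsTranscendenceBasis ℂ fun i => algebraMap K' L (U i) := hs.bas.algebraMap_comp
  obtain ⟨g, hg⟩ : ∃ g : K', g = aeval U G := ⟨_, rfl⟩
  have hg0 : g ≠ 0 := by
    rw [hg]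
    exact hU0 G hs.Gne
  have hgL : aeval (fun i => algebraMap K' L (U i)) G = algebraMap K' L g := by
    rw [aeval_up, hg]
  have hg0' : algebraMap K' L g ≠ 0 := by rwa [Ne, map_eq_zero]
  -- frames
  have hfr : IsFrame fun i => algebraMap K' L g • D' i := by
    intro F
    obtain ⟨E, hE⟩ := exists_dual hs.bas.1
    choose a ha using fun i => hs.fr (E i)
    choose E' hE' using fun i => exists_lift (L := L) hn' (E i)
    have hE2 : ∀ i, E' i = ∑ j, algebraMap K' L (a i j) • D' j := by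
      intro i
      apply Pool.Agent.TH122.AB.der_ext' hUL
      intro j
      rw [Pool.Agent.TH122.AB.sum_der, hE']
      conv_lhs => rw [ha i]
      rw [Pool.Agent.TH122.AB.sum_der, map_sum]
      refine Finset.sum_congr rfl fun b _ => ?_
      rw [map_mul, hD']
    refine ⟨fun j => ∑ i, F (algebraMap K' L (U i)) * algebraMap K' L (a i j) *
      (algebraMap K' L g)⁻¹, ?_⟩
    have h1 : F = ∑ i, F (algebraMap K' L (U i)) • E' i :=
      (Pool.Agent.W73.PG.PULL.expand _ hUL E' (lift_dual hE hE') F).symm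
    conv_lhs => rw [h1]
    have h2 : ∀ i, F (algebraMap K' L (U i)) • E' i = ∑ j,
        (F (algebraMap K' L (U i)) * algebraMap K' L (a i j)) • D' j := by
      intro i
      rw [hE2 i, Finset.smul_sum]
      refine Finset.sum_congr rfl fun j _ => ?_
      rw [smul_smul]
    rw [Finset.sum_congr rfl fun i _ => h2 i, Finset.sum_comm]
    refine Finset.sum_congr rfl fun j _ => ?_
    rw [← Finset.sum_smul, smul_smul, Finset.sum_mul]
    congr 1
    refine Finset.sum_congr rfl fun i _ => ?_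
    rw [mul_assoc _ (algebraMap K' L g)⁻¹, inv_mul_cancel₀ hg0', mul_one]
  have hlift : ∀ (r : K') (i : Fin n) (f : K'), (algebraMap K' L r • (algebraMap K' L g • D' i))
      (algebraMap K' L f) = algebraMap K' L ((r • (g • D i)) f) := by
    intro r i f
    change algebraMap K' L r * (algebraMap K' L g * D' i (algebraMap K' L f)) =
      algebraMap K' L (r * (g * D i f))
    rw [hD', map_mul, map_mul]
  refine ⟨fun i => algebraMap K' L g • D' i, ⟨hUL, hfr, hs.Gne, ?_, ?_⟩⟩
  · intro Q q hq hQ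
    have hov := over_bel K' Q
    have hQ' := adic_down hov hQ
    obtain ⟨hp, hd, hr, hS⟩ := hs.adic _ q hq hQ'
    have hdQ : Divisorial n Q := divisorial_up hov hd
    have hgr : (bel K' Q).Reg g := Or.inr (by
      rw [hg]
      exact (hQ' G hs.Gne).1)
    by_cases hQS : bel K' Q ∈ S
    · have h1 := hS hQS
      rw [← hg] at h1
      refine ⟨hdQ, fun i => ?_, Or.inr ?_⟩
      · obtain ⟨π, hπ0, hπ⟩ := (bel K' Q).surj
        have h2 := fun f => hlift 1 i f
        simp only [map_one, one_smul] at h2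
        refine log_up (D := g • D i) hov h2 (derReg_smul (hr i) hgr) hπ ?_
        have h3 : Ge (bel K' Q) 1 g := Or.inr h1
        have h4 : Ge (bel K' Q) 0 (D i π) := hr i π (Or.inr (by rw [hπ]; norm_num))
        have h5 := h3.mul h4
        rw [add_zero] at h5
        exact h5
      · rw [hgL, hov.2]
        have h2 : (1 : ℤ) ≤ ram K' Q := by exact_mod_cast hov.1
        nlinarith
    · have h1 := hun Q _ _ hp hQS hov
      refine ⟨hdQ, fun i => ?_, Or.inl fun Q' e h => ?_⟩
      · refine derReg_smul ?_ (over_reg hov hgr)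
        rw [h1] at hov
        exact reg_up hn' hov hd hdQ (hD' i) (hr i)
      · obtain ⟨rfl, -⟩ := bel_eq K' h
        exact ⟨hp, hQS⟩
  · intro w ρ hw i
    have hov := over_bel K' w
    obtain ⟨ρ', hρ'⟩ := inf_down hov i0 hw
    have h1 := hs.inf _ ρ' hρ' i
    have hUi0 : U i0 ≠ 0 := by
      have := hU0 (X i0) (X_ne_zero _)
      rwa [aeval_X] at this
    obtain ⟨z, hz⟩ : ∃ z : K', z = (U i0)⁻¹ := ⟨_, rfl⟩
    have hz0 : z ≠ 0 := by
      rw [hz]
      exact inv_ne_zero hUi0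
    have hzo : (bel K' w).ord z = ρ' := by
      rw [hz, Place.ord_inv, hρ'.crd i0, neg_neg]
    have hρ1 : (1 : ℤ) ≤ ρ' := by exact_mod_cast hρ'.1
    obtain ⟨r, hr⟩ : ∃ r : K', r = z ^ (1 + bd (k := ℂ) Finset.univ G) * g := ⟨_, rfl⟩
    have hro : (bel K' w).ord r = ρ' := by
      rw [hr, Place.ord_mul _ (pow_ne_zero _ hz0) hg0, Place.ord_pow, hzo, hg, hρ'.2 G hs.Gne]
      push_cast
      ring
    have h2 : ∀ f, ((fun i => algebraMap K' L (U i)) i0)⁻¹ ^ (c + 1 + bd (k := ℂ) Finset.univ G) •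
        (algebraMap K' L g • D' i) (algebraMap K' L f) =
          algebraMap K' L ((r • (z ^ c • D i)) f) := by
      intro f
      change (algebraMap K' L (U i0))⁻¹ ^ (c + 1 + bd (k := ℂ) Finset.univ G) *
        (algebraMap K' L g * D' i (algebraMap K' L f)) = algebraMap K' L (r * (z ^ c * D i f))
      rw [hD', ← map_inv₀, ← map_pow, ← map_mul, ← map_mul, hr, hz]
      congr 1
      ring
    obtain ⟨π, hπ0, hπ⟩ := (bel K' w).surj
    rw [← hz] at h1
    refine log_up (D := r • (z ^ c • D i)) hov h2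
      (derReg_smul h1 (Or.inr (by rw [hro]; omega))) hπ ?_
    have h3 : Ge (bel K' w) 1 r := Or.inr (by rw [hro]; exact hρ1)
    have h4 : Ge (bel K' w) 0 ((z ^ c • D i) π) := h1 π (Or.inr (by rw [hπ]; norm_num))
    have h5 := h3.mul h4
    rw [add_zero] at h5
    exact h5

end up

end Pool.Agent.R887
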