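import Pool.Agent.R887.CorB

/-!
Uniform bounds for the pull backs of sections under multi-valued maps from a fixed variety.
-/

set_option autoImplicit false
set_option linter.overlappingInstances false
set_option linter.unusedSectionVars false

open FF MvPolynomial Pool.Agent.W602.GT Pool.Agent.W603.LV Pool.Agent.W619.PQ
open Pool.Agent.Y172 Pool.Agent.Y191

namespace Pool.Agent.R887

section maps

variable {K L : Type} [Field K] [Algebra ℂ K] [Field L] [Algebra ℂ L] [Algebra K L]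
  [IsScalarTower ℂ K L] [FiniteDimensional K L] {N : ℕ} {y : Fin (N + 1) → K} {n : ℕ}

/-- At the places in `Good` the pull back of `K + Δ` is at most the canonical divisor. -/
def MapOut2 (y : Fin (N + 1) → K) (n : ℕ) (Δ : Place ℂ K → ℚ) (Good : Place ℂ L → Prop) : Prop :=
  ∀ Q : Place ℂ L, Good Q → ∀ (P : Place ℂ K) (e : ℕ), Over Q P e →
    ∃ α : ℚ, LogDisc y n Δ P α ∧ 1 ≤ e * α

theorem uniform2 (hy : NormalModel y) (hn : Algebra.trdeg ℂ K = n) (hn0 : 0 < n)
    {Δ A : Place ℂ K → ℚ} (hA : Effective y A) (hLC : LogCanonical y n Δ)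
    {Good : Place ℂ L → Prop} {U : Fin n → L} {D : Fin n → Derivation ℂ L L}
    {G : MvPolynomial (Fin n) ℂ} {i0 : Fin n} {c : ℕ} (hs : Src2 Good U D G i0 c)
    (hmap : MapOut2 y n Δ Good) {x : Fin n → K}
    {E : Fin n → Derivation ℂ K K} (hx : IsTranscendenceBasis ℂ x)
    (hE : ∀ i j, E i (x j) = if i = j then 1 else 0) (hfr : IsFrame E) :
    ∃ (H : L) (β : ℕ), H ≠ 0 ∧ ∀ m b : ℕ, 1 ≤ m → ∀ ω,
      IsSection y n m (m • Δ + b • A) ω →
      (∀ (P : Place ℂ L) (q : MvPolynomial (Fin n) ℂ), Irreducible q → AdicS P U q →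
        P.Reg (pull L x E m ω D * H ^ b * (aeval U G) ^ m)) ∧
      (∀ (P : Place ℂ L) (ρ : ℕ), AtInf U P ρ →
        Ge P (-(((m * (1 + c * n + bd (k := ℂ) Finset.univ G) + b * β : ℕ) : ℤ) * ρ))
          (pull L x E m ω D * H ^ b * (aeval U G) ^ m)) := by
  classical
  have hess := hy.ess
  have hU0 : ∀ Q : MvPolynomial (Fin n) ℂ, Q ≠ 0 → aeval U Q ≠ 0 := fun Q hQ h0 =>
    hQ ((injective_iff_map_eq_zero _).1 hs.bas.1 Q h0)
  have : Algebra.EssFiniteType K L := inferInstance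
  have hess' : Algebra.EssFiniteType ℂ L := Algebra.EssFiniteType.comp ℂ K L
  have hfd : FiniteDimensional (IntermediateField.adjoin ℂ (Set.range U)) L :=
    fd_basis hs.bas
  have : Nonempty (Fin n) := ⟨⟨0, hn0⟩⟩
  choose s hsc hs0 hb using fun j => disc_bound2 (Δ := Δ) (n := n) hy hA hfr j
  obtain ⟨h0, hh0, hdom⟩ := dom_poly' hs.bas (Finset.univ.image fun j => algebraMap K L (s j))
  have hfin := finite_inf (k := ℂ) hs.bas
  obtain ⟨T, hT⟩ : ∃ T : ℕ, T = ∑ w ∈ hfin.toFinset, ∑ j, (w.ord (algebraMap K L (s j))).natAbs :=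
    ⟨_, rfl⟩
  have hTw : ∀ (w : Place ℂ L) (ρ : ℕ), AtInf U w ρ → ∀ j, w.ord (algebraMap K L (s j)) ≤ T := by
    intro w ρ hw j
    have h1 : (w.ord (algebraMap K L (s j))).natAbs ≤
        ∑ j, (w.ord (algebraMap K L (s j))).natAbs :=
      Finset.single_le_sum (f := fun j => (w.ord (algebraMap K L (s j))).natAbs)
        (fun _ _ => Nat.zero_le _) (Finset.mem_univ j)
    have h2 : ∑ j, (w.ord (algebraMap K L (s j))).natAbs ≤
        ∑ w ∈ hfin.toFinset, ∑ j, (w.ord (algebraMap K L (s j))).natAbs :=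
      Finset.single_le_sum (f := fun w : Place ℂ L =>
        ∑ j, (w.ord (algebraMap K L (s j))).natAbs) (fun _ _ => Nat.zero_le _)
        (by rw [Set.Finite.mem_toFinset]; exact ⟨ρ, hw⟩)
    rw [← hT] at h2
    omega
  refine ⟨aeval U h0, T + bd (k := ℂ) Finset.univ h0, hU0 h0 hh0, fun m b hm ω hω => ⟨?_, ?_⟩⟩
  · intro Q q hq hQ
    obtain ⟨hdQ, hQD, hQS⟩ := hs.adic Q q hq hQ
    have hreg : ∀ R : MvPolynomial (Fin n) ℂ, Q.Reg (aeval U R) := by
      intro R
      by_cases hR : R = 0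
      · rw [hR, map_zero]
        exact Q.reg_zero
      · exact Or.inr (hQ R hR).1
    have hov := over_bel K Q
    have hPd : Divisorial n (bel K Q) := divisorial_down hov hdQ
    obtain ⟨j, hj⟩ := exists_centred hy (bel K Q)
    obtain ⟨α, hα, hα'⟩ : ∃ α : ℚ, LogDisc y n Δ (bel K Q) α ∧
        (0 : ℚ) ≤ ram K Q * α - 1 + Q.ord (aeval U G) := by
      have hG0 : 0 ≤ Q.ord (aeval U G) := (hQ G hs.Gne).1
      have hG0' : (0 : ℚ) ≤ Q.ord (aeval U G) := by exact_mod_cast hG0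
      rcases hQS with hQS' | h1
      · obtain ⟨α, h1, h2⟩ := hmap Q hQS' _ _ hov
        exact ⟨α, h1, by linarith⟩
      · have h1' : (1 : ℚ) ≤ Q.ord (aeval U G) := by exact_mod_cast h1
        exact ⟨0, lc_disc hLC hPd, by linarith⟩
    have h1 := hb j (bel K Q) hj α hα m b hm ω hω
    obtain ⟨c1, hc1⟩ : ∃ c1 : ℤ, c1 = ⌈(m : ℚ) * (α - 1)⌉ - b * (bel K Q).ord (s j) := ⟨_, rfl⟩
    have h2 : OrdGe (bel K Q) ω c1 := by
      intro E' hE'
      refine (h1 E' hE').imp_right fun h => ?_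
      have h3 : (m : ℚ) * (α - 1) ≤ (((bel K Q).ord (ω E') + b * (bel K Q).ord (s j) : ℤ) : ℚ) := by
        push_cast
        linarith
      have h4 := Int.ceil_le.2 h3
      rw [hc1]
      have h5 : ⌈(m : ℚ) * (α - 1)⌉ - b * (bel K Q).ord (s j) ≤ (bel K Q).ord (ω E') := by
        omega
      exact_mod_cast h5
    have h3 := pull_ord hn hx hE hov hPd hω.1 h2 hQD
    have h4 : Ge Q (b * Q.ord (aeval U h0)) ((aeval U h0) ^ b) := Or.inr (by rw [Q.ord_pow])
    have h5 : Ge Q (m * Q.ord (aeval U G)) ((aeval U G) ^ m) := Or.inr (by rw [Q.ord_pow])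
    refine ((h3.mul h4).mul h5).mono ?_
    have h6 := hdom Q hreg (algebraMap K L (s j))
      (Finset.mem_image_of_mem _ (Finset.mem_univ j)) (by
        rw [Ne, map_eq_zero]
        exact hs0 j)
    rw [hov.2] at h6
    have h7 : (m : ℚ) * (α - 1) ≤ ⌈(m : ℚ) * (α - 1)⌉ := Int.le_ceil _
    have h8 : (0 : ℚ) < m := by exact_mod_cast hm
    have h9 : (0 : ℚ) < ram K Q := by exact_mod_cast hov.1
    have h10 : (0 : ℚ) ≤ b := Nat.cast_nonneg b
    have h11 : (0 : ℚ) ≤ (m * (ram K Q - 1) + ram K Q * c1 + b * Q.ord (aeval U h0) +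
        m * Q.ord (aeval U G) : ℚ) := by
      rw [hc1]
      push_cast
      have h12 : ((ram K Q * (bel K Q).ord (s j) : ℤ) : ℚ) ≤ Q.ord (aeval U h0) := by
        exact_mod_cast h6
      push_cast at h12
      have h13 := mul_le_mul_of_nonneg_left h7 h9.le
      have h14 := mul_le_mul_of_nonneg_left h12 h10
      have h15 := mul_nonneg h8.le hα'
      nlinarith
    exact_mod_cast h11
  · intro w ρ hw
    have hρ := hw.1
    have hov := over_bel K w
    have hwd : Divisorial n w := hw.divisorial hn0 hs.bas.1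
    have hPd : Divisorial n (bel K w) := divisorial_down hov hwd
    obtain ⟨j, hj⟩ := exists_centred hy (bel K w)
    have h1 := hb j (bel K w) hj 0 (lc_disc hLC hPd) m b hm ω hω
    obtain ⟨c1, hc1⟩ : ∃ c1 : ℤ, c1 = -(m : ℤ) - b * (bel K w).ord (s j) := ⟨_, rfl⟩
    have h2 : OrdGe (bel K w) ω c1 := by
      intro E' hE'
      refine (h1 E' hE').imp_right fun h => le_trans (le_of_eq ?_) h
      rw [hc1]
      push_cast
      ring
    obtain ⟨z, hz⟩ : ∃ z, z = (U i0)⁻¹ ^ c := ⟨_, rfl⟩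
    have hUi0 : U i0 ≠ 0 := by
      have := hU0 (X i0) (X_ne_zero _)
      rwa [aeval_X] at this
    have hz0 : z ≠ 0 := by
      rw [hz]
      exact pow_ne_zero _ (inv_ne_zero hUi0)
    have hzo : w.ord z = c * ρ := by
      rw [hz, w.ord_pow, w.ord_inv, hw.crd i0, neg_neg]
    have h3 := pull_ord hn hx hE hov hPd hω.1 h2 (D := fun i => z • D i) (fun i => by
      rw [hz]
      exact hs.inf w ρ hw i)
    rw [pluri_smul (pull_pluri x E m ω)] at h3
    have hz1 : (z ^ n) ^ m ≠ 0 := pow_ne_zero _ (pow_ne_zero _ hz0)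
    have h4 := Ge.of_mul hz1 h3
    have h5 : Ge w (b * w.ord (aeval U h0)) ((aeval U h0) ^ b) := Or.inr (by rw [w.ord_pow])
    have h6 : Ge w (m * w.ord (aeval U G)) ((aeval U G) ^ m) := Or.inr (by rw [w.ord_pow])
    refine ((h4.mul h5).mul h6).mono ?_
    rw [w.ord_pow, w.ord_pow, hzo, hw.2 h0 hh0, hw.2 G hs.Gne, hc1]
    have h7 := hTw w ρ hw j
    rw [hov.2] at h7
    have h8 : (1 : ℤ) ≤ ρ := by exact_mod_cast hρ
    have h9 : (0 : ℤ) ≤ b := Int.natCast_nonneg _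
    have h10 : (0 : ℤ) ≤ m := Int.natCast_nonneg _
    have h11 : (0 : ℤ) ≤ T := Int.natCast_nonneg _
    have h12 := mul_le_mul_of_nonneg_left h7 h9
    have h13 : (b : ℤ) * T * 1 ≤ b * T * ρ := mul_le_mul_of_nonneg_left h8 (mul_nonneg h9 h11)
    have h14 : (m : ℤ) * 1 ≤ m * ρ := mul_le_mul_of_nonneg_left h8 h10
    push_cast
    nlinarith

end maps

section chart

variable {K' L : Type} [Field K'] [Algebra ℂ K'] [Field L] [Algebra ℂ L] [Algebra K' L]
  [IsScalarTower ℂ K' L] {N' n : ℕ} {y' : Fin (N' + 1) → K'}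

/-- the affine coordinates of a chart, on the covering -/
def affL (L : Type) [Field L] [Algebra K' L] (y' : Fin (N' + 1) → K') (j : Fin (N' + 1)) : Set L :=
  Set.range fun i => algebraMap K' L (y' i / y' j)

/-- poles bounded by those of functions on a chart, uniformly for all coverings -/
theorem bnd_chart2 {j : Fin (N' + 1)} (hj : y' j ≠ 0) {U : Fin n → K'}
    (hU : ∀ i, U i ∈ chart y' j) :
    ∃ d : ℕ, ∀ (L : Type) [Field L] [Algebra ℂ L] [Algebra K' L] [IsScalarTower ℂ K' L]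
      (B : ℕ) (f : L), Bnd ℂ (insert 1 (Set.range fun i => algebraMap K' L (U i))) B f →
      Bnd ℂ (affL L y' j) (B * d) f := by
  classical
  have h3 : ∀ i, ∃ Q : MvPolynomial (Fin (N' + 1)) ℂ, U i = aeval (fun i => y' i / y' j) Q := by
    intro i
    have h4 : U i ∈ (aeval (fun i => y' i / y' j) :
        MvPolynomial (Fin (N' + 1)) ℂ →ₐ[ℂ] K').range := by
      rw [← Algebra.adjoin_range_eq_range_aeval]
      exact hU i
    obtain ⟨Q, hQ⟩ := h4
    exact ⟨Q, hQ.symm⟩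
  choose Q hQ using h3
  obtain ⟨D, hD⟩ : ∃ D : Fin n → ℕ, ∀ i, D i = ∑ m ∈ (Q i).support, ∑ k, m k :=
    ⟨_, fun _ => rfl⟩
  refine ⟨∑ i, D i, fun L _ _ _ _ B f hf P => ?_⟩
  have h1 : (1 : L) ∈ affL L y' j := ⟨j, by simp only []; rw [div_self hj, map_one]⟩
  have h2 : insert (1 : L) (Set.range fun i => algebraMap K' L (y' i / y' j)) = affL L y' j :=
    Set.insert_eq_of_mem h1
  obtain ⟨μ, hμ⟩ := exists_isMin (k := ℂ) (S := affL L y' j) (Set.finite_range _)
    ⟨1, h1, one_ne_zero⟩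
  have hμ' : IsMin (insert 1 (Set.range fun i => algebraMap K' L (y' i / y' j))) μ := by
    rw [h2]
    exact hμ
  obtain ⟨s, hs, hs0, h4⟩ := hf P
  obtain ⟨t, ht, ht0, h5⟩ := hμ.att P
  have hμ0 := hμ.nonpos h1 P
  refine ⟨t, ht, ht0, le_trans ?_ h4⟩
  rw [h5]
  push_cast
  rw [mul_assoc]
  refine mul_le_mul_of_nonneg_left ?_ (Int.natCast_nonneg _)
  have h6 : (0 : ℤ) ≤ ∑ i, (D i : ℤ) := Finset.sum_nonneg fun _ _ => Int.natCast_nonneg _
  rcases hs with rfl | ⟨i, rfl⟩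
  · rw [P.ord_one]
    exact mul_nonpos_of_nonneg_of_nonpos h6 hμ0
  · have h8 : (D i : ℤ) ≤ ∑ i, (D i : ℤ) :=
      Finset.single_le_sum (f := fun i => (D i : ℤ)) (fun _ _ => Int.natCast_nonneg _)
        (Finset.mem_univ i)
    have h9 : Ge P (D i * μ P) (aeval (fun i => algebraMap K' L (y' i / y' j)) (Q i)) := by
      refine ge_poly hμ' (fun m hm => ?_) P
      rw [hD]
      exact Finset.single_le_sum (f := fun m : Fin (N' + 1) →₀ ℕ => ∑ k, m k)
        (fun _ _ => Nat.zero_le _) hm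
    have h10 : aeval (fun i => algebraMap K' L (y' i / y' j)) (Q i) = algebraMap K' L (U i) := by
      rw [hQ i]
      exact aeval_algebraMap_apply L _ _
    rw [h10] at h9
    have h7 := h9.resolve_left hs0
    nlinarith

end chart

section source

variable {K' : Type} [Field K'] [Algebra ℂ K'] {N' : ℕ} {y' : Fin (N' + 1) → K'} {n : ℕ}

/-- The quotients of the sections, on the coverings of the source. -/
theorem source_bound2 (hy' : NormalModel y') (hn' : Algebra.trdeg ℂ K' = n) (hn0 : 0 < n)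
    {S : Set (Place ℂ K')} (hS : S.Finite) {j' : Fin (N' + 1)} (hj' : y' j' ≠ 0) :
    ∃ M : ℕ, ∀ {K L : Type} [Field K] [Algebra ℂ K] [Field L] [Algebra ℂ L] [Algebra K L]
      [IsScalarTower ℂ K L] [FiniteDimensional K L] [Algebra K' L] [IsScalarTower ℂ K' L]
      [FiniteDimensional K' L] {N : ℕ} {y : Fin (N + 1) → K} {Δ A : Place ℂ K → ℚ}
      {x : Fin n → K} {E : Fin n → Derivation ℂ K K}, NormalModel y → Algebra.trdeg ℂ K = n →
      Effective y A → LogCanonical y n Δ → Unram L y' S →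
      MapOut2 y n Δ (fun Q : Place ℂ L => ∀ Q' e, Over Q Q' e → IsPrimeDivisor y' Q' ∧ Q' ∉ S) →
      IsTranscendenceBasis ℂ x →
      (∀ i j, E i (x j) = if i = j then 1 else 0) → IsFrame E →
      ∃ (β C : ℕ), ∀ m b : ℕ, 1 ≤ m → ∃ F : ((Fin n → Derivation ℂ K K) → K) → L,
        (∀ ω, IsSection y n m (m • Δ + b • A) ω → ω E ≠ 0 → F ω ≠ 0 ∧
          Bnd ℂ (affL L y' j') (m * M + b * β + C) (F ω)) ∧
        ∀ ω ω', IsSection y n m (m • Δ + b • A) ω → IsSection y n m (m • Δ + b • A) ω' →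
          ω E ≠ 0 → ω' E ≠ 0 → F ω' / F ω = algebraMap K L (ω' E / ω E) := by
  classical
  obtain ⟨U, D, G, i0, c, hs⟩ := exists_src hy' hn' hn0 hS hj'
  obtain ⟨d, hd⟩ := bnd_chart2 hj' hs.mem
  have hess' := hy'.ess
  have : Nonempty (Fin n) := ⟨⟨0, hn0⟩⟩
  obtain ⟨c2, hc2⟩ : ∃ c2 : ℕ, c2 = c + 1 + bd (k := ℂ) Finset.univ G := ⟨_, rfl⟩
  refine ⟨(1 + c2 * n + bd (k := ℂ) Finset.univ G) * d, ?_⟩
  intro K L _ _ _ _ _ _ _ _ _ _ N y Δ A x E hy hn hA hLC hun hmap hx hE hfr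
  have hessL : Algebra.EssFiniteType ℂ L := by
    have h1 : Algebra.EssFiniteType K' L := inferInstance
    exact Algebra.EssFiniteType.comp ℂ K' L
  obtain ⟨D', hs2⟩ := src_up hess' hn' hs hun
  rw [← hc2] at hs2
  have hfd : FiniteDimensional (IntermediateField.adjoin ℂ
      (Set.range fun i => algebraMap K' L (U i))) L := fd_basis hs2.bas
  obtain ⟨g, hg0, C, hC⟩ := lin_bound (k := ℂ) hs2.bas
  have hU0 : ∀ Q : MvPolynomial (Fin n) ℂ, Q ≠ 0 → aeval (fun i => algebraMap K' L (U i)) Q ≠ 0 :=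
    fun Q hQ h0 => hQ ((injective_iff_map_eq_zero _).1 hs2.bas.1 Q h0)
  obtain ⟨H, β, hH0, hβ⟩ := uniform2 hy hn hn0 hA hLC hs2 hmap hx hE hfr
  refine ⟨β * d, C * d, fun m b hm => ⟨fun ω => pull L x E m ω D' * H ^ b *
    (aeval (fun i => algebraMap K' L (U i)) G) ^ m * aeval (fun i => algebraMap K' L (U i)) g,
    ?_, ?_⟩⟩
  · intro ω hω hωE
    obtain ⟨h1, h2⟩ := hβ m b hm ω hω
    have h3 : pull L x E m ω D' * H ^ b * (aeval (fun i => algebraMap K' L (U i)) G) ^ m ≠ 0 := by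
      refine mul_ne_zero (mul_ne_zero ?_ (pow_ne_zero _ hH0)) (pow_ne_zero _ (hU0 G hs2.Gne))
      refine mul_ne_zero (pow_ne_zero _ (pull_ne hn hE hs2.fr)) ?_
      rwa [Ne, map_eq_zero]
    refine ⟨mul_ne_zero h3 (hU0 g hg0), ?_⟩
    have h4 := hC _ _ h3 h1 fun P ρ hρ hP => h2 P ρ ⟨hρ, hP⟩
    have h5 := hd L _ _ h4
    have h6 : (m * (1 + c2 * n + bd (k := ℂ) Finset.univ G) + b * β + C) * d =
        m * ((1 + c2 * n + bd (k := ℂ) Finset.univ G) * d) + b * (β * d) + C * d := by ring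
    rw [h6] at h5
    exact h5
  · intro ω ω' hω hω' h1 h2
    have h3 : H ^ b ≠ 0 := pow_ne_zero _ hH0
    have h4 : (aeval (fun i => algebraMap K' L (U i)) G) ^ m ≠ 0 := pow_ne_zero _ (hU0 G hs2.Gne)
    have h5 := hU0 g hg0
    have h6 : (Matrix.of fun i j => D' i (algebraMap K L (x j))).det ^ m ≠ 0 :=
      pow_ne_zero _ (pull_ne hn hE hs2.fr)
    have h7 : algebraMap K L (ω E) ≠ 0 := by rwa [Ne, map_eq_zero]
    rw [map_div₀]
    unfold pull
    field_simp

end source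

end Pool.Agent.R887
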