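import Pool.Agent.R887.Defs

/-!
Definitions: multi-valued rational maps (correspondences) from a fixed variety: coverings of the
source which are unramified outside of finitely many prime divisors, and mixed degrees.
-/

set_option autoImplicit false

open FF Pool.Agent.W602.GT Pool.Agent.Y172

namespace Pool.Agent.R887

section

variable {K K' L : Type} [Field K] [Algebra ℂ K] [Field K'] [Algebra ℂ K'] [Field L] [Algebra ℂ L]
  {N N' : ℕ}

/-- The covering `X'' → X'` given by the homomorphism `ψ` of the function fields is unramified over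
the prime divisors of `X'` which are not in `S`. -/
def UnramifiedOutside (ψ : K' →ₐ[ℂ] L) (y' : Fin (N' + 1) → K') (S : Set (Place ℂ K')) : Prop :=
  ∀ Q' : Place ℂ K', IsPrimeDivisor y' Q' → Q' ∉ S → ∀ (Q : Place ℂ L) (e : ℕ),
    LiesOver ψ Q Q' e → e = 1

/-- Over the prime divisors of `X'` which are not in `S` the pull back of `K_X + Δ` by `X'' ⇢ X` is
at most `K_X''`: if `Q` is a prime divisor of `X''` over a prime divisor of `X'` not in `S`, and `P`
its image, a divisor over `X`, then the product of the ramification index and of the log discrepancy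
of `(X, Δ)` along `P` is at least `1`. -/
def MultiPullBackLe (φ : K →ₐ[ℂ] L) (ψ : K' →ₐ[ℂ] L) (y : Fin (N + 1) → K) (n : ℕ)
    (Δ : Place ℂ K → ℚ) (y' : Fin (N' + 1) → K') (S : Set (Place ℂ K')) : Prop :=
  ∀ Q' : Place ℂ K', IsPrimeDivisor y' Q' → Q' ∉ S → ∀ (Q : Place ℂ L) (e' : ℕ),
    LiesOver ψ Q Q' e' → ∀ (P : Place ℂ K) (e : ℕ), LiesOver φ Q P e →
      ∃ α : ℚ, LogDisc y n Δ P α ∧ 1 ≤ e * α

/-- The intersection number on `X''` of `i` pull backs of hyperplane sections of `X` and `j` pull
backs of hyperplane sections of `X'` is at most `c` times the degree of `X'' ⇢ X`: whenever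
`u 1, ..., u i` are pencils of hyperplane sections of `X` and `v 1, ..., v j` pencils of hyperplane
sections of `X'`, a general fibre of the map `(f^* u, p^* v)` on `X''` has at most `c deg f`
points. -/
def MultiDegreeLe (φ : K →ₐ[ℂ] L) (ψ : K' →ₐ[ℂ] L) (y : Fin (N + 1) → K)
    (y' : Fin (N' + 1) → K') (i j : ℕ) (c : ℝ) : Prop :=
  ∀ u : Fin i → K, (∀ a, IsPencil y (u a)) → ∀ v : Fin j → K', (∀ b, IsPencil y' (v b)) →
    (degreeOver (fun a => φ (u a)) (fun b => ψ (v b)) : ℝ) ≤ c * mapDegree φ

end

end Pool.Agent.R887
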