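import Pool.Agent.R887.CorC
import Pool.Agent.R887.DefsCor

/-!
The numerical dimension is bounded by the growth of the mixed degrees of multi-valued maps.
-/

set_option autoImplicit false
set_option linter.overlappingInstances false
set_option linter.unusedSectionVars false

open FF MvPolynomial Pool.Agent.W602.GT Pool.Agent.W603.LV Pool.Agent.W619.PQ
open Pool.Agent.Y172 Pool.Agent.Y191

namespace Pool.Agent.R887

section

variable {K K' : Type} [Field K] [Algebra ℂ K] [Field K'] [Algebra ℂ K'] {N N' : ℕ}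
  {y : Fin (N + 1) → K} {y' : Fin (N' + 1) → K'} {n : ℕ}

/-- elements of the span of the coordinates of a chart on the covering are pull backs of pencils -/
theorem pencil_of_span2 {L : Type} [Field L] [Algebra ℂ L] (ψ : K' →ₐ[ℂ] L) [Algebra K' L]
    (hψ : ∀ f, algebraMap K' L f = ψ f) {j : Fin (N' + 1)} (hj : y' j ≠ 0) {v : L}
    (hv : v ∈ Submodule.span ℂ (affL L y' j)) : ∃ v' : K', IsPencil y' v' ∧ v = ψ v' := by
  classical
  have h1 : affL L y' j = ψ.toLinearMap '' (aff y' j) := by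
    unfold affL aff
    rw [← Set.range_comp]
    congr 1
    funext i
    exact hψ _
  rw [h1, Submodule.span_image] at hv
  obtain ⟨v', hv', rfl⟩ := hv
  exact ⟨v', pencil_of_span hj hv', rfl⟩

/-- **The numerical dimension is bounded by the growth of the mixed degrees of multi-valued
maps.** -/
theorem numdim2 (hy : NormalModel y) (hy' : NormalModel y') (hn : Algebra.trdeg ℂ K = n)
    (hn' : Algebra.trdeg ℂ K' = n) (hn0 : 0 < n) {Δ : Place ℂ K → ℚ} (hLC : LogCanonical y n Δ)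
    {j : ℕ} (hj : j ≤ n) {S : Set (Place ℂ K')} (hS : S.Finite)
    (h : ∀ ε : ℝ, 0 < ε → ∃ (L : Type) (_ : Field L) (_ : Algebra ℂ L) (φ : K →ₐ[ℂ] L)
      (ψ : K' →ₐ[ℂ] L), FiniteDimensional ψ.fieldRange L ∧ UnramifiedOutside ψ y' S ∧
        MultiPullBackLe φ ψ y n Δ y' S ∧ MultiDegreeLe φ ψ y y' (n - j) j ε) :
    NumDimLt y n Δ j := by
  classical
  intro A hA ε hε
  obtain ⟨j', hj'⟩ := hy'.ne
  have hess' := hy'.ess
  have hess := hy.ess
  obtain ⟨M, hM⟩ := source_bound2 hy' hn' hn0 hS hj'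
  obtain ⟨x, E, hx, hE⟩ : ∃ (x : Fin n → K) (E : Fin n → Derivation ℂ K K),
      IsTranscendenceBasis ℂ x ∧ ∀ i j, E i (x j) = if i = j then 1 else 0 := by
    obtain ⟨j0, hj0⟩ := hy.ne
    obtain ⟨x, hx, -, -⟩ := exists_noether hy hn hj0
    obtain ⟨E, hE⟩ := exists_dual hx.1
    exact ⟨x, E, hx, hE⟩
  have hfr : IsFrame E := fun F => ⟨fun j => F (x j),
    (Pool.Agent.W73.PG.PULL.expand x hx E hE F).symm⟩
  have hM1 : (0 : ℝ) < (M + 2) ^ j := by positivity
  obtain ⟨L, _, _, φ, ψ, hψ0, hun, hφ1, hφ2⟩ := h (ε / (M + 2) ^ j) (div_pos hε hM1)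
  let _ : Algebra K L := φ.toRingHom.toAlgebra
  let _ : Algebra K' L := ψ.toRingHom.toAlgebra
  have hst : IsScalarTower ℂ K L := IsScalarTower.of_algebraMap_eq fun c => (φ.commutes c).symm
  have hst' : IsScalarTower ℂ K' L := IsScalarTower.of_algebraMap_eq fun c => (ψ.commutes c).symm
  have hfd' : FiniteDimensional K' L := by
    have e : K' ≃ₐ[ℂ] ψ.fieldRange := AlgEquiv.ofInjectiveField ψ
    obtain ⟨s, hs⟩ := hψ0.fg_top
    refine ⟨⟨s, ?_⟩⟩
    rw [eq_top_iff]
    intro z _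
    have hz : z ∈ Submodule.span ψ.fieldRange (s : Set L) := by
      rw [hs]
      trivial
    refine Submodule.span_induction (p := fun z _ => z ∈ Submodule.span K' (s : Set L))
      (fun z hz => Submodule.subset_span hz) (Submodule.zero_mem _)
      (fun a b _ _ ha hb => Submodule.add_mem _ ha hb) (fun a z _ hz => ?_) hz
    obtain ⟨a, a', rfl⟩ := a
    exact Submodule.smul_mem _ a' hz
  have hessL : Algebra.EssFiniteType ℂ L := by
    have h1 : Algebra.EssFiniteType K' L := inferInstance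
    exact Algebra.EssFiniteType.comp ℂ K' L
  have hnL : Algebra.trdeg ℂ L = n := trdeg_up (K := K') hn'
  have hfd : FiniteDimensional K L := finite_map hn hnL
  obtain ⟨β, C, hβ⟩ := hM hy hn hA hLC (fun Q Q' e hQ' hQS ho => hun Q' hQ' hQS Q e ho)
    (fun Q hQ P e ho => by
      have hov := over_bel K' Q
      obtain ⟨h1, h2⟩ := hQ _ _ hov
      exact hφ1 _ h1 h2 Q _ hov P e ho) hx hE hfr
  have hdeg : mapDegree φ = Module.finrank K L := by
    unfold mapDegree
    let e : K ≃ₐ[ℂ] φ.fieldRange := AlgEquiv.ofInjectiveField φ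
    refine (Algebra.finrank_eq_of_equiv_equiv e.toRingEquiv (RingEquiv.refl L) ?_).symm
    ext x
    rfl
  have hdeg0 : (0 : ℝ) < Module.finrank K L := by
    exact_mod_cast Module.finrank_pos
  refine ⟨1 / (β + 1), by positivity, C + 1, fun m b hm hb u hu ω E' hω hω0 => ?_⟩
  have hm1 : 1 ≤ m := by omega
  have hm0 : (0 : ℝ) < m := by exact_mod_cast hm1
  obtain ⟨w, hw⟩ : ∃ w : Fin j → K, w = fun i => ω i.succ E' / ω 0 E' := ⟨_, rfl⟩
  rw [← hw, degreeOver_eq]
  by_cases h0 : dg ℂ (Sum.elim u w) = 0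
  · rw [h0]
    push_cast
    positivity
  have hcard : Nat.card (Fin (n - j) ⊕ Fin j) = n := by
    rw [Nat.card_eq_fintype_card, Fintype.card_sum, Fintype.card_fin, Fintype.card_fin]
    omega
  have hbas := basis_of_dg (k := ℂ) (w := Sum.elim u w) (by rw [hn, hcard]) h0
  -- the sections are not zero
  have hωE : ∀ i, ω i E ≠ 0 := by
    intro i
    have h1 := (ratio_frame hfr (hω 0).1 (hω 0).1 hω0).1
    refine Fin.cases h1 (fun i => ?_) i
    intro h2
    have h3 := (ratio_frame hfr (hω 0).1 (hω i.succ).1 hω0).2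
    rw [h2, zero_div] at h3
    have h4 := hbas.1.ne_zero (Sum.inr i)
    rw [Sum.elim_inr, hw] at h4
    exact h4 h3
  obtain ⟨F, hF1, hF2⟩ := hβ m b hm1
  obtain ⟨B, hB⟩ : ∃ B, B = m * M + b * β + C := ⟨_, rfl⟩
  -- replace the sections by pencils
  have hwE : ∀ i, algebraMap K L (w i) = F (ω i.succ) / F (ω 0) := by
    intro i
    rw [hF2 _ _ (hω 0) (hω i.succ) (hωE 0) (hωE i.succ), hw]
    congr 1
    exact (ratio_frame hfr (hω 0).1 (hω i.succ).1 hω0).2
  obtain ⟨v, hv1, hv2, hv3⟩ := replace_all (k := ℂ) (K := L) (ι := Fin (n - j) ⊕ Fin j)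
    (by rw [hnL, hcard]) (S := affL L y' j') (Set.finite_range _)
    ⟨j', by simp only []; rw [div_self hj', map_one]⟩ (B := B)
    (f₀ := F (ω 0)) (hF1 _ (hω 0) (hωE 0)).1 (by rw [hB]; exact (hF1 _ (hω 0) (hωE 0)).2)
    (Finset.univ.image Sum.inr) (fun i => algebraMap K L (Sum.elim u w i))
    (Sum.elim (fun _ => 1) fun i => F (ω i.succ)) (by
      intro i hi
      obtain ⟨a, -, rfl⟩ := Finset.mem_image.1 hi
      exact (hF1 _ (hω _) (hωE _)).1) (by
      intro i hi
      obtain ⟨a, -, rfl⟩ := Finset.mem_image.1 hi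
      rw [hB]
      exact (hF1 _ (hω _) (hωE _)).2) (by
      intro i hi
      obtain ⟨a, -, rfl⟩ := Finset.mem_image.1 hi
      exact hwE a)
  choose v' hv'1 hv'2 using fun i => pencil_of_span2 (y' := y') ψ (fun _ => rfl) hj'
    (hv1 (Sum.inr i) (Finset.mem_image_of_mem _ (Finset.mem_univ i)))
  have h1 : dg ℂ v = degreeOver (fun a => φ (u a)) (fun i => ψ (v' i)) := by
    rw [degreeOver_eq]
    congr 1
    funext i
    rcases i with i | i
    · rw [hv2 (Sum.inl i) (by simp)]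
      rfl
    · exact hv'2 i
  have h2 := hφ2 u hu v' hv'1
  rw [← h1, hdeg] at h2
  rw [dg_tower, Finset.card_image_of_injective _ Sum.inr_injective, Finset.card_univ,
    Fintype.card_fin] at hv3
  have h3 : (dg ℂ (Sum.elim u w) : ℝ) * Module.finrank K L ≤ (B : ℝ) ^ j * dg ℂ v := by
    exact_mod_cast hv3
  have h4 : (B : ℝ) ≤ m * (M + 2) := by
    rw [hB]
    push_cast
    have h5 : (C : ℝ) + 1 ≤ m := by exact_mod_cast hm
    have h6 : (0 : ℝ) ≤ M := Nat.cast_nonneg _
    have h7 : (b : ℝ) * (β + 1) ≤ m := by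
      have h8 : (0 : ℝ) < β + 1 := by positivity
      have h9 := mul_le_mul_of_nonneg_right hb h8.le
      have h10 : 1 / ((β : ℝ) + 1) * m * (β + 1) = m := by field_simp
      linarith
    have h8 : (0 : ℝ) ≤ b := Nat.cast_nonneg _
    nlinarith
  have h5 : (B : ℝ) ^ j ≤ m ^ j * (M + 2) ^ j := by
    rw [← mul_pow]
    exact pow_le_pow_left₀ (Nat.cast_nonneg _) h4 j
  have h6 : (dg ℂ (Sum.elim u w) : ℝ) * Module.finrank K L ≤
      (ε * m ^ j) * Module.finrank K L := by
    calc (dg ℂ (Sum.elim u w) : ℝ) * Module.finrank K L ≤ (B : ℝ) ^ j * dg ℂ v := h3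
      _ ≤ (m ^ j * (M + 2) ^ j) * dg ℂ v :=
        mul_le_mul_of_nonneg_right h5 (Nat.cast_nonneg _)
      _ ≤ (m ^ j * (M + 2) ^ j) * (ε / (M + 2) ^ j * Module.finrank K L) :=
        mul_le_mul_of_nonneg_left h2 (by positivity)
      _ = (ε * m ^ j) * Module.finrank K L := by
        field_simp
  exact le_of_mul_le_mul_right h6 hdeg0

end

end Pool.Agent.R887
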