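import Pool.Agent.R887.CorD
import Pool.Agent.R887.Can

/-!
Canonical singularities: the condition on the ramification of the multi-valued maps to `X` holds.
The Kodaira dimension and the numerical dimension.
-/

set_option autoImplicit false
set_option linter.overlappingInstances false
set_option linter.unusedSectionVars false

open FF MvPolynomial Pool.Agent.W602.GT Pool.Agent.W603.LV Pool.Agent.W619.PQ
open Pool.Agent.Y172 Pool.Agent.Y191

namespace Pool.Agent.R887

section

variable {K K' L : Type} [Field K] [Algebra ℂ K] [Field K'] [Algebra ℂ K'] [Field L] [Algebra ℂ L]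
  {N N' : ℕ} {y : Fin (N + 1) → K} {y' : Fin (N' + 1) → K'} {n : ℕ}

theorem fd_of_range (ψ : K' →ₐ[ℂ] L) (h : FiniteDimensional ψ.fieldRange L) :
    @Module.Finite K' L _ _ (ψ.toRingHom.toAlgebra).toModule := by
  let _ : Algebra K' L := ψ.toRingHom.toAlgebra
  obtain ⟨s, hs⟩ := h.fg_top
  refine ⟨⟨s, ?_⟩⟩
  rw [eq_top_iff]
  intro z _
  have hz : z ∈ Submodule.span ψ.fieldRange (s : Set L) := by
    rw [hs]
    trivial
  refine Submodule.span_induction (p := fun z _ => z ∈ Submodule.span K' (s : Set L))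
    (fun z hz => Submodule.subset_span hz) (Submodule.zero_mem _)
    (fun a b _ _ ha hb => Submodule.add_mem _ ha hb) (fun a z _ hz => ?_) hz
  obtain ⟨a, a', rfl⟩ := a
  exact Submodule.smul_mem _ a' hz

theorem Canonical.multi (hcan : Canonical y n) (hy : NormalModel y) (hy' : NormalModel y')
    (hn : Algebra.trdeg ℂ K = n) (hn' : Algebra.trdeg ℂ K' = n) (φ : K →ₐ[ℂ] L) (ψ : K' →ₐ[ℂ] L)
    (hψ : FiniteDimensional ψ.fieldRange L) (S : Set (Place ℂ K')) :
    MultiPullBackLe φ ψ y n 0 y' S := by
  intro Q' hQ' _ Q e' hQe P e hPe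
  have hess' := hy'.ess
  have hess := hy.ess
  let _ : Algebra K L := φ.toRingHom.toAlgebra
  let _ : Algebra K' L := ψ.toRingHom.toAlgebra
  have hst : IsScalarTower ℂ K L := IsScalarTower.of_algebraMap_eq fun c => (φ.commutes c).symm
  have hst' : IsScalarTower ℂ K' L := IsScalarTower.of_algebraMap_eq fun c => (ψ.commutes c).symm
  have hfd' : FiniteDimensional K' L := fd_of_range ψ hψ
  have hessL : Algebra.EssFiniteType ℂ L := by
    have h1 : Algebra.EssFiniteType K' L := inferInstance
    exact Algebra.EssFiniteType.comp ℂ K' L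
  have hnL : Algebra.trdeg ℂ L = n := trdeg_up (K := K') hn'
  have hfd : FiniteDimensional K L := finite_map hn hnL
  have hdQ : Divisorial n Q := divisorial_up (K := K') hQe (hQ'.divisorial hy' hn')
  have hov : Over Q P e := hPe
  have hdP := divisorial_down hov hdQ
  obtain ⟨r, hr, η, h1, h2, h3⟩ := hcan P hdP
  refine ⟨1, Or.inr ⟨r, hr, η, h1, fun P' hP' hT => ?_, fun E hE => ?_⟩, ?_⟩
  · simpa using h2 P' hP' hT
  · simpa using h3 E hE
  · rw [mul_one]
    exact_mod_cast hPe.1

end

end Pool.Agent.R887
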