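import Pool.Agent.R887.Defs

/-!
Definitions: nef log canonical divisors `K_X + Δ`.
-/

set_option autoImplicit false

open FF Pool.Agent.W602.GT Pool.Agent.Y172

namespace Pool.Agent.R887

section

variable {K : Type} [Field K] [Algebra ℂ K] {N : ℕ}

/-- The form `ω` is a section of `r (K_X + Δ) + m H`, `H` being the hyperplane section `y i = 0`: an
`r`-canonical form with order at least `- r Δ P - m ord (y i / y l)` along all prime divisors `P` of
`X`, if the centre of `P` is in the chart `y l ≠ 0`. -/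
def IsTwistedSectionP (y : Fin (N + 1) → K) (i : Fin (N + 1)) (n : ℕ) (Δ : Place ℂ K → ℚ)
    (r m : ℕ) (ω : (Fin n → Derivation ℂ K K) → K) : Prop :=
  IsPluri r ω ∧ ∀ P l, IsPrimeDivisor y P → Centred y l P →
    OrdGe P ω (-(r * Δ P) - m * P.ord (y i / y l))

/-- The section `ω` of `r (K_X + Δ) + m H`, `H` being the hyperplane section `y i = 0`, generates
this divisorial sheaf at the centre of the place `Q`: it has no zero along the prime divisors `P` of
`X` which contain the centre of `Q`. -/
def GeneratesAtP (y : Fin (N + 1) → K) (i : Fin (N + 1)) (n : ℕ) (Δ : Place ℂ K → ℚ) (r m : ℕ)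
    (ω : (Fin n → Derivation ℂ K K) → K) (Q : Place ℂ K) : Prop :=
  ∀ P l, IsPrimeDivisor y P → Through y P Q → Centred y l P →
    OrdEq P ω (-(r * Δ P) - m * P.ord (y i / y l))

/-- The divisor `K_X + Δ`, `n` being the dimension of `X`, is nef: for all `q ≥ 1` the divisor
`q (K_X + Δ) + H`, `H` being a hyperplane section, is semiample, that is, `m (q (K_X + Δ) + H)` is
generated by its sections at the centres of all prime divisors `Q` over `X` for some `m ≥ 1`. -/
def LogNef (y : Fin (N + 1) → K) (n : ℕ) (Δ : Place ℂ K → ℚ) : Prop :=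
  ∀ i, y i ≠ 0 → ∀ q : ℕ, 1 ≤ q → ∃ m : ℕ, 1 ≤ m ∧ ∀ Q : Place ℂ K, Divisorial n Q →
    ∃ ω : (Fin n → Derivation ℂ K K) → K, IsTwistedSectionP y i n Δ (m * q) m ω ∧
      GeneratesAtP y i n Δ (m * q) m ω Q

end

end Pool.Agent.R887
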