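import Pool.Agent.R887.Nef
import Pool.Agent.R887.DefsNefP

/-!
Nef log canonical divisors of numerical dimension zero with a section are trivial.
-/

set_option autoImplicit false
set_option linter.overlappingInstances false
set_option linter.unusedSectionVars false

open FF MvPolynomial Pool.Agent.W602.GT Pool.Agent.W603.LV Pool.Agent.W619.PQ
open Pool.Agent.Y172 Pool.Agent.Y191

namespace Pool.Agent.R887

section

variable {K : Type} [Field K] [Algebra ℂ K] {N : ℕ} {y : Fin (N + 1) → K} {n : ℕ}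

theorem nef_trivialP (hy : NormalModel y) (hn : Algebra.trdeg ℂ K = n) (hn0 : 0 < n)
    {Δ : Place ℂ K → ℚ}
    (hnum : NumDimLt y n Δ 1) (hnef : LogNef y n Δ) {m0 : ℕ} (hm0 : 1 ≤ m0)
    {η : (Fin n → Derivation ℂ K K) → K} (hη : IsSection y n m0 (m0 • Δ) η) (hη0 : η ≠ 0) :
    ∀ P, IsPrimeDivisor y P → OrdEq P η (-(m0 * Δ P)) := by
  classical
  have hess := hy.ess
  obtain ⟨x, E, hx, hE⟩ := exists_crd hn (k := ℂ) (K := K)
  have hfr : IsFrame E := fun F => ⟨fun j => F (x j),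
    (Pool.Agent.W73.PG.PULL.expand x hx E hE F).symm⟩
  obtain ⟨c, -, hc⟩ := exists_ordc hy hn hx hE
  have hηE : η E ≠ 0 := fun h0 => hη0 (pluri_zero hfr hη.1 h0)
  intro P1 hP1
  have hge : OrdGe P1 η (-(m0 * Δ P1)) := by
    have := hη.2 P1 hP1
    rwa [Pi.smul_apply, nsmul_eq_mul] at this
  by_contra hne
  -- the order is larger
  obtain ⟨z1, hz1⟩ : ∃ z1 : ℤ, z1 = ⌊-(m0 * Δ P1)⌋ + 1 := ⟨_, rfl⟩
  have hz1' : -(m0 * Δ P1) < z1 := by
    rw [hz1]
    push_cast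
    exact Int.lt_floor_add_one _
  have hge1 : OrdGe P1 η z1 := by
    intro E' hE'
    by_cases h0 : η E' = 0
    · exact Or.inl h0
    right
    have h1 := (hge E' hE').resolve_left h0
    have h2 : (P1.ord (η E') : ℚ) ≠ -(m0 * Δ P1) := fun h2 => hne ⟨hge, E', hE', h0, h2⟩
    have h3 : -(m0 * Δ P1) < P1.ord (η E') := lt_of_le_of_ne h1 h2.symm
    have h4 : z1 ≤ P1.ord (η E') := by
      rw [hz1]
      have := Int.floor_lt.2 h3
      omega
    exact_mod_cast h4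
  have hord1 := ((hc P1 hP1 m0 η hη.1 z1).1 hge1).resolve_left hηE
  obtain ⟨δ, hδ⟩ : ∃ δ : ℚ, δ = z1 + m0 * Δ P1 := ⟨_, rfl⟩
  have hδ0 : 0 < δ := by
    rw [hδ]
    linarith
  obtain ⟨i, hi⟩ := hy.ne
  obtain ⟨A, hA, hAP⟩ := exists_hyp hy hi
  obtain ⟨u, hup, hui⟩ := exists_pencils (n := n) hy.ne (Set.finite_singleton P1)
    (fun P hP => by rw [Set.mem_singleton_iff.1 hP]; exact hP1)
    (fun P hP => by rw [Set.mem_singleton_iff.1 hP]; exact hP1.divisorial hy hn)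
  have hm0r : (1 : ℝ) ≤ m0 := by exact_mod_cast hm0
  have hδr : (0 : ℝ) < (δ : ℝ) := by exact_mod_cast hδ0
  obtain ⟨t, ht, m1, hm1⟩ := hnum A hA (δ / (2 * m0)) (by positivity)
  obtain ⟨q, hq⟩ : ∃ q, q = ⌈1 / t⌉₊ + 1 := ⟨_, rfl⟩
  have hqt : 1 ≤ t * q := by
    have h1 : 1 / t ≤ q := by
      rw [hq]
      push_cast
      have := Nat.le_ceil (1 / t)
      linarith
    rw [div_le_iff₀ ht] at h1
    linarith
  obtain ⟨m, hm, hgen⟩ := hnef i hi q (by omega)
  obtain ⟨ω, hω, hωg⟩ := hgen P1 (hP1.divisorial hy hn)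
  obtain ⟨l, hl⟩ := exists_centred hy P1
  have hωeq := hωg P1 l hP1 (fun f hf => localRing_reg hf) hl
  have hωE : ω E ≠ 0 := by
    intro h0
    obtain ⟨-, E', -, h1, -⟩ := hωeq
    rw [pluri_zero hfr hω.1 h0] at h1
    exact h1 rfl
  -- the order of `ω`
  have hordω : ((m * q : ℕ) : ℚ) * c P1 + P1.ord (ω E) =
      -(((m * q : ℕ) : ℚ) * Δ P1) - m * A P1 := by
    have h1 := ((hc P1 hP1 _ ω hω.1 _).1 hωeq.1).resolve_left hωE
    have h2 : OrdGe P1 ω (((m * q : ℕ) : ℚ) * c P1 + P1.ord (ω E)) :=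
      (hc P1 hP1 _ ω hω.1 _).2 (Or.inr le_rfl)
    obtain ⟨-, E', hE', h3, h4⟩ := hωeq
    have h5 := (h2 E' hE').resolve_left h3
    rw [h4, ← hAP P1 l hP1 hl] at h5
    rw [← hAP P1 l hP1 hl] at h1
    linarith
  obtain ⟨k, hk⟩ : ∃ k, k = m1 + 1 := ⟨_, rfl⟩
  obtain ⟨M, hM⟩ : ∃ M, M = m0 * (m * q * k) := ⟨_, rfl⟩
  obtain ⟨b, hb⟩ : ∃ b, b = m * (m0 * k) := ⟨_, rfl⟩
  have hs1 : IsSection y n M (M • Δ + b • A) (fun D => η D ^ (m * q * k)) := by
    have h1 := hη.pow (m * q * k)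
    rw [smul_smul, Nat.mul_comm (m * q * k) m0, ← hM] at h1
    refine ⟨h1.1, fun P hP => (h1.2 P hP).mono ?_⟩
    have h2 := hA.1 P hP
    rw [Pi.add_apply, Pi.smul_apply, Pi.smul_apply, nsmul_eq_mul, nsmul_eq_mul]
    have h3 : (0 : ℚ) ≤ b := Nat.cast_nonneg b
    have := mul_nonneg h3 h2
    linarith
  have hs0 : IsSection y n M (M • Δ + b • A) (fun D => ω D ^ (m0 * k)) := by
    have h0 : IsSection y n (m * q) ((m * q) • Δ + m • A) ω := by
      refine ⟨hω.1, fun P hP => ?_⟩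
      obtain ⟨l', hl'⟩ := exists_centred hy P
      have h2 := hω.2 P l' hP hl'
      rw [← hAP P l' hP hl'] at h2
      rw [Pi.add_apply, Pi.smul_apply, Pi.smul_apply, nsmul_eq_mul, nsmul_eq_mul, neg_add,
        ← sub_eq_add_neg]
      exact h2
    have h1 := h0.pow (m0 * k)
    have h2 : m0 * k * (m * q) = M := by rw [hM]; ring
    rw [smul_add, smul_smul, smul_smul, h2] at h1
    have h3 : m0 * k * m = b := by rw [hb]; ring
    rwa [h3] at h1
  have h1 := hm1 M b (by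
      have h2 : 1 ≤ m0 * (m * q) := Nat.mul_pos hm0 (Nat.mul_pos hm (by omega))
      have h3 : M = m0 * (m * q) * k := by rw [hM]; ring
      rw [h3, hk]
      nlinarith) (by
      rw [hM, hb]
      push_cast
      have h2 : (0 : ℝ) ≤ m * (m0 * k) := by positivity
      nlinarith) u hup
    ![fun D => η D ^ (m * q * k), fun D => ω D ^ (m0 * k)] E (by
      intro a
      fin_cases a
      · exact hs1
      · exact hs0) (by
      change η E ^ (m * q * k) ≠ 0
      exact pow_ne_zero _ hηE)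
  obtain ⟨g, hg⟩ : ∃ g, g = ω E ^ (m0 * k) / η E ^ (m * q * k) := ⟨_, rfl⟩
  have h2 : (fun a : Fin 1 => (![fun D => η D ^ (m * q * k), fun D => ω D ^ (m0 * k)] :
      Fin 2 → (Fin n → Derivation ℂ K K) → K) a.succ E /
      (![fun D => η D ^ (m * q * k), fun D => ω D ^ (m0 * k)] :
        Fin 2 → (Fin n → Derivation ℂ K K) → K) 0 E) = fun _ => g := by
    funext a
    fin_cases a
    exact hg.symm
  rw [h2] at h1
  have hordg : P1.ord g = (m0 * k : ℕ) * P1.ord (ω E) - (m * q * k : ℕ) * P1.ord (η E) := by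
    rw [hg, P1.ord_div (pow_ne_zero _ hωE) (pow_ne_zero _ hηE), P1.ord_pow, P1.ord_pow]
  have hmq : (1 : ℚ) ≤ m * q * k := by
    have h3 : 1 ≤ m * q * k := Nat.mul_pos (Nat.mul_pos hm (by omega)) (by omega)
    exact_mod_cast h3
  have hA0 := hA.1 P1 hP1
  have hle : (P1.ord g : ℚ) ≤ -(m * q * k * δ) := by
    rw [hordg, hδ]
    push_cast
    push_cast at hordω
    have e1 : (P1.ord (ω E) : ℚ) = -(m * q * Δ P1) - m * A P1 - m * q * c P1 := by linarith
    rw [e1]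
    have e2 : (z1 : ℚ) - m0 * c P1 ≤ P1.ord (η E) := by linarith
    have e3 : (0 : ℚ) ≤ m * q * k := by linarith
    have e4 := mul_le_mul_of_nonneg_left e2 e3
    have e5 : (0 : ℚ) ≤ m0 * k * (m * A P1) := by positivity
    nlinarith
  have hpos : (0 : ℚ) < m * q * k * δ := by positivity
  have hneg : P1.ord g < 0 := by
    have : (P1.ord g : ℚ) < 0 := by linarith
    exact_mod_cast this
  have h3 := deg_ge hn hn0 (hui P1 (Set.mem_singleton P1)) hneg
  have h4 : (-(P1.ord g : ℚ) : ℝ) ≤ degreeOver u (fun _ : Fin 1 => g) := by exact_mod_cast h3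
  have h5 : ((m * q * k * δ : ℚ) : ℝ) ≤ ((-(P1.ord g : ℚ) : ℚ) : ℝ) := by
    have : (m * q * k * δ : ℚ) ≤ -(P1.ord g : ℚ) := by linarith
    exact_mod_cast this
  have h6 : (δ : ℝ) / (2 * m0) * M ^ 1 = m * q * k * δ / 2 := by
    rw [hM]
    push_cast
    field_simp
  rw [h6] at h1
  have h7 : (0 : ℝ) < m * q * k * δ := by exact_mod_cast hpos
  push_cast at h4 h5
  linarith

end

end Pool.Agent.R887
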