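import Pool.Agent.R887.CorF
import Pool.Agent.R887.NefP

/-!
One multi-valued map of large degree: pluricanonical maps, and nef log canonical divisors.
-/

set_option autoImplicit false
set_option linter.overlappingInstances false
set_option linter.unusedSectionVars false

open FF MvPolynomial Pool.Agent.W602.GT Pool.Agent.W603.LV Pool.Agent.W619.PQ
open Pool.Agent.Y172 Pool.Agent.Y191

namespace Pool.Agent.R887

section

variable {K : Type} [Field K] [Algebra ℂ K] {N : ℕ} {y : Fin (N + 1) → K} {n : ℕ}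

theorem zero_effective : Effective y (0 : Place ℂ K → ℚ) :=
  ⟨fun _ _ => le_rfl, Set.finite_empty.subset (by rintro P ⟨-, h⟩; exact h rfl)⟩

/-- the bound for large multiples gives the bound for the quotients of `m`-canonical forms -/
theorem pluri_bound (hn : Algebra.trdeg ℂ K = n) {Δ : Place ℂ K → ℚ} {j : ℕ}
    (hj : j ≤ n) {c : ℝ} (hc : 0 ≤ c) {M C : ℕ}
    (h : ∀ m : ℕ, 1 ≤ m → ∀ u : Fin (n - j) → K, (∀ a, IsPencil y (u a)) →
      ∀ (ω : Fin (j + 1) → (Fin n → Derivation ℂ K K) → K) (E : Fin n → Derivation ℂ K K),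
        (∀ i, IsSection y n m (m • Δ) (ω i)) → ω 0 E ≠ 0 →
        (degreeOver u (fun i : Fin j => ω i.succ E / ω 0 E) : ℝ) ≤ c * (m * M + C) ^ j)
    {m : ℕ} (hm : 1 ≤ m) {u : Fin (n - j) → K} (hu : ∀ a, IsPencil y (u a))
    {ω : Fin (j + 1) → (Fin n → Derivation ℂ K K) → K} {E : Fin n → Derivation ℂ K K}
    (hω : ∀ i, IsSection y n m (m • Δ) (ω i)) (h0 : ω 0 E ≠ 0) :
    (degreeOver u (fun i : Fin j => ω i.succ E / ω 0 E) : ℝ) ≤ c * (m * M) ^ j := by
  classical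
  obtain ⟨g, hg⟩ : ∃ g : Fin j → K, g = fun i => ω i.succ E / ω 0 E := ⟨_, rfl⟩
  rw [← hg, degreeOver_eq]
  by_cases hd : dg ℂ (Sum.elim u g) = 0
  · rw [hd]
    push_cast
    positivity
  have hcard : Nat.card (Fin (n - j) ⊕ Fin j) = n := by
    rw [Nat.card_eq_fintype_card, Fintype.card_sum, Fintype.card_fin, Fintype.card_fin]
    omega
  have key : ∀ q : ℕ, (dg ℂ (Sum.elim u g) : ℝ) ≤ c * (m * M + C * ((q : ℝ) + 1)⁻¹) ^ j := by
    intro q
    have h1 := h ((q + 1) * m) (by nlinarith) u hu (fun i D => ω i D ^ (q + 1)) E (fun i => by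
      have h2 := (hω i).pow (q + 1)
      rwa [smul_smul] at h2) (pow_ne_zero _ h0)
    have h2 := dg_pow_all (k := ℂ) (by rw [hn, hcard]) (Sum.elim u g) (Finset.univ.image Sum.inr)
      (q := q + 1) (by omega) hd
    rw [Finset.card_image_of_injective _ Sum.inr_injective, Finset.card_univ,
      Fintype.card_fin] at h2
    have h3' : (Sum.elim u fun i : Fin j => ω i.succ E ^ (q + 1) / ω 0 E ^ (q + 1)) =
        fun i => if i ∈ Finset.univ.image Sum.inr then Sum.elim u g i ^ (q + 1)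
          else Sum.elim u g i := by
      funext i
      rcases i with i | i
      · simp
      · simp [hg, div_pow]
    have h3 : degreeOver u (fun i : Fin j => ω i.succ E ^ (q + 1) / ω 0 E ^ (q + 1)) =
        dg ℂ (fun i => if i ∈ Finset.univ.image Sum.inr then Sum.elim u g i ^ (q + 1)
          else Sum.elim u g i) := by
      rw [← h3']
      unfold degreeOver dg
      rw [Set.Sum.elim_range]
    change ((degreeOver u (fun i : Fin j => ω i.succ E ^ (q + 1) / ω 0 E ^ (q + 1)) : ℕ) : ℝ) ≤ _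
      at h1
    rw [h3, h2] at h1
    push_cast at h1
    have hq : (0 : ℝ) < (q : ℝ) + 1 := by positivity
    have h4 : c * (((q : ℝ) + 1) * m * M + C) ^ j =
        ((q : ℝ) + 1) ^ j * (c * (m * M + C * ((q : ℝ) + 1)⁻¹) ^ j) := by
      have h5 : ((q : ℝ) + 1) * m * M + C = ((q : ℝ) + 1) * (m * M + C * ((q : ℝ) + 1)⁻¹) := by
        field_simp
      rw [h5, mul_pow]
      ring
    rw [h4] at h1
    exact le_of_mul_le_mul_left h1 (by positivity)
  have hlim : Filter.Tendsto (fun q : ℕ => c * (m * M + C * ((q : ℝ) + 1)⁻¹) ^ j) Filter.atTop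
      (nhds (c * (m * M + C * 0) ^ j)) := by
    have h1 : Filter.Tendsto (fun q : ℕ => ((q : ℝ) + 1)⁻¹) Filter.atTop (nhds 0) := by
      have := tendsto_one_div_add_atTop_nhds_zero_nat (𝕜 := ℝ)
      simpa [one_div] using this
    exact ((h1.const_mul _).const_add _).pow j |>.const_mul c
  rw [mul_zero, add_zero] at hlim
  exact ge_of_tendsto' hlim key

/-- **A nef log canonical divisor with a section is trivial, if the degrees of one map are small.** -/
theorem nef_trivial_one (hy : NormalModel y) (hn : Algebra.trdeg ℂ K = n) (hn0 : 0 < n)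
    {Δ : Place ℂ K → ℚ} (hnef : LogNef y n Δ) {c : ℝ} {M : ℕ}
    (hnum : ∀ A : Place ℂ K → ℚ, Effective y A → ∃ β C : ℕ, ∀ m b : ℕ, 1 ≤ m →
      ∀ u : Fin (n - 1) → K, (∀ a, IsPencil y (u a)) →
      ∀ (ω : Fin (1 + 1) → (Fin n → Derivation ℂ K K) → K) (E : Fin n → Derivation ℂ K K),
        (∀ i, IsSection y n m (m • Δ + b • A) (ω i)) → ω 0 E ≠ 0 →
        (degreeOver u (fun i : Fin 1 => ω i.succ E / ω 0 E) : ℝ) ≤
          c * (m * M + b * β + C) ^ 1)
    {m0 : ℕ} (hm0 : 1 ≤ m0) (hint : ∀ P, IsPrimeDivisor y P → ∃ z : ℤ, (m0 : ℚ) * Δ P = z)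
    (hlt : c * M * m0 < 1)
    {η : (Fin n → Derivation ℂ K K) → K} (hη : IsSection y n m0 (m0 • Δ) η) (hη0 : η ≠ 0) :
    ∀ P, IsPrimeDivisor y P → OrdEq P η (-(m0 * Δ P)) := by
  classical
  have hess := hy.ess
  obtain ⟨x, E, hx, hE⟩ := exists_crd hn (k := ℂ) (K := K)
  have hfr : IsFrame E := fun F => ⟨fun j => F (x j),
    (Pool.Agent.W73.PG.PULL.expand x hx E hE F).symm⟩
  obtain ⟨d, -, hd⟩ := exists_ordc hy hn hx hE
  have hηE : η E ≠ 0 := fun h0 => hη0 (pluri_zero hfr hη.1 h0)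
  intro P1 hP1
  have hge : OrdGe P1 η (-(m0 * Δ P1)) := by
    have := hη.2 P1 hP1
    rwa [Pi.smul_apply, nsmul_eq_mul] at this
  by_contra hne
  -- the order is larger
  obtain ⟨z0, hz0⟩ := hint P1 hP1
  obtain ⟨z1, hz1⟩ : ∃ z1 : ℤ, z1 = -z0 + 1 := ⟨_, rfl⟩
  have hge1 : OrdGe P1 η z1 := by
    intro E' hE'
    by_cases h0 : η E' = 0
    · exact Or.inl h0
    right
    have h1 := (hge E' hE').resolve_left h0
    have h2 : (P1.ord (η E') : ℚ) ≠ -(m0 * Δ P1) := fun h2 => hne ⟨hge, E', hE', h0, h2⟩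
    have h3 : -(m0 * Δ P1) < P1.ord (η E') := lt_of_le_of_ne h1 h2.symm
    rw [hz0] at h3
    have h4 : z1 ≤ P1.ord (η E') := by
      rw [hz1]
      have h5 : -z0 < P1.ord (η E') := by exact_mod_cast h3
      omega
    exact_mod_cast h4
  have hord1 := ((hd P1 hP1 m0 η hη.1 z1).1 hge1).resolve_left hηE
  obtain ⟨i, hi⟩ := hy.ne
  obtain ⟨A, hA, hAP⟩ := exists_hyp hy hi
  obtain ⟨u, hup, hui⟩ := exists_pencils (n := n) hy.ne (Set.finite_singleton P1)
    (fun P hP => by rw [Set.mem_singleton_iff.1 hP]; exact hP1)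
    (fun P hP => by rw [Set.mem_singleton_iff.1 hP]; exact hP1.divisorial hy hn)
  have hm0r : (1 : ℝ) ≤ m0 := by exact_mod_cast hm0
  obtain ⟨β, C, hβ⟩ := hnum A hA
  obtain ⟨s, hs⟩ : ∃ s : ℝ, s = 1 - c * M * m0 := ⟨_, rfl⟩
  have hs0 : 0 < s := by
    rw [hs]
    linarith
  obtain ⟨q, hq⟩ : ∃ q, q = ⌈2 * c * m0 * β / s⌉₊ + 1 := ⟨_, rfl⟩
  obtain ⟨k, hk⟩ : ∃ k, k = ⌈2 * c * C / s⌉₊ + 1 := ⟨_, rfl⟩
  have hqs : 2 * (c * m0 * β) < s * q := by
    have h1 : 2 * c * m0 * β / s < q := by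
      rw [hq]
      push_cast
      have := Nat.le_ceil (2 * c * m0 * β / s)
      linarith
    rw [div_lt_iff₀ hs0] at h1
    linarith
  have hks : 2 * (c * C) < s * k := by
    have h1 : 2 * c * C / s < k := by
      rw [hk]
      push_cast
      have := Nat.le_ceil (2 * c * C / s)
      linarith
    rw [div_lt_iff₀ hs0] at h1
    linarith
  obtain ⟨m, hm, hgen⟩ := hnef i hi q (by omega)
  obtain ⟨ω, hω, hωg⟩ := hgen P1 (hP1.divisorial hy hn)
  obtain ⟨l, hl⟩ := exists_centred hy P1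
  have hωeq := hωg P1 l hP1 (fun f hf => localRing_reg hf) hl
  have hωE : ω E ≠ 0 := by
    intro h0
    obtain ⟨-, E', -, h1, -⟩ := hωeq
    rw [pluri_zero hfr hω.1 h0] at h1
    exact h1 rfl
  -- the order of `ω`
  have hordω : ((m * q : ℕ) : ℚ) * d P1 + P1.ord (ω E) =
      -(((m * q : ℕ) : ℚ) * Δ P1) - m * A P1 := by
    have h1 := ((hd P1 hP1 _ ω hω.1 _).1 hωeq.1).resolve_left hωE
    have h2 : OrdGe P1 ω (((m * q : ℕ) : ℚ) * d P1 + P1.ord (ω E)) :=
      (hd P1 hP1 _ ω hω.1 _).2 (Or.inr le_rfl)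
    obtain ⟨-, E', hE', h3, h4⟩ := hωeq
    have h5 := (h2 E' hE').resolve_left h3
    rw [h4, ← hAP P1 l hP1 hl] at h5
    rw [← hAP P1 l hP1 hl] at h1
    linarith
  obtain ⟨M', hM'⟩ : ∃ M', M' = m0 * (m * q * k) := ⟨_, rfl⟩
  obtain ⟨b, hb⟩ : ∃ b, b = m * (m0 * k) := ⟨_, rfl⟩
  have hs1 : IsSection y n M' (M' • Δ + b • A) (fun D => η D ^ (m * q * k)) := by
    have h1 := hη.pow (m * q * k)
    rw [smul_smul, Nat.mul_comm (m * q * k) m0, ← hM'] at h1
    refine ⟨h1.1, fun P hP => (h1.2 P hP).mono ?_⟩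
    have h2 := hA.1 P hP
    rw [Pi.add_apply, Pi.smul_apply, Pi.smul_apply, nsmul_eq_mul, nsmul_eq_mul]
    have h3 : (0 : ℚ) ≤ b := Nat.cast_nonneg b
    have := mul_nonneg h3 h2
    linarith
  have hs0' : IsSection y n M' (M' • Δ + b • A) (fun D => ω D ^ (m0 * k)) := by
    have h0 : IsSection y n (m * q) ((m * q) • Δ + m • A) ω := by
      refine ⟨hω.1, fun P hP => ?_⟩
      obtain ⟨l', hl'⟩ := exists_centred hy P
      have h2 := hω.2 P l' hP hl'
      rw [← hAP P l' hP hl'] at h2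
      rw [Pi.add_apply, Pi.smul_apply, Pi.smul_apply, nsmul_eq_mul, nsmul_eq_mul, neg_add,
        ← sub_eq_add_neg]
      exact h2
    have h1 := h0.pow (m0 * k)
    have h2 : m0 * k * (m * q) = M' := by rw [hM']; ring
    rw [smul_add, smul_smul, smul_smul, h2] at h1
    have h3 : m0 * k * m = b := by rw [hb]; ring
    rwa [h3] at h1
  have hkk : 1 ≤ k := by omega
  have hqq : 1 ≤ q := by omega
  have hM1 : 1 ≤ M' := by
    rw [hM']
    exact Nat.mul_pos hm0 (Nat.mul_pos (Nat.mul_pos hm hqq) hkk)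
  have h1 := hβ M' b hM1 u hup
    ![fun D => η D ^ (m * q * k), fun D => ω D ^ (m0 * k)] E (by
      intro a
      fin_cases a
      · exact hs1
      · exact hs0') (by
      change η E ^ (m * q * k) ≠ 0
      exact pow_ne_zero _ hηE)
  obtain ⟨g, hg⟩ : ∃ g, g = ω E ^ (m0 * k) / η E ^ (m * q * k) := ⟨_, rfl⟩
  have h2 : (fun a : Fin 1 => (![fun D => η D ^ (m * q * k), fun D => ω D ^ (m0 * k)] :
      Fin 2 → (Fin n → Derivation ℂ K K) → K) a.succ E /
      (![fun D => η D ^ (m * q * k), fun D => ω D ^ (m0 * k)] :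
        Fin 2 → (Fin n → Derivation ℂ K K) → K) 0 E) = fun _ => g := by
    funext a
    fin_cases a
    exact hg.symm
  rw [h2] at h1
  have hordg : P1.ord g = (m0 * k : ℕ) * P1.ord (ω E) - (m * q * k : ℕ) * P1.ord (η E) := by
    rw [hg, P1.ord_div (pow_ne_zero _ hωE) (pow_ne_zero _ hηE), P1.ord_pow, P1.ord_pow]
  have hmq : (1 : ℚ) ≤ m * q * k := by
    have h3 : 1 ≤ m * q * k := Nat.mul_pos (Nat.mul_pos hm (by omega)) (by omega)
    exact_mod_cast h3
  have hA0 := hA.1 P1 hP1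
  have hle : (P1.ord g : ℚ) ≤ -(m * q * k) := by
    rw [hordg]
    push_cast
    push_cast at hordω
    have e1 : (P1.ord (ω E) : ℚ) = -(m * q * Δ P1) - m * A P1 - m * q * d P1 := by linarith
    rw [e1]
    have e2 : (z1 : ℚ) - m0 * d P1 ≤ P1.ord (η E) := by linarith
    have e3 : (0 : ℚ) ≤ m * q * k := by linarith
    have e4 := mul_le_mul_of_nonneg_left e2 e3
    have e5 : (0 : ℚ) ≤ m0 * k * (m * A P1) := by positivity
    have e6 : (z1 : ℚ) = -(m0 * Δ P1) + 1 := by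
      rw [hz1, hz0]
      push_cast
      ring
    rw [e6] at e4
    nlinarith
  have hneg : P1.ord g < 0 := by
    have : (P1.ord g : ℚ) < 0 := by linarith
    exact_mod_cast this
  have h3 := deg_ge hn hn0 (hui P1 (Set.mem_singleton P1)) hneg
  have h4 : (-(P1.ord g : ℚ) : ℝ) ≤ degreeOver u (fun _ : Fin 1 => g) := by exact_mod_cast h3
  have h5 : ((m * q * k : ℚ) : ℝ) ≤ ((-(P1.ord g : ℚ) : ℚ) : ℝ) := by
    have : (m * q * k : ℚ) ≤ -(P1.ord g : ℚ) := by linarith
    exact_mod_cast this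
  push_cast at h4 h5 h1
  have h6 : (m : ℝ) * q * k ≤ c * (M' * M + b * β + C) := by
    have := le_trans h5 (le_trans h4 h1)
    rwa [pow_one] at this
  rw [hM', hb] at h6
  push_cast at h6
  have hmr : (1 : ℝ) ≤ m := by exact_mod_cast hm
  have hqr : (1 : ℝ) ≤ q := by exact_mod_cast hqq
  have hkr : (1 : ℝ) ≤ k := by exact_mod_cast hkk
  have h7 : (m : ℝ) * k * (2 * (c * m0 * β)) ≤ m * k * (s * q) :=
    mul_le_mul_of_nonneg_left hqs.le (by positivity)
  have h8 : s * k ≤ s * (m * q * k) := by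
    have h9 : (1 : ℝ) ≤ m * q := by nlinarith
    have h10 : (1 : ℝ) * k ≤ m * q * k := mul_le_mul_of_nonneg_right h9 (by positivity)
    nlinarith
  have h9 : s * ((m : ℝ) * q * k) = m * q * k - c * M * m0 * (m * q * k) := by
    rw [hs]
    ring
  nlinarith

end

end Pool.Agent.R887
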