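import Pool.Agent.R887.Defs

/-!
Definition: upper bounds for positive intersection products.
-/

set_option autoImplicit false

open FF Pool.Agent.W602.GT Pool.Agent.Y172

namespace Pool.Agent.R887

section

variable {K : Type} [Field K] [Algebra ℂ K] {N : ℕ}

/-- The positive intersection product `⟨(K_X + Δ) ^ j⟩ · H ^ (n - j)` of `j` copies of `K_X + Δ` and
`n - j` hyperplane sections of `X` is at most `a`, `n` being the dimension of `X` (if `K_X + Δ` is
nef, this is the intersection number). This means, for all effective divisors `A`: for all `ε > 0`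
there is `t > 0` such that for all large `m` and all `b ≤ t m` the rational maps given by the
sections `ω 0, ..., ω j` of `m (K_X + Δ) + b A` together with `n - j` pencils `u` of hyperplane
sections have degree at most `(a + ε) m ^ j`. -/
def PositiveProductLe (y : Fin (N + 1) → K) (n : ℕ) (Δ : Place ℂ K → ℚ) (j : ℕ) (a : ℝ) : Prop :=
  ∀ A : Place ℂ K → ℚ, Effective y A → ∀ ε : ℝ, 0 < ε → ∃ t : ℝ, 0 < t ∧ ∃ m₀ : ℕ, ∀ m b : ℕ,
    m₀ ≤ m → (b : ℝ) ≤ t * m → ∀ u : Fin (n - j) → K, (∀ a, IsPencil y (u a)) →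
    ∀ (ω : Fin (j + 1) → (Fin n → Derivation ℂ K K) → K)
      (E : Fin n → Derivation ℂ K K), (∀ i, IsSection y n m (m • Δ + b • A) (ω i)) →
      ω 0 E ≠ 0 → (degreeOver u (fun i : Fin j => ω i.succ E / ω 0 E) : ℝ) ≤ (a + ε) * m ^ j

end

end Pool.Agent.R887
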