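import Pool.Agent.R887.CorG
import Pool.Agent.R887.DefsOne
import Pool.Agent.R887.DefsNef

/-!
One multi-valued map: the positive products, and canonical singularities.
-/

set_option autoImplicit false
set_option linter.overlappingInstances false
set_option linter.unusedSectionVars false

open FF MvPolynomial Pool.Agent.W602.GT Pool.Agent.W603.LV Pool.Agent.W619.PQ
open Pool.Agent.Y172 Pool.Agent.Y191

namespace Pool.Agent.R887

section

variable {K : Type} [Field K] [Algebra ℂ K] {N : ℕ} {y : Fin (N + 1) → K} {n : ℕ}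

theorem product_of_bound {Δ : Place ℂ K → ℚ} {j : ℕ} {c : ℝ} (hc : 0 ≤ c) {M : ℕ}
    (h : ∀ A : Place ℂ K → ℚ, Effective y A → ∃ β C : ℕ, ∀ m b : ℕ, 1 ≤ m →
      ∀ u : Fin (n - j) → K, (∀ a, IsPencil y (u a)) →
      ∀ (ω : Fin (j + 1) → (Fin n → Derivation ℂ K K) → K) (E : Fin n → Derivation ℂ K K),
        (∀ i, IsSection y n m (m • Δ + b • A) (ω i)) → ω 0 E ≠ 0 →
        (degreeOver u (fun i : Fin j => ω i.succ E / ω 0 E) : ℝ) ≤
          c * (m * M + b * β + C) ^ j) : PositiveProductLe y n Δ j (c * M ^ j) := by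
  intro A hA ε hε
  obtain ⟨β, C, hβ⟩ := h A hA
  obtain ⟨δ, hδ, hδ0⟩ : ∃ δ : ℝ, c * (M + δ) ^ j < c * M ^ j + ε ∧ 0 < δ := by
    have h1 : Filter.Tendsto (fun δ : ℝ => c * ((M : ℝ) + δ) ^ j) (nhds 0)
        (nhds (c * ((M : ℝ) + 0) ^ j)) :=
      ((Filter.tendsto_id.const_add _).pow j).const_mul c
    rw [add_zero] at h1
    have h2 : ∀ᶠ δ : ℝ in nhds 0, c * ((M : ℝ) + δ) ^ j < c * M ^ j + ε :=
      h1.eventually_lt_const (by linarith)
    have h3 : ∀ᶠ δ : ℝ in nhdsWithin 0 (Set.Ioi 0), c * ((M : ℝ) + δ) ^ j < c * M ^ j + ε :=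
      h2.filter_mono nhdsWithin_le_nhds
    have h4 : ∀ᶠ δ : ℝ in nhdsWithin (0 : ℝ) (Set.Ioi 0), 0 < δ := self_mem_nhdsWithin
    exact (h3.and h4).exists
  obtain ⟨m0, hm0⟩ : ∃ m0 : ℕ, m0 = ⌈2 * C / δ⌉₊ + 1 := ⟨_, rfl⟩
  refine ⟨δ / (2 * (β + 1)), by positivity, m0, fun m b hm hb u hu ω E hω h0 => ?_⟩
  have hm1 : 1 ≤ m := by omega
  refine (hβ m b hm1 u hu ω E hω h0).trans ?_
  have hmr : (1 : ℝ) ≤ m := by exact_mod_cast hm1
  have h1 : (C : ℝ) ≤ δ / 2 * m := by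
    have h2 : 2 * C / δ ≤ m := by
      have h3 := Nat.le_ceil (2 * (C : ℝ) / δ)
      have h4 : ((⌈2 * (C : ℝ) / δ⌉₊ : ℕ) : ℝ) ≤ m := by
        have : ⌈2 * (C : ℝ) / δ⌉₊ ≤ m := by omega
        exact_mod_cast this
      linarith
    rw [div_le_iff₀ hδ0] at h2
    linarith
  have h2 : (b : ℝ) * β ≤ δ / 2 * m := by
    have h3 : (b : ℝ) * (2 * (β + 1)) ≤ δ * m := by
      have h4 : (0 : ℝ) < 2 * (β + 1) := by positivity
      have h5 := mul_le_mul_of_nonneg_right hb h4.le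
      have h6 : δ / (2 * (β + 1)) * m * (2 * ((β : ℝ) + 1)) = δ * m := by field_simp
      linarith
    have h7 : (0 : ℝ) ≤ b := Nat.cast_nonneg _
    nlinarith
  have h3 : (m : ℝ) * M + b * β + C ≤ m * (M + δ) := by nlinarith
  have h4 : ((m : ℝ) * M + b * β + C) ^ j ≤ (m * (M + δ)) ^ j :=
    pow_le_pow_left₀ (by positivity) h3 j
  calc c * ((m : ℝ) * M + b * β + C) ^ j ≤ c * (m * (M + δ)) ^ j :=
        mul_le_mul_of_nonneg_left h4 hc
    _ = c * (M + δ) ^ j * m ^ j := by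
        rw [mul_pow]
        ring
    _ ≤ (c * M ^ j + ε) * m ^ j := mul_le_mul_of_nonneg_right hδ.le (by positivity)

theorem CanonicalNef.logNef (h : CanonicalNef y n) : LogNef y n 0 := by
  intro i hi q hq
  obtain ⟨m, hm, hQ⟩ := h i hi q hq
  refine ⟨m, hm, fun Q hd => ?_⟩
  obtain ⟨ω, hω, hg⟩ := hQ Q hd
  refine ⟨ω, ⟨hω.1, fun P l hP hl => ?_⟩, fun P l hP ht hl => ?_⟩
  · have h1 := hω.2 P l hP hl
    rw [Pi.zero_apply, mul_zero, neg_zero, zero_sub]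
    exact h1
  · have h1 := hg P l hP ht hl
    rw [Pi.zero_apply, mul_zero, neg_zero, zero_sub]
    exact h1

end

end Pool.Agent.R887
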