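import Pool.Agent.R887.Defs

/-!
Definitions: the Iitaka dimension of a divisor, and pseudo-effective divisors.
-/

set_option autoImplicit false

open FF Pool.Agent.W602.GT Pool.Agent.Y172

namespace Pool.Agent.R887

section

variable {K : Type} [Field K] [Algebra ℂ K] {N : ℕ}

/-- The rational function `g` is a section of the `ℚ`-divisor `D` on `X`: it is zero or its order
along all prime divisors `P` of `X` is at least `- D P`. -/
def IsFunctionSection (y : Fin (N + 1) → K) (D : Place ℂ K → ℚ) (g : K) : Prop :=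
  g = 0 ∨ ∀ P, IsPrimeDivisor y P → -(D P) ≤ (P.ord g : ℚ)

/-- The Iitaka dimension of the `ℚ`-divisor `D` on `X` is at least `k`: for some `m ≥ 1` there are
`k + 1` sections of `m D` such that the quotients of the last `k` ones by the first one are
algebraically independent. -/
def IitakaGe (y : Fin (N + 1) → K) (D : Place ℂ K → ℚ) (k : ℕ) : Prop :=
  ∃ m : ℕ, 1 ≤ m ∧ ∃ g : Fin (k + 1) → K, (∀ i, IsFunctionSection y (m • D) (g i)) ∧ g 0 ≠ 0 ∧
    AlgebraicIndependent ℂ (fun i : Fin k => g i.succ / g 0)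

/-- `K_X + D` is pseudo-effective, `n` being the dimension of `X`: there is an effective divisor `H`
such that for all `δ > 0` the divisor `m (K_X + D) + b H` has a nonzero section for some `m ≥ 1` and
`b ≤ δ m`. -/
def PseudoEffective (y : Fin (N + 1) → K) (n : ℕ) (D : Place ℂ K → ℚ) : Prop :=
  ∃ H : Place ℂ K → ℚ, Effective y H ∧ ∀ δ : ℝ, 0 < δ → ∃ m b : ℕ, 1 ≤ m ∧ (b : ℝ) ≤ δ * m ∧
    ∃ η : (Fin n → Derivation ℂ K K) → K, IsSection y n m (m • D + b • H) η ∧ η ≠ 0

end

end Pool.Agent.R887
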