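import Pool.Agent.R887.Kap
import Pool.Agent.R887.DefsCP
import Pool.Agent.R887.DefsKod
import Pool.Agent.R887.DefsOne

/-!
The Iitaka dimension of a divisor `A` such that `K_X + Δ - A` is pseudo-effective is bounded by the
numerical dimension of `K_X + Δ`.
-/

set_option autoImplicit false
set_option linter.overlappingInstances false
set_option linter.unusedSectionVars false

open FF Module MvPolynomial Pool.Agent.W602.GT Pool.Agent.W603.LV
open Pool.Agent.Y172 Pool.Agent.Y191

namespace Pool.Agent.R887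

section

variable {K : Type} [Field K] [Algebra ℂ K] {N n : ℕ} {y : Fin (N + 1) → K}

theorem IitakaGe.mono {D : Place ℂ K → ℚ} {k l : ℕ} (h : IitakaGe y D k) (hl : l ≤ k) :
    IitakaGe y D l := by
  obtain ⟨m, hm, g, hg, h0, hind⟩ := h
  refine ⟨m, hm, fun i => g (Fin.castLE (by omega) i), fun i => hg _, ?_, ?_⟩
  · exact h0
  · have h1 := hind.comp (Fin.castLE hl) (Fin.castLE_injective hl)
    exact h1

theorem KodairaGe.mono {k l : ℕ} (h : KodairaGe y n k) (hl : l ≤ k) : KodairaGe y n l := by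
  obtain ⟨m, hm, ω, E, hω, h0, hind⟩ := h
  refine ⟨m, hm, fun i => ω (Fin.castLE (by omega) i), E, fun i => hω _, ?_, ?_⟩
  · exact h0
  · have h1 := hind.comp (Fin.castLE hl) (Fin.castLE_injective hl)
    exact h1

/-- the product of powers of a function section and of a pluricanonical section -/
theorem section_mul {Δ A H : Place ℂ K → ℚ} {m1 m2 b r : ℕ} (hm1 : 0 < m1) (hr : 0 < r) {g : K}
    (hg0 : g ≠ 0)
    (hg : IsFunctionSection y (m1 • A) g) {η : (Fin n → Derivation ℂ K K) → K}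
    (hη : IsSection y n m2 (m2 • (Δ - A) + b • H) η) :
    IsSection y n (m2 * (m1 * r)) ((m2 * (m1 * r)) • Δ + (b * (m1 * r)) • H)
      (fun D => g ^ (m2 * r) * η D ^ (m1 * r)) := by
  refine ⟨fun M D => ?_, fun P hP E hE => ?_⟩
  · simp only []
    rw [hη.1 M D, mul_pow, ← pow_mul]
    ring
  · by_cases h0 : η E = 0
    · left
      have h1 : m1 * r ≠ 0 := by positivity
      show g ^ (m2 * r) * η E ^ (m1 * r) = 0
      rw [h0, zero_pow h1, mul_zero]
    · right
      have h1 := hg.resolve_left hg0 P hP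
      have h2 := (hη.2 P hP E hE).resolve_left h0
      show _ ≤ (P.ord (g ^ (m2 * r) * η E ^ (m1 * r)) : ℚ)
      rw [P.ord_mul (pow_ne_zero _ hg0) (pow_ne_zero _ h0), P.ord_pow, P.ord_pow]
      have e1 : (m1 • A) P = m1 * A P := by rw [Pi.smul_apply, nsmul_eq_mul]
      have e2 : (m2 • (Δ - A) + b • H) P = m2 * (Δ P - A P) + b * H P := by
        rw [Pi.add_apply, Pi.smul_apply, Pi.smul_apply, nsmul_eq_mul, nsmul_eq_mul, Pi.sub_apply]
      have e3 : ((m2 * (m1 * r)) • Δ + (b * (m1 * r)) • H) P =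
          m2 * (m1 * r) * Δ P + b * (m1 * r) * H P := by
        rw [Pi.add_apply, Pi.smul_apply, Pi.smul_apply, nsmul_eq_mul, nsmul_eq_mul]
        push_cast
        ring
      rw [e1] at h1
      rw [e2] at h2
      rw [e3]
      push_cast
      have h3 := mul_le_mul_of_nonneg_left h1 (show (0 : ℚ) ≤ m2 * r by positivity)
      have h4 := mul_le_mul_of_nonneg_left h2 (show (0 : ℚ) ≤ m1 * r by positivity)
      nlinarith

/-- **The positive product of `A` is at most the one of `K_X + Δ` if `K_X + Δ - A` is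
pseudo-effective.** -/
theorem iitaka_deg (hy : NormalModel y) (hn : Algebra.trdeg ℂ K = n) {Δ A : Place ℂ K → ℚ} {j : ℕ}
    (hj : j ≤ n) {a : ℝ} (ha : 0 ≤ a) (hnum : PositiveProductLe y n Δ j a)
    (hps : PseudoEffective y n (Δ - A)) {m1 : ℕ} (hm1 : 1 ≤ m1) {u : Fin (n - j) → K}
    (hu : ∀ i, IsPencil y (u i)) {g : Fin (j + 1) → K}
    (hg : ∀ i, IsFunctionSection y (m1 • A) (g i)) (hg0 : g 0 ≠ 0) :
    (degreeOver u (fun i : Fin j => g i.succ / g 0) : ℝ) ≤ a * m1 ^ j := by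
  classical
  have hess := hy.ess
  have hm1' : (0 : ℝ) < m1 := by exact_mod_cast hm1
  have hcard : Nat.card (Fin (n - j) ⊕ Fin j) = n := by
    rw [Nat.card_eq_fintype_card, Fintype.card_sum, Fintype.card_fin, Fintype.card_fin]
    omega
  obtain ⟨w, hw⟩ : ∃ w : Fin j → K, w = fun i => g i.succ / g 0 := ⟨_, rfl⟩
  have hdw : degreeOver u (fun i : Fin j => g i.succ / g 0) = dg ℂ (Sum.elim u w) := by
    rw [← hw]
    unfold degreeOver dg
    rw [Set.Sum.elim_range]
  rw [hdw]
  by_cases hd : dg ℂ (Sum.elim u w) = 0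
  · rw [hd]
    push_cast
    positivity
  have hbas := basis_of_dg (k := ℂ) (w := Sum.elim u w) (by rw [hn, hcard]) hd
  have hgi : ∀ i, g i ≠ 0 := by
    intro i
    refine Fin.cases hg0 (fun i => ?_) i
    intro h2
    have h4 := hbas.1.ne_zero (Sum.inr i)
    rw [Sum.elim_inr, hw] at h4
    simp only [] at h4
    rw [h2, zero_div] at h4
    exact h4 rfl
  refine le_of_forall_pos_le_add fun ε hε => ?_
  obtain ⟨H, hH, hps⟩ := hps
  obtain ⟨t, ht, m0, h⟩ := hnum H hH (ε / m1 ^ j) (by positivity)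
  obtain ⟨m2, b, hm2, hb, η, hη, hη0⟩ := hps t ht
  obtain ⟨E, hE⟩ : ∃ E, η E ≠ 0 := by
    by_contra hc
    push Not at hc
    exact hη0 (funext hc)
  obtain ⟨r, hr⟩ : ∃ r, r = m0 + 1 := ⟨_, rfl⟩
  have hrpos : 1 ≤ r := by omega
  have hbig : m0 ≤ m2 * (m1 * r) := by nlinarith [Nat.mul_le_mul hm2 (Nat.mul_le_mul hm1 (le_refl r))]
  have h1 := h (m2 * (m1 * r)) (b * (m1 * r)) hbig (by
      push_cast
      have h2 := mul_le_mul_of_nonneg_right hb (show (0 : ℝ) ≤ m1 * r by positivity)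
      nlinarith) u hu (fun i D => g i ^ (m2 * r) * η D ^ (m1 * r)) E
      (fun i => section_mul (by omega) (by omega) (hgi i) (hg i) hη)
      (mul_ne_zero (pow_ne_zero _ hg0) (pow_ne_zero _ hE))
  have h2 := dg_pow_all (k := ℂ) (by rw [hn, hcard]) (Sum.elim u w) (Finset.univ.image Sum.inr)
    (q := m2 * r) (by nlinarith) hd
  rw [Finset.card_image_of_injective _ Sum.inr_injective, Finset.card_univ,
    Fintype.card_fin] at h2
  have h3' : (Sum.elim u fun i : Fin j => (g i.succ ^ (m2 * r) * η E ^ (m1 * r)) /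
      (g 0 ^ (m2 * r) * η E ^ (m1 * r))) =
      fun i => if i ∈ Finset.univ.image Sum.inr then Sum.elim u w i ^ (m2 * r)
        else Sum.elim u w i := by
    funext i
    rcases i with i | i
    · simp
    · have : (g i.succ ^ (m2 * r) * η E ^ (m1 * r)) / (g 0 ^ (m2 * r) * η E ^ (m1 * r)) =
          (g i.succ / g 0) ^ (m2 * r) := by
        rw [mul_div_mul_right _ _ (pow_ne_zero _ hE), div_pow]
      simp [hw, this]
  have h3 : degreeOver u (fun i : Fin j => (g i.succ ^ (m2 * r) * η E ^ (m1 * r)) /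
      (g 0 ^ (m2 * r) * η E ^ (m1 * r))) =
      dg ℂ (fun i => if i ∈ Finset.univ.image Sum.inr then Sum.elim u w i ^ (m2 * r)
        else Sum.elim u w i) := by
    rw [← h3']
    unfold degreeOver dg
    rw [Set.Sum.elim_range]
  change ((degreeOver u (fun i : Fin j => (g i.succ ^ (m2 * r) * η E ^ (m1 * r)) /
      (g 0 ^ (m2 * r) * η E ^ (m1 * r))) : ℕ) : ℝ) ≤ _ at h1
  rw [h3, h2] at h1
  push_cast at h1
  have hq' : (0 : ℝ) < r := by exact_mod_cast hrpos
  have hm2' : (0 : ℝ) < m2 := by exact_mod_cast hm2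
  have h5 : (0 : ℝ) < (m2 * r : ℝ) ^ j := by positivity
  have h6 : (m2 * r : ℝ) ^ j * (dg ℂ (Sum.elim u w) : ℝ) ≤
      (m2 * r : ℝ) ^ j * (a * m1 ^ j + ε) := by
    refine h1.trans (le_of_eq ?_)
    have h7 : ((m2 : ℝ) * (m1 * r)) ^ j = (m2 * r) ^ j * m1 ^ j := by
      rw [← mul_pow]
      ring
    rw [h7]
    field_simp
  exact le_of_mul_le_mul_left h6 h5

/-- **The Iitaka dimension of `A` is at most the numerical dimension of `K_X + Δ` if
`K_X + Δ - A` is pseudo-effective.** -/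
theorem iitaka_lt (hy : NormalModel y) (hn : Algebra.trdeg ℂ K = n) {Δ A : Place ℂ K → ℚ} {j : ℕ}
    (hj : j ≤ n) (hnum : NumDimLt y n Δ j) (hps : PseudoEffective y n (Δ - A)) :
    ¬ IitakaGe y A j := by
  rintro ⟨m1, hm1, g, hg, hg0, hind⟩
  obtain ⟨u, hu, hd⟩ := exists_complete hy hn hj hind
  have h1 := iitaka_deg hy hn hj (a := 0) le_rfl (by
    intro A' hA' ε hε
    obtain ⟨t, ht, m0, h⟩ := hnum A' hA' ε hε
    refine ⟨t, ht, m0, fun m b hm hb u hu ω E hω h0 => ?_⟩
    rw [zero_add]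
    exact h m b hm hb u hu ω E hω h0) hps hm1 hu hg hg0
  have hdw : degreeOver u (fun i : Fin j => g i.succ / g 0) =
      dg ℂ (Sum.elim u fun i : Fin j => g i.succ / g 0) := by
    unfold degreeOver dg
    rw [Set.Sum.elim_range]
  rw [hdw, zero_mul] at h1
  have h2 : (1 : ℝ) ≤ dg ℂ (Sum.elim u fun i : Fin j => g i.succ / g 0) := by exact_mod_cast hd
  linarith

end

end Pool.Agent.R887
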