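import Pool.Agent.R887.CorH
import Pool.Agent.R887.CorI

/-!
One multi-valued map: the positive products of the canonical divisor and of the divisors below it.
-/

set_option autoImplicit false
set_option linter.overlappingInstances false
set_option linter.unusedSectionVars false

open FF MvPolynomial Pool.Agent.W602.GT Pool.Agent.W603.LV Pool.Agent.W619.PQ
open Pool.Agent.Y172 Pool.Agent.Y191

namespace Pool.Agent.R887

section

variable {K' : Type} [Field K'] [Algebra ℂ K'] {N' : ℕ} {y' : Fin (N' + 1) → K'} {n : ℕ}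

theorem one_map_lc (hy' : NormalModel y') (hn' : Algebra.trdeg ℂ K' = n) (hn0 : 0 < n)
    {S : Set (Place ℂ K')} (hS : S.Finite) :
    ∃ C : ℕ, 0 < C ∧ ∀ {K L : Type} [Field K] [Algebra ℂ K] [Field L] [Algebra ℂ L] {N : ℕ}
      {y : Fin (N + 1) → K} {Δ : Place ℂ K → ℚ}, NormalModel y → Algebra.trdeg ℂ K = n →
      LogCanonical y n Δ →
      ∀ (φ : K →ₐ[ℂ] L) (ψ : K' →ₐ[ℂ] L), FiniteDimensional ψ.fieldRange L →
      UnramifiedOutside ψ y' S → MultiPullBackLe φ ψ y n Δ y' S →
      ∀ (j : ℕ) (c : ℝ), j ≤ n → MultiDegreeLe φ ψ y y' (n - j) j c →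
        0 ≤ c ∧ PositiveProductLe y n Δ j (c * C ^ j) := by
  obtain ⟨M, hM⟩ := one_map hy' hn' hn0 hS
  refine ⟨M + 1, Nat.succ_pos _, ?_⟩
  intro K L _ _ _ _ N y Δ hy hn hlc φ ψ hψ hun hpb j c hj hc
  have hfd : 0 < mapDegree φ := by
    let _ : Algebra K L := φ.toRingHom.toAlgebra
    let _ : Algebra K' L := ψ.toRingHom.toAlgebra
    have hst : IsScalarTower ℂ K L :=
      IsScalarTower.of_algebraMap_eq fun c => (φ.commutes c).symm
    have hst' : IsScalarTower ℂ K' L :=
      IsScalarTower.of_algebraMap_eq fun c => (ψ.commutes c).symm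
    have hfd' : FiniteDimensional K' L := fd_of_range ψ hψ
    have hess' := hy'.ess
    have hess := hy.ess
    have hessL : Algebra.EssFiniteType ℂ L := by
      have h1 : Algebra.EssFiniteType K' L := inferInstance
      exact Algebra.EssFiniteType.comp ℂ K' L
    have hnL : Algebra.trdeg ℂ L = n := trdeg_up (K := K') hn'
    have hfd : FiniteDimensional K L := finite_map hn hnL
    have hdeg : mapDegree φ = Module.finrank K L := by
      unfold mapDegree
      let e : K ≃ₐ[ℂ] φ.fieldRange := AlgEquiv.ofInjectiveField φ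
      refine (Algebra.finrank_eq_of_equiv_equiv e.toRingEquiv (RingEquiv.refl L) ?_).symm
      ext x
      rfl
    rw [hdeg]
    exact Module.finrank_pos
  have hc0 := multi_nonneg hy hy' hc hfd
  refine ⟨hc0, product_of_bound hc0 fun A hA => ?_⟩
  obtain ⟨β, C, h⟩ := hM hy hn hlc hA φ ψ hψ hun hpb
  refine ⟨β, C, fun m b hm u hu ω E hω h0 => ?_⟩
  refine (h hj hc m b hm u hu ω E hω h0).trans ?_
  refine mul_le_mul_of_nonneg_left (pow_le_pow_left₀ (by positivity) ?_ j) hc0
  push_cast
  have h1 : (0 : ℝ) ≤ m := Nat.cast_nonneg _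
  nlinarith

end

end Pool.Agent.R887
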