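import Pool.Agent.R887.DefsTrv

/-!
Definition: the pseudo-effective threshold of the anticanonical divisor.
-/

set_option autoImplicit false

open FF Pool.Agent.W602.GT Pool.Agent.Y172

namespace Pool.Agent.R887

section

variable {K : Type} [Field K] [Algebra ℂ K] {N : ℕ}

/-- The `ℝ`-divisor `τ H - (K_X + Δ)` on `X`, a variety of dimension `n`, is pseudo-effective, where
`H` is a hyperplane section `y i = 0`: for all `ε > 0` the divisor `b H - m (K_X + Δ)` is linearly
equivalent to an effective divisor for some `m ≥ 1` and `b ≤ (τ + ε) m`. This means that there is an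
`m`-canonical form `η` such that its order along a prime divisor `P` of `X` is at most
`- m Δ P + b ord (y i / y l)`, if the centre of `P` is in the chart `y l ≠ 0`. -/
def ThresholdLe (y : Fin (N + 1) → K) (n : ℕ) (Δ : Place ℂ K → ℝ) (τ : ℝ) : Prop :=
  ∀ i, y i ≠ 0 → ∀ ε : ℝ, 0 < ε → ∃ m b : ℕ, 1 ≤ m ∧ (b : ℝ) ≤ (τ + ε) * m ∧
    ∃ η : (Fin n → Derivation ℂ K K) → K, IsPluri m η ∧ ∀ P l, IsPrimeDivisor y P →
      Centred y l P → ∃ z : ℚ, OrdEq P η z ∧ z ≤ -(m * Δ P) + b * P.ord (y i / y l)

end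

end Pool.Agent.R887
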