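import Pool.Agent.R887.DefsLK
import Pool.Agent.R887.DefsThr
import Pool.Agent.R887.DefsOne

/-!
Definition: multi-valued maps and adjoint divisors, up to linear equivalence.
-/

set_option autoImplicit false

open FF Pool.Agent.W602.GT Pool.Agent.Y172

namespace Pool.Agent.R887

section

variable {K K' L : Type} [Field K] [Algebra ℂ K] [Field K'] [Algebra ℂ K'] [Field L] [Algebra ℂ L]
  {N N' : ℕ}

/-- Let `p : X'' → X'` and `f : X'' → X` be the maps given by the homomorphisms `ψ` and `φ`. The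
divisor `f^* (K_X + Δ)` is at most `p^* (K_X' + Δ') + (1 / s) div h` over the prime divisors of `X'`,
for some `s ≥ 1` and some function `h ≠ 0` on `X''`: if `Q` is a prime divisor of `X''` over a prime
divisor `P'` of `X'`, with ramification index `e'`, and `P` its image, a divisor over `X`, with
ramification index `e`, then `e' (1 - Δ' P')` is at most `e α + ord_Q h / s`, where `α` is (a lower
bound for) the log discrepancy of `(X, Δ)` along `P`. The coefficients of `Δ` and `Δ'` are arbitrary,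
so that `K_X + Δ` can be any `ℚ`-Cartier divisor, such as `K_X + L` or `L`. -/
def AdjointPullBackLe (φ : K →ₐ[ℂ] L) (ψ : K' →ₐ[ℂ] L) (y : Fin (N + 1) → K) (n : ℕ)
    (Δ : Place ℂ K → ℚ) (y' : Fin (N' + 1) → K') (Δ' : Place ℂ K' → ℚ) : Prop :=
  ∃ (s : ℕ) (h : L), 1 ≤ s ∧ h ≠ 0 ∧ ∀ P' : Place ℂ K', IsPrimeDivisor y' P' →
    ∀ (Q : Place ℂ L) (e' : ℕ), LiesOver ψ Q P' e' → ∀ (P : Place ℂ K) (e : ℕ), LiesOver φ Q P e →
      ∃ α : ℚ, LogDisc y n Δ P α ∧ s * (e' * (1 - Δ' P')) ≤ s * (e * α) + Q.ord h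

end

end Pool.Agent.R887
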