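import Pool.Agent.R887.DefsCor
import Pool.Agent.R887.DefsCP

/-!
Definitions: `ℚ`-Cartier divisors, their pull backs by multi-valued maps, and their numerical
dimension.
-/

set_option autoImplicit false

open FF Pool.Agent.W602.GT Pool.Agent.Y172

namespace Pool.Agent.R887

section

variable {K K' L : Type} [Field K] [Algebra ℂ K] [Field K'] [Algebra ℂ K'] [Field L] [Algebra ℂ L]
  {N N' : ℕ}

/-- `D` is a `ℚ`-Cartier divisor on `X`: for some `s ≥ 1` and every divisor `v` over `X` there is a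
local equation `t` of the divisor `s D` at the centre of `v`, that is `ord_P t = s D P` for all prime
divisors `P` of `X` which contain the centre of `v`; and `D v = ord_v t / s` is the multiplicity of
`D` along `v`. -/
def IsQCartier (y : Fin (N + 1) → K) (D : Place ℂ K → ℚ) : Prop :=
  ∃ s : ℕ, 1 ≤ s ∧ ∀ v : Place ℂ K, ∃ t : K, t ≠ 0 ∧
    (∀ P, IsPrimeDivisor y P → Through y P v → (P.ord t : ℚ) = s * D P) ∧
    (v.ord t : ℚ) = s * D v

/-- Let `p : X'' → X'` and `f : X'' → X` be the maps given by the homomorphisms `ψ` and `φ`. Over the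
prime divisors of `X'`, the divisor `f^* D` is at most `p^* D' + (1 / s) div h` for some `s ≥ 1` and
some function `h ≠ 0` on `X''`: if `Q` is a prime divisor of `X''` over a prime divisor `P'` of `X'`,
with ramification index `e'`, and `P` its image, a divisor over `X`, with ramification index `e`,
then `e D P ≤ e' D' P' + ord_Q h / s`. -/
def DivisorPullBackLe (φ : K →ₐ[ℂ] L) (ψ : K' →ₐ[ℂ] L) (D : Place ℂ K → ℚ)
    (y' : Fin (N' + 1) → K') (D' : Place ℂ K' → ℚ) : Prop :=
  ∃ (s : ℕ) (h : L), 1 ≤ s ∧ h ≠ 0 ∧ ∀ P' : Place ℂ K', IsPrimeDivisor y' P' →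
    ∀ (Q : Place ℂ L) (e' : ℕ), LiesOver ψ Q P' e' → ∀ (P : Place ℂ K) (e : ℕ), LiesOver φ Q P e →
      s * (e * D P) ≤ s * (e' * D' P') + Q.ord h

/-- The `ℚ`-divisor `M H - D` on `X` is pseudo-effective, where `H` is a hyperplane section
`y i = 0`: for all `ε > 0` the divisor `b H - m D` is linearly equivalent to an effective divisor for
some `m ≥ 1` and `b ≤ (M + ε) m`. -/
def HyperplaneGe (y : Fin (N + 1) → K) (D : Place ℂ K → ℚ) (M : ℝ) : Prop :=
  ∀ i, y i ≠ 0 → ∀ ε : ℝ, 0 < ε → ∃ m b : ℕ, 1 ≤ m ∧ (b : ℝ) ≤ (M + ε) * m ∧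
    ∃ q : K, q ≠ 0 ∧ ∀ P l, IsPrimeDivisor y P → Centred y l P →
      (m * D P : ℚ) ≤ P.ord q + b * P.ord (y i / y l)

/-- The positive intersection product `⟨D ^ j⟩ · H ^ (n - j)` of `j` copies of `D` and `n - j`
hyperplane sections of `X` is at most `a`, `n` being the dimension of `X` (if `D` is nef, this is the
intersection number). This means, for all effective divisors `A`: for all `ε > 0` there is `t > 0`
such that for all large `m` and all `b ≤ t m` the rational maps given by the sections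
`g 0, ..., g j` of `m D + b A` together with `n - j` pencils `u` of hyperplane sections have degree
at most `(a + ε) m ^ j`. -/
def DivisorProductLe (y : Fin (N + 1) → K) (n : ℕ) (D : Place ℂ K → ℚ) (j : ℕ) (a : ℝ) : Prop :=
  ∀ A : Place ℂ K → ℚ, Effective y A → ∀ ε : ℝ, 0 < ε → ∃ t : ℝ, 0 < t ∧ ∃ m₀ : ℕ, ∀ m b : ℕ,
    m₀ ≤ m → (b : ℝ) ≤ t * m → ∀ u : Fin (n - j) → K, (∀ a, IsPencil y (u a)) →
    ∀ g : Fin (j + 1) → K, (∀ i, IsFunctionSection y (m • D + b • A) (g i)) → g 0 ≠ 0 →
      (degreeOver u (fun i : Fin j => g i.succ / g 0) : ℝ) ≤ (a + ε) * m ^ j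

/-- The Iitaka dimension of `D` is `k`. -/
def IitakaEq (y : Fin (N + 1) → K) (D : Place ℂ K → ℚ) (k : ℕ) : Prop :=
  IitakaGe y D k ∧ ¬ IitakaGe y D (k + 1)

/-- The numerical dimension of `D` is `k`, for the numerical dimension which is defined by means of
positive intersection products: `⟨D ^ (k + 1)⟩ · H ^ (n - k - 1) = 0`, but not
`⟨D ^ k⟩ · H ^ (n - k) = 0`. (For a nef divisor this is the usual numerical dimension.) -/
def DivisorNumDimEq (y : Fin (N + 1) → K) (n : ℕ) (D : Place ℂ K → ℚ) (k : ℕ) : Prop :=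
  DivisorProductLe y n D (k + 1) 0 ∧ ¬ DivisorProductLe y n D k 0

end

end Pool.Agent.R887
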