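import Pool.Agent.R887.DefsCor

/-!
Definitions: `ℝ`-divisors, thresholds, and their pull backs by finite multi-valued maps.
-/

set_option autoImplicit false

open FF Pool.Agent.W602.GT Pool.Agent.Y172

namespace Pool.Agent.R887

section

variable {K K' L : Type} [Field K] [Algebra ℂ K] [Field K'] [Algebra ℂ K'] [Field L] [Algebra ℂ L]
  {N N' : ℕ}

/-- The `ℝ`-divisor `τ H - D` on `X` is pseudo-effective, where `H` is a hyperplane section
`y i = 0`: for all `ε > 0` there are `m ≥ 1`, `b ≤ (τ + ε) m` and a function `q ≠ 0` such that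
`div q + b H - m D` is effective, that is, the order of `q` along a prime divisor `P` of `X` is at
least `m D P - b ord (y i / y l)`, if the centre of `P` is in the chart `y l ≠ 0`. -/
def DivThresholdLe (y : Fin (N + 1) → K) (D : Place ℂ K → ℝ) (τ : ℝ) : Prop :=
  ∀ i, y i ≠ 0 → ∀ ε : ℝ, 0 < ε → ∃ m b : ℕ, 1 ≤ m ∧ (b : ℝ) ≤ (τ + ε) * m ∧
    ∃ q : K, q ≠ 0 ∧ ∀ P l, IsPrimeDivisor y P → Centred y l P →
      (m : ℝ) * D P ≤ P.ord q + b * P.ord (y i / y l)

/-- The `ℝ`-divisor `D` on `X` is pseudo-effective. -/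
def DivPsef (y : Fin (N + 1) → K) (D : Place ℂ K → ℝ) : Prop :=
  DivThresholdLe y (fun P => -D P) 0

/-- The `ℝ`-divisor `D` on `X` is numerically trivial: `D` and `-D` are pseudo-effective. -/
def DivNumTrivial (y : Fin (N + 1) → K) (D : Place ℂ K → ℝ) : Prop :=
  DivPsef y D ∧ DivPsef y (fun P => -D P)

/-- Let `p : X'' → X'` and `f : X'' → X` be the maps given by the homomorphisms `ψ` and `φ` of the
function fields. Every prime divisor `Q` over `X''` which lies over a prime divisor `P` of `X`, with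
ramification index `e`, lies over a prime divisor `P'` of `X'` (this holds if `p` and `f` are finite
morphisms), with ramification index `e'`, and `s e D P ≤ s e' D' P' + ord_Q δ`: along these prime
divisors `s f^* D` is at most `s p^* D' + div δ`. -/
def FinitePullBackLe (φ : K →ₐ[ℂ] L) (ψ : K' →ₐ[ℂ] L) (y : Fin (N + 1) → K)
    (D : Place ℂ K → ℝ) (y' : Fin (N' + 1) → K') (D' : Place ℂ K' → ℝ) (s : ℕ) (δ : L) : Prop :=
  1 ≤ s ∧ δ ≠ 0 ∧ ∀ P : Place ℂ K, IsPrimeDivisor y P → ∀ (Q : Place ℂ L) (e : ℕ),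
    LiesOver φ Q P e → ∀ (P' : Place ℂ K') (e' : ℕ), LiesOver ψ Q P' e' →
      IsPrimeDivisor y' P' ∧ s * (e * D P) ≤ s * (e' * D' P') + Q.ord δ

/-- `s f^* D = s p^* D' + div δ` along the prime divisors over `X''` over the ones of `X`. -/
def PullBackEq (φ : K →ₐ[ℂ] L) (ψ : K' →ₐ[ℂ] L) (y : Fin (N + 1) → K)
    (D : Place ℂ K → ℝ) (D' : Place ℂ K' → ℝ) (s : ℕ) (δ : L) : Prop :=
  ∀ P : Place ℂ K, IsPrimeDivisor y P → ∀ (Q : Place ℂ L) (e : ℕ), LiesOver φ Q P e →
    ∀ (P' : Place ℂ K') (e' : ℕ), LiesOver ψ Q P' e' →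
      s * (e * D P) = s * (e' * D' P') + Q.ord δ

end

end Pool.Agent.R887
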