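import Pool.Agent.R887.Defs

/-!
Definition: an explicit upper bound for the canonical divisor.
-/

set_option autoImplicit false

open FF Pool.Agent.W602.GT Pool.Agent.Y172

namespace Pool.Agent.R887

section

variable {K : Type} [Field K] [Algebra ℂ K] {N : ℕ}

/-- The divisor `a H - s (K_X + S)` is linearly equivalent to an effective divisor, `n` being the
dimension of `X` and `H` a hyperplane section: there is an `s`-canonical form `θ` with
`div θ + s S ≤ a H`, where `H` is the hyperplane section `y i = 0`. This means that the order `z` of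
`θ` along a prime divisor `P` of `X` is at most `a ord (y i / y l)`, if the centre of `P` is in the
chart `y l ≠ 0`, and the same for `z + s` if `P` is in `S`. -/
def CanonicalLe (y : Fin (N + 1) → K) (n : ℕ) (S : Set (Place ℂ K)) (s a : ℕ) : Prop :=
  ∃ i, y i ≠ 0 ∧ ∃ θ : (Fin n → Derivation ℂ K K) → K, IsPluri s θ ∧
    ∀ P l, IsPrimeDivisor y P → Centred y l P → ∃ z : ℚ, OrdEq P θ z ∧
      z ≤ a * P.ord (y i / y l) ∧ (P ∈ S → z + s ≤ a * P.ord (y i / y l))

end

end Pool.Agent.R887
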