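import Pool.Agent.R887.Defs

/-!
Definition: the Cartier index of `K_X + Δ`.
-/

set_option autoImplicit false

open FF Pool.Agent.W602.GT Pool.Agent.Y172

namespace Pool.Agent.R887

section

variable {K : Type} [Field K] [Algebra ℂ K] {N : ℕ}

/-- The divisor `r (K_X + Δ)` is Cartier, `n` being the dimension of `X`: for every prime divisor `Q`
over `X` there is an `r`-canonical form `η` which generates `r (K_X + Δ)` at the centre of `Q` on
`X` (its order is `- r Δ P` along all prime divisors `P` of `X` through this centre). -/
def CartierIndex (y : Fin (N + 1) → K) (n : ℕ) (Δ : Place ℂ K → ℚ) (r : ℕ) : Prop :=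
  ∀ Q : Place ℂ K, Divisorial n Q → ∃ η : (Fin n → Derivation ℂ K K) → K, IsPluri r η ∧
    ∀ P, IsPrimeDivisor y P → Through y P Q → OrdEq P η (-(r * Δ P))

end

end Pool.Agent.R887
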