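import Pool.Agent.R887.DefsTens

/-!
Definition: holomorphic tensor differentials.
-/

set_option autoImplicit false

open FF Pool.Agent.W602.GT Pool.Agent.Y172

namespace Pool.Agent.R887

section

variable {K : Type} [Field K] [Algebra ℂ K]

/-- The tensor field `τ`, a rational section of the `r`-th tensor power of the cotangent bundle, is
holomorphic (on the smooth projective varieties of dimension `n` with function field `K`): it is
regular at all prime divisors `P` over `X`, that is, on the vector fields which are regular at
`P`. -/
def HolomorphicTensor (n : ℕ) {r : ℕ} (τ : Tensor K r) : Prop :=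
  ∀ P : Place ℂ K, Divisorial n P → ∀ E : Fin r → Derivation ℂ K K, (∀ i, DerReg P (E i)) →
    P.Reg (τ E)

end

end Pool.Agent.R887
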