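import Pool.Agent.R887.Defs

/-!
Definitions: the log Kodaira dimension as the dimension of the images by the rational maps given by
the multiples of `K_X + Δ`, and the numerical dimension.
-/

set_option autoImplicit false

open FF Pool.Agent.W602.GT Pool.Agent.Y172

namespace Pool.Agent.R887

section

variable {K : Type} [Field K] [Algebra ℂ K] {N : ℕ}

/-- The Kodaira dimension of `K_X + Δ`, `n` being the dimension of `X`, is at least `k`: for some
`m ≥ 1` there are `k + 1` sections of `m (K_X + Δ)` such that the quotients of the last `k` ones by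
the first one are algebraically independent, so that the image of `X` by the rational map given by
`m (K_X + Δ)` has at least dimension `k`. -/
def LogKodairaGe (y : Fin (N + 1) → K) (n : ℕ) (Δ : Place ℂ K → ℚ) (k : ℕ) : Prop :=
  ∃ m : ℕ, 1 ≤ m ∧ ∃ (ω : Fin (k + 1) → (Fin n → Derivation ℂ K K) → K)
    (E : Fin n → Derivation ℂ K K), (∀ i, IsSection y n m (m • Δ) (ω i)) ∧ ω 0 E ≠ 0 ∧
      AlgebraicIndependent ℂ (fun i : Fin k => ω i.succ E / ω 0 E)

/-- The Kodaira dimension of `K_X + Δ` is `k`. -/
def LogKodairaEq (y : Fin (N + 1) → K) (n : ℕ) (Δ : Place ℂ K → ℚ) (k : ℕ) : Prop :=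
  LogKodairaGe y n Δ k ∧ ¬ LogKodairaGe y n Δ (k + 1)

/-- The numerical dimension of `K_X + Δ` is `k`, for the numerical dimension which is defined by
means of positive intersection products. -/
def LogNumDimEq (y : Fin (N + 1) → K) (n : ℕ) (Δ : Place ℂ K → ℚ) (k : ℕ) : Prop :=
  NumDimLt y n Δ (k + 1) ∧ ¬ NumDimLt y n Δ k

end

end Pool.Agent.R887
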