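import Pool.Agent.R887.DefsCor

/-!
Definition: the general log ramification condition for multi-valued maps of pairs.
-/

set_option autoImplicit false

open FF Pool.Agent.W602.GT Pool.Agent.Y172

namespace Pool.Agent.R887

section

variable {K K' L : Type} [Field K] [Algebra ℂ K] [Field K'] [Algebra ℂ K'] [Field L] [Algebra ℂ L]
  {N N' : ℕ}

/-- Let `p : X'' → X'` and `f : X'' → X` be the maps given by the homomorphisms `ψ` and `φ`. The
divisor `f^* (K_X + Δ)` is at most `p^* (K_X' + Δ')` over the prime divisors `P'` of `X'`: if `Q` is a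
prime divisor of `X''` over `P'`, with ramification index `e'`, and `P` its image, a divisor over
`X`, with ramification index `e`, then `e' (1 - Δ' P')` is at most the product of `e` and the log
discrepancy of `(X, Δ)` along `P`. (By the formula of Hurwitz, `e' (1 - Δ' P')` is the log
discrepancy along `Q` of the pull back of `K_X' + Δ'` to `X''`, and the product is the one of the
pull back of `K_X + Δ`.) -/
def LogPullBackLe (φ : K →ₐ[ℂ] L) (ψ : K' →ₐ[ℂ] L) (y : Fin (N + 1) → K) (n : ℕ)
    (Δ : Place ℂ K → ℚ) (y' : Fin (N' + 1) → K') (Δ' : Place ℂ K' → ℚ) : Prop :=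
  ∀ P' : Place ℂ K', IsPrimeDivisor y' P' → ∀ (Q : Place ℂ L) (e' : ℕ), LiesOver ψ Q P' e' →
    ∀ (P : Place ℂ K) (e : ℕ), LiesOver φ Q P e →
      ∃ α : ℚ, LogDisc y n Δ P α ∧ e' * (1 - Δ' P') ≤ e * α

end

end Pool.Agent.R887
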