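import Pool.Agent.R887.DefsTens

/-!
Definition: upper bounds for the rank one subsheaves of the tensor powers of the sheaf of
(logarithmic) differential forms.
-/

set_option autoImplicit false

open FF Pool.Agent.W602.GT Pool.Agent.Y172

namespace Pool.Agent.R887

section

variable {K : Type} [Field K] [Algebra ℂ K] {N : ℕ}

/-- Let `X` be a normal projective variety with generic point `y`, `Bd` a set of prime divisors of
`X` and `σ ≠ 0` a rational section of the `r`-th tensor power of the sheaf of differential forms.
Let `L` be the saturated rank one subsheaf of `Ω¹(log Bd)^(⊗ r)` generated by `σ`; at the prime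
divisor `P` it is generated by `g σ`, if `P.ord g` is `-o`, where `o` is the smallest order of the
functions `σ E` for vector fields `E` which are regular at `P`, and logarithmic if `P` is in `Bd`.
The condition says that `t H - L` is effective up to linear equivalence and multiples, `H` being the
hyperplane section `y i = 0`: for some `m ≥ 1` and `b ≤ t m` there is a rational function `k ≠ 0`
with `m o ≤ ord k + b ord (y i / y l)` at all prime divisors `P` of `X`, if the centre of `P` is in
the chart `y l ≠ 0`. -/
def TensorLe (y : Fin (N + 1) → K) (Bd : Set (Place ℂ K)) {r : ℕ} (σ : Tensor K r) (t : ℝ) :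
    Prop :=
  ∀ i, y i ≠ 0 → ∃ m b : ℕ, 1 ≤ m ∧ (b : ℝ) ≤ t * m ∧ ∃ k : K, k ≠ 0 ∧
    ∀ P l, IsPrimeDivisor y P → Centred y l P → ∃ E : Fin r → Derivation ℂ K K,
      (∀ j, DerReg P (E j)) ∧ (P ∈ Bd → ∀ j, DerLog P (E j)) ∧ σ E ≠ 0 ∧
      m * P.ord (σ E) ≤ P.ord k + b * P.ord (y i / y l)

/-- The condition on the prime divisors for finite multi-valued maps `X' ← X'' → X` of varieties with
boundaries `Bd'`, `Bd` (sets of prime divisors), given by the homomorphisms `ψ` and `φ` of the
function fields: every prime divisor `Q` over `X''` which lies over a prime divisor `P` of `X` lies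
over a prime divisor `P'` of `X'`, and if `P'` is not in `Bd'`, then `P` is not in `Bd` and `Q` is
unramified over `P'`. -/
def FiniteEtale {K' L : Type} [Field K'] [Algebra ℂ K'] [Field L] [Algebra ℂ L] {N' : ℕ}
    (φ : K →ₐ[ℂ] L) (ψ : K' →ₐ[ℂ] L) (y : Fin (N + 1) → K) (Bd : Set (Place ℂ K))
    (y' : Fin (N' + 1) → K') (Bd' : Set (Place ℂ K')) : Prop :=
  ∀ P : Place ℂ K, IsPrimeDivisor y P → ∀ (Q : Place ℂ L) (e : ℕ), LiesOver φ Q P e →
    ∀ (P' : Place ℂ K') (e' : ℕ), LiesOver ψ Q P' e' →
      IsPrimeDivisor y' P' ∧ (P' ∉ Bd' → P ∉ Bd ∧ e' = 1)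

end

end Pool.Agent.R887
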