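import Pool.Agent.R887.Defs

/-!
Definitions: rank one subsheaves of the tensor powers of the sheaf of (logarithmic) differential
forms, their Kodaira dimension, and special varieties.
-/

set_option autoImplicit false

open FF Pool.Agent.W602.GT Pool.Agent.Y172

namespace Pool.Agent.R887

section

variable {K : Type} [Field K] [Algebra ℂ K]

/-- A rational section of the `r`-th tensor power of the cotangent bundle of the models of `K`: a
`K`-multilinear function of `r` rational vector fields. -/
abbrev Tensor (K : Type) [Field K] [Algebra ℂ K] (r : ℕ) : Type :=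
  MultilinearMap K (fun _ : Fin r => Derivation ℂ K K) K

/-- `n` is the dimension, and `Bd` the set of the places without centre on the (smooth, open)
variety `U` with function field `K`; `Bd` is empty if `U` is projective. Let `L` be the saturated
subsheaf of rank one of `Ω¹(log)^(⊗ r)`, on a smooth compactification of `U` with normal crossing
boundary, generated by the rational section `σ`. The rational function `g` is a section of `L^(⊗ m)`
in `Ω¹(log)^(⊗ r m)`, if `g σ ^ m` is regular at all prime divisors `P` over the compactification,
that is, on the vector fields which are logarithmic at `P`, and also on those which are regular at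
`P` if the centre of `P` is in `U`. -/
def IsTensorSection (n : ℕ) (Bd : Set (Place ℂ K)) {r : ℕ} (σ : Tensor K r) (m : ℕ) (g : K) :
    Prop :=
  (∀ P : Place ℂ K, Divisorial n P → ∀ E : Fin r → Derivation ℂ K K, (∀ i, DerLog P (E i)) →
    P.Reg (g * σ E ^ m)) ∧
  ∀ P : Place ℂ K, Divisorial n P → P ∉ Bd → ∀ E : Fin r → Derivation ℂ K K,
    (∀ i, DerReg P (E i)) → P.Reg (g * σ E ^ m)

/-- The Kodaira dimension of the rank one subsheaf `L` of `Ω¹(log)^(⊗ r)` generated by `σ` is at
least `k`: for some `m ≥ 1` there are `k + 1` sections of `L^(⊗ m)` such that the quotients of the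
last `k` ones by the first one are algebraically independent. -/
def TensorKodairaGe (n : ℕ) (Bd : Set (Place ℂ K)) {r : ℕ} (σ : Tensor K r) (k : ℕ) : Prop :=
  ∃ m : ℕ, 1 ≤ m ∧ ∃ g : Fin (k + 1) → K, (∀ i, IsTensorSection n Bd σ m (g i)) ∧ g 0 ≠ 0 ∧
    AlgebraicIndependent ℂ (fun i : Fin k => g i.succ / g 0)

/-- The smooth variety of dimension `n` with function field `K` and with the set `Bd` of places
without centre on it is special in the sense of Campana: for all `p ≥ 1` the rank one subsheaves of
`Ωᵖ(log)`, generated by rational `p`-forms `σ ≠ 0`, have Kodaira dimension less than `p`. -/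
def Special (n : ℕ) (Bd : Set (Place ℂ K)) : Prop :=
  ∀ p : ℕ, 1 ≤ p → ∀ σ : Tensor K p, σ ≠ 0 → (∀ (E : Fin p → Derivation ℂ K K) (i j : Fin p),
    E i = E j → i ≠ j → σ E = 0) → ¬ TensorKodairaGe n Bd σ p

end

end Pool.Agent.R887
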