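import Pool.Agent.R887.DefsCor

/-!
Definitions: the log ramification condition for finite multi-valued maps, and numerically trivial
`ℝ`-divisors `K_X + Δ`.
-/

set_option autoImplicit false

open FF Pool.Agent.W602.GT Pool.Agent.Y172

namespace Pool.Agent.R887

section

variable {K K' L : Type} [Field K] [Algebra ℂ K] [Field K'] [Algebra ℂ K'] [Field L] [Algebra ℂ L]
  {N N' : ℕ}

/-- Let `p : X'' → X'` and `f : X'' → X` be the maps given by the homomorphisms `ψ` and `φ` of the
function fields. Every prime divisor `Q` over `X''` which lies over a prime divisor `P` of `X`, with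
ramification index `e`, lies over a prime divisor `P'` of `X'` (this holds if `p` and `f` are finite
morphisms), with ramification index `e'`, and `e' (1 - Δ' P') ≤ e (1 - Δ P)`. (By the formula of
Hurwitz the inequality says that `f^* (K_X + Δ)` is at most `p^* (K_X' + Δ')`.) -/
def FiniteLogPullBackLe (φ : K →ₐ[ℂ] L) (ψ : K' →ₐ[ℂ] L) (y : Fin (N + 1) → K)
    (Δ : Place ℂ K → ℝ) (y' : Fin (N' + 1) → K') (Δ' : Place ℂ K' → ℝ) : Prop :=
  ∀ P : Place ℂ K, IsPrimeDivisor y P → ∀ (Q : Place ℂ L) (e : ℕ), LiesOver φ Q P e →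
    ∀ (P' : Place ℂ K') (e' : ℕ), LiesOver ψ Q P' e' →
      IsPrimeDivisor y' P' ∧ e' * (1 - Δ' P') ≤ e * (1 - Δ P)

/-- The `ℝ`-divisor `K_X + Δ` on `X`, a variety of dimension `n`, is pseudo-effective: if `H` is a
hyperplane section `y i = 0`, then for all `ε > 0` the divisor `m (K_X + Δ) + b H` is linearly
equivalent to an effective divisor for some `m ≥ 1` and `b ≤ ε m`. This means that there is an
`m`-canonical form `η` such that its order along a prime divisor `P` of `X` is at least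
`- m Δ P - b ord (y i / y l)`, if the centre of `P` is in the chart `y l ≠ 0`. -/
def PseudoEffectiveR (y : Fin (N + 1) → K) (n : ℕ) (Δ : Place ℂ K → ℝ) : Prop :=
  ∀ i, y i ≠ 0 → ∀ ε : ℝ, 0 < ε → ∃ m b : ℕ, 1 ≤ m ∧ (b : ℝ) ≤ ε * m ∧
    ∃ η : (Fin n → Derivation ℂ K K) → K, IsPluri m η ∧ ∀ P l, IsPrimeDivisor y P →
      Centred y l P → ∃ z : ℚ, OrdEq P η z ∧ -(m * Δ P) - b * P.ord (y i / y l) ≤ z

/-- The `ℝ`-divisor `-(K_X + Δ)` on `X`, a variety of dimension `n`, is pseudo-effective: if `H` is a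
hyperplane section `y i = 0`, then for all `ε > 0` the divisor `b H - m (K_X + Δ)` is linearly
equivalent to an effective divisor for some `m ≥ 1` and `b ≤ ε m`. This means that there is an
`m`-canonical form `η` such that its order along a prime divisor `P` of `X` is at most
`- m Δ P + b ord (y i / y l)`, if the centre of `P` is in the chart `y l ≠ 0`. -/
def AntiPseudoEffectiveR (y : Fin (N + 1) → K) (n : ℕ) (Δ : Place ℂ K → ℝ) : Prop :=
  ∀ i, y i ≠ 0 → ∀ ε : ℝ, 0 < ε → ∃ m b : ℕ, 1 ≤ m ∧ (b : ℝ) ≤ ε * m ∧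
    ∃ η : (Fin n → Derivation ℂ K K) → K, IsPluri m η ∧ ∀ P l, IsPrimeDivisor y P →
      Centred y l P → ∃ z : ℚ, OrdEq P η z ∧ z ≤ -(m * Δ P) + b * P.ord (y i / y l)

/-- The `ℝ`-divisor `K_X + Δ` is numerically trivial: it and its negative are pseudo-effective. -/
def NumTrivialR (y : Fin (N + 1) → K) (n : ℕ) (Δ : Place ℂ K → ℝ) : Prop :=
  PseudoEffectiveR y n Δ ∧ AntiPseudoEffectiveR y n Δ

end

end Pool.Agent.R887
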