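import Pool.Agent.R887.DefsThr

/-!
Definitions: the pseudo-effective threshold of the canonical divisor, and crepant multi-valued maps.
-/

set_option autoImplicit false

open FF Pool.Agent.W602.GT Pool.Agent.Y172

namespace Pool.Agent.R887

section

variable {K K' L : Type} [Field K] [Algebra ℂ K] [Field K'] [Algebra ℂ K'] [Field L] [Algebra ℂ L]
  {N N' : ℕ}

/-- The `ℝ`-divisor `τ H + (K_X + Δ)` on `X`, a variety of dimension `n`, is pseudo-effective, where
`H` is a hyperplane section `y i = 0`: for all `ε > 0` the divisor `b H + m (K_X + Δ)` is linearly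
equivalent to an effective divisor for some `m ≥ 1` and `b ≤ (τ + ε) m`. This means that there is an
`m`-canonical form `η` such that its order along a prime divisor `P` of `X` is at least
`- m Δ P - b ord (y i / y l)`, if the centre of `P` is in the chart `y l ≠ 0`. -/
def LowerThresholdLe (y : Fin (N + 1) → K) (n : ℕ) (Δ : Place ℂ K → ℝ) (τ : ℝ) : Prop :=
  ∀ i, y i ≠ 0 → ∀ ε : ℝ, 0 < ε → ∃ m b : ℕ, 1 ≤ m ∧ (b : ℝ) ≤ (τ + ε) * m ∧
    ∃ η : (Fin n → Derivation ℂ K K) → K, IsPluri m η ∧ ∀ P l, IsPrimeDivisor y P →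
      Centred y l P → ∃ z : ℚ, OrdEq P η z ∧ -(m * Δ P) - b * P.ord (y i / y l) ≤ z

/-- Let `p : X'' → X'` and `f : X'' → X` be the maps given by the homomorphisms `ψ` and `φ` of the
function fields. If a prime divisor `Q` over `X''` lies over a prime divisor `P` of `X`, with
ramification index `e`, and over a divisor `P'` over `X'`, with ramification index `e'`, then
`e' (1 - Δ' P') = e (1 - Δ P)`: the divisors `f^* (K_X + Δ)` and `p^* (K_X' + Δ')` are equal at
these prime divisors, by the formula of Hurwitz. -/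
def CrepantOver (φ : K →ₐ[ℂ] L) (ψ : K' →ₐ[ℂ] L) (y : Fin (N + 1) → K)
    (Δ : Place ℂ K → ℝ) (Δ' : Place ℂ K' → ℝ) : Prop :=
  ∀ P : Place ℂ K, IsPrimeDivisor y P → ∀ (Q : Place ℂ L) (e : ℕ), LiesOver φ Q P e →
    ∀ (P' : Place ℂ K') (e' : ℕ), LiesOver ψ Q P' e' → e' * (1 - Δ' P') = e * (1 - Δ P)

end

end Pool.Agent.R887
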