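import Pool.Agent.Y172.UpB
import Pool.Agent.R887.Defs

/-!
The order of the sections of `m (K_X + Δ) + b A` at the places over a variety.
-/

set_option autoImplicit false
set_option linter.overlappingInstances false
set_option linter.unusedSectionVars false

open FF MvPolynomial Pool.Agent.W602.GT Pool.Agent.W603.LV Pool.Agent.W619.PQ
open Pool.Agent.Y172

namespace Pool.Agent.R887

section

variable {K : Type} [Field K] [Algebra ℂ K] {n N : ℕ} {y : Fin (N + 1) → K}

/-- a tuple on which a form does not vanish is a frame -/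
theorem frame_of_ne {D E : Fin n → Derivation ℂ K K} (hD : IsFrame D) {m : ℕ} (hm : 1 ≤ m)
    {ω : (Fin n → Derivation ℂ K K) → K} (hω : IsPluri m ω) (hE : ω E ≠ 0) : IsFrame E := by
  choose C hC using fun i => hD (E i)
  have e1 : E = fun i => ∑ j, Matrix.of C i j • D j := funext hC
  have h1 : ω E = (Matrix.of C).det ^ m * ω D := by
    conv_lhs => rw [e1]
    exact hω _ _
  have hdet : (Matrix.of C).det ≠ 0 := by
    intro h0
    rw [h1, h0, zero_pow (by omega), zero_mul] at hE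
    exact hE rfl
  have hinv : (Matrix.of C)⁻¹ * Matrix.of C = 1 :=
    Matrix.nonsing_inv_mul _ (isUnit_iff_ne_zero.2 hdet)
  intro G
  obtain ⟨a, ha⟩ := hD G
  refine ⟨fun i => ∑ l, a l * (Matrix.of C)⁻¹ l i, ?_⟩
  have h2 : ∀ l, D l = ∑ i, (Matrix.of C)⁻¹ l i • E i := by
    intro l
    have h3 : ∀ i, E i = ∑ j, Matrix.of C i j • D j := fun i => hC i
    simp only [h3, Finset.smul_sum, smul_smul]
    rw [Finset.sum_comm]
    have h4 : ∀ j, ∑ i, ((Matrix.of C)⁻¹ l i * Matrix.of C i j) • D j =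
        (if l = j then (1 : K) else 0) • D j := by
      intro j
      rw [← Finset.sum_smul]
      congr 1
      have h5 := congrFun (congrFun hinv l) j
      rw [Matrix.mul_apply, Matrix.one_apply] at h5
      exact h5
    simp only [h4]
    simp
  rw [ha]
  conv_lhs =>
    enter [2, l]
    rw [h2 l, Finset.smul_sum]
  rw [Finset.sum_comm]
  refine Finset.sum_congr rfl fun i _ => ?_
  rw [Finset.sum_smul]
  exact Finset.sum_congr rfl fun l _ => smul_smul _ _ _

/-- **The order of a section at a place over a variety.** -/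
theorem disc_bound2 (hy : NormalModel y) {Δ A : Place ℂ K → ℚ} (hA : Effective y A)
    {D : Fin n → Derivation ℂ K K} (hD : IsFrame D) (j : Fin (N + 1)) :
    ∃ s ∈ chart y j, s ≠ 0 ∧ ∀ Q : Place ℂ K, Centred y j Q → ∀ α : ℚ,
      LogDisc y n Δ Q α → ∀ m b : ℕ, 1 ≤ m →
      ∀ ω, IsSection y n m (m • Δ + b • A) ω →
        OrdGe Q ω (m * (α - 1) - b * (Q.ord s : ℤ)) := by
  classical
  obtain ⟨s, hs, hs0, hsP⟩ := exists_high (y := y) (j := j)
    (S := {P | IsPrimeDivisor y P ∧ Centred y j P ∧ A P ≠ 0})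
    (hA.2.subset (by
      rintro P ⟨h1, -, h2⟩
      exact ⟨h1, h2⟩)) (fun P hP => hP.2.1) (fun P hP => hP.1) (fun P => ⌈A P⌉₊)
  have hsA : ∀ P, IsPrimeDivisor y P → Centred y j P → A P ≤ (P.ord s : ℚ) := by
    intro P hP hPc
    by_cases hAP : A P = 0
    · rw [hAP]
      have := (P.reg_iff hs0).1 (hPc.reg s hs)
      exact_mod_cast this
    · have h6 := hsP P ⟨hP, hPc, hAP⟩
      have h7 : A P ≤ (⌈A P⌉₊ : ℚ) := Nat.le_ceil _
      exact h7.trans (by exact_mod_cast h6)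
  refine ⟨s, hs, hs0, fun Q hj α hα m b hm ω hω E' hE' => ?_⟩
  have hm' : (0 : ℚ) < m := by exact_mod_cast hm
  have hb' : (0 : ℚ) ≤ b := Nat.cast_nonneg b
  rcases hα with ⟨hQ, hα⟩ | ⟨r, hr, η, hη, hηP, hηQ⟩
  · refine (hω.2 Q hQ E' hE').imp_right fun h1 => le_trans ?_ h1
    have h2 := mul_le_mul_of_nonneg_left (hsA Q hQ hj) hb'
    rw [Pi.add_apply, Pi.smul_apply, Pi.smul_apply, nsmul_eq_mul, nsmul_eq_mul]
    nlinarith
  by_cases hωD : ω E' = 0
  · exact Or.inl hωD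
  right
  have hfr := frame_of_ne hD hm hω.1 hωD
  have hηD : η E' ≠ 0 := by
    intro h
    obtain ⟨P, hP, hPQ⟩ := exists_through hy Q
    obtain ⟨-, E, -, hE0, -⟩ := hηP P hP hPQ
    have h1 := pluri_zero hfr hη h
    rw [h1] at hE0
    exact hE0 rfl
  have hηo : (r : ℚ) * (α - 1) ≤ Q.ord (η E') := (hηQ E' hE').resolve_left hηD
  obtain ⟨F, hF⟩ : ∃ F, F = ω E' ^ r * s ^ (b * r) / η E' ^ m := ⟨_, rfl⟩
  have h1 : ω E' ^ r ≠ 0 := pow_ne_zero _ hωD
  have h2 : s ^ (b * r) ≠ 0 := pow_ne_zero _ hs0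
  have h3 : η E' ^ m ≠ 0 := pow_ne_zero _ hηD
  have hF0 : F ≠ 0 := by
    rw [hF]
    exact div_ne_zero (mul_ne_zero h1 h2) h3
  have hr' : (0 : ℚ) < r := by exact_mod_cast hr
  have hFreg : F ∈ localRing y Q := by
    refine mem_localRing_of_reg hy fun P hP hPQ => ?_
    have hPc := hPQ.centred hj
    obtain ⟨-, E, hE, hE0, hEo⟩ := hηP P hP hPQ
    choose C hC using fun i => hfr (E i)
    have e1 : E = fun i => ∑ j, Matrix.of C i j • E' j := funext hC
    have hE1 : η E = (Matrix.of C).det ^ r * η E' := by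
      conv_lhs => rw [e1]
      exact hη _ _
    have hE2 : ω E = (Matrix.of C).det ^ m * ω E' := by
      conv_lhs => rw [e1]
      exact hω.1 _ _
    obtain ⟨c, hc⟩ : ∃ c, c = (Matrix.of C).det := ⟨_, rfl⟩
    rw [← hc] at hE1 hE2
    have hc0 : c ≠ 0 := by
      rintro rfl
      rw [zero_pow hr.ne', zero_mul] at hE1
      exact hE0 hE1
    have hωE : ω E ≠ 0 := by
      rw [hE2]
      exact mul_ne_zero (pow_ne_zero _ hc0) hωD
    have hF' : F = ω E ^ r * s ^ (b * r) / η E ^ m := by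
      rw [hF, hE1, hE2, mul_pow, mul_pow, ← pow_mul, ← pow_mul, mul_comm r m]
      have h4 : c ^ (m * r) ≠ 0 := pow_ne_zero _ hc0
      field_simp
    have h4 : -(m * Δ P + b * A P) ≤ (P.ord (ω E) : ℚ) := by
      have := (hω.2 P hP E hE).resolve_left hωE
      rwa [Pi.add_apply, Pi.smul_apply, Pi.smul_apply, nsmul_eq_mul, nsmul_eq_mul] at this
    have h5 := mul_le_mul_of_nonneg_left (hsA P hP hPc) hb'
    rw [P.reg_iff hF0, hF', P.ord_div (mul_ne_zero (pow_ne_zero _ hωE) h2) (pow_ne_zero _ hE0),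
      P.ord_mul (pow_ne_zero _ hωE) h2, P.ord_pow, P.ord_pow, P.ord_pow]
    have h6 : (0 : ℚ) ≤ (r * P.ord (ω E) + (b * r : ℕ) * P.ord s - m * P.ord (η E) : ℚ) := by
      rw [hEo]
      push_cast
      nlinarith
    exact_mod_cast h6
  have h4 := (Q.reg_iff hF0).1 (localRing_reg hFreg)
  rw [hF, Q.ord_div (mul_ne_zero h1 h2) h3, Q.ord_mul h1 h2, Q.ord_pow, Q.ord_pow,
    Q.ord_pow] at h4
  have h4' : (0 : ℚ) ≤ r * Q.ord (ω E') + (b * r : ℕ) * Q.ord s - m * Q.ord (η E') := by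
    exact_mod_cast h4
  push_cast at h4'
  have h6 := mul_le_mul_of_nonneg_left hηo hm'.le
  have h5 : (r : ℚ) * (m * (α - 1)) ≤ r * (Q.ord (ω E') + b * Q.ord s) := by
    nlinarith
  have h7 := le_of_mul_le_mul_left h5 hr'
  linarith

/-- the log discrepancies of a log canonical pair are nonnegative -/
theorem lc_disc {Δ : Place ℂ K → ℚ} (h : LogCanonical y n Δ) {Q : Place ℂ K}
    (hQ : Divisorial n Q) : LogDisc y n Δ Q 0 := by
  obtain ⟨r, hr, η, hη, hηP, hηQ⟩ := h Q hQ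
  refine Or.inr ⟨r, hr, η, hη, hηP, ?_⟩
  rwa [zero_sub, mul_neg, mul_one]

end

end Pool.Agent.R887
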