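import Pool.Agent.R887.PsF
import Pool.Agent.R887.DefsDiv

/-!
Sections of divisors and multi-valued maps: the degrees of the maps given by the sections.
-/

set_option autoImplicit false
set_option linter.overlappingInstances false
set_option linter.unusedSectionVars false

open FF Module MvPolynomial Pool.Agent.W602.GT Pool.Agent.W603.LV Pool.Agent.W619.PQ
open Pool.Agent.Y172 Pool.Agent.Y191

namespace Pool.Agent.R887

section

variable {K : Type} [Field K] [Algebra ℂ K] {N n : ℕ} {y : Fin (N + 1) → K}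

/-- functions which dominate an effective divisor on the charts -/
theorem exists_local_dom (hy : NormalModel y) {A : Place ℂ K → ℚ} (hA : Effective y A) :
    ∃ a : Fin (N + 1) → K, (∀ l, a l ≠ 0) ∧ ∀ l, ∀ P, IsPrimeDivisor y P → Centred y l P →
      A P ≤ P.ord (a l) := by
  classical
  have h1 : ∀ l, ∃ a : K, a ≠ 0 ∧ ∀ P, IsPrimeDivisor y P → Centred y l P → A P ≤ P.ord a := by
    intro l
    by_cases hl : y l = 0
    · exact ⟨1, one_ne_zero, fun P _ h => absurd hl h.1⟩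
    · obtain ⟨G, hG, hGP⟩ := exists_hyp hy hl
      obtain ⟨f, s, hf0, hf⟩ := dominate hy hA hl hG hGP
      refine ⟨f, hf0, fun P hP hl' => ?_⟩
      have h2 := hf P hP
      rw [hGP P l hP hl', div_self hl, P.ord_one, Int.cast_zero, mul_zero, add_zero] at h2
      exact h2
  choose a ha0 ha using h1
  exact ⟨a, ha0, ha⟩

/-- sections of `ℚ`-Cartier divisors at the divisors over `X` -/
theorem section_ord (hy : NormalModel y) {D A : Place ℂ K → ℚ} {s : ℕ} (hs : 1 ≤ s)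
    {v : Place ℂ K} {t : K} (ht0 : t ≠ 0)
    (ht : ∀ P, IsPrimeDivisor y P → Through y P v → (P.ord t : ℚ) = s * D P)
    (htv : (v.ord t : ℚ) = s * D v) {a : Fin (N + 1) → K} (ha0 : ∀ l, a l ≠ 0)
    (ha : ∀ l, ∀ P, IsPrimeDivisor y P → Centred y l P → A P ≤ P.ord (a l)) {l : Fin (N + 1)}
    (hl : Centred y l v) {m b : ℕ} {g : K} (hg : IsFunctionSection y (m • D + b • A) g)
    (hg0 : g ≠ 0) : -(m * D v : ℚ) - b * v.ord (a l) ≤ v.ord g := by
  have hs0 : (0 : ℚ) < s := by exact_mod_cast hs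
  obtain ⟨z, hz⟩ : ∃ z, z = g ^ s * t ^ m * a l ^ (b * s) := ⟨_, rfl⟩
  have hz0 : z ≠ 0 := by
    rw [hz]
    exact mul_ne_zero (mul_ne_zero (pow_ne_zero _ hg0) (pow_ne_zero _ ht0))
      (pow_ne_zero _ (ha0 l))
  have hord : ∀ P : Place ℂ K, (P.ord z : ℚ) = s * P.ord g + m * P.ord t + b * s * P.ord (a l) := by
    intro P
    rw [hz, P.ord_mul (mul_ne_zero (pow_ne_zero _ hg0) (pow_ne_zero _ ht0))
      (pow_ne_zero _ (ha0 l)), P.ord_mul (pow_ne_zero _ hg0) (pow_ne_zero _ ht0), P.ord_pow,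
      P.ord_pow, P.ord_pow]
    push_cast
    ring
  have h1 : v.Reg z := localRing_reg (mem_localRing_of_reg hy fun P hP hth => Or.inr (by
    have h2 : (0 : ℚ) ≤ P.ord z := by
      rw [hord, ht P hP hth]
      have h3 := (hg.resolve_left hg0) P hP
      rw [Pi.add_apply, Pi.smul_apply, Pi.smul_apply, nsmul_eq_mul, nsmul_eq_mul] at h3
      have h4 := ha l P hP (hth.centred hl)
      have h5 := mul_le_mul_of_nonneg_left h3 hs0.le
      have h6 := mul_le_mul_of_nonneg_left h4 (show (0 : ℚ) ≤ b * s by positivity)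
      linarith
    exact_mod_cast h2))
  have h2 := (v.reg_iff hz0).1 h1
  have h3 : (0 : ℚ) ≤ v.ord z := by exact_mod_cast h2
  rw [hord, htv] at h3
  have h4 : (0 : ℚ) ≤ s * (v.ord g - (-(m * D v : ℚ) - b * v.ord (a l))) := by linarith
  have h5 := nonneg_of_mul_nonneg_right h4 hs0
  linarith

end

section

variable {K K' L : Type} [Field K] [Algebra ℂ K] [Field K'] [Algebra ℂ K'] [Field L] [Algebra ℂ L]
  [Algebra K L] [IsScalarTower ℂ K L] [FiniteDimensional K L] [Algebra K' L]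
  [IsScalarTower ℂ K' L] [FiniteDimensional K' L] {N N' : ℕ} {y : Fin (N + 1) → K}
  {y' : Fin (N' + 1) → K'} {n : ℕ}

/-- **The degrees of the maps given by functions.** -/
theorem deg_stepF (hn : Algebra.trdeg ℂ K = n) (hnL : Algebra.trdeg ℂ L = n)
    (φ : K →ₐ[ℂ] L) (ψ : K' →ₐ[ℂ] L)
    (hφ : ∀ f, φ f = algebraMap K L f) (hψ : ∀ f, ψ f = algebraMap K' L f)
    (hdeg : mapDegree φ = Module.finrank K L)
    {i : Fin (N' + 1)} (hi : y' i ≠ 0)
    {j : ℕ} (hj : j ≤ n) {c : ℝ} (hc0 : 0 ≤ c) (hφ2 : MultiDegreeLe φ ψ y y' (n - j) j c)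
    {s B : ℕ} (hs : 1 ≤ s) {g : Fin (j + 1) → K} {F : Fin (j + 1) → L}
    (hF1 : ∀ k, g k ≠ 0 → F k ≠ 0 ∧ Bnd ℂ (affL L y' i) B (F k))
    (hF2 : ∀ k, g k ≠ 0 → F k / F 0 = algebraMap K L (g k / g 0) ^ s)
    (hg0 : g 0 ≠ 0) {u : Fin (n - j) → K} (hu : ∀ a, IsPencil y (u a)) :
    (s : ℝ) ^ j * (degreeOver u (fun i : Fin j => g i.succ / g 0) : ℝ) ≤ c * B ^ j := by
  classical
  have hdeg0 : (0 : ℝ) < Module.finrank K L := by
    exact_mod_cast Module.finrank_pos
  have hs0 : (0 : ℝ) < s := by exact_mod_cast hs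
  obtain ⟨w, hw⟩ : ∃ w : Fin j → K, w = fun i => g i.succ / g 0 := ⟨_, rfl⟩
  rw [← hw, degreeOver_eq]
  by_cases h0 : dg ℂ (Sum.elim u w) = 0
  · rw [h0]
    push_cast
    rw [mul_zero]
    positivity
  have hcard : Nat.card (Fin (n - j) ⊕ Fin j) = n := by
    rw [Nat.card_eq_fintype_card, Fintype.card_sum, Fintype.card_fin, Fintype.card_fin]
    omega
  have hbas := basis_of_dg (k := ℂ) (w := Sum.elim u w) (by rw [hn, hcard]) h0
  -- the sections are not zero
  have hgne : ∀ i, g i ≠ 0 := by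
    intro i
    refine Fin.cases hg0 (fun i => ?_) i
    intro h2
    have h4 := hbas.1.ne_zero (Sum.inr i)
    rw [Sum.elim_inr, hw] at h4
    simp only [] at h4
    rw [h2, zero_div] at h4
    exact h4 rfl
  -- replace the sections by pencils
  obtain ⟨w', hw'⟩ : ∃ w' : Fin (n - j) ⊕ Fin j → K, w' = fun i =>
      if i ∈ Finset.univ.image (Sum.inr : Fin j → Fin (n - j) ⊕ Fin j) then
        Sum.elim u w i ^ s else Sum.elim u w i := ⟨_, rfl⟩
  have hpow := dg_pow_all (k := ℂ) (by rw [hn, hcard]) (Sum.elim u w)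
    (Finset.univ.image Sum.inr) (q := s) hs h0
  rw [Finset.card_image_of_injective _ Sum.inr_injective, Finset.card_univ, Fintype.card_fin,
    ← hw'] at hpow
  have hw'r : ∀ i, w' (Sum.inr i) = w i ^ s := by
    intro i
    rw [hw']
    simp
  have hw'l : ∀ i, w' (Sum.inl i) = u i := by
    intro i
    rw [hw']
    simp
  have hwE : ∀ i : Fin j, algebraMap K L (w' (Sum.inr i)) = F i.succ / F 0 := by
    intro i
    rw [hF2 _ (hgne i.succ), hw'r, hw, map_pow]
  obtain ⟨v, hv1, hv2, hv3⟩ := replace_all (k := ℂ) (K := L) (ι := Fin (n - j) ⊕ Fin j)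
    (by rw [hnL, hcard]) (S := affL L y' i) (Set.finite_range _)
    ⟨i, by simp only []; rw [div_self hi, map_one]⟩ (B := B)
    (f₀ := F 0) (hF1 _ hg0).1 (hF1 _ hg0).2
    (Finset.univ.image Sum.inr) (fun i => algebraMap K L (w' i))
    (Sum.elim (fun _ => 1) fun i => F i.succ) (by
      intro i hi
      obtain ⟨a, -, rfl⟩ := Finset.mem_image.1 hi
      exact (hF1 _ (hgne _)).1) (by
      intro i hi
      obtain ⟨a, -, rfl⟩ := Finset.mem_image.1 hi
      exact (hF1 _ (hgne _)).2) (by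
      intro i hi
      obtain ⟨a, -, rfl⟩ := Finset.mem_image.1 hi
      exact hwE a)
  choose v' hv'1 hv'2 using fun k => pencil_of_span2 (y' := y') ψ (fun f => (hψ f).symm) hi
    (hv1 (Sum.inr k) (Finset.mem_image_of_mem _ (Finset.mem_univ k)))
  have h1 : dg ℂ v = degreeOver (fun a => φ (u a)) (fun i => ψ (v' i)) := by
    rw [degreeOver_eq]
    congr 1
    funext k
    rcases k with k | k
    · rw [hv2 (Sum.inl k) (by simp), hw'l]
      exact (hφ _).symm
    · exact hv'2 k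
  have h2 := hφ2 u hu v' hv'1
  rw [← h1, hdeg] at h2
  rw [dg_tower, Finset.card_image_of_injective _ Sum.inr_injective, Finset.card_univ,
    Fintype.card_fin, hpow] at hv3
  have h3 : ((s : ℝ) ^ j * dg ℂ (Sum.elim u w)) * Module.finrank K L ≤ (B : ℝ) ^ j * dg ℂ v := by
    exact_mod_cast hv3
  have h6 : ((s : ℝ) ^ j * dg ℂ (Sum.elim u w)) * Module.finrank K L ≤
      (c * B ^ j) * Module.finrank K L := by
    calc ((s : ℝ) ^ j * dg ℂ (Sum.elim u w)) * Module.finrank K L ≤ (B : ℝ) ^ j * dg ℂ v := h3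
      _ ≤ (B : ℝ) ^ j * (c * Module.finrank K L) :=
        mul_le_mul_of_nonneg_left h2 (by positivity)
      _ = (c * B ^ j) * Module.finrank K L := by ring
  exact le_of_mul_le_mul_right h6 hdeg0

/-- **The degree inequality for divisors**, in terms of algebras. -/
theorem divisor_aux (hy' : NormalModel y') (hn' : Algebra.trdeg ℂ K' = n)
    {D' : Place ℂ K' → ℚ} {M : ℝ} (hD' : HyperplaneGe y' D' M)
    (hy : NormalModel y) (hn : Algebra.trdeg ℂ K = n) {D : Place ℂ K → ℚ} (hD : IsQCartier y D)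
    (φ : K →ₐ[ℂ] L) (ψ : K' →ₐ[ℂ] L)
    (hφ : ∀ f, φ f = algebraMap K L f) (hψ : ∀ f, ψ f = algebraMap K' L f)
    (hdeg : mapDegree φ = Module.finrank K L) {s : ℕ} {h : L} (hs : 1 ≤ s) (hh : h ≠ 0)
    (hpull : ∀ (Q : Place ℂ L) (P' : Place ℂ K') (e' : ℕ), Over Q P' e' → IsPrimeDivisor y' P' →
      ∀ (P : Place ℂ K) (e : ℕ), Over Q P e →
        (s * (e * D P) : ℚ) ≤ s * (e' * D' P') + Q.ord h) {j : ℕ} (hj : j ≤ n) {c : ℝ}
    (hc : MultiDegreeLe φ ψ y y' (n - j) j c) : DivisorProductLe y n D j (c * M ^ j) := by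
  classical
  have hess := hy.ess
  have hess' := hy'.ess
  have hnL : Algebra.trdeg ℂ L = n := trdeg_up (K := K') hn'
  have hc0 : 0 ≤ c := multi_nonneg hy hy' hc (by
    rw [hdeg]
    exact Module.finrank_pos)
  obtain ⟨i, hi⟩ := hy'.ne
  obtain ⟨s1, hs1, hcar⟩ := hD
  intro A hA ε hε
  obtain ⟨a, ha0, ha⟩ := exists_local_dom hy hA
  obtain ⟨f, β, hf0, hfb⟩ := correct (L := L) hy' hi (fun l => algebraMap K L (a l))
    (fun l => by rw [Ne, map_eq_zero]; exact ha0 l) 1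
  have hfL : algebraMap K' L f ≠ 0 := by rwa [Ne, map_eq_zero]
  obtain ⟨δ, hδ, hδ0⟩ : ∃ δ : ℝ, c * (M + 2 * δ) ^ j < c * M ^ j + ε ∧ 0 < δ := by
    have h1 : Filter.Tendsto (fun δ : ℝ => c * ((M : ℝ) + 2 * δ) ^ j) (nhds 0)
        (nhds (c * ((M : ℝ) + 2 * 0) ^ j)) :=
      (((Filter.tendsto_id.const_mul 2).const_add _).pow j).const_mul c
    rw [mul_zero, add_zero] at h1
    have h2 : ∀ᶠ δ : ℝ in nhds 0, c * ((M : ℝ) + 2 * δ) ^ j < c * M ^ j + ε :=
      h1.eventually_lt_const (by linarith)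
    have h3 : ∀ᶠ δ : ℝ in nhdsWithin 0 (Set.Ioi 0), c * ((M : ℝ) + 2 * δ) ^ j < c * M ^ j + ε :=
      h2.filter_mono nhdsWithin_le_nhds
    have h4 : ∀ᶠ δ : ℝ in nhdsWithin (0 : ℝ) (Set.Ioi 0), 0 < δ := self_mem_nhdsWithin
    exact (h3.and h4).exists
  obtain ⟨r, d, hr, hd, q, hq0, hq⟩ := hD' i hi δ hδ0
  have hqL : algebraMap K' L q ≠ 0 := by rwa [Ne, map_eq_zero]
  have hβ1 : (0 : ℝ) < (β : ℝ) + 1 := by positivity
  have hr0 : (0 : ℝ) < r := by exact_mod_cast hr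
  have hs0 : (0 : ℝ) < s := by exact_mod_cast hs
  refine ⟨δ / (β + 1), div_pos hδ0 hβ1, 0, fun m b _ hb u hu g hg hg0 => ?_⟩
  have hm0 : (0 : ℝ) ≤ m := Nat.cast_nonneg _
  have hbβ : (b : ℝ) * β ≤ δ * m := by
    have h5 := mul_le_mul_of_nonneg_right hb hβ1.le
    have h6 : δ / ((β : ℝ) + 1) * m * (β + 1) = δ * m := by field_simp
    have h7 : (0 : ℝ) ≤ b := Nat.cast_nonneg _
    linarith
  obtain ⟨B, hB⟩ : ∃ B : ℕ, B = m * s * d + s * r * b * β := ⟨_, rfl⟩
  obtain ⟨S, hS⟩ : ∃ S : ℕ, S = s * r := ⟨_, rfl⟩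
  have hS1 : 1 ≤ S := by
    rw [hS]
    exact Nat.mul_pos hs hr
  have hS0 : (0 : ℝ) < S := by exact_mod_cast hS1
  obtain ⟨W, hW⟩ : ∃ W : L, W = h ^ (m * r) * algebraMap K' L f ^ (S * b) *
      algebraMap K' L q ^ (s * m) := ⟨_, rfl⟩
  have hW0 : W ≠ 0 := by
    rw [hW]
    exact mul_ne_zero (mul_ne_zero (pow_ne_zero _ hh) (pow_ne_zero _ hfL)) (pow_ne_zero _ hqL)
  have h9 := deg_stepF (s := S) (B := B) hn hnL φ ψ hφ hψ hdeg hi hj hc0 hc hS1
    (g := g) (F := fun k => algebraMap K L (g k) ^ S * W) (fun k hk => ?_) (fun k hk => ?_) hg0 hu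
  · -- the degrees
    have h10 : (B : ℝ) ≤ S * ((M + 2 * δ) * m) := by
      rw [hB, hS]
      push_cast
      have h11 := mul_le_mul_of_nonneg_left hd (mul_nonneg hm0 hs0.le)
      have h12 := mul_le_mul_of_nonneg_left hbβ (mul_nonneg hs0.le hr0.le)
      linarith
    have h11 : (B : ℝ) ^ j ≤ (S * ((M + 2 * δ) * m)) ^ j :=
      pow_le_pow_left₀ (Nat.cast_nonneg _) h10 j
    have h12 := mul_le_mul_of_nonneg_left h11 hc0
    have h13 := h9.trans h12
    rw [mul_pow] at h13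
    have h14 : (0 : ℝ) < (S : ℝ) ^ j := by positivity
    have h15 : (S : ℝ) ^ j *
        (degreeOver u (fun i : Fin j => g i.succ / g 0) : ℝ) ≤
        S ^ j * (c * ((M + 2 * δ) * m) ^ j) := by linarith
    have h16 := le_of_mul_le_mul_left h15 h14
    refine h16.trans ?_
    rw [mul_pow, ← mul_assoc]
    exact mul_le_mul_of_nonneg_right hδ.le (by positivity)
  · -- the bounds
    have hgk : algebraMap K L (g k) ≠ 0 := by rwa [Ne, map_eq_zero]
    have h3 : algebraMap K L (g k) ^ S * W ≠ 0 := mul_ne_zero (pow_ne_zero _ hgk) hW0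
    refine ⟨h3, bnd_of_prime hy' hi h3 fun Q P' e hov hP' l hl => ?_⟩
    have hovK := over_bel K Q
    obtain ⟨l1, hl1⟩ := exists_centred hy (bel K Q)
    obtain ⟨t, ht0, ht, htv⟩ := hcar (bel K Q)
    have h4 := section_ord hy hs1 ht0 ht htv ha0 ha hl1 (hg k) hk
    have h5 := hpull Q P' e hov hP' _ _ hovK
    have h6 := hfb Q P' e hov hP' l hl l1
    have h7 := hq P' l hP' hl
    rw [hov.2 (y' i / y' l)] at h6 ⊢
    rw [Q.ord_mul (pow_ne_zero _ hgk) hW0, hW,
      Q.ord_mul (mul_ne_zero (pow_ne_zero _ hh) (pow_ne_zero _ hfL)) (pow_ne_zero _ hqL),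
      Q.ord_mul (pow_ne_zero _ hh) (pow_ne_zero _ hfL), Q.ord_pow, Q.ord_pow, Q.ord_pow, Q.ord_pow,
      hovK.2, hov.2 q]
    have hram : (0 : ℚ) < ram K Q := by exact_mod_cast hovK.1
    have he : (0 : ℚ) < e := by exact_mod_cast hov.1
    have hsq : (0 : ℚ) < s := by exact_mod_cast hs
    have hrq : (0 : ℚ) < r := by exact_mod_cast hr
    have hmq : (0 : ℚ) ≤ m := Nat.cast_nonneg _
    have hbq : (0 : ℚ) ≤ b := Nat.cast_nonneg _
    have h6' : ((ram K Q : ℚ) * (bel K Q).ord (a l1)) ≤ Q.ord (algebraMap K' L f) +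
        β * (e * P'.ord (y' i / y' l)) := by
      have h8 := hovK.2 (a l1)
      rw [Nat.cast_one, one_mul, h8] at h6
      exact_mod_cast h6
    have h10 : (0 : ℚ) ≤ ((S * (ram K Q * (bel K Q).ord (g k)) +
        ((m * r : ℕ) * Q.ord h + (S * b : ℕ) * Q.ord (algebraMap K' L f) +
          (s * m : ℕ) * (e * P'.ord q)) + B * (e * P'.ord (y' i / y' l)) : ℤ) : ℚ) := by
      rw [hB, hS]
      push_cast
      have e1 := mul_le_mul_of_nonneg_left h4 (show (0 : ℚ) ≤ s * r * ram K Q by positivity)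
      have e2 := mul_le_mul_of_nonneg_left h5 (show (0 : ℚ) ≤ m * r by positivity)
      have e3 := mul_le_mul_of_nonneg_left h6' (show (0 : ℚ) ≤ s * r * b by positivity)
      have e4 := mul_le_mul_of_nonneg_left h7 (show (0 : ℚ) ≤ s * m * e by positivity)
      linarith
    exact_mod_cast h10
  · -- the quotients
    rw [mul_div_mul_right _ _ hW0, ← div_pow, ← map_div₀]

end

section

variable {K K' L : Type} [Field K] [Algebra ℂ K] [Field K'] [Algebra ℂ K'] [Field L] [Algebra ℂ L]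
  {N N' : ℕ} {y : Fin (N + 1) → K} {y' : Fin (N' + 1) → K'} {n : ℕ}

/-- **The degree inequality for divisors.** -/
theorem divisor_degree_le (hy' : NormalModel y') (hn' : Algebra.trdeg ℂ K' = n)
    {D' : Place ℂ K' → ℚ} {M : ℝ} (hD' : HyperplaneGe y' D' M)
    (hy : NormalModel y) (hn : Algebra.trdeg ℂ K = n) {D : Place ℂ K → ℚ} (hD : IsQCartier y D)
    (φ : K →ₐ[ℂ] L) (ψ : K' →ₐ[ℂ] L) (hψ0 : FiniteDimensional ψ.fieldRange L)
    (hpull : DivisorPullBackLe φ ψ D y' D') {j : ℕ} (hj : j ≤ n) {c : ℝ}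
    (hc : MultiDegreeLe φ ψ y y' (n - j) j c) : DivisorProductLe y n D j (c * M ^ j) := by
  have hess' := hy'.ess
  have hess := hy.ess
  let _ : Algebra K L := φ.toRingHom.toAlgebra
  let _ : Algebra K' L := ψ.toRingHom.toAlgebra
  have hst : IsScalarTower ℂ K L := IsScalarTower.of_algebraMap_eq fun c => (φ.commutes c).symm
  have hst' : IsScalarTower ℂ K' L := IsScalarTower.of_algebraMap_eq fun c => (ψ.commutes c).symm
  have hfd' : FiniteDimensional K' L := fd_of_range ψ hψ0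
  have hessL : Algebra.EssFiniteType ℂ L := by
    have h1 : Algebra.EssFiniteType K' L := inferInstance
    exact Algebra.EssFiniteType.comp ℂ K' L
  have hnL : Algebra.trdeg ℂ L = n := trdeg_up (K := K') hn'
  have hfd : FiniteDimensional K L := finite_map hn hnL
  have hdeg : mapDegree φ = Module.finrank K L := by
    unfold mapDegree
    let e : K ≃ₐ[ℂ] φ.fieldRange := AlgEquiv.ofInjectiveField φ
    refine (Algebra.finrank_eq_of_equiv_equiv e.toRingEquiv (RingEquiv.refl L) ?_).symm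
    ext x
    rfl
  obtain ⟨s, h, hs, hh, hp⟩ := hpull
  exact divisor_aux (L := L) hy' hn' hD' hy hn hD φ ψ (fun _ => rfl) (fun _ => rfl) hdeg hs hh
    (fun Q P' e' hov' hP' P e hov => hp P' hP' Q e' hov' P e hov) hj hc

end

end Pool.Agent.R887
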