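import Pool.Agent.R887.TrvG
import Pool.Agent.R887.DefsThr

/-!
The pseudo-effective thresholds of anticanonical divisors and finite multi-valued maps.
-/

set_option autoImplicit false
set_option linter.overlappingInstances false
set_option linter.unusedSectionVars false

open FF Module MvPolynomial Pool.Agent.W602.GT Pool.Agent.W603.LV Pool.Agent.W619.PQ
open Pool.Agent.Y172 Pool.Agent.Y191

namespace Pool.Agent.R887

section

variable {K : Type} [Field K] [Algebra ℂ K] {N : ℕ} {y : Fin (N + 1) → K} {n : ℕ}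

theorem val_of_ordEq {E : Fin n → Derivation ℂ K K} {κ : Place ℂ K → ℤ}
    (hκ : ∀ P, IsPrimeDivisor y P → ∀ (m : ℕ)
      (ω : (Fin n → Derivation ℂ K K) → K), IsPluri m ω → ∀ r : ℚ, OrdGe P ω r ↔
        (ω E = 0 ∨ r ≤ m * κ P + P.ord (ω E))) {P : Place ℂ K} (hP : IsPrimeDivisor y P) {m : ℕ}
    {ω : (Fin n → Derivation ℂ K K) → K} (hω : IsPluri m ω) {z : ℚ} (hz : OrdEq P ω z) :
    ω E ≠ 0 ∧ z = m * κ P + P.ord (ω E) := by
  have h0 : ω E ≠ 0 := by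
    intro h0
    obtain ⟨G, hG, hG0, hGz⟩ := hz.2
    have h1 : OrdGe P ω (z + 1) := (hκ P hP m ω hω _).2 (Or.inl h0)
    rcases h1 G hG with h2 | h2
    · exact hG0 h2
    · rw [hGz] at h2
      linarith
  refine ⟨h0, ?_⟩
  have h1 := ((hκ P hP m ω hω z).1 hz.1).resolve_left h0
  have h2 : OrdGe P ω ((m : ℚ) * κ P + P.ord (ω E)) := (hκ P hP m ω hω _).2 (Or.inr le_rfl)
  obtain ⟨G, hG, hG0, hGz⟩ := hz.2
  have h3 := (h2 G hG).resolve_left hG0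
  rw [hGz] at h3
  linarith

theorem ThresholdLe.mono {Δ : Place ℂ K → ℝ} {τ τ' : ℝ} (h : ThresholdLe y n Δ τ) (hτ : τ ≤ τ') :
    ThresholdLe y n Δ τ' := by
  intro i hi ε hε
  obtain ⟨m, b, hm, hb, η, hη⟩ := h i hi ε hε
  exact ⟨m, b, hm, hb.trans (mul_le_mul_of_nonneg_right (by linarith) (Nat.cast_nonneg _)), η, hη⟩

theorem thresholdLe_of_forall {Δ : Place ℂ K → ℝ} {τ : ℝ}
    (h : ∀ ε : ℝ, 0 < ε → ThresholdLe y n Δ (τ + ε)) : ThresholdLe y n Δ τ := by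
  intro i hi ε hε
  obtain ⟨m, b, hm, hb, η, hη⟩ := h (ε / 2) (by positivity) i hi (ε / 2) (by positivity)
  refine ⟨m, b, hm, hb.trans (le_of_eq ?_), η, hη⟩
  ring

theorem thresholdLe_zero {Δ : Place ℂ K → ℝ} (h : ThresholdLe y n Δ 0) :
    AntiPseudoEffectiveR y n Δ := by
  intro i hi ε hε
  obtain ⟨m, b, hm, hb, η, hη⟩ := h i hi ε hε
  rw [zero_add] at hb
  exact ⟨m, b, hm, hb, η, hη⟩

/-- the threshold is finite -/
theorem exists_threshold (hy : NormalModel y) (hn : Algebra.trdeg ℂ K = n)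
    {Δ : Place ℂ K → ℝ} (hΔ : {P | IsPrimeDivisor y P ∧ Δ P ≠ 0}.Finite) :
    ∃ τ : ℝ, 0 ≤ τ ∧ ThresholdLe y n Δ τ := by
  classical
  obtain ⟨x, E, hx, hE⟩ := exists_crd hn (k := ℂ) (K := K)
  obtain ⟨κ, hκfin, hκ⟩ := exists_ordc hy hn hx hE
  have hDfin : {P | IsPrimeDivisor y P ∧ (κ P : ℝ) + Δ P ≠ 0}.Finite := by
    refine (hκfin.union hΔ).subset ?_
    rintro P ⟨hP, h0⟩
    by_cases h1 : κ P = 0
    · right
      refine ⟨hP, fun h2 => h0 ?_⟩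
      rw [h1, h2, Int.cast_zero, zero_add]
    · exact Or.inl ⟨hP, h1⟩
  choose q g hq hb using fun i : {i // y i ≠ 0} => first_bound hy i.2 hDfin
  refine ⟨∑ i, (g i : ℝ), Finset.sum_nonneg fun i _ => Nat.cast_nonneg _, fun i hi ε hε => ?_⟩
  refine ⟨1, g ⟨i, hi⟩, le_rfl, ?_, frm x 1 (q ⟨i, hi⟩)⁻¹, frm_pluri _ _ _,
    fun P l hP hl => ?_⟩
  · have h1 : (g ⟨i, hi⟩ : ℝ) ≤ ∑ i, (g i : ℝ) :=
      Finset.single_le_sum (f := fun i => (g i : ℝ)) (fun i _ => Nat.cast_nonneg _)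
        (Finset.mem_univ _)
    push_cast
    linarith
  · have h1 := ordEq_of_val hκ hP (frm_pluri x 1 (q ⟨i, hi⟩)⁻¹) (by
      rw [frm_self hE]
      exact inv_ne_zero (hq _))
    rw [frm_self hE] at h1
    refine ⟨_, h1, ?_⟩
    rw [P.ord_inv]
    push_cast
    have h2 := hb ⟨i, hi⟩ P l hP hl
    linarith

end

section

variable {K K' L : Type} [Field K] [Algebra ℂ K] [Field K'] [Algebra ℂ K'] [Field L] [Algebra ℂ L]
  {N N' : ℕ} {y : Fin (N + 1) → K} {y' : Fin (N' + 1) → K'} {n : ℕ}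

/-- **The inequality for the thresholds.** -/
theorem threshold_le (hy : NormalModel y) (hn : Algebra.trdeg ℂ K = n) (hn0 : 0 < n)
    (hy' : NormalModel y') (hn' : Algebra.trdeg ℂ K' = n) {Δ : Place ℂ K → ℝ}
    {Δ' : Place ℂ K' → ℝ} (φ : K →ₐ[ℂ] L) (ψ : K' →ₐ[ℂ] L)
    (hψ0 : FiniteDimensional ψ.fieldRange L) (hlog : FiniteLogPullBackLe φ ψ y Δ y' Δ') {c : ℝ}
    (hc : MultiDegreeLe φ ψ y y' (n - 1) 1 c) {τ : ℝ} (hτ0 : 0 ≤ τ)
    (hτ : ThresholdLe y' n Δ' τ) : 0 ≤ c ∧ ThresholdLe y n Δ (c * τ) := by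
  classical
  have hc0 := multi_nonneg' hy hn hy' hn' φ ψ hψ0 hc
  refine ⟨hc0, fun i0 hi0 ε hε => ?_⟩
  obtain ⟨x, E, hx, hE⟩ := exists_crd hn (k := ℂ) (K := K)
  obtain ⟨κ, -, hκ⟩ := exists_ordc hy hn hx hE
  obtain ⟨x', E', hx', hE'⟩ := exists_crd hn' (k := ℂ) (K := K')
  obtain ⟨κ', -, hκ'⟩ := exists_ordc hy' hn' hx' hE'
  obtain ⟨P1, hP1⟩ := exists_prime hy hn hn0
  obtain ⟨Q1, e1, P1', e1', hQ1, hQ1'⟩ := exists_lies hn hy hy' hn' φ ψ hψ0 P1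
  obtain ⟨i, hi⟩ := hy'.ne
  obtain ⟨F, ρ1, hF, -, -, h⟩ := log_step hy hn hn0 hy' hn' φ ψ hψ0 hlog hx hE hx' hE' hκ hκ' hi0
    hi hc hQ1 hP1 hQ1'
  obtain ⟨m, b, hm, hb, η, hη, hηo⟩ := hτ i hi (ε / (c + 1)) (by positivity)
  have hηE : η E' ≠ 0 := by
    obtain ⟨P0, hP0⟩ := exists_prime hy' hn' hn0
    obtain ⟨l, hl⟩ := exists_centred hy' P0
    obtain ⟨z, hz, -⟩ := hηo P0 l hP0 hl
    exact (val_of_ordEq hκ' hP0 hη hz).1
  obtain ⟨k, B, hk, hB, h1, -⟩ := h (η E')⁻¹ b m (inv_ne_zero hηE) (fun P' l hP' hl => by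
    obtain ⟨z, hz, hz1⟩ := hηo P' l hP' hl
    rw [(val_of_ordEq hκ' hP' hη hz).2] at hz1
    rw [P'.ord_inv]
    push_cast at hz1 ⊢
    linarith)
  refine ⟨F * m, b * B, Nat.mul_pos hF hm, ?_, frm x (F * m) k⁻¹, frm_pluri _ _ _,
    fun P l hP hl => ?_⟩
  · push_cast
    have h2 : (b : ℝ) * B ≤ ((τ + ε / (c + 1)) * m) * (c * F) :=
      mul_le_mul hb hB (Nat.cast_nonneg _) (by positivity)
    refine h2.trans ?_
    have h3 : ε / (c + 1) * c ≤ ε := by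
      rw [div_mul_eq_mul_div, div_le_iff₀ (by positivity)]
      nlinarith
    have h4 := mul_le_mul_of_nonneg_right h3 (show (0 : ℝ) ≤ F * m by positivity)
    have h5 : (τ + ε / (c + 1)) * m * (c * F) = c * τ * (F * m) + ε / (c + 1) * c * (F * m) := by
      ring
    rw [h5]
    linarith
  · have h2 := ordEq_of_val hκ hP (frm_pluri x (F * m) k⁻¹) (by
      rw [frm_self hE]
      exact inv_ne_zero hk)
    rw [frm_self hE] at h2
    refine ⟨_, h2, ?_⟩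
    rw [P.ord_inv]
    have h3 := h1 P l hP hl
    push_cast at h3 ⊢
    linarith

end

end Pool.Agent.R887
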