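import Pool.Agent.R887.DivA
import Pool.Agent.R887.Kap
import Pool.Agent.R887.TrvH

/-!
The Iitaka dimension and the numerical dimension of divisors.
-/

set_option autoImplicit false
set_option linter.overlappingInstances false
set_option linter.unusedSectionVars false

open FF Module MvPolynomial Pool.Agent.W602.GT Pool.Agent.W603.LV Pool.Agent.W619.PQ
open Pool.Agent.Y172 Pool.Agent.Y191

namespace Pool.Agent.R887

section

variable {K : Type} [Field K] [Algebra ℂ K] {N n : ℕ} {y : Fin (N + 1) → K}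

theorem function_section_pow {D : Place ℂ K → ℚ} {g : K} (hg : IsFunctionSection y D g) {q : ℕ}
    (hq : 1 ≤ q) : IsFunctionSection y (q • D) (g ^ q) := by
  rcases hg with h | h
  · left
    rw [h, zero_pow (by omega)]
  · right
    intro P hP
    rw [P.ord_pow, Pi.smul_apply, nsmul_eq_mul]
    push_cast
    have h1 := mul_le_mul_of_nonneg_left (h P hP) (show (0 : ℚ) ≤ q from Nat.cast_nonneg _)
    linarith

/-- **The Iitaka dimension is at most the numerical dimension.** -/
theorem iitaka_lt_product (hy : NormalModel y) (hn : Algebra.trdeg ℂ K = n) {D : Place ℂ K → ℚ} {j : ℕ}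
    (hj : j ≤ n) (hnum : DivisorProductLe y n D j 0) : ¬ IitakaGe y D j := by
  classical
  rintro ⟨m, hm, f, hf, hf0, hind⟩
  obtain ⟨g, hg⟩ : ∃ g : Fin j → K, g = fun i => f i.succ / f 0 := ⟨_, rfl⟩
  rw [← hg] at hind
  obtain ⟨u, hu, hd⟩ := exists_complete hy hn hj hind
  have hzero : Effective y (0 : Place ℂ K → ℚ) :=
    ⟨fun _ _ => le_rfl, Set.finite_empty.subset (by rintro P ⟨-, h⟩; exact h rfl)⟩
  have hm' : (0 : ℝ) < m := by exact_mod_cast hm
  obtain ⟨t, ht, m0, h⟩ := hnum 0 hzero (1 / (2 * m ^ j)) (by positivity)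
  obtain ⟨q, hq⟩ : ∃ q, q = m0 + 1 := ⟨_, rfl⟩
  have hq1 : 1 ≤ q := by omega
  have h1 := h (q * m) 0 (by nlinarith) (by
      push_cast
      positivity) u hu (fun i => f i ^ q) (fun i => by
      have h2 := function_section_pow (hf i) hq1
      rw [smul_smul] at h2
      rw [zero_smul, add_zero]
      exact h2) (pow_ne_zero _ hf0)
  have hcard : Nat.card (Fin (n - j) ⊕ Fin j) = n := by
    rw [Nat.card_eq_fintype_card, Fintype.card_sum, Fintype.card_fin, Fintype.card_fin]
    omega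
  have h2 := dg_pow_all (k := ℂ) (by rw [hn, hcard]) (Sum.elim u g) (Finset.univ.image Sum.inr)
    (q := q) hq1 hd.ne'
  rw [Finset.card_image_of_injective _ Sum.inr_injective, Finset.card_univ,
    Fintype.card_fin] at h2
  have h3' : (Sum.elim u fun i : Fin j => f i.succ ^ q / f 0 ^ q) =
      fun i => if i ∈ Finset.univ.image Sum.inr then Sum.elim u g i ^ q
        else Sum.elim u g i := by
    funext i
    rcases i with i | i
    · simp
    · simp [hg, div_pow]
  have h3 : degreeOver u (fun i : Fin j => f i.succ ^ q / f 0 ^ q) =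
      dg ℂ (fun i => if i ∈ Finset.univ.image Sum.inr then Sum.elim u g i ^ q
        else Sum.elim u g i) := by
    rw [← h3']
    unfold degreeOver dg
    rw [Set.Sum.elim_range]
  change ((degreeOver u (fun i : Fin j => f i.succ ^ q / f 0 ^ q) : ℕ) : ℝ) ≤ _ at h1
  rw [h3, h2] at h1
  push_cast at h1
  have hq' : (0 : ℝ) < q := by exact_mod_cast hq1
  have hd' : (1 : ℝ) ≤ dg ℂ (Sum.elim u g) := by exact_mod_cast hd
  have h4 : (0 + 1 / (2 * (m : ℝ) ^ j)) * (q * m) ^ j = q ^ j / 2 := by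
    rw [mul_pow]
    field_simp
    ring
  rw [h4] at h1
  have h5 : (0 : ℝ) < (q : ℝ) ^ j := by positivity
  nlinarith

theorem DivisorProductLe.of_forall {D : Place ℂ K → ℚ} {j : ℕ} {a : ℝ}
    (h : ∀ ε : ℝ, 0 < ε → ∃ b, b ≤ a + ε ∧ DivisorProductLe y n D j b) :
    DivisorProductLe y n D j a := by
  intro A hA ε hε
  obtain ⟨b, hb, hb'⟩ := h (ε / 2) (by positivity)
  obtain ⟨t, ht, m0, h1⟩ := hb' A hA (ε / 2) (by positivity)
  refine ⟨t, ht, m0, fun m b' hm hb' u hu g hg hg0 => (h1 m b' hm hb' u hu g hg hg0).trans ?_⟩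
  exact mul_le_mul_of_nonneg_right (by linarith) (by positivity)

/-- every divisor is bounded by a multiple of a hyperplane section -/
theorem exists_hyperplaneGe (hy : NormalModel y) {D : Place ℂ K → ℚ}
    (hD : {P | IsPrimeDivisor y P ∧ D P ≠ 0}.Finite) : ∃ M : ℝ, 0 ≤ M ∧ HyperplaneGe y D M := by
  classical
  have hDfin : {P | IsPrimeDivisor y P ∧ ((D P : ℚ) : ℝ) ≠ 0}.Finite := by
    refine hD.subset ?_
    rintro P ⟨hP, h0⟩
    exact ⟨hP, fun h1 => h0 (by rw [h1, Rat.cast_zero])⟩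
  choose q g hq hb using fun i : {i // y i ≠ 0} => first_bound hy i.2 hDfin
  refine ⟨∑ i, (g i : ℝ), Finset.sum_nonneg fun i _ => Nat.cast_nonneg _, fun i hi ε hε => ?_⟩
  refine ⟨1, g ⟨i, hi⟩, le_rfl, ?_, q ⟨i, hi⟩, hq _, fun P l hP hl => ?_⟩
  · have h1 : (g ⟨i, hi⟩ : ℝ) ≤ ∑ i, (g i : ℝ) :=
      Finset.single_le_sum (f := fun i => (g i : ℝ)) (fun i _ => Nat.cast_nonneg _)
        (Finset.mem_univ _)
    push_cast
    linarith
  · have h2 := hb ⟨i, hi⟩ P l hP hl
    rw [Nat.cast_one, one_mul]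
    exact_mod_cast h2

end

end Pool.Agent.R887
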