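import Pool.Agent.R887.PsF
import Pool.Agent.R887.DefsOrb

/-!
**The degree inequality for multi-valued maps of pairs**, general form: orbifold divisors.
-/

set_option autoImplicit false
set_option linter.overlappingInstances false
set_option linter.unusedSectionVars false

open FF Module MvPolynomial Pool.Agent.W602.GT Pool.Agent.W603.LV Pool.Agent.W619.PQ
open Pool.Agent.Y172 Pool.Agent.Y191

namespace Pool.Agent.R887

section

variable {K K' L : Type} [Field K] [Algebra ℂ K] [Field K'] [Algebra ℂ K'] [Field L] [Algebra ℂ L]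
  [Algebra K L] [IsScalarTower ℂ K L] [FiniteDimensional K L] [Algebra K' L]
  [IsScalarTower ℂ K' L] [FiniteDimensional K' L] {N N' : ℕ} {y : Fin (N + 1) → K}
  {y' : Fin (N' + 1) → K'} {n : ℕ}

/-- **The pull back of a section is a section over the covering.** -/
theorem pull_sec2 (hy : NormalModel y) (hn : Algebra.trdeg ℂ K = n) (hy' : NormalModel y')
    (hn' : Algebra.trdeg ℂ K' = n) {Δ A : Place ℂ K → ℚ} (hA : Effective y A)
    {Δ' : Place ℂ K' → ℚ}
    (hlog : ∀ (Q : Place ℂ L) (P' : Place ℂ K') (e' : ℕ), Over Q P' e' → IsPrimeDivisor y' P' →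
      ∀ (P : Place ℂ K) (e : ℕ), Over Q P e → ∃ α : ℚ, LogDisc y n Δ P α ∧
        e' * (1 - Δ' P') ≤ e * α) {x : Fin n → K}
    {E : Fin n → Derivation ℂ K K} (hx : IsTranscendenceBasis ℂ x)
    (hE : ∀ i j, E i (x j) = if i = j then 1 else 0) (hfr : IsFrame E)
    {x' : Fin n → K'} {E' : Fin n → Derivation ℂ K' K'} (hx' : IsTranscendenceBasis ℂ x')
    (hE' : ∀ i j, E' i (x' j) = if i = j then 1 else 0) {D : Fin n → Derivation ℂ L L}
    (hD : ∀ i f, D i (algebraMap K' L f) = algebraMap K' L (E' i f)) {c' : Place ℂ K' → ℤ}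
    (hc' : ∀ P, IsPrimeDivisor y' P → ∀ (m : ℕ)
      (ω : (Fin n → Derivation ℂ K' K') → K'), IsPluri m ω → ∀ r : ℚ, OrdGe P ω r ↔
        (ω E' = 0 ∨ r ≤ m * c' P + P.ord (ω E'))) {i : Fin (N' + 1)} (hi : y' i ≠ 0)
    {A' : Place ℂ K' → ℚ}
    (hAP : ∀ P l, IsPrimeDivisor y' P → Centred y' l P → A' P = P.ord (y' i / y' l)) :
    ∃ (f : K') (β : ℕ), f ≠ 0 ∧ ∀ m b : ℕ, 1 ≤ m → ∀ ω, IsSection y n m (m • Δ + b • A) ω →
      ω E ≠ 0 → pull L x E m ω D * algebraMap K' L f ^ b ≠ 0 ∧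
      ∀ (Q : Place ℂ L) (P' : Place ℂ K') (e : ℕ), Over Q P' e → IsPrimeDivisor y' P' →
        0 ≤ (Q.ord (pull L x E m ω D * algebraMap K' L f ^ b) : ℚ) +
          e * (m * (c' P' + Δ' P') + (b * β : ℕ) * A' P') := by
  classical
  have hess := hy.ess
  have hess' := hy'.ess
  have hDfr : IsFrame D := fun F => ⟨fun j => F (algebraMap K' L (x' j)),
    (Pool.Agent.W73.PG.PULL.expand _ (hx'.algebraMap_comp (A := L)) D (lift_dual hE' hD) F).symm⟩
  choose t htc ht0 hb using fun j => disc_bound2 (Δ := Δ) (n := n) hy hA hfr j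
  obtain ⟨f, β, hf0, hfb⟩ := correct (L := L) hy' hi (fun j => algebraMap K L (t j))
    (fun j => by rw [Ne, map_eq_zero]; exact ht0 j) 1
  have hfL : algebraMap K' L f ≠ 0 := by rwa [Ne, map_eq_zero]
  have hdet : (Matrix.of fun i j => D i (algebraMap K L (x j))).det ≠ 0 := pull_ne hn hE hDfr
  refine ⟨f, β, hf0, fun m b hm ω hω hω0 => ?_⟩
  have hp0 : pull L x E m ω D ≠ 0 := by
    refine mul_ne_zero (pow_ne_zero _ hdet) ?_
    rwa [Ne, map_eq_zero]
  refine ⟨mul_ne_zero hp0 (pow_ne_zero _ hfL), fun Q P' e' hov' hP' => ?_⟩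
  have hov := over_bel K Q
  have hdP' : Divisorial n P' := hP'.divisorial hy' hn'
  have hdQ : Divisorial n Q := divisorial_up hov' hdP'
  have hPd : Divisorial n (bel K Q) := divisorial_down hov hdQ
  obtain ⟨j, hj⟩ := exists_centred hy (bel K Q)
  obtain ⟨l, hl⟩ := exists_centred hy' P'
  have hz : OrdEq P' (frm x' 1 (1 : K')) ((1 : ℕ) * c' P' + P'.ord (frm x' 1 (1 : K') E')) :=
    ordEq_of_val hc' hP' (frm_pluri x' 1 1) (by rw [frm_self hE']; exact one_ne_zero)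
  rw [frm_self hE', P'.ord_one] at hz
  have hfb' := hfb Q P' e' hov' hP' l hl j
  rw [hov'.2 (y' i / y' l)] at hfb'
  have ho := hAP P' l hP' hl
  have he1 : (1 : ℚ) ≤ e' := by exact_mod_cast hov'.1
  have hm0 : (0 : ℚ) < m := by exact_mod_cast hm
  have hb0 : (0 : ℚ) ≤ b := Nat.cast_nonneg _
  have hram : (0 : ℚ) < ram K Q := by exact_mod_cast hov.1
  -- the order of the section
  have hgen : ∀ α : ℚ, LogDisc y n Δ (bel K Q) α →
      (m * (ram K Q * α - e') - b * Q.ord (algebraMap K L (t j)) - m * e' * c' P' : ℚ) ≤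
        Q.ord (pull L x E m ω D) := by
    intro α hα
    have h1 := hb j (bel K Q) hj α hα m b hm ω hω
    obtain ⟨c1, hc1⟩ : ∃ c1 : ℤ, c1 = ⌈(m : ℚ) * (α - 1)⌉ - b * (bel K Q).ord (t j) := ⟨_, rfl⟩
    have h2 : OrdGe (bel K Q) ω c1 := by
      intro E' hE'
      refine (h1 E' hE').imp_right fun h => ?_
      have h3 : (m : ℚ) * (α - 1) ≤
          (((bel K Q).ord (ω E') + b * (bel K Q).ord (t j) : ℤ) : ℚ) := by
        push_cast
        linarith
      have h4 := Int.ceil_le.2 h3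
      rw [hc1]
      have h5 : ⌈(m : ℚ) * (α - 1)⌉ - b * (bel K Q).ord (t j) ≤ (bel K Q).ord (ω E') := by
        omega
      exact_mod_cast h5
    have h3 := (ratio_bound hn hn' hx' hE' hD hx hE (frm_pluri x' 1 1) hov' hdP' hz hov hPd hω.1
      h2 hp0).2
    rw [frm_self hE', map_one, one_pow, div_one, pow_one] at h3
    refine le_trans ?_ h3
    rw [hc1, hov.2]
    push_cast
    have h4 : (m : ℚ) * (α - 1) ≤ ⌈(m : ℚ) * (α - 1)⌉ := Int.le_ceil _
    have h5 := mul_le_mul_of_nonneg_left h4 hram.le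
    have h6 : (m * (ram K Q * α - e') - b * (ram K Q * (bel K Q).ord (t j)) : ℚ) ≤
        m * (ram K Q - e') + ram K Q * (⌈(m : ℚ) * (α - 1)⌉ - b * (bel K Q).ord (t j)) := by
      nlinarith
    linarith
  have hfb2 : (Q.ord (algebraMap K L (t j)) : ℚ) ≤ Q.ord (algebraMap K' L f) +
      β * (e' * A' P') := by
    rw [ho]
    rw [Nat.cast_one, one_mul] at hfb'
    exact_mod_cast hfb'
  have hfb3 := mul_le_mul_of_nonneg_left hfb2 hb0
  rw [Q.ord_mul hp0 (pow_ne_zero _ hfL), Q.ord_pow]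
  push_cast
  obtain ⟨α, hα, hα1⟩ := hlog Q P' e' hov' hP' _ _ hov
  have h1 := hgen α hα
  have h3 : (0 : ℚ) ≤ m * (ram K Q * α - e' * (1 - Δ' P')) := mul_nonneg hm0.le (by linarith)
  linarith

/-- **The degree inequality**, in terms of algebras. -/
theorem psef_aux2 (hy' : NormalModel y') (hn' : Algebra.trdeg ℂ K' = n) (hn0 : 0 < n)
    {Δ' : Place ℂ K' → ℚ} (hΔ' : {P | IsPrimeDivisor y' P ∧ Δ' P ≠ 0}.Finite) {μ : ℝ} (hμ : 0 ≤ μ)
    (hpp : PositiveProductLe y' n Δ' 1 μ) (hy : NormalModel y) (hn : Algebra.trdeg ℂ K = n)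
    {Δ : Place ℂ K → ℚ} (φ : K →ₐ[ℂ] L) (ψ : K' →ₐ[ℂ] L)
    (hφ : ∀ f, φ f = algebraMap K L f) (hψ : ∀ f, ψ f = algebraMap K' L f)
    (hdeg : mapDegree φ = Module.finrank K L)
    (hlog : ∀ (Q : Place ℂ L) (P' : Place ℂ K') (e' : ℕ), Over Q P' e' → IsPrimeDivisor y' P' →
      ∀ (P : Place ℂ K) (e : ℕ), Over Q P e → ∃ α : ℚ, LogDisc y n Δ P α ∧
        e' * (1 - Δ' P') ≤ e * α) {j : ℕ} (hj : j ≤ n) {c : ℝ}
    (hc : MultiDegreeLe φ ψ y y' (n - j) j c) : PositiveProductLe y n Δ j (c * μ ^ j) := by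
  classical
  have hess := hy.ess
  have hess' := hy'.ess
  have hnL : Algebra.trdeg ℂ L = n := trdeg_up (K := K') hn'
  have hc0 : 0 ≤ c := multi_nonneg hy hy' hc (by
    rw [hdeg]
    exact Module.finrank_pos)
  obtain ⟨x, E, hx, hE⟩ := exists_crd hn (k := ℂ) (K := K)
  have hfr : IsFrame E := fun F => ⟨fun j => F (x j),
    (Pool.Agent.W73.PG.PULL.expand x hx E hE F).symm⟩
  obtain ⟨x', E', hx', hE'⟩ := exists_crd hn' (k := ℂ) (K := K')
  choose D hD using fun i => exists_lift (L := L) hn' (E' i)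
  have hDfr : IsFrame D := fun F => ⟨fun j => F (algebraMap K' L (x' j)),
    (Pool.Agent.W73.PG.PULL.expand _ (hx'.algebraMap_comp (A := L)) D (lift_dual hE' hD) F).symm⟩
  have hdet : (Matrix.of fun i j => D i (algebraMap K L (x j))).det ≠ 0 := pull_ne hn hE hDfr
  obtain ⟨c', hc'fin, hc'⟩ := exists_ordc hy' hn' hx' hE'
  obtain ⟨i, hi⟩ := hy'.ne
  obtain ⟨A', hA', hAP⟩ := exists_hyp hy' hi
  obtain ⟨T, hT⟩ : ∃ T : Place ℂ K' → ℚ, T = fun P => c' P + Δ' P := ⟨_, rfl⟩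
  have hTfin : {P | IsPrimeDivisor y' P ∧ T P ≠ 0}.Finite := by
    refine (hc'fin.union hΔ').subset ?_
    rintro P ⟨hP, h0⟩
    by_cases h1 : c' P = 0
    · right
      refine ⟨hP, fun h2 => h0 ?_⟩
      rw [hT]
      simp only []
      rw [h1, h2, Int.cast_zero, zero_add]
    · exact Or.inl ⟨hP, h1⟩
  intro A hA ε hε
  obtain ⟨f, β, hf0, hps⟩ := pull_sec2 (L := L) hy hn hy' hn' hA hlog hx hE hfr hx'
    hE' hD hc' hi hAP
  have hfL : algebraMap K' L f ≠ 0 := by rwa [Ne, map_eq_zero]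
  have hps' : ∀ m b : ℕ, 1 ≤ m → ∀ ω, IsSection y n m (m • Δ + b • A) ω → ω E ≠ 0 →
      pull L x E m ω D * algebraMap K' L f ^ b ≠ 0 ∧
      ∀ (Q : Place ℂ L) (P' : Place ℂ K') (e : ℕ), Over Q P' e → IsPrimeDivisor y' P' →
        0 ≤ (Q.ord (pull L x E m ω D * algebraMap K' L f ^ b) : ℚ) +
          e * (m * T P' + (b * β : ℕ) * A' P') := by
    rw [hT]
    exact hps
  have hβ1 : (0 : ℝ) < (β : ℝ) + 1 := by positivity
  by_cases hpsT : PsT y' T A'
  swap
  · -- no sections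
    unfold PsT at hpsT
    push Not at hpsT
    obtain ⟨t, ht, m0, hno⟩ := hpsT
    obtain ⟨P0, hP0⟩ := exists_prime hy' hn' hn0
    obtain ⟨Q0, e0, hQ0⟩ := exists_above (k := ℂ) (K := K') (L := L) P0
    refine ⟨t / (β + 1), by positivity, m0 + 1, fun m b hm hb u hu ω F hω h0 => ?_⟩
    exfalso
    have hm1 : 1 ≤ m := by omega
    have hmr : (0 : ℝ) < m := by exact_mod_cast hm1
    have h1 := (ratio_frame hfr (hω 0).1 (hω 0).1 h0).1
    obtain ⟨h2, h3⟩ := hps' m b hm1 _ (hω 0) h1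
    obtain ⟨M, k, hM, hk0, hk, -⟩ := descend h2 h3 hQ0
    refine hno (M * m) (M * (b * β)) k ?_ ?_ hk0 hk
    · calc m0 ≤ m := by omega
        _ ≤ M * m := Nat.le_mul_of_pos_left m hM
    · have h4 : (b : ℝ) * β ≤ t * m := by
        have h5 := mul_le_mul_of_nonneg_right hb hβ1.le
        have h6 : t / ((β : ℝ) + 1) * m * (β + 1) = t * m := by field_simp
        have h7 : (0 : ℝ) ≤ b := Nat.cast_nonneg _
        linarith
      push_cast
      have h5 := mul_le_mul_of_nonneg_left h4 (show (0 : ℝ) ≤ M from Nat.cast_nonneg _)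
      linarith
  obtain ⟨δ, hδ, hδ0⟩ : ∃ δ : ℝ, c * (μ + 3 * δ) ^ j < c * μ ^ j + ε ∧ 0 < δ := by
    have h1 : Filter.Tendsto (fun δ : ℝ => c * ((μ : ℝ) + 3 * δ) ^ j) (nhds 0)
        (nhds (c * ((μ : ℝ) + 3 * 0) ^ j)) :=
      (((Filter.tendsto_id.const_mul 3).const_add _).pow j).const_mul c
    rw [mul_zero, add_zero] at h1
    have h2 : ∀ᶠ δ : ℝ in nhds 0, c * ((μ : ℝ) + 3 * δ) ^ j < c * μ ^ j + ε :=
      h1.eventually_lt_const (by linarith)
    have h3 : ∀ᶠ δ : ℝ in nhdsWithin 0 (Set.Ioi 0), c * ((μ : ℝ) + 3 * δ) ^ j < c * μ ^ j + ε :=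
      h2.filter_mono nhdsWithin_le_nhds
    have h4 : ∀ᶠ δ : ℝ in nhdsWithin (0 : ℝ) (Set.Ioi 0), 0 < δ := self_mem_nhdsWithin
    exact (h3.and h4).exists
  obtain ⟨s, a, M, θ, κ, t, m0, hs1, hM1, hθ0, ht, has, hθ, hlow⟩ :=
    exists_theta hy' hn' hn0 hi hTfin hA' hAP hμ (by
      rw [hT]
      exact sec_deg hA' hE' hc' hpp) hpsT hδ0
  have hθL : algebraMap K' L θ ≠ 0 := by rwa [Ne, map_eq_zero]
  have hs0 : (0 : ℝ) < s := by exact_mod_cast hs1
  refine ⟨min t δ / (β + 1), div_pos (lt_min ht hδ0) hβ1, m0 + 1,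
    fun m b hm hb u hu ω F hω h0 => ?_⟩
  have hm1 : 1 ≤ m := by omega
  have hmr : (0 : ℝ) < m := by exact_mod_cast hm1
  have hbβ : (b : ℝ) * β ≤ min t δ * m := by
    have h5 := mul_le_mul_of_nonneg_right hb hβ1.le
    have h6 : min t δ / ((β : ℝ) + 1) * m * (β + 1) = min t δ * m := by field_simp
    have h7 : (0 : ℝ) ≤ b := Nat.cast_nonneg _
    linarith
  have hbt : (b : ℝ) * β ≤ t * m :=
    hbβ.trans (mul_le_mul_of_nonneg_right (min_le_left _ _) hmr.le)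
  have hbδ : (b : ℝ) * β ≤ δ * m :=
    hbβ.trans (mul_le_mul_of_nonneg_right (min_le_right _ _) hmr.le)
  -- the orders of the pull backs
  have hord : ∀ ω, IsSection y n m (m • Δ + b • A) ω → ω E ≠ 0 → ∀ (Q : Place ℂ L)
      (P' : Place ℂ K') (e : ℕ), Over Q P' e → IsPrimeDivisor y' P' →
      (e : ℝ) * (m * ((κ P' : ℝ) / M)) ≤
        (Q.ord (pull L x E m ω D * algebraMap K' L f ^ b) : ℝ) +
          e * (m * (T P' : ℝ) + (b * β : ℝ) * (A' P' : ℝ)) := by
    intro ω hω hω0 Q P' e hov hP'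
    obtain ⟨h2, h3⟩ := hps' m b hm1 ω hω hω0
    obtain ⟨M', k, hM', hk0, hk, hk1⟩ := descend h2 h3 hov
    have hM'0 : (0 : ℝ) < M' := by exact_mod_cast hM'
    have h4 := hlow (M' * m) (M' * (b * β)) (by
      calc m0 ≤ m := by omega
        _ ≤ M' * m := Nat.le_mul_of_pos_left m hM') (by
      push_cast
      have h5 := mul_le_mul_of_nonneg_left hbt hM'0.le
      linarith) k hk0 hk P' hP'
    have h5 : (e : ℝ) * (P'.ord k : ℝ) ≤
        M' * (Q.ord (pull L x E m ω D * algebraMap K' L f ^ b) : ℝ) := by exact_mod_cast hk1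
    have h6 := mul_le_mul_of_nonneg_left h4 (show (0 : ℝ) ≤ e from Nat.cast_nonneg _)
    push_cast at h6
    have h7 : (M' : ℝ) * ((e : ℝ) * (m * ((κ P' : ℝ) / M))) ≤
        M' * ((Q.ord (pull L x E m ω D * algebraMap K' L f ^ b) : ℝ) +
          e * (m * (T P' : ℝ) + (b * β : ℝ) * (A' P' : ℝ))) := by linarith
    exact le_of_mul_le_mul_left h7 hM'0
  -- the functions
  obtain ⟨B, hB⟩ : ∃ B : ℕ, B = m * a + s * (b * β) := ⟨_, rfl⟩
  have hBr : (B : ℝ) = m * a + s * (b * β) := by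
    rw [hB]
    push_cast
    ring
  have h9 := deg_step (Δ := Δ) (A := A) (m := m) (b := b) (s := s) (B := B) hn hnL φ ψ hφ hψ hdeg
    hi hfr hj hc0 hc hs1
    (F := fun ω => (pull L x E m ω D * algebraMap K' L f ^ b) ^ s / algebraMap K' L θ ^ m)
    (fun ω hω hω0 => ?_) (fun ω ω' hω hω' h1 h2 => ?_) hu hω h0
  · -- the degrees
    have h10 : (B : ℝ) ≤ s * ((μ + 3 * δ) * m) := by
      rw [hBr]
      have h11 := mul_le_mul_of_nonneg_left has hmr.le
      have h12 := mul_le_mul_of_nonneg_left hbδ hs0.le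
      linarith
    have h11 : (B : ℝ) ^ j ≤ (s * ((μ + 3 * δ) * m)) ^ j :=
      pow_le_pow_left₀ (Nat.cast_nonneg _) h10 j
    have h12 := mul_le_mul_of_nonneg_left h11 hc0
    have h13 := h9.trans h12
    rw [mul_pow] at h13
    have h14 : (0 : ℝ) < (s : ℝ) ^ j := by positivity
    have h15 : (s : ℝ) ^ j *
        (degreeOver u (fun i : Fin j => ω i.succ F / ω 0 F) : ℝ) ≤
        s ^ j * (c * ((μ + 3 * δ) * m) ^ j) := by linarith
    have h16 := le_of_mul_le_mul_left h15 h14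
    refine h16.trans ?_
    rw [mul_pow, ← mul_assoc]
    exact mul_le_mul_of_nonneg_right hδ.le (by positivity)
  · -- the bounds
    obtain ⟨h2, -⟩ := hps' m b hm1 ω hω hω0
    have h3 : (pull L x E m ω D * algebraMap K' L f ^ b) ^ s / algebraMap K' L θ ^ m ≠ 0 :=
      div_ne_zero (pow_ne_zero _ h2) (pow_ne_zero _ hθL)
    refine ⟨h3, bnd_of_prime hy' hi h3 fun Q P' e hov hP' l hl => ?_⟩
    have h4 := hord ω hω hω0 Q P' e hov hP'
    have h5 := hθ P' hP'
    have h6 : (A' P' : ℝ) = ((P'.ord (y' i / y' l) : ℤ) : ℝ) := by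
      rw [hAP P' l hP' hl]
      norm_cast
    rw [Q.ord_div (pow_ne_zero _ h2) (pow_ne_zero _ hθL), Q.ord_pow, Q.ord_pow, hov.2, hov.2]
    have h7 : (0 : ℝ) ≤ ((s * Q.ord (pull L x E m ω D * algebraMap K' L f ^ b) -
        m * (e * P'.ord θ) + B * (e * P'.ord (y' i / y' l)) : ℤ) : ℝ) := by
      push_cast
      rw [← h6, hBr]
      have h8 := mul_le_mul_of_nonneg_left h4 hs0.le
      have h9 := mul_le_mul_of_nonneg_left h5 (show (0 : ℝ) ≤ m * e by positivity)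
      linarith
    exact_mod_cast h7
  · -- the quotients
    have h3 : algebraMap K L (ω E) ≠ 0 := by rwa [Ne, map_eq_zero]
    have h4 : algebraMap K' L f ^ b ≠ 0 := pow_ne_zero _ hfL
    have h5 : algebraMap K' L θ ^ m ≠ 0 := pow_ne_zero _ hθL
    have h6 : (Matrix.of fun i j => D i (algebraMap K L (x j))).det ^ m ≠ 0 :=
      pow_ne_zero _ hdet
    rw [div_div_div_cancel_right₀ h5, ← div_pow, mul_div_mul_right _ _ h4]
    congr 1
    rw [map_div₀]
    unfold pull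
    rw [mul_div_mul_left _ _ h6]

end

section

variable {K K' L : Type} [Field K] [Algebra ℂ K] [Field K'] [Algebra ℂ K'] [Field L] [Algebra ℂ L]
  {N N' : ℕ} {y : Fin (N + 1) → K} {y' : Fin (N' + 1) → K'} {n : ℕ}

/-- **The degree inequality for multi-valued maps of pairs.** -/
theorem orb_degree_le (hy' : NormalModel y') (hn' : Algebra.trdeg ℂ K' = n) (hn0 : 0 < n)
    {Δ' : Place ℂ K' → ℚ} (hΔ' : {P | IsPrimeDivisor y' P ∧ Δ' P ≠ 0}.Finite) {μ : ℝ}
    (hμ : 0 ≤ μ) (hpp : PositiveProductLe y' n Δ' 1 μ) (hy : NormalModel y)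
    (hn : Algebra.trdeg ℂ K = n) {Δ : Place ℂ K → ℚ} (φ : K →ₐ[ℂ] L) (ψ : K' →ₐ[ℂ] L)
    (hψ0 : FiniteDimensional ψ.fieldRange L) (hlog : LogPullBackLe φ ψ y n Δ y' Δ') {j : ℕ}
    (hj : j ≤ n) {c : ℝ} (hc : MultiDegreeLe φ ψ y y' (n - j) j c) :
    0 ≤ c ∧ PositiveProductLe y n Δ j (c * μ ^ j) := by
  have hess' := hy'.ess
  have hess := hy.ess
  let _ : Algebra K L := φ.toRingHom.toAlgebra
  let _ : Algebra K' L := ψ.toRingHom.toAlgebra
  have hst : IsScalarTower ℂ K L := IsScalarTower.of_algebraMap_eq fun c => (φ.commutes c).symm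
  have hst' : IsScalarTower ℂ K' L := IsScalarTower.of_algebraMap_eq fun c => (ψ.commutes c).symm
  have hfd' : FiniteDimensional K' L := fd_of_range ψ hψ0
  have hessL : Algebra.EssFiniteType ℂ L := by
    have h1 : Algebra.EssFiniteType K' L := inferInstance
    exact Algebra.EssFiniteType.comp ℂ K' L
  have hnL : Algebra.trdeg ℂ L = n := trdeg_up (K := K') hn'
  have hfd : FiniteDimensional K L := finite_map hn hnL
  have hdeg : mapDegree φ = Module.finrank K L := by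
    unfold mapDegree
    let e : K ≃ₐ[ℂ] φ.fieldRange := AlgEquiv.ofInjectiveField φ
    refine (Algebra.finrank_eq_of_equiv_equiv e.toRingEquiv (RingEquiv.refl L) ?_).symm
    ext x
    rfl
  exact ⟨multi_nonneg hy hy' hc (by rw [hdeg]; exact Module.finrank_pos),
    psef_aux2 (L := L) hy' hn' hn0 hΔ' hμ hpp hy hn φ ψ (fun _ => rfl) (fun _ => rfl) hdeg
      (fun Q P' e' hov' hP' P e hov => hlog P' hP' Q e' hov' P e hov) hj hc⟩

/-- **Self-correspondences of pairs.** -/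
theorem orb_self_gap (hy : NormalModel y) (hn : Algebra.trdeg ℂ K = n) (hn0 : 0 < n)
    {Δ : Place ℂ K → ℚ} (hΔ : {P | IsPrimeDivisor y P ∧ Δ P ≠ 0}.Finite) {μ : ℝ} (hμ : 0 ≤ μ)
    (hpp : PositiveProductLe y n Δ 1 μ) (φ ψ : K →ₐ[ℂ] L)
    (hψ0 : FiniteDimensional ψ.fieldRange L) (hlog : LogPullBackLe φ ψ y n Δ y Δ) {c : ℝ}
    (hc : MultiDegreeLe φ ψ y y (n - 1) 1 c) (hc1 : c < 1) : NumDimLt y n Δ 1 := by
  have hc0 := multi_nonneg' hy hn hy hn φ ψ hψ0 hc
  have hall : ∀ k : ℕ, PositiveProductLe y n Δ 1 (c ^ k * μ) := by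
    intro k
    induction k with
    | zero =>
      rw [pow_zero, one_mul]
      exact hpp
    | succ k ih =>
      have h3 := (orb_degree_le hy hn hn0 hΔ (by positivity) ih hy hn φ ψ hψ0 hlog
        (j := 1) (by omega) hc).2
      rw [pow_one] at h3
      refine h3.mono (le_of_eq ?_)
      ring
  refine PositiveProductLe.numDimLt (PositiveProductLe.of_forall fun ε hε => ?_)
  have hlim : Filter.Tendsto (fun k : ℕ => c ^ k * μ) Filter.atTop (nhds (0 * μ)) :=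
    (tendsto_pow_atTop_nhds_zero_of_lt_one hc0 hc1).mul_const _
  rw [zero_mul] at hlim
  obtain ⟨k, hk⟩ := (hlim.eventually_lt_const hε).exists
  exact ⟨_, by linarith, hall k⟩

end

end Pool.Agent.R887
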