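import Pool.Agent.R887.Low
import Pool.Agent.R887.Frm
import Pool.Agent.R887.Defs

/-!
If `K_X + Δ` is effective and its numerical dimension is less than one, then the number of sections
of `m (K_X + Δ) + A` is bounded.
-/

set_option autoImplicit false
set_option linter.overlappingInstances false
set_option linter.unusedSectionVars false

open FF MvPolynomial Pool.Agent.W602.GT Pool.Agent.W603.LV
open Pool.Agent.Y172 Pool.Agent.Y191

namespace Pool.Agent.R887

section

variable {K : Type} [Field K] [Algebra ℂ K] {N n : ℕ} {y : Fin (N + 1) → K}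

theorem bounded_sections (hy : NormalModel y) (hn : Algebra.trdeg ℂ K = n) (hn0 : 0 < n)
    {Δ : Place ℂ K → ℚ} (hΔ : Effective y Δ) (hnum : NumDimLt y n Δ 1) {m0 : ℕ} (hm0 : 1 ≤ m0)
    {η : (Fin n → Derivation ℂ K K) → K} (hη : IsSection y n m0 (m0 • Δ) η) (hη0 : η ≠ 0)
    {x : Fin n → K} {E : Fin n → Derivation ℂ K K} (hx : IsTranscendenceBasis ℂ x)
    (hE : ∀ i j, E i (x j) = if i = j then 1 else 0) {A : Place ℂ K → ℚ} (hA : Effective y A) :
    ∃ C : ℕ, ∀ m : ℕ, 1 ≤ m → ∀ (r : ℕ) (f : Fin r → K), LinearIndependent ℂ f →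
      (∀ i, ∃ ω, IsSection y n m (m • Δ + A) ω ∧ ω E = f i) → r ≤ C * m ^ 0 := by
  classical
  have hess := hy.ess
  have hfr : IsFrame E := fun F => ⟨fun j => F (x j),
    (Pool.Agent.W73.PG.PULL.expand x hx E hE F).symm⟩
  obtain ⟨c, hcfin, hc⟩ := exists_ordc hy hn hx hE
  obtain ⟨f0, hf0⟩ : ∃ f0, f0 = η E := ⟨_, rfl⟩
  have hf00 : f0 ≠ 0 := by
    intro h0
    exact hη0 (pluri_zero hfr hη.1 (by rw [← hf0]; exact h0))
  obtain ⟨e, he⟩ : ∃ e : Place ℂ K → ℚ, ∀ P, e P = m0 * Δ P + m0 * c P + P.ord f0 :=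
    ⟨_, fun _ => rfl⟩
  have he0 : ∀ P, IsPrimeDivisor y P → 0 ≤ e P := by
    intro P hP
    have h1 := ((hc P hP m0 η hη.1 _).1 (hη.2 P hP)).resolve_left (by rw [← hf0]; exact hf00)
    rw [← hf0, Pi.smul_apply, nsmul_eq_mul] at h1
    rw [he]
    linarith
  have hZ : {P | IsPrimeDivisor y P ∧ e P ≠ 0}.Finite := by
    refine ((hΔ.2.union hcfin).union (finite_ord hy hf00)).subset ?_
    rintro P ⟨hP, hPe⟩
    by_contra hcon
    simp only [Set.mem_union, Set.mem_ofPred_eq, not_or, not_and, not_not] at hcon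
    apply hPe
    rw [he, hcon.1.1 hP, hcon.1.2 hP, hcon.2 hP]
    simp
  obtain ⟨A2, hA2⟩ : ∃ A2 : Place ℂ K → ℚ, ∀ P, A2 P = A P + m0 * (Δ P + |(c P : ℚ)|) :=
    ⟨_, fun _ => rfl⟩
  have hm0' : (1 : ℚ) ≤ m0 := by exact_mod_cast hm0
  have hA2e : Effective y A2 := by
    constructor
    · intro P hP
      rw [hA2]
      have h1 := hA.1 P hP
      have h2 := hΔ.1 P hP
      have h3 := abs_nonneg (c P : ℚ)
      positivity
    · refine ((hA.2.union hΔ.2).union hcfin).subset ?_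
      rintro P ⟨hP, hPe⟩
      by_contra hcon
      simp only [Set.mem_union, Set.mem_ofPred_eq, not_or, not_and, not_not] at hcon
      apply hPe
      rw [hA2, hcon.1.1 hP, hcon.1.2 hP, hcon.2 hP]
      simp
  obtain ⟨e1, he1, he1'⟩ : ∃ e1 : ℚ, 0 < e1 ∧ ∀ P, IsPrimeDivisor y P → e P ≠ 0 → e1 ≤ e P := by
    rcases hZ.toFinset.eq_empty_or_nonempty with h | h
    · refine ⟨1, one_pos, fun P hP hPe => ?_⟩
      have : P ∈ hZ.toFinset := by
        rw [Set.Finite.mem_toFinset]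
        exact ⟨hP, hPe⟩
      rw [h] at this
      exact absurd this (Finset.notMem_empty P)
    · obtain ⟨P0, hP0, hmin⟩ := Finset.exists_min_image _ e h
      rw [Set.Finite.mem_toFinset] at hP0
      refine ⟨e P0, lt_of_le_of_ne (he0 P0 hP0.1) (Ne.symm hP0.2), fun P hP hPe => hmin P ?_⟩
      rw [Set.Finite.mem_toFinset]
      exact ⟨hP, hPe⟩
  obtain ⟨u, hup, hui⟩ := exists_pencils (n := n) hy.ne hZ (fun P hP => hP.1)
    (fun P hP => hP.1.divisorial hy hn)
  have he1r : (0 : ℝ) < e1 := by exact_mod_cast he1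
  have hm0r : (1 : ℝ) ≤ m0 := by exact_mod_cast hm0
  obtain ⟨t, ht, m1, hm1⟩ := hnum A2 hA2e ((e1 : ℝ) / (4 * m0)) (by positivity)
  obtain ⟨p0, hp0⟩ : ∃ p0, p0 = max 2 (max m1 ⌈1 / t⌉₊) := ⟨_, rfl⟩
  -- the pole orders are bounded
  have key : ∀ (q : ℕ) (g : K),
      (∀ P, IsPrimeDivisor y P → g = 0 ∨ -(q * e P + A2 P) ≤ P.ord g) →
      ∀ P, IsPrimeDivisor y P → g = 0 ∨ -(p0 * e P + A2 P) ≤ P.ord g := by
    intro q g hg P hP
    by_cases hg0 : g = 0
    · exact Or.inl hg0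
    right
    by_contra hbad
    push Not at hbad
    have hg' : ∀ P, IsPrimeDivisor y P → -(q * e P + A2 P) ≤ P.ord g := fun P hP =>
      (hg P hP).resolve_left hg0
    have hPe : e P ≠ 0 := by
      intro h0
      have h1 := hg' P hP
      rw [h0] at h1 hbad
      linarith
    obtain ⟨P1, hP1, hmax⟩ := Finset.exists_max_image hZ.toFinset
      (fun P => (-(P.ord g : ℚ) - A2 P) / e P) ⟨P, by
        rw [Set.Finite.mem_toFinset]
        exact ⟨hP, hPe⟩⟩
    rw [Set.Finite.mem_toFinset] at hP1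
    obtain ⟨T, hT⟩ : ∃ T : ℚ, T = (-(P1.ord g : ℚ) - A2 P1) / e P1 := ⟨_, rfl⟩
    have hpos : ∀ P, IsPrimeDivisor y P → e P ≠ 0 → 0 < e P := fun P hP h =>
      lt_of_le_of_ne (he0 P hP) (Ne.symm h)
    have hTle : ∀ P, IsPrimeDivisor y P → e P ≠ 0 → -(P.ord g : ℚ) - A2 P ≤ T * e P := by
      intro P hP hPe
      have h1 := hmax P (by
        rw [Set.Finite.mem_toFinset]
        exact ⟨hP, hPe⟩)
      rw [← hT, div_le_iff₀ (hpos P hP hPe)] at h1
      exact h1
    have hT1 : T * e P1 = -(P1.ord g : ℚ) - A2 P1 := by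
      rw [hT, div_mul_cancel₀ _ hP1.2]
    have hTp0 : (p0 : ℚ) < T := by
      have h1 := hTle P hP hPe
      have h2 : (p0 : ℚ) * e P < T * e P := by linarith
      exact lt_of_mul_lt_mul_right h2 (he0 P hP)
    have hp02 : (2 : ℚ) ≤ p0 := by
      have : 2 ≤ p0 := by rw [hp0]; exact le_max_left _ _
      exact_mod_cast this
    obtain ⟨p, hp⟩ : ∃ p, p = ⌈T⌉₊ := ⟨_, rfl⟩
    have hpT : T ≤ p := by rw [hp]; exact Nat.le_ceil T
    have hpT' : (p : ℚ) < T + 1 := by rw [hp]; exact Nat.ceil_lt_add_one (by linarith)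
    have hpp0 : p0 ≤ p := by
      have : (p0 : ℚ) < p := lt_of_lt_of_le hTp0 hpT
      have h2 : p0 < p := by exact_mod_cast this
      omega
    have hgp : ∀ P, IsPrimeDivisor y P → -(p * e P + A2 P) ≤ P.ord g := by
      intro P hP
      by_cases hPe : e P = 0
      · have h1 := hg' P hP
        rw [hPe] at h1 ⊢
        linarith
      · have h1 := hTle P hP hPe
        have h2 : T * e P ≤ p * e P := mul_le_mul_of_nonneg_right hpT (he0 P hP)
        linarith
    -- the two sections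
    have hsec : ∀ h : K, h ≠ 0 → (∀ P, IsPrimeDivisor y P → -(p * e P + A2 P) ≤ P.ord h) →
        IsSection y n (m0 * p) ((m0 * p) • Δ + 1 • A2) (frm x (m0 * p) (h * f0 ^ p)) := by
      intro h hh0 hh
      refine ⟨frm_pluri _ _ _, fun P hP => ?_⟩
      rw [hc P hP _ _ (frm_pluri _ _ _), frm_self hE]
      right
      rw [P.ord_mul hh0 (pow_ne_zero _ hf00), P.ord_pow, Pi.add_apply, Pi.smul_apply,
        Pi.smul_apply, nsmul_eq_mul, one_nsmul]
      have h1 := hh P hP
      have h2 : (p : ℚ) * e P = p * (m0 * Δ P + m0 * c P + P.ord f0) := by rw [he]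
      push_cast
      nlinarith
    have hω1 := hsec 1 one_ne_zero fun P hP => by
      rw [P.ord_one]
      have h1 := he0 P hP
      have h2 := hA2e.1 P hP
      have h3 : (0 : ℚ) ≤ p := Nat.cast_nonneg _
      have h4 := mul_nonneg h3 h1
      push_cast
      linarith
    have hω2 := hsec g hg0 hgp
    have h1 := hm1 (m0 * p) 1 (by
        have h2 : m1 ≤ p0 := by rw [hp0]; exact (le_max_left _ _).trans (le_max_right _ _)
        have h3 : p ≤ m0 * p := Nat.le_mul_of_pos_left _ (by omega)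
        omega) (by
        have h2 : ⌈1 / t⌉₊ ≤ p0 := by rw [hp0]; exact (le_max_right _ _).trans (le_max_right _ _)
        have h3 : 1 / t ≤ p := (Nat.le_ceil _).trans (by exact_mod_cast h2.trans hpp0)
        rw [div_le_iff₀ ht] at h3
        have h4 : (p : ℝ) ≤ m0 * p := by
          have : (0 : ℝ) ≤ p := Nat.cast_nonneg _
          nlinarith
        push_cast
        nlinarith) u hup
      ![frm x (m0 * p) (1 * f0 ^ p), frm x (m0 * p) (g * f0 ^ p)] E (by
        intro i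
        fin_cases i
        · exact hω1
        · exact hω2) (by
        change frm x (m0 * p) (1 * f0 ^ p) E ≠ 0
        rw [frm_self hE, one_mul]
        exact pow_ne_zero _ hf00)
    have h2 : (fun i : Fin 1 => (![frm x (m0 * p) (1 * f0 ^ p), frm x (m0 * p) (g * f0 ^ p)] :
        Fin 2 → (Fin n → Derivation ℂ K K) → K) i.succ E /
        (![frm x (m0 * p) (1 * f0 ^ p), frm x (m0 * p) (g * f0 ^ p)] :
          Fin 2 → (Fin n → Derivation ℂ K K) → K) 0 E) = fun _ => g := by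
      funext i
      fin_cases i
      change frm x (m0 * p) (g * f0 ^ p) E / frm x (m0 * p) (1 * f0 ^ p) E = g
      rw [frm_self hE, frm_self hE, one_mul, mul_div_cancel_right₀ _ (pow_ne_zero _ hf00)]
    rw [h2] at h1
    have hord : (P1.ord g : ℚ) < 0 := by
      have h3 := hA2e.1 P1 hP1.1
      have h4 : 0 < T * e P1 := mul_pos (by linarith) (hpos P1 hP1.1 hP1.2)
      linarith
    have hord' : P1.ord g < 0 := by exact_mod_cast hord
    have h3 := deg_ge hn hn0 (hui P1 hP1) hord'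
    have h4 : (-(P1.ord g : ℚ) : ℝ) ≤ degreeOver u (fun _ : Fin 1 => g) := by exact_mod_cast h3
    have h5 : ((T * e P1 : ℚ) : ℝ) ≤ (e1 : ℝ) / (4 * m0) * (m0 * p) := by
      have h6 : ((T * e P1 : ℚ) : ℝ) ≤ ((-(P1.ord g : ℚ) : ℚ) : ℝ) := by
        have h7 := hA2e.1 P1 hP1.1
        have : T * e P1 ≤ -(P1.ord g : ℚ) := by linarith
        exact_mod_cast this
      refine h6.trans ?_
      push_cast at h4 h1 ⊢
      rw [pow_one] at h1
      exact h4.trans h1
    have h6 : (e1 : ℝ) / (4 * m0) * (m0 * p) = e1 * p / 4 := by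
      field_simp
    rw [h6] at h5
    have h7 : T * e P1 ≤ e1 * p / 4 := by exact_mod_cast h5
    have h8 : T * e1 ≤ T * e P1 := mul_le_mul_of_nonneg_left (he1' P1 hP1.1 hP1.2) (by linarith)
    have h9 : e1 * p ≤ e1 * (T + 1) := mul_le_mul_of_nonneg_left hpT'.le he1.le
    nlinarith
  -- the bound
  obtain ⟨D, hD⟩ : ∃ D : Place ℂ K → ℚ, ∀ P, D P = p0 * e P + A2 P + |(c P : ℚ)| :=
    ⟨_, fun _ => rfl⟩
  have hDe : Effective y D := by
    constructor
    · intro P hP
      rw [hD]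
      have h1 := he0 P hP
      have h2 := hA2e.1 P hP
      have h3 := abs_nonneg (c P : ℚ)
      positivity
    · refine ((hZ.union hA2e.2).union hcfin).subset ?_
      rintro P ⟨hP, hPe⟩
      by_contra hcon
      simp only [Set.mem_union, Set.mem_ofPred_eq, not_or, not_and, not_not] at hcon
      apply hPe
      rw [hD, hcon.1.1 hP, hcon.1.2 hP, hcon.2 hP]
      simp
  have hzero : Effective y (0 : Place ℂ K → ℚ) :=
    ⟨fun _ _ => le_rfl, Set.finite_empty.subset (by rintro P ⟨-, h⟩; exact h rfl)⟩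
  obtain ⟨C, hC⟩ := sec_growth hy hn hzero hDe E
  refine ⟨C, fun m hm r f hf hsec => ?_⟩
  obtain ⟨q, hq⟩ : ∃ q, q = m / m0 := ⟨_, rfl⟩
  obtain ⟨r0, hr0⟩ : ∃ r0, r0 = m % m0 := ⟨_, rfl⟩
  have hmq : m = m0 * q + r0 := by
    rw [hq, hr0]
    exact (Nat.div_add_mod m m0).symm
  have hr0m : r0 < m0 := by
    rw [hr0]
    exact Nat.mod_lt _ (by omega)
  have h1 := hC 1 le_rfl r (fun i => (f0 ^ q)⁻¹ * f i) (by
      have h3 := hf.map' (LinearMap.mulLeft ℂ (f0 ^ q)⁻¹) (by
        rw [LinearMap.ker_eq_bot]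
        exact fun a b hab => mul_left_cancel₀ (inv_ne_zero (pow_ne_zero _ hf00)) hab)
      exact h3) (fun i => by
      obtain ⟨ω, hω, hωf⟩ := hsec i
      refine ⟨frm x 1 ((f0 ^ q)⁻¹ * f i), ⟨frm_pluri _ _ _, fun P hP => ?_⟩, frm_self hE _ _⟩
      rw [hc P hP _ _ (frm_pluri _ _ _), frm_self hE]
      have h4 := key q ((f0 ^ q)⁻¹ * f i) (fun P hP => by
        by_cases hfi : f i = 0
        · left
          rw [hfi, mul_zero]
        right
        have h5 := ((hc P hP m ω hω.1 _).1 (hω.2 P hP)).resolve_left (by rwa [hωf])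
        rw [hωf, Pi.add_apply, Pi.smul_apply, nsmul_eq_mul] at h5
        rw [P.ord_mul (inv_ne_zero (pow_ne_zero _ hf00)) hfi, P.ord_inv, P.ord_pow]
        have h6 : (m : ℚ) = m0 * q + r0 := by exact_mod_cast hmq
        have h7 : (r0 : ℚ) ≤ m0 := by exact_mod_cast hr0m.le
        have h8 := hΔ.1 P hP
        have h9 := le_abs_self (c P : ℚ)
        have h10 : (r0 : ℚ) * (Δ P + |(c P : ℚ)|) ≤ m0 * (Δ P + |(c P : ℚ)|) :=
          mul_le_mul_of_nonneg_right h7 (by positivity)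
        have h11 : (0 : ℚ) ≤ r0 := Nat.cast_nonneg _
        have h12 := mul_le_mul_of_nonneg_left h9 h11
        rw [hA2, he]
        rw [h6] at h5
        push_cast
        nlinarith) P hP
      rcases h4 with h4 | h4
      · exact Or.inl h4
      right
      have h5 := neg_abs_le (c P : ℚ)
      rw [Pi.add_apply, Pi.smul_apply, Pi.zero_apply, smul_zero, zero_add, hD]
      push_cast
      linarith)
  rw [one_pow, mul_one] at h1
  rwa [pow_zero, mul_one]

/-- **Abundance for numerical dimension zero.** -/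
theorem abundance_zero (hy : NormalModel y) (hn : Algebra.trdeg ℂ K = n) (hn0 : 0 < n)
    {Δ : Place ℂ K → ℚ} (hΔ : Effective y Δ) (hnum : NumDimLt y n Δ 1) {m0 : ℕ} (hm0 : 1 ≤ m0)
    {η : (Fin n → Derivation ℂ K K) → K} (hη : IsSection y n m0 (m0 • Δ) η) (hη0 : η ≠ 0) :
    kodairaDim y n Δ = ((0 : ℕ) : WithBot ℕ) ∧
      ∀ A, Effective y A → Integral y A → numericalDim y n Δ A = ((0 : ℕ) : EReal) := by
  have hess := hy.ess
  obtain ⟨x, E, hx, hE⟩ := exists_crd hn (k := ℂ) (K := K)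
  have hfr : IsFrame E := fun F => ⟨fun j => F (x j),
    (Pool.Agent.W73.PG.PULL.expand x hx E hE F).symm⟩
  have hηE : η E ≠ 0 := fun h0 => hη0 (pluri_zero hfr hη.1 h0)
  refine dims (k := 0) hΔ hfr (fun A hA => bounded_sections hy hn hn0 hΔ hnum hm0 hη hη0 hx hE hA)
    hm0 (ω := fun _ => η) (fun _ => hη) (E := E) hηE ?_
  rw [algebraicIndependent_empty_type_iff]
  exact FaithfulSMul.algebraMap_injective ℂ K

end

end Pool.Agent.R887
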