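import Pool.Agent.R887.Low

/-!
Linear systems on curves over a function field: the degree of a divisor which is generated by its
sections, and integrality.
-/

set_option autoImplicit false
set_option linter.overlappingInstances false
set_option linter.unusedSectionVars false

open FF Module MvPolynomial Pool.Agent.W602.GT
open Pool.Agent.Y172
open scoped IntermediateField

namespace Pool.Agent.R887

section

variable {K : Type} [Field K] [Algebra ℂ K]

/-- a place over a subfield as a place over `ℂ` -/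
def dnp {F : IntermediateField ℂ K} (Q : Place F K) : Place ℂ K where
  ord := Q.ord
  ord_zero := Q.ord_zero
  ord_mul := Q.ord_mul
  ord_add := Q.ord_add
  ord_const := fun {c} hc => Q.ord_const (c := algebraMap ℂ F c) (by rwa [Ne, map_eq_zero])
  surj := Q.surj

theorem dnp_divisorial {n : ℕ} {u : Fin (n - 1) → K} (hu : AlgebraicIndependent ℂ u)
    (Q : Place (IntermediateField.adjoin ℂ (Set.range u)) K) : Divisorial n (dnp Q) := by
  refine ⟨u, fun P hP => ?_⟩
  have h1 : aeval u P ≠ 0 := fun h0 => hP ((injective_iff_map_eq_zero _).1 hu P h0)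
  refine ⟨h1, ?_⟩
  have h2 : aeval u P ∈ IntermediateField.adjoin ℂ (Set.range u) := by
    apply IntermediateField.algebra_adjoin_le_adjoin ℂ (Set.range u)
    rw [Algebra.adjoin_range_eq_range_aeval]
    exact ⟨P, rfl⟩
  exact Q.ord_const (c := ⟨aeval u P, h2⟩) fun h0 => h1 (congrArg Subtype.val h0)

theorem degOver_simple {l : ℕ} (u : Fin l → K) (g : K) :
    degreeOver u (fun _ : Fin 1 => g) =
      finrank (IntermediateField.adjoin (IntermediateField.adjoin ℂ (Set.range u)) {g}) K := by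
  unfold degreeOver
  rw [Set.range_const, ← IntermediateField.adjoin_adjoin_left]
  rfl

variable {F : IntermediateField ℂ K} [IsFF F K]

theorem gap_sum (W : Submodule ℂ K) (G : Place F K → ℤ)
    (hlow : ∀ f ∈ W, f ≠ 0 → ∀ Q : Place F K, G Q ≤ Q.ord f)
    (hgen : ∀ Q : Place F K, ∃ f ∈ W, f ≠ 0 ∧ Q.ord f = G Q) {B : ℝ} (hB0 : 0 ≤ B)
    (hB : ∀ f ∈ W, ∀ f' ∈ W, f ≠ 0 → Transcendental F (f' / f) →
      (finrank F⟮f' / f⟯ K : ℝ) ≤ B) {f0 : K} (hf0 : f0 ∈ W) (h0 : f0 ≠ 0) :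
    {Q : Place F K | Q.ord f0 - G Q ≠ 0}.Finite ∧
      ∀ E : Place F K →₀ ℤ, (∀ Q, E Q = Q.ord f0 - G Q) → (ddeg E : ℝ) ≤ B := by
  classical
  have key : ∀ (Z : Finset (Place F K)) (E : Place F K →₀ ℤ),
      (∀ Q, E Q = if Q ∈ Z then Q.ord f0 - G Q else 0) → (ddeg E : ℝ) ≤ B := by
    intro Z E hE
    choose fQ hfW hfn hfo using hgen
    obtain ⟨v, hv, hv0, hvo⟩ := exists_generic (k₀ := ℂ) (k := F)
      (S := ((insert f0 (Z.image fQ) : Finset K) : Set K)) (Finset.finite_toSet _)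
      (Z : Set (Place F K)) (Finset.finite_toSet _) ⟨f0, by simp, h0⟩
    have hvW : v ∈ W := by
      refine (Submodule.span_le.2 ?_) hv
      intro s hs
      rw [Finset.mem_coe, Finset.mem_insert, Finset.mem_image] at hs
      rcases hs with rfl | ⟨Q, -, rfl⟩
      · exact hf0
      · exact hfW Q
    have hvG : ∀ Q ∈ Z, Q.ord v ≤ G Q := by
      intro Q hQ
      rw [← hfo Q]
      refine hvo Q (Finset.mem_coe.2 hQ) (fQ Q) ?_ (hfn Q)
      rw [Finset.mem_coe, Finset.mem_insert]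
      exact Or.inr (Finset.mem_image_of_mem _ hQ)
    by_cases htr : Transcendental F (v / f0)
    · have h1 := ddeg_polar (k := F) htr
      have h2 : E ≤ polar (k := F) (v / f0) := by
        intro Q
        rw [hE Q, polar_apply, Q.ord_div hv0 h0]
        split_ifs with hQ
        · have := hvG Q hQ
          refine le_trans ?_ (le_max_left _ _)
          omega
        · exact le_max_right _ _
      have h3 := ddeg_mono h2
      rw [h1] at h3
      have h4 := hB f0 hf0 v hvW h0 htr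
      have h5 : (ddeg E : ℝ) ≤ ((finrank F⟮v / f0⟯ K : ℤ) : ℝ) := by exact_mod_cast h3
      have h6 : ((finrank F⟮v / f0⟯ K : ℤ) : ℝ) = (finrank F⟮v / f0⟯ K : ℝ) := by norm_cast
      rw [h6] at h5
      exact h5.trans h4
    · have halg : IsAlgebraic F (v / f0) := by
        rwa [Transcendental, not_not] at htr
      have h2 : E ≤ 0 := by
        intro Q
        rw [hE Q, Finsupp.zero_apply]
        split_ifs with hQ
        · have h3 := Q.ord_eq_zero_of_isAlgebraic (div_ne_zero hv0 h0) halg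
          rw [Q.ord_div hv0 h0] at h3
          have := hvG Q hQ
          omega
        · exact le_rfl
      have h3 := ddeg_mono h2
      rw [ddeg_zero] at h3
      have h4 : (ddeg E : ℝ) ≤ 0 := by exact_mod_cast h3
      linarith
  constructor
  · by_contra hinf
    obtain ⟨Z, hZ, hcard⟩ := Set.Infinite.exists_subset_card_eq hinf (⌈B⌉₊ + 1)
    have h1 := key Z (Finsupp.onFinset Z (fun Q => if Q ∈ Z then Q.ord f0 - G Q else 0)
      fun Q hQ => by
        by_contra hc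
        exact hQ (if_neg hc)) fun Q => rfl
    have h2 : Finsupp.onFinset Z (fun Q : Place F K => if Q ∈ Z then (1 : ℤ) else 0)
        (fun Q hQ => by
          by_contra hc
          exact hQ (if_neg hc)) ≤
        Finsupp.onFinset Z (fun Q => if Q ∈ Z then Q.ord f0 - G Q else 0)
        (fun Q hQ => by
          by_contra hc
          exact hQ (if_neg hc)) := by
      intro Q
      change (if Q ∈ Z then (1 : ℤ) else 0) ≤ if Q ∈ Z then Q.ord f0 - G Q else 0
      split_ifs with hQ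
      · have h3 := hlow f0 hf0 h0 Q
        have h4 : Q.ord f0 - G Q ≠ 0 := hZ (Finset.mem_coe.2 hQ)
        omega
      · exact le_rfl
    have h3 := ddeg_mono h2
    have h4 : (Z.card : ℤ) ≤ ddeg (Finsupp.onFinset Z (fun Q : Place F K =>
        if Q ∈ Z then (1 : ℤ) else 0) (fun Q hQ => by
          by_contra hc
          exact hQ (if_neg hc))) := by
      unfold ddeg
      rw [Finsupp.sum_of_support_subset (s := Z) _ Finsupp.support_onFinset_subset _
        (fun Q _ => by simp), Finset.card_eq_sum_ones, Nat.cast_sum]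
      refine Finset.sum_le_sum fun Q hQ => ?_
      have h5 := Q.deg_pos
      change ((1 : ℕ) : ℤ) ≤ (if Q ∈ Z then (1 : ℤ) else 0) * Q.deg
      rw [if_pos hQ, one_mul]
      exact_mod_cast h5
    have h5 : ((Z.card : ℤ) : ℝ) ≤ B := by
      refine le_trans ?_ h1
      exact_mod_cast h4.trans h3
    rw [hcard] at h5
    push_cast at h5
    have := Nat.le_ceil B
    linarith
  · intro E hE
    refine key E.support E fun Q => ?_
    split_ifs with hQ
    · exact hE Q
    · exact Finsupp.notMem_support_iff.1 hQ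

/-- **Integrality of degrees.** -/
theorem gap_F (e h : Place F K → ℤ) (W : ℕ → ℕ → Submodule ℂ K)
    (hlow : ∀ q m, ∀ f ∈ W q m, f ≠ 0 → ∀ Q : Place F K, (m * q : ℤ) * e Q - m * h Q ≤ Q.ord f)
    (hgood : ∀ q, 1 ≤ q → ∃ m, 1 ≤ m ∧ ∀ Q : Place F K, ∃ f ∈ W q m, f ≠ 0 ∧
      Q.ord f = (m * q : ℤ) * e Q - m * h Q) {a b : ℝ} (ha : a < 1) (ha0 : 0 ≤ a) (hb : 0 ≤ b)
    (hB : ∀ q m, 1 ≤ q → 1 ≤ m → ∀ f ∈ W q m, ∀ f' ∈ W q m, f ≠ 0 → Transcendental F (f' / f) →
      (finrank F⟮f' / f⟯ K : ℝ) ≤ m * (q * a + b)) {q m : ℕ} {f f' : K} (hf : f ∈ W q m)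
    (hf' : f' ∈ W q m) (h0 : f ≠ 0) (h0' : f' ≠ 0) (htr : Transcendental F (f' / f)) :
    (finrank F⟮f' / f⟯ K : ℝ) ≤ m * (a + b) := by
  classical
  have hsum : ∀ q m, 1 ≤ q → 1 ≤ m → (∀ Q : Place F K, ∃ f ∈ W q m, f ≠ 0 ∧
      Q.ord f = (m * q : ℤ) * e Q - m * h Q) → ∀ f0 ∈ W q m, f0 ≠ 0 →
      {Q : Place F K | Q.ord f0 - ((m * q : ℤ) * e Q - m * h Q) ≠ 0}.Finite ∧
      ∀ E : Place F K →₀ ℤ, (∀ Q, E Q = Q.ord f0 - ((m * q : ℤ) * e Q - m * h Q)) →
        (ddeg E : ℝ) ≤ m * (q * a + b) := by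
    intro q m hq hm hg f0 hf0 hf00
    exact gap_sum (W q m) (fun Q => (m * q : ℤ) * e Q - m * h Q) (hlow q m) hg
      (by positivity) (hB q m hq hm) hf0 hf00
  -- finiteness of the supports
  have hfinG : ∀ q m, 1 ≤ q → 1 ≤ m → (∀ Q : Place F K, ∃ f ∈ W q m, f ≠ 0 ∧
      Q.ord f = (m * q : ℤ) * e Q - m * h Q) →
      {Q : Place F K | (m * q : ℤ) * e Q - m * h Q ≠ 0}.Finite := by
    intro q m hq hm hg
    obtain ⟨P0, -⟩ := exists_place (k := F) (K := K)
    obtain ⟨f0, hf0, hf00, -⟩ := hg P0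
    refine ((hsum q m hq hm hg f0 hf0 hf00).1.union (finite_support (k := F) f0)).subset ?_
    intro Q hQ
    change (m * q : ℤ) * e Q - m * h Q ≠ 0 at hQ
    by_contra hc
    rw [Set.mem_union, not_or] at hc
    obtain ⟨h1, h2⟩ := hc
    change ¬ (Q.ord f0 - ((m * q : ℤ) * e Q - m * h Q) ≠ 0) at h1
    change ¬ (Q.ord f0 ≠ 0) at h2
    push Not at h1 h2
    omega
  obtain ⟨m1, hm1, hg1⟩ := hgood 1 le_rfl
  obtain ⟨m2, hm2, hg2⟩ := hgood 2 (by norm_num)
  have hfin1 := hfinG 1 m1 le_rfl hm1 hg1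
  have hfin2 := hfinG 2 m2 (by norm_num) hm2 hg2
  have hm1' : (1 : ℤ) ≤ m1 := by exact_mod_cast hm1
  have hm2' : (1 : ℤ) ≤ m2 := by exact_mod_cast hm2
  have hzero : ∀ Q : Place F K, (m1 * (1 : ℕ) : ℤ) * e Q - m1 * h Q = 0 →
      (m2 * (2 : ℕ) : ℤ) * e Q - m2 * h Q = 0 → e Q = 0 ∧ h Q = 0 := by
    intro Q h1 h2
    have h3 : (m1 : ℤ) * (e Q - h Q) = 0 := by
      push_cast at h1
      linarith
    have h4 : (m2 : ℤ) * (2 * e Q - h Q) = 0 := by
      push_cast at h2
      linarith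
    have h5 := (mul_eq_zero.1 h3).resolve_left (by omega)
    have h6 := (mul_eq_zero.1 h4).resolve_left (by omega)
    omega
  have hfe : {Q : Place F K | e Q ≠ 0}.Finite := by
    refine (hfin1.union hfin2).subset fun Q hQ => ?_
    by_contra hc
    rw [Set.mem_union, not_or] at hc
    obtain ⟨h1, h2⟩ := hc
    change ¬ ((m1 * (1 : ℕ) : ℤ) * e Q - m1 * h Q ≠ 0) at h1
    change ¬ ((m2 * (2 : ℕ) : ℤ) * e Q - m2 * h Q ≠ 0) at h2
    push Not at h1 h2
    exact hQ (hzero Q h1 h2).1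
  have hfh : {Q : Place F K | h Q ≠ 0}.Finite := by
    refine (hfin1.union hfin2).subset fun Q hQ => ?_
    by_contra hc
    rw [Set.mem_union, not_or] at hc
    obtain ⟨h1, h2⟩ := hc
    change ¬ ((m1 * (1 : ℕ) : ℤ) * e Q - m1 * h Q ≠ 0) at h1
    change ¬ ((m2 * (2 : ℕ) : ℤ) * e Q - m2 * h Q ≠ 0) at h2
    push Not at h1 h2
    exact hQ (hzero Q h1 h2).2
  obtain ⟨eF, heF⟩ : ∃ eF : Place F K →₀ ℤ, ∀ Q, eF Q = e Q :=
    ⟨Finsupp.ofSupportFinite e hfe, fun Q => rfl⟩
  obtain ⟨hF, hhF⟩ : ∃ hF : Place F K →₀ ℤ, ∀ Q, hF Q = h Q :=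
    ⟨Finsupp.ofSupportFinite h hfh, fun Q => rfl⟩
  -- the divisor of a section
  have hdiv : ∀ (q m : ℕ) (f0 : K), ∃ E : Place F K →₀ ℤ,
      (∀ Q, E Q = Q.ord f0 - ((m * q : ℤ) * e Q - m * h Q)) ∧
      ddeg E = m * (q * (-ddeg eF) + ddeg hF) := by
    intro q m f0
    refine ⟨divisor F f0 - (m * q) • eF + m • hF, fun Q => ?_, ?_⟩
    · rw [Finsupp.add_apply, Finsupp.sub_apply, Finsupp.smul_apply, Finsupp.smul_apply,
        divisor_apply, heF, hhF, nsmul_eq_mul, nsmul_eq_mul]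
      push_cast
      ring
    · rw [ddeg_add, ddeg_sub, ddeg_nsmul, ddeg_nsmul, ddeg_divisor]
      push_cast
      ring
  have hineq : ∀ q : ℕ, 1 ≤ q → 0 ≤ (q : ℤ) * (-ddeg eF) + ddeg hF ∧
      (((q : ℤ) * (-ddeg eF) + ddeg hF : ℤ) : ℝ) ≤ q * a + b := by
    intro q hq
    obtain ⟨m, hm, hg⟩ := hgood q hq
    obtain ⟨P0, -⟩ := exists_place (k := F) (K := K)
    obtain ⟨f0, hf0, hf00, -⟩ := hg P0
    obtain ⟨E, hE, hdE⟩ := hdiv q m f0
    have h1 := (hsum q m hq hm hg f0 hf0 hf00).2 E hE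
    have h2 : 0 ≤ ddeg E := ddeg_nonneg fun Q => by
      rw [hE, Finsupp.zero_apply]
      have := hlow q m f0 hf0 hf00 Q
      omega
    have hm' : (0 : ℤ) < m := by exact_mod_cast hm
    have hmr : (0 : ℝ) < m := by exact_mod_cast hm
    rw [hdE] at h1 h2
    refine ⟨nonneg_of_mul_nonneg_right h2 hm', ?_⟩
    have h3 : (m : ℝ) * (((q : ℤ) * (-ddeg eF) + ddeg hF : ℤ) : ℝ) ≤ m * (q * a + b) := by
      refine le_trans (le_of_eq ?_) h1
      push_cast
      ring
    exact le_of_mul_le_mul_left h3 hmr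
  have hd0 : -ddeg eF = 0 := by
    have h1 : 0 ≤ -ddeg eF := by
      by_contra hneg
      push Not at hneg
      obtain ⟨q, hq⟩ : ∃ q : ℕ, q = (ddeg hF).toNat + 1 := ⟨_, rfl⟩
      have h2 := (hineq q (by omega)).1
      have h3 : (ddeg hF) < q := by omega
      have h4 : (q : ℤ) * (-ddeg eF) ≤ q * (-1) :=
        mul_le_mul_of_nonneg_left (by omega) (Int.natCast_nonneg q)
      omega
    by_contra hne
    have h2 : 1 ≤ -ddeg eF := by omega
    have hs : 0 < 1 - a := by linarith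
    obtain ⟨q, hq⟩ := exists_nat_gt ((b - ddeg hF) / (1 - a))
    rw [div_lt_iff₀ hs] at hq
    have h3 := (hineq (q + 1) (by omega)).2
    push_cast at h3
    have h4 : (1 : ℝ) ≤ -(ddeg eF : ℝ) := by exact_mod_cast h2
    have h5 : (0 : ℝ) ≤ (q : ℝ) + 1 := by positivity
    have h6 := mul_le_mul_of_nonneg_left h4 h5
    nlinarith
  -- the conclusion
  obtain ⟨E, hE, hdE⟩ := hdiv q m f
  rw [hd0, mul_zero, zero_add] at hdE
  have h1 := (hineq 1 le_rfl).2
  rw [hd0, mul_zero, zero_add] at h1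
  have h2 : polar (k := F) (f' / f) ≤ E := by
    intro Q
    rw [polar_apply, hE, Q.ord_div h0' h0]
    have h3 := hlow q m f hf h0 Q
    have h4 := hlow q m f' hf' h0' Q
    refine max_le ?_ ?_ <;> omega
  have h3 := ddeg_mono h2
  rw [ddeg_polar htr, hdE] at h3
  have h4 : (finrank F⟮f' / f⟯ K : ℝ) ≤ (m : ℝ) * (ddeg hF : ℝ) := by exact_mod_cast h3
  refine h4.trans (mul_le_mul_of_nonneg_left ?_ (Nat.cast_nonneg m))
  push_cast at h1
  linarith

end

end Pool.Agent.R887
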