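import Pool.Agent.R887.GapA
import Pool.Agent.R887.GapB
import Pool.Agent.R887.CorG

/-!
**Gap.** If `K_X + Δ` is nef, `r (K_X + Δ)` is Cartier, and the degrees of the maps given by sections
grow slowly enough, then `K_X + Δ` is numerically trivial.
-/

set_option autoImplicit false
set_option linter.overlappingInstances false
set_option linter.unusedSectionVars false

open FF Module MvPolynomial Pool.Agent.W602.GT Pool.Agent.W603.LV Pool.Agent.W619.PQ
open Pool.Agent.Y172 Pool.Agent.Y191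
open scoped IntermediateField

namespace Pool.Agent.R887

section

variable {K : Type} [Field K] [Algebra ℂ K] {N : ℕ} {y : Fin (N + 1) → K} {n : ℕ}

/-- the values of the sections on a frame -/
noncomputable def valSub (y : Fin (N + 1) → K) (n m : ℕ) (D : Place ℂ K → ℚ)
    (E : Fin n → Derivation ℂ K K) : Submodule ℂ K :=
  (secSub y n m D).map (LinearMap.proj (R := ℂ) (φ := fun _ : Fin n → Derivation ℂ K K => K) E)

theorem mem_valSub {m : ℕ} {D : Place ℂ K → ℚ} {E : Fin n → Derivation ℂ K K} {f : K} :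
    f ∈ valSub y n m D E ↔ ∃ ω, IsSection y n m D ω ∧ ω E = f := Iff.rfl

theorem twist_of_section {i : Fin (N + 1)} {A Δ : Place ℂ K → ℚ}
    (hAP : ∀ P l, IsPrimeDivisor y P → Centred y l P → A P = P.ord (y i / y l)) {a m : ℕ}
    {ω : (Fin n → Derivation ℂ K K) → K} (h : IsSection y n a (a • Δ + m • A) ω) :
    IsTwistedSectionP y i n Δ a m ω := by
  refine ⟨h.1, fun P l hP hl => ?_⟩
  have h2 := h.2 P hP
  rw [Pi.add_apply, Pi.smul_apply, Pi.smul_apply, nsmul_eq_mul, nsmul_eq_mul, neg_add,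
    ← sub_eq_add_neg, hAP P l hP hl] at h2
  exact h2

theorem section_of_twist (hy : NormalModel y) {i : Fin (N + 1)} {A Δ : Place ℂ K → ℚ}
    (hAP : ∀ P l, IsPrimeDivisor y P → Centred y l P → A P = P.ord (y i / y l)) {a m : ℕ}
    {ω : (Fin n → Derivation ℂ K K) → K} (h : IsTwistedSectionP y i n Δ a m ω) :
    IsSection y n a (a • Δ + m • A) ω := by
  refine ⟨h.1, fun P hP => ?_⟩
  obtain ⟨l, hl⟩ := exists_centred hy P
  have h2 := h.2 P l hP hl
  rw [Pi.add_apply, Pi.smul_apply, Pi.smul_apply, nsmul_eq_mul, nsmul_eq_mul, neg_add,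
    ← sub_eq_add_neg, hAP P l hP hl]
  exact h2

/-- the degrees of the maps given by the sections of `m (r q (K_X + Δ) + H)` -/
theorem gap_u (hy : NormalModel y) (hn : Algebra.trdeg ℂ K = n) (hn0 : 0 < n)
    {Δ : Place ℂ K → ℚ} {r : ℕ} (hr : 1 ≤ r) (hcar : CartierIndex y n Δ r)
    (hnef : LogNef y n Δ) {i : Fin (N + 1)} (hi : y i ≠ 0) {A : Place ℂ K → ℚ}
    (hAP : ∀ P l, IsPrimeDivisor y P → Centred y l P → A P = P.ord (y i / y l)) {c : ℝ}
    (hc0 : 0 ≤ c) {M β C : ℕ} {u : Fin (n - 1) → K} (hb : ∀ m b : ℕ, 1 ≤ m →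
      ∀ (ω : Fin (1 + 1) → (Fin n → Derivation ℂ K K) → K) (E : Fin n → Derivation ℂ K K),
        (∀ i, IsSection y n m (m • Δ + b • A) (ω i)) → ω 0 E ≠ 0 →
        (degreeOver u (fun i : Fin 1 => ω i.succ E / ω 0 E) : ℝ) ≤
          c * (m * M + b * β + C) ^ 1) (hlt : c * M * r < 1) {q m : ℕ}
    {ω ω' : (Fin n → Derivation ℂ K K) → K} {E : Fin n → Derivation ℂ K K}
    (hω : IsSection y n (m * (r * q)) ((m * (r * q)) • Δ + m • A) ω)
    (hω' : IsSection y n (m * (r * q)) ((m * (r * q)) • Δ + m • A) ω') (h0 : ω E ≠ 0) :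
    (degreeOver u (fun _ : Fin 1 => ω' E / ω E) : ℝ) ≤ m * (c * M * r + c * (β + C)) := by
  classical
  have hess := hy.ess
  have hnn : (0 : ℝ) ≤ c * M * r + c * (β + C) := by positivity
  by_cases hd : degreeOver u (fun _ : Fin 1 => ω' E / ω E) = 0
  · rw [hd]
    push_cast
    positivity
  obtain ⟨x, D, hx, hD⟩ := exists_crd hn (k := ℂ) (K := K)
  have hfr : IsFrame D := fun F => ⟨fun j => F (x j),
    (Pool.Agent.W73.PG.PULL.expand x hx D hD F).symm⟩
  obtain ⟨hD0, hrat⟩ := ratio_frame hfr hω.1 hω'.1 h0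
  rw [hrat] at hd ⊢
  obtain ⟨g, hg⟩ : ∃ g, g = ω' D / ω D := ⟨_, rfl⟩
  rw [← hg] at hd
  rw [← hg]
  have hcard : Nat.card (Fin (n - 1) ⊕ Fin 1) = n := by
    rw [Nat.card_eq_fintype_card, Fintype.card_sum, Fintype.card_fin, Fintype.card_fin]
    omega
  have hd' := hd
  rw [degreeOver_eq] at hd'
  have hbas := basis_of_dg (k := ℂ) (w := Sum.elim u fun _ : Fin 1 => g) (by rw [hn, hcard]) hd'
  have hu : AlgebraicIndependent ℂ u := by
    have h1 := hbas.1.comp Sum.inl Sum.inl_injective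
    exact h1
  have htr : Transcendental (IntermediateField.adjoin ℂ (Set.range u)) g := by
    have h1 := transc_of_basis (k := ℂ) (K := K) hbas.1 (s := Set.range Sum.inl)
      (i := Sum.inr 0) (by simp)
    have h2 : (Sum.elim u fun _ : Fin 1 => g) '' Set.range Sum.inl = Set.range u := by
      rw [← Set.range_comp]
      rfl
    rw [h2] at h1
    exact h1
  rw [degOver_simple] at hd ⊢
  have hfin : FiniteDimensional
      (IntermediateField.adjoin (IntermediateField.adjoin ℂ (Set.range u)) {g}) K :=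
    FiniteDimensional.of_finrank_pos (Nat.pos_of_ne_zero hd)
  have : IsFF (IntermediateField.adjoin ℂ (Set.range u)) K := IsFF.of_finite htr hfin
  choose e h hloc using fun Q : Place (IntermediateField.adjoin ℂ (Set.range u)) K =>
    exists_local hy hn hfr hx hD hcar hi (dnp Q) (dnp_divisorial hu Q)
  have hg0 : ω' D ≠ 0 := by
    intro h1
    rw [hg, h1, zero_div] at htr
    exact htr (isAlgebraic_zero)
  have key := gap_F (F := IntermediateField.adjoin ℂ (Set.range u)) e h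
    (fun q m => valSub y n (m * (r * q)) ((m * (r * q)) • Δ + m • A) D) (by
      rintro q m f ⟨η, hη, rfl⟩ hf0 Q
      exact (hloc Q m q η (twist_of_section hAP hη)).1 hf0) (by
      intro q hq
      obtain ⟨m, hm, hgen⟩ := hnef i hi (r * q) (Nat.mul_pos hr hq)
      refine ⟨m, hm, fun Q => ?_⟩
      obtain ⟨η, hη, hηg⟩ := hgen (dnp Q) (dnp_divisorial hu Q)
      obtain ⟨h1, h2⟩ := (hloc Q m q η hη).2 hηg
      exact ⟨η D, ⟨η, section_of_twist hy hAP hη, rfl⟩, h1, h2⟩) (a := c * M * r)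
      (b := c * (β + C)) hlt (by positivity) (by positivity) (by
      rintro q m hq hm f ⟨η, hη, rfl⟩ f' ⟨η', hη', rfl⟩ hf0 htr'
      have h1 := hb (m * (r * q)) m (Nat.mul_pos hm (Nat.mul_pos hr hq)) ![η, η'] D (by
        intro a
        fin_cases a
        · exact hη
        · exact hη') hf0
      have h2 : (fun a : Fin 1 => (![η, η'] : Fin 2 → (Fin n → Derivation ℂ K K) → K) a.succ D /
          (![η, η'] : Fin 2 → (Fin n → Derivation ℂ K K) → K) 0 D) = fun _ => η' D / η D := by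
        funext a
        fin_cases a
        rfl
      rw [h2, degOver_simple, pow_one] at h1
      refine le_trans h1 ?_
      have hm1 : (1 : ℝ) ≤ m := by exact_mod_cast hm
      have h3 : c * (C : ℝ) ≤ m * (c * C) := by
        have h4 : 0 ≤ c * (C : ℝ) := by positivity
        nlinarith
      push_cast
      nlinarith) (q := q) (m := m) (f := ω D) (f' := ω' D) ⟨ω, hω, rfl⟩ ⟨ω', hω', rfl⟩ hD0 hg0 (by
      rw [← hg]
      exact htr)
  rw [← hg] at key
  exact key

/-- an effective divisor is dominated by a multiple of a hyperplane section, up to a function -/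
theorem dominate (hy : NormalModel y) {A' A : Place ℂ K → ℚ} (hA' : Effective y A')
    {i : Fin (N + 1)} (hi : y i ≠ 0) (hA : Effective y A)
    (hAP : ∀ P l, IsPrimeDivisor y P → Centred y l P → A P = P.ord (y i / y l)) :
    ∃ (f : K) (s : ℕ), f ≠ 0 ∧ ∀ P, IsPrimeDivisor y P → A' P ≤ P.ord f + s * A P := by
  classical
  obtain ⟨Z, hZ⟩ : ∃ Z : Finset (Place ℂ K), ∀ P, P ∈ Z ↔ IsPrimeDivisor y P ∧ A' P ≠ 0 :=
    ⟨hA'.2.toFinset, fun P => by rw [Set.Finite.mem_toFinset]; rfl⟩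
  have hg : ∀ P : Place ℂ K, ∃ g : K, g ≠ 0 ∧ g ∈ chart y i ∧ (IsPrimeDivisor y P →
      Centred y i P → 1 ≤ P.ord g) := by
    intro P
    by_cases hP : IsPrimeDivisor y P ∧ Centred y i P
    · obtain ⟨hP1, hP2⟩ := hP
      obtain ⟨π, hπ0, hπ⟩ := P.surj
      obtain ⟨a, ha, b, hb, hb0, hbo, hab⟩ := (mem_localRing hP2).1
        (hP1 π (Or.inr (by rw [hπ]; norm_num)))
      refine ⟨a, by rw [← hab]; exact mul_ne_zero hπ0 hb0, ha, fun _ _ => ?_⟩
      rw [← hab, P.ord_mul hπ0 hb0, hπ, hbo]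
      norm_num
    · exact ⟨1, one_ne_zero, (chart y i).one_mem, fun h1 h2 => absurd ⟨h1, h2⟩ hP⟩
  choose g hg0 hgc hgo using hg
  obtain ⟨T, hT⟩ : ∃ T : ℕ, ∀ P, IsPrimeDivisor y P → A' P ≤ T := by
    obtain ⟨T, hT⟩ : ∃ T : ℕ, T = ∑ P ∈ Z, ⌈A' P⌉.toNat := ⟨_, rfl⟩
    refine ⟨T, fun P hP => ?_⟩
    by_cases h0 : A' P = 0
    · rw [h0]
      positivity
    · have h1 : P ∈ Z := (hZ P).2 ⟨hP, h0⟩
      have h2 : ⌈A' P⌉.toNat ≤ T := by
        rw [hT]
        exact Finset.single_le_sum (f := fun P : Place ℂ K => ⌈A' P⌉.toNat)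
          (fun _ _ => Nat.zero_le _) h1
      have h3 : A' P ≤ ⌈A' P⌉ := Int.le_ceil _
      have h4 : ⌈A' P⌉ ≤ (⌈A' P⌉.toNat : ℤ) := Int.self_le_toNat _
      have h5 : ((⌈A' P⌉ : ℤ) : ℚ) ≤ ((⌈A' P⌉.toNat : ℤ) : ℚ) := by exact_mod_cast h4
      have h6 : (((⌈A' P⌉.toNat : ℕ) : ℤ) : ℚ) ≤ (T : ℚ) := by exact_mod_cast h2
      linarith
  obtain ⟨F, hF⟩ : ∃ F, F = (∏ P ∈ Z, g P) ^ T := ⟨_, rfl⟩
  have hprod0 : (∏ P ∈ Z, g P) ≠ 0 := Finset.prod_ne_zero_iff.2 fun P _ => hg0 P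
  have hF0 : F ≠ 0 := by
    rw [hF]
    exact pow_ne_zero _ hprod0
  have hFc : F ∈ chart y i := by
    rw [hF]
    exact (chart y i).pow_mem ((chart y i).prod_mem fun P _ => hgc P) _
  have hk : ∀ l, ∃ k : ℕ, y l ≠ 0 → F * (y i / y l) ^ k ∈ chart y l := by
    intro l
    by_cases hl : y l = 0
    · exact ⟨0, fun h => absurd hl h⟩
    · obtain ⟨k, hk⟩ := chart_change hl hi hFc
      exact ⟨k, fun _ => hk⟩
  choose k hk using hk
  obtain ⟨d, hd⟩ : ∃ d, d = ∑ l, k l := ⟨_, rfl⟩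
  have hpole : ∀ P, IsPrimeDivisor y P → 0 ≤ (P.ord F : ℚ) + d * A P := by
    intro P hP
    obtain ⟨l, hl⟩ := exists_centred hy P
    have h1 := hl.reg _ (hk l hl.1)
    have hyl : y i / y l ≠ 0 := div_ne_zero hi hl.1
    have h2 := (P.reg_iff (mul_ne_zero hF0 (pow_ne_zero _ hyl))).1 h1
    rw [P.ord_mul hF0 (pow_ne_zero _ hyl), P.ord_pow] at h2
    have h3 := (P.reg_iff hyl).1 (hl.2 i)
    have h4 : k l ≤ d := by
      rw [hd]
      exact Finset.single_le_sum (fun _ _ => Nat.zero_le _) (Finset.mem_univ l)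
    rw [hAP P l hP hl]
    have h5 : (k l : ℤ) * P.ord (y i / y l) ≤ d * P.ord (y i / y l) :=
      mul_le_mul_of_nonneg_right (by exact_mod_cast h4) h3
    have h6 : 0 ≤ P.ord F + d * P.ord (y i / y l) := by linarith
    exact_mod_cast h6
  refine ⟨F, d + T, hF0, fun P hP => ?_⟩
  have hA0 := hA.1 P hP
  have hT0 : (0 : ℚ) ≤ T := Nat.cast_nonneg _
  have h1 := hpole P hP
  push_cast
  by_cases h0 : A' P = 0
  · rw [h0]
    have := mul_nonneg hT0 hA0
    nlinarith
  have hPZ : P ∈ Z := (hZ P).2 ⟨hP, h0⟩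
  by_cases hPc : Centred y i P
  · have h2 : (T : ℤ) ≤ P.ord F := by
      rw [hF, P.ord_pow]
      have h3 : 1 ≤ P.ord (∏ P ∈ Z, g P) := by
        rw [← Finset.mul_prod_erase Z g hPZ, P.ord_mul (hg0 P)
          (Finset.prod_ne_zero_iff.2 fun P _ => hg0 P)]
        have h4 := hgo P hP hPc
        have h5 : (∏ x ∈ Z.erase P, g x) ∈ chart y i :=
          (chart y i).prod_mem fun P _ => hgc P
        have h6 := (P.reg_iff (Finset.prod_ne_zero_iff.2 fun P _ => hg0 P)).1 (hPc.reg _ h5)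
        omega
      have h7 : (0 : ℤ) ≤ T := Int.natCast_nonneg _
      nlinarith
    have h3 : (T : ℚ) ≤ P.ord F := by exact_mod_cast h2
    have h4 := hT P hP
    have h5 : (0 : ℚ) ≤ d := Nat.cast_nonneg _
    nlinarith [mul_nonneg h5 hA0, mul_nonneg hT0 hA0]
  · have h2 : (1 : ℚ) ≤ A P := by
      obtain ⟨l, hl⟩ := exists_centred hy P
      rw [hAP P l hP hl]
      have hyl : y i / y l ≠ 0 := div_ne_zero hi hl.1
      have h3 := (P.reg_iff hyl).1 (hl.2 i)
      have h4 : P.ord (y i / y l) ≠ 0 := by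
        intro h5
        apply hPc
        refine ⟨hi, fun j => ?_⟩
        have h6 : y j / y i = (y j / y l) * (y i / y l)⁻¹ := by
          rw [inv_div]
          field_simp [hl.1, hi]
        rw [h6]
        refine P.reg_mul (hl.2 j) (Or.inr ?_)
        rw [P.ord_inv, h5, neg_zero]
      have h5 : 1 ≤ P.ord (y i / y l) := by omega
      exact_mod_cast h5
    have h4 := hT P hP
    have h5 := mul_le_mul_of_nonneg_left h2 hT0
    nlinarith

/-- **Gap.** -/
theorem gap (hy : NormalModel y) (hn : Algebra.trdeg ℂ K = n) (hn0 : 0 < n)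
    {Δ : Place ℂ K → ℚ} {r : ℕ} (hr : 1 ≤ r) (hcar : CartierIndex y n Δ r)
    (hnef : LogNef y n Δ) {c : ℝ} (hc0 : 0 ≤ c) {M : ℕ}
    (hnum : ∀ A : Place ℂ K → ℚ, Effective y A → ∃ β C : ℕ, ∀ m b : ℕ, 1 ≤ m →
      ∀ u : Fin (n - 1) → K, (∀ a, IsPencil y (u a)) →
      ∀ (ω : Fin (1 + 1) → (Fin n → Derivation ℂ K K) → K) (E : Fin n → Derivation ℂ K K),
        (∀ i, IsSection y n m (m • Δ + b • A) (ω i)) → ω 0 E ≠ 0 →
        (degreeOver u (fun i : Fin 1 => ω i.succ E / ω 0 E) : ℝ) ≤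
          c * (m * M + b * β + C) ^ 1) (hlt : c * M * r < 1) : NumDimLt y n Δ 1 := by
  classical
  have hess := hy.ess
  obtain ⟨i, hi⟩ := hy.ne
  obtain ⟨A, hA, hAP⟩ := exists_hyp hy hi
  obtain ⟨β, C, hβ⟩ := hnum A hA
  intro A' hA' ε hε
  obtain ⟨f, s, hf0, hfs⟩ := dominate hy hA' hi hA hAP
  obtain ⟨B, hB⟩ : ∃ B : ℝ, B = c * M * r + c * (β + C) := ⟨_, rfl⟩
  have hB0 : 0 ≤ B := by
    rw [hB]
    positivity
  have hrr : (1 : ℝ) ≤ r := by exact_mod_cast hr
  obtain ⟨q, hq1, hq⟩ : ∃ q : ℕ, 1 ≤ q ∧ B ≤ ε * (r * q) := by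
    refine ⟨⌈B / ε⌉₊ + 1, by omega, ?_⟩
    have h1 := Nat.le_ceil (B / ε)
    rw [div_le_iff₀ hε] at h1
    push_cast
    have h2 : (0 : ℝ) ≤ (⌈B / ε⌉₊ : ℝ) := Nat.cast_nonneg _
    have h3 : (⌈B / ε⌉₊ : ℝ) ≤ r * ((⌈B / ε⌉₊ : ℝ) + 1) := by nlinarith
    have h4 := mul_le_mul_of_nonneg_left h3 hε.le
    linarith
  have hqr : (1 : ℝ) ≤ q := by exact_mod_cast hq1
  refine ⟨1 / (r * q * (s + 1)), by positivity, 1, fun m b hm hb u hu ω E hω h0 => ?_⟩
  have hbs : r * q * (b * s) ≤ m := by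
    have h1 : (b : ℝ) * (r * q * (s + 1)) ≤ m := by
      have h2 : (0 : ℝ) < r * q * (s + 1) := by positivity
      have h3 := mul_le_mul_of_nonneg_right hb h2.le
      have h4 : 1 / (r * q * ((s : ℝ) + 1)) * m * (r * q * (s + 1)) = m := by field_simp
      linarith
    have h2 : ((r * q * (b * s) : ℕ) : ℝ) ≤ m := by
      push_cast
      have h3 : (0 : ℝ) ≤ b * (r * q) := by positivity
      nlinarith
    exact_mod_cast h2
  -- the new sections
  have hsec : ∀ a, IsSection y n (m * (r * q)) ((m * (r * q)) • Δ + m • A)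
      (fun D => (f ^ b * ω a D) ^ (r * q)) := by
    intro a
    have h1 : IsSection y n m (m • Δ + (b * s) • A) (fun D => f ^ b * ω a D) := by
      refine ⟨fun M' D => ?_, fun P hP D hD => ?_⟩
      · simp only []
        rw [(hω a).1 M' D]
        ring
      · rcases (hω a).2 P hP D hD with h2 | h2
        · left
          change f ^ b * ω a D = 0
          rw [h2, mul_zero]
        by_cases h3 : ω a D = 0
        · left
          change f ^ b * ω a D = 0
          rw [h3, mul_zero]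
        right
        change _ ≤ (P.ord (f ^ b * ω a D) : ℚ)
        rw [P.ord_mul (pow_ne_zero _ hf0) h3, P.ord_pow]
        rw [Pi.add_apply, Pi.smul_apply, Pi.smul_apply, nsmul_eq_mul, nsmul_eq_mul] at h2 ⊢
        have h4 := mul_le_mul_of_nonneg_left (hfs P hP) (show (0 : ℚ) ≤ b from Nat.cast_nonneg b)
        push_cast
        nlinarith
    have h2 := h1.pow (r * q)
    rw [Nat.mul_comm (r * q) m] at h2
    refine ⟨h2.1, fun P hP => (h2.2 P hP).mono ?_⟩
    have h3 := hA.1 P hP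
    rw [Pi.add_apply, Pi.smul_apply, Pi.smul_apply, Pi.smul_apply, Pi.add_apply, Pi.smul_apply,
      Pi.smul_apply]
    simp only [nsmul_eq_mul]
    have h4 : ((r * q * (b * s) : ℕ) : ℚ) ≤ m := by exact_mod_cast hbs
    have h5 := mul_le_mul_of_nonneg_right h4 h3
    push_cast at h5 ⊢
    nlinarith
  have h1 := gap_u hy hn hn0 hr hcar hnef hi hAP hc0 (u := u)
    (fun m b hm ω E hω h0 => hβ m b hm u hu ω E hω h0) hlt (hsec 0) (hsec 1) (E := E)
    (pow_ne_zero _ (mul_ne_zero (pow_ne_zero _ hf0) h0))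
  rw [← hB] at h1
  -- the degree of the power
  obtain ⟨w, hw⟩ : ∃ w : Fin 1 → K, w = fun i => ω i.succ E / ω 0 E := ⟨_, rfl⟩
  rw [← hw, degreeOver_eq]
  by_cases hd : dg ℂ (Sum.elim u w) = 0
  · rw [hd]
    push_cast
    positivity
  have hcard : Nat.card (Fin (n - 1) ⊕ Fin 1) = n := by
    rw [Nat.card_eq_fintype_card, Fintype.card_sum, Fintype.card_fin, Fintype.card_fin]
    omega
  have h2 := dg_pow_all (k := ℂ) (by rw [hn, hcard]) (Sum.elim u w) (Finset.univ.image Sum.inr)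
    (q := r * q) (Nat.mul_pos hr hq1) hd
  rw [Finset.card_image_of_injective _ Sum.inr_injective, Finset.card_univ,
    Fintype.card_fin, pow_one] at h2
  have h3' : (Sum.elim u fun _ : Fin 1 => (f ^ b * ω 1 E) ^ (r * q) / (f ^ b * ω 0 E) ^ (r * q)) =
      fun i => if i ∈ Finset.univ.image Sum.inr then Sum.elim u w i ^ (r * q)
        else Sum.elim u w i := by
    funext i
    rcases i with i | i
    · simp
    · have h4 : (f ^ b * ω 1 E) ^ (r * q) / (f ^ b * ω 0 E) ^ (r * q) =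
          (ω 1 E / ω 0 E) ^ (r * q) := by
        rw [← div_pow, mul_div_mul_left _ _ (pow_ne_zero _ hf0)]
      have h5 : w i = ω 1 E / ω 0 E := by
        rw [hw]
        fin_cases i
        rfl
      rw [Sum.elim_inr, if_pos (Finset.mem_image_of_mem _ (Finset.mem_univ i)), Sum.elim_inr, h5]
      exact h4
  have h3 : degreeOver u (fun _ : Fin 1 => (f ^ b * ω 1 E) ^ (r * q) /
      (f ^ b * ω 0 E) ^ (r * q)) = dg ℂ (fun i => if i ∈ Finset.univ.image Sum.inr
        then Sum.elim u w i ^ (r * q) else Sum.elim u w i) := by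
    rw [← h3']
    unfold degreeOver dg
    rw [Set.Sum.elim_range]
  change ((degreeOver u (fun _ : Fin 1 => (f ^ b * ω 1 E) ^ (r * q) /
      (f ^ b * ω 0 E) ^ (r * q)) : ℕ) : ℝ) ≤ _ at h1
  rw [h3, h2] at h1
  push_cast at h1
  rw [pow_one]
  have hrq : (0 : ℝ) < r * q := by positivity
  have hmr : (0 : ℝ) ≤ m := Nat.cast_nonneg _
  have h6 : (r * q : ℝ) * (dg ℂ (Sum.elim u w) : ℝ) ≤ (r * q) * (ε * m) := by
    have h7 := mul_le_mul_of_nonneg_left hq hmr
    nlinarith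
  exact le_of_mul_le_mul_left h6 hrq

end

end Pool.Agent.R887
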