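import Pool.Agent.R887.CorF
import Pool.Agent.R887.GapC
import Pool.Agent.R887.DefsExp

/-!
Functions on a covering which are regular over the prime divisors of a chart of a normal variety.
-/

set_option autoImplicit false
set_option linter.overlappingInstances false
set_option linter.unusedSectionVars false

open FF MvPolynomial Pool.Agent.W602.GT Pool.Agent.W603.LV Pool.Agent.W619.PQ
open Pool.Agent.Y172 Pool.Agent.Y191

namespace Pool.Agent.R887

section

variable {k K L : Type} [Field k] [CharZero k] [Field K] [Field L] [Algebra k K]
  [Algebra k L] [Algebra K L] [IsScalarTower k K L] [FiniteDimensional K L]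

/-- the regular functions at a place -/
def regRing (P : Place k K) : Subring K where
  carrier := {f | P.Reg f}
  mul_mem' := fun h1 h2 => P.reg_mul h1 h2
  one_mem' := P.reg_one
  add_mem' := fun h1 h2 => Ge.add (N := 0) h1 h2
  zero_mem' := P.reg_zero
  neg_mem' := fun h => Ge.neg (N := 0) h

/-- the coefficients of the minimal polynomial of a function which is regular at all places over
`P` are regular at `P` -/
theorem coeff_reg {P : Place k K} {z : L} (hz : ∀ (Q : Place k L) (e : ℕ), Over Q P e → Q.Reg z)
    (i : ℕ) : P.Reg ((minpoly K z).coeff i) := by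
  classical
  have hcK : CharZero K := charZero_of_injective_algebraMap (algebraMap k K).injective
  let Ω := IntermediateField.normalClosure K L (AlgebraicClosure L)
  let ik : Algebra k Ω := ((algebraMap K Ω).comp (algebraMap k K)).toAlgebra
  have htow : IsScalarTower k K Ω := IsScalarTower.of_algebraMap_eq fun _ => rfl
  have hfin : FiniteDimensional K Ω := inferInstance
  have hnorm : Normal K Ω := inferInstance
  obtain ⟨i0⟩ : Nonempty (L →ₐ[K] Ω) := ⟨IsScalarTower.toAlgHom K L Ω⟩
  have hspl : ∀ x : L, ((minpoly K x).map (algebraMap K Ω)).Splits := by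
    intro x
    have h1 := hnorm.splits (i0 x)
    rwa [minpoly.algHom_eq i0 i0.injective] at h1
  have hroots := Algebra.IsAlgebraic.range_eval_eq_rootSet_minpoly_of_splits Ω hspl z
  obtain ⟨R, e, hR⟩ := exists_above (L := Ω) P
  have hmon : ((minpoly K z).map (algebraMap K Ω)).Monic :=
    (minpoly.monic (Algebra.IsIntegral.isIntegral z)).map _
  have h1 := (hspl z).mem_lift_of_roots_mem_range hmon (regRing R).subtype (by
    intro r hr
    have h2 : r ∈ (minpoly K z).rootSet Ω := by
      rw [Polynomial.mem_rootSet']
      refine ⟨hmon.ne_zero, ?_⟩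
      have h3 := Polynomial.isRoot_of_mem_roots hr
      rwa [Polynomial.IsRoot, Polynomial.eval_map_algebraMap] at h3
    rw [← hroots] at h2
    obtain ⟨σ, hσ⟩ := h2
    obtain ⟨Q, e0, e1, hQ, he1, -, hord⟩ := below_emb σ hR
    have h4 : R.Reg r := by
      change σ z = r at hσ
      rw [← hσ]
      rcases hz Q e0 hQ with h5 | h5
      · left
        rw [h5, map_zero]
      · right
        rw [hord]
        positivity
    exact ⟨⟨r, h4⟩, rfl⟩)
  obtain ⟨q, hq⟩ := (Polynomial.mem_lifts _).1 h1
  have h2 : R.Reg (algebraMap K Ω ((minpoly K z).coeff i)) := by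
    have h3 := congrArg (fun p => Polynomial.coeff p i) hq
    simp only [Polynomial.coeff_map] at h3
    rw [← h3]
    exact (q.coeff i).2
  exact hR.reg.1 h2

end

section

variable {K L : Type} [Field K] [Field L] [Algebra ℂ K] [Algebra ℂ L]
  [Algebra K L] [IsScalarTower ℂ K L] [FiniteDimensional K L] {N n : ℕ} {y : Fin (N + 1) → K}

/-- **A function on a covering which is regular over the prime divisors of a chart is regular over
all places of the chart.** -/
theorem hartogs_up (hy : NormalModel y) {l : Fin (N + 1)} {z : L}
    (hz : ∀ (Q : Place ℂ L) (P : Place ℂ K) (e : ℕ), Over Q P e → IsPrimeDivisor y P →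
      Centred y l P → Q.Reg z) {Q : Place ℂ L} (hQ : Centred y l (bel K Q)) : Q.Reg z := by
  refine reg_of_monic (over_bel K Q) (minpoly.monic (Algebra.IsIntegral.isIntegral z))
    (minpoly.aeval K z) fun i => localRing_reg (mem_localRing_of_reg hy fun P hP ht => ?_)
  exact coeff_reg (fun Q' e h => hz Q' P e h hP (ht.centred hQ)) i

end

end Pool.Agent.R887
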