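import Pool.Agent.R887.ExpA

/-!
The quotient of the pull back of a section under a multi-valued map by the pull back of a form on the
source: orders over the prime divisors of the source.
-/

set_option autoImplicit false
set_option linter.overlappingInstances false
set_option linter.unusedSectionVars false

open FF MvPolynomial Pool.Agent.W602.GT Pool.Agent.W603.LV Pool.Agent.W619.PQ
open Pool.Agent.Y172 Pool.Agent.Y191

namespace Pool.Agent.R887

section loc

variable {K : Type} [Field K] [Algebra ℂ K] {n : ℕ}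

/-- the order of a form is the order of its value on a local frame -/
theorem ordEq_loc {P : Place ℂ K} {w : Fin n → K} {G : Fin n → Derivation ℂ K K} {i0 : Fin n}
    (hl : Loc P w G i0) {s : ℕ} {θ : (Fin n → Derivation ℂ K K) → K} (hθ : IsPluri s θ)
    {z : ℚ} (hz : OrdEq P θ z) : θ G ≠ 0 ∧ (P.ord (θ G) : ℚ) = z := by
  obtain ⟨h1, E0, hE0, h2, h3⟩ := hz
  have h4 := pluri_coord hl.bas hl.dual hθ E0
  have h5 : (Matrix.of fun i j => E0 i (w j)).det ^ s ≠ 0 := by
    intro h6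
    rw [h6, zero_mul] at h4
    exact h2 h4
  have h6 : θ G ≠ 0 := by
    intro h7
    rw [h7, mul_zero] at h4
    exact h2 h4
  refine ⟨h6, le_antisymm ?_ ((h1 G hl.pres).resolve_left h6)⟩
  rw [← h3, h4, P.ord_mul h5 h6]
  have h7 : P.Reg ((Matrix.of fun i j => E0 i (w j)).det ^ s) := by
    have h8 : P.Reg (Matrix.of fun i j => E0 i (w j)).det :=
      det_reg fun i j => hE0 i _ (hl.reg j)
    rcases h8 with h8 | h8
    · by_cases hs : s = 0
      · rw [hs, pow_zero]
        exact P.reg_one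
      · exact absurd (by rw [h8, zero_pow hs]) h5
    · right
      rw [P.ord_pow]
      positivity
  have h8 := (P.reg_iff h5).1 h7
  have h9 : P.ord (θ G) ≤ P.ord ((Matrix.of fun i j => E0 i (w j)).det ^ s) + P.ord (θ G) := by
    omega
  exact_mod_cast h9

end loc

section

variable {K K' L : Type} [Field K] [Algebra ℂ K] [Field K'] [Algebra ℂ K'] [Field L] [Algebra ℂ L]
  [Algebra K L] [IsScalarTower ℂ K L] [FiniteDimensional K L] [Algebra K' L]
  [IsScalarTower ℂ K' L] [FiniteDimensional K' L] {N N' : ℕ} {y : Fin (N + 1) → K}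
  {y' : Fin (N' + 1) → K'} {n : ℕ}

/-- **The order of the quotient at one place.** -/
theorem ratio_bound [Algebra.EssFiniteType ℂ K] [Algebra.EssFiniteType ℂ K']
    (hn : Algebra.trdeg ℂ K = n) (hn' : Algebra.trdeg ℂ K' = n)
    {x' : Fin n → K'} {E' : Fin n → Derivation ℂ K' K'} (hx' : IsTranscendenceBasis ℂ x')
    (hE' : ∀ i j, E' i (x' j) = if i = j then 1 else 0) {D : Fin n → Derivation ℂ L L}
    (hD : ∀ i f, D i (algebraMap K' L f) = algebraMap K' L (E' i f))
    {x : Fin n → K} {E : Fin n → Derivation ℂ K K} (hx : IsTranscendenceBasis ℂ x)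
    (hE : ∀ i j, E i (x j) = if i = j then 1 else 0) {s : ℕ}
    {θ : (Fin n → Derivation ℂ K' K') → K'} (hθ : IsPluri s θ)
    {Q : Place ℂ L} {Q' : Place ℂ K'} {e' : ℕ} (hov' : Over Q Q' e') (hQ' : Divisorial n Q')
    {z : ℚ} (hz : OrdEq Q' θ z) {P : Place ℂ K} {e : ℕ} (hov : Over Q P e)
    (hP : Divisorial n P) {m : ℕ} {ω : (Fin n → Derivation ℂ K K) → K} (hω : IsPluri m ω)
    {c1 : ℤ} (hc1 : OrdGe P ω c1) (hω0 : pull L x E m ω D ≠ 0) :
    θ E' ≠ 0 ∧ (s * (m * (e - e') + e * c1) - m * e' * z : ℚ) ≤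
      Q.ord (pull L x E m ω D ^ s / algebraMap K' L (θ E') ^ m) := by
  classical
  have hessL : Algebra.EssFiniteType ℂ L := by
    have h1 : Algebra.EssFiniteType K' L := inferInstance
    exact Algebra.EssFiniteType.comp ℂ K' L
  have hnL : Algebra.trdeg ℂ L = n := trdeg_up (K := K') hn'
  have hQd : Divisorial n Q := divisorial_up hov' hQ'
  obtain ⟨w, G, i0, hl⟩ := exists_loc hn' hQ'
  obtain ⟨A, hA⟩ : ∃ A : Matrix (Fin n) (Fin n) K', A = Matrix.of fun i j => G i (x' j) :=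
    ⟨_, rfl⟩
  have hG : G = fun i => ∑ j, A i j • E' j := by
    funext i
    rw [hA]
    exact (Pool.Agent.W73.PG.PULL.expand x' hx' E' hE' (G i)).symm
  obtain ⟨GG, hGG⟩ : ∃ GG : Fin n → Derivation ℂ L L,
      GG = fun i => ∑ j, (algebraMap K' L).mapMatrix A i j • D j := ⟨_, rfl⟩
  have hGGl : ∀ i f, GG i (algebraMap K' L f) = algebraMap K' L (G i f) := by
    intro i f
    rw [hGG, hG]
    simp only []
    rw [sum_smul_apply, sum_smul_apply, map_sum]
    refine Finset.sum_congr rfl fun j _ => ?_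
    rw [map_mul, hD, RingHom.mapMatrix_apply, Matrix.map_apply]
  obtain ⟨hθG, hθz⟩ := ordEq_loc hl hθ hz
  have h1 : θ G = A.det ^ s * θ E' := by
    conv_lhs => rw [hG]
    exact hθ _ _
  have hA0 : s ≠ 0 → A.det ≠ 0 := by
    intro hs h0
    rw [h1, h0, zero_pow hs, zero_mul] at hθG
    exact hθG rfl
  have hθE : θ E' ≠ 0 := by
    intro h0
    rw [h1, h0, mul_zero] at hθG
    exact hθG rfl
  refine ⟨hθE, ?_⟩
  have hAd : A.det ≠ 0 := by
    have h2 := pluri_coord hx' hE' (frm_pluri w 1 1) G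
    rw [frm_self hl.dual] at h2
    rw [hA]
    intro h0
    rw [h0, pow_one, zero_mul] at h2
    exact one_ne_zero h2
  have h2 : pull L x E m ω GG = algebraMap K' L A.det ^ m * pull L x E m ω D := by
    conv_lhs => rw [hGG]
    have h3 := pull_pluri (K' := L) x E m ω ((algebraMap K' L).mapMatrix A) D
    rw [h3, RingHom.map_det]
  have hAL : algebraMap K' L A.det ≠ 0 := by rwa [Ne, map_eq_zero]
  have hGG0 : pull L x E m ω GG ≠ 0 := by
    rw [h2]
    exact mul_ne_zero (pow_ne_zero _ hAL) hω0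
  have h3 : pull L x E m ω D ^ s / algebraMap K' L (θ E') ^ m =
      pull L x E m ω GG ^ s / algebraMap K' L (θ G) ^ m := by
    rw [h2, h1, map_mul, map_pow, mul_pow, mul_pow, ← pow_mul, ← pow_mul, mul_comm s m,
      mul_div_mul_left _ _ (pow_ne_zero _ hAL)]
  have hθL : algebraMap K' L (θ G) ≠ 0 := by rwa [Ne, map_eq_zero]
  rw [h3, Q.ord_div (pow_ne_zero _ hGG0) (pow_ne_zero _ hθL), Q.ord_pow, Q.ord_pow, hov'.2]
  have h4 := down_ge hnL hov' hQd hl hGGl (pull_pluri (K' := L) x E m ω)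
    (c := ((m * (e - 1) + e * c1 : ℤ) : ℝ)) (fun F hF => by
      rcases pull_ord hn hx hE hov hP hω hc1 hF with h5 | h5
      · exact Or.inl h5
      · right
        exact_mod_cast h5)
  have h5 := h4.resolve_left hGG0
  have h6 : (m * (e - 1) + e * c1 + m - e' * m : ℤ) ≤ Q.ord (pull L x E m ω GG) := by
    have h7 : (((m * (e - 1) + e * c1 + m - e' * m : ℤ)) : ℝ) ≤
        ((Q.ord (pull L x E m ω GG) : ℤ) : ℝ) := by
      push_cast
      push_cast at h5
      exact h5
    exact_mod_cast h7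
  have h7 : ((m * (e - 1) + e * c1 + m - e' * m : ℤ) : ℚ) ≤ Q.ord (pull L x E m ω GG) := by
    exact_mod_cast h6
  push_cast at h7 ⊢
  rw [hθz]
  have h8 := mul_le_mul_of_nonneg_left h7 (show (0 : ℚ) ≤ s from Nat.cast_nonneg s)
  nlinarith

/-- **A function on the source which bounds finitely many functions on the covering.** -/
theorem correct (hy' : NormalModel y') {i : Fin (N' + 1)} (hi : y' i ≠ 0) {ι : Type} [Fintype ι]
    (t : ι → L) (ht : ∀ j, t j ≠ 0) (s : ℕ) :
    ∃ (f : K') (β : ℕ), f ≠ 0 ∧ ∀ (Q : Place ℂ L) (P' : Place ℂ K') (e : ℕ), Over Q P' e →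
      IsPrimeDivisor y' P' → ∀ l, Centred y' l P' → ∀ j,
      s * Q.ord (t j) ≤ Q.ord (algebraMap K' L f) +
        β * Q.ord (algebraMap K' L (y' i / y' l)) := by
  classical
  obtain ⟨A, hA, hAP⟩ := exists_hyp hy' hi
  have hfin : (⋃ j, {Q : Place ℂ L | IsPrimeDivisor y' (bel K' Q) ∧ Q.ord (t j) ≠ 0}).Finite :=
    Set.finite_iUnion fun j => finite_ord_up hy' (ht j)
  obtain ⟨T, hT⟩ : ∃ T : Finset (Place ℂ L), ∀ Q, Q ∈ T ↔
      ∃ j, IsPrimeDivisor y' (bel K' Q) ∧ Q.ord (t j) ≠ 0 := ⟨hfin.toFinset, fun Q => by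
    rw [Set.Finite.mem_toFinset]
    simp only [Set.mem_iUnion, Set.mem_ofPred_eq]⟩
  obtain ⟨τ, hτ⟩ : ∃ τ : Place ℂ L → ℕ, ∀ Q, τ Q = ∑ j, s * (Q.ord (t j)).natAbs :=
    ⟨_, fun _ => rfl⟩
  obtain ⟨A', hA'⟩ : ∃ A' : Place ℂ K' → ℚ, ∀ P, A' P =
      ∑ Q ∈ T, if bel K' Q = P then (τ Q : ℚ) else 0 := ⟨_, fun _ => rfl⟩
  have hA'0 : ∀ P, 0 ≤ A' P := by
    intro P
    rw [hA']
    refine Finset.sum_nonneg fun Q _ => ?_
    split_ifs
    · positivity
    · exact le_rfl
  have hA'e : Effective y' A' := by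
    refine ⟨fun P _ => hA'0 P, (T.image (bel K')).finite_toSet.subset ?_⟩
    rintro P ⟨-, hP⟩
    by_contra hcon
    apply hP
    rw [hA']
    refine Finset.sum_eq_zero fun Q hQ => ?_
    rw [if_neg]
    rintro rfl
    exact hcon (by
      rw [Finset.mem_coe]
      exact Finset.mem_image_of_mem _ hQ)
  obtain ⟨f, β, hf0, hfb⟩ := dominate hy' hA'e hi hA hAP
  refine ⟨f, β, hf0, fun Q P' e hov hP' l hl j => ?_⟩
  obtain ⟨hb1, hb2⟩ := bel_eq K' hov
  have h1 := hfb P' hP'
  rw [hAP P' l hP' hl] at h1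
  have h2 : (0 : ℚ) ≤ P'.ord f + β * P'.ord (y' i / y' l) := (hA'0 P').trans h1
  have he : (1 : ℤ) ≤ e := by exact_mod_cast hov.1
  rw [hov.2, hov.2]
  have h3 : s * Q.ord (t j) ≤ P'.ord f + β * P'.ord (y' i / y' l) := by
    by_cases h0 : Q.ord (t j) = 0
    · rw [h0, mul_zero]
      exact_mod_cast h2
    · have hQT : Q ∈ T := (hT Q).2 ⟨j, by rw [hb1]; exact hP', h0⟩
      have h4 : (τ Q : ℚ) ≤ A' P' := by
        rw [hA']
        have h5 := Finset.single_le_sum (f := fun Q : Place ℂ L =>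
          if bel K' Q = P' then (τ Q : ℚ) else 0) (fun Q _ => by
            split_ifs
            · positivity
            · exact le_rfl) hQT
        simp only [if_pos hb1] at h5
        exact h5
      have h5 : s * (Q.ord (t j)).natAbs ≤ τ Q := by
        rw [hτ]
        exact Finset.single_le_sum (f := fun j => s * (Q.ord (t j)).natAbs)
          (fun _ _ => Nat.zero_le _) (Finset.mem_univ j)
      have h6 : (τ Q : ℚ) ≤ P'.ord f + β * P'.ord (y' i / y' l) := h4.trans h1
      have h7 : (τ Q : ℤ) ≤ P'.ord f + β * P'.ord (y' i / y' l) := by exact_mod_cast h6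
      have h8 : (s : ℤ) * Q.ord (t j) ≤ s * ((Q.ord (t j)).natAbs : ℤ) := by
        refine mul_le_mul_of_nonneg_left ?_ (Int.natCast_nonneg _)
        omega
      have h9 : ((s * (Q.ord (t j)).natAbs : ℕ) : ℤ) ≤ τ Q := by exact_mod_cast h5
      push_cast at h9
      omega
  have h4 : (0 : ℤ) ≤ P'.ord f + β * P'.ord (y' i / y' l) := by exact_mod_cast h2
  nlinarith

end

end Pool.Agent.R887
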