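import Pool.Agent.R887.ExpB

/-!
Explicit bounds for the pull backs of sections under a multi-valued map.
-/

set_option autoImplicit false
set_option linter.overlappingInstances false
set_option linter.unusedSectionVars false

open FF MvPolynomial Pool.Agent.W602.GT Pool.Agent.W603.LV Pool.Agent.W619.PQ
open Pool.Agent.Y172 Pool.Agent.Y191

namespace Pool.Agent.R887

section

variable {K K' L : Type} [Field K] [Algebra ℂ K] [Field K'] [Algebra ℂ K'] [Field L] [Algebra ℂ L]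
  [Algebra K L] [IsScalarTower ℂ K L] [FiniteDimensional K L] [Algebra K' L]
  [IsScalarTower ℂ K' L] [FiniteDimensional K' L] {N N' : ℕ} {y : Fin (N + 1) → K}
  {y' : Fin (N' + 1) → K'} {n : ℕ}

/-- a variety of positive dimension has a prime divisor -/
theorem exists_prime {K : Type} [Field K] [Algebra ℂ K] {N : ℕ} {y : Fin (N + 1) → K} {n : ℕ}
    (hy : NormalModel y) (hn : Algebra.trdeg ℂ K = n) (hn0 : 0 < n) :
    ∃ P, IsPrimeDivisor y P := by
  classical
  have hess := hy.ess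
  obtain ⟨Z, -, hZ, -⟩ := exists_crd hn (k := ℂ) (K := K)
  have : Nonempty (Fin n) := ⟨⟨0, hn0⟩⟩
  have hfd : FiniteDimensional (IntermediateField.adjoin ℂ (Set.range Z)) K := fd_basis hZ
  obtain ⟨v, -⟩ := exists_bplace (k := ℂ) (Finset.univ : Finset (Fin n)) Finset.univ_nonempty
    (crd_gens (k := ℂ) hZ.1)
  obtain ⟨Q, e, -⟩ := exists_above (L := K) v
  obtain ⟨P, hP, -⟩ := exists_through hy Q
  exact ⟨P, hP⟩

/-- **The quotients of the sections, with explicit bounds.** -/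
theorem explicit_bound (hn0 : 0 < n) (hy : NormalModel y) (hn : Algebra.trdeg ℂ K = n) (hy' : NormalModel y')
    (hn' : Algebra.trdeg ℂ K' = n) {S : Set (Place ℂ K')} {s a : ℕ} {i : Fin (N' + 1)}
    (hi : y' i ≠ 0) {θ : (Fin n → Derivation ℂ K' K') → K'} (hθ : IsPluri s θ)
    (hcl : ∀ P l, IsPrimeDivisor y' P → Centred y' l P → ∃ z : ℚ, OrdEq P θ z ∧
      z ≤ a * P.ord (y' i / y' l) ∧ (P ∈ S → z + s ≤ a * P.ord (y' i / y' l)))
    {Δ A : Place ℂ K → ℚ} (hA : Effective y A) (hLC : LogCanonical y n Δ) (hun : Unram L y' S)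
    (hmap : MapOut2 y n Δ (fun Q : Place ℂ L => ∀ Q' e, Over Q Q' e →
      IsPrimeDivisor y' Q' ∧ Q' ∉ S)) {x : Fin n → K} {E : Fin n → Derivation ℂ K K}
    (hx : IsTranscendenceBasis ℂ x) (hE : ∀ i j, E i (x j) = if i = j then 1 else 0)
    (hfr : IsFrame E) :
    ∃ β : ℕ, ∀ m b : ℕ, 1 ≤ m → ∃ F : ((Fin n → Derivation ℂ K K) → K) → L,
      (∀ ω, IsSection y n m (m • Δ + b • A) ω → ω E ≠ 0 → F ω ≠ 0 ∧
        Bnd ℂ (affL L y' i) (m * a + b * β) (F ω)) ∧
      ∀ ω ω', IsSection y n m (m • Δ + b • A) ω → IsSection y n m (m • Δ + b • A) ω' →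
        ω E ≠ 0 → ω' E ≠ 0 → F ω' / F ω = algebraMap K L (ω' E / ω E) ^ s := by
  classical
  have hess := hy.ess
  have hess' := hy'.ess
  obtain ⟨x', E', hx', hE'⟩ := exists_crd hn' (k := ℂ) (K := K')
  choose D hD using fun i => exists_lift (L := L) hn' (E' i)
  have hDfr : IsFrame D := fun F => ⟨fun j => F (algebraMap K' L (x' j)),
    (Pool.Agent.W73.PG.PULL.expand _ (hx'.algebraMap_comp (A := L)) D (lift_dual hE' hD) F).symm⟩
  choose t htc ht0 hb using fun j => disc_bound2 (Δ := Δ) (n := n) hy hA hfr j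
  obtain ⟨f, β, hf0, hfb⟩ := correct (L := L) hy' hi (fun j => algebraMap K L (t j))
    (fun j => by rw [Ne, map_eq_zero]; exact ht0 j) s
  have hθE : θ E' ≠ 0 := by
    obtain ⟨j', hj'⟩ := hy'.ne
    obtain ⟨P, hP⟩ := exists_prime hy' hn' hn0
    obtain ⟨l, hl⟩ := exists_centred hy' P
    obtain ⟨z, ⟨-, E0, -, h1, -⟩, -⟩ := hcl P l hP hl
    intro h0
    have h2 := pluri_coord hx' hE' hθ E0
    rw [h0, mul_zero] at h2
    exact h1 h2
  have hθL : algebraMap K' L (θ E') ≠ 0 := by rwa [Ne, map_eq_zero]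
  have hfL : algebraMap K' L f ≠ 0 := by rwa [Ne, map_eq_zero]
  have hdet : (Matrix.of fun i j => D i (algebraMap K L (x j))).det ≠ 0 := pull_ne hn hE hDfr
  have hp0 : ∀ (m : ℕ) (ω : (Fin n → Derivation ℂ K K) → K), ω E ≠ 0 →
      pull L x E m ω D ≠ 0 := by
    intro m ω h0
    refine mul_ne_zero (pow_ne_zero _ hdet) ?_
    rwa [Ne, map_eq_zero]
  -- the bound over the prime divisors
  have key : ∀ (m b : ℕ), 1 ≤ m → ∀ ω, IsSection y n m (m • Δ + b • A) ω → ω E ≠ 0 →
      ∀ (Q : Place ℂ L) (P' : Place ℂ K') (e : ℕ), Over Q P' e → IsPrimeDivisor y' P' →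
      ∀ l, Centred y' l P' → 0 ≤ Q.ord (pull L x E m ω D ^ s / algebraMap K' L (θ E') ^ m) +
        b * Q.ord (algebraMap K' L f) +
        (m * a + b * β) * Q.ord (algebraMap K' L (y' i / y' l)) := by
    intro m b hm ω hω hω0 Q P' e' hov' hP' l hl
    have hov := over_bel K Q
    have hdP' : Divisorial n P' := hP'.divisorial hy' hn'
    have hdQ : Divisorial n Q := divisorial_up hov' hdP'
    have hPd : Divisorial n (bel K Q) := divisorial_down hov hdQ
    obtain ⟨j, hj⟩ := exists_centred hy (bel K Q)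
    obtain ⟨z, hz, hz1, hz2⟩ := hcl P' l hP' hl
    have hfb' := hfb Q P' e' hov' hP' l hl j
    obtain ⟨o, ho⟩ : ∃ o, o = P'.ord (y' i / y' l) := ⟨_, rfl⟩
    have hoQ : Q.ord (algebraMap K' L (y' i / y' l)) = e' * o := by rw [hov'.2, ho]
    rw [← ho] at hz1 hz2
    rw [hoQ] at hfb' ⊢
    have he1 : (1 : ℚ) ≤ e' := by exact_mod_cast hov'.1
    have hm0 : (0 : ℚ) < m := by exact_mod_cast hm
    have hs0 : (0 : ℚ) ≤ s := Nat.cast_nonneg _
    have hb0 : (0 : ℚ) ≤ b := Nat.cast_nonneg _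
    have hram : (0 : ℚ) < ram K Q := by exact_mod_cast hov.1
    -- the order of the section
    have hgen : ∀ α : ℚ, LogDisc y n Δ (bel K Q) α →
        (s * (m * (ram K Q * α - e') - b * Q.ord (algebraMap K L (t j))) - m * e' * z : ℚ) ≤
          Q.ord (pull L x E m ω D ^ s / algebraMap K' L (θ E') ^ m) := by
      intro α hα
      have h1 := hb j (bel K Q) hj α hα m b hm ω hω
      obtain ⟨c1, hc1⟩ : ∃ c1 : ℤ, c1 = ⌈(m : ℚ) * (α - 1)⌉ - b * (bel K Q).ord (t j) := ⟨_, rfl⟩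
      have h2 : OrdGe (bel K Q) ω c1 := by
        intro E' hE'
        refine (h1 E' hE').imp_right fun h => ?_
        have h3 : (m : ℚ) * (α - 1) ≤
            (((bel K Q).ord (ω E') + b * (bel K Q).ord (t j) : ℤ) : ℚ) := by
          push_cast
          linarith
        have h4 := Int.ceil_le.2 h3
        rw [hc1]
        have h5 : ⌈(m : ℚ) * (α - 1)⌉ - b * (bel K Q).ord (t j) ≤ (bel K Q).ord (ω E') := by
          omega
        exact_mod_cast h5
      have h3 := (ratio_bound hn hn' hx' hE' hD hx hE hθ hov' hdP' hz hov hPd hω.1 h2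
        (hp0 m ω hω0)).2
      refine le_trans ?_ h3
      rw [hc1, hov.2]
      push_cast
      have h4 : (m : ℚ) * (α - 1) ≤ ⌈(m : ℚ) * (α - 1)⌉ := Int.le_ceil _
      have h5 := mul_le_mul_of_nonneg_left h4 hram.le
      have h6 : (m * (ram K Q * α - e') - b * (ram K Q * (bel K Q).ord (t j)) : ℚ) ≤
          m * (ram K Q - e') + ram K Q * (⌈(m : ℚ) * (α - 1)⌉ - b * (bel K Q).ord (t j)) := by
        nlinarith
      have h7 := mul_le_mul_of_nonneg_left h6 hs0
      linarith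
    have hfb2 : (s * Q.ord (algebraMap K L (t j)) : ℚ) ≤ Q.ord (algebraMap K' L f) +
        β * (e' * o) := by exact_mod_cast hfb'
    have hfb3 := mul_le_mul_of_nonneg_left hfb2 hb0
    have hfin : (0 : ℚ) ≤ Q.ord (pull L x E m ω D ^ s / algebraMap K' L (θ E') ^ m) +
        b * Q.ord (algebraMap K' L f) + (m * a + b * β) * (e' * o) := by
      by_cases hS : P' ∈ S
      · have h1 := hgen 0 (lc_disc hLC hPd)
        have h2 := mul_le_mul_of_nonneg_left (hz2 hS)
          (show (0 : ℚ) ≤ m * e' by positivity)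
        nlinarith
      · have h0 : e' = 1 := hun Q P' e' hP' hS hov'
        obtain ⟨α, hα, hα1⟩ := hmap Q (fun Q1 e1 h1 => by
          obtain ⟨h2, -⟩ := bel_eq K' h1
          obtain ⟨h3, -⟩ := bel_eq K' hov'
          rw [← h2, h3]
          exact ⟨hP', hS⟩) _ _ hov
        have h1 := hgen α hα
        have h2 := mul_le_mul_of_nonneg_left hz1 (show (0 : ℚ) ≤ m by positivity)
        have h3 : (0 : ℚ) ≤ s * (m * (ram K Q * α - 1)) :=
          mul_nonneg hs0 (mul_nonneg hm0.le (by linarith))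
        rw [h0] at h1 hfb3 ⊢
        push_cast at h1 hfb3 ⊢
        nlinarith
    exact_mod_cast hfin
  refine ⟨β, fun m b hm => ⟨fun ω => pull L x E m ω D ^ s / algebraMap K' L (θ E') ^ m *
    algebraMap K' L f ^ b, ?_, ?_⟩⟩
  · intro ω hω hω0
    have h1 : pull L x E m ω D ^ s / algebraMap K' L (θ E') ^ m ≠ 0 :=
      div_ne_zero (pow_ne_zero _ (hp0 m ω hω0)) (pow_ne_zero _ hθL)
    refine ⟨mul_ne_zero h1 (pow_ne_zero _ hfL), fun Q => ?_⟩
    obtain ⟨l, hl⟩ := exists_centred hy' (bel K' Q)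
    have hyl : algebraMap K' L (y' i / y' l) ≠ 0 := by
      rw [Ne, map_eq_zero]
      exact div_ne_zero hi hl.1
    obtain ⟨w, hw⟩ : ∃ w, w = pull L x E m ω D ^ s / algebraMap K' L (θ E') ^ m *
      algebraMap K' L f ^ b * algebraMap K' L (y' i / y' l) ^ (m * a + b * β) := ⟨_, rfl⟩
    have hordw : ∀ Q : Place ℂ L, Q.ord w =
        Q.ord (pull L x E m ω D ^ s / algebraMap K' L (θ E') ^ m) +
        b * Q.ord (algebraMap K' L f) +
        (m * a + b * β) * Q.ord (algebraMap K' L (y' i / y' l)) := by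
      intro Q
      rw [hw, Q.ord_mul (mul_ne_zero h1 (pow_ne_zero _ hfL)) (pow_ne_zero _ hyl),
        Q.ord_mul h1 (pow_ne_zero _ hfL), Q.ord_pow, Q.ord_pow]
      push_cast
      ring
    have hw0 : w ≠ 0 := by
      rw [hw]
      exact mul_ne_zero (mul_ne_zero h1 (pow_ne_zero _ hfL)) (pow_ne_zero _ hyl)
    have h2 : Q.Reg w := hartogs_up hy' (l := l) (fun Q1 P' e hov hP' hl' => Or.inr (by
      rw [hordw]
      exact key m b hm ω hω hω0 Q1 P' e hov hP' l hl')) hl
    have h3 := (Q.reg_iff hw0).1 h2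
    rw [hordw] at h3
    refine ⟨algebraMap K' L (y' l / y' i), ⟨l, rfl⟩, ?_, ?_⟩
    · rw [Ne, map_eq_zero]
      exact div_ne_zero hl.1 hi
    · have h4 : Q.ord (algebraMap K' L (y' l / y' i)) =
          -Q.ord (algebraMap K' L (y' i / y' l)) := by
        rw [← Q.ord_inv, ← map_inv₀, inv_div]
      rw [h4, Q.ord_mul h1 (pow_ne_zero _ hfL), Q.ord_pow, Nat.cast_add, Nat.cast_mul,
        Nat.cast_mul]
      linarith
  · intro ω ω' hω hω' h1 h2
    have h3 : algebraMap K L (ω E) ≠ 0 := by rwa [Ne, map_eq_zero]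
    have h4 : algebraMap K' L f ^ b ≠ 0 := pow_ne_zero _ hfL
    have h5 : algebraMap K' L (θ E') ^ m ≠ 0 := pow_ne_zero _ hθL
    have h6 : (Matrix.of fun i j => D i (algebraMap K L (x j))).det ^ m ≠ 0 :=
      pow_ne_zero _ hdet
    rw [mul_div_mul_right _ _ h4, div_div_div_cancel_right₀ h5, ← div_pow]
    congr 1
    rw [map_div₀]
    unfold pull
    rw [mul_div_mul_left _ _ h6]

end

end Pool.Agent.R887
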