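import Pool.Agent.R887.ExpC
import Pool.Agent.R887.CorJ

/-!
**The degree inequality for one multi-valued map, with explicit constants.**
-/

set_option autoImplicit false
set_option linter.overlappingInstances false
set_option linter.unusedSectionVars false

open FF MvPolynomial Pool.Agent.W602.GT Pool.Agent.W603.LV Pool.Agent.W619.PQ
open Pool.Agent.Y172 Pool.Agent.Y191

namespace Pool.Agent.R887

section

variable {K' : Type} [Field K'] [Algebra ℂ K'] {N' : ℕ} {y' : Fin (N' + 1) → K'} {n : ℕ}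

/-- **The degree inequality for one multi-valued map, with explicit constants.** -/
theorem explicit_one_map (hy' : NormalModel y') (hn' : Algebra.trdeg ℂ K' = n) (hn0 : 0 < n)
    {S : Set (Place ℂ K')} {s a : ℕ} (hs : 1 ≤ s) (hcl : CanonicalLe y' n S s a)
    {K L : Type} [Field K] [Algebra ℂ K] [Field L] [Algebra ℂ L] {N : ℕ}
    {y : Fin (N + 1) → K} {Δ A : Place ℂ K → ℚ} (hy : NormalModel y)
    (hn : Algebra.trdeg ℂ K = n) (hLC : LogCanonical y n Δ) (hA : Effective y A)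
    (φ : K →ₐ[ℂ] L) (ψ : K' →ₐ[ℂ] L) (hψ0 : FiniteDimensional ψ.fieldRange L)
    (hun : UnramifiedOutside ψ y' S) (hφ1 : MultiPullBackLe φ ψ y n Δ y' S) :
    ∃ β : ℕ, ∀ {j : ℕ}, j ≤ n → ∀ {c : ℝ}, MultiDegreeLe φ ψ y y' (n - j) j c →
      0 ≤ c ∧ ∀ m b : ℕ, 1 ≤ m → ∀ u : Fin (n - j) → K, (∀ a, IsPencil y (u a)) →
      ∀ (ω : Fin (j + 1) → (Fin n → Derivation ℂ K K) → K) (E : Fin n → Derivation ℂ K K),
        (∀ i, IsSection y n m (m • Δ + b • A) (ω i)) → ω 0 E ≠ 0 →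
        (degreeOver u (fun i : Fin j => ω i.succ E / ω 0 E) : ℝ) ≤
          c / s ^ j * (m * a + b * β) ^ j := by
  classical
  obtain ⟨i, hi, θ, hθ, hcl⟩ := hcl
  have hess' := hy'.ess
  have hess := hy.ess
  obtain ⟨x, E, hx, hE⟩ := exists_crd hn (k := ℂ) (K := K)
  have hfr : IsFrame E := fun F => ⟨fun j => F (x j),
    (Pool.Agent.W73.PG.PULL.expand x hx E hE F).symm⟩
  let _ : Algebra K L := φ.toRingHom.toAlgebra
  let _ : Algebra K' L := ψ.toRingHom.toAlgebra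
  have hst : IsScalarTower ℂ K L := IsScalarTower.of_algebraMap_eq fun c => (φ.commutes c).symm
  have hst' : IsScalarTower ℂ K' L := IsScalarTower.of_algebraMap_eq fun c => (ψ.commutes c).symm
  have hfd' : FiniteDimensional K' L := fd_of_range ψ hψ0
  have hessL : Algebra.EssFiniteType ℂ L := by
    have h1 : Algebra.EssFiniteType K' L := inferInstance
    exact Algebra.EssFiniteType.comp ℂ K' L
  have hnL : Algebra.trdeg ℂ L = n := trdeg_up (K := K') hn'
  have hfd : FiniteDimensional K L := finite_map hn hnL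
  obtain ⟨β, hβ⟩ := explicit_bound (K' := K') (L := L) hn0 hy hn hy' hn' hi hθ hcl hA hLC
    (fun Q Q' e hQ' hQS ho => hun Q' hQ' hQS Q e ho)
    (fun Q hQ P e ho => by
      have hov := over_bel K' Q
      obtain ⟨h1, h2⟩ := hQ _ _ hov
      exact hφ1 _ h1 h2 Q _ hov P e ho) hx hE hfr
  have hdeg : mapDegree φ = Module.finrank K L := by
    unfold mapDegree
    let e : K ≃ₐ[ℂ] φ.fieldRange := AlgEquiv.ofInjectiveField φ
    refine (Algebra.finrank_eq_of_equiv_equiv e.toRingEquiv (RingEquiv.refl L) ?_).symm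
    ext x
    rfl
  have hdegp : 0 < mapDegree φ := by
    rw [hdeg]
    exact Module.finrank_pos
  have hdeg0 : (0 : ℝ) < Module.finrank K L := by
    exact_mod_cast Module.finrank_pos
  refine ⟨β, fun {j} hj {c} hφ2 => ?_⟩
  have hc0 := multi_nonneg hy hy' hφ2 hdegp
  refine ⟨hc0, fun m b hm1 u hu ω E' hω hω0 => ?_⟩
  have hm0 : (0 : ℝ) < m := by exact_mod_cast hm1
  have hs0 : (0 : ℝ) < s := by exact_mod_cast hs
  obtain ⟨w, hw⟩ : ∃ w : Fin j → K, w = fun i => ω i.succ E' / ω 0 E' := ⟨_, rfl⟩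
  rw [← hw, degreeOver_eq]
  by_cases h0 : dg ℂ (Sum.elim u w) = 0
  · rw [h0]
    push_cast
    positivity
  have hcard : Nat.card (Fin (n - j) ⊕ Fin j) = n := by
    rw [Nat.card_eq_fintype_card, Fintype.card_sum, Fintype.card_fin, Fintype.card_fin]
    omega
  have hbas := basis_of_dg (k := ℂ) (w := Sum.elim u w) (by rw [hn, hcard]) h0
  -- the sections are not zero
  have hωE : ∀ i, ω i E ≠ 0 := by
    intro i
    have h1 := (ratio_frame hfr (hω 0).1 (hω 0).1 hω0).1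
    refine Fin.cases h1 (fun i => ?_) i
    intro h2
    have h3 := (ratio_frame hfr (hω 0).1 (hω i.succ).1 hω0).2
    rw [h2, zero_div] at h3
    have h4 := hbas.1.ne_zero (Sum.inr i)
    rw [Sum.elim_inr, hw] at h4
    exact h4 h3
  obtain ⟨F, hF1, hF2⟩ := hβ m b hm1
  obtain ⟨B, hB⟩ : ∃ B, B = m * a + b * β := ⟨_, rfl⟩
  -- replace the sections by pencils
  obtain ⟨w', hw'⟩ : ∃ w' : Fin (n - j) ⊕ Fin j → K, w' = fun i =>
      if i ∈ Finset.univ.image (Sum.inr : Fin j → Fin (n - j) ⊕ Fin j) then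
        Sum.elim u w i ^ s else Sum.elim u w i := ⟨_, rfl⟩
  have hpow := dg_pow_all (k := ℂ) (by rw [hn, hcard]) (Sum.elim u w)
    (Finset.univ.image Sum.inr) (q := s) hs h0
  rw [Finset.card_image_of_injective _ Sum.inr_injective, Finset.card_univ, Fintype.card_fin,
    ← hw'] at hpow
  have hw'r : ∀ i, w' (Sum.inr i) = w i ^ s := by
    intro i
    rw [hw']
    simp
  have hw'l : ∀ i, w' (Sum.inl i) = u i := by
    intro i
    rw [hw']
    simp
  have hwE : ∀ i, algebraMap K L (w' (Sum.inr i)) = F (ω i.succ) / F (ω 0) := by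
    intro i
    rw [hF2 _ _ (hω 0) (hω i.succ) (hωE 0) (hωE i.succ), hw'r, hw, map_pow]
    congr 2
    exact (ratio_frame hfr (hω 0).1 (hω i.succ).1 hω0).2
  obtain ⟨v, hv1, hv2, hv3⟩ := replace_all (k := ℂ) (K := L) (ι := Fin (n - j) ⊕ Fin j)
    (by rw [hnL, hcard]) (S := affL L y' i) (Set.finite_range _)
    ⟨i, by simp only []; rw [div_self hi, map_one]⟩ (B := B)
    (f₀ := F (ω 0)) (hF1 _ (hω 0) (hωE 0)).1 (by rw [hB]; exact (hF1 _ (hω 0) (hωE 0)).2)
    (Finset.univ.image Sum.inr) (fun i => algebraMap K L (w' i))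
    (Sum.elim (fun _ => 1) fun i => F (ω i.succ)) (by
      intro i hi
      obtain ⟨a, -, rfl⟩ := Finset.mem_image.1 hi
      exact (hF1 _ (hω _) (hωE _)).1) (by
      intro i hi
      obtain ⟨a, -, rfl⟩ := Finset.mem_image.1 hi
      rw [hB]
      exact (hF1 _ (hω _) (hωE _)).2) (by
      intro i hi
      obtain ⟨a, -, rfl⟩ := Finset.mem_image.1 hi
      exact hwE a)
  choose v' hv'1 hv'2 using fun k => pencil_of_span2 (y' := y') ψ (fun _ => rfl) hi
    (hv1 (Sum.inr k) (Finset.mem_image_of_mem _ (Finset.mem_univ k)))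
  have h1 : dg ℂ v = degreeOver (fun a => φ (u a)) (fun i => ψ (v' i)) := by
    rw [degreeOver_eq]
    congr 1
    funext k
    rcases k with k | k
    · rw [hv2 (Sum.inl k) (by simp), hw'l]
      rfl
    · exact hv'2 k
  have h2 := hφ2 u hu v' hv'1
  rw [← h1, hdeg] at h2
  rw [dg_tower, Finset.card_image_of_injective _ Sum.inr_injective, Finset.card_univ,
    Fintype.card_fin, hpow] at hv3
  have h3 : ((s : ℝ) ^ j * dg ℂ (Sum.elim u w)) * Module.finrank K L ≤ (B : ℝ) ^ j * dg ℂ v := by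
    exact_mod_cast hv3
  have hBr : (B : ℝ) = m * a + b * β := by
    rw [hB]
    push_cast
    ring
  have h6 : ((s : ℝ) ^ j * dg ℂ (Sum.elim u w)) * Module.finrank K L ≤
      (c * (m * a + b * β) ^ j) * Module.finrank K L := by
    calc ((s : ℝ) ^ j * dg ℂ (Sum.elim u w)) * Module.finrank K L ≤ (B : ℝ) ^ j * dg ℂ v := h3
      _ ≤ (B : ℝ) ^ j * (c * Module.finrank K L) :=
        mul_le_mul_of_nonneg_left h2 (by positivity)
      _ = (c * (m * a + b * β) ^ j) * Module.finrank K L := by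
        rw [hBr]
        ring
  have h7 := le_of_mul_le_mul_right h6 hdeg0
  have h8 : (0 : ℝ) < s ^ j := by positivity
  rw [div_mul_eq_mul_div, le_div_iff₀ h8]
  linarith

/-- **Positive products, with explicit constants.** -/
theorem explicit_product (hy' : NormalModel y') (hn' : Algebra.trdeg ℂ K' = n) (hn0 : 0 < n)
    {S : Set (Place ℂ K')} {s a : ℕ} (hs : 1 ≤ s) (hcl : CanonicalLe y' n S s a)
    {K L : Type} [Field K] [Algebra ℂ K] [Field L] [Algebra ℂ L] {N : ℕ}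
    {y : Fin (N + 1) → K} {Δ : Place ℂ K → ℚ} (hy : NormalModel y)
    (hn : Algebra.trdeg ℂ K = n) (hLC : LogCanonical y n Δ)
    (φ : K →ₐ[ℂ] L) (ψ : K' →ₐ[ℂ] L) (hψ0 : FiniteDimensional ψ.fieldRange L)
    (hun : UnramifiedOutside ψ y' S) (hφ1 : MultiPullBackLe φ ψ y n Δ y' S) {j : ℕ}
    (hj : j ≤ n) {c : ℝ} (hc : MultiDegreeLe φ ψ y y' (n - j) j c) :
    0 ≤ c ∧ PositiveProductLe y n Δ j (c * (a / s) ^ j) := by
  have hzero : Effective y (0 : Place ℂ K → ℚ) :=
    ⟨fun _ _ => le_rfl, Set.finite_empty.subset (by rintro P ⟨-, h⟩; exact h rfl)⟩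
  obtain ⟨β0, h0⟩ := explicit_one_map hy' hn' hn0 hs hcl hy hn hLC hzero φ ψ hψ0 hun hφ1
  have hc0 := (h0 hj hc).1
  have hs0 : (0 : ℝ) < s := by exact_mod_cast hs
  refine ⟨hc0, ?_⟩
  have h1 : c * ((a : ℝ) / s) ^ j = c / s ^ j * a ^ j := by
    rw [div_pow]
    ring
  rw [h1]
  refine product_of_bound (div_nonneg hc0 (by positivity)) fun A hA => ?_
  obtain ⟨β, h⟩ := explicit_one_map hy' hn' hn0 hs hcl hy hn hLC hA φ ψ hψ0 hun hφ1
  refine ⟨β, 0, fun m b hm u hu ω E hω h0 => ?_⟩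
  have h2 := (h hj hc).2 m b hm u hu ω E hω h0
  push_cast
  rw [add_zero]
  exact h2

/-- **Gap, with explicit constants.** -/
theorem explicit_gap (hy' : NormalModel y') (hn' : Algebra.trdeg ℂ K' = n) (hn0 : 0 < n)
    {S : Set (Place ℂ K')} {s a : ℕ} (hs : 1 ≤ s) (hcl : CanonicalLe y' n S s a)
    {K L : Type} [Field K] [Algebra ℂ K] [Field L] [Algebra ℂ L] {N : ℕ}
    {y : Fin (N + 1) → K} {Δ : Place ℂ K → ℚ} (hy : NormalModel y)
    (hn : Algebra.trdeg ℂ K = n) (hLC : LogCanonical y n Δ)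
    (φ : K →ₐ[ℂ] L) (ψ : K' →ₐ[ℂ] L) (hψ0 : FiniteDimensional ψ.fieldRange L)
    (hun : UnramifiedOutside ψ y' S) (hφ1 : MultiPullBackLe φ ψ y n Δ y' S) {r : ℕ}
    (hr : 1 ≤ r) (hcar : CartierIndex y n Δ r) (hnef : LogNef y n Δ) {c : ℝ}
    (hc : MultiDegreeLe φ ψ y y' (n - 1) 1 c) (hlt : c * (a * r) < s) : NumDimLt y n Δ 1 := by
  have hzero : Effective y (0 : Place ℂ K → ℚ) :=
    ⟨fun _ _ => le_rfl, Set.finite_empty.subset (by rintro P ⟨-, h⟩; exact h rfl)⟩
  obtain ⟨β0, h0⟩ := explicit_one_map hy' hn' hn0 hs hcl hy hn hLC hzero φ ψ hψ0 hun hφ1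
  have hc0 := (h0 (j := 1) (by omega) hc).1
  have hs0 : (0 : ℝ) < s := by exact_mod_cast hs
  refine gap (c := c / s) (M := a) hy hn hn0 hr hcar hnef (by positivity) (fun A hA => ?_) ?_
  · obtain ⟨β, h⟩ := explicit_one_map hy' hn' hn0 hs hcl hy hn hLC hA φ ψ hψ0 hun hφ1
    refine ⟨β, 0, fun m b hm u hu ω E hω h0 => ?_⟩
    have h2 := (h (j := 1) (by omega) hc).2 m b hm u hu ω E hω h0
    push_cast
    rw [add_zero]
    rw [pow_one] at h2
    exact h2
  · rw [div_mul_eq_mul_div, div_mul_eq_mul_div, div_lt_one hs0]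
    linarith

end

end Pool.Agent.R887
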