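import Pool.Agent.R887.NefP
import Pool.Agent.R887.DefsGap
import Pool.Agent.Y172.UpB

/-!
The orders of the sections of `m (r q (K_X + Δ) + H)` at all divisors over `X`, if `r (K_X + Δ)` is
Cartier.
-/

set_option autoImplicit false
set_option linter.overlappingInstances false
set_option linter.unusedSectionVars false

open FF MvPolynomial Pool.Agent.W602.GT Pool.Agent.W603.LV Pool.Agent.W619.PQ
open Pool.Agent.Y172 Pool.Agent.Y191

namespace Pool.Agent.R887

section

variable {K : Type} [Field K] [Algebra ℂ K] {N : ℕ} {y : Fin (N + 1) → K} {n : ℕ}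

/-- the value of a form of order `z` on a fixed frame -/
theorem ordEq_val {c : Place ℂ K → ℤ} {E : Fin n → Derivation ℂ K K} (hfr : IsFrame E)
    (hc : ∀ P, IsPrimeDivisor y P → ∀ (m : ℕ) (ω : (Fin n → Derivation ℂ K K) → K),
      IsPluri m ω → ∀ r : ℚ, OrdGe P ω r ↔ (ω E = 0 ∨ r ≤ m * c P + P.ord (ω E)))
    {P : Place ℂ K} (hP : IsPrimeDivisor y P) {m : ℕ} {ω : (Fin n → Derivation ℂ K K) → K}
    (hω : IsPluri m ω) {z : ℚ} (h : OrdEq P ω z) :
    ω E ≠ 0 ∧ (m : ℚ) * c P + P.ord (ω E) = z := by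
  have hωE : ω E ≠ 0 := by
    intro h0
    obtain ⟨-, E', -, h1, -⟩ := h
    rw [pluri_zero hfr hω h0] at h1
    exact h1 rfl
  refine ⟨hωE, ?_⟩
  have h1 := ((hc P hP _ ω hω _).1 h.1).resolve_left hωE
  have h2 : OrdGe P ω ((m : ℚ) * c P + P.ord (ω E)) := (hc P hP _ ω hω _).2 (Or.inr le_rfl)
  obtain ⟨-, E', hE', h3, h4⟩ := h
  have h5 := (h2 E' hE').resolve_left h3
  rw [h4] at h5
  exact le_antisymm h5 h1

theorem reg_of_through (hy : NormalModel y) {Q : Place ℂ K} {f : K} (hf0 : f ≠ 0)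
    (hf : ∀ P, IsPrimeDivisor y P → Through y P Q → 0 ≤ P.ord f) : 0 ≤ Q.ord f :=
  (Q.reg_iff hf0).1 (localRing_reg (mem_localRing_of_reg hy fun P hP ht => Or.inr (hf P hP ht)))

theorem unit_of_through (hy : NormalModel y) {Q : Place ℂ K} {f : K} (hf0 : f ≠ 0)
    (hf : ∀ P, IsPrimeDivisor y P → Through y P Q → P.ord f = 0) : Q.ord f = 0 := by
  have h1 := reg_of_through hy hf0 (Q := Q) fun P hP ht => (hf P hP ht).ge
  have h2 := reg_of_through hy (inv_ne_zero hf0) (Q := Q) fun P hP ht => by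
    rw [P.ord_inv, hf P hP ht, neg_zero]
  rw [Q.ord_inv] at h2
  omega

/-- **The orders of the sections at all divisors over `X`.** -/
theorem exists_local (hy : NormalModel y) (hn : Algebra.trdeg ℂ K = n)
    {E : Fin n → Derivation ℂ K K} (hfr : IsFrame E) {x : Fin n → K}
    (hx : IsTranscendenceBasis ℂ x) (hE : ∀ i j, E i (x j) = if i = j then 1 else 0)
    {Δ : Place ℂ K → ℚ} {r : ℕ} (hcar : CartierIndex y n Δ r) {i : Fin (N + 1)} (hi : y i ≠ 0)
    (Q : Place ℂ K) (hQ : Divisorial n Q) :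
    ∃ e h : ℤ, ∀ (m q : ℕ) (ω : (Fin n → Derivation ℂ K K) → K),
      IsTwistedSectionP y i n Δ (m * (r * q)) m ω →
        (ω E ≠ 0 → (m * q : ℤ) * e - m * h ≤ Q.ord (ω E)) ∧
        (GeneratesAtP y i n Δ (m * (r * q)) m ω Q →
          ω E ≠ 0 ∧ Q.ord (ω E) = (m * q : ℤ) * e - m * h) := by
  classical
  obtain ⟨c, -, hc⟩ := exists_ordc hy hn hx hE
  obtain ⟨η, hη, hηg⟩ := hcar Q hQ
  obtain ⟨l, hl⟩ := exists_centred hy Q
  obtain ⟨P0, hP0, hP0t⟩ := exists_through hy Q
  have hηE : η E ≠ 0 := (ordEq_val hfr hc hP0 hη (hηg P0 hP0 hP0t)).1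
  have hyl : y i / y l ≠ 0 := div_ne_zero hi hl.1
  refine ⟨Q.ord (η E), Q.ord (y i / y l), fun m q ω hω => ?_⟩
  obtain ⟨f, hf⟩ : ∃ f, f = ω E * (y i / y l) ^ m / (η E) ^ (m * q) := ⟨_, rfl⟩
  have hordf : ∀ P : Place ℂ K, ω E ≠ 0 → P.ord f =
      P.ord (ω E) + m * P.ord (y i / y l) - (m * q : ℕ) * P.ord (η E) := by
    intro P h0
    rw [hf, P.ord_div (mul_ne_zero h0 (pow_ne_zero _ hyl)) (pow_ne_zero _ hηE),
      P.ord_mul h0 (pow_ne_zero _ hyl), P.ord_pow, P.ord_pow]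
  have hf0 : ω E ≠ 0 → f ≠ 0 := by
    intro h0
    rw [hf]
    exact div_ne_zero (mul_ne_zero h0 (pow_ne_zero _ hyl)) (pow_ne_zero _ hηE)
  constructor
  · intro h0
    have h1 := reg_of_through hy (hf0 h0) (Q := Q) fun P hP ht => by
      have hPl := ht.centred hl
      have h2 := ((hc P hP _ ω hω.1 _).1 (hω.2 P l hP hPl)).resolve_left h0
      have h3 := (ordEq_val hfr hc hP hη (hηg P hP ht)).2
      rw [hordf P h0]
      have h4 : (0 : ℚ) ≤ ((P.ord (ω E) + m * P.ord (y i / y l) - (m * q : ℕ) * P.ord (η E) : ℤ)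
          : ℚ) := by
        push_cast
        push_cast at h2
        have h5 : (P.ord (η E) : ℚ) = -(r * Δ P) - r * c P := by linarith
        rw [h5]
        nlinarith
      exact_mod_cast h4
    rw [hordf Q h0] at h1
    push_cast at h1
    linarith
  · intro hg
    have h0 : ω E ≠ 0 := (ordEq_val hfr hc hP0 hω.1 (hg P0 l hP0 hP0t (hP0t.centred hl))).1
    refine ⟨h0, ?_⟩
    have h1 := unit_of_through hy (hf0 h0) (Q := Q) fun P hP ht => by
      have hPl := ht.centred hl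
      have h2 := (ordEq_val hfr hc hP hω.1 (hg P l hP ht hPl)).2
      have h3 := (ordEq_val hfr hc hP hη (hηg P hP ht)).2
      rw [hordf P h0]
      have h4 : ((P.ord (ω E) + m * P.ord (y i / y l) - (m * q : ℕ) * P.ord (η E) : ℤ)
          : ℚ) = 0 := by
        push_cast
        push_cast at h2
        have h5 : (P.ord (η E) : ℚ) = -(r * Δ P) - r * c P := by linarith
        have h6 : (P.ord (ω E) : ℚ) = -(m * (r * q) * Δ P) - m * P.ord (y i / y l) -
          m * (r * q) * c P := by linarith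
        rw [h5, h6]
        ring
      exact_mod_cast h4
    rw [hordf Q h0] at h1
    push_cast at h1
    linarith

end

end Pool.Agent.R887
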