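import Pool.Agent.R887.GapC
import Pool.Agent.R887.CorJ

/-!
**Gap.** One multi-valued map of large degree from a fixed variety to a variety with nef log
canonical divisor.
-/

set_option autoImplicit false
set_option linter.overlappingInstances false
set_option linter.unusedSectionVars false

open FF Module MvPolynomial Pool.Agent.W602.GT Pool.Agent.W603.LV Pool.Agent.W619.PQ
open Pool.Agent.Y172 Pool.Agent.Y191

namespace Pool.Agent.R887

section

variable {K' : Type} [Field K'] [Algebra ℂ K'] {N' : ℕ} {y' : Fin (N' + 1) → K'} {n : ℕ}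

theorem gap_one_map (hy' : NormalModel y') (hn' : Algebra.trdeg ℂ K' = n) (hn0 : 0 < n)
    {S : Set (Place ℂ K')} (hS : S.Finite) :
    ∃ C : ℕ, 0 < C ∧ ∀ {K L : Type} [Field K] [Algebra ℂ K] [Field L] [Algebra ℂ L] {N : ℕ}
      {y : Fin (N + 1) → K} {Δ : Place ℂ K → ℚ}, NormalModel y → Algebra.trdeg ℂ K = n →
      LogCanonical y n Δ →
      ∀ (φ : K →ₐ[ℂ] L) (ψ : K' →ₐ[ℂ] L), FiniteDimensional ψ.fieldRange L →
      UnramifiedOutside ψ y' S → MultiPullBackLe φ ψ y n Δ y' S →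
      (∀ (j : ℕ) (c : ℝ), j ≤ n → MultiDegreeLe φ ψ y y' (n - j) j c →
        0 ≤ c ∧ PositiveProductLe y n Δ j (c * C ^ j)) ∧
      ∀ (r : ℕ) (c : ℝ), 1 ≤ r → CartierIndex y n Δ r → LogNef y n Δ →
        MultiDegreeLe φ ψ y y' (n - 1) 1 c → c * (C * r) < 1 → NumDimLt y n Δ 1 := by
  obtain ⟨M, hM⟩ := one_map hy' hn' hn0 hS
  obtain ⟨C1, hC1, h1⟩ := one_map_lc hy' hn' hn0 hS
  refine ⟨M + C1, by omega, ?_⟩
  intro K L _ _ _ _ N y Δ hy hn hlc φ ψ hψ hun hpb
  have hA := h1 hy hn hlc φ ψ hψ hun hpb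
  refine ⟨fun j c hj hc => ?_, fun r c hr hcar hnef hc hlt => ?_⟩
  · obtain ⟨hc0, hpp⟩ := hA j c hj hc
    refine ⟨hc0, fun A hA ε hε => ?_⟩
    obtain ⟨t, ht, m0, h⟩ := hpp A hA ε hε
    refine ⟨t, ht, m0, fun m b hm hb u hu ω E hω h0 => (h m b hm hb u hu ω E hω h0).trans ?_⟩
    refine mul_le_mul_of_nonneg_right ?_ (by positivity)
    have h2 : (C1 : ℝ) ^ j ≤ ((M + C1 : ℕ) : ℝ) ^ j := by
      refine pow_le_pow_left₀ (Nat.cast_nonneg _) ?_ j
      push_cast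
      have : (0 : ℝ) ≤ M := Nat.cast_nonneg _
      linarith
    have h3 := mul_le_mul_of_nonneg_left h2 hc0
    linarith
  · have hc0 : 0 ≤ c := (hA 1 c (by omega) hc).1
    refine gap (c := c) (M := M) hy hn hn0 hr hcar hnef hc0 (fun A hA => ?_) ?_
    · obtain ⟨β, C, h⟩ := hM hy hn hlc hA φ ψ hψ hun hpb
      exact ⟨β, C, fun m b hm u hu ω E hω h0 =>
        h (j := 1) (by omega) hc m b hm u hu ω E hω h0⟩
    · refine lt_of_le_of_lt ?_ hlt
      have h2 : (0 : ℝ) ≤ C1 := Nat.cast_nonneg _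
      have h3 : (0 : ℝ) ≤ r := Nat.cast_nonneg _
      have h4 : 0 ≤ c * (C1 * r) := by positivity
      push_cast
      nlinarith

end

end Pool.Agent.R887
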