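import Pool.Agent.R887.One
import Pool.Agent.R887.Defs
import Pool.Agent.Y172.Loc3
import Pool.Agent.Y172.Alg

/-!
General pencils of hyperplane sections are independent on finitely many prime divisors.
-/

set_option autoImplicit false
set_option linter.overlappingInstances false
set_option linter.unusedSectionVars false

open FF MvPolynomial Pool.Agent.W602.GT
open Pool.Agent.Y172

namespace Pool.Agent.R887

section

variable {K : Type} [Field K] [Algebra ℂ K]

/-- The residues of the functions `u i` at `P` are algebraically independent. -/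
def Indep (P : Place ℂ K) {l : ℕ} (u : Fin l → K) : Prop :=
  ∀ F : MvPolynomial (Fin l) ℂ, F ≠ 0 → aeval u F ≠ 0 ∧ P.ord (aeval u F) = 0

theorem reg_aeval {P : Place ℂ K} {ι : Type} {u : ι → K} (hu : ∀ i, P.Reg (u i))
    (F : MvPolynomial ι ℂ) : P.Reg (aeval u F) := by
  induction F using MvPolynomial.induction_on with
  | C a =>
    rw [aeval_C]
    exact P.reg_const a
  | add p q hp hq =>
    rw [map_add]
    exact P.reg_add hp hq
  | mul_X p i hp =>
    rw [map_mul, aeval_X]
    exact P.reg_mul hp (hu i)

theorem red_aeval {P : Place ℂ K} {ι : Type} {u : ι → K} (hu : ∀ i, P.Reg (u i))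
    (F : MvPolynomial ι ℂ) : P.red (aeval u F) = aeval (fun i => P.red (u i)) F := by
  induction F using MvPolynomial.induction_on with
  | C a =>
    rw [aeval_C, aeval_C, P.algebraMap_RF]
  | add p q hp hq =>
    rw [map_add, map_add, P.red_add (reg_aeval hu p) (reg_aeval hu q), hp, hq]
  | mul_X p i hp =>
    rw [map_mul, map_mul, aeval_X, aeval_X, P.red_mul (reg_aeval hu p) (hu i), hp]

theorem indep_iff {P : Place ℂ K} {l : ℕ} {u : Fin l → K} (hu : ∀ i, P.Reg (u i)) :
    Indep P u ↔ AlgebraicIndependent ℂ (fun i => P.red (u i)) := by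
  constructor
  · intro h
    refine (injective_iff_map_eq_zero _).2 fun F hF => ?_
    by_contra hF0
    obtain ⟨h1, h2⟩ := h F hF0
    change aeval (fun i => P.red (u i)) F = 0 at hF
    rw [← red_aeval hu] at hF
    exact P.red_ne_zero h1 h2 hF
  · intro h F hF
    have h1 : P.red (aeval u F) ≠ 0 := by
      rw [red_aeval hu]
      exact fun h0 => hF ((injective_iff_map_eq_zero _).1 h F h0)
    rw [Ne, P.red_eq_zero_iff (reg_aeval hu F)] at h1
    push Not at h1
    have h2 := (P.reg_iff h1.1).1 (reg_aeval hu F)
    exact ⟨h1.1, by omega⟩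

theorem Indep.reg {P : Place ℂ K} {l : ℕ} {u : Fin l → K} (h : Indep P u) (i : Fin l) :
    P.Reg (u i) := by
  have h1 := (h (X i) (X_ne_zero _)).2
  rw [aeval_X] at h1
  exact Or.inr h1.ge

variable {N n : ℕ} {y : Fin (N + 1) → K}

/-- the residues of the affine coordinates generate the residue field -/
theorem gen_RF {P : Place ℂ K} (hP : IsPrimeDivisor y P) {v : K} (hv0 : v ≠ 0)
    (hvs : v ∈ Submodule.span ℂ (Set.range y))
    (hv : ∀ i, y i ≠ 0 → P.ord v ≤ P.ord (y i)) (M : IntermediateField ℂ P.RF)
    (hM : ∀ i, P.red (y i / v) ∈ M) : M = ⊤ := by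
  have hreg : ∀ i, P.Reg (y i / v) := by
    intro i
    by_cases hi : y i = 0
    · rw [hi, zero_div]
      exact P.reg_zero
    · rw [P.reg_iff (div_ne_zero hi hv0), P.ord_div hi hv0]
      have := hv i hi
      omega
  rw [eq_top_iff]
  rintro c -
  obtain ⟨f, hf, rfl⟩ := P.red_surjective c
  obtain ⟨j, hj, a, ha, b, hb, hb0, hbo, hab⟩ := hP f hf
  -- `y j / v` is a unit
  have hvj : P.Reg (v / y j) := by
    rw [Submodule.mem_span_range_iff_exists_fun] at hvs
    obtain ⟨c, rfl⟩ := hvs
    rw [Finset.sum_div]
    have : ∀ s : Finset (Fin (N + 1)), P.Reg (∑ i ∈ s, c i • y i / y j) := by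
      intro s
      induction s using Finset.induction_on with
      | empty =>
        rw [Finset.sum_empty]
        exact P.reg_zero
      | insert i s hi ih =>
        rw [Finset.sum_insert hi]
        refine P.reg_add ?_ ih
        rw [Algebra.smul_def, mul_div_assoc]
        exact P.reg_mul (P.reg_const _) (hj.2 i)
    exact this _
  have hju : P.ord (y j / v) = 0 := by
    have h1 := (P.reg_iff (div_ne_zero hj.1 hv0)).1 (hreg j)
    have h2 := (P.reg_iff (div_ne_zero hv0 hj.1)).1 hvj
    rw [P.ord_div hj.1 hv0] at h1 ⊢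
    rw [P.ord_div hv0 hj.1] at h2
    omega
  have hjr : P.red (y j / v) ≠ 0 := P.red_ne_zero (div_ne_zero hj.1 hv0) hju
  have hgen : ∀ i, P.red (y i / y j) ∈ M := by
    intro i
    have h1 : P.red (y i / y j) * P.red (y j / v) = P.red (y i / v) := by
      rw [← P.red_mul (hj.2 i) (hreg j), div_mul_div_cancel₀ hj.1]
    have h2 : P.red (y i / y j) = P.red (y i / v) / P.red (y j / v) := by
      rw [← h1, mul_div_cancel_right₀ _ hjr]
    rw [h2]
    exact M.div_mem (hM i) (hM j)
  have hch : ∀ a ∈ chart y j, P.red a ∈ M := by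
    intro a ha
    have h1 : P.Reg a ∧ P.red a ∈ M := by
      induction ha using Algebra.adjoin_induction with
      | mem x hx =>
        obtain ⟨i, rfl⟩ := hx
        exact ⟨hj.2 i, hgen i⟩
      | algebraMap r => exact ⟨P.reg_const r, M.algebraMap_mem r⟩
      | add x z _ _ hx hz => exact ⟨P.reg_add hx.1 hz.1, by
          rw [P.red_add hx.1 hz.1]
          exact M.add_mem hx.2 hz.2⟩
      | mul x z _ _ hx hz => exact ⟨P.reg_mul hx.1 hz.1, by
          rw [P.red_mul hx.1 hz.1]
          exact M.mul_mem hx.2 hz.2⟩
    exact h1.2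
  have hbr : P.red b ≠ 0 := P.red_ne_zero hb0 hbo
  have h1 : P.red f * P.red b = P.red a := by
    rw [← P.red_mul hf (hj.reg b hb), hab]
  have h2 : P.red f = P.red a / P.red b := by
    rw [← h1, mul_div_cancel_right₀ _ hbr]
  rw [h2]
  exact M.div_mem (hch a ha) (hch b hb)

/-- **General pencils.** -/
theorem exists_pencils (hy0 : ∃ i, y i ≠ 0) {Z : Set (Place ℂ K)} (hZ : Z.Finite)
    (hZp : ∀ P ∈ Z, IsPrimeDivisor y P) (hZd : ∀ P ∈ Z, Divisorial n P) :
    ∃ u : Fin (n - 1) → K, (∀ i, IsPencil y (u i)) ∧ ∀ P ∈ Z, Indep P u := by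
  classical
  obtain ⟨i0, hi0⟩ := hy0
  obtain ⟨v, hvs, hv0, hv⟩ := exists_generic (k₀ := ℂ) (k := ℂ) (Set.finite_range y) Z hZ
    ⟨y i0, ⟨i0, rfl⟩, hi0⟩
  have hreg : ∀ P ∈ Z, ∀ i, P.Reg (y i / v) := by
    intro P hP i
    by_cases hi : y i = 0
    · rw [hi, zero_div]
      exact P.reg_zero
    · rw [P.reg_iff (div_ne_zero hi hv0), P.ord_div hi hv0]
      have := hv P hP (y i) ⟨i, rfl⟩ hi
      omega
  obtain ⟨V, hV⟩ : ∃ V, V = Submodule.span ℂ (Set.range fun i => y i / v) := ⟨_, rfl⟩
  have hVreg : ∀ P ∈ Z, ∀ w ∈ V, P.Reg w := by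
    intro P hP w hw
    rw [hV] at hw
    induction hw using Submodule.span_induction with
    | mem x hx =>
      obtain ⟨i, rfl⟩ := hx
      exact hreg P hP i
    | zero => exact P.reg_zero
    | add x z _ _ hx hz => exact P.reg_add hx hz
    | smul c x _ hx =>
      rw [Algebra.smul_def]
      exact P.reg_mul (P.reg_const c) hx
  have hVp : ∀ w ∈ V, IsPencil y w := by
    intro w hw
    rw [hV, Submodule.mem_span_range_iff_exists_fun] at hw
    obtain ⟨c, rfl⟩ := hw
    have hvs' := hvs
    rw [Submodule.mem_span_range_iff_exists_fun] at hvs'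
    obtain ⟨b, hb⟩ := hvs'
    have hb' : ∑ i, algebraMap ℂ K (b i) * y i = v := by
      rw [← hb]
      exact Finset.sum_congr rfl fun i _ => (Algebra.smul_def _ _).symm
    refine ⟨c, b, by rwa [hb'], ?_⟩
    rw [hb', Finset.sum_div]
    refine Finset.sum_congr rfl fun i _ => ?_
    rw [Algebra.smul_def, mul_div_assoc]
  have key : ∀ l : ℕ, l ≤ n - 1 → ∃ u : Fin l → K, (∀ i, u i ∈ V) ∧ ∀ P ∈ Z, Indep P u := by
    intro l
    induction l with
    | zero =>
      refine fun _ => ⟨Fin.elim0, fun i => i.elim0, fun P _ => ?_⟩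
      rw [indep_iff fun i => i.elim0, algebraicIndependent_empty_type_iff]
      exact FaithfulSMul.algebraMap_injective ℂ P.RF
    | succ l ih =>
      intro hl
      obtain ⟨u, hu, hP⟩ := ih (by omega)
      have hur : ∀ P ∈ Z, ∀ i, P.Reg (u i) := fun P hPZ i => hVreg P hPZ _ (hu i)
      -- the bad subspaces
      let W : Place ℂ K → Submodule ℂ V := fun P =>
        if hPZ : P ∈ Z then
          { carrier := {w | P.red (w : K) ∈ acl ℂ (Set.range fun i => P.red (u i))}
            add_mem' := by
              intro a b ha hb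
              change P.red ((a : K) + (b : K)) ∈ acl ℂ (Set.range fun i => P.red (u i))
              rw [P.red_add (hVreg P hPZ a a.2) (hVreg P hPZ b b.2)]
              exact add_mem ha hb
            zero_mem' := by
              change P.red 0 ∈ acl ℂ (Set.range fun i => P.red (u i))
              rw [P.red_zero]
              exact zero_mem _
            smul_mem' := by
              intro c a ha
              change P.red (c • (a : K)) ∈ acl ℂ (Set.range fun i => P.red (u i))
              rw [Algebra.smul_def, P.red_mul (P.reg_const c) (hVreg P hPZ a a.2)]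
              exact mul_mem ((acl ℂ (Set.range fun i => P.red (u i))).algebraMap_mem c) ha }
        else ⊥
      have hW : ∀ P (hPZ : P ∈ Z) (w : V), w ∈ W P ↔
          P.red (w : K) ∈ acl ℂ (Set.range fun i => P.red (u i)) := by
        intro P hPZ w
        have : W P = _ := dif_pos hPZ
        rw [this]
        rfl
      have hne : (⊤ : Submodule ℂ V) ∉ insert ⊥ (hZ.toFinset.image W) := by
        intro h
        rw [Finset.mem_insert] at h
        rcases h with h | h
        · have h1 : (⟨y i0 / v, by rw [hV]; exact Submodule.subset_span ⟨i0, rfl⟩⟩ : V) ∈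
            (⊤ : Submodule ℂ V) := trivial
          rw [h, Submodule.mem_bot] at h1
          exact div_ne_zero hi0 hv0 (congrArg Subtype.val h1)
        rw [Finset.mem_image] at h
        obtain ⟨P, hPZ, htop⟩ := h
        rw [Set.Finite.mem_toFinset] at hPZ
        have h2 := gen_RF (hZp P hPZ) hv0 hvs (fun i hi => hv P hPZ (y i) ⟨i, rfl⟩ hi)
          (acl ℂ (Set.range fun i => P.red (u i))) fun i => by
            rw [← hW P hPZ ⟨y i / v, by rw [hV]; exact Submodule.subset_span ⟨i, rfl⟩⟩, htop]
            trivial
        -- the transcendence degree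
        obtain ⟨u', hu'⟩ := hZd P hPZ
        have h3 : Indep P u' := hu'
        have h4 := (indep_iff h3.reg).1 h3
        have h5 : Algebra.IsAlgebraic
            (IntermediateField.adjoin ℂ (Set.range fun i => P.red (u i))) P.RF := by
          constructor
          intro x
          rw [← mem_acl, h2]
          trivial
        open scoped IntermediateField.algebraAdjoinAdjoin in
        have h6 : Algebra.IsAlgebraic
            (Algebra.adjoin ℂ (Set.range fun i => P.red (u i))) P.RF :=
          Algebra.IsAlgebraic.trans _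
            (IntermediateField.adjoin ℂ (Set.range fun i => P.red (u i))) P.RF
        have h7 := Algebra.IsAlgebraic.trdeg_le_cardinalMk ℂ (Set.range fun i => P.red (u i))
          (A := P.RF)
        have h8 := h4.cardinalMk_le_trdeg.trans (h7.trans Cardinal.mk_range_le)
        rw [Cardinal.mk_fin, Cardinal.mk_fin] at h8
        have h9 : n - 1 ≤ l := by exact_mod_cast h8
        omega
      have h1 := Subspace.biUnion_ne_univ_of_top_notMem hne
      obtain ⟨w, hw⟩ := (Set.ne_univ_iff_exists_notMem _).1 h1
      simp only [Set.mem_iUnion, not_exists] at hw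
      refine ⟨Fin.cons (w : K) u, fun i => ?_, fun P hPZ => ?_⟩
      · refine Fin.cases ?_ (fun i => ?_) i
        · exact w.2
        · exact hu i
      · have hcr : ∀ i, P.Reg ((Fin.cons (w : K) u : Fin (l + 1) → K) i) := by
          intro i
          refine Fin.cases ?_ (fun i => ?_) i
          · exact hVreg P hPZ w w.2
          · exact hur P hPZ i
        rw [indep_iff hcr]
        have h2 := (indep_iff (hur P hPZ)).1 (hP P hPZ)
        have h3 : w ∉ W P := fun h =>
          hw (W P) (Finset.mem_insert_of_mem (Finset.mem_image_of_mem _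
            (by rwa [Set.Finite.mem_toFinset]))) h
        rw [hW P hPZ, mem_acl] at h3
        have h4 : Transcendental (Algebra.adjoin ℂ (Set.range fun i => P.red (u i)))
            (P.red (w : K)) := by
          intro h5
          apply h3
          open scoped IntermediateField.algebraAdjoinAdjoin in
          exact h5.extendScalars (S := IntermediateField.adjoin ℂ
            (Set.range fun i => P.red (u i))) (FaithfulSMul.algebraMap_injective _ _)
        have h5 := (h2.option_iff_transcendental (P.red (w : K))).2 h4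
        refine (algebraicIndependent_equiv' (finSuccEquiv l) ?_).2 h5
        funext i
        refine Fin.cases ?_ (fun i => ?_) i
        · simp
        · simp
  obtain ⟨u, hu, hP⟩ := key (n - 1) le_rfl
  exact ⟨u, fun i => hVp _ (hu i), hP⟩

end

end Pool.Agent.R887
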