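import Pool.Agent.R887.AbsD
import Pool.Agent.Y71.NT.Abh
import Pool.Agent.Y297.NT.Pull

/-!
Degrees for a dominant rational map onto a variety of smaller dimension.
-/

set_option autoImplicit false
set_option linter.overlappingInstances false
set_option linter.unusedSectionVars false

open FF Module MvPolynomial Pool.Agent.W602.GT Pool.Agent.W603.LV Pool.Agent.W619.PQ
open Pool.Agent.Y172 Pool.Agent.Y191

namespace Pool.Agent.R887

section ratios

variable {k K : Type} [Field k] [Field K] [Algebra k K] [Infinite k] [CharZero k]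

/-- several quotients, with different denominators, are replaced -/
theorem replace_ratios {ι : Type} [Finite ι] [DecidableEq ι] (hn : Algebra.trdeg k K = Nat.card ι)
    {S : Set K} (hS : S.Finite) (h1 : (1 : K) ∈ S) {B : ℕ} (f₀ f₁ : ι → K) (J : Finset ι)
    (w : ι → K) (hf₀ : ∀ i ∈ J, f₀ i ≠ 0) (hf₁ : ∀ i ∈ J, f₁ i ≠ 0)
    (hb₀ : ∀ i ∈ J, Bnd k S B (f₀ i)) (hb₁ : ∀ i ∈ J, Bnd k S B (f₁ i))
    (hw : ∀ i ∈ J, w i = f₁ i / f₀ i) :
    ∃ v : ι → K, (∀ i ∈ J, v i ∈ Submodule.span k S) ∧ (∀ i ∉ J, v i = w i) ∧
      dg k w ≤ B ^ J.card * dg k v := by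
  classical
  induction J using Finset.induction_on generalizing w with
  | empty => exact ⟨w, fun i hi => absurd hi (Finset.notMem_empty i), fun i _ => rfl, by simp⟩
  | insert a J ha ih =>
    obtain ⟨z, hz, hle⟩ := replace_one hn hS h1 (hf₀ a (Finset.mem_insert_self _ _))
      (hf₁ a (Finset.mem_insert_self _ _)) (hb₀ a (Finset.mem_insert_self _ _))
      (hb₁ a (Finset.mem_insert_self _ _)) w a (hw a (Finset.mem_insert_self _ _))
    have hne : ∀ i ∈ J, i ≠ a := by
      rintro i hi rfl
      exact ha hi
    obtain ⟨v, hv1, hv2, hv3⟩ := ih (Function.update w a z)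
      (fun i hi => hf₀ i (Finset.mem_insert_of_mem hi))
      (fun i hi => hf₁ i (Finset.mem_insert_of_mem hi))
      (fun i hi => hb₀ i (Finset.mem_insert_of_mem hi))
      (fun i hi => hb₁ i (Finset.mem_insert_of_mem hi)) fun i hi => by
        rw [Function.update_of_ne (hne i hi)]
        exact hw i (Finset.mem_insert_of_mem hi)
    refine ⟨v, fun i hi => ?_, fun i hi => ?_, ?_⟩
    · rcases Finset.mem_insert.1 hi with rfl | hi
      · rw [hv2 i ha, Function.update_self]
        exact hz
      · exact hv1 i hi
    · have h2 : i ≠ a := by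
        rintro rfl
        exact hi (Finset.mem_insert_self _ _)
      rw [hv2 i fun h => hi (Finset.mem_insert_of_mem h), Function.update_of_ne h2]
    · rw [Finset.card_insert_of_notMem ha, pow_succ, mul_comm (B ^ _) B, mul_assoc]
      exact hle.trans (Nat.mul_le_mul_left _ hv3)

end ratios

section base

variable {k F K : Type} [Field k] [Field F] [Field K] [Algebra k F] [Algebra k K] [Algebra F K]
  [IsScalarTower k F K]

/-- **Degrees over the base.** -/
theorem dg_base {ι κ : Type} {v : ι → F} {u : κ → K} (hu : AlgebraicIndependent F u)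
    (hfin : dg k (Sum.elim u fun i => algebraMap F K (v i)) ≠ 0) :
    dg k v ≤ dg k (Sum.elim u fun i => algebraMap F K (v i)) := by
  classical
  by_cases h0 : dg k v = 0
  · rw [h0]
    exact Nat.zero_le _
  have hfd := finite_of_dg h0
  obtain ⟨B, hB⟩ : ∃ B, B = IntermediateField.adjoin k (Set.range v) := ⟨_, rfl⟩
  have hBdg : dg k v = finrank B F := by
    rw [hB]
    rfl
  rw [← hB] at hfd
  obtain ⟨B', hB'⟩ : ∃ B', B' = IntermediateField.adjoin k (Set.range fun i => algebraMap F K (v i)) :=
    ⟨_, rfl⟩
  have hmap : B' = B.map (IsScalarTower.toAlgHom k F K) := by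
    rw [hB, hB', IntermediateField.adjoin_map, ← Set.range_comp]
    rfl
  have hM : dg k (Sum.elim u fun i => algebraMap F K (v i)) =
      finrank (IntermediateField.adjoin B' (Set.range u)) K := by
    unfold dg
    rw [Set.Sum.elim_range, Set.union_comm, ← IntermediateField.adjoin_adjoin_left, hB']
    rfl
  rw [hM] at hfin ⊢
  rw [hBdg]
  have hfd' : FiniteDimensional (IntermediateField.adjoin B' (Set.range u)) K :=
    FiniteDimensional.of_finrank_pos (Nat.pos_of_ne_zero hfin)
  have hb := (Module.finBasis B F).linearIndependent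
  obtain ⟨b, hbdef⟩ : ∃ b : Fin (finrank B F) → F, b = Module.finBasis B F := ⟨_, rfl⟩
  rw [← hbdef] at hb
  -- the ring of polynomials
  have hA : LinearIndependent (Algebra.adjoin B' (Set.range u))
      (fun i => algebraMap F K (b i)) := by
    rw [Fintype.linearIndependent_iff]
    intro g hg
    have h1 : ∀ i, ∃ p : MvPolynomial κ B', aeval u p = (g i : K) := by
      intro i
      have h2 : ∀ x : K, x ∈ Algebra.adjoin B' (Set.range u) →
          ∃ p : MvPolynomial κ B', aeval u p = x := by
        intro x hx
        rw [Algebra.adjoin_range_eq_range_aeval] at hx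
        exact hx
      exact h2 _ (g i).2
    choose p hp using h1
    let e' : B →+* B' := ((IsScalarTower.toAlgHom k F K : F →+* K).comp
      (algebraMap B F)).codRestrict B' (fun x => by
        rw [hmap]
        exact ⟨(x : F), x.2, rfl⟩)
    have he' : ∀ x : B, ((e' x : B') : K) = algebraMap F K (x : F) := fun x => rfl
    have hsurj : Function.Surjective e' := by
      rintro ⟨x, hx⟩
      rw [hmap] at hx
      obtain ⟨z, hz, hzx⟩ := hx
      exact ⟨⟨z, hz⟩, Subtype.ext hzx⟩
    choose q hq using fun i => MvPolynomial.map_surjective e' hsurj (p i)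
    have h3 : ∀ i, aeval u (MvPolynomial.map (algebraMap B F) (q i)) = (g i : K) := by
      intro i
      rw [← hp i, ← hq i, aeval_def, aeval_def, eval₂_map, eval₂_map]
      rfl
    have h4 : aeval u (∑ i, MvPolynomial.C (b i) * MvPolynomial.map (algebraMap B F) (q i)) = 0 := by
      rw [map_sum]
      rw [← hg]
      refine Finset.sum_congr rfl fun i _ => ?_
      rw [map_mul, h3, aeval_C, mul_comm]
      rfl
    have h5 := (injective_iff_map_eq_zero _).1 hu _ h4
    have h6 : ∀ m : κ →₀ ℕ, ∀ i, (q i).coeff m = 0 := by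
      intro m
      have h7 : ∑ i, (q i).coeff m • b i = 0 := by
        have h8 := congrArg (MvPolynomial.coeff m) h5
        rw [MvPolynomial.coeff_sum, MvPolynomial.coeff_zero] at h8
        rw [← h8]
        refine Finset.sum_congr rfl fun i _ => ?_
        rw [MvPolynomial.coeff_C_mul, MvPolynomial.coeff_map, mul_comm]
        rfl
      exact Fintype.linearIndependent_iff.1 hb _ h7
    intro i
    have h7 : q i = 0 := by
      ext m
      rw [h6 m i, MvPolynomial.coeff_zero]
    apply Subtype.ext
    rw [← h3 i, h7, map_zero, map_zero]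
    rfl
  open scoped IntermediateField.algebraAdjoinAdjoin in
  have hMi : LinearIndependent (IntermediateField.adjoin B' (Set.range u))
      (fun i => algebraMap F K (b i)) :=
    (LinearIndependent.iff_fractionRing (Algebra.adjoin B' (Set.range u))
      (IntermediateField.adjoin B' (Set.range u))).1 hA
  have h1 := hMi.fintype_card_le_finrank
  rwa [Fintype.card_fin] at h1

end base

end Pool.Agent.R887
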