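import Pool.Agent.R887.ImgA

/-!
The pull backs of the sections of `m (K_R + Δ)` by a dominant rational map `X ⇢ R` onto a variety of
smaller dimension.
-/

set_option autoImplicit false
set_option linter.overlappingInstances false
set_option linter.unusedSectionVars false

open FF Module MvPolynomial Pool.Agent.W602.GT Pool.Agent.W603.LV Pool.Agent.W619.PQ
open Pool.Agent.Y172 Pool.Agent.Y191

namespace Pool.Agent.R887

section

variable {F K : Type} [Field F] [Field K] [Algebra ℂ F] [Algebra ℂ K] [Algebra F K]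
  [IsScalarTower ℂ F K] {m n N R : ℕ} {y : Fin (N + 1) → K} {w : Fin (R + 1) → F}

/-- the functional determinant as a tensor field -/
noncomputable def jacT (x : Fin m → K) : Tensor K m :=
  (Matrix.detRowAlternating (R := K) (n := Fin m)).toMultilinearMap.compLinearMap fun _ =>
    LinearMap.pi fun j =>
      { toFun := fun D : Derivation ℂ K K => D (x j)
        map_add' := fun _ _ => rfl
        map_smul' := fun _ _ => rfl }

theorem jacT_apply (x : Fin m → K) (D : Fin m → Derivation ℂ K K) :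
    jacT x D = (Matrix.of fun i j => D i (x j)).det := rfl

theorem jacT_ne {x : Fin m → K} (hx : AlgebraicIndependent ℂ x) : jacT x ≠ 0 := by
  classical
  obtain ⟨D, hD⟩ := exists_dual hx
  intro h
  have h1 : jacT x D = 0 := by rw [h]; rfl
  rw [jacT_apply] at h1
  have h2 : (Matrix.of fun i j => D i (x j)) = (1 : Matrix (Fin m) (Fin m) K) := by
    ext i j
    rw [Matrix.of_apply, hD, Matrix.one_apply]
  rw [h2, Matrix.det_one] at h1
  exact one_ne_zero h1

/-- the order of a determinant is at least the sum of the orders of the columns -/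
theorem det_ge_col {m : ℕ} {P : Place ℂ K} (M : Matrix (Fin m) (Fin m) K) (c : Fin m → ℤ)
    (h : ∀ i j, Ge P (c j) (M i j)) : Ge P (∑ j, c j) M.det := by
  rw [Matrix.det_apply]
  refine Ge.sum _ _ fun τ _ => ?_
  have h1 : Ge P (∑ j, c j) (∏ i, M (τ i) i) := Ge.prod _ _ _ fun j _ => h _ _
  rw [Units.smul_def, zsmul_eq_mul]
  have h2 := (Ge.intCast (P := P) ((Equiv.Perm.sign τ : ℤˣ) : ℤ)).mul h1
  rwa [zero_add] at h2

/-- **Orders of pull backs.** -/
theorem img_ord [Algebra.EssFiniteType ℂ F] (hm : Algebra.trdeg ℂ F = m) {P : Place ℂ K}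
    {Q : Place ℂ F} {e : ℕ} (hov : Over P Q e) (hQ : Divisorial m Q) {x : Fin m → F}
    {E : Fin m → Derivation ℂ F F} (hx : IsTranscendenceBasis ℂ x)
    (hE : ∀ i j, E i (x j) = if i = j then 1 else 0) {a : ℕ} (ha : 1 ≤ a)
    {ω : (Fin m → Derivation ℂ F F) → F} (hω : IsPluri a ω) {c : ℚ} (hc : OrdGe Q ω c)
    {D : Fin m → Derivation ℂ K K} (hD : ∀ i, DerReg P (D i)) {g : ℤ}
    (hg : g = e - 1 ∨ (g = e ∧ ∀ i, DerLog P (D i))) (hω0 : ω E ≠ 0)
    (hJ : jacT (fun j => algebraMap F K (x j)) D ≠ 0) :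
    (e : ℚ) * c + a * g ≤
      a * P.ord (jacT (fun j => algebraMap F K (x j)) D) + P.ord (algebraMap F K (ω E)) := by
  classical
  obtain ⟨z, G, i0, hl⟩ := exists_loc hm hQ
  have h1 := Pool.Agent.W73.PG.PULL.form_eq (L := K) x z hx hl.bas E G hE hl.dual
    (m := a) ω hω D
  rw [jacT_apply] at hJ ⊢
  have hφ0 : algebraMap F K (ω E) ≠ 0 := by rwa [Ne, map_eq_zero]
  have hne := mul_ne_zero (pow_ne_zero a hJ) hφ0
  rw [h1] at hne
  have hz0 : (Matrix.of fun i c => D i (algebraMap F K (z c))).det ≠ 0 := by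
    intro h
    rw [h, zero_pow (by omega), zero_mul] at hne
    exact hne rfl
  have hG0' : algebraMap F K (ω G) ≠ 0 := right_ne_zero_of_mul hne
  have hG0 : ω G ≠ 0 := by
    intro h
    rw [h, map_zero] at hG0'
    exact hG0' rfl
  have h2 : c ≤ Q.ord (ω G) := (hc G hl.pres).resolve_left hG0
  have h3 := congrArg P.ord h1
  rw [P.ord_mul (pow_ne_zero a hJ) hφ0, P.ord_mul (pow_ne_zero a hz0) hG0', P.ord_pow,
    P.ord_pow, hov.2 (ω G)] at h3
  have he0 : (0 : ℚ) ≤ e := Nat.cast_nonneg _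
  have hge : Ge P g (Matrix.of fun i c => D i (algebraMap F K (z c))).det := by
    have h4 : Ge P (∑ j, if j = i0 then g else 0)
        (Matrix.of fun i c => D i (algebraMap F K (z c))).det := by
      refine det_ge_col _ (fun j => if j = i0 then g else 0) fun i j => ?_
      rw [Matrix.of_apply]
      by_cases hj : j = i0
      · rw [if_pos hj, hj]
        have hz : P.ord (algebraMap F K (z i0)) = e := by
          rw [hov.2, hl.unif, mul_one]
        rcases hg with hg | ⟨hg, hlog⟩
        · have h5 := ge_der_reg (hD i) (algebraMap F K (z i0))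
          rw [hz, ← hg] at h5
          exact h5
        · exact DerLog.ge (hlog i) (Or.inr (by rw [hz, hg]))
      · rw [if_neg hj]
        exact hD i _ (hov.reg.2 (hl.reg j))
    rwa [Finset.sum_ite_eq' Finset.univ i0 (fun _ => g), if_pos (Finset.mem_univ _)] at h4
  have h4 : g ≤ P.ord (Matrix.of fun i c => D i (algebraMap F K (z c))).det :=
    hge.resolve_left hz0
  have h5 : (g : ℚ) ≤ (P.ord (Matrix.of fun i c => D i (algebraMap F K (z c))).det : ℚ) := by
    exact_mod_cast h4
  have h6 : ((a : ℚ) * P.ord (Matrix.of fun i j => D i (algebraMap F K (x j))).det +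
      P.ord (algebraMap F K (ω E))) =
      a * P.ord (Matrix.of fun i c => D i (algebraMap F K (z c))).det + e * Q.ord (ω G) := by
    exact_mod_cast h3
  rw [h6]
  have ha0 : (0 : ℚ) ≤ a := Nat.cast_nonneg _
  have h7 := mul_le_mul_of_nonneg_left h5 ha0
  have h8 := mul_le_mul_of_nonneg_left h2 he0
  linarith

/-- **The pull backs of the sections at the prime divisors.** -/
theorem img_bound (hy : NormalModel y) (hn : Algebra.trdeg ℂ K = n) (hw : NormalModel w)
    (hm : Algebra.trdeg ℂ F = m) {Δ A : Place ℂ F → ℚ} (hLC : LogCanonical w m Δ)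
    {Bd : Set (Place ℂ K)} (hpb : ∀ P, IsPrimeDivisor y P → P ∉ Bd → ∀ (Q : Place ℂ F) (e : ℕ),
      Over P Q e → ∃ α : ℚ, LogDisc w m Δ Q α ∧ 1 ≤ e * α) {x : Fin m → F}
    {E : Fin m → Derivation ℂ F F} (hx : IsTranscendenceBasis ℂ x)
    (hE : ∀ i j, E i (x j) = if i = j then 1 else 0) {s : Fin (R + 1) → F}
    (hs : ∀ j, ∀ Q : Place ℂ F, Centred w j Q → ∀ α : ℚ, LogDisc w m Δ Q α → ∀ a b : ℕ, 1 ≤ a →
      ∀ ω, IsSection w m a (a • Δ + b • A) ω → OrdGe Q ω (a * (α - 1) - b * (Q.ord (s j) : ℤ)))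
    {a b : ℕ} (ha : 1 ≤ a) {ω : (Fin m → Derivation ℂ F F) → F}
    (hω : IsSection w m a (a • Δ + b • A) ω) (hω0 : ω E ≠ 0) {P : Place ℂ K}
    (hP : IsPrimeDivisor y P) {g : ℝ}
    (hg : ∀ j, (P.ord (algebraMap F K (s j)) : ℝ) ≤ g) (hg0 : 0 ≤ g)
    {D : Fin m → Derivation ℂ K K} (hD : ∀ i, DerReg P (D i))
    (hDB : P ∈ Bd → ∀ i, DerLog P (D i)) (hJ : jacT (fun j => algebraMap F K (x j)) D ≠ 0) :
    -(b * g) ≤ a * P.ord (jacT (fun j => algebraMap F K (x j)) D) +
      P.ord (algebraMap F K (ω E)) := by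
  classical
  have hess := hw.ess
  have hb0 : (0 : ℝ) ≤ b := Nat.cast_nonneg _
  by_cases htriv : ∃ f : F, P.ord (algebraMap F K f) ≠ 0
  · obtain ⟨e, Q, hov⟩ := exists_over P htriv
    have hQ : Divisorial m Q :=
      Pool.Agent.Y71.NT.t_abh F K m n hm hn P Q e hov (hP.divisorial hy hn)
    obtain ⟨j, hj⟩ := exists_centred hw Q
    have he : P.ord (algebraMap F K (s j)) = e * Q.ord (s j) := hov.2 _
    have h3 : (b : ℝ) * (P.ord (algebraMap F K (s j)) : ℝ) ≤ b * g :=
      mul_le_mul_of_nonneg_left (hg j) hb0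
    have key : -((b : ℚ) * P.ord (algebraMap F K (s j))) ≤
        a * P.ord (jacT (fun j => algebraMap F K (x j)) D) + P.ord (algebraMap F K (ω E)) := by
      by_cases hPB : P ∈ Bd
      · have h1 := img_ord hm hov hQ hx hE ha hω.1 (hs j Q hj 0 (lc_disc hLC hQ) a b ha ω hω) hD
          (g := e) (Or.inr ⟨rfl, hDB hPB⟩) hω0 hJ
        refine le_trans (le_of_eq ?_) h1
        rw [he]
        push_cast
        ring
      · obtain ⟨α, hα, hα1⟩ := hpb P hP hPB Q e hov
        have h1 := img_ord hm hov hQ hx hE ha hω.1 (hs j Q hj α hα a b ha ω hω) hD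
          (g := e - 1) (Or.inl rfl) hω0 hJ
        refine le_trans ?_ h1
        rw [he]
        push_cast
        have ha0 : (0 : ℚ) ≤ a := Nat.cast_nonneg _
        have h2 := mul_nonneg ha0 (sub_nonneg.2 hα1)
        linarith
    have key' : -((b : ℝ) * P.ord (algebraMap F K (s j))) ≤
        a * P.ord (jacT (fun j => algebraMap F K (x j)) D) + P.ord (algebraMap F K (ω E)) := by
      exact_mod_cast key
    linarith
  · push Not at htriv
    rw [htriv (ω E), Int.cast_zero, add_zero]
    have h9 : Ge P 0 (jacT (fun j => algebraMap F K (x j)) D) :=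
      Pool.Agent.W619.PQ.ge_det P _ fun i j => hD i _ (Or.inr (htriv _).ge)
    have h10 : (0 : ℤ) ≤ P.ord (jacT (fun j => algebraMap F K (x j)) D) := h9.resolve_left hJ
    have h11 : (0 : ℝ) ≤ P.ord (jacT (fun j => algebraMap F K (x j)) D) := by exact_mod_cast h10
    have h12 : (0 : ℝ) ≤ a := Nat.cast_nonneg _
    have h13 := mul_nonneg h12 h11
    have h14 := mul_nonneg hb0 hg0
    linarith

end

end Pool.Agent.R887
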