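import Pool.Agent.R887.ImgB

/-!
**The numerical dimension of the images.**
-/

set_option autoImplicit false
set_option linter.overlappingInstances false
set_option linter.unusedSectionVars false

open FF Module MvPolynomial Pool.Agent.W602.GT Pool.Agent.W603.LV Pool.Agent.W619.PQ
open Pool.Agent.Y172 Pool.Agent.Y191

namespace Pool.Agent.R887

section

variable {F K : Type} [Field F] [Field K] [Algebra ℂ F] [Algebra ℂ K] [Algebra F K]
  [IsScalarTower ℂ F K] {m n N R : ℕ} {y : Fin (N + 1) → K} {w : Fin (R + 1) → F}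

/-- pencils of hyperplane sections which are coordinates on the general fibre -/
theorem exists_comp (hy : NormalModel y) (hn : Algebra.trdeg ℂ K = n)
    (hm : Algebra.trdeg ℂ F = m) :
    m ≤ n ∧ ∃ u : Fin (n - m) → K, (∀ a, IsPencil y (u a)) ∧ IsTranscendenceBasis F u := by
  classical
  obtain ⟨l0, hl0⟩ := hy.ne
  obtain ⟨S, hS⟩ : ∃ S : Set K, S = Set.range fun i => y i / y l0 := ⟨_, rfl⟩
  have htop : IntermediateField.adjoin F S = ⊤ := by
    rw [eq_top_iff]
    intro z _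
    have h1 : z ∈ IntermediateField.adjoin ℂ S := by
      rw [hS, hy.field l0 hl0]
      exact IntermediateField.mem_top
    have h2 : IntermediateField.adjoin ℂ S ≤ (IntermediateField.adjoin F S).restrictScalars ℂ := by
      rw [IntermediateField.adjoin_le_iff]
      intro x hx
      exact IntermediateField.subset_adjoin F S hx
    exact h2 h1
  have halg1 : Algebra.IsAlgebraic (IntermediateField.adjoin F S) K := by
    refine ⟨fun z => ?_⟩
    have h1 : z ∈ IntermediateField.adjoin F S := by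
      rw [htop]
      exact IntermediateField.mem_top
    exact isAlgebraic_algebraMap (⟨z, h1⟩ : IntermediateField.adjoin F S)
  open scoped IntermediateField.algebraAdjoinAdjoin in
  have halg : Algebra.IsAlgebraic (Algebra.adjoin F S) K :=
    Algebra.IsAlgebraic.trans _ (IntermediateField.adjoin F S) K
  obtain ⟨t, hts, ht⟩ := exists_isTranscendenceBasis_subset (R := F) S
  have htr := trdeg_add_eq ℂ F (A := K)
  rw [hm, hn, ← ht.cardinalMk_eq_trdeg] at htr
  have hlt : Cardinal.mk t < Cardinal.aleph0 := by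
    refine lt_of_le_of_lt ?_ (Cardinal.natCast_lt_aleph0 (n := n))
    rw [← htr]
    exact self_le_add_left _ _
  obtain ⟨c, hc⟩ := Cardinal.lt_aleph0.1 hlt
  rw [hc] at htr
  have hcn : m + c = n := by exact_mod_cast htr
  have hce : Cardinal.mk (Fin (n - m)) = Cardinal.mk t := by
    rw [hc, Cardinal.mk_fin]
    congr 1
    omega
  obtain ⟨e⟩ := Cardinal.eq.1 hce
  refine ⟨by omega, fun i => (e i : K), fun i => ?_, (isTranscendenceBasis_equiv e).2 ht⟩
  have h1 : (e i : K) ∈ S := hts (e i).2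
  refine pencil_of_span hl0 (Submodule.subset_span ?_)
  rw [hS] at h1
  exact h1

/-- the degree is not zero -/
theorem dg_ne_zero {L : Type} [Field L] [Algebra ℂ L] [Algebra.EssFiniteType ℂ L] {ι : Type}
    {Z : ι → L} (hZ : IsTranscendenceBasis ℂ Z) : dg ℂ Z ≠ 0 := by
  have h2 : FiniteDimensional (IntermediateField.adjoin ℂ (Set.range Z)) L := by
    have hess : Algebra.EssFiniteType (IntermediateField.adjoin ℂ (Set.range Z)) L :=
      Algebra.EssFiniteType.of_comp ℂ _ L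
    have halg : Algebra.IsAlgebraic (IntermediateField.adjoin ℂ (Set.range Z)) L :=
      hZ.isAlgebraic_field
    obtain ⟨s, hs⟩ := IntermediateField.fg_top (IntermediateField.adjoin ℂ (Set.range Z)) L
    have h1 : FiniteDimensional (IntermediateField.adjoin ℂ (Set.range Z))
        (IntermediateField.adjoin (IntermediateField.adjoin ℂ (Set.range Z)) (s : Set L)) :=
      IntermediateField.finiteDimensional_adjoin fun x _ => (halg.isAlgebraic x).isIntegral
    rw [hs] at h1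
    exact h1.equiv IntermediateField.topEquiv.toLinearEquiv
  unfold dg
  exact Module.finrank_pos.ne'

/-- functions with bounded poles -/
theorem fin_bound (hy : NormalModel y) {l0 : Fin (N + 1)} (hl0 : y l0 ≠ 0) {c : ℕ}
    (f : Fin c → K) : ∃ (q : K) (g : ℕ), q ≠ 0 ∧ ∀ P l, IsPrimeDivisor y P → Centred y l P →
      ∀ j, |(P.ord (f j) : ℝ)| ≤ P.ord q + g * P.ord (y l0 / y l) := by
  classical
  obtain ⟨q, g, hq0, hq⟩ := first_bound hy hl0 (D := fun P => ∑ j, |(P.ord (f j) : ℝ)|) (by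
    have h1 : (⋃ j, {P : Place ℂ K | IsPrimeDivisor y P ∧ P.ord (f j) ≠ 0}).Finite := by
      refine Set.finite_iUnion fun j => ?_
      by_cases h0 : f j = 0
      · have h2 : {P : Place ℂ K | IsPrimeDivisor y P ∧ P.ord (f j) ≠ 0} = ∅ := by
          ext P
          simp only [Set.mem_setOf_eq, Set.mem_empty_iff_false, iff_false, not_and, not_not]
          intro _
          rw [h0, P.ord_zero]
        rw [h2]
        exact Set.finite_empty
      · exact finite_ord hy h0
    refine h1.subset ?_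
    rintro P ⟨hP, h2⟩
    by_contra h3
    apply h2
    refine Finset.sum_eq_zero fun j _ => ?_
    have h4 : P.ord (f j) = 0 := by
      by_contra h5
      exact h3 (Set.mem_iUnion.2 ⟨j, hP, h5⟩)
    rw [h4, Int.cast_zero, abs_zero])
  refine ⟨q, g, hq0, fun P l hP hl j => le_trans ?_ (hq P l hP hl)⟩
  exact Finset.single_le_sum (f := fun j => |(P.ord (f j) : ℝ)|) (fun _ _ => abs_nonneg _)
    (Finset.mem_univ j)

/-- **The numerical dimension of the pairs dominated by a variety on which all rank one subsheaves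
of the tensor powers of `Ω¹(log)` are anti-pseudo-effective.** -/
theorem img_num (hy : NormalModel y) (hn : Algebra.trdeg ℂ K = n) (hw : NormalModel w)
    (hm : Algebra.trdeg ℂ F = m) (hm0 : 0 < m) {Δ : Place ℂ F → ℚ} (hLC : LogCanonical w m Δ)
    {Bd : Set (Place ℂ K)} (hpb : ∀ P, IsPrimeDivisor y P → P ∉ Bd → ∀ (Q : Place ℂ F) (e : ℕ),
      Over P Q e → ∃ α : ℚ, LogDisc w m Δ Q α ∧ 1 ≤ e * α)
    (ht : ∀ σ : Tensor K m, σ ≠ 0 → ∀ t : ℝ, 0 < t → TensorLe y Bd σ t) :
    NumDimLt w m Δ 1 := by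
  classical
  intro A hA ε hε
  have hess := hy.ess
  have hessF := hw.ess
  obtain ⟨l0, hl0⟩ := hy.ne
  obtain ⟨j0, hj0⟩ := hw.ne
  obtain ⟨x, E, hx, hE⟩ : ∃ (x : Fin m → F) (E : Fin m → Derivation ℂ F F),
      IsTranscendenceBasis ℂ x ∧ ∀ i j, E i (x j) = if i = j then 1 else 0 := by
    obtain ⟨x, hx, -, -⟩ := exists_noether hw hm hj0
    obtain ⟨E, hE⟩ := exists_dual hx.1
    exact ⟨x, E, hx, hE⟩
  have hfr : IsFrame E := fun G => ⟨fun j => G (x j),
    (Pool.Agent.W73.PG.PULL.expand x hx E hE G).symm⟩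
  obtain ⟨σ, hσ⟩ : ∃ σ : Tensor K m, σ = jacT fun j => algebraMap F K (x j) := ⟨_, rfl⟩
  have hxK : AlgebraicIndependent ℂ fun j => algebraMap F K (x j) := by
    have h1 := hx.1.map' (f := IsScalarTower.toAlgHom ℂ F K) (algebraMap F K).injective
    exact h1
  have hσ0 : σ ≠ 0 := by
    rw [hσ]
    exact jacT_ne hxK
  choose s hs hs0 hsb using fun j => disc_bound2 (Δ := Δ) hw hA hfr j
  obtain ⟨q, g, hq0, hq⟩ := fin_bound hy hl0 fun j => algebraMap F K (s j)
  obtain ⟨q2, g2, hq20, hq2⟩ := fin_bound hy hl0 fun j => algebraMap F K (w j / w j0)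
  obtain ⟨d, hd⟩ := bezout hy hn
  obtain ⟨hmn, u, hu, huF⟩ := exists_comp hy hn hm
  obtain ⟨D, hD⟩ : ∃ D : ℕ, D = g2 ^ (m - 1) * d := ⟨_, rfl⟩
  -- linear forms have bounded poles
  have hlin : ∀ c : Fin (R + 1) → ℂ, (∑ i, algebraMap ℂ F (c i) * w i) ≠ 0 →
      algebraMap F K ((∑ i, algebraMap ℂ F (c i) * w i) / w j0) * q2 ≠ 0 ∧
      Bnd ℂ (affL K y l0) g2 (algebraMap F K ((∑ i, algebraMap ℂ F (c i) * w i) / w j0) * q2) := by
    intro c hc
    have h0 : algebraMap F K ((∑ i, algebraMap ℂ F (c i) * w i) / w j0) ≠ 0 := by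
      rw [Ne, map_eq_zero]
      exact div_ne_zero hc hj0
    refine ⟨mul_ne_zero h0 hq20, bnd_of_prime hy hl0 (mul_ne_zero h0 hq20)
      fun Q P e hov hP l hl => ?_⟩
    obtain ⟨h3, h4⟩ := Pool.Agent.Y172.over_unique' hov
      (show Over Q Q 1 from ⟨Nat.one_pos, fun f => by
        rw [Nat.cast_one, one_mul]
        rfl⟩)
    rw [← h3]
    obtain ⟨h, hh⟩ : ∃ h : ℤ, h = P.ord q2 + g2 * P.ord (y l0 / y l) := ⟨_, rfl⟩
    have h5 : Ge P (-h) (algebraMap F K ((∑ i, algebraMap ℂ F (c i) * w i) / w j0)) := by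
      rw [Finset.sum_div, map_sum]
      refine Ge.sum _ _ fun i _ => ?_
      rw [mul_div_assoc, map_mul]
      have h6 : Ge P 0 (algebraMap F K (algebraMap ℂ F (c i))) := by
        rw [← IsScalarTower.algebraMap_apply]
        exact Ge.const _
      have h7 : Ge P (-h) (algebraMap F K (w i / w j0)) := by
        right
        have h8 := hq2 P l hP hl i
        have h9 : |P.ord (algebraMap F K (w i / w j0))| ≤ h := by
          rw [hh]
          exact_mod_cast h8
        exact (abs_le.1 h9).1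
      have h8 := h6.mul h7
      rwa [zero_add] at h8
    have h6 := h5.resolve_left h0
    rw [P.ord_mul h0 hq20]
    change 0 ≤ P.ord _ + P.ord q2 + g2 * P.ord (y l0 / y l)
    rw [hh] at h6
    linarith
  refine ⟨ε / (2 * (D * g + 1)), by positivity, 1, fun a b ha hb v hv ω E' hω hω0 => ?_⟩
  have ha0 : (0 : ℝ) < a := by exact_mod_cast ha
  rw [pow_one]
  obtain ⟨r, hr⟩ : ∃ r : F, r = ω 1 E' / ω 0 E' := ⟨_, rfl⟩
  have hr' : (fun i : Fin 1 => ω i.succ E' / ω 0 E') = fun _ : Fin 1 => r := by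
    funext i
    rw [Subsingleton.elim i 0, hr]
    rfl
  rw [hr', degreeOver_eq]
  by_cases h0 : dg ℂ (Sum.elim v fun _ : Fin 1 => r) = 0
  · rw [h0]
    push_cast
    positivity
  have hcard : Nat.card (Fin (m - 1) ⊕ Fin 1) = m := by
    rw [Nat.card_eq_fintype_card, Fintype.card_sum, Fintype.card_fin, Fintype.card_fin]
    omega
  have hbas := basis_of_dg (k := ℂ) (w := Sum.elim v fun _ : Fin 1 => r) (by rw [hm, hcard]) h0
  obtain ⟨W, hW⟩ : ∃ W : Fin (n - m) ⊕ (Fin (m - 1) ⊕ Fin 1) → K,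
      W = Sum.elim u fun i => algebraMap F K (Sum.elim v (fun _ : Fin 1 => r) i) := ⟨_, rfl⟩
  have hWbas : IsTranscendenceBasis ℂ W := by
    rw [hW]
    exact hbas.sumElim_comp huF
  have hWne := dg_ne_zero hWbas
  have hle1 : dg ℂ (Sum.elim v fun _ : Fin 1 => r) ≤ dg ℂ W := by
    rw [hW]
    refine dg_base huF.1 ?_
    rw [← hW]
    exact hWne
  have hcardW : Nat.card (Fin (n - m) ⊕ (Fin (m - 1) ⊕ Fin 1)) = n := by
    rw [Nat.card_eq_fintype_card, Fintype.card_sum, Fintype.card_sum, Fintype.card_fin,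
      Fintype.card_fin, Fintype.card_fin]
    omega
  -- the sections are not zero
  have hωE0 : ω 0 E ≠ 0 := (ratio_frame hfr (hω 0).1 (hω 0).1 hω0).1
  have hrE : r = ω 1 E / ω 0 E := by
    rw [hr]
    exact (ratio_frame hfr (hω 0).1 (hω 1).1 hω0).2
  have hr0 : r ≠ 0 := hbas.1.ne_zero (Sum.inr 0)
  have hωE1 : ω 1 E ≠ 0 := by
    intro h
    rw [h, zero_div] at hrE
    exact hr0 hrE
  -- the anti-pseudo-effective subsheaf
  obtain ⟨m1, b1, hm1, hb1, k, hk0, hk⟩ := ht σ hσ0 (ε / (2 * (D + 1))) (by positivity) l0 hl0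
  obtain ⟨T, hT⟩ : ∃ T : ℕ, T = a * b1 + b * m1 * g := ⟨_, rfl⟩
  obtain ⟨f, hf⟩ : ∃ f : Fin 2 → K, f = fun i => algebraMap F K (ω i E) ^ m1 * k ^ a *
    q ^ (b * m1) := ⟨_, rfl⟩
  have hωi : ∀ i : Fin 2, ω i E ≠ 0 := by
    intro i
    refine Fin.cases hωE0 (fun i => ?_) i
    rw [Subsingleton.elim i 0]
    exact hωE1
  have hf0 : ∀ i, f i ≠ 0 := by
    intro i
    rw [hf]
    refine mul_ne_zero (mul_ne_zero (pow_ne_zero _ ?_) (pow_ne_zero _ hk0)) (pow_ne_zero _ hq0)
    rw [Ne, map_eq_zero]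
    exact hωi i
  have hfb : ∀ i, Bnd ℂ (affL K y l0) T (f i) := by
    intro i
    refine bnd_of_prime hy hl0 (hf0 i) fun Q P e hov hP l hl => ?_
    obtain ⟨h3, h4⟩ := Pool.Agent.Y172.over_unique' hov
      (show Over Q Q 1 from ⟨Nat.one_pos, fun f => by
        rw [Nat.cast_one, one_mul]
        rfl⟩)
    rw [← h3]
    obtain ⟨G, hG1, hG2, hG3, hG4⟩ := hk P l hP hl
    rw [hσ] at hG3 hG4
    have hφ0 : algebraMap F K (ω i E) ≠ 0 := by
      rw [Ne, map_eq_zero]
      exact hωi i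
    obtain ⟨H, hH⟩ : ∃ H : ℤ, H = P.ord (y l0 / y l) := ⟨_, rfl⟩
    have h5 := img_bound hy hn hw hm hLC hpb hx hE hsb (by omega) (hω i) (hωi i) hP
      (g := P.ord q + g * P.ord (y l0 / y l))
      (fun j => (le_abs_self _).trans (hq P l hP hl j))
      ((abs_nonneg _).trans (hq P l hP hl j0)) hG1 hG2 hG3
    change 0 ≤ P.ord (f i) + T * P.ord (y l0 / y l)
    rw [← hH] at h5 hG4 ⊢
    have h6 : -((b : ℤ) * (P.ord q + g * H)) ≤
        a * P.ord (jacT (fun j => algebraMap F K (x j)) G) + P.ord (algebraMap F K (ω i E)) := by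
      exact_mod_cast h5
    rw [hf]
    change 0 ≤ P.ord (algebraMap F K (ω i E) ^ m1 * k ^ a * q ^ (b * m1)) + T * H
    rw [P.ord_mul (mul_ne_zero (pow_ne_zero _ hφ0) (pow_ne_zero _ hk0)) (pow_ne_zero _ hq0),
      P.ord_mul (pow_ne_zero _ hφ0) (pow_ne_zero _ hk0), P.ord_pow, P.ord_pow, P.ord_pow, hT]
    have h7 := mul_le_mul_of_nonneg_left h6 (show (0 : ℤ) ≤ m1 from Int.natCast_nonneg _)
    have h8 := mul_le_mul_of_nonneg_left hG4 (show (0 : ℤ) ≤ a from Int.natCast_nonneg _)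
    push_cast
    linarith
  -- the powers
  have hpow := dg_pow_all (k := ℂ) (by rw [hn, hcardW]) W
    ({Sum.inr (Sum.inr 0)} : Finset (Fin (n - m) ⊕ (Fin (m - 1) ⊕ Fin 1))) (q := m1) hm1 hWne
  rw [Finset.card_singleton, pow_one] at hpow
  obtain ⟨W1, hW1⟩ : ∃ W1 : Fin (n - m) ⊕ (Fin (m - 1) ⊕ Fin 1) → K, W1 = fun i =>
    if i ∈ ({Sum.inr (Sum.inr 0)} : Finset (Fin (n - m) ⊕ (Fin (m - 1) ⊕ Fin 1))) then
      W i ^ m1 else W i := ⟨_, rfl⟩
  rw [← hW1] at hpow
  have hone : (1 : K) ∈ affL K y l0 := ⟨l0, by simp only []; rw [div_self hl0, map_one]⟩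
  have hW1r : W1 (Sum.inr (Sum.inr 0)) = f 1 / f 0 := by
    rw [hW1, hW, hf]
    simp only [Finset.mem_singleton, if_true, Sum.elim_inr]
    rw [hrE, map_div₀, div_pow]
    have h1 : k ^ a ≠ 0 := pow_ne_zero _ hk0
    have h2 : q ^ (b * m1) ≠ 0 := pow_ne_zero _ hq0
    rw [mul_div_mul_right _ _ h2, mul_div_mul_right _ _ h1]
  obtain ⟨z, hz, hle2⟩ := replace_one (k := ℂ) (K := K) (by rw [hn, hcardW]) (S := affL K y l0)
    (Set.finite_range _) hone (hf0 0) (hf0 1) (hfb 0) (hfb 1) W1 (Sum.inr (Sum.inr 0)) hW1r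
  obtain ⟨W2, hW2⟩ : ∃ W2, W2 = Function.update W1 (Sum.inr (Sum.inr 0)) z := ⟨_, rfl⟩
  rw [← hW2] at hle2
  -- the pencils on the image
  choose α β hβ hv' using hv
  have hα : ∀ j, (∑ i, algebraMap ℂ F (α j i) * w i) ≠ 0 := by
    intro j h
    have h1 := hv' j
    rw [h, zero_div] at h1
    exact hbas.1.ne_zero (Sum.inl j) h1
  obtain ⟨A0, hA0⟩ : ∃ A0 : Fin (n - m) ⊕ (Fin (m - 1) ⊕ Fin 1) → K, A0 =
      Sum.elim (fun _ => 1) (Sum.elim (fun j => algebraMap F K
        ((∑ i, algebraMap ℂ F (β j i) * w i) / w j0) * q2) fun _ => 1) := ⟨_, rfl⟩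
  obtain ⟨A1, hA1⟩ : ∃ A1 : Fin (n - m) ⊕ (Fin (m - 1) ⊕ Fin 1) → K, A1 =
      Sum.elim (fun _ => 1) (Sum.elim (fun j => algebraMap F K
        ((∑ i, algebraMap ℂ F (α j i) * w i) / w j0) * q2) fun _ => 1) := ⟨_, rfl⟩
  obtain ⟨J, hJ⟩ : ∃ J : Finset (Fin (n - m) ⊕ (Fin (m - 1) ⊕ Fin 1)), J =
    Finset.univ.image fun j : Fin (m - 1) => Sum.inr (Sum.inl j) := ⟨_, rfl⟩
  have hJm : ∀ i ∈ J, ∃ j : Fin (m - 1), i = Sum.inr (Sum.inl j) := by
    intro i hi
    rw [hJ] at hi
    obtain ⟨j, -, rfl⟩ := Finset.mem_image.1 hi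
    exact ⟨j, rfl⟩
  have hJc : J.card = m - 1 := by
    rw [hJ, Finset.card_image_of_injective, Finset.card_univ, Fintype.card_fin]
    intro a b hab
    exact Sum.inl_injective (Sum.inr_injective hab)
  obtain ⟨W3, hW31, hW32, hle3⟩ := replace_ratios (k := ℂ) (K := K) (by rw [hn, hcardW])
    (S := affL K y l0) (Set.finite_range _) hone (B := g2) A0 A1 J W2
    (by
      intro i hi
      obtain ⟨j, rfl⟩ := hJm i hi
      rw [hA0]
      exact (hlin (β j) (hβ j)).1)
    (by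
      intro i hi
      obtain ⟨j, rfl⟩ := hJm i hi
      rw [hA1]
      exact (hlin (α j) (hα j)).1)
    (by
      intro i hi
      obtain ⟨j, rfl⟩ := hJm i hi
      rw [hA0]
      exact (hlin (β j) (hβ j)).2)
    (by
      intro i hi
      obtain ⟨j, rfl⟩ := hJm i hi
      rw [hA1]
      exact (hlin (α j) (hα j)).2)
    (by
      intro i hi
      obtain ⟨j, rfl⟩ := hJm i hi
      rw [hW2, Function.update_of_ne (by simp), hW1, hW, hA0, hA1]
      simp only [Finset.mem_singleton, Sum.inr.injEq, reduceCtorEq, if_false, Sum.elim_inr,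
        Sum.elim_inl]
      rw [mul_div_mul_right _ _ hq20, hv' j, ← map_div₀, div_div_div_cancel_right₀ hj0])
  rw [hJc] at hle3
  have haff : affL K y l0 = aff y l0 := by
    unfold affL aff
    congr 1
  have hpen : ∀ i, IsPencil y (W3 i) := by
    intro i
    by_cases hi : i ∈ J
    · have h1 := hW31 i hi
      rw [haff] at h1
      exact pencil_of_span hl0 h1
    · rw [hW32 i hi, hW2]
      rcases i with i | i | i
      · rw [Function.update_of_ne (by simp), hW1, hW]
        simp only [Finset.mem_singleton, reduceCtorEq, if_false, Sum.elim_inl]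
        exact hu i
      · exfalso
        apply hi
        rw [hJ]
        exact Finset.mem_image_of_mem _ (Finset.mem_univ i)
      · rw [Subsingleton.elim i 0, Function.update_self]
        rw [haff] at hz
        exact pencil_of_span hl0 hz
  have hle4 : dg ℂ W3 ≤ d := hd hcardW W3 hpen
  -- conclusion
  have hle5 : m1 * dg ℂ W ≤ T * D := by
    rw [← hpow, hD]
    exact hle2.trans (Nat.mul_le_mul_left _ (hle3.trans (Nat.mul_le_mul_left _ hle4)))
  have hm1' : (0 : ℝ) < m1 := by exact_mod_cast hm1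
  have h1 : (m1 : ℝ) * dg ℂ W ≤ T * D := by exact_mod_cast hle5
  have h2 : (dg ℂ (Sum.elim v fun _ : Fin 1 => r) : ℝ) ≤ dg ℂ W := by exact_mod_cast hle1
  have hD0 : (0 : ℝ) ≤ D := Nat.cast_nonneg _
  have hg0 : (0 : ℝ) ≤ g := Nat.cast_nonneg _
  have h3 : (b1 : ℝ) * D ≤ ε / 2 * m1 := by
    have h4 := mul_le_mul_of_nonneg_right hb1 hD0
    have h5 : ε / (2 * ((D : ℝ) + 1)) * m1 * D = ε / 2 * m1 * (D / (D + 1)) := by
      field_simp
    have h6 : (D : ℝ) / (D + 1) ≤ 1 := by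
      rw [div_le_one (by positivity)]
      linarith
    have h7 := mul_le_mul_of_nonneg_left h6 (show (0 : ℝ) ≤ ε / 2 * m1 by positivity)
    linarith
  have h4 : (b : ℝ) * (D * g) ≤ ε / 2 * a := by
    have h5 := mul_le_mul_of_nonneg_right hb (mul_nonneg hD0 hg0)
    have h6 : ε / (2 * ((D : ℝ) * g + 1)) * a * (D * g) = ε / 2 * a * ((D * g) / (D * g + 1)) := by
      field_simp
    have h7 : ((D : ℝ) * g) / (D * g + 1) ≤ 1 := by
      rw [div_le_one (by positivity)]
      linarith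
    have h8 := mul_le_mul_of_nonneg_left h7 (show (0 : ℝ) ≤ ε / 2 * a by positivity)
    linarith
  have h5 : (m1 : ℝ) * dg ℂ W ≤ m1 * (ε * a) := by
    refine h1.trans ?_
    rw [hT]
    push_cast
    have h6 := mul_le_mul_of_nonneg_left h3 ha0.le
    have h7 := mul_le_mul_of_nonneg_left h4 hm1'.le
    nlinarith
  exact h2.trans (le_of_mul_le_mul_left h5 hm1')

end

end Pool.Agent.R887
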