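import Pool.Agent.R887.ImgC
import Pool.Agent.R887.NefP

/-!
**Pairs dominated by varieties on which all rank one subsheaves of the tensor powers of `Ω¹(log)` are
anti-pseudo-effective.**
-/

set_option autoImplicit false
set_option linter.overlappingInstances false
set_option linter.unusedSectionVars false

open FF Module MvPolynomial Pool.Agent.W602.GT Pool.Agent.W603.LV Pool.Agent.W619.PQ
open Pool.Agent.Y172 Pool.Agent.Y191

namespace Pool.Agent.R887

section

variable {F K : Type} [Field F] [Field K] [Algebra ℂ F] [Algebra ℂ K] {m n N R : ℕ}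
  {y : Fin (N + 1) → K} {w : Fin (R + 1) → F}

/-- the numerical dimension of dominated pairs -/
theorem img_pair (hy : NormalModel y) (hn : Algebra.trdeg ℂ K = n) (hw : NormalModel w)
    (hm : Algebra.trdeg ℂ F = m) (hm0 : 0 < m) {Δ : Place ℂ F → ℚ} (hLC : LogCanonical w m Δ)
    {Bd : Set (Place ℂ K)} (f : F →ₐ[ℂ] K) (hpb : PullBackLe f w m Δ y Bd)
    (h : AbsTensorLe y Bd 0) :
    NumDimLt w m Δ 1 ∧
    (∀ (r : ℕ) (ω ω' : (Fin m → Derivation ℂ F F) → F), 1 ≤ r → IsSection w m r (r • Δ) ω →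
      IsSection w m r (r • Δ) ω' → ω ≠ 0 → ∃ z : ℂ, ∀ E, ω' E = algebraMap ℂ F z * ω E) ∧
    (LogNef w m Δ → ∀ (r : ℕ) (ω : (Fin m → Derivation ℂ F F) → F), 1 ≤ r →
      IsSection w m r (r • Δ) ω → ω ≠ 0 → ∀ P, IsPrimeDivisor w P → OrdEq P ω (-(r * Δ P))) := by
  classical
  let _ : Algebra F K := f.toRingHom.toAlgebra
  have hst : IsScalarTower ℂ F K := IsScalarTower.of_algebraMap_eq fun c => (f.commutes c).symm
  have hnum : NumDimLt w m Δ 1 := img_num hy hn hw hm hm0 hLC (Bd := Bd)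
    (fun P hP hPB Q e hov => hpb P hP hPB Q e hov) fun σ hσ t ht => h.tensorLe hσ ht
  refine ⟨hnum, fun r ω ω' hr hω hω' hω0 => ?_, fun hnef r ω hr hω hω0 =>
    nef_trivialP hw hm hm0 hnum hnef hr hω hω0⟩
  have hess := hw.ess
  obtain ⟨x, E, hx, hE⟩ := exists_crd hm (k := ℂ) (K := F)
  have hfr : IsFrame E := fun G => ⟨fun j => G (x j),
    (Pool.Agent.W73.PG.PULL.expand x hx E hE G).symm⟩
  have hωE : ω E ≠ 0 := fun h0 => hω0 (pluri_zero hfr hω.1 h0)
  have h1 := kappa_lt hw hm (j := 1) hm0 hnum hr (ω := ![ω, ω']) (E := E) (fun i => by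
    refine Fin.cases hω (fun i => ?_) i
    rw [Subsingleton.elim i 0]
    exact hω') hωE
  have h2 : ¬ Transcendental ℂ (ω' E / ω E) := by
    intro h3
    apply h1
    have h4 : (fun i : Fin 1 => (![ω, ω'] : Fin 2 → _) i.succ E / (![ω, ω'] : Fin 2 → _) 0 E) =
        fun _ : Fin 1 => ω' E / ω E := by
      funext i
      rw [Subsingleton.elim i 0]
      rfl
    rw [h4]
    exact (algebraicIndependent_unique_type_iff (R := ℂ)
      (x := fun _ : Fin 1 => ω' E / ω E)).2 h3
  have h3 : IsAlgebraic ℂ (ω' E / ω E) := by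
    by_contra h4
    exact h2 h4
  obtain ⟨z, hz⟩ : ∃ z : ℂ, algebraMap ℂ F z = ω' E / ω E := by
    have hint : IsIntegral ℂ (ω' E / ω E) := h3.isIntegral
    have h4 := IsAlgClosed.degree_eq_one_of_irreducible ℂ (minpoly.irreducible hint)
    have h5 : Polynomial.aeval (ω' E / ω E) (minpoly ℂ (ω' E / ω E)) = 0 := minpoly.aeval _ _
    have h6 : (minpoly ℂ (ω' E / ω E)).leadingCoeff = 1 := minpoly.monic hint
    rw [Polynomial.eq_X_add_C_of_degree_eq_one h4, h6, Polynomial.C_1, one_mul, map_add,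
      Polynomial.aeval_X, Polynomial.aeval_C, add_eq_zero_iff_eq_neg] at h5
    exact ⟨-(minpoly ℂ (ω' E / ω E)).coeff 0, by rw [map_neg]; exact h5.symm⟩
  refine ⟨z, fun E' => ?_⟩
  choose C hC using fun i => hfr (E' i)
  have e1 : E' = fun i => ∑ j, Matrix.of C i j • E j := funext hC
  have h5 : ω E' = (Matrix.of C).det ^ r * ω E := by
    conv_lhs => rw [e1]
    exact hω.1 _ _
  have h6 : ω' E' = (Matrix.of C).det ^ r * ω' E := by
    conv_lhs => rw [e1]
    exact hω'.1 _ _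
  rw [h5, h6, hz]
  field_simp

end

end Pool.Agent.R887
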