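import Pool.Agent.R887.ImgD

/-!
Images with canonical singularities of the covers.
-/

set_option autoImplicit false
set_option linter.overlappingInstances false
set_option linter.unusedSectionVars false

open FF Module MvPolynomial Pool.Agent.W602.GT Pool.Agent.W603.LV Pool.Agent.W619.PQ
open Pool.Agent.Y172 Pool.Agent.Y191

namespace Pool.Agent.R887

section

variable {F K : Type} [Field F] [Field K] [Algebra ℂ F] [Algebra ℂ K] {m n N R : ℕ}
  {y : Fin (N + 1) → K} {w : Fin (R + 1) → F}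

/-- varieties with canonical singularities satisfy the condition on the pull backs -/
theorem can_pullBack (hy : NormalModel y) (hn : Algebra.trdeg ℂ K = n)
    (hm : Algebra.trdeg ℂ F = m) (hcan : Canonical w m) (f : F →ₐ[ℂ] K) (Bd : Set (Place ℂ K)) :
    PullBackLe f w m 0 y Bd := by
  intro Q hQ _ P e hPe
  let _ : Algebra F K := f.toRingHom.toAlgebra
  have hst : IsScalarTower ℂ F K := IsScalarTower.of_algebraMap_eq fun c => (f.commutes c).symm
  have hov : Over Q P e := hPe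
  have hdP : Divisorial m P :=
    Pool.Agent.Y71.NT.t_abh F K m n hm hn Q P e hov (hQ.divisorial hy hn)
  obtain ⟨r, hr, η, h1, h2, h3⟩ := hcan P hdP
  refine ⟨1, Or.inr ⟨r, hr, η, h1, fun P' hP' hT => ?_, fun E hE => ?_⟩, ?_⟩
  · simpa using h2 P' hP' hT
  · simpa using h3 E hE
  · rw [mul_one]
    exact_mod_cast hPe.1

/-- the images with canonical singularities -/
theorem img_canonical (hy : NormalModel y) (hn : Algebra.trdeg ℂ K = n) (hw : NormalModel w)
    (hm : Algebra.trdeg ℂ F = m) (hm0 : 0 < m) (hcan : Canonical w m) {Bd : Set (Place ℂ K)}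
    (f : F →ₐ[ℂ] K) (h : AbsTensorLe y Bd 0) :
    NumDimLt w m 0 1 ∧
    (∀ (r : ℕ) (ω ω' : (Fin m → Derivation ℂ F F) → F), 1 ≤ r → IsSection w m r 0 ω →
      IsSection w m r 0 ω' → ω ≠ 0 → ∃ z : ℂ, ∀ E, ω' E = algebraMap ℂ F z * ω E) ∧
    (CanonicalNef w m → ∀ (r : ℕ) (ω : (Fin m → Derivation ℂ F F) → F), 1 ≤ r →
      IsSection w m r 0 ω → ω ≠ 0 → ∀ P, IsPrimeDivisor w P → OrdEq P ω 0) := by
  obtain ⟨h1, h2, -⟩ := img_pair hy hn hw hm hm0 hcan.lc f (can_pullBack hy hn hm hcan f Bd) h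
  refine ⟨h1, fun r ω ω' hr hω hω' hω0 => h2 r ω ω' hr ?_ ?_ hω0, fun hnef r ω hr hω hω0 =>
    nef_trivial hw hm hm0 h1 hnef hr hω hω0⟩
  · rw [smul_zero]
    exact hω
  · rw [smul_zero]
    exact hω'

end

end Pool.Agent.R887
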