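import Pool.Agent.R887.ImgE

/-!
The pull backs of the sections of `m (K_R + Δ)` to the coverings of a fixed variety.
-/

set_option autoImplicit false
set_option linter.overlappingInstances false
set_option linter.unusedSectionVars false

open FF Module MvPolynomial Pool.Agent.W602.GT Pool.Agent.W603.LV Pool.Agent.W619.PQ
open Pool.Agent.Y172 Pool.Agent.Y191

namespace Pool.Agent.R887

section

variable {F L : Type} [Field F] [Field L] [Algebra ℂ F] [Algebra ℂ L] [Algebra F L]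
  [IsScalarTower ℂ F L] {m n R : ℕ} {w : Fin (R + 1) → F}

/-- a functional determinant which is not zero -/
theorem exists_jac {x : Fin m → L} (hx : AlgebraicIndependent ℂ x) {D : Fin n → Derivation ℂ L L}
    (hD : IsFrame D) : ∃ J : Fin m → Fin n, jacT x (fun k => D (J k)) ≠ 0 := by
  classical
  by_contra hcon
  push Not at hcon
  apply jacT_ne hx
  ext G
  choose a ha using fun i => hD (G i)
  have h1 : G = fun k => ∑ j, a k j • D j := funext ha
  rw [h1, MultilinearMap.map_sum]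
  rw [MultilinearMap.zero_apply]
  refine Finset.sum_eq_zero fun I _ => ?_
  rw [MultilinearMap.map_smul_univ, hcon I, smul_zero]

/-- the pull back of a section at a divisorial place -/
theorem img_loc (hw : NormalModel w) (hm : Algebra.trdeg ℂ F = m) (hnL : Algebra.trdeg ℂ L = n)
    {Δ A : Place ℂ F → ℚ} (hLC : LogCanonical w m Δ) {x : Fin m → F}
    {E : Fin m → Derivation ℂ F F} (hx : IsTranscendenceBasis ℂ x)
    (hE : ∀ i j, E i (x j) = if i = j then 1 else 0) {s : Fin (R + 1) → F}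
    (hs : ∀ j, ∀ Q : Place ℂ F, Centred w j Q → ∀ α : ℚ, LogDisc w m Δ Q α → ∀ a b : ℕ, 1 ≤ a →
      ∀ ω, IsSection w m a (a • Δ + b • A) ω → OrdGe Q ω (a * (α - 1) - b * (Q.ord (s j) : ℤ)))
    {a b : ℕ} (ha : 1 ≤ a) {ω : (Fin m → Derivation ℂ F F) → F}
    (hω : IsSection w m a (a • Δ + b • A) ω) (hω0 : ω E ≠ 0) {P : Place ℂ L}
    (hP : Divisorial n P) {g0 : ℤ} (hg0 : 0 ≤ g0)
    (hgood : (∀ (Q : Place ℂ F) (e : ℕ), Over P Q e → ∃ α : ℚ, LogDisc w m Δ Q α ∧ 1 ≤ e * α) ∨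
      1 ≤ g0) {g : ℤ} (hg : ∀ j, P.ord (algebraMap F L (s j)) ≤ g) (hgn : 0 ≤ g)
    {D : Fin m → Derivation ℂ L L} (hD : ∀ i, DerReg P (D i))
    (hJ : jacT (fun j => algebraMap F L (x j)) D ≠ 0) :
    -(b * g) ≤ a * P.ord (jacT (fun j => algebraMap F L (x j)) D) +
      P.ord (algebraMap F L (ω E)) + a * g0 := by
  classical
  have hess := hw.ess
  have hb0 : (0 : ℤ) ≤ b := Int.natCast_nonneg _
  have ha0 : (0 : ℤ) ≤ a := Int.natCast_nonneg _
  have ha0' : (0 : ℚ) ≤ a := Nat.cast_nonneg _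
  by_cases htriv : ∃ f : F, P.ord (algebraMap F L f) ≠ 0
  · obtain ⟨e, Q, hov⟩ := exists_over P htriv
    have hQ : Divisorial m Q := Pool.Agent.Y71.NT.t_abh F L m n hm hnL P Q e hov hP
    obtain ⟨j, hj⟩ := exists_centred hw Q
    have he : P.ord (algebraMap F L (s j)) = e * Q.ord (s j) := hov.2 _
    have h3 : (b : ℤ) * P.ord (algebraMap F L (s j)) ≤ b * g :=
      mul_le_mul_of_nonneg_left (hg j) hb0
    obtain ⟨α, hα, hα1⟩ : ∃ α : ℚ, LogDisc w m Δ Q α ∧ (0 : ℚ) ≤ e * α - 1 + g0 := by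
      rcases hgood with h | h
      · obtain ⟨α, h1, h2⟩ := h Q e hov
        have h4 : (0 : ℚ) ≤ g0 := by exact_mod_cast hg0
        exact ⟨α, h1, by linarith⟩
      · have h4 : (1 : ℚ) ≤ g0 := by exact_mod_cast h
        exact ⟨0, lc_disc hLC hQ, by linarith⟩
    have h1 := img_ord hm hov hQ hx hE ha hω.1 (hs j Q hj α hα a b ha ω hω) hD
      (g := e - 1) (Or.inl rfl) hω0 hJ
    have key : -((b : ℚ) * P.ord (algebraMap F L (s j))) ≤
        a * P.ord (jacT (fun j => algebraMap F L (x j)) D) + P.ord (algebraMap F L (ω E)) +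
          a * g0 := by
      rw [he]
      push_cast at h1 ⊢
      have h2 := mul_nonneg ha0' hα1
      linarith
    have key' : -((b : ℤ) * P.ord (algebraMap F L (s j))) ≤
        a * P.ord (jacT (fun j => algebraMap F L (x j)) D) + P.ord (algebraMap F L (ω E)) +
          a * g0 := by
      exact_mod_cast key
    linarith
  · push Not at htriv
    rw [htriv (ω E), add_zero]
    have h9 : Ge P 0 (jacT (fun j => algebraMap F L (x j)) D) :=
      Pool.Agent.W619.PQ.ge_det P _ fun i j => hD i _ (Or.inr (htriv _).ge)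
    have h10 : (0 : ℤ) ≤ P.ord (jacT (fun j => algebraMap F L (x j)) D) := h9.resolve_left hJ
    have h13 := mul_nonneg ha0 h10
    have h14 := mul_nonneg hb0 hgn
    have h15 := mul_nonneg ha0 hg0
    linarith

/-- the pull backs, uniformly -/
theorem uniform_img [Algebra.EssFiniteType ℂ L] (hw : NormalModel w)
    (hm : Algebra.trdeg ℂ F = m) (hnL : Algebra.trdeg ℂ L = n) (hn0 : 0 < n)
    {Δ A : Place ℂ F → ℚ} (hA : Effective w A) (hLC : LogCanonical w m Δ)
    {Good : Place ℂ L → Prop} {U : Fin n → L} {D : Fin n → Derivation ℂ L L}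
    {G : MvPolynomial (Fin n) ℂ} {i0 : Fin n} {c : ℕ} (hs : Src2 Good U D G i0 c)
    (hmap : ∀ P : Place ℂ L, Good P → ∀ (Q : Place ℂ F) (e : ℕ), Over P Q e →
      ∃ α : ℚ, LogDisc w m Δ Q α ∧ 1 ≤ e * α) {x : Fin m → F}
    {E : Fin m → Derivation ℂ F F} (hx : IsTranscendenceBasis ℂ x)
    (hE : ∀ i j, E i (x j) = if i = j then 1 else 0) (hfr : IsFrame E) {J : Fin m → Fin n}
    (hJ : jacT (fun j => algebraMap F L (x j)) (fun k => D (J k)) ≠ 0) :
    ∃ (H : L) (β : ℕ), H ≠ 0 ∧ ∀ a b : ℕ, 1 ≤ a → ∀ ω,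
      IsSection w m a (a • Δ + b • A) ω → ω E ≠ 0 →
      (∀ (P : Place ℂ L) (q : MvPolynomial (Fin n) ℂ), Irreducible q → AdicS P U q →
        P.Reg (jacT (fun j => algebraMap F L (x j)) (fun k => D (J k)) ^ a *
          algebraMap F L (ω E) * H ^ b * (aeval U G) ^ a)) ∧
      (∀ (P : Place ℂ L) (ρ : ℕ), AtInf U P ρ →
        Ge P (-(((a * (1 + c * m + bd (k := ℂ) Finset.univ G) + b * β : ℕ) : ℤ) * ρ))
          (jacT (fun j => algebraMap F L (x j)) (fun k => D (J k)) ^ a *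
            algebraMap F L (ω E) * H ^ b * (aeval U G) ^ a)) := by
  classical
  have hU0 : ∀ Q : MvPolynomial (Fin n) ℂ, Q ≠ 0 → aeval U Q ≠ 0 := fun Q hQ h0 =>
    hQ ((injective_iff_map_eq_zero _).1 hs.bas.1 Q h0)
  have hfd : FiniteDimensional (IntermediateField.adjoin ℂ (Set.range U)) L :=
    Pool.Agent.Y172.fd_basis hs.bas
  have : Nonempty (Fin n) := ⟨⟨0, hn0⟩⟩
  choose s hsc hs0 hb using fun j => disc_bound2 (Δ := Δ) hw hA hfr j
  obtain ⟨h0, hh0, hdom⟩ := dom_poly' hs.bas (Finset.univ.image fun j => algebraMap F L (s j))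
  have hfin := finite_inf (k := ℂ) hs.bas
  obtain ⟨T, hT⟩ : ∃ T : ℕ, T = ∑ w ∈ hfin.toFinset, ∑ j, (w.ord (algebraMap F L (s j))).natAbs :=
    ⟨_, rfl⟩
  have hTw : ∀ (w : Place ℂ L) (ρ : ℕ), AtInf U w ρ → ∀ j, w.ord (algebraMap F L (s j)) ≤ T := by
    intro w ρ hw j
    have h1 : (w.ord (algebraMap F L (s j))).natAbs ≤
        ∑ j, (w.ord (algebraMap F L (s j))).natAbs :=
      Finset.single_le_sum (f := fun j => (w.ord (algebraMap F L (s j))).natAbs)
        (fun _ _ => Nat.zero_le _) (Finset.mem_univ j)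
    have h2 : ∑ j, (w.ord (algebraMap F L (s j))).natAbs ≤
        ∑ w ∈ hfin.toFinset, ∑ j, (w.ord (algebraMap F L (s j))).natAbs :=
      Finset.single_le_sum (f := fun w : Place ℂ L =>
        ∑ j, (w.ord (algebraMap F L (s j))).natAbs) (fun _ _ => Nat.zero_le _)
        (by rw [Set.Finite.mem_toFinset]; exact ⟨ρ, hw⟩)
    rw [← hT] at h2
    omega
  refine ⟨aeval U h0, T + bd (k := ℂ) Finset.univ h0, hU0 h0 hh0,
    fun a b ha ω hω hω0 => ?_⟩
  have hφ0 : algebraMap F L (ω E) ≠ 0 := by rwa [Ne, map_eq_zero]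
  have hj0 := pow_ne_zero a hJ
  have hH0 : (aeval U h0) ^ b ≠ 0 := pow_ne_zero _ (hU0 h0 hh0)
  have hG0 : (aeval U G) ^ a ≠ 0 := pow_ne_zero _ (hU0 G hs.Gne)
  have hord : ∀ P : Place ℂ L, P.ord (jacT (fun j => algebraMap F L (x j))
      (fun k => D (J k)) ^ a * algebraMap F L (ω E) * (aeval U h0) ^ b * (aeval U G) ^ a) =
      a * P.ord (jacT (fun j => algebraMap F L (x j)) (fun k => D (J k))) +
        P.ord (algebraMap F L (ω E)) + b * P.ord (aeval U h0) + a * P.ord (aeval U G) := by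
    intro P
    rw [P.ord_mul (mul_ne_zero (mul_ne_zero hj0 hφ0) hH0) hG0,
      P.ord_mul (mul_ne_zero hj0 hφ0) hH0, P.ord_mul hj0 hφ0, P.ord_pow, P.ord_pow, P.ord_pow]
  have hb0 : (0 : ℤ) ≤ b := Int.natCast_nonneg _
  have ha0 : (0 : ℤ) ≤ a := Int.natCast_nonneg _
  refine ⟨?_, ?_⟩
  · intro Q q hq hQ
    obtain ⟨hdQ, hQD, hQS⟩ := hs.adic Q q hq hQ
    have hreg : ∀ R : MvPolynomial (Fin n) ℂ, Q.Reg (aeval U R) := by
      intro R
      by_cases hR : R = 0
      · rw [hR, map_zero]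
        exact Q.reg_zero
      · exact Or.inr (hQ R hR).1
    have h1 := img_loc hw hm hnL hLC hx hE hb ha hω hω0 hdQ (hQ G hs.Gne).1
      (hQS.imp (fun h => hmap Q h) id) (g := Q.ord (aeval U h0))
      (fun j => hdom Q hreg (algebraMap F L (s j))
        (Finset.mem_image_of_mem _ (Finset.mem_univ j)) (by
          rw [Ne, map_eq_zero]
          exact hs0 j)) (hQ h0 hh0).1 (D := fun k => D (J k)) (fun k => hQD _) hJ
    right
    rw [hord]
    linarith
  · intro P ρ hPi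
    have hρ := hPi.1
    have hPd : Divisorial n P := hPi.divisorial hn0 hs.bas.1
    obtain ⟨z, hz⟩ : ∃ z, z = (U i0)⁻¹ ^ c := ⟨_, rfl⟩
    have hUi0 : U i0 ≠ 0 := by
      have := hU0 (X i0) (X_ne_zero _)
      rwa [aeval_X] at this
    have hz0 : z ≠ 0 := by
      rw [hz]
      exact pow_ne_zero _ (inv_ne_zero hUi0)
    have hzo : P.ord z = c * ρ := by
      rw [hz, P.ord_pow, P.ord_inv, hPi.crd i0, neg_neg]
    have hjz : jacT (fun j => algebraMap F L (x j)) (fun k => z • D (J k)) =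
        z ^ m * jacT (fun j => algebraMap F L (x j)) (fun k => D (J k)) := by
      rw [MultilinearMap.map_smul_univ (jacT fun j => algebraMap F L (x j)) (fun _ => z)
        (fun k => D (J k)), Finset.prod_const, Finset.card_univ, Fintype.card_fin, smul_eq_mul]
    have hzm : z ^ m ≠ 0 := pow_ne_zero _ hz0
    have h1 := img_loc hw hm hnL hLC hx hE hb ha hω hω0 hPd (g0 := 1) (by norm_num)
      (Or.inr le_rfl) (g := T) (fun j => hTw P ρ hPi j) (Int.natCast_nonneg _)
      (D := fun k => z • D (J k)) (fun k => by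
        rw [hz]
        exact hs.inf P ρ hPi _) (by
        rw [hjz]
        exact mul_ne_zero hzm hJ)
    rw [hjz, P.ord_mul hzm hJ, P.ord_pow, hzo] at h1
    right
    rw [hord, hPi.2 h0 hh0, hPi.2 G hs.Gne]
    have h8 : (1 : ℤ) ≤ ρ := by exact_mod_cast hρ
    have h11 : (0 : ℤ) ≤ T := Int.natCast_nonneg _
    have h13 : (b : ℤ) * T * 1 ≤ b * T * ρ := mul_le_mul_of_nonneg_left h8 (mul_nonneg hb0 h11)
    have h14 : (a : ℤ) * 1 ≤ a * ρ := mul_le_mul_of_nonneg_left h8 ha0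
    push_cast
    nlinarith

end

end Pool.Agent.R887
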