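import Pool.Agent.R887.ImgF

/-!
**The numerical dimension of the images of varieties with multi-valued rational maps from a fixed
variety.**
-/

set_option autoImplicit false
set_option linter.overlappingInstances false
set_option linter.unusedSectionVars false

open FF Module MvPolynomial Pool.Agent.W602.GT Pool.Agent.W603.LV Pool.Agent.W619.PQ
open Pool.Agent.Y172 Pool.Agent.Y191

namespace Pool.Agent.R887

section source

variable {K' : Type} [Field K'] [Algebra ℂ K'] {N' : ℕ} {y' : Fin (N' + 1) → K'} {n : ℕ}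

/-- The quotients of the sections, on the coverings of the source. -/
theorem source_img (hy' : NormalModel y') (hn' : Algebra.trdeg ℂ K' = n) (hn0 : 0 < n)
    {S : Set (Place ℂ K')} (hS : S.Finite) {j' : Fin (N' + 1)} (hj' : y' j' ≠ 0) (m : ℕ) :
    ∃ M : ℕ, ∀ {F L : Type} [Field F] [Algebra ℂ F] [Field L] [Algebra ℂ L] [Algebra F L]
      [IsScalarTower ℂ F L] [Algebra K' L] [IsScalarTower ℂ K' L]
      [FiniteDimensional K' L] {R : ℕ} {w : Fin (R + 1) → F} {Δ A : Place ℂ F → ℚ}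
      {x : Fin m → F} {E : Fin m → Derivation ℂ F F}, NormalModel w → Algebra.trdeg ℂ F = m →
      Effective w A → LogCanonical w m Δ → Unram L y' S →
      (∀ P : Place ℂ L, (∀ Q' e, Over P Q' e → IsPrimeDivisor y' Q' ∧ Q' ∉ S) →
        ∀ (Q : Place ℂ F) (e : ℕ), Over P Q e → ∃ α : ℚ, LogDisc w m Δ Q α ∧ 1 ≤ e * α) →
      IsTranscendenceBasis ℂ x →
      (∀ i j, E i (x j) = if i = j then 1 else 0) → IsFrame E →
      ∃ (β C : ℕ), ∀ a b : ℕ, 1 ≤ a → ∃ Φ : ((Fin m → Derivation ℂ F F) → F) → L,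
        (∀ ω, IsSection w m a (a • Δ + b • A) ω → ω E ≠ 0 → Φ ω ≠ 0 ∧
          Bnd ℂ (affL L y' j') (a * M + b * β + C) (Φ ω)) ∧
        ∀ ω ω', ω E ≠ 0 → Φ ω' / Φ ω = algebraMap F L (ω' E / ω E) := by
  classical
  obtain ⟨U, D, G, i0, c, hs⟩ := exists_src hy' hn' hn0 hS hj'
  obtain ⟨d, hd⟩ := bnd_chart2 hj' hs.mem
  have hess' := hy'.ess
  have : Nonempty (Fin n) := ⟨⟨0, hn0⟩⟩
  obtain ⟨c2, hc2⟩ : ∃ c2 : ℕ, c2 = c + 1 + bd (k := ℂ) Finset.univ G := ⟨_, rfl⟩
  refine ⟨(1 + c2 * m + bd (k := ℂ) Finset.univ G) * d, ?_⟩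
  intro F L _ _ _ _ _ _ _ _ _ R w Δ A x E hw hm hA hLC hun hmap hx hE hfr
  have hessL : Algebra.EssFiniteType ℂ L := by
    have h1 : Algebra.EssFiniteType K' L := inferInstance
    exact Algebra.EssFiniteType.comp ℂ K' L
  have hnL : Algebra.trdeg ℂ L = n := trdeg_up (K := K') hn'
  obtain ⟨D', hs2⟩ := src_up hess' hn' hs hun
  rw [← hc2] at hs2
  have hfd : FiniteDimensional (IntermediateField.adjoin ℂ
      (Set.range fun i => algebraMap K' L (U i))) L := Pool.Agent.Y172.fd_basis hs2.bas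
  obtain ⟨g, hg0, C, hC⟩ := lin_bound (k := ℂ) hs2.bas
  have hU0 : ∀ Q : MvPolynomial (Fin n) ℂ, Q ≠ 0 → aeval (fun i => algebraMap K' L (U i)) Q ≠ 0 :=
    fun Q hQ h0 => hQ ((injective_iff_map_eq_zero _).1 hs2.bas.1 Q h0)
  have hxL : AlgebraicIndependent ℂ fun j => algebraMap F L (x j) :=
    hx.1.map' (f := IsScalarTower.toAlgHom ℂ F L) (algebraMap F L).injective
  obtain ⟨J, hJ⟩ := exists_jac hxL hs2.fr
  obtain ⟨H, β, hH0, hβ⟩ := uniform_img hw hm hnL hn0 hA hLC hs2 hmap hx hE hfr hJ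
  refine ⟨β * d, C * d, fun a b ha => ⟨fun ω => jacT (fun j => algebraMap F L (x j))
    (fun k => D' (J k)) ^ a * algebraMap F L (ω E) * H ^ b *
    (aeval (fun i => algebraMap K' L (U i)) G) ^ a * aeval (fun i => algebraMap K' L (U i)) g,
    ?_, ?_⟩⟩
  · intro ω hω hωE
    obtain ⟨h1, h2⟩ := hβ a b ha ω hω hωE
    have h3 : jacT (fun j => algebraMap F L (x j)) (fun k => D' (J k)) ^ a *
        algebraMap F L (ω E) * H ^ b * (aeval (fun i => algebraMap K' L (U i)) G) ^ a ≠ 0 := by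
      refine mul_ne_zero (mul_ne_zero (mul_ne_zero (pow_ne_zero _ hJ) ?_) (pow_ne_zero _ hH0))
        (pow_ne_zero _ (hU0 G hs2.Gne))
      rwa [Ne, map_eq_zero]
    refine ⟨mul_ne_zero h3 (hU0 g hg0), ?_⟩
    have h4 := hC _ _ h3 h1 fun P ρ hρ hP => h2 P ρ ⟨hρ, hP⟩
    have h5 := hd L _ _ h4
    have h6 : (a * (1 + c2 * m + bd (k := ℂ) Finset.univ G) + b * β + C) * d =
        a * ((1 + c2 * m + bd (k := ℂ) Finset.univ G) * d) + b * (β * d) + C * d := by ring
    rw [h6] at h5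
    exact h5
  · intro ω ω' h1
    have h3 : H ^ b ≠ 0 := pow_ne_zero _ hH0
    have h4 : (aeval (fun i => algebraMap K' L (U i)) G) ^ a ≠ 0 := pow_ne_zero _ (hU0 G hs2.Gne)
    have h5 := hU0 g hg0
    have h6 : jacT (fun j => algebraMap F L (x j)) (fun k => D' (J k)) ^ a ≠ 0 :=
      pow_ne_zero _ hJ
    have h7 : algebraMap F L (ω E) ≠ 0 := by rwa [Ne, map_eq_zero]
    rw [map_div₀]
    field_simp

end source

section main

variable {K K' F : Type} [Field K] [Algebra ℂ K] [Field K'] [Algebra ℂ K'] [Field F] [Algebra ℂ F]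
  {N N' R m n : ℕ} {y : Fin (N + 1) → K} {y' : Fin (N' + 1) → K'} {w : Fin (R + 1) → F}

/-- linear forms on the image have bounded poles -/
theorem lin_forms [Algebra F K] [IsScalarTower ℂ F K] (hy : NormalModel y) {l0 : Fin (N + 1)}
    (hl0 : y l0 ≠ 0) {j0 : Fin (R + 1)} (hj0 : w j0 ≠ 0) :
    ∃ (g : ℕ) (q : K), q ≠ 0 ∧ ∀ c : Fin (R + 1) → ℂ, (∑ i, algebraMap ℂ F (c i) * w i) ≠ 0 →
      algebraMap F K ((∑ i, algebraMap ℂ F (c i) * w i) / w j0) * q ≠ 0 ∧
      Bnd ℂ (affL K y l0) g (algebraMap F K ((∑ i, algebraMap ℂ F (c i) * w i) / w j0) * q) := by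
  classical
  obtain ⟨q2, g2, hq20, hq2⟩ := fin_bound hy hl0 fun j => algebraMap F K (w j / w j0)
  refine ⟨g2, q2, hq20, fun c hc => ?_⟩
  have h0 : algebraMap F K ((∑ i, algebraMap ℂ F (c i) * w i) / w j0) ≠ 0 := by
    rw [Ne, map_eq_zero]
    exact div_ne_zero hc hj0
  refine ⟨mul_ne_zero h0 hq20, bnd_of_prime hy hl0 (mul_ne_zero h0 hq20)
    fun Q P e hov hP l hl => ?_⟩
  obtain ⟨h3, h4⟩ := Pool.Agent.Y172.over_unique' hov
    (show Over Q Q 1 from ⟨Nat.one_pos, fun f => by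
      rw [Nat.cast_one, one_mul]
      rfl⟩)
  rw [← h3]
  obtain ⟨h, hh⟩ : ∃ h : ℤ, h = P.ord q2 + g2 * P.ord (y l0 / y l) := ⟨_, rfl⟩
  have h5 : Ge P (-h) (algebraMap F K ((∑ i, algebraMap ℂ F (c i) * w i) / w j0)) := by
    rw [Finset.sum_div, map_sum]
    refine Ge.sum _ _ fun i _ => ?_
    rw [mul_div_assoc, map_mul]
    have h6 : Ge P 0 (algebraMap F K (algebraMap ℂ F (c i))) := by
      rw [← IsScalarTower.algebraMap_apply]
      exact Ge.const _
    have h7 : Ge P (-h) (algebraMap F K (w i / w j0)) := by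
      right
      have h8 := hq2 P l hP hl i
      have h9 : |P.ord (algebraMap F K (w i / w j0))| ≤ h := by
        rw [hh]
        exact_mod_cast h8
      exact (abs_le.1 h9).1
    have h8 := h6.mul h7
    rwa [zero_add] at h8
  have h6 := h5.resolve_left h0
  rw [P.ord_mul h0 hq20]
  change 0 ≤ P.ord _ + P.ord q2 + g2 * P.ord (y l0 / y l)
  rw [hh] at h6
  linarith

end main

end Pool.Agent.R887
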