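import Pool.Agent.R887.ImgG
import Pool.Agent.R887.CorF

/-!
**The numerical dimension of the images of varieties with multi-valued maps is bounded by the growth
of the mixed degrees.**
-/

set_option autoImplicit false
set_option linter.overlappingInstances false
set_option linter.unusedSectionVars false

open FF Module MvPolynomial Pool.Agent.W602.GT Pool.Agent.W603.LV Pool.Agent.W619.PQ
open Pool.Agent.Y172 Pool.Agent.Y191

namespace Pool.Agent.R887

section

variable {K K' F : Type} [Field K] [Algebra ℂ K] [Field K'] [Algebra ℂ K'] [Field F] [Algebra ℂ F]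
  {N N' R m n : ℕ} {y : Fin (N + 1) → K} {y' : Fin (N' + 1) → K'} {w : Fin (R + 1) → F}

theorem numdim_img (hy : NormalModel y) (hy' : NormalModel y') (hn : Algebra.trdeg ℂ K = n)
    (hn' : Algebra.trdeg ℂ K' = n) (hn0 : 0 < n) (hw : NormalModel w)
    (hm : Algebra.trdeg ℂ F = m) {Δ : Place ℂ F → ℚ} (hLC : LogCanonical w m Δ)
    (f : F →ₐ[ℂ] K) {j : ℕ} (hj : j ≤ m) {S : Set (Place ℂ K')} (hS : S.Finite)
    (h : ∀ ε : ℝ, 0 < ε → ∃ (L : Type) (_ : Field L) (_ : Algebra ℂ L) (φ : K →ₐ[ℂ] L)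
      (ψ : K' →ₐ[ℂ] L), FiniteDimensional ψ.fieldRange L ∧ UnramifiedOutside ψ y' S ∧
        MultiPullBackLe (φ.comp f) ψ w m Δ y' S ∧ MultiDegreeLe φ ψ y y' (n - j) j ε) :
    NumDimLt w m Δ j := by
  classical
  intro A hA ε hε
  obtain ⟨j', hj'⟩ := hy'.ne
  obtain ⟨l0, hl0⟩ := hy.ne
  obtain ⟨j0, hj0⟩ := hw.ne
  have hess' := hy'.ess
  have hess := hy.ess
  have hessF := hw.ess
  obtain ⟨M, hM⟩ := source_img hy' hn' hn0 hS hj' m
  obtain ⟨x, E, hx, hE⟩ : ∃ (x : Fin m → F) (E : Fin m → Derivation ℂ F F),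
      IsTranscendenceBasis ℂ x ∧ ∀ i j, E i (x j) = if i = j then 1 else 0 := by
    obtain ⟨x, hx, -, -⟩ := exists_noether hw hm hj0
    obtain ⟨E, hE⟩ := exists_dual hx.1
    exact ⟨x, E, hx, hE⟩
  have hfr : IsFrame E := fun G => ⟨fun j => G (x j),
    (Pool.Agent.W73.PG.PULL.expand x hx E hE G).symm⟩
  let _ : Algebra F K := f.toRingHom.toAlgebra
  have hstF : IsScalarTower ℂ F K := IsScalarTower.of_algebraMap_eq fun c => (f.commutes c).symm
  obtain ⟨hmn, u, hu, huF⟩ := exists_comp hy hn hm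
  obtain ⟨g, q, hq0, hlin⟩ := lin_forms hy (w := w) hl0 hj0
  have hM1 : (0 : ℝ) < (M + 2) ^ j := by positivity
  have hg1 : (0 : ℝ) < (g : ℝ) ^ (m - j) + 1 := by positivity
  obtain ⟨L, _, _, φ, ψ, hψ0, hun, hφ1, hφ2⟩ :=
    h (ε / (((g : ℝ) ^ (m - j) + 1) * (M + 2) ^ j)) (div_pos hε (mul_pos hg1 hM1))
  let _ : Algebra K L := φ.toRingHom.toAlgebra
  let _ : Algebra K' L := ψ.toRingHom.toAlgebra
  let _ : Algebra F L := (φ.comp f).toRingHom.toAlgebra
  have hst : IsScalarTower ℂ K L := IsScalarTower.of_algebraMap_eq fun c => (φ.commutes c).symm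
  have hst' : IsScalarTower ℂ K' L := IsScalarTower.of_algebraMap_eq fun c => (ψ.commutes c).symm
  have hst2 : IsScalarTower ℂ F L :=
    IsScalarTower.of_algebraMap_eq fun c => ((φ.comp f).commutes c).symm
  have hfd' : FiniteDimensional K' L := fd_of_range ψ hψ0
  have hessL : Algebra.EssFiniteType ℂ L := by
    have h1 : Algebra.EssFiniteType K' L := inferInstance
    exact Algebra.EssFiniteType.comp ℂ K' L
  have hnL : Algebra.trdeg ℂ L = n := trdeg_up (K := K') hn'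
  have hfd : FiniteDimensional K L := finite_map hn hnL
  obtain ⟨β, C, hβ⟩ := hM hw hm hA hLC (fun Q Q' e hQ' hQS ho => hun Q' hQ' hQS Q e ho)
    (fun Q hQ P e ho => by
      have hov := over_bel K' Q
      obtain ⟨h1, h2⟩ := hQ _ _ hov
      exact hφ1 _ h1 h2 Q _ hov P e ho) hx hE hfr
  have hdeg : mapDegree φ = Module.finrank K L := by
    unfold mapDegree
    let e : K ≃ₐ[ℂ] φ.fieldRange := AlgEquiv.ofInjectiveField φ
    refine (Algebra.finrank_eq_of_equiv_equiv e.toRingEquiv (RingEquiv.refl L) ?_).symm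
    ext x
    rfl
  have hdeg0 : (0 : ℝ) < Module.finrank K L := by
    exact_mod_cast Module.finrank_pos
  refine ⟨1 / (β + 1), by positivity, C + 1, fun a b ha hb v hv ω E' hω hω0 => ?_⟩
  have ha1 : 1 ≤ a := by omega
  have ha0 : (0 : ℝ) < a := by exact_mod_cast ha1
  obtain ⟨r, hr⟩ : ∃ r : Fin j → F, r = fun i => ω i.succ E' / ω 0 E' := ⟨_, rfl⟩
  rw [← hr, degreeOver_eq]
  by_cases h0 : dg ℂ (Sum.elim v r) = 0
  · rw [h0]
    push_cast
    positivity
  have hcard : Nat.card (Fin (m - j) ⊕ Fin j) = m := by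
    rw [Nat.card_eq_fintype_card, Fintype.card_sum, Fintype.card_fin, Fintype.card_fin]
    omega
  have hbas := basis_of_dg (k := ℂ) (w := Sum.elim v r) (by rw [hm, hcard]) h0
  obtain ⟨W, hW⟩ : ∃ W : Fin (n - m) ⊕ (Fin (m - j) ⊕ Fin j) → K,
      W = Sum.elim u fun i => algebraMap F K (Sum.elim v r i) := ⟨_, rfl⟩
  have hWbas : IsTranscendenceBasis ℂ W := by
    rw [hW]
    exact hbas.sumElim_comp huF
  have hWne := dg_ne_zero hWbas
  have hle1 : dg ℂ (Sum.elim v r) ≤ dg ℂ W := by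
    rw [hW]
    refine dg_base huF.1 ?_
    rw [← hW]
    exact hWne
  have hcardW : Nat.card (Fin (n - m) ⊕ (Fin (m - j) ⊕ Fin j)) = n := by
    rw [Nat.card_eq_fintype_card, Fintype.card_sum, Fintype.card_sum, Fintype.card_fin,
      Fintype.card_fin, Fintype.card_fin]
    omega
  -- the sections are not zero
  have hωE : ∀ i, ω i E ≠ 0 := by
    intro i
    have h1 := (ratio_frame hfr (hω 0).1 (hω 0).1 hω0).1
    refine Fin.cases h1 (fun i => ?_) i
    intro h2
    have h3 := (ratio_frame hfr (hω 0).1 (hω i.succ).1 hω0).2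
    rw [h2, zero_div] at h3
    have h4 := hbas.1.ne_zero (Sum.inr i)
    rw [Sum.elim_inr, hr] at h4
    exact h4 h3
  -- the pencils on the image
  have hone : (1 : K) ∈ affL K y l0 := ⟨l0, by simp only []; rw [div_self hl0, map_one]⟩
  choose α β' hβ' hv' using hv
  have hα : ∀ j, (∑ i, algebraMap ℂ F (α j i) * w i) ≠ 0 := by
    intro j h
    have h1 := hv' j
    rw [h, zero_div] at h1
    exact hbas.1.ne_zero (Sum.inl j) h1
  obtain ⟨A0, hA0⟩ : ∃ A0 : Fin (n - m) ⊕ (Fin (m - j) ⊕ Fin j) → K, A0 =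
      Sum.elim (fun _ => 1) (Sum.elim (fun j => algebraMap F K
        ((∑ i, algebraMap ℂ F (β' j i) * w i) / w j0) * q) fun _ => 1) := ⟨_, rfl⟩
  obtain ⟨A1, hA1⟩ : ∃ A1 : Fin (n - m) ⊕ (Fin (m - j) ⊕ Fin j) → K, A1 =
      Sum.elim (fun _ => 1) (Sum.elim (fun j => algebraMap F K
        ((∑ i, algebraMap ℂ F (α j i) * w i) / w j0) * q) fun _ => 1) := ⟨_, rfl⟩
  obtain ⟨J, hJ⟩ : ∃ J : Finset (Fin (n - m) ⊕ (Fin (m - j) ⊕ Fin j)), J =
    Finset.univ.image fun j : Fin (m - j) => Sum.inr (Sum.inl j) := ⟨_, rfl⟩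
  have hJm : ∀ i ∈ J, ∃ c : Fin (m - j), i = Sum.inr (Sum.inl c) := by
    intro i hi
    rw [hJ] at hi
    obtain ⟨c, -, rfl⟩ := Finset.mem_image.1 hi
    exact ⟨c, rfl⟩
  have hJc : J.card = m - j := by
    rw [hJ, Finset.card_image_of_injective, Finset.card_univ, Fintype.card_fin]
    intro a b hab
    exact Sum.inl_injective (Sum.inr_injective hab)
  obtain ⟨W3, hW31, hW32, hle3⟩ := replace_ratios (k := ℂ) (K := K) (by rw [hn, hcardW])
    (S := affL K y l0) (Set.finite_range _) hone (B := g) A0 A1 J W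
    (by
      intro i hi
      obtain ⟨c, rfl⟩ := hJm i hi
      rw [hA0]
      exact (hlin (β' c) (hβ' c)).1)
    (by
      intro i hi
      obtain ⟨c, rfl⟩ := hJm i hi
      rw [hA1]
      exact (hlin (α c) (hα c)).1)
    (by
      intro i hi
      obtain ⟨c, rfl⟩ := hJm i hi
      rw [hA0]
      exact (hlin (β' c) (hβ' c)).2)
    (by
      intro i hi
      obtain ⟨c, rfl⟩ := hJm i hi
      rw [hA1]
      exact (hlin (α c) (hα c)).2)
    (by
      intro i hi
      obtain ⟨c, rfl⟩ := hJm i hi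
      rw [hW, hA0, hA1]
      simp only [Sum.elim_inr, Sum.elim_inl]
      rw [mul_div_mul_right _ _ hq0, hv' c, ← map_div₀, div_div_div_cancel_right₀ hj0])
  rw [hJc] at hle3
  have haff : affL K y l0 = aff y l0 := by
    unfold affL aff
    congr 1
  have hpen : ∀ c : Fin (m - j), IsPencil y (W3 (Sum.inr (Sum.inl c))) := by
    intro c
    have h1 := hW31 (Sum.inr (Sum.inl c)) (by
      rw [hJ]
      exact Finset.mem_image_of_mem _ (Finset.mem_univ c))
    rw [haff] at h1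
    exact pencil_of_span hl0 h1
  have hW3u : ∀ c : Fin (n - m), W3 (Sum.inl c) = u c := by
    intro c
    rw [hW32 _ (by
      rw [hJ]
      simp), hW]
    rfl
  have hW3r : ∀ c : Fin j, W3 (Sum.inr (Sum.inr c)) = algebraMap F K (r c) := by
    intro c
    rw [hW32 _ (by
      rw [hJ]
      simp), hW]
    rfl
  -- replace the sections by pencils of the source
  obtain ⟨Φ, hF1, hF2⟩ := hβ a b ha1
  obtain ⟨B, hB⟩ : ∃ B, B = a * M + b * β + C := ⟨_, rfl⟩
  have hrE : ∀ i, algebraMap K L (W3 (Sum.inr (Sum.inr i))) = Φ (ω i.succ) / Φ (ω 0) := by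
    intro i
    rw [hF2 _ _ (hωE 0), hW3r, hr]
    change algebraMap F L _ = _
    congr 1
    exact (ratio_frame hfr (hω 0).1 (hω i.succ).1 hω0).2
  obtain ⟨v2, hv1, hv2, hv3⟩ := replace_all (k := ℂ) (K := L)
    (ι := Fin (n - m) ⊕ (Fin (m - j) ⊕ Fin j))
    (by rw [hnL, hcardW]) (S := affL L y' j') (Set.finite_range _)
    ⟨j', by simp only []; rw [div_self hj', map_one]⟩ (B := B)
    (f₀ := Φ (ω 0)) (hF1 _ (hω 0) (hωE 0)).1 (by rw [hB]; exact (hF1 _ (hω 0) (hωE 0)).2)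
    (Finset.univ.image fun c : Fin j => Sum.inr (Sum.inr c)) (fun i => algebraMap K L (W3 i))
    (Sum.elim (fun _ => 1) (Sum.elim (fun _ => 1) fun i => Φ (ω i.succ))) (by
      intro i hi
      obtain ⟨c, -, rfl⟩ := Finset.mem_image.1 hi
      exact (hF1 _ (hω _) (hωE _)).1) (by
      intro i hi
      obtain ⟨c, -, rfl⟩ := Finset.mem_image.1 hi
      rw [hB]
      exact (hF1 _ (hω _) (hωE _)).2) (by
      intro i hi
      obtain ⟨c, -, rfl⟩ := Finset.mem_image.1 hi
      exact hrE c)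
  choose v3 hv31 hv32 using fun i => pencil_of_span2 (y' := y') ψ (fun _ => rfl) hj'
    (hv1 (Sum.inr (Sum.inr i)) (Finset.mem_image_of_mem _ (Finset.mem_univ i)))
  obtain ⟨e⟩ : Nonempty (Fin (n - j) ≃ Fin (n - m) ⊕ Fin (m - j)) := by
    refine ⟨Fintype.equivOfCardEq ?_⟩
    rw [Fintype.card_sum, Fintype.card_fin, Fintype.card_fin, Fintype.card_fin]
    omega
  obtain ⟨u2, hu2⟩ : ∃ u2 : Fin (n - j) → K, u2 = fun c =>
    Sum.elim u (fun c => W3 (Sum.inr (Sum.inl c))) (e c) := ⟨_, rfl⟩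
  have hu2p : ∀ c, IsPencil y (u2 c) := by
    intro c
    rw [hu2]
    simp only []
    rcases e c with i | i
    · exact hu i
    · exact hpen i
  have h1 : dg ℂ v2 = degreeOver (fun a => φ (u2 a)) (fun i => ψ (v3 i)) := by
    rw [degreeOver_eq]
    apply dg_congr
    ext z
    constructor
    · rintro ⟨i, rfl⟩
      rcases i with i | i | i
      · refine ⟨Sum.inl (e.symm (Sum.inl i)), ?_⟩
        rw [hv2 (Sum.inl i) (by simp), Sum.elim_inl, hu2]
        simp only [Equiv.apply_symm_apply, Sum.elim_inl]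
        rw [hW3u]
        rfl
      · refine ⟨Sum.inl (e.symm (Sum.inr i)), ?_⟩
        rw [hv2 (Sum.inr (Sum.inl i)) (by simp), Sum.elim_inl, hu2]
        simp only [Equiv.apply_symm_apply, Sum.elim_inr]
        rfl
      · exact ⟨Sum.inr i, (hv32 i).symm⟩
    · rintro ⟨i, rfl⟩
      rcases i with i | i
      · rw [Sum.elim_inl, hu2]
        simp only []
        rcases e i with c | c
        · refine ⟨Sum.inl c, ?_⟩
          rw [hv2 (Sum.inl c) (by simp), Sum.elim_inl, hW3u]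
          rfl
        · refine ⟨Sum.inr (Sum.inl c), ?_⟩
          rw [hv2 (Sum.inr (Sum.inl c)) (by simp), Sum.elim_inr]
          rfl
      · exact ⟨Sum.inr (Sum.inr i), hv32 i⟩
  have h2 := hφ2 u2 hu2p v3 hv31
  rw [← h1, hdeg] at h2
  rw [dg_tower, Finset.card_image_of_injective _ (fun a b hab =>
      Sum.inr_injective (Sum.inr_injective hab)), Finset.card_univ, Fintype.card_fin] at hv3
  have h3 : (dg ℂ W3 : ℝ) * Module.finrank K L ≤ (B : ℝ) ^ j * dg ℂ v2 := by
    exact_mod_cast hv3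
  have h4 : (B : ℝ) ≤ a * (M + 2) := by
    rw [hB]
    push_cast
    have h5 : (C : ℝ) + 1 ≤ a := by exact_mod_cast ha
    have h6 : (0 : ℝ) ≤ M := Nat.cast_nonneg _
    have h7 : (b : ℝ) * (β + 1) ≤ a := by
      have h8 : (0 : ℝ) < β + 1 := by positivity
      have h9 := mul_le_mul_of_nonneg_right hb h8.le
      have h10 : 1 / ((β : ℝ) + 1) * a * (β + 1) = a := by field_simp
      linarith
    have h8 : (0 : ℝ) ≤ b := Nat.cast_nonneg _
    nlinarith
  have h5 : (B : ℝ) ^ j ≤ a ^ j * (M + 2) ^ j := by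
    rw [← mul_pow]
    exact pow_le_pow_left₀ (Nat.cast_nonneg _) h4 j
  have h7 : (dg ℂ (Sum.elim v r) : ℝ) ≤ (g : ℝ) ^ (m - j) * dg ℂ W3 := by
    exact_mod_cast hle1.trans hle3
  have hg0 : (0 : ℝ) ≤ (g : ℝ) ^ (m - j) := by positivity
  have h6 : (dg ℂ (Sum.elim v r) : ℝ) * Module.finrank K L ≤
      (ε * a ^ j) * Module.finrank K L := by
    calc (dg ℂ (Sum.elim v r) : ℝ) * Module.finrank K L ≤
          ((g : ℝ) ^ (m - j) * dg ℂ W3) * Module.finrank K L :=
          mul_le_mul_of_nonneg_right h7 hdeg0.le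
      _ = (g : ℝ) ^ (m - j) * (dg ℂ W3 * Module.finrank K L) := by ring
      _ ≤ (g : ℝ) ^ (m - j) * ((B : ℝ) ^ j * dg ℂ v2) := mul_le_mul_of_nonneg_left h3 hg0
      _ ≤ (g : ℝ) ^ (m - j) * ((a ^ j * (M + 2) ^ j) * dg ℂ v2) :=
        mul_le_mul_of_nonneg_left (mul_le_mul_of_nonneg_right h5 (Nat.cast_nonneg _)) hg0
      _ ≤ ((g : ℝ) ^ (m - j) + 1) * ((a ^ j * (M + 2) ^ j) * dg ℂ v2) :=
        mul_le_mul_of_nonneg_right (by linarith) (by positivity)
      _ ≤ ((g : ℝ) ^ (m - j) + 1) * ((a ^ j * (M + 2) ^ j) *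
          (ε / (((g : ℝ) ^ (m - j) + 1) * (M + 2) ^ j) * Module.finrank K L)) :=
        mul_le_mul_of_nonneg_left (mul_le_mul_of_nonneg_left h2 (by positivity)) hg1.le
      _ = (ε * a ^ j) * Module.finrank K L := by
        field_simp
  exact le_of_mul_le_mul_right h6 hdeg0

end

end Pool.Agent.R887
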