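import Pool.Agent.R887.ImgH
import Pool.Agent.R887.CorJ

/-!
Images with canonical singularities of the varieties with multi-valued rational maps.
-/

set_option autoImplicit false
set_option linter.overlappingInstances false
set_option linter.unusedSectionVars false

open FF Module MvPolynomial Pool.Agent.W602.GT Pool.Agent.W603.LV Pool.Agent.W619.PQ
open Pool.Agent.Y172 Pool.Agent.Y191

namespace Pool.Agent.R887

section

variable {K' F L : Type} [Field K'] [Algebra ℂ K'] [Field F] [Algebra ℂ F] [Field L] [Algebra ℂ L]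
  {N' R m n : ℕ} {y' : Fin (N' + 1) → K'} {w : Fin (R + 1) → F}

/-- the condition on the pull backs, for canonical singularities -/
theorem Canonical.multi_img (hcan : Canonical w m) (hy' : NormalModel y')
    (hm : Algebra.trdeg ℂ F = m) (hn' : Algebra.trdeg ℂ K' = n) (φ : F →ₐ[ℂ] L) (ψ : K' →ₐ[ℂ] L)
    (hψ : FiniteDimensional ψ.fieldRange L) (S : Set (Place ℂ K')) :
    MultiPullBackLe φ ψ w m 0 y' S := by
  intro Q' hQ' _ Q e' hQe P e hPe
  have hess' := hy'.ess
  let _ : Algebra F L := φ.toRingHom.toAlgebra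
  let _ : Algebra K' L := ψ.toRingHom.toAlgebra
  have hst : IsScalarTower ℂ F L := IsScalarTower.of_algebraMap_eq fun c => (φ.commutes c).symm
  have hst' : IsScalarTower ℂ K' L := IsScalarTower.of_algebraMap_eq fun c => (ψ.commutes c).symm
  have hfd' : FiniteDimensional K' L := fd_of_range ψ hψ
  have hnL : Algebra.trdeg ℂ L = n := trdeg_up (K := K') hn'
  have hdQ : Divisorial n Q := divisorial_up (K := K') hQe (hQ'.divisorial hy' hn')
  have hov : Over Q P e := hPe
  have hdP : Divisorial m P := Pool.Agent.Y71.NT.t_abh F L m n hm hnL Q P e hov hdQ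
  obtain ⟨r, hr, η, h1, h2, h3⟩ := hcan P hdP
  refine ⟨1, Or.inr ⟨r, hr, η, h1, fun P' hP' hT => ?_, fun E hE => ?_⟩, ?_⟩
  · simpa using h2 P' hP' hT
  · simpa using h3 E hE
  · rw [mul_one]
    exact_mod_cast hPe.1

end

end Pool.Agent.R887
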