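import Pool.Agent.Y191.UCore
import Pool.Agent.Y172.Cov2

/-!
The places at infinity of an affine space and the places over them.
-/

set_option autoImplicit false
set_option linter.overlappingInstances false
set_option linter.unusedSectionVars false

open FF MvPolynomial Pool.Agent.W602.GT Pool.Agent.W603.LV Pool.Agent.W619.PQ
open Pool.Agent.Y172 Pool.Agent.Y191

namespace Pool.Agent.R887

section

variable {k K : Type} [Field k] [CharZero k] [Field K] [Algebra k K]

/-- `w` is over the place at infinity of the affine space with coordinates `U`, with ramification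
index `ρ` -/
def AtInf {σ : Type} [Fintype σ] [DecidableEq σ] (U : σ → K) (w : Place k K) (ρ : ℕ) : Prop :=
  1 ≤ ρ ∧ ∀ Q : MvPolynomial σ k, Q ≠ 0 →
    w.ord (aeval U Q) = -((ρ : ℤ) * bd (k := k) Finset.univ Q)

theorem AtInf.crd {σ : Type} [Fintype σ] [DecidableEq σ] {U : σ → K} {w : Place k K} {ρ : ℕ}
    (h : AtInf U w ρ) (i : σ) : w.ord (U i) = -(ρ : ℤ) := by
  have h1 := h.2 (MvPolynomial.X i) (X_ne_zero _)
  rw [aeval_X] at h1
  have h2 : bd (k := k) Finset.univ (X i : MvPolynomial σ k) = 1 := by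
    rw [bd, bdeg, aeval_X, if_pos (Finset.mem_univ _), mul_comm,
      Polynomial.natDegree_C_mul_X _ (X_ne_zero _)]
  rw [h1, h2]
  simp

theorem finite_inf {σ : Type} [Fintype σ] [DecidableEq σ] [Nonempty σ] {U : σ → K}
    (hU : IsTranscendenceBasis k U)
    [FiniteDimensional (IntermediateField.adjoin k (Set.range U)) K] :
    {w : Place k K | ∃ ρ, AtInf U w ρ}.Finite := by
  have hG := crd_gens (k := k) hU.1
  have hU0 : ∀ Q : MvPolynomial σ k, Q ≠ 0 → aeval U Q ≠ 0 := fun Q hQ h0 =>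
    hQ ((injective_iff_map_eq_zero _).1 hU.1 Q h0)
  obtain ⟨v, hv⟩ := exists_bplace (k := k) (Finset.univ : Finset σ) Finset.univ_nonempty hG
  refine (Pool.Agent.Y172.finite_over (K' := K) v).subset ?_
  rintro w ⟨ρ, hρ, hw⟩
  refine ⟨ρ, hρ, fun f => ?_⟩
  by_cases hf : f = 0
  · rw [hf, map_zero, w.ord_zero, v.ord_zero, mul_zero]
  obtain ⟨A, B, hB, hAB⟩ := hG.gen f
  have hA : A ≠ 0 := by
    rintro rfl
    apply hf
    rw [hAB, map_zero, zero_div]
  have h3 : algebraMap (IntermediateField.adjoin k (Set.range U)) K f =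
      aeval U A / aeval U B := by
    rw [hAB, map_div₀]
    change ((aeval (Y191.crd (k := k) U) A : IntermediateField.adjoin k (Set.range U)) : K) /
      ((aeval (Y191.crd (k := k) U) B : IntermediateField.adjoin k (Set.range U)) : K) = _
    rw [crd_coe, crd_coe]
  rw [h3, w.ord_div (hU0 A hA) (hU0 B hB), hw A hA, hw B hB, hAB,
    v.ord_div (hG.ne hA) (hG.ne hB), hv A hA, hv B hB]
  ring

/-- **The places at infinity are divisorial.** -/
theorem AtInf.divisorial {n : ℕ} {U : Fin n → K} (hn : 0 < n) (hU : AlgebraicIndependent k U)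
    {w : Place k K} {ρ : ℕ} (h : AtInf U w ρ) : Divisorial n w := by
  obtain ⟨m, rfl⟩ : ∃ m, n = m + 1 := ⟨n - 1, by omega⟩
  have hU0 : ∀ Q : MvPolynomial (Fin (m + 1)) k, Q ≠ 0 → aeval U Q ≠ 0 := fun Q hQ h0 =>
    hQ ((injective_iff_map_eq_zero _).1 hU Q h0)
  have h0 : U 0 ≠ 0 := by
    have := hU0 (X 0) (X_ne_zero _)
    rwa [aeval_X] at this
  change ∃ u : Fin m → K, ∀ F : MvPolynomial (Fin m) k, F ≠ 0 → _
  refine ⟨fun i => U i.succ / U 0, fun F hF => ?_⟩
  obtain ⟨d, hd⟩ : ∃ d, d = F.totalDegree := ⟨_, rfl⟩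
  have hsd : ∀ s ∈ F.support, ∑ i, s i ≤ d := by
    intro s hs
    rw [hd]
    refine le_trans (le_of_eq ?_) (le_totalDegree hs)
    rw [Finsupp.sum_fintype _ _ fun _ => rfl]
  -- the homogenisation
  obtain ⟨H, hH⟩ : ∃ H : MvPolynomial (Fin (m + 1)) k,
      H = ∑ s ∈ F.support, monomial (Finsupp.cons (d - ∑ i, s i) s) (coeff s F) := ⟨_, rfl⟩
  have hHa : aeval U H = U 0 ^ d * aeval (fun i : Fin m => U i.succ / U 0) F := by
    rw [hH, map_sum]
    conv_rhs => rw [aeval_def, eval₂_eq']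
    rw [Finset.mul_sum]
    refine Finset.sum_congr rfl fun s hs => ?_
    rw [aeval_monomial, Finsupp.prod_fintype _ _ fun _ => pow_zero _, Fin.prod_univ_succ,
      Finsupp.cons_zero]
    have h1 : U 0 ^ d = U 0 ^ (d - ∑ i, s i) * ∏ i, U 0 ^ s i := by
      rw [Finset.prod_pow_eq_pow_sum, ← pow_add, Nat.sub_add_cancel (hsd s hs)]
    have h2 : ∏ i : Fin m, (U i.succ / U 0) ^ s i =
        (∏ i : Fin m, U i.succ ^ s i) / ∏ i, U 0 ^ s i := by
      simp only [div_pow, Finset.prod_div_distrib]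
    have h3 : ∏ i : Fin m, U 0 ^ s i ≠ 0 := Finset.prod_ne_zero_iff.2 fun i _ => pow_ne_zero _ h0
    rw [h1, h2]
    simp only [Finsupp.cons_succ]
    generalize (∏ i : Fin m, U i.succ ^ s i) = A
    generalize (∏ i : Fin m, U 0 ^ s i) = B at h3
    field_simp
  have hHs : ∀ t ∈ H.support, ∑ i, t i = d := by
    intro t ht
    rw [hH] at ht
    have h1 := support_sum ht
    obtain ⟨s, hs, h2⟩ := Finset.mem_biUnion.1 h1
    have h3 : t = Finsupp.cons (d - ∑ i, s i) s := by
      have h4 := support_monomial_subset h2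
      exact Finset.mem_singleton.1 h4
    rw [h3, Fin.sum_univ_succ, Finsupp.cons_zero]
    simp only [Finsupp.cons_succ]
    exact Nat.sub_add_cancel (hsd s hs)
  have hH0 : H ≠ 0 := by
    obtain ⟨s0, hs0⟩ := support_nonempty.2 hF
    intro h1
    have h2 : coeff (Finsupp.cons (d - ∑ i, s0 i) s0) H = coeff s0 F := by
      rw [hH, coeff_sum, Finset.sum_eq_single s0]
      · rw [coeff_monomial, if_pos rfl]
      · intro s _ hs
        rw [coeff_monomial, if_neg]
        intro h3
        apply hs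
        ext i
        have h4 := DFunLike.congr_fun h3 i.succ
        rwa [Finsupp.cons_succ, Finsupp.cons_succ] at h4
      · intro h3
        exact absurd hs0 h3
    rw [h1, coeff_zero] at h2
    exact mem_support_iff.1 hs0 h2.symm
  have hbd : bd (k := k) Finset.univ H = d := by
    apply le_antisymm
    · exact bd_le _ fun t ht => (hHs t ht).le
    · obtain ⟨t, ht⟩ := support_nonempty.2 hH0
      rw [← hHs t ht]
      exact le_bd _ ht
  have hne : aeval (fun i : Fin m => U i.succ / U 0) F ≠ 0 := by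
    intro h1
    rw [h1, mul_zero] at hHa
    exact hU0 H hH0 hHa
  refine ⟨hne, ?_⟩
  have h1 := h.2 H hH0
  rw [hHa, w.ord_mul (pow_ne_zero _ h0) hne, w.ord_pow, h.crd 0, hbd] at h1
  linarith

variable [Algebra.EssFiniteType k K] {n : ℕ}

/-- a vector field becomes regular after multiplication by a high power of a function which vanishes
at the place -/
theorem reg_scale (hn : Algebra.trdeg k K = n) {w : Place k K} (hw : Divisorial n w)
    {z : K} (hz : 0 < w.ord z) (D : Derivation k K K) :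
    ∃ c : ℕ, ∀ c', c ≤ c' → DerReg w (z ^ c' • D) := by
  obtain ⟨y, E, i0, hl⟩ := exists_loc hn hw
  have hz0 : z ≠ 0 := by
    rintro rfl
    rw [w.ord_zero] at hz
    omega
  refine ⟨∑ j, (w.ord (D (y j))).natAbs, fun c hc f hf => ?_⟩
  have hexp : D = ∑ j, D (y j) • E j :=
    (Pool.Agent.W73.PG.PULL.expand y hl.bas E hl.dual D).symm
  have h1 : D f = ∑ j, D (y j) * E j f := by
    conv_lhs => rw [hexp]
    rw [sum_smul_apply]
  change Ge w 0 (z ^ c * D f)
  rw [h1, Finset.mul_sum]
  refine Ge.sum _ _ fun j _ => ?_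
  have h2 : Ge w (w.ord (D (y j))) (D (y j)) := Or.inr le_rfl
  have h3 : Ge w 0 (E j f) := hl.pres j f hf
  have h4 : Ge w (w.ord (z ^ c)) (z ^ c) := Or.inr le_rfl
  refine (h4.mul (h2.mul h3)).mono ?_
  rw [w.ord_pow]
  have h5 : (w.ord (D (y j))).natAbs ≤ ∑ j, (w.ord (D (y j))).natAbs :=
    Finset.single_le_sum (f := fun j => (w.ord (D (y j))).natAbs) (fun _ _ => Nat.zero_le _)
      (Finset.mem_univ j)
  have h6 : (c : ℤ) * 1 ≤ c * w.ord z := mul_le_mul_of_nonneg_left (by omega) (Int.natCast_nonneg _)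
  omega

end

end Pool.Agent.R887
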