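import Pool.Agent.Helper386.D5V.Helper386_FF_Riemann

/-!
The degree of a quotient of two functions whose poles are bounded by the poles of finitely many
functions.
-/

set_option autoImplicit false
set_option linter.overlappingInstances false
set_option linter.unusedSectionVars false

open FF Module IntermediateField

namespace Pool.Agent.R887

/-- At all places of `K` over `k` the order of `f` is at least `B` times the order of one of the
functions in `S`. -/
def Bnd (k : Type*) {K : Type*} [Field k] [Field K] [Algebra k K] (S : Set K) (B : ℕ) (f : K) :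
    Prop :=
  ∀ P : Place k K, ∃ s ∈ S, s ≠ 0 ∧ (B : ℤ) * P.ord s ≤ P.ord f

section generic

variable {k₀ k K : Type*} [Field k₀] [Field k] [Field K] [Algebra k₀ k] [Algebra k₀ K] [Algebra k K]
  [IsScalarTower k₀ k K]

theorem ord_const₀ (P : Place k K) {c : k₀} (hc : c ≠ 0) : P.ord (algebraMap k₀ K c) = 0 := by
  rw [IsScalarTower.algebraMap_apply k₀ k K]
  exact P.ord_const (by rwa [Ne, map_eq_zero])

/-- the elements of order at least `m` -/
def geSub (k₀ : Type*) [Field k₀] [Algebra k₀ k] [Algebra k₀ K] [IsScalarTower k₀ k K]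
    (P : Place k K) (m : ℤ) : Submodule k₀ K where
  carrier := {f | f = 0 ∨ m ≤ P.ord f}
  zero_mem' := Or.inl rfl
  add_mem' := by
    rintro f g (rfl | hf) (rfl | hg)
    · left; simp
    · right; rwa [zero_add]
    · right; rwa [add_zero]
    · by_cases h : f + g = 0
      · exact Or.inl h
      by_cases hf0 : f = 0
      · right; rwa [hf0, zero_add]
      by_cases hg0 : g = 0
      · right; rwa [hg0, add_zero]
      right
      exact (le_min hf hg).trans (P.ord_add hf0 hg0 h)
  smul_mem' := by
    rintro c f (rfl | hf)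
    · left; simp
    · by_cases hc : c = 0
      · left; simp [hc]
      by_cases hf0 : f = 0
      · left; simp [hf0]
      right
      rw [Algebra.smul_def, P.ord_mul (by rwa [Ne, map_eq_zero]) hf0, ord_const₀ P hc, zero_add]
      exact hf

theorem mem_geSub {P : Place k K} {m : ℤ} {f : K} :
    f ∈ geSub k₀ P m ↔ f = 0 ∨ m ≤ P.ord f := Iff.rfl

/-- a combination of elements of `V`, spanned by `S`, with orders as small as possible at finitely
many places -/
theorem exists_generic [Infinite k₀] {S : Set K} (hS : S.Finite) (T : Set (Place k K))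
    (hT : T.Finite) (h0 : ∃ s ∈ S, s ≠ 0) :
    ∃ v ∈ Submodule.span k₀ S, v ≠ 0 ∧ ∀ P ∈ T, ∀ s ∈ S, s ≠ 0 → P.ord v ≤ P.ord s := by
  classical
  obtain ⟨V, hV⟩ : ∃ V, V = Submodule.span k₀ S := ⟨_, rfl⟩
  -- for each place and each `s`, a subspace
  let W : Place k K × K → Submodule k₀ V := fun x =>
    Submodule.comap V.subtype (geSub k₀ x.1 (x.1.ord x.2 + 1))
  let F : Finset (Submodule k₀ V) :=
    insert ⊥ ((hT.toFinset ×ˢ (hS.toFinset.filter fun s => s ≠ 0)).image W)
  have hF : (⊤ : Submodule k₀ V) ∉ F := by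
    intro h
    rw [Finset.mem_insert] at h
    rcases h with h | h
    · obtain ⟨s, hs, hs0⟩ := h0
      have h1 : (⟨s, by rw [hV]; exact Submodule.subset_span hs⟩ : V) ∈ (⊤ : Submodule k₀ V) :=
        trivial
      rw [h, Submodule.mem_bot] at h1
      exact hs0 (congrArg Subtype.val h1)
    · rw [Finset.mem_image] at h
      obtain ⟨⟨P, s⟩, hx, hx2⟩ := h
      rw [Finset.mem_product, Finset.mem_filter, Set.Finite.mem_toFinset,
        Set.Finite.mem_toFinset] at hx
      obtain ⟨-, hs, hs0⟩ := hx
      have h1 : (⟨s, by rw [hV]; exact Submodule.subset_span hs⟩ : V) ∈ (⊤ : Submodule k₀ V) :=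
        trivial
      rw [← hx2] at h1
      have h2 : s = 0 ∨ P.ord s + 1 ≤ P.ord s := h1
      rcases h2 with h2 | h2
      · exact hs0 h2
      · omega
  have h1 := Subspace.biUnion_ne_univ_of_top_notMem hF
  obtain ⟨v, hv⟩ := (Set.ne_univ_iff_exists_notMem _).1 h1
  simp only [Set.mem_iUnion, not_exists] at hv
  have hv0 : (v : K) ≠ 0 := by
    intro h
    apply hv ⊥ (Finset.mem_insert_self _ _)
    rw [SetLike.mem_coe, Submodule.mem_bot]
    exact Subtype.ext h
  refine ⟨v, by rw [← hV]; exact v.2, hv0, fun P hP s hs hs0 => ?_⟩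
  by_contra hlt
  push Not at hlt
  apply hv (W (P, s)) (Finset.mem_insert_of_mem (Finset.mem_image_of_mem _ (by
    rw [Finset.mem_product, Finset.mem_filter, Set.Finite.mem_toFinset,
        Set.Finite.mem_toFinset]
    exact ⟨hP, hs, hs0⟩)))
  change (v : K) = 0 ∨ P.ord s + 1 ≤ P.ord v
  right
  omega

end generic

section one

variable {k₀ k K : Type*} [Field k₀] [Infinite k₀] [Field k] [CharZero k] [Field K] [Algebra k₀ k]
  [Algebra k₀ K] [Algebra k K] [IsScalarTower k₀ k K] [IsFF k K]

/-- **The degree of a quotient of functions with bounded poles.** -/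
theorem one_var {S : Set K} (hS : S.Finite) (h1 : (1 : K) ∈ S) {B : ℕ} {f₀ f₁ : K} (hf₀ : f₀ ≠ 0)
    (hf₁ : f₁ ≠ 0) (hb₀ : Bnd k S B f₀) (hb₁ : Bnd k S B f₁) (htr : Transcendental k (f₁ / f₀)) :
    ∃ v ∈ Submodule.span k₀ S, Transcendental k v ∧
      finrank k⟮f₁ / f₀⟯ K ≤ B * finrank k⟮v⟯ K := by
  obtain ⟨v, hvS, hv0, hv⟩ := exists_generic (k₀ := k₀) hS
    (⋃ s ∈ S, {P : Place k K | P.ord s ≠ 0}) (hS.biUnion fun s _ => finite_support s)
    ⟨1, h1, one_ne_zero⟩
  -- the poles of the elements of `S` are among the poles of `v`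
  have hpol : ∀ (P : Place k K), ∀ s ∈ S, s ≠ 0 → -(polar (k := k) v P) ≤ P.ord s := by
    intro P s hs hs0
    by_cases h2 : P.ord s = 0
    · rw [h2]
      have := polar_nonneg (k := k) v P
      simp only [Finsupp.coe_zero, Pi.zero_apply] at this
      omega
    · have h3 := hv P (Set.mem_iUnion₂.2 ⟨s, hs, h2⟩) s hs hs0
      rw [polar_apply]
      have := le_max_left (-P.ord v) 0
      omega
  have hb : ∀ f, Bnd k S B f → ∀ P : Place k K, -((B : ℤ) * polar (k := k) v P) ≤ P.ord f := by
    intro f hf P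
    obtain ⟨s, hs, hs0, h2⟩ := hf P
    have h3 := hpol P s hs hs0
    have h4 : (B : ℤ) * (-(polar (k := k) v P)) ≤ B * P.ord s :=
      mul_le_mul_of_nonneg_left h3 (Int.natCast_nonneg _)
    linarith
  have hle : polar (k := k) (f₁ / f₀) ≤ divisor k f₀ + B • polar (k := k) v := by
    intro P
    rw [polar_apply, Finsupp.add_apply, Finsupp.smul_apply, divisor_apply, nsmul_eq_mul,
      P.ord_div hf₁ hf₀]
    have h2 := hb f₀ hb₀ P
    have h3 := hb f₁ hb₁ P
    refine max_le ?_ ?_ <;> linarith
  have h2 := ddeg_mono hle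
  rw [ddeg_polar htr, ddeg_add, ddeg_divisor, ddeg_nsmul, zero_add] at h2
  have h3 : (0 : ℤ) < finrank k⟮f₁ / f₀⟯ K := by
    have := IsFF.finite htr
    exact_mod_cast finrank_pos
  have hvt : Transcendental k v := by
    intro halg
    have h4 : polar (k := k) v = 0 := by
      ext P
      rw [polar_apply, P.ord_eq_zero_of_isAlgebraic hv0 halg]
      simp
    rw [h4, ddeg_zero, mul_zero] at h2
    omega
  refine ⟨v, hvS, hvt, ?_⟩
  rw [ddeg_polar hvt] at h2
  exact_mod_cast h2

end one

end Pool.Agent.R887
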