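import Pool.Agent.Y191.UGrow
import Pool.Agent.R887.One

/-!
Functions which are regular over an affine space have, after multiplication by a fixed polynomial,
poles which are bounded by a multiple of the poles of the coordinates, at all places.
-/

set_option autoImplicit false
set_option linter.overlappingInstances false
set_option linter.unusedSectionVars false

open FF MvPolynomial Pool.Agent.W603.LV Pool.Agent.W619.PQ Pool.Agent.Y191

namespace Pool.Agent.R887

section min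

variable {k K : Type} [Field k] [Field K] [Algebra k K]

/-- `μ P` is the smallest order at `P` of a function in `S` -/
structure IsMin (S : Set K) (μ : Place k K → ℤ) : Prop where
  att : ∀ P, ∃ s ∈ S, s ≠ 0 ∧ P.ord s = μ P
  le : ∀ P, ∀ s ∈ S, s ≠ 0 → μ P ≤ P.ord s

theorem exists_isMin {S : Set K} (hS : S.Finite) (h0 : ∃ s ∈ S, s ≠ 0) :
    ∃ μ : Place k K → ℤ, IsMin S μ := by
  classical
  have h : ∀ P : Place k K, ∃ m : ℤ, (∃ s ∈ S, s ≠ 0 ∧ P.ord s = m) ∧
      ∀ s ∈ S, s ≠ 0 → m ≤ P.ord s := by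
    intro P
    obtain ⟨s0, hs0, hs00⟩ := h0
    obtain ⟨s, hs, hmin⟩ := Finset.exists_min_image (hS.toFinset.filter fun s => s ≠ 0)
      (fun s => P.ord s) ⟨s0, by simpa using ⟨hs0, hs00⟩⟩
    rw [Finset.mem_filter, Set.Finite.mem_toFinset] at hs
    exact ⟨P.ord s, ⟨s, hs.1, hs.2, rfl⟩, fun t ht ht0 => hmin t (by simpa using ⟨ht, ht0⟩)⟩
  choose μ h1 h2 using h
  exact ⟨μ, h1, h2⟩

theorem IsMin.nonpos {S : Set K} {μ : Place k K → ℤ} (h : IsMin S μ) (h1 : (1 : K) ∈ S)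
    (P : Place k K) : μ P ≤ 0 := by
  have := h.le P 1 h1 one_ne_zero
  rwa [P.ord_one] at this

theorem IsMin.bnd {S : Set K} {μ : Place k K → ℤ} (h : IsMin S μ) {B : ℕ} {f : K} (hf : f ≠ 0)
    (hb : ∀ P : Place k K, Ge P (B * μ P) f) : Bnd k S B f := by
  intro P
  obtain ⟨s, hs, hs0, h1⟩ := h.att P
  exact ⟨s, hs, hs0, by rw [h1]; exact (hb P).resolve_left hf⟩

theorem IsMin.ge {S : Set K} {μ : Place k K → ℤ} (h : IsMin S μ) {B : ℕ} {f : K}
    (hb : Bnd k S B f) (P : Place k K) : Ge P (B * μ P) f := by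
  obtain ⟨s, hs, hs0, h1⟩ := hb P
  exact Or.inr ((mul_le_mul_of_nonneg_left (h.le P s hs hs0) (Int.natCast_nonneg _)).trans h1)

end min

section

variable {k K : Type} [Field k] [CharZero k] [Field K] [Algebra k K] {σ : Type} [Fintype σ]
  [DecidableEq σ]

/-- polynomials -/
theorem ge_poly {U : σ → K} {μ : Place k K → ℤ}
    (hμ : IsMin (insert 1 (Set.range U)) μ) {D : ℕ} {Q : MvPolynomial σ k}
    (hQ : ∀ m ∈ Q.support, ∑ i, m i ≤ D) (P : Place k K) : Ge P (D * μ P) (aeval U Q) := by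
  have h0 := hμ.nonpos (Set.mem_insert _ _) P
  rw [aeval_def, eval₂_eq']
  refine Ge.sum _ _ fun m hm => ?_
  have h1 : Ge P (∑ i, (m i : ℤ) * μ P) (∏ i, U i ^ m i) := by
    refine Ge.prod _ _ _ fun i _ => ?_
    refine Ge.pow (N := μ P) ?_ (m i)
    by_cases hi : U i = 0
    · exact Or.inl hi
    · exact Or.inr (hμ.le P _ (Set.mem_insert_of_mem _ ⟨i, rfl⟩) hi)
  have h2 := (Ge.const (P := P) (coeff m Q)).mul h1
  refine h2.mono ?_
  rw [zero_add, ← Finset.sum_mul]
  have h3 := hQ m hm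
  have h4 : ((∑ i, m i : ℕ) : ℤ) ≤ D := by exact_mod_cast h3
  push_cast at h4
  nlinarith

theorem ge_poly' {U : σ → K} {μ : Place k K → ℤ}
    (hμ : IsMin (insert 1 (Set.range U)) μ) (Q : MvPolynomial σ k) :
    ∃ D : ℕ, ∀ P : Place k K, Ge P (D * μ P) (aeval U Q) := by
  refine ⟨∑ m ∈ Q.support, ∑ i, m i, fun P => ge_poly hμ (fun m hm => ?_) P⟩
  exact Finset.single_le_sum (f := fun m : σ →₀ ℕ => ∑ i, m i) (fun _ _ => Nat.zero_le _) hm

/-- integral elements -/
theorem ge_int {U : σ → K} {μ : Place k K → ℤ}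
    (hμ : IsMin (insert 1 (Set.range U)) μ) {z : K}
    (hz : IsIntegral (Algebra.adjoin k (Set.range U)) z) :
    ∃ D : ℕ, ∀ P : Place k K, Ge P (D * μ P) z := by
  obtain ⟨p, hp, hpz⟩ := hz
  have h1 : ∀ a : Algebra.adjoin k (Set.range U), ∃ D : ℕ, ∀ P : Place k K,
      Ge P (D * μ P) (a : K) := by
    intro a
    have ha : (a : K) ∈ (aeval U : MvPolynomial σ k →ₐ[k] K).range := by
      rw [← Algebra.adjoin_range_eq_range_aeval]
      exact a.2
    obtain ⟨Q, hQ⟩ := ha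
    obtain ⟨D, hD⟩ := ge_poly' hμ Q
    exact ⟨D, fun P => by rw [← hQ]; exact hD P⟩
  choose c hc using h1
  obtain ⟨D, hD⟩ : ∃ D : ℕ, D = ∑ i ∈ Finset.range p.natDegree, c (p.coeff i) := ⟨_, rfl⟩
  have hcD : ∀ i ∈ Finset.range p.natDegree, c (p.coeff i) ≤ D := by
    intro i hi
    rw [hD]
    exact Finset.single_le_sum (f := fun i => c (p.coeff i)) (fun _ _ => Nat.zero_le _) hi
  refine ⟨D, fun P => ?_⟩
  have h0 := hμ.nonpos (Set.mem_insert _ _) P
  by_contra hcon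
  unfold Ge at hcon
  push Not at hcon
  obtain ⟨hz0, hlt⟩ := hcon
  have hDμ : (D : ℤ) * μ P ≤ 0 := mul_nonpos_of_nonneg_of_nonpos (Int.natCast_nonneg _) h0
  have hneg : P.ord z < 0 := lt_of_lt_of_le hlt hDμ
  have h2 : z ^ p.natDegree = -∑ i ∈ Finset.range p.natDegree, (p.coeff i : K) * z ^ i := by
    have h3 := hpz
    rw [Polynomial.eval₂_eq_sum_range, Finset.sum_range_succ, hp.coeff_natDegree, map_one,
      one_mul] at h3
    rw [eq_neg_iff_add_eq_zero, add_comm]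
    exact h3
  have h3 : Ge P ((p.natDegree : ℤ) * P.ord z + 1) (z ^ p.natDegree) := by
    rw [h2]
    refine Ge.neg (Ge.sum _ _ fun i hi => ?_)
    have h4 := (hc (p.coeff i) P).mul (Ge.pow (P := P) (N := P.ord z) (f := z) (Or.inr le_rfl) i)
    refine h4.mono ?_
    have h5 : (i : ℤ) + 1 ≤ p.natDegree := by
      have := Finset.mem_range.1 hi
      exact_mod_cast this
    have h6 : (c (p.coeff i) : ℤ) ≤ D := by exact_mod_cast hcD i hi
    have h7 : (D : ℤ) * μ P ≤ (c (p.coeff i) : ℤ) * μ P := by nlinarith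
    have h8 : (p.natDegree : ℤ) * P.ord z ≤ ((i : ℤ) + 1) * P.ord z := by nlinarith
    linarith
  rcases h3 with h3 | h3
  · exact pow_ne_zero _ hz0 h3
  · rw [P.ord_pow] at h3
    omega

/-- **Universal linear bounds.** -/
theorem lin_bound [Nonempty σ] {U : σ → K} (hU : IsTranscendenceBasis k U)
    [FiniteDimensional (IntermediateField.adjoin k (Set.range U)) K] :
    ∃ g : MvPolynomial σ k, g ≠ 0 ∧ ∃ C : ℕ, ∀ (D : ℕ) (f : K), f ≠ 0 →
      (∀ (P : Place k K) (q : MvPolynomial σ k), Irreducible q → AdicS P U q → P.Reg f) →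
      (∀ (P : Place k K) (ρ : ℕ), 1 ≤ ρ →
        (∀ Q : MvPolynomial σ k, Q ≠ 0 →
          P.ord (aeval U Q) = -((ρ : ℤ) * bd (k := k) Finset.univ Q)) →
        Ge P (-(D * ρ : ℤ)) f) →
      Bnd k (insert 1 (Set.range U)) (D + C) (f * aeval U g) := by
  classical
  obtain ⟨μ, hμ⟩ := exists_isMin (k := k) (S := insert (1 : K) (Set.range U))
    ((Set.finite_range U).insert 1) ⟨1, Set.mem_insert _ _, one_ne_zero⟩
  have hU0 : ∀ Q : MvPolynomial σ k, Q ≠ 0 → aeval U Q ≠ 0 := fun Q hQ h0 =>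
    hQ ((injective_iff_map_eq_zero _).1 hU.1 Q h0)
  obtain ⟨δ, e, β, -, hβ⟩ := exists_dualT
    (E := IntermediateField.adjoin k (Set.range U)) (K := K)
  obtain ⟨p, hp0, hp⟩ := exists_clear hU β (fun _ => 0) (by simp)
  obtain ⟨C1, hC1⟩ := exists_degb hU β Finset.univ Finset.univ_nonempty (fun _ => 0)
  choose q hq0 hq using fun i => exists_multS hU (e i)
  choose c hc using fun i => ge_int hμ (hq i)
  obtain ⟨C2, hC2⟩ : ∃ C2 : ℕ, C2 = ∑ i, c i := ⟨_, rfl⟩
  obtain ⟨C3, hC3⟩ : ∃ C3 : ℕ, ∀ i, ∀ P : Place k K,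
      Ge P (C3 * μ P) (aeval U (∏ j ∈ Finset.univ.erase i, q j)) := by
    choose D hD using fun i => ge_poly' hμ (∏ j ∈ Finset.univ.erase i, q j)
    refine ⟨∑ i, D i, fun i P => (hD i P).mono ?_⟩
    have h1 := hμ.nonpos (Set.mem_insert _ _) P
    have h2 : D i ≤ ∑ i, D i := Finset.single_le_sum (fun _ _ => Nat.zero_le _) (Finset.mem_univ i)
    have h3 : (D i : ℤ) ≤ ((∑ i, D i : ℕ) : ℤ) := by exact_mod_cast h2
    nlinarith
  refine ⟨p * ∏ i, q i, mul_ne_zero hp0 (Finset.prod_ne_zero_iff.2 fun i _ => hq0 i),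
    C1 + bd Finset.univ p + C2 + C3, fun D f hf hreg hinf => ?_⟩
  refine hμ.bnd (mul_ne_zero hf (hU0 _ (mul_ne_zero hp0
    (Finset.prod_ne_zero_iff.2 fun i _ => hq0 i)))) fun P => ?_
  have hμP := hμ.nonpos (Set.mem_insert _ _) P
  choose Q hQ using hp f (fun P g hg h => by
    have h1 : Ge P 0 f := hreg P g hg h
    exact h1.mono (by simp))
  have hdeg : ∀ i, Q i = 0 ∨ bd Finset.univ (Q i) ≤ D + C1 + bd Finset.univ p := by
    intro i
    refine (hC1 (-(D : ℤ)) f (fun P ρ hρ h => (hinf P ρ hρ h).mono (le_of_eq ?_)) i p (Q i) hp0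
      (hQ i)).imp_right fun h => ?_
    · push_cast
      ring
    · omega
  have h1 : f * aeval U (p * ∏ i, q i) = ∑ i, aeval U (Q i) * (aeval U (q i) * e i *
      aeval U (∏ j ∈ Finset.univ.erase i, q j)) := by
    conv_lhs => rw [hβ f, Finset.sum_mul]
    refine Finset.sum_congr rfl fun i _ => ?_
    rw [← hQ i, ← Finset.mul_prod_erase Finset.univ q (Finset.mem_univ i),
      map_mul (aeval U) p, map_mul (aeval U) (q i)]
    change ((Algebra.trace (IntermediateField.adjoin k (Set.range U)) K (f * β i) :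
      IntermediateField.adjoin k (Set.range U)) : K) * e i * _ = _
    ring
  rw [h1]
  refine Ge.sum _ _ fun i _ => ?_
  have h2 : Ge P (((D + C1 + bd Finset.univ p : ℕ) : ℤ) * μ P) (aeval U (Q i)) := by
    rcases hdeg i with h | h
    · left
      rw [h, map_zero]
    · exact ge_poly hμ (fun m hm => (le_bd Finset.univ hm).trans h) P
  have h3 := (h2.mul ((hc i P).mul (hC3 i P)))
  refine h3.mono ?_
  have h4 : c i ≤ C2 := by
    rw [hC2]
    exact Finset.single_le_sum (fun _ _ => Nat.zero_le _) (Finset.mem_univ i)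
  have h5 : (c i : ℤ) ≤ C2 := by exact_mod_cast h4
  push_cast
  nlinarith

end

end Pool.Agent.R887
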