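import Pool.Agent.R887.Several
import Pool.Agent.R887.Gen

/-!
A lower bound for the degree: the order of a pole.
-/

set_option autoImplicit false
set_option linter.overlappingInstances false
set_option linter.unusedSectionVars false

open FF Module MvPolynomial Pool.Agent.W602.GT
open Pool.Agent.Y172

namespace Pool.Agent.R887

section

variable {K : Type} [Field K] [Algebra ℂ K] {n : ℕ}

/-- the place is trivial on the field generated by independent functions -/
theorem Indep.triv {P : Place ℂ K} {l : ℕ} {u : Fin l → K} (h : Indep P u) :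
    ∀ m ∈ IntermediateField.adjoin ℂ (Set.range u), m ≠ 0 → P.ord m = 0 := by
  intro m hm hm0
  rw [IntermediateField.mem_adjoin_range_iff] at hm
  obtain ⟨A, B, rfl⟩ := hm
  have hA : A ≠ 0 := by
    rintro rfl
    apply hm0
    rw [map_zero, zero_div]
  have hB : B ≠ 0 := by
    rintro rfl
    apply hm0
    rw [map_zero, div_zero]
  rw [P.ord_div (h A hA).1 (h B hB).1, (h A hA).2, (h B hB).2, sub_zero]

theorem Indep.algInd {P : Place ℂ K} {l : ℕ} {u : Fin l → K} (h : Indep P u) :
    AlgebraicIndependent ℂ u :=
  (injective_iff_map_eq_zero _).2 fun F hF => by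
    by_contra hF0
    exact (h F hF0).1 hF

/-- a place as a place over a subfield on which it is trivial -/
def up (P : Place ℂ K) (M : IntermediateField ℂ K) (h : ∀ m ∈ M, m ≠ 0 → P.ord m = 0) :
    Place M K where
  ord := P.ord
  ord_zero := P.ord_zero
  ord_mul := P.ord_mul
  ord_add := P.ord_add
  ord_const := fun {c} hc => h c c.2 fun h0 => hc (Subtype.ext h0)
  surj := P.surj

/-- **A lower bound for the degree.** -/
theorem deg_ge [Algebra.EssFiniteType ℂ K] (hn : Algebra.trdeg ℂ K = n) (hn0 : 0 < n)
    {P : Place ℂ K} {u : Fin (n - 1) → K} (hu : Indep P u) {g : K} (hg : P.ord g < 0) :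
    -P.ord g ≤ degreeOver u (fun _ : Fin 1 => g) := by
  classical
  obtain ⟨F, hF⟩ : ∃ F, F = IntermediateField.adjoin ℂ (Set.range u) := ⟨_, rfl⟩
  have htriv : ∀ m ∈ F, m ≠ 0 → P.ord m = 0 := by
    rw [hF]
    exact hu.triv
  have htr : Transcendental F g := (up P F htriv).transcendental_of_ord_ne (f := g) (by
    change P.ord g ≠ 0
    omega)
  have htr' : Transcendental (Algebra.adjoin ℂ (Set.range u)) g := by
    intro h5
    apply htr
    rw [hF]
    open scoped IntermediateField.algebraAdjoinAdjoin in
    exact h5.extendScalars (S := IntermediateField.adjoin ℂ (Set.range u))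
      (FaithfulSMul.algebraMap_injective _ _)
  obtain ⟨w, hw⟩ : ∃ w : Option (Fin (n - 1)) → K, w = fun o => o.elim g u := ⟨_, rfl⟩
  have hwi : AlgebraicIndependent ℂ w := by
    rw [hw]
    exact (hu.algInd.option_iff_transcendental g).2 htr'
  have hcard : (Cardinal.mk (Option (Fin (n - 1)))) = n := by
    rw [Cardinal.mk_fintype, Fintype.card_option, Fintype.card_fin]
    congr 1
    omega
  have hbas : IsTranscendenceBasis ℂ w :=
    hwi.isTranscendenceBasis_of_trdeg_le_of_finite (by rw [hn, hcard])
  have hr : Set.range w = Set.range u ∪ {g} := by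
    rw [hw]
    ext x
    simp only [Set.mem_range, Set.mem_union, Set.mem_singleton_iff]
    constructor
    · rintro ⟨o, rfl⟩
      rcases o with _ | i
      · exact Or.inr rfl
      · exact Or.inl ⟨i, rfl⟩
    · rintro (⟨i, rfl⟩ | rfl)
      · exact ⟨some i, rfl⟩
      · exact ⟨none, rfl⟩
  have hfin : FiniteDimensional (IntermediateField.adjoin ℂ (Set.range w)) K := by
    have h1 : Algebra.IsAlgebraic (IntermediateField.adjoin ℂ (Set.range w)) K :=
      hbas.isAlgebraic_field
    have h4 : Algebra.EssFiniteType (IntermediateField.adjoin ℂ (Set.range w)) K :=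
      Algebra.EssFiniteType.of_comp ℂ _ K
    obtain ⟨s, hs⟩ := IntermediateField.fg_top (IntermediateField.adjoin ℂ (Set.range w)) K
    have h5 : FiniteDimensional (IntermediateField.adjoin ℂ (Set.range w))
        (IntermediateField.adjoin (IntermediateField.adjoin ℂ (Set.range w)) (s : Set K)) :=
      IntermediateField.finiteDimensional_adjoin (fun x _ => (h1.isAlgebraic x).isIntegral)
    rw [hs] at h5
    exact IntermediateField.topEquiv.toLinearEquiv.finiteDimensional
  have hd : dg ℂ w = finrank (IntermediateField.adjoin F {g}) K := by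
    rw [hF]
    exact dg_simple hr
  have hd' : degreeOver u (fun _ : Fin 1 => g) = dg ℂ w := by
    unfold degreeOver dg
    rw [hr, Set.range_const]
  have hpos : 0 < dg ℂ w := Module.finrank_pos
  have hfin' : FiniteDimensional (IntermediateField.adjoin F {g}) K :=
    FiniteDimensional.of_finrank_pos (by rw [← hd]; exact hpos)
  have : IsFF F K := IsFF.of_finite htr hfin'
  have h1 := ddeg_polar (k := F) htr
  rw [hd', hd, ← h1]
  have h2 : Finsupp.single (up P F htriv) (-P.ord g) ≤ polar (k := F) g := by
    intro Q
    rw [polar_apply]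
    by_cases hQ : up P F htriv = Q
    · rw [← hQ, Finsupp.single_eq_same]
      exact le_max_left _ _
    · rw [Finsupp.single_eq_of_ne' hQ]
      exact le_max_right _ _
  have h3 := ddeg_mono h2
  rw [ddeg_single] at h3
  have h4 := (up P F htriv).deg_pos
  have h5 : (1 : ℤ) ≤ (up P F htriv).deg := by exact_mod_cast h4
  have h6 : (-P.ord g) * 1 ≤ (-P.ord g) * (up P F htriv).deg :=
    mul_le_mul_of_nonneg_left h5 (by omega)
  linarith

end

end Pool.Agent.R887
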