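import Pool.Agent.R887.One

/-!
The degree of a field over the field generated by quotients of functions with bounded poles.
-/

set_option autoImplicit false
set_option linter.overlappingInstances false
set_option linter.unusedSectionVars false

open FF Module IntermediateField

namespace Pool.Agent.R887

section

variable {k K : Type} [Field k] [Field K] [Algebra k K]

/-- the degree of `K` over the field generated by the functions `w i` (zero if it is infinite) -/
noncomputable def dg (k : Type) {K : Type} [Field k] [Field K] [Algebra k K] {ι : Type}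
    (w : ι → K) : ℕ :=
  finrank (IntermediateField.adjoin k (Set.range w)) K

/-- a place over an intermediate field as a place over `k` -/
def down (M : IntermediateField k K) (P : Place M K) : Place k K where
  ord := P.ord
  ord_zero := P.ord_zero
  ord_mul := P.ord_mul
  ord_add := P.ord_add
  ord_const := fun {c} hc => P.ord_const (c := algebraMap k M c) (by
    rwa [Ne, map_eq_zero])
  surj := P.surj

theorem Bnd.up {M : IntermediateField k K} {S : Set K} {B : ℕ} {f : K} (h : Bnd k S B f) :
    Bnd M S B f := fun P => h (down M P)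

theorem dg_congr {ι ι' : Type} {w : ι → K} {w' : ι' → K} (h : Set.range w = Set.range w') :
    dg k w = dg k w' := by
  unfold dg
  rw [h]

/-- the degree as a degree over a simple extension -/
theorem dg_simple {ι : Type} {w : ι → K} {T : Set K} {z : K} (h : Set.range w = T ∪ {z}) :
    dg k w = finrank (IntermediateField.adjoin k T)⟮z⟯ K := by
  unfold dg
  rw [h, ← IntermediateField.adjoin_adjoin_left]
  rfl

theorem finite_of_dg {ι : Type} {w : ι → K} (h : dg k w ≠ 0) :
    FiniteDimensional (IntermediateField.adjoin k (Set.range w)) K :=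
  FiniteDimensional.of_finrank_pos (Nat.pos_of_ne_zero h)

theorem basis_of_dg {ι : Type} [Finite ι] (hn : Algebra.trdeg k K = Nat.card ι) {w : ι → K}
    (h : dg k w ≠ 0) : IsTranscendenceBasis k w := by
  have h1 := finite_of_dg h
  open scoped algebraAdjoinAdjoin in
  have h2 : Algebra.IsAlgebraic (Algebra.adjoin k (Set.range w)) K :=
    Algebra.IsAlgebraic.trans _ (IntermediateField.adjoin k (Set.range w)) K
  refine Algebra.IsAlgebraic.isTranscendenceBasis_of_le_trdeg_of_finite k w ?_
  rw [hn, Nat.cast_card]

theorem transc_of_basis {ι : Type} {w : ι → K} (h : AlgebraicIndependent k w) {s : Set ι} {i : ι}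
    (hi : i ∉ s) : Transcendental (IntermediateField.adjoin k (w '' s)) (w i) := by
  open scoped algebraAdjoinAdjoin in
  exact (h.transcendental_adjoin hi).extendScalars _

variable [Infinite k] [CharZero k]

/-- one of the functions is replaced -/
theorem replace_one {ι : Type} [Finite ι] [DecidableEq ι] (hn : Algebra.trdeg k K = Nat.card ι)
    {S : Set K} (hS : S.Finite) (h1 : (1 : K) ∈ S) {B : ℕ} {f₀ f₁ : K} (hf₀ : f₀ ≠ 0)
    (hf₁ : f₁ ≠ 0) (hb₀ : Bnd k S B f₀) (hb₁ : Bnd k S B f₁) (w : ι → K) (i : ι)
    (hi : w i = f₁ / f₀) :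
    ∃ v ∈ Submodule.span k S, dg k w ≤ B * dg k (Function.update w i v) := by
  by_cases h0 : dg k w = 0
  · exact ⟨1, Submodule.subset_span h1, by rw [h0]; exact Nat.zero_le _⟩
  have hbas := basis_of_dg hn h0
  obtain ⟨F, hF⟩ : ∃ F, F = IntermediateField.adjoin k (w '' {i}ᶜ) := ⟨_, rfl⟩
  have htr : Transcendental F (w i) := by
    rw [hF]
    exact transc_of_basis hbas.1 (by simp)
  have hr : Set.range w = w '' {i}ᶜ ∪ {w i} := by
    ext x
    simp only [Set.mem_range, Set.mem_union, Set.mem_image, Set.mem_compl_iff,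
      Set.mem_singleton_iff]
    constructor
    · rintro ⟨j, rfl⟩
      by_cases hj : j = i
      · exact Or.inr (by rw [hj])
      · exact Or.inl ⟨j, hj, rfl⟩
    · rintro (⟨j, -, rfl⟩ | rfl)
      · exact ⟨j, rfl⟩
      · exact ⟨i, rfl⟩
  have hr' : ∀ v, Set.range (Function.update w i v) = w '' {i}ᶜ ∪ {v} := by
    intro v
    ext x
    simp only [Set.mem_range, Set.mem_union, Set.mem_image, Set.mem_compl_iff,
      Set.mem_singleton_iff]
    constructor
    · rintro ⟨j, rfl⟩
      by_cases hj : j = i
      · right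
        rw [hj, Function.update_self]
      · left
        exact ⟨j, hj, by rw [Function.update_of_ne hj]⟩
    · rintro (⟨j, hj, rfl⟩ | rfl)
      · exact ⟨j, by rw [Function.update_of_ne hj]⟩
      · exact ⟨i, by rw [Function.update_self]⟩
  have h2 : dg k w = finrank F⟮w i⟯ K := by rw [hF]; exact dg_simple hr
  have h3 : FiniteDimensional F⟮w i⟯ K := FiniteDimensional.of_finrank_pos (by
    rw [← h2]
    exact Nat.pos_of_ne_zero h0)
  have : IsFF F K := IsFF.of_finite htr h3
  rw [hi] at htr
  obtain ⟨v, hv, -, hle⟩ := one_var (k₀ := k) (k := F) hS h1 hf₀ hf₁ hb₀.up hb₁.up htr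
  refine ⟨v, hv, ?_⟩
  have h4 : dg k (Function.update w i v) = finrank F⟮v⟯ K := by rw [hF]; exact dg_simple (hr' v)
  rw [h2, h4, hi]
  exact hle

/-- **Several functions are replaced.** -/
theorem replace_all {ι : Type} [Finite ι] [DecidableEq ι] (hn : Algebra.trdeg k K = Nat.card ι)
    {S : Set K} (hS : S.Finite) (h1 : (1 : K) ∈ S) {B : ℕ} {f₀ : K} (hf₀ : f₀ ≠ 0)
    (hb₀ : Bnd k S B f₀) (J : Finset ι) (w : ι → K) (f : ι → K) (hf : ∀ i ∈ J, f i ≠ 0)
    (hb : ∀ i ∈ J, Bnd k S B (f i)) (hw : ∀ i ∈ J, w i = f i / f₀) :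
    ∃ v : ι → K, (∀ i ∈ J, v i ∈ Submodule.span k S) ∧ (∀ i ∉ J, v i = w i) ∧
      dg k w ≤ B ^ J.card * dg k v := by
  classical
  induction J using Finset.induction_on generalizing w with
  | empty => exact ⟨w, fun i hi => absurd hi (Finset.notMem_empty i), fun i _ => rfl, by simp⟩
  | insert a J ha ih =>
    obtain ⟨z, hz, hle⟩ := replace_one hn hS h1 hf₀ (hf a (Finset.mem_insert_self _ _)) hb₀
      (hb a (Finset.mem_insert_self _ _)) w a (hw a (Finset.mem_insert_self _ _))
    have hne : ∀ i ∈ J, i ≠ a := by
      rintro i hi rfl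
      exact ha hi
    obtain ⟨v, hv1, hv2, hv3⟩ := ih (Function.update w a z)
      (fun i hi => hf i (Finset.mem_insert_of_mem hi))
      (fun i hi => hb i (Finset.mem_insert_of_mem hi)) fun i hi => by
        rw [Function.update_of_ne (hne i hi)]
        exact hw i (Finset.mem_insert_of_mem hi)
    refine ⟨v, fun i hi => ?_, fun i hi => ?_, ?_⟩
    · rcases Finset.mem_insert.1 hi with rfl | hi
      · rw [hv2 i ha, Function.update_self]
        exact hz
      · exact hv1 i hi
    · have h2 : i ≠ a := by
        rintro rfl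
        exact hi (Finset.mem_insert_self _ _)
      rw [hv2 i fun h => hi (Finset.mem_insert_of_mem h), Function.update_of_ne h2]
    · rw [Finset.card_insert_of_notMem ha, pow_succ, mul_comm (B ^ _) B, mul_assoc]
      exact hle.trans (Nat.mul_le_mul_left _ hv3)

end

section tower

variable {k K K' : Type} [Field k] [Field K] [Field K'] [Algebra k K] [Algebra k K']
  [Algebra K K'] [IsScalarTower k K K']

/-- **The tower law.** -/
theorem dg_tower {ι : Type} (w : ι → K) :
    dg k (fun i => algebraMap K K' (w i)) = dg k w * finrank K K' := by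
  obtain ⟨E, hE⟩ : ∃ E, E = IntermediateField.adjoin k (Set.range w) := ⟨_, rfl⟩
  obtain ⟨φ, hφ⟩ : ∃ φ : K →ₐ[k] K', φ = IsScalarTower.toAlgHom k K K' := ⟨_, rfl⟩
  have h1 : IntermediateField.adjoin k (Set.range fun i => algebraMap K K' (w i)) = E.map φ := by
    rw [hE, IntermediateField.adjoin_map, ← Set.range_comp, hφ]
    rfl
  unfold dg
  rw [h1, ← hE]
  let e : E ≃ₐ[k] E.map φ := E.equivMap φ
  have h2 : finrank E K' = finrank (E.map φ) K' := by
    refine Algebra.finrank_eq_of_equiv_equiv e.toRingEquiv (RingEquiv.refl K') ?_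
    ext x
    change ((e x : E.map φ) : K') = algebraMap K K' (x : K)
    have : ((e x : E.map φ) : K') = φ x := rfl
    rw [this, hφ]
    rfl
  rw [← h2, Module.finrank_mul_finrank]

end tower

end Pool.Agent.R887
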