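import Pool.Agent.R887.Unif
import Pool.Agent.R887.Lin
import Pool.Agent.R887.Several

/-!
The mixed degrees of the maps given by the sections of `m (K_X + Δ) + b A` are bounded by the mixed
degrees of generically finite rational maps to `X`.
-/

set_option autoImplicit false
set_option linter.overlappingInstances false
set_option linter.unusedSectionVars false

open FF MvPolynomial Pool.Agent.W602.GT Pool.Agent.W603.LV Pool.Agent.W619.PQ
open Pool.Agent.Y172 Pool.Agent.Y191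

namespace Pool.Agent.R887

section chart

variable {K : Type} [Field K] [Algebra ℂ K] {N n : ℕ} {y : Fin (N + 1) → K}

/-- the affine coordinates of a chart -/
def aff (y : Fin (N + 1) → K) (j : Fin (N + 1)) : Set K := Set.range fun i => y i / y j

/-- poles bounded by those of functions on a chart -/
theorem bnd_chart {j : Fin (N + 1)} (hj : y j ≠ 0) {U : Fin n → K} (hU : ∀ i, U i ∈ chart y j) :
    ∃ d : ℕ, ∀ (B : ℕ) (f : K), Bnd ℂ (insert 1 (Set.range U)) B f → Bnd ℂ (aff y j) (B * d) f := by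
  classical
  have h1 : (1 : K) ∈ aff y j := ⟨j, div_self hj⟩
  have h2 : insert (1 : K) (Set.range fun i => y i / y j) = aff y j := Set.insert_eq_of_mem h1
  obtain ⟨μ, hμ⟩ := exists_isMin (k := ℂ) (S := aff y j) (Set.finite_range _) ⟨1, h1, one_ne_zero⟩
  have hμ' : IsMin (insert 1 (Set.range fun i => y i / y j)) μ := by rw [h2]; exact hμ
  have h3 : ∀ i, ∃ D : ℕ, ∀ P : Place ℂ K, Ge P (D * μ P) (U i) := by
    intro i
    have h4 : U i ∈ (aeval (fun i => y i / y j) :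
        MvPolynomial (Fin (N + 1)) ℂ →ₐ[ℂ] K).range := by
      rw [← Algebra.adjoin_range_eq_range_aeval]
      exact hU i
    obtain ⟨Q, hQ⟩ := h4
    obtain ⟨D, hD⟩ := ge_poly' hμ' Q
    exact ⟨D, fun P => by rw [← hQ]; exact hD P⟩
  choose D hD using h3
  refine ⟨∑ i, D i, fun B f hf P => ?_⟩
  obtain ⟨s, hs, hs0, h4⟩ := hf P
  obtain ⟨t, ht, ht0, h5⟩ := hμ.att P
  have hμ0 := hμ.nonpos h1 P
  refine ⟨t, ht, ht0, le_trans ?_ h4⟩
  rw [h5]
  push_cast
  rw [mul_assoc]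
  refine mul_le_mul_of_nonneg_left ?_ (Int.natCast_nonneg _)
  have h6 : (0 : ℤ) ≤ ∑ i, (D i : ℤ) := Finset.sum_nonneg fun _ _ => Int.natCast_nonneg _
  rcases hs with rfl | ⟨i, rfl⟩
  · rw [P.ord_one]
    exact mul_nonpos_of_nonneg_of_nonpos h6 hμ0
  · have h7 := (hD i P).resolve_left hs0
    have h8 : (D i : ℤ) ≤ ∑ i, (D i : ℤ) :=
      Finset.single_le_sum (f := fun i => (D i : ℤ)) (fun _ _ => Int.natCast_nonneg _)
        (Finset.mem_univ i)
    nlinarith

end chart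

section maps

variable {K' : Type} [Field K'] [Algebra ℂ K'] {N' : ℕ} {y' : Fin (N' + 1) → K'} {n : ℕ}

/-- The quotients of the sections, on the source. -/
theorem source_bound (hy' : NormalModel y') (hn' : Algebra.trdeg ℂ K' = n) (hn0 : 0 < n)
    {S : Set (Place ℂ K')} (hS : S.Finite) {j' : Fin (N' + 1)} (hj' : y' j' ≠ 0) :
    ∃ M : ℕ, ∀ {K : Type} [Field K] [Algebra ℂ K] [Algebra K K'] [IsScalarTower ℂ K K']
      [FiniteDimensional K K'] {N : ℕ} {y : Fin (N + 1) → K} {Δ A : Place ℂ K → ℚ}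
      {x : Fin n → K} {E : Fin n → Derivation ℂ K K}, NormalModel y → Algebra.trdeg ℂ K = n →
      Effective y A → LogCanonical y n Δ → MapOut y n Δ y' S → IsTranscendenceBasis ℂ x →
      (∀ i j, E i (x j) = if i = j then 1 else 0) → IsFrame E →
      ∃ (β : ℕ), ∀ m b : ℕ, 1 ≤ m → ∃ F : ((Fin n → Derivation ℂ K K) → K) → K',
        (∀ ω, IsSection y n m (m • Δ + b • A) ω → ω E ≠ 0 → F ω ≠ 0 ∧
          Bnd ℂ (aff y' j') ((m + 1) * M + b * β) (F ω)) ∧
        ∀ ω ω', IsSection y n m (m • Δ + b • A) ω → IsSection y n m (m • Δ + b • A) ω' →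
          ω E ≠ 0 → ω' E ≠ 0 → F ω' / F ω = algebraMap K K' (ω' E / ω E) := by
  classical
  obtain ⟨U, D, G, i0, c, hs⟩ := exists_src hy' hn' hn0 hS hj'
  obtain ⟨d, hd⟩ := bnd_chart hj' hs.mem
  have hess := hy'.ess
  have hfd : FiniteDimensional (IntermediateField.adjoin ℂ (Set.range U)) K' :=
    fd_basis hs.bas
  have : Nonempty (Fin n) := ⟨⟨0, hn0⟩⟩
  obtain ⟨g, hg0, C, hC⟩ := lin_bound (k := ℂ) hs.bas
  have hU0 : ∀ Q : MvPolynomial (Fin n) ℂ, Q ≠ 0 → aeval U Q ≠ 0 := fun Q hQ h0 =>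
    hQ ((injective_iff_map_eq_zero _).1 hs.bas.1 Q h0)
  refine ⟨(1 + c * n + bd (k := ℂ) Finset.univ G + C) * d, ?_⟩
  intro K _ _ _ _ _ N y Δ A x E hy hn hA hLC hmap hx hE hfr
  obtain ⟨H, β, hH0, hβ⟩ := uniform hy hn hn0 hA hLC hs hmap hx hE hfr
  refine ⟨β * d, fun m b hm => ⟨fun ω => pull K' x E m ω D * H ^ b * (aeval U G) ^ m *
    aeval U g, ?_, ?_⟩⟩
  · intro ω hω hωE
    obtain ⟨h1, h2⟩ := hβ m b hm ω hω
    have h3 : pull K' x E m ω D * H ^ b * (aeval U G) ^ m ≠ 0 := by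
      refine mul_ne_zero (mul_ne_zero ?_ (pow_ne_zero _ hH0)) (pow_ne_zero _ (hU0 G hs.Gne))
      refine mul_ne_zero (pow_ne_zero _ (pull_ne hn hE hs.fr)) ?_
      rwa [Ne, map_eq_zero]
    refine ⟨mul_ne_zero h3 (hU0 g hg0), ?_⟩
    have h4 := hC _ _ h3 h1 fun P ρ hρ hP => h2 P ρ ⟨hρ, hP⟩
    have h5 := hd _ _ h4
    -- enlarge the bound
    intro P
    obtain ⟨μ, hμ⟩ := exists_isMin (k := ℂ) (S := aff y' j') (Set.finite_range _)
      ⟨1, ⟨j', div_self hj'⟩, one_ne_zero⟩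
    have h6 := hμ.ge h5
    refine hμ.bnd (mul_ne_zero h3 (hU0 g hg0)) (fun P => (h6 P).mono ?_) P
    have h7 := hμ.nonpos ⟨j', div_self hj'⟩ P
    push_cast
    have h8 : (0 : ℤ) ≤ d := Int.natCast_nonneg _
    have h9 : (0 : ℤ) ≤ m := Int.natCast_nonneg _
    have h10 : (0 : ℤ) ≤ C := Int.natCast_nonneg _
    have h11 : (0 : ℤ) ≤ (c : ℤ) * n + (bd (k := ℂ) Finset.univ G : ℤ) := by positivity
    have h12 : (0 : ℤ) ≤ (m * C + 1 + (c * n + bd (k := ℂ) Finset.univ G)) * d := by positivity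
    have h13 := mul_nonpos_of_nonneg_of_nonpos h12 h7
    nlinarith
  · intro ω ω' hω hω' h1 h2
    have h3 : H ^ b ≠ 0 := pow_ne_zero _ hH0
    have h4 : (aeval U G) ^ m ≠ 0 := pow_ne_zero _ (hU0 G hs.Gne)
    have h5 := hU0 g hg0
    have h6 : (Matrix.of fun i j => D i (algebraMap K K' (x j))).det ^ m ≠ 0 :=
      pow_ne_zero _ (pull_ne hn hE hs.fr)
    have h7 : algebraMap K K' (ω E) ≠ 0 := by rwa [Ne, map_eq_zero]
    rw [map_div₀]
    unfold pull
    field_simp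

end maps

end Pool.Agent.R887
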