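import Pool.Agent.Y191.UCore
import Pool.Agent.Y172.Sec
import Pool.Agent.Y172.UpB

/-!
Noether normalisation of a chart of a normal projective variety; the places over the divisors of the
affine space are prime divisors of the variety, the places at infinity are divisorial.
-/

set_option autoImplicit false
set_option linter.overlappingInstances false
set_option linter.unusedSectionVars false

open FF MvPolynomial Pool.Agent.W602.GT Pool.Agent.W603.LV Pool.Agent.W619.PQ
open Pool.Agent.Y172 Pool.Agent.Y191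

namespace Pool.Agent.R887

section

variable {K : Type} [Field K] [Algebra ℂ K] {N : ℕ} {y : Fin (N + 1) → K}

/-- **Noether normalisation.** -/
theorem exists_noether (hy : NormalModel y) {n : ℕ} (hn : Algebra.trdeg ℂ K = n)
    {j : Fin (N + 1)} (hj : y j ≠ 0) :
    ∃ U : Fin n → K, IsTranscendenceBasis ℂ U ∧ (∀ i, U i ∈ chart y j) ∧
      ∀ f ∈ chart y j, IsIntegral (Algebra.adjoin ℂ (Set.range U)) f := by
  have := hy.frac hj
  obtain ⟨R, hR⟩ : ∃ R, R = chart y j := ⟨_, rfl⟩
  have hft : Algebra.FiniteType ℂ R := by rw [hR]; infer_instance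
  have hfr : IsFractionRing R K := by rw [hR]; exact this
  rw [← hR]
  obtain ⟨s, g, hg, hgint⟩ := exists_integral_inj_algHom_of_fg ℂ R
  let _ : Algebra (MvPolynomial (Fin s) ℂ) R := g.toRingHom.toAlgebra
  have : IsScalarTower ℂ (MvPolynomial (Fin s) ℂ) R := IsScalarTower.of_algebraMap_eq fun c =>
    (g.commutes c).symm
  have hint : Algebra.IsIntegral (MvPolynomial (Fin s) ℂ) R := ⟨hgint⟩
  obtain ⟨Z, hZ⟩ : ∃ Z : Fin s → K, ∀ i, Z i = ((g (X i) : R) : K) := ⟨_, fun _ => rfl⟩
  have haev : ∀ F : MvPolynomial (Fin s) ℂ, aeval Z F = ((g F : R) : K) := by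
    intro F
    have h1 : (aeval Z : MvPolynomial (Fin s) ℂ →ₐ[ℂ] K) = R.val.comp g := by
      apply MvPolynomial.algHom_ext
      intro i
      rw [aeval_X, hZ]
      rfl
    rw [h1]
    rfl
  have hind : AlgebraicIndependent ℂ Z := by
    intro F G h
    change aeval Z F = aeval Z G at h
    rw [haev, haev] at h
    exact hg (Subtype.ext h)
  have hZA : ∀ F : MvPolynomial (Fin s) ℂ, aeval Z F ∈ Algebra.adjoin ℂ (Set.range Z) := by
    intro F
    rw [Algebra.adjoin_range_eq_range_aeval]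
    exact ⟨F, rfl⟩
  let f' : MvPolynomial (Fin s) ℂ →+* Algebra.adjoin ℂ (Set.range Z) :=
    ((aeval Z : MvPolynomial (Fin s) ℂ →ₐ[ℂ] K).codRestrict _ hZA).toRingHom
  have hRint : ∀ r : R, IsIntegral (Algebra.adjoin ℂ (Set.range Z)) (r : K) := by
    intro r
    obtain ⟨Q, hQ, hQr⟩ := hint.isIntegral r
    refine ⟨Q.map f', hQ.map f', ?_⟩
    rw [Polynomial.eval₂_map]
    have h1 : (algebraMap (Algebra.adjoin ℂ (Set.range Z)) K).comp f' =
        (algebraMap R K).comp (algebraMap (MvPolynomial (Fin s) ℂ) R) :=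
      RingHom.ext fun F => haev F
    rw [h1]
    have h2 := Polynomial.hom_eval₂ Q (algebraMap (MvPolynomial (Fin s) ℂ) R) (algebraMap R K) r
    change _ = Polynomial.eval₂ _ (algebraMap R K r) Q at h2
    change Polynomial.eval₂ _ (algebraMap R K r) Q = 0
    rw [← h2, hQr, map_zero]
  have hbas : IsTranscendenceBasis ℂ Z := by
    rw [isTranscendenceBasis_iff_algebraicIndependent_isAlgebraic]
    refine ⟨hind, ⟨fun z => ?_⟩⟩
    obtain ⟨c, d, hd, rfl⟩ := IsFractionRing.div_surjective R z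
    rw [div_eq_mul_inv]
    exact (hRint c).isAlgebraic.mul (hRint d).isAlgebraic.inv
  have hsn : s = n := by
    have h1 := hbas.cardinalMk_eq_trdeg
    rw [hn, Cardinal.mk_fin] at h1
    exact_mod_cast h1
  subst hsn
  exact ⟨Z, hbas, fun i => by rw [hZ]; exact (g (X i)).2, fun f hf => hRint ⟨f, hf⟩⟩

variable {n : ℕ} {j : Fin (N + 1)} {U : Fin n → K}

/-- a place which is regular on the coordinates is centred in the chart -/
theorem centred_of_reg (hj : y j ≠ 0)
    (hint : ∀ f ∈ chart y j, IsIntegral (Algebra.adjoin ℂ (Set.range U)) f) {Q : Place ℂ K}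
    (hQ : ∀ P : MvPolynomial (Fin n) ℂ, Q.Reg (aeval U P)) : Centred y j Q :=
  ⟨hj, fun i => reg_of_intS hQ (hint _ (gen_mem y j i))⟩

/-- **The places over the divisors of the affine space are prime divisors.** -/
theorem prime_of_adic (hy : NormalModel y) (hj : y j ≠ 0) (hU : IsTranscendenceBasis ℂ U)
    (hUc : ∀ i, U i ∈ chart y j)
    (hint : ∀ f ∈ chart y j, IsIntegral (Algebra.adjoin ℂ (Set.range U)) f) {Q : Place ℂ K}
    {q : MvPolynomial (Fin n) ℂ} (hq : Irreducible q) (h : AdicS Q U q) :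
    IsPrimeDivisor y Q ∧ Centred y j Q := by
  have hU0 : ∀ P : MvPolynomial (Fin n) ℂ, P ≠ 0 → aeval U P ≠ 0 := fun P hP h0 =>
    hP ((injective_iff_map_eq_zero _).1 hU.1 P h0)
  have hreg : ∀ P : MvPolynomial (Fin n) ℂ, Q.Reg (aeval U P) := by
    intro P
    by_cases hP : P = 0
    · rw [hP, map_zero]
      exact Q.reg_zero
    · exact Or.inr (h P hP).1
  have hc := centred_of_reg hj hint hreg
  refine ⟨?_, hc⟩
  obtain ⟨P, hP, hPQ⟩ := exists_through hy Q
  have hPc := hPQ.centred hc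
  obtain ⟨R, hR⟩ : ∃ R, R = chart y j := ⟨_, rfl⟩
  have hRU : ∀ F : MvPolynomial (Fin n) ℂ, aeval U F ∈ chart y j := by
    intro F
    have h1 : Algebra.adjoin ℂ (Set.range U) ≤ chart y j := by
      apply Algebra.adjoin_le
      rintro _ ⟨i, rfl⟩
      exact hUc i
    apply h1
    rw [Algebra.adjoin_range_eq_range_aeval]
    exact ⟨F, rfl⟩
  -- functions which vanish at `P` vanish at `Q`
  have hle : ∀ a ∈ chart y j, a ≠ 0 → 0 < P.ord a → 0 < Q.ord a := by
    intro a ha ha0 hPa
    have h1 := (Q.reg_iff ha0).1 (hc.reg a ha)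
    rcases lt_or_eq_of_le h1 with h2 | h2
    · exact h2
    exfalso
    have h3 : a⁻¹ ∈ localRing y Q :=
      ⟨j, hc, 1, (chart y j).one_mem, a, ha, ha0, h2.symm, inv_mul_cancel₀ ha0⟩
    have h4 := (P.reg_iff (inv_ne_zero ha0)).1 (hPQ _ h3)
    rw [P.ord_inv] at h4
    omega
  -- there is a polynomial which vanishes at `P`
  obtain ⟨t, ht0, ht⟩ := P.surj
  obtain ⟨a, ha, b, hb, hb0, hbo, hab⟩ := (mem_localRing hPc).1 (hP t (Or.inr (by omega)))
  have ha0 : a ≠ 0 := by
    rw [← hab]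
    exact mul_ne_zero ht0 hb0
  have haP : 0 < P.ord a := by
    rw [← hab, P.ord_mul ht0 hb0]
    omega
  have hadj : Algebra.adjoin ℂ (Set.range U) ≤ chart y j := by
    apply Algebra.adjoin_le
    rintro _ ⟨i, rfl⟩
    exact hUc i
  let _ : Algebra (Algebra.adjoin ℂ (Set.range U)) (chart y j) :=
    (Subalgebra.inclusion hadj).toRingHom.toAlgebra
  have : IsScalarTower (Algebra.adjoin ℂ (Set.range U)) (chart y j) K :=
    IsScalarTower.of_algebraMap_eq fun _ => rfl
  have hint' : ∀ r : chart y j, IsIntegral (Algebra.adjoin ℂ (Set.range U)) r := by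
    intro r
    rw [← isIntegral_algebraMap_iff (B := K) (FaithfulSMul.algebraMap_injective (chart y j) K)]
    exact hint r r.2
  have hsurj : ∀ c : Algebra.adjoin ℂ (Set.range U), ∃ F : MvPolynomial (Fin n) ℂ,
      aeval U F = (c : K) := by
    intro c
    have h2 : (c : K) ∈ (aeval U : MvPolynomial (Fin n) ℂ →ₐ[ℂ] K).range := by
      rw [← Algebra.adjoin_range_eq_range_aeval]
      exact c.2
    exact h2
  obtain ⟨I, hI⟩ : ∃ I, I = centre (chart y j) P hPc.reg := ⟨_, rfl⟩
  obtain ⟨J, hJ⟩ : ∃ J, J = centre (chart y j) Q hc.reg := ⟨_, rfl⟩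
  have hIp : I.IsPrime := by rw [hI]; infer_instance
  have hIJ : I ≤ J := by
    rintro ⟨a, ha⟩ h1
    rw [hI, mem_centre] at h1
    rw [hJ, mem_centre]
    rcases h1 with h1 | h1
    · exact Or.inl h1
    · by_cases ha0 : a = 0
      · exact Or.inl (Subtype.ext ha0)
      · exact Or.inr (hle a ha ha0 h1)
  have haI : (⟨a, ha⟩ : chart y j) ∈ I := by
    rw [hI, mem_centre]
    exact Or.inr haP
  have hcI := Ideal.comap_ne_bot_of_integral_mem (R := Algebra.adjoin ℂ (Set.range U))
    (fun h1 => ha0 (congrArg Subtype.val h1)) haI (hint' _)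
  obtain ⟨c, hcI, hc0⟩ := (Submodule.ne_bot_iff _).1 hcI
  obtain ⟨F, hF⟩ := hsurj c
  have hF0 : F ≠ 0 := by
    rintro rfl
    rw [map_zero] at hF
    exact hc0 (Subtype.ext hF.symm)
  have hFP : 0 < P.ord (aeval U F) := by
    have h1 : algebraMap (Algebra.adjoin ℂ (Set.range U)) (chart y j) c ∈ I := hcI
    rw [hI, mem_centre] at h1
    rcases h1 with h1 | h1
    · exact absurd (by rw [hF]; exact congrArg Subtype.val h1) (hU0 F hF0)
    · rw [hF]
      exact h1
  -- `q` vanishes at `P`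
  have hqP : 0 < P.ord (aeval U q) := by
    obtain ⟨m, F', hF', hFF'⟩ : ∃ (m : ℕ) (F' : MvPolynomial (Fin n) ℂ), ¬ q ∣ F' ∧
        F = q ^ m * F' := by
      have hfin : FiniteMultiplicity q F := FiniteMultiplicity.of_not_isUnit hq.not_isUnit hF0
      obtain ⟨c, hc, hc'⟩ := hfin.exists_eq_pow_mul_and_not_dvd
      exact ⟨_, c, hc', hc⟩
    have hF'0 : F' ≠ 0 := by
      rintro rfl
      exact hF' (dvd_zero _)
    have h1 := ((h F' hF'0).2).2 hF'
    have h2 : ¬ 0 < P.ord (aeval U F') := by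
      intro h3
      have := hle _ (hRU F') (hU0 F' hF'0) h3
      omega
    have h3 := (P.reg_iff (hU0 F' hF'0)).1 (hPc.reg _ (hRU F'))
    have h4 : P.ord (aeval U F') = 0 := by omega
    rw [hFF', map_mul, map_pow, P.ord_mul (pow_ne_zero _ (hU0 q hq.ne_zero)) (hU0 F' hF'0),
      P.ord_pow, h4, add_zero] at hFP
    exact pos_of_mul_pos_right hFP (Int.natCast_nonneg _)
  have hJI : J ≤ I := by
    intro a haJ
    by_contra haI
    have h1 := Ideal.comap_lt_comap_of_integral_mem_sdiff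
      (R := Algebra.adjoin ℂ (Set.range U)) hIJ ⟨haJ, haI⟩ (hint' a)
    obtain ⟨c, hcJ, hcI⟩ := Set.exists_of_ssubset (SetLike.coe_ssubset_coe.2 h1)
    apply hcI
    have hcJ' : algebraMap (Algebra.adjoin ℂ (Set.range U)) (chart y j) c ∈ J := hcJ
    change algebraMap (Algebra.adjoin ℂ (Set.range U)) (chart y j) c ∈ I
    rw [hJ, mem_centre] at hcJ'
    rw [hI, mem_centre]
    rcases hcJ' with h2 | h2
    · exact Or.inl h2
    obtain ⟨G, hG⟩ := hsurj c
    have h3 : 0 < Q.ord (aeval U G) := by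
      rw [hG]
      exact h2
    have hG0 : G ≠ 0 := by
      rintro rfl
      rw [map_zero, Q.ord_zero] at h3
      omega
    have h8 : q ∣ G := by
      by_contra h9
      rw [(h G hG0).2.2 h9] at h3
      omega
    obtain ⟨G', rfl⟩ := h8
    have hG' : G' ≠ 0 := right_ne_zero_of_mul hG0
    right
    change 0 < P.ord (c : K)
    rw [← hG, map_mul, P.ord_mul (hU0 q hq.ne_zero) (hU0 G' hG')]
    have := (P.reg_iff (hU0 G' hG')).1 (hPc.reg _ (hRU G'))
    omega
  have hEq : P = Q := hP.eq_of_centre hPc hc (by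
    rw [← hI, ← hJ]
    exact le_antisymm hIJ hJI)
  rw [← hEq]
  exact hP

end

end Pool.Agent.R887
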