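import Pool.Agent.R887.Several
import Pool.Agent.R887.Kap
import Pool.Agent.Y172.Gauss
import Pool.Agent.Y191.UCore

/-!
The degree of the relation between a function and linear coordinates.
-/

set_option autoImplicit false
set_option linter.overlappingInstances false
set_option linter.unusedSectionVars false

open FF Module MvPolynomial Pool.Agent.W602.GT Pool.Agent.W603.LV
open Pool.Agent.Y172 Pool.Agent.Y191

namespace Pool.Agent.R887

section

variable {K : Type} [Field K] [Algebra ℂ K] {m : ℕ}

/-- the substitution `X_j ↦ X_j + v_j X_0` of the variables `X_j`, `j ≥ 2` -/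
noncomputable def shear (v : Fin m → ℂ) :
    MvPolynomial (Fin (m + 2)) ℂ →ₐ[ℂ] MvPolynomial (Fin (m + 2)) ℂ :=
  aeval (Fin.cons (X 0) (Fin.cons (X 1) fun j : Fin m => X j.succ.succ + C (v j) * X 0) :
    Fin (m + 2) → MvPolynomial (Fin (m + 2)) ℂ)

theorem shear_zero (v : Fin m → ℂ) : shear v (X 0) = X 0 := by
  unfold shear
  rw [aeval_X, Fin.cons_zero]

theorem shear_one (v : Fin m → ℂ) : shear v (X 1) = X 1 := by
  unfold shear
  rw [aeval_X]
  rfl

theorem shear_succ (v : Fin m → ℂ) (j : Fin m) :
    shear v (X j.succ.succ) = X j.succ.succ + C (v j) * X 0 := by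
  unfold shear
  rw [aeval_X, Fin.cons_succ, Fin.cons_succ]

theorem shear_shear (v v' : Fin m → ℂ) (h : ∀ j, v j + v' j = 0) (F : MvPolynomial (Fin (m + 2)) ℂ) :
    shear v (shear v' F) = F := by
  have h1 : (shear v).comp (shear v') = AlgHom.id ℂ _ := by
    apply MvPolynomial.algHom_ext
    intro i
    refine Fin.cases ?_ (fun i => Fin.cases ?_ (fun j => ?_) i) i
    · rw [AlgHom.comp_apply, shear_zero, shear_zero]
      rfl
    · change shear v (shear v' (X 1)) = X 1
      rw [shear_one, shear_one]
    · rw [AlgHom.comp_apply, shear_succ, map_add, map_mul, shear_zero, shear_succ]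
      have h2 : shear v (C (v' j)) = C (v' j) := by
        rw [← algebraMap_eq, AlgHom.commutes]
      rw [h2, add_assoc, ← add_mul, ← C_add, h, C_0, zero_mul, add_zero]
      rfl
  exact DFunLike.congr_fun h1 F

theorem shear_irred {v : Fin m → ℂ} {F : MvPolynomial (Fin (m + 2)) ℂ} (hF : Irreducible F) :
    Irreducible (shear v F) := by
  let e : MvPolynomial (Fin (m + 2)) ℂ ≃* MvPolynomial (Fin (m + 2)) ℂ :=
    { toFun := shear v
      invFun := shear (fun j => -v j)
      left_inv := fun F => shear_shear _ _ (fun j => by ring) F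
      right_inv := fun F => shear_shear _ _ (fun j => by ring) F
      map_mul' := fun a b => map_mul _ a b }
  exact (MulEquiv.irreducible_iff e).2 hF

/-- the polynomial in one variable -/
noncomputable def lin (w : K) (u : Fin m → K) (v : Fin m → ℂ) :
    MvPolynomial (Fin (m + 2)) ℂ →ₐ[ℂ] Polynomial K :=
  aeval (Fin.cons Polynomial.X (Fin.cons (Polynomial.C w) fun j : Fin m =>
    Polynomial.C (u j) + Polynomial.C (algebraMap ℂ K (v j)) * Polynomial.X) :
    Fin (m + 2) → Polynomial K)

theorem lin_zero (w : K) (u : Fin m → K) (v : Fin m → ℂ) : lin w u v (X 0) = Polynomial.X := by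
  unfold lin
  rw [aeval_X, Fin.cons_zero]

theorem lin_one (w : K) (u : Fin m → K) (v : Fin m → ℂ) : lin w u v (X 1) = Polynomial.C w := by
  unfold lin
  rw [aeval_X]
  rfl

theorem lin_succ (w : K) (u : Fin m → K) (v : Fin m → ℂ) (j : Fin m) :
    lin w u v (X j.succ.succ) = Polynomial.C (u j) +
      Polynomial.C (algebraMap ℂ K (v j)) * Polynomial.X := by
  unfold lin
  rw [aeval_X, Fin.cons_succ, Fin.cons_succ]

/-- evaluation of the coefficients -/
noncomputable def evp (w : K) (u : Fin m → K) : MvPolynomial (Fin (m + 1)) ℂ →ₐ[ℂ] K :=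
  aeval (Fin.cons w u : Fin (m + 1) → K)

theorem lin_eq (w : K) (u : Fin m → K) (v : Fin m → ℂ) (F : MvPolynomial (Fin (m + 2)) ℂ) :
    lin w u v F = (finSuccEquiv ℂ (m + 1) (shear v F)).map (evp w u).toRingHom := by
  have h1 : lin w u v = ((Polynomial.mapAlgHom (evp w u)).comp
      (finSuccEquiv ℂ (m + 1)).toAlgHom).comp (shear v) := by
    apply MvPolynomial.algHom_ext
    intro i
    refine Fin.cases ?_ (fun i => Fin.cases ?_ (fun j => ?_) i) i
    · rw [lin_zero, AlgHom.comp_apply, AlgHom.comp_apply, shear_zero]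
      change _ = Polynomial.mapAlgHom (evp w u) (finSuccEquiv ℂ (m + 1) (X 0))
      rw [finSuccEquiv_X_zero]
      simp
    · change lin w u v (X 1) = _
      rw [lin_one, AlgHom.comp_apply, AlgHom.comp_apply]
      change _ = Polynomial.mapAlgHom (evp w u) (finSuccEquiv ℂ (m + 1) (shear v (X 1)))
      rw [shear_one]
      change _ = Polynomial.mapAlgHom (evp w u) (finSuccEquiv ℂ (m + 1) (X (Fin.succ 0)))
      rw [finSuccEquiv_X_succ]
      simp [evp]
    · rw [lin_succ, AlgHom.comp_apply, AlgHom.comp_apply, shear_succ]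
      change _ = Polynomial.mapAlgHom (evp w u) (finSuccEquiv ℂ (m + 1)
        (X j.succ.succ + C (v j) * X 0))
      rw [map_add, map_mul, finSuccEquiv_X_zero, finSuccEquiv_X_succ, finSuccEquiv_apply]
      simp [evp]
  rw [h1]
  rfl

theorem eval_lin (w : K) (u : Fin m → K) (v : Fin m → ℂ) (a : K)
    (F : MvPolynomial (Fin (m + 2)) ℂ) :
    (lin w u v F).eval a = aeval (Fin.cons a (Fin.cons w fun j => u j + algebraMap ℂ K (v j) * a) :
      Fin (m + 2) → K) F := by
  have h1 : ((Polynomial.aeval a : Polynomial K →ₐ[K] K).restrictScalars ℂ).comp (lin w u v) =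
      aeval (Fin.cons a (Fin.cons w fun j => u j + algebraMap ℂ K (v j) * a) :
        Fin (m + 2) → K) := by
    apply MvPolynomial.algHom_ext
    intro i
    refine Fin.cases ?_ (fun i => Fin.cases ?_ (fun j => ?_) i) i
    · rw [AlgHom.comp_apply, lin_zero, aeval_X]
      simp
    · change (Polynomial.aeval a) (lin w u v (X 1)) = _
      rw [lin_one, aeval_X]
      simp
    · rw [AlgHom.comp_apply, lin_succ, aeval_X]
      simp
  have h2 := DFunLike.congr_fun h1 F
  rw [← h2, AlgHom.comp_apply]
  simp [Polynomial.aeval_def]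

end

end Pool.Agent.R887
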