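import Pool.Agent.R887.NormA

/-!
The degree of the relation between a function and linear coordinates: generic directions.
-/

set_option autoImplicit false
set_option linter.overlappingInstances false
set_option linter.unusedSectionVars false

open FF Module MvPolynomial Pool.Agent.W602.GT Pool.Agent.W603.LV
open Pool.Agent.Y172 Pool.Agent.Y191

namespace Pool.Agent.R887

section

variable {K : Type} [Field K] [Algebra ℂ K] {m : ℕ}

/-- the degree of a monomial in the variables different from `X_1` -/
def udeg (s : Fin (m + 2) →₀ ℕ) : ℕ := s 0 + ∑ j : Fin m, s j.succ.succ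

/-- the image of a monomial without `X_1` -/
noncomputable def linm (u : Fin m → K) (v : Fin m → ℂ) (s : Fin (m + 2) →₀ ℕ) : Polynomial K :=
  Polynomial.X ^ s 0 * ∏ j : Fin m, (Polynomial.C (u j) +
    Polynomial.C (algebraMap ℂ K (v j)) * Polynomial.X) ^ s j.succ.succ

theorem lin_monomial (w : K) (u : Fin m → K) (v : Fin m → ℂ) (s : Fin (m + 2) →₀ ℕ) (c : ℂ) :
    lin w u v (monomial s c) = Polynomial.C (algebraMap ℂ K c * w ^ s 1) * linm u v s := by
  unfold lin linm
  rw [aeval_monomial, Finsupp.prod_fintype _ _ fun _ => pow_zero _, Fin.prod_univ_succ,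
    Fin.prod_univ_succ]
  simp only [Fin.cons_zero, Fin.cons_succ]
  rw [map_mul, map_pow]
  change Polynomial.C (algebraMap ℂ K c) * (_ * (_ ^ s 1 * _)) = _
  ring

theorem lin1_deg (u : K) (v : ℂ) :
    (Polynomial.C u + Polynomial.C (algebraMap ℂ K v) * Polynomial.X).natDegree ≤ 1 := by
  refine (Polynomial.natDegree_add_le _ _).trans (max_le ?_ ?_)
  · rw [Polynomial.natDegree_C]
    exact Nat.zero_le _
  · exact (Polynomial.natDegree_C_mul_le _ _).trans Polynomial.natDegree_X_le

theorem lin1_coeff (u : K) (v : ℂ) :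
    (Polynomial.C u + Polynomial.C (algebraMap ℂ K v) * Polynomial.X).coeff 1 =
      algebraMap ℂ K v := by
  rw [Polynomial.coeff_add, Polynomial.coeff_C, if_neg one_ne_zero, zero_add,
    Polynomial.coeff_C_mul, Polynomial.coeff_X_one, mul_one]

theorem linm_deg (u : Fin m → K) (v : Fin m → ℂ) (s : Fin (m + 2) →₀ ℕ) :
    (linm u v s).natDegree ≤ udeg s := by
  unfold linm udeg
  refine Polynomial.natDegree_mul_le.trans (Nat.add_le_add (Polynomial.natDegree_X_pow_le _) ?_)
  refine (Polynomial.natDegree_prod_le _ _).trans (Finset.sum_le_sum fun j _ => ?_)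
  refine Polynomial.natDegree_pow_le.trans ?_
  have := Nat.mul_le_mul_left (s j.succ.succ) (lin1_deg (u j) (v j))
  rwa [mul_one] at this

theorem linm_coeff (u : Fin m → K) (v : Fin m → ℂ) (s : Fin (m + 2) →₀ ℕ) :
    (linm u v s).coeff (udeg s) = ∏ j : Fin m, algebraMap ℂ K (v j) ^ s j.succ.succ := by
  classical
  unfold linm udeg
  have hp : ∀ T : Finset (Fin m), (∏ j ∈ T, (Polynomial.C (u j) +
      Polynomial.C (algebraMap ℂ K (v j)) * Polynomial.X) ^ s j.succ.succ).natDegree ≤
        ∑ j ∈ T, s j.succ.succ ∧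
      (∏ j ∈ T, (Polynomial.C (u j) +
        Polynomial.C (algebraMap ℂ K (v j)) * Polynomial.X) ^ s j.succ.succ).coeff
        (∑ j ∈ T, s j.succ.succ) = ∏ j ∈ T, algebraMap ℂ K (v j) ^ s j.succ.succ := by
    intro T
    induction T using Finset.induction_on with
    | empty => simp
    | insert a T ha ih =>
      rw [Finset.prod_insert ha, Finset.sum_insert ha, Finset.prod_insert ha]
      have h1 : ((Polynomial.C (u a) + Polynomial.C (algebraMap ℂ K (v a)) *
          Polynomial.X) ^ s a.succ.succ).natDegree ≤ s a.succ.succ := by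
        refine Polynomial.natDegree_pow_le.trans ?_
        have := Nat.mul_le_mul_left (s a.succ.succ) (lin1_deg (u a) (v a))
        rwa [mul_one] at this
      refine ⟨Polynomial.natDegree_mul_le.trans (Nat.add_le_add h1 ih.1), ?_⟩
      rw [Polynomial.coeff_mul_add_eq_of_natDegree_le h1 ih.1, ih.2]
      congr 1
      have h2 := Polynomial.coeff_pow_of_natDegree_le (m := s a.succ.succ)
        (lin1_deg (u a) (v a))
      rw [mul_one, lin1_coeff] at h2
      exact h2
  obtain ⟨h1, h2⟩ := hp Finset.univ
  rw [Polynomial.coeff_mul_add_eq_of_natDegree_le (Polynomial.natDegree_X_pow_le _) h1, h2,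
    Polynomial.coeff_X_pow_self, one_mul]

theorem lin_coeff (w : K) (u : Fin m → K) (v : Fin m → ℂ) {F : MvPolynomial (Fin (m + 2)) ℂ}
    {d : ℕ} (hd : ∀ s ∈ F.support, udeg s ≤ d) :
    (lin w u v F).coeff d = ∑ s ∈ F.support with udeg s = d,
      algebraMap ℂ K (coeff s F) * w ^ s 1 * ∏ j : Fin m, algebraMap ℂ K (v j) ^ s j.succ.succ := by
  classical
  conv_lhs => rw [F.as_sum]
  rw [map_sum, Polynomial.finsetSum_coeff, Finset.sum_filter]
  refine Finset.sum_congr rfl fun s hs => ?_
  rw [lin_monomial, Polynomial.coeff_C_mul]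
  split_ifs with h
  · rw [← h, linm_coeff]
  · rw [Polynomial.coeff_eq_zero_of_natDegree_lt, mul_zero]
    exact lt_of_le_of_lt (linm_deg u v s) (lt_of_le_of_ne (hd s hs) h)

/-- the top coefficients, as a polynomial in the direction -/
noncomputable def topP (w : K) (F : MvPolynomial (Fin (m + 2)) ℂ) (d : ℕ) : MvPolynomial (Fin m) K :=
  ∑ s ∈ F.support with udeg s = d, monomial s.tail.tail (algebraMap ℂ K (coeff s F) * w ^ s 1)

theorem eval_topP (w : K) (v : Fin m → ℂ) (F : MvPolynomial (Fin (m + 2)) ℂ) (d : ℕ) :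
    eval (fun j => algebraMap ℂ K (v j)) (topP w F d) = ∑ s ∈ F.support with udeg s = d,
      algebraMap ℂ K (coeff s F) * w ^ s 1 * ∏ j : Fin m, algebraMap ℂ K (v j) ^ s j.succ.succ := by
  unfold topP
  rw [map_sum]
  refine Finset.sum_congr rfl fun s _ => ?_
  rw [eval_monomial, Finsupp.prod_fintype _ _ fun _ => pow_zero _]
  rfl

theorem topP_ne {w : K} (hw : Transcendental ℂ w) {F : MvPolynomial (Fin (m + 2)) ℂ}
    {s0 : Fin (m + 2) →₀ ℕ} (hs0 : s0 ∈ F.support) : topP w F (udeg s0) ≠ 0 := by
  classical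
  intro h0
  obtain ⟨p, hp⟩ : ∃ p : Polynomial ℂ, p = ∑ s ∈ F.support with udeg s = udeg s0,
      if s.tail.tail = s0.tail.tail then Polynomial.monomial (s 1) (coeff s F) else 0 := ⟨_, rfl⟩
  have h1 : Polynomial.aeval w p = 0 := by
    have h2 := congrArg (coeff s0.tail.tail) h0
    rw [topP, coeff_sum, coeff_zero] at h2
    rw [hp, map_sum, ← h2]
    refine Finset.sum_congr rfl fun s _ => ?_
    rw [coeff_monomial]
    split_ifs
    · rw [Polynomial.aeval_monomial]
    · rw [map_zero]
  have h2 : p = 0 := by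
    by_contra h3
    exact hw ⟨p, h3, h1⟩
  have h3 : p.coeff (s0 1) = coeff s0 F := by
    rw [hp, Polynomial.finsetSum_coeff, Finset.sum_eq_single s0]
    · rw [if_pos rfl, Polynomial.coeff_monomial, if_pos rfl]
    · intro s hs hne
      split_ifs with h4
      · rw [Polynomial.coeff_monomial, if_neg]
        intro h5
        apply hne
        have h6 : udeg s = udeg s0 := (Finset.mem_filter.1 hs).2
        have h7 : ∀ j : Fin m, s j.succ.succ = s0 j.succ.succ := fun j =>
          DFunLike.congr_fun h4 j
        ext i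
        refine Fin.cases ?_ (fun i => Fin.cases ?_ (fun j => ?_) i) i
        · unfold udeg at h6
          rw [Finset.sum_congr rfl fun j _ => h7 j] at h6
          omega
        · exact h5
        · exact h7 j
      · rw [Polynomial.coeff_zero]
    · intro h4
      exact absurd (by simp [hs0]) h4
  rw [h2, Polynomial.coeff_zero] at h3
  exact mem_support_iff.1 hs0 h3.symm

/-- a nonzero polynomial is not zero at a point with complex coordinates -/
theorem exists_point {p : MvPolynomial (Fin m) K} (hp : p ≠ 0) :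
    ∃ v : Fin m → ℂ, eval (fun j => algebraMap ℂ K (v j)) p ≠ 0 := by
  by_contra hcon
  push Not at hcon
  apply hp
  refine MvPolynomial.funext_set (fun _ : Fin m => Set.range (algebraMap ℂ K))
    (fun _ => Set.infinite_range_of_injective (algebraMap ℂ K).injective) fun x hx => ?_
  choose v hv using fun j => hx j (Set.mem_univ j)
  rw [map_zero, ← hcon v]
  congr 2
  funext j
  exact (hv j).symm

end

end Pool.Agent.R887
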