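import Pool.Agent.R887.NormB
import Pool.Agent.R887.CorF

/-!
The degree of the relation between a function and linear coordinates is bounded by the degree of the
maps given by the function and linear projections.
-/

set_option autoImplicit false
set_option linter.overlappingInstances false
set_option linter.unusedSectionVars false

open FF Module MvPolynomial Pool.Agent.W602.GT Pool.Agent.W603.LV
open Pool.Agent.Y172 Pool.Agent.Y191

namespace Pool.Agent.R887

section

variable {K : Type} [Field K] [Algebra ℂ K] {m : ℕ}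

/-- a transcendental function has a nonzero derivative -/
theorem exists_der_ne {U : Fin (m + 1) → K} (hU : IsTranscendenceBasis ℂ U)
    {D : Fin (m + 1) → Derivation ℂ K K} (hD : ∀ i j, D i (U j) = if i = j then 1 else 0) {w : K}
    (hw : Transcendental ℂ w) : ∃ i, D i w ≠ 0 := by
  classical
  by_contra hcon
  push Not at hcon
  have h1 : AlgebraicIndependent ℂ (fun _ : Fin 1 => w) := by
    rw [algebraicIndependent_unique_type_iff]
    exact hw
  obtain ⟨E, hE⟩ := exists_dual h1
  have h2 := hE 0 0
  rw [if_pos rfl] at h2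
  have h3 : E 0 = ∑ j, E 0 (U j) • D j :=
    (Pool.Agent.W73.PG.PULL.expand U hU D hD (E 0)).symm
  rw [h3, sum_smul_apply, Finset.sum_eq_zero fun j _ => by rw [hcon j, mul_zero]] at h2
  exact zero_ne_one h2

/-- generic directions -/
theorem exists_dir {U : Fin (m + 1) → K} (hU : IsTranscendenceBasis ℂ U) {w : K}
    (hw : Transcendental ℂ w) {F : MvPolynomial (Fin (m + 2)) ℂ} (hF : F ≠ 0) :
    ∃ (v : Fin m → ℂ) (d : ℕ), (∀ s ∈ F.support, udeg s ≤ d) ∧
      (∀ u : Fin m → K, (lin w u v F).coeff d ≠ 0) ∧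
      ∃ G : Derivation ℂ K K, G w ≠ 0 ∧ ∀ j, G (U j.succ - algebraMap ℂ K (v j) * U 0) = 0 := by
  classical
  obtain ⟨D, hD⟩ := exists_dual hU.1
  obtain ⟨i0, hi0⟩ := exists_der_ne hU hD hw
  obtain ⟨d, hd⟩ : ∃ d, d = F.support.sup udeg := ⟨_, rfl⟩
  have hsne : F.support.Nonempty := support_nonempty.2 hF
  obtain ⟨s0, hs0, hs0d⟩ := Finset.exists_mem_eq_sup F.support hsne udeg
  have htop : topP w F d ≠ 0 := by
    rw [hd, hs0d]
    exact topP_ne hw hs0
  obtain ⟨q, hq⟩ : ∃ q : MvPolynomial (Fin m) K, q = C (D 0 w) + ∑ j : Fin m, C (D j.succ w) * X j :=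
    ⟨_, rfl⟩
  have hq0 : q ≠ 0 := by
    intro h0
    have hc0 : coeff 0 q = D 0 w := by
      rw [hq, coeff_add, coeff_C, if_pos rfl, coeff_sum, Finset.sum_eq_zero, add_zero]
      intro j _
      rw [coeff_C_mul, coeff_zero_X, mul_zero]
    have hcj : ∀ j : Fin m, coeff (Finsupp.single j 1) q = D j.succ w := by
      intro j
      rw [hq, coeff_add, coeff_C, if_neg, zero_add, coeff_sum, Finset.sum_eq_single j]
      · rw [coeff_C_mul, coeff_X, if_pos rfl, mul_one]
      · intro b _ hb
        rw [coeff_C_mul, coeff_X, if_neg, mul_zero]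
        intro h1
        exact hb (Finsupp.single_left_injective one_ne_zero h1)
      · intro h
        exact absurd (Finset.mem_univ _) h
      · intro h1
        have := DFunLike.congr_fun h1 j
        rw [Finsupp.single_eq_same] at this
        exact zero_ne_one this
    apply hi0
    refine Fin.cases ?_ (fun j => ?_) i0
    · rw [← hc0, h0, coeff_zero]
    · rw [← hcj, h0, coeff_zero]
  obtain ⟨v, hv⟩ := exists_point (mul_ne_zero htop hq0)
  rw [map_mul] at hv
  have hv1 := left_ne_zero_of_mul hv
  have hv2 := right_ne_zero_of_mul hv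
  have hdle : ∀ s ∈ F.support, udeg s ≤ d := fun s hs => by
    rw [hd]
    exact Finset.le_sup (f := udeg) hs
  refine ⟨v, d, hdle, fun u => ?_, ?_⟩
  · rw [lin_coeff w u v hdle, ← eval_topP]
    exact hv1
  · obtain ⟨c, hc⟩ : ∃ c : Fin (m + 1) → K, c = Fin.cons 1 fun j => algebraMap ℂ K (v j) :=
      ⟨_, rfl⟩
    have hGU : ∀ k, (∑ i, c i • D i) (U k) = c k := by
      intro k
      rw [sum_smul_apply, Finset.sum_eq_single k]
      · rw [hD, if_pos rfl, mul_one]
      · intro b _ hb
        rw [hD, if_neg hb, mul_zero]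
      · intro h
        exact absurd (Finset.mem_univ _) h
    refine ⟨∑ i, c i • D i, ?_, fun j => ?_⟩
    · rw [sum_smul_apply, Fin.sum_univ_succ, hc]
      simp only [Fin.cons_zero, Fin.cons_succ, one_mul]
      rw [hq, map_add, eval_C, map_sum] at hv2
      refine fun h => hv2 ?_
      rw [← h]
      congr 1
      refine Finset.sum_congr rfl fun j _ => ?_
      rw [map_mul, eval_C, eval_X, mul_comm]
    · rw [map_sub, Derivation.leibniz, Derivation.map_algebraMap, smul_zero, add_zero, hGU, hGU,
        hc, Fin.cons_zero, Fin.cons_succ, smul_eq_mul, mul_one, sub_self]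

/-- **The degree of the relation.** -/
theorem udeg_le [Algebra.EssFiniteType ℂ K] (hn : Algebra.trdeg ℂ K = (m + 1 : ℕ))
    {U : Fin (m + 1) → K} (hU : IsTranscendenceBasis ℂ U) {w : K} (hw : Transcendental ℂ w)
    {F : MvPolynomial (Fin (m + 2)) ℂ} (hF : Irreducible F)
    (hF0 : aeval (Fin.cons (U 0) (Fin.cons w fun j => U j.succ) : Fin (m + 2) → K) F = 0) :
    ∃ v : Fin m → ℂ, ∀ s ∈ F.support, udeg s ≤
      degreeOver (fun j : Fin m => U j.succ - algebraMap ℂ K (v j) * U 0)
        (fun _ : Fin 1 => w) := by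
  classical
  obtain ⟨v, d, hd, htop, G, hGw, hGu⟩ := exists_dir hU hw hF.ne_zero
  refine ⟨v, fun s hs => (hd s hs).trans ?_⟩
  obtain ⟨u, hu⟩ : ∃ u : Fin m → K, u = fun j => U j.succ - algebraMap ℂ K (v j) * U 0 :=
    ⟨_, rfl⟩
  rw [← hu]
  rcases Nat.eq_zero_or_pos d with hd0 | hdpos
  · rw [hd0]
    exact Nat.zero_le _
  -- the functions `U 0`, `u`
  have hadj : IntermediateField.adjoin ℂ (Set.range (Fin.cons (U 0) u : Fin (m + 1) → K)) =
      IntermediateField.adjoin ℂ (Set.range U) := by
    apply le_antisymm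
    · rw [IntermediateField.adjoin_le_iff]
      have hUm : ∀ i, U i ∈ IntermediateField.adjoin ℂ (Set.range U) := fun i =>
        IntermediateField.subset_adjoin ℂ _ ⟨i, rfl⟩
      rintro _ ⟨i, rfl⟩
      refine Fin.cases (hUm 0) (fun j => ?_) i
      rw [Fin.cons_succ, hu]
      exact sub_mem (hUm _) (mul_mem (IntermediateField.algebraMap_mem _ _) (hUm 0))
    · rw [IntermediateField.adjoin_le_iff]
      have hUm : ∀ i, (Fin.cons (U 0) u : Fin (m + 1) → K) i ∈ IntermediateField.adjoin ℂ
          (Set.range (Fin.cons (U 0) u : Fin (m + 1) → K)) := fun i =>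
        IntermediateField.subset_adjoin ℂ _ ⟨i, rfl⟩
      rintro _ ⟨i, rfl⟩
      refine Fin.cases (hUm 0) (fun j => ?_) i
      have h1 := add_mem (hUm j.succ) (mul_mem (IntermediateField.algebraMap_mem _ (v j)) (hUm 0))
      have h2 : U j.succ = (Fin.cons (U 0) u : Fin (m + 1) → K) j.succ +
          algebraMap ℂ K (v j) * (Fin.cons (U 0) u : Fin (m + 1) → K) 0 := by
        rw [Fin.cons_succ, Fin.cons_zero, hu]
        ring
      rw [h2]
      exact h1
  have hcard : Nat.card (Fin (m + 1)) = m + 1 := by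
    rw [Nat.card_eq_fintype_card, Fintype.card_fin]
  have hfdU : FiniteDimensional (IntermediateField.adjoin ℂ (Set.range U)) K := fd_basis hU
  have hbas0 : IsTranscendenceBasis ℂ (Fin.cons (U 0) u : Fin (m + 1) → K) := by
    refine basis_of_dg (k := ℂ) (by rw [hn, hcard]) ?_
    unfold dg
    rw [hadj]
    exact Module.finrank_pos.ne'
  have hui : AlgebraicIndependent ℂ u := by
    have h1 := hbas0.1.comp Fin.succ (Fin.succ_injective m)
    exact h1
  have hwu : Transcendental (IntermediateField.adjoin ℂ (Set.range u)) w := by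
    intro h1
    apply hGw
    refine kills_acl (D := G) (S := Set.range u) ?_ w (mem_acl.2 h1)
    rintro _ ⟨j, rfl⟩
    rw [hu]
    exact hGu j
  obtain ⟨z, hz⟩ : ∃ z : Fin (m + 1) → K, z = Fin.cons w u := ⟨_, rfl⟩
  have hzi : AlgebraicIndependent ℂ z := by
    have h1 : Transcendental (Algebra.adjoin ℂ (Set.range u)) w := by
      intro h5
      apply hwu
      open scoped IntermediateField.algebraAdjoinAdjoin in
      exact h5.extendScalars (S := IntermediateField.adjoin ℂ (Set.range u))
        (FaithfulSMul.algebraMap_injective _ _)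
    have h2 : AlgebraicIndependent ℂ (fun o : Option (Fin m) => o.elim w u) :=
      (hui.option_iff_transcendental w).2 h1
    have h3 := h2.comp (_root_.finSuccEquiv m) (Equiv.injective _)
    rw [hz]
    convert h3 using 1
    funext i
    refine Fin.cases ?_ (fun j => ?_) i
    · rw [Function.comp_apply, _root_.finSuccEquiv_zero]
      rfl
    · rw [Function.comp_apply, _root_.finSuccEquiv_succ]
      rfl
  have hzb : IsTranscendenceBasis ℂ z :=
    hzi.isTranscendenceBasis_of_trdeg_le_of_finite (by
      rw [hn, Cardinal.mk_fintype, Fintype.card_fin])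
  have hfdz : FiniteDimensional (IntermediateField.adjoin ℂ (Set.range z)) K := fd_basis hzb
  -- the polynomial
  obtain ⟨P, hP⟩ : ∃ P, P = finSuccEquiv ℂ (m + 1) (shear v F) := ⟨_, rfl⟩
  have hPirr : Irreducible P := by
    rw [hP]
    exact (MulEquiv.irreducible_iff (finSuccEquiv ℂ (m + 1))).2 (shear_irred hF)
  have hPd : d ≤ P.natDegree := by
    apply Polynomial.le_natDegree_of_ne_zero
    intro h0
    apply htop u
    rw [lin_eq, ← hP, Polynomial.coeff_map, h0, map_zero]
  have hPprim : P.IsPrimitive := hPirr.isPrimitive (by omega)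
  let iA : Algebra (MvPolynomial (Fin (m + 1)) ℂ) (IntermediateField.adjoin ℂ (Set.range z)) :=
    (aeval (crd (k := ℂ) z)).toRingHom.toAlgebra
  have hgens := crd_gens (k := ℂ) hzi
  have hinj : Function.Injective (algebraMap (MvPolynomial (Fin (m + 1)) ℂ)
      (IntermediateField.adjoin ℂ (Set.range z))) := by
    rw [injective_iff_map_eq_zero]
    intro a ha
    by_contra h0
    exact hgens.ne h0 ha
  have hfs : FaithfulSMul (MvPolynomial (Fin (m + 1)) ℂ)
      (IntermediateField.adjoin ℂ (Set.range z)) :=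
    (faithfulSMul_iff_algebraMap_injective _ _).2 hinj
  have hfrac : IsFractionRing (MvPolynomial (Fin (m + 1)) ℂ)
      (IntermediateField.adjoin ℂ (Set.range z)) := by
    refine IsFractionRing.of_field _ _ fun f => ?_
    obtain ⟨A, B, -, hAB⟩ := hgens.gen f
    exact ⟨A, B, hAB⟩
  have hirr := (hPprim.irreducible_iff_irreducible_map_fraction_map
    (K := IntermediateField.adjoin ℂ (Set.range z))).1 hPirr
  obtain ⟨Q, hQ⟩ : ∃ Q, Q = P.map (algebraMap (MvPolynomial (Fin (m + 1)) ℂ)
    (IntermediateField.adjoin ℂ (Set.range z))) := ⟨_, rfl⟩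
  rw [← hQ] at hirr
  have hcomp : (algebraMap (IntermediateField.adjoin ℂ (Set.range z)) K).comp
      (algebraMap (MvPolynomial (Fin (m + 1)) ℂ) (IntermediateField.adjoin ℂ (Set.range z))) =
        (evp w u).toRingHom := by
    refine RingHom.ext fun a => ?_
    have h1 := crd_coe (k := ℂ) z a
    change ((aeval (crd (k := ℂ) z) a : IntermediateField.adjoin ℂ (Set.range z)) : K) = _
    rw [h1, hz]
    rfl
  have hroot : Polynomial.aeval (U 0) Q = 0 := by
    have h1 : Polynomial.aeval (U 0) Q = (lin w u v F).eval (U 0) := by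
      rw [lin_eq, ← hP, ← hcomp, ← Polynomial.map_map, ← hQ, Polynomial.eval_map_algebraMap]
    rw [h1, eval_lin, ← hF0]
    congr 2
    funext i
    refine Fin.cases rfl (fun i => Fin.cases rfl (fun j => ?_) i) i
    simp only [Fin.cons_succ]
    rw [hu]
    ring
  have hmin := minpoly.eq_of_irreducible hirr hroot
  have hQd : Q.natDegree = P.natDegree := by
    rw [hQ]
    exact Polynomial.natDegree_map_eq_of_injective hinj P
  have hmd : (minpoly (IntermediateField.adjoin ℂ (Set.range z)) (U 0)).natDegree =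
      P.natDegree := by
    rw [← hmin, Polynomial.natDegree_mul_C, hQd]
    exact inv_ne_zero (Polynomial.leadingCoeff_ne_zero.2 hirr.ne_zero)
  have hle := minpoly.natDegree_le (A := IntermediateField.adjoin ℂ (Set.range z)) (U 0)
  rw [hmd] at hle
  have hr : Set.range u ∪ Set.range (fun _ : Fin 1 => w) = Set.range z := by
    rw [hz, Fin.range_cons, Set.range_const, Set.union_comm]
    rfl
  unfold degreeOver
  rw [hr]
  exact hPd.trans hle

end

end Pool.Agent.R887
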