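import Pool.Agent.R887.NormC
import Pool.Agent.R887.GapA

/-!
**The poles of a function are bounded by a hyperplane section**, up to a function, with the degrees
of the maps given by the function and linear projections as multiplicity.
-/

set_option autoImplicit false
set_option linter.overlappingInstances false
set_option linter.unusedSectionVars false

open FF Module MvPolynomial Pool.Agent.W602.GT Pool.Agent.W603.LV
open Pool.Agent.Y172 Pool.Agent.Y191

namespace Pool.Agent.R887

section

variable {K : Type} [Field K] [Algebra ℂ K] {N n : ℕ} {y : Fin (N + 1) → K}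

/-- a transcendence basis of coordinates -/
theorem exists_coord_basis (hy : NormalModel y) (hn : Algebra.trdeg ℂ K = n) {i : Fin (N + 1)}
    (hi : y i ≠ 0) :
    ∃ l : Fin n → Fin (N + 1), IsTranscendenceBasis ℂ (fun k => y (l k) / y i) := by
  classical
  obtain ⟨T, hT⟩ : ∃ T : Set K, T = Set.range fun l => y l / y i := ⟨_, rfl⟩
  have htop : IntermediateField.adjoin ℂ T = ⊤ := by
    rw [hT]
    exact hy.field i hi
  have halg : Algebra.IsAlgebraic (Algebra.adjoin ℂ T) K := by
    have h1 : Algebra.IsAlgebraic (IntermediateField.adjoin ℂ T) K := by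
      constructor
      intro x
      have hx : x ∈ IntermediateField.adjoin ℂ T := by
        rw [htop]
        trivial
      exact isAlgebraic_algebraMap (⟨x, hx⟩ : IntermediateField.adjoin ℂ T)
    open scoped IntermediateField.algebraAdjoinAdjoin in
    exact Algebra.IsAlgebraic.trans _ (IntermediateField.adjoin ℂ T) K
  obtain ⟨b, -, hb2, hb⟩ := exists_isTranscendenceBasis_between (R := ℂ) (∅ : Set K) T
    (Set.empty_subset T) ((algebraicIndependent_empty_iff ..).mpr (algebraMap ℂ K).injective)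
  have hcard := hb.cardinalMk_eq_trdeg
  rw [hn] at hcard
  have hbfin : b.Finite := by
    have : Cardinal.mk b < Cardinal.aleph0 := by
      rw [hcard]
      exact Cardinal.natCast_lt_aleph0
    exact Cardinal.lt_aleph0_iff_set_finite.1 this
  have : Fintype b := hbfin.fintype
  have hc : Fintype.card b = n := by
    rw [Cardinal.mk_fintype] at hcard
    exact_mod_cast hcard
  let e := (Fintype.equivFinOfCardEq hc).symm
  have h1 : ∀ k, ∃ l, y l / y i = (e k : K) := by
    intro k
    have h2 := hb2 (e k).2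
    rw [hT] at h2
    exact h2
  choose l hl using h1
  refine ⟨l, ?_⟩
  have h2 := hb.comp_equiv e
  have h3 : (fun k => y (l k) / y i) = (Subtype.val : b → K) ∘ e := by
    funext k
    exact hl k
  rw [h3]
  exact h2

/-- an irreducible relation -/
theorem exists_irred_rel {m : ℕ} (hn : Algebra.trdeg ℂ K = (m + 1 : ℕ)) (z : Fin (m + 2) → K) :
    ∃ F : MvPolynomial (Fin (m + 2)) ℂ, Irreducible F ∧ aeval z F = 0 := by
  classical
  obtain ⟨I, hI⟩ : ∃ I : Ideal (MvPolynomial (Fin (m + 2)) ℂ),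
      I = RingHom.ker (aeval z : MvPolynomial (Fin (m + 2)) ℂ →ₐ[ℂ] K) := ⟨_, rfl⟩
  have hIp : I.IsPrime := by
    rw [hI]
    exact RingHom.ker_isPrime _
  have hIb : I ≠ ⊥ := by
    intro h0
    have h1 : AlgebraicIndependent ℂ z := by
      rw [hI] at h0
      exact (RingHom.injective_iff_ker_eq_bot _).2 h0
    have h2 := h1.cardinalMk_le_trdeg
    rw [hn, Cardinal.mk_fin] at h2
    have h3 : m + 2 ≤ m + 1 := by exact_mod_cast h2
    omega
  obtain ⟨F, hF1, hF2⟩ := hIp.exists_mem_prime_of_ne_bot hIb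
  refine ⟨F, hF2.irreducible, ?_⟩
  rw [hI, RingHom.mem_ker] at hF1
  exact hF1

/-- the image of a monomial -/
theorem aeval_split {m : ℕ} (U : Fin (m + 1) → K) (w : K) (F : MvPolynomial (Fin (m + 2)) ℂ) :
    aeval (Fin.cons (U 0) (Fin.cons w fun j => U j.succ) : Fin (m + 2) → K) F =
      ∑ s ∈ F.support, algebraMap ℂ K (coeff s F) *
        (U 0 ^ s 0 * ∏ j : Fin m, U j.succ ^ s j.succ.succ) * w ^ s 1 := by
  rw [aeval_def, eval₂_eq']
  refine Finset.sum_congr rfl fun s _ => ?_
  rw [Fin.prod_univ_succ, Fin.prod_univ_succ]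
  simp only [Fin.cons_zero, Fin.cons_succ]
  change _ * (_ * (_ ^ s 1 * _)) = _
  ring

/-- **The poles of a function.** -/
theorem norm_bound (hy : NormalModel y) (hn : Algebra.trdeg ℂ K = n) (hn0 : 0 < n)
    {i : Fin (N + 1)} (hi : y i ≠ 0) {w : K} {B : ℕ}
    (hB : ∀ u : Fin (n - 1) → K, (∀ a, IsPencil y (u a)) →
      degreeOver u (fun _ : Fin 1 => w) ≤ B) :
    ∃ q : K, q ≠ 0 ∧ ∀ (P : Place ℂ K) (l : Fin (N + 1)), Centred y l P →
      0 ≤ P.ord q + B * P.ord (y i / y l) ∧ -P.ord w ≤ P.ord q + B * P.ord (y i / y l) := by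
  classical
  have hess := hy.ess
  have hord0 : ∀ (P : Place ℂ K) (l : Fin (N + 1)), Centred y l P → 0 ≤ P.ord (y i / y l) :=
    fun P l hl => (P.reg_iff (div_ne_zero hi hl.1)).1 (hl.2 i)
  by_cases hw : Transcendental ℂ w
  swap
  · refine ⟨1, one_ne_zero, fun P l hl => ?_⟩
    have h1 : P.ord w = 0 := by
      by_contra h2
      exact hw (P.transcendental_of_ord_ne h2)
    have h2 := hord0 P l hl
    rw [P.ord_one, h1]
    have h3 : (0 : ℤ) ≤ B * P.ord (y i / y l) := mul_nonneg (Int.natCast_nonneg _) h2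
    exact ⟨by omega, by omega⟩
  obtain ⟨m, rfl⟩ : ∃ m, n = m + 1 := ⟨n - 1, by omega⟩
  obtain ⟨lc, hU⟩ := exists_coord_basis hy hn hi
  obtain ⟨U, hUe⟩ : ∃ U : Fin (m + 1) → K, U = fun k => y (lc k) / y i := ⟨_, rfl⟩
  rw [← hUe] at hU
  obtain ⟨F, hF, hF0⟩ := exists_irred_rel hn
    (Fin.cons (U 0) (Fin.cons w fun j => U j.succ) : Fin (m + 2) → K)
  obtain ⟨v, hv⟩ := udeg_le hn hU hw hF hF0
  have hdB : ∀ s ∈ F.support, udeg s ≤ B := by
    intro s hs
    refine (hv s hs).trans (hB _ fun a => ?_)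
    refine pencil_of_span (j := i) hi ?_
    have h1 : ∀ k, U k ∈ Submodule.span ℂ (aff y i) := fun k =>
      Submodule.subset_span ⟨lc k, by rw [hUe]⟩
    rw [← Algebra.smul_def]
    exact sub_mem (h1 _) (Submodule.smul_mem _ _ (h1 _))
  -- the coefficient of the highest power of `w`
  obtain ⟨δ, hδ⟩ : ∃ δ, δ = F.support.sup fun s => s 1 := ⟨_, rfl⟩
  have hsne : F.support.Nonempty := support_nonempty.2 hF.ne_zero
  obtain ⟨s0, hs0, hs0d⟩ := Finset.exists_mem_eq_sup F.support hsne fun s => s 1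
  have hsle : ∀ s ∈ F.support, s 1 ≤ δ := fun s hs => by
    rw [hδ]
    exact Finset.le_sup (f := fun s : Fin (m + 2) →₀ ℕ => s 1) hs
  obtain ⟨T, hT⟩ : ∃ T : (Fin (m + 2) →₀ ℕ) → K, ∀ s, T s =
      U 0 ^ s 0 * ∏ j : Fin m, U j.succ ^ s j.succ.succ := ⟨_, fun _ => rfl⟩
  obtain ⟨q, hq⟩ : ∃ q : K, q = ∑ s ∈ F.support with s 1 = δ,
      algebraMap ℂ K (coeff s F) * T s := ⟨_, rfl⟩
  have hq0 : q ≠ 0 := by
    intro h0
    obtain ⟨R, hR⟩ : ∃ R : MvPolynomial (Fin (m + 1)) ℂ, R = ∑ s ∈ F.support with s 1 = δ,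
        monomial (Finsupp.cons (s 0) s.tail.tail) (coeff s F) := ⟨_, rfl⟩
    have h1 : aeval U R = 0 := by
      rw [hR, map_sum, ← h0, hq]
      refine Finset.sum_congr rfl fun s _ => ?_
      rw [aeval_monomial, Finsupp.prod_fintype _ _ fun _ => pow_zero _, Fin.prod_univ_succ, hT]
      rfl
    have h2 : R = 0 := (injective_iff_map_eq_zero _).1 hU.1 R h1
    have h3 : coeff (Finsupp.cons (s0 0) s0.tail.tail) R = coeff s0 F := by
      rw [hR, coeff_sum, Finset.sum_eq_single s0]
      · rw [coeff_monomial, if_pos rfl]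
      · intro s hs hne
        rw [coeff_monomial, if_neg]
        intro h4
        apply hne
        ext i
        refine Fin.cases ?_ (fun i => Fin.cases ?_ (fun j => ?_) i) i
        · have := DFunLike.congr_fun h4 0
          rwa [Finsupp.cons_zero, Finsupp.cons_zero] at this
        · change s 1 = s0 1
          rw [(Finset.mem_filter.1 hs).2, hδ, hs0d]
        · have := DFunLike.congr_fun h4 j.succ
          rwa [Finsupp.cons_succ, Finsupp.cons_succ] at this
      · intro h4
        exact absurd (Finset.mem_filter.2 ⟨hs0, by rw [hδ, hs0d]⟩) h4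
    rw [h2, coeff_zero] at h3
    exact mem_support_iff.1 hs0 h3.symm
  refine ⟨q, hq0, fun P l hl => ?_⟩
  obtain ⟨o, ho⟩ : ∃ o, o = P.ord (y i / y l) := ⟨_, rfl⟩
  have ho0 : 0 ≤ o := by
    rw [ho]
    exact hord0 P l hl
  rw [← ho]
  have hyl : y i / y l ≠ 0 := div_ne_zero hi hl.1
  have hUge : ∀ k, Ge P (-o) (U k) := by
    intro k
    have h1 : U k = y (lc k) / y l * (y i / y l)⁻¹ := by
      rw [hUe, inv_div]
      have := hl.1
      field_simp
    rw [h1]
    have h2 : Ge P 0 (y (lc k) / y l) := hl.2 _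
    have h3 : Ge P (-o) (y i / y l)⁻¹ := Or.inr (by rw [P.ord_inv, ho])
    have h4 := h2.mul h3
    rwa [zero_add] at h4
  have hTge : ∀ s, Ge P (-(udeg s * o)) (T s) := by
    intro s
    have hp : ∀ J : Finset (Fin m), Ge P (-((∑ j ∈ J, s j.succ.succ : ℕ) * o))
        (∏ j ∈ J, U j.succ ^ s j.succ.succ) := by
      intro J
      induction J using Finset.induction_on with
      | empty =>
        right
        rw [Finset.prod_empty, Finset.sum_empty, P.ord_one]
        simp
      | insert a J ha ih =>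
        rw [Finset.prod_insert ha, Finset.sum_insert ha]
        refine (((hUge a.succ).pow (s a.succ.succ)).mul ih).mono (le_of_eq ?_)
        push_cast
        ring
    rw [hT]
    refine (((hUge 0).pow (s 0)).mul (hp Finset.univ)).mono (le_of_eq ?_)
    unfold udeg
    push_cast
    ring
  have hTge2 : ∀ s ∈ F.support, Ge P (-(B * o)) (algebraMap ℂ K (coeff s F) * T s) := by
    intro s hs
    have h1 : Ge P 0 (algebraMap ℂ K (coeff s F)) := by
      by_cases h0 : coeff s F = 0
      · left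
        rw [h0, map_zero]
      · right
        rw [P.ord_const h0]
    have h2 := h1.mul (hTge s)
    refine h2.mono ?_
    have h3 : (udeg s : ℤ) ≤ B := by exact_mod_cast hdB s hs
    nlinarith
  have hqge : 0 ≤ P.ord q + B * o := by
    have h1 : Ge P (-(B * o)) q := by
      rw [hq]
      exact Ge.sum _ _ fun s hs => hTge2 s (Finset.mem_filter.1 hs).1
    have := h1.resolve_left hq0
    omega
  refine ⟨hqge, ?_⟩
  by_contra hcon
  push Not at hcon
  have hwneg : P.ord w < 0 := by omega
  have hw0 : w ≠ 0 := by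
    rintro rfl
    rw [P.ord_zero] at hwneg
    omega
  have hrel : q * w ^ δ = -∑ s ∈ F.support with ¬ s 1 = δ,
      algebraMap ℂ K (coeff s F) * T s * w ^ s 1 := by
    rw [eq_neg_iff_add_eq_zero, hq, Finset.sum_mul]
    have h1 := hF0
    rw [aeval_split, ← Finset.sum_filter_add_sum_filter_not F.support (fun s => s 1 = δ)] at h1
    rw [← h1]
    congr 1
    · refine Finset.sum_congr rfl fun s hs => ?_
      rw [hT, (Finset.mem_filter.1 hs).2]
    · refine Finset.sum_congr rfl fun s hs => ?_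
      rw [hT]
  have hge : Ge P (-(B * o) + ((δ : ℤ) - 1) * P.ord w) (q * w ^ δ) := by
    rw [hrel]
    refine Ge.neg (Ge.sum _ _ fun s hs => ?_)
    obtain ⟨hs1, hs2⟩ := Finset.mem_filter.1 hs
    refine (hTge2 s hs1).mul ?_
    right
    rw [P.ord_pow]
    have h1 := hsle s hs1
    have h2 : (s 1 : ℤ) ≤ (δ : ℤ) - 1 := by omega
    nlinarith
  have h1 := hge.resolve_left (mul_ne_zero hq0 (pow_ne_zero _ hw0))
  rw [P.ord_mul hq0 (pow_ne_zero _ hw0), P.ord_pow] at h1
  nlinarith

end

end Pool.Agent.R887
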