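import Pool.Agent.R887.NormD
import Pool.Agent.R887.ExpD

/-!
If `K_X + Δ` is nef, then it is at most a multiple of a hyperplane section, up to linear equivalence,
the multiple being its degree.
-/

set_option autoImplicit false
set_option linter.overlappingInstances false
set_option linter.unusedSectionVars false

open FF Module MvPolynomial Pool.Agent.W602.GT Pool.Agent.W603.LV Pool.Agent.W619.PQ
open Pool.Agent.Y172 Pool.Agent.Y191

namespace Pool.Agent.R887

section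

variable {K : Type} [Field K] [Algebra ℂ K] {N : ℕ} {y : Fin (N + 1) → K} {n : ℕ}

/-- the order of a form along a prime divisor -/
theorem ordEq_of_val {c : Place ℂ K → ℤ} {E : Fin n → Derivation ℂ K K}
    (hc : ∀ P, IsPrimeDivisor y P → ∀ (m : ℕ) (ω : (Fin n → Derivation ℂ K K) → K),
      IsPluri m ω → ∀ r : ℚ, OrdGe P ω r ↔ (ω E = 0 ∨ r ≤ m * c P + P.ord (ω E)))
    {P : Place ℂ K} (hP : IsPrimeDivisor y P) {m : ℕ} {ω : (Fin n → Derivation ℂ K K) → K}
    (hω : IsPluri m ω) (h0 : ω E ≠ 0) : OrdEq P ω ((m : ℚ) * c P + P.ord (ω E)) := by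
  have h1 : OrdGe P ω ((m : ℚ) * c P + P.ord (ω E)) := (hc P hP m ω hω _).2 (Or.inr le_rfl)
  refine ⟨h1, ?_⟩
  by_contra hcon
  push Not at hcon
  have h2 : OrdGe P ω ((m : ℚ) * c P + P.ord (ω E) + 1) := by
    intro E' hE'
    by_cases h3 : ω E' = 0
    · exact Or.inl h3
    right
    have h4 := (h1 E' hE').resolve_left h3
    have h5 := hcon E' hE' h3
    have h6 : ((m * c P + P.ord (ω E) : ℤ) : ℚ) ≤ P.ord (ω E') := by
      push_cast
      exact h4
    have h7 : ((m * c P + P.ord (ω E) : ℤ) : ℚ) ≠ P.ord (ω E') := by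
      intro h8
      apply h5
      rw [← h8]
      push_cast
      ring
    have h8 : (m * c P + P.ord (ω E) : ℤ) < P.ord (ω E') := by
      have h9 := lt_of_le_of_ne h6 h7
      exact_mod_cast h9
    have h9 : (m * c P + P.ord (ω E) + 1 : ℤ) ≤ P.ord (ω E') := by omega
    exact_mod_cast h9
  have h3 := ((hc P hP m ω hω _).1 h2).resolve_left h0
  linarith

/-- **Nef log canonical divisors and hyperplane sections.** -/
theorem canonicalLe_of_nef (hy : NormalModel y) (hn : Algebra.trdeg ℂ K = n) (hn0 : 0 < n)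
    {Δ : Place ℂ K → ℚ} (hΔ : Effective y Δ) (hnef : LogNef y n Δ) {S : Set (Place ℂ K)}
    (hS : ∀ P ∈ S, IsPrimeDivisor y P → 1 ≤ Δ P) {a : ℝ} (hpp : PositiveProductLe y n Δ 1 a)
    {ε : ℝ} (hε : 0 < ε) (haε : 0 ≤ a + ε) :
    ∃ s a' : ℕ, 1 ≤ s ∧ CanonicalLe y n S s a' ∧ (a' : ℝ) ≤ (a + ε) * s := by
  classical
  have hess := hy.ess
  obtain ⟨i, hi⟩ := hy.ne
  obtain ⟨A, hA, hAP⟩ := exists_hyp hy hi
  obtain ⟨t, ht, m0, hpp⟩ := hpp A hA ε hε
  obtain ⟨q, hq⟩ : ∃ q : ℕ, q = ⌈1 / t⌉₊ + m0 + 1 := ⟨_, rfl⟩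
  have hq1 : 1 ≤ q := by omega
  have hqt : 1 ≤ t * q := by
    have h1 := Nat.le_ceil (1 / t)
    have h2 : ((⌈1 / t⌉₊ : ℕ) : ℝ) ≤ q := by
      have : ⌈1 / t⌉₊ ≤ q := by omega
      exact_mod_cast this
    have h3 : 1 / t ≤ q := h1.trans h2
    rwa [div_le_iff₀' ht] at h3
  obtain ⟨m, hm, hgen⟩ := hnef i hi q hq1
  obtain ⟨x, E, hx, hE⟩ := exists_crd hn (k := ℂ) (K := K)
  have hfr : IsFrame E := fun F => ⟨fun j => F (x j),
    (Pool.Agent.W73.PG.PULL.expand x hx E hE F).symm⟩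
  obtain ⟨c, hcfin, hc⟩ := exists_ordc hy hn hx hE
  obtain ⟨P0, hP0⟩ := exists_prime hy hn hn0
  have hthr : ∀ P, IsPrimeDivisor y P → Through y P P := fun P _ f hf => localRing_reg hf
  -- generating sections
  have hgen' : ∀ P, IsPrimeDivisor y P → ∃ ω : (Fin n → Derivation ℂ K K) → K,
      IsSection y n (m * q) ((m * q) • Δ + m • A) ω ∧ ω E ≠ 0 ∧
      ((m * q : ℕ) : ℚ) * c P + P.ord (ω E) = -((m * q : ℕ) * Δ P) - m * A P := by
    intro P hP
    obtain ⟨ω, hω, hg⟩ := hgen P (hP.divisorial hy hn)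
    obtain ⟨l, hl⟩ := exists_centred hy P
    obtain ⟨h1, h2⟩ := ordEq_val hfr hc hP hω.1 (hg P l hP (hthr P hP) hl)
    refine ⟨ω, section_of_twist hy hAP hω, h1, ?_⟩
    rw [h2, hAP P l hP hl]
  obtain ⟨η0, hη0, hη0E, -⟩ := hgen' P0 hP0
  have hfin : ({P | IsPrimeDivisor y P ∧ c P ≠ 0} ∪ {P | IsPrimeDivisor y P ∧ P.ord (η0 E) ≠ 0} ∪
      {P | IsPrimeDivisor y P ∧ Δ P ≠ 0} ∪ {P | IsPrimeDivisor y P ∧ A P ≠ 0}).Finite :=
    ((hcfin.union (finite_ord hy hη0E)).union hΔ.2).union hA.2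
  obtain ⟨Z, hZ⟩ : ∃ Z : Finset (Place ℂ K), ∀ P, P ∈ Z ↔ IsPrimeDivisor y P ∧
      (c P ≠ 0 ∨ P.ord (η0 E) ≠ 0 ∨ Δ P ≠ 0 ∨ A P ≠ 0) := by
    refine ⟨hfin.toFinset, fun P => ?_⟩
    rw [Set.Finite.mem_toFinset]
    simp only [Set.mem_union, Set.mem_ofPred_eq]
    tauto
  have hgen'' : ∀ P : Place ℂ K, ∃ ω : (Fin n → Derivation ℂ K K) → K,
      IsSection y n (m * q) ((m * q) • Δ + m • A) ω ∧ ω E ≠ 0 ∧ (IsPrimeDivisor y P →
      ((m * q : ℕ) : ℚ) * c P + P.ord (ω E) = -((m * q : ℕ) * Δ P) - m * A P) := by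
    intro P
    by_cases hP : IsPrimeDivisor y P
    · obtain ⟨ω, h1, h2, h3⟩ := hgen' P hP
      exact ⟨ω, h1, h2, fun _ => h3⟩
    · exact ⟨η0, hη0, hη0E, fun h => absurd h hP⟩
  choose η hη hηE hηP using hgen''
  obtain ⟨v, hv, hv0, hvo⟩ := exists_generic (k₀ := ℂ) (k := ℂ)
    (S := ((insert (η0 E) (Z.image fun P => η P E) : Finset K) : Set K)) (Finset.finite_toSet _)
    (Z : Set (Place ℂ K)) (Finset.finite_toSet _) ⟨η0 E, by simp, hη0E⟩
  have hvW : v ∈ valSub y n (m * q) ((m * q) • Δ + m • A) E := by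
    refine (Submodule.span_le.2 ?_) hv
    intro s hs
    rw [Finset.mem_coe, Finset.mem_insert, Finset.mem_image] at hs
    rcases hs with rfl | ⟨P, -, rfl⟩
    · exact ⟨η0, hη0, rfl⟩
    · exact ⟨η P, hη P, rfl⟩
  obtain ⟨ω, hω, hωE⟩ := mem_valSub.1 hvW
  -- the degree
  obtain ⟨B, hB⟩ : ∃ B : ℕ, B = ⌊(a + ε) * ((m * q : ℕ) : ℝ)⌋₊ := ⟨_, rfl⟩
  have hmq : 1 ≤ m * q := Nat.mul_pos hm hq1
  have hdeg : ∀ u : Fin (n - 1) → K, (∀ a, IsPencil y (u a)) →
      degreeOver u (fun _ : Fin 1 => v / η0 E) ≤ B := by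
    intro u hu
    have h1 := hpp (m * q) m (by
      have h2 : q ≤ m * q := Nat.le_mul_of_pos_left q hm
      omega) (by
      push_cast
      have h3 : (0 : ℝ) ≤ m := Nat.cast_nonneg _
      have h4 := mul_le_mul_of_nonneg_left hqt h3
      linarith) u hu ![η0, ω] E (by
      intro a
      fin_cases a
      · exact hη0
      · exact hω) hη0E
    have h2 : (fun a : Fin 1 => (![η0, ω] : Fin 2 → (Fin n → Derivation ℂ K K) → K) a.succ E /
        (![η0, ω] : Fin 2 → (Fin n → Derivation ℂ K K) → K) 0 E) = fun _ => v / η0 E := by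
      funext a
      fin_cases a
      change ω E / η0 E = _
      rw [hωE]
    rw [h2, pow_one] at h1
    rw [hB]
    exact Nat.le_floor h1
  obtain ⟨g, hg0, hg⟩ := norm_bound hy hn hn0 hi hdeg
  refine ⟨m * q, B, hmq, ⟨i, hi, frm x (m * q) (η0 E / g), frm_pluri _ _ _,
    fun P l hP hl => ?_⟩, ?_⟩
  · have hval : frm x (m * q) (η0 E / g) E = η0 E / g := frm_self hE _ _
    have hval0 : frm x (m * q) (η0 E / g) E ≠ 0 := by
      rw [hval]
      exact div_ne_zero hη0E hg0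
    have h1 := ordEq_of_val hc hP (frm_pluri x (m * q) (η0 E / g)) hval0
    rw [hval, P.ord_div hη0E hg0] at h1
    obtain ⟨hg1, hg2⟩ := hg P l hl
    have hΔP := hΔ.1 P hP
    have hAP0 := hA.1 P hP
    -- the divisor of the section
    have hD : ((m * q : ℕ) : ℚ) * c P + P.ord (η0 E) + (m * q : ℕ) * Δ P + m * A P ≤
        P.ord g + B * P.ord (y i / y l) := by
      by_cases hPZ : P ∈ Z
      · have h2 := hvo P (Finset.mem_coe.2 hPZ) (η P E) (by
          rw [Finset.mem_coe, Finset.mem_insert]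
          exact Or.inr (Finset.mem_image_of_mem _ hPZ)) (hηE P)
        have h3 := hηP P hP
        rw [P.ord_div hv0 hη0E] at hg2
        have h4 : (P.ord v : ℚ) ≤ P.ord (η P E) := by exact_mod_cast h2
        have h5 : (-(P.ord v - P.ord (η0 E)) : ℚ) ≤ P.ord g + B * P.ord (y i / y l) := by
          exact_mod_cast hg2
        linarith
      · have h2 : c P = 0 ∧ P.ord (η0 E) = 0 ∧ Δ P = 0 ∧ A P = 0 := by
          by_contra hcon
          apply hPZ
          rw [hZ]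
          refine ⟨hP, ?_⟩
          by_contra h3
          push Not at h3
          exact hcon h3
        obtain ⟨h3, h4, h5, h6⟩ := h2
        rw [h3, h4, h5, h6]
        have h7 : (0 : ℚ) ≤ P.ord g + B * P.ord (y i / y l) := by exact_mod_cast hg1
        push_cast
        linarith
    refine ⟨_, h1, ?_, fun hPS => ?_⟩
    · push_cast
      push_cast at hD
      have h2 : (0 : ℚ) ≤ (m : ℚ) * q * Δ P := by positivity
      have h3 : (0 : ℚ) ≤ (m : ℚ) * A P := by positivity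
      linarith
    · push_cast
      push_cast at hD
      have h2 := hS P hPS hP
      have h3 : (m : ℚ) * q * 1 ≤ m * q * Δ P := mul_le_mul_of_nonneg_left h2 (by positivity)
      have h4 : (0 : ℚ) ≤ (m : ℚ) * A P := by positivity
      linarith
  · rw [hB]
    exact Nat.floor_le (mul_nonneg haε (Nat.cast_nonneg _))

end

end Pool.Agent.R887
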