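import Pool.Agent.R887.NormE

/-!
**The degree inequality for multi-valued maps from varieties with nef log canonical divisor**, and
self-correspondences.
-/

set_option autoImplicit false
set_option linter.overlappingInstances false
set_option linter.unusedSectionVars false

open FF Module MvPolynomial Pool.Agent.W602.GT Pool.Agent.W603.LV Pool.Agent.W619.PQ
open Pool.Agent.Y172 Pool.Agent.Y191

namespace Pool.Agent.R887

section

variable {K : Type} [Field K] [Algebra ℂ K] {N : ℕ} {y : Fin (N + 1) → K} {n : ℕ}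

theorem PositiveProductLe.of_forall {Δ : Place ℂ K → ℚ} {j : ℕ} {a : ℝ}
    (h : ∀ ε : ℝ, 0 < ε → ∃ b, b ≤ a + ε ∧ PositiveProductLe y n Δ j b) :
    PositiveProductLe y n Δ j a := by
  intro A hA ε hε
  obtain ⟨b, hb, hpp⟩ := h (ε / 2) (by positivity)
  obtain ⟨t, ht, m0, h1⟩ := hpp A hA (ε / 2) (by positivity)
  refine ⟨t, ht, m0, fun m b' hm hb' u hu ω E hω h0 =>
    (h1 m b' hm hb' u hu ω E hω h0).trans ?_⟩
  refine mul_le_mul_of_nonneg_right ?_ (by positivity)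
  linarith

theorem PositiveProductLe.mono {Δ : Place ℂ K → ℚ} {j : ℕ} {a b : ℝ}
    (h : PositiveProductLe y n Δ j a) (hab : a ≤ b) : PositiveProductLe y n Δ j b :=
  PositiveProductLe.of_forall fun ε hε => ⟨a, by linarith, h⟩

theorem PositiveProductLe.numDimLt {Δ : Place ℂ K → ℚ} {j : ℕ}
    (h : PositiveProductLe y n Δ j 0) : NumDimLt y n Δ j := by
  intro A hA ε hε
  obtain ⟨t, ht, m0, h1⟩ := h A hA ε hε
  refine ⟨t, ht, m0, fun m b hm hb u hu ω E hω h0 => ?_⟩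
  have h2 := h1 m b hm hb u hu ω E hω h0
  rwa [zero_add] at h2

end

section

variable {K K' L : Type} [Field K] [Algebra ℂ K] [Field K'] [Algebra ℂ K'] [Field L] [Algebra ℂ L]
  {N N' : ℕ} {y : Fin (N + 1) → K} {y' : Fin (N' + 1) → K'} {n : ℕ}

theorem UnramifiedOutside.prime {ψ : K' →ₐ[ℂ] L} {S : Set (Place ℂ K')}
    (h : UnramifiedOutside ψ y' S) :
    UnramifiedOutside ψ y' {P | IsPrimeDivisor y' P ∧ P ∈ S} :=
  fun Q' hQ' hS => h Q' hQ' fun h1 => hS ⟨hQ', h1⟩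

theorem MultiPullBackLe.prime {φ : K →ₐ[ℂ] L} {ψ : K' →ₐ[ℂ] L} {Δ : Place ℂ K → ℚ}
    {S : Set (Place ℂ K')} (h : MultiPullBackLe φ ψ y n Δ y' S) :
    MultiPullBackLe φ ψ y n Δ y' {P | IsPrimeDivisor y' P ∧ P ∈ S} :=
  fun Q' hQ' hS => h Q' hQ' fun h1 => hS ⟨hQ', h1⟩

/-- **The degree inequality for multi-valued maps from varieties with nef log canonical divisor.** -/
theorem nef_degree_le (hy' : NormalModel y') (hn' : Algebra.trdeg ℂ K' = n) (hn0 : 0 < n)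
    {Δ' : Place ℂ K' → ℚ} (hΔ' : Effective y' Δ') (hnef : LogNef y' n Δ') {a : ℝ} (ha : 0 ≤ a)
    (hpp : PositiveProductLe y' n Δ' 1 a) (hy : NormalModel y) (hn : Algebra.trdeg ℂ K = n)
    {Δ : Place ℂ K → ℚ} (hLC : LogCanonical y n Δ) (φ : K →ₐ[ℂ] L) (ψ : K' →ₐ[ℂ] L)
    (hψ0 : FiniteDimensional ψ.fieldRange L) (hun : UnramifiedOutside ψ y' {P | 1 ≤ Δ' P})
    (hφ1 : MultiPullBackLe φ ψ y n Δ y' {P | 1 ≤ Δ' P}) {j : ℕ} (hj : j ≤ n) {c : ℝ}
    (hc : MultiDegreeLe φ ψ y y' (n - j) j c) :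
    0 ≤ c ∧ PositiveProductLe y n Δ j (c * a ^ j) := by
  have hc0 : 0 ≤ c := by
    obtain ⟨s, a', hs, hcl, -⟩ := canonicalLe_of_nef hy' hn' hn0 hΔ' hnef
      (S := {P | 1 ≤ Δ' P}) (fun P hP _ => hP) hpp one_pos (by linarith)
    exact (explicit_product hy' hn' hn0 hs hcl hy hn hLC φ ψ hψ0 hun hφ1 hj hc).1
  refine ⟨hc0, PositiveProductLe.of_forall fun ε hε => ?_⟩
  obtain ⟨δ, hδ, hδ0⟩ : ∃ δ : ℝ, c * (a + δ) ^ j < c * a ^ j + ε ∧ 0 < δ := by
    have h1 : Filter.Tendsto (fun δ : ℝ => c * ((a : ℝ) + δ) ^ j) (nhds 0)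
        (nhds (c * ((a : ℝ) + 0) ^ j)) :=
      ((Filter.tendsto_id.const_add _).pow j).const_mul c
    rw [add_zero] at h1
    have h2 : ∀ᶠ δ : ℝ in nhds 0, c * ((a : ℝ) + δ) ^ j < c * a ^ j + ε :=
      h1.eventually_lt_const (by linarith)
    have h3 : ∀ᶠ δ : ℝ in nhdsWithin 0 (Set.Ioi 0), c * ((a : ℝ) + δ) ^ j < c * a ^ j + ε :=
      h2.filter_mono nhdsWithin_le_nhds
    have h4 : ∀ᶠ δ : ℝ in nhdsWithin (0 : ℝ) (Set.Ioi 0), 0 < δ := self_mem_nhdsWithin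
    exact (h3.and h4).exists
  obtain ⟨s, a', hs, hcl, has⟩ := canonicalLe_of_nef hy' hn' hn0 hΔ' hnef
    (S := {P | 1 ≤ Δ' P}) (fun P hP _ => hP) hpp hδ0 (by linarith)
  have h1 := (explicit_product hy' hn' hn0 hs hcl hy hn hLC φ ψ hψ0 hun hφ1 hj hc).2
  refine ⟨_, ?_, h1⟩
  have hs0 : (0 : ℝ) < s := by exact_mod_cast hs
  have h2 : (a' : ℝ) / s ≤ a + δ := by
    rw [div_le_iff₀ hs0]
    exact has
  have h3 : ((a' : ℝ) / s) ^ j ≤ (a + δ) ^ j := pow_le_pow_left₀ (by positivity) h2 j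
  have h4 := mul_le_mul_of_nonneg_left h3 hc0
  linarith

/-- **Self-correspondences of varieties with nef log canonical divisor.** -/
theorem self_gap (hy : NormalModel y) (hn : Algebra.trdeg ℂ K = n) (hn0 : 0 < n)
    {Δ : Place ℂ K → ℚ} (hΔ : Effective y Δ) (hLC : LogCanonical y n Δ) (hnef : LogNef y n Δ)
    (φ ψ : K →ₐ[ℂ] L) (hψ0 : FiniteDimensional ψ.fieldRange L)
    (hun : UnramifiedOutside ψ y {P | 1 ≤ Δ P})
    (hφ1 : MultiPullBackLe φ ψ y n Δ y {P | 1 ≤ Δ P}) {c : ℝ}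
    (hc : MultiDegreeLe φ ψ y y (n - 1) 1 c) (hc1 : c < 1) : NumDimLt y n Δ 1 := by
  have hfin : {P | IsPrimeDivisor y P ∧ P ∈ {P : Place ℂ K | 1 ≤ Δ P}}.Finite := by
    refine hΔ.2.subset ?_
    rintro P ⟨h1, h2⟩
    refine ⟨h1, ?_⟩
    have h3 : 1 ≤ Δ P := h2
    intro h4
    rw [h4] at h3
    linarith
  obtain ⟨C, -, h1⟩ := one_map_lc hy hn hn0 hfin
  obtain ⟨hc0, h2⟩ := h1 hy hn hLC φ ψ hψ0 hun.prime hφ1.prime 1 c (by omega) hc
  have hall : ∀ k : ℕ, PositiveProductLe y n Δ 1 (c ^ k * (c * C ^ 1)) := by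
    intro k
    induction k with
    | zero =>
      rw [pow_zero, one_mul]
      exact h2
    | succ k ih =>
      have h3 := (nef_degree_le hy hn hn0 hΔ hnef (by positivity) ih hy hn hLC φ ψ hψ0 hun hφ1
        (j := 1) (by omega) hc).2
      rw [pow_one] at h3
      refine h3.mono (le_of_eq ?_)
      ring
  refine PositiveProductLe.numDimLt (PositiveProductLe.of_forall fun ε hε => ?_)
  have hlim : Filter.Tendsto (fun k : ℕ => c ^ k * (c * (C : ℝ) ^ 1)) Filter.atTop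
      (nhds (0 * (c * (C : ℝ) ^ 1))) :=
    (tendsto_pow_atTop_nhds_zero_of_lt_one hc0 hc1).mul_const _
  rw [zero_mul] at hlim
  obtain ⟨k, hk⟩ := (hlim.eventually_lt_const hε).exists
  exact ⟨_, by linarith, hall k⟩

end

end Pool.Agent.R887
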