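import Pool.Agent.R887.Main

/-!
The numerical dimension is bounded by the growth of the mixed degrees.
-/

set_option autoImplicit false
set_option linter.overlappingInstances false
set_option linter.unusedSectionVars false

open FF MvPolynomial Pool.Agent.W602.GT Pool.Agent.W603.LV Pool.Agent.W619.PQ
open Pool.Agent.Y172 Pool.Agent.Y191

namespace Pool.Agent.R887

section

variable {K K' : Type} [Field K] [Algebra ℂ K] [Field K'] [Algebra ℂ K']

theorem finite_map {n : ℕ} [Algebra K K'] [IsScalarTower ℂ K K'] [Algebra.EssFiniteType ℂ K']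
    (hn : Algebra.trdeg ℂ K = n) (hn' : Algebra.trdeg ℂ K' = n) : FiniteDimensional K K' := by
  have h1 := _root_.trdeg_add_eq ℂ K (A := K')
  rw [hn, hn'] at h1
  have h2 : Algebra.trdeg K K' = 0 := by
    have h3 : (n : Cardinal) + Algebra.trdeg K K' = n + 0 := by rw [h1, add_zero]
    exact Cardinal.eq_of_add_eq_add_left h3 (Cardinal.natCast_lt_aleph0)
  have h3 : Algebra.IsAlgebraic K K' := _root_.trdeg_eq_zero_iff.1 h2
  have h4 : Algebra.EssFiniteType K K' := Algebra.EssFiniteType.of_comp ℂ K K'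
  obtain ⟨s, hs⟩ := IntermediateField.fg_top K K'
  have h5 : FiniteDimensional K (IntermediateField.adjoin K (s : Set K')) :=
    IntermediateField.finiteDimensional_adjoin (fun x _ => (h3.isAlgebraic x).isIntegral)
  rw [hs] at h5
  exact IntermediateField.topEquiv.toLinearEquiv.finiteDimensional

/-- elements of the span of the coordinates of a chart are pencils -/
theorem pencil_of_span {N : ℕ} {y : Fin (N + 1) → K} {j : Fin (N + 1)} (hj : y j ≠ 0) {v : K}
    (hv : v ∈ Submodule.span ℂ (aff y j)) : IsPencil y v := by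
  classical
  unfold aff at hv
  rw [Submodule.mem_span_range_iff_exists_fun] at hv
  obtain ⟨c, rfl⟩ := hv
  have h1 : ∑ i, algebraMap ℂ K ((Pi.single j 1 : Fin (N + 1) → ℂ) i) * y i = y j := by
    rw [Finset.sum_eq_single j]
    · simp
    · intro i _ hi
      rw [Pi.single_eq_of_ne hi, map_zero, zero_mul]
    · intro h
      exact absurd (Finset.mem_univ _) h
  refine ⟨c, Pi.single j 1, by rwa [h1], ?_⟩
  rw [h1, Finset.sum_div]
  refine Finset.sum_congr rfl fun i _ => ?_
  rw [Algebra.smul_def, mul_div_assoc]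

theorem degreeOver_eq {p q : ℕ} (u : Fin p → K) (v : Fin q → K) :
    degreeOver u v = dg ℂ (Sum.elim u v) := by
  unfold degreeOver dg
  rw [Set.Sum.elim_range]

/-- the ratio of two forms does not depend on the vector fields -/
theorem ratio_frame {n m : ℕ} {E E' : Fin n → Derivation ℂ K K} (hE : IsFrame E)
    {ω ω' : (Fin n → Derivation ℂ K K) → K} (hω : IsPluri m ω) (hω' : IsPluri m ω')
    (h0 : ω E' ≠ 0) : ω E ≠ 0 ∧ ω' E' / ω E' = ω' E / ω E := by
  choose C hC using fun i => hE (E' i)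
  have e1 : E' = fun i => ∑ j, Matrix.of C i j • E j := funext hC
  have h1 : ω E' = (Matrix.of C).det ^ m * ω E := by
    conv_lhs => rw [e1]
    exact hω _ _
  have h2 : ω' E' = (Matrix.of C).det ^ m * ω' E := by
    conv_lhs => rw [e1]
    exact hω' _ _
  rw [h1] at h0
  have h3 := left_ne_zero_of_mul h0
  have h4 := right_ne_zero_of_mul h0
  refine ⟨h4, ?_⟩
  rw [h1, h2, mul_div_mul_left _ _ h3]

variable {N N' : ℕ} {y : Fin (N + 1) → K} {y' : Fin (N' + 1) → K'} {n : ℕ}

/-- **The numerical dimension is bounded by the growth of the mixed degrees.** -/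
theorem numdim (hy : NormalModel y) (hy' : NormalModel y') (hn : Algebra.trdeg ℂ K = n)
    (hn' : Algebra.trdeg ℂ K' = n) (hn0 : 0 < n) {Δ : Place ℂ K → ℚ} (hLC : LogCanonical y n Δ)
    {j : ℕ} (hj : j ≤ n) {S : Set (Place ℂ K')} (hS : S.Finite)
    (h : ∀ ε : ℝ, 0 < ε → ∃ φ : K →ₐ[ℂ] K', PullBackLe φ y n Δ y' S ∧
      MixedDegreeLe φ y y' (n - j) j ε) : NumDimLt y n Δ j := by
  classical
  intro A hA ε hε
  obtain ⟨j', hj'⟩ := hy'.ne
  have hess' := hy'.ess
  have hess := hy.ess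
  obtain ⟨M, hM⟩ := source_bound hy' hn' hn0 hS hj'
  obtain ⟨x, E, hx, hE⟩ : ∃ (x : Fin n → K) (E : Fin n → Derivation ℂ K K),
      IsTranscendenceBasis ℂ x ∧ ∀ i j, E i (x j) = if i = j then 1 else 0 := by
    obtain ⟨j0, hj0⟩ := hy.ne
    obtain ⟨x, hx, -, -⟩ := exists_noether hy hn hj0
    obtain ⟨E, hE⟩ := exists_dual hx.1
    exact ⟨x, E, hx, hE⟩
  have hfr : IsFrame E := fun F => ⟨fun j => F (x j),
    (Pool.Agent.W73.PG.PULL.expand x hx E hE F).symm⟩
  have hM1 : (0 : ℝ) < (2 * M + 1) ^ j := by positivity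
  obtain ⟨φ, hφ1, hφ2⟩ := h (ε / (2 * M + 1) ^ j) (div_pos hε hM1)
  let _ : Algebra K K' := φ.toRingHom.toAlgebra
  have hst : IsScalarTower ℂ K K' := IsScalarTower.of_algebraMap_eq fun c => (φ.commutes c).symm
  have hfd : FiniteDimensional K K' := finite_map hn hn'
  obtain ⟨β, hβ⟩ := hM hy hn hA hLC (fun Q hQ hQS P e ho => hφ1 Q hQ hQS P e ho) hx hE hfr
  have hdeg : mapDegree φ = Module.finrank K K' := by
    unfold mapDegree
    let e : K ≃ₐ[ℂ] φ.fieldRange := AlgEquiv.ofInjectiveField φ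
    refine (Algebra.finrank_eq_of_equiv_equiv e.toRingEquiv (RingEquiv.refl K') ?_).symm
    ext x
    rfl
  have hdeg0 : (0 : ℝ) < Module.finrank K K' := by
    exact_mod_cast Module.finrank_pos
  refine ⟨1 / (β + 1), by positivity, 1, fun m b hm hb u hu ω E' hω hω0 => ?_⟩
  have hm0 : (0 : ℝ) < m := by exact_mod_cast hm
  obtain ⟨w, hw⟩ : ∃ w : Fin j → K, w = fun i => ω i.succ E' / ω 0 E' := ⟨_, rfl⟩
  rw [← hw, degreeOver_eq]
  by_cases h0 : dg ℂ (Sum.elim u w) = 0
  · rw [h0]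
    push_cast
    positivity
  have hcard : Nat.card (Fin (n - j) ⊕ Fin j) = n := by
    rw [Nat.card_eq_fintype_card, Fintype.card_sum, Fintype.card_fin, Fintype.card_fin]
    omega
  have hbas := basis_of_dg (k := ℂ) (w := Sum.elim u w) (by rw [hn, hcard]) h0
  -- the sections are not zero
  have hωE : ∀ i, ω i E ≠ 0 := by
    intro i
    have h1 := (ratio_frame hfr (hω 0).1 (hω 0).1 hω0).1
    refine Fin.cases h1 (fun i => ?_) i
    intro h2
    have h3 := (ratio_frame hfr (hω 0).1 (hω i.succ).1 hω0).2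
    rw [h2, zero_div] at h3
    have h4 := hbas.1.ne_zero (Sum.inr i)
    rw [Sum.elim_inr, hw] at h4
    exact h4 h3
  obtain ⟨F, hF1, hF2⟩ := hβ m b hm
  obtain ⟨B, hB⟩ : ∃ B, B = (m + 1) * M + b * β := ⟨_, rfl⟩
  -- replace the sections by pencils
  have hwE : ∀ i, algebraMap K K' (w i) = F (ω i.succ) / F (ω 0) := by
    intro i
    rw [hF2 _ _ (hω 0) (hω i.succ) (hωE 0) (hωE i.succ), hw]
    congr 1
    exact (ratio_frame hfr (hω 0).1 (hω i.succ).1 hω0).2
  obtain ⟨v, hv1, hv2, hv3⟩ := replace_all (k := ℂ) (K := K') (ι := Fin (n - j) ⊕ Fin j)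
    (by rw [hn', hcard]) (S := aff y' j') (Set.finite_range _) ⟨j', div_self hj'⟩ (B := B)
    (f₀ := F (ω 0)) (hF1 _ (hω 0) (hωE 0)).1 (by rw [hB]; exact (hF1 _ (hω 0) (hωE 0)).2)
    (Finset.univ.image Sum.inr) (fun i => algebraMap K K' (Sum.elim u w i))
    (Sum.elim (fun _ => 1) fun i => F (ω i.succ)) (by
      intro i hi
      obtain ⟨a, -, rfl⟩ := Finset.mem_image.1 hi
      exact (hF1 _ (hω _) (hωE _)).1) (by
      intro i hi
      obtain ⟨a, -, rfl⟩ := Finset.mem_image.1 hi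
      rw [hB]
      exact (hF1 _ (hω _) (hωE _)).2) (by
      intro i hi
      obtain ⟨a, -, rfl⟩ := Finset.mem_image.1 hi
      exact hwE a)
  have h1 : dg ℂ v = degreeOver (fun a => φ (u a)) (fun i => v (Sum.inr i)) := by
    rw [degreeOver_eq]
    congr 1
    funext i
    rcases i with i | i
    · rw [hv2 (Sum.inl i) (by simp)]
      rfl
    · rfl
  have h2 := hφ2 u hu (fun i => v (Sum.inr i)) fun i =>
    pencil_of_span hj' (hv1 (Sum.inr i) (Finset.mem_image_of_mem _ (Finset.mem_univ i)))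
  rw [← h1, hdeg] at h2
  rw [dg_tower, Finset.card_image_of_injective _ Sum.inr_injective, Finset.card_univ,
    Fintype.card_fin] at hv3
  have h3 : (dg ℂ (Sum.elim u w) : ℝ) * Module.finrank K K' ≤ (B : ℝ) ^ j * dg ℂ v := by
    exact_mod_cast hv3
  have h4 : (B : ℝ) ≤ m * (2 * M + 1) := by
    rw [hB]
    push_cast
    have h5 : (1 : ℝ) ≤ m := by exact_mod_cast hm
    have h6 : (0 : ℝ) ≤ M := Nat.cast_nonneg _
    have h7 : (b : ℝ) * (β + 1) ≤ m := by
      have h8 : (0 : ℝ) < β + 1 := by positivity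
      have h9 := mul_le_mul_of_nonneg_right hb h8.le
      have h10 : 1 / ((β : ℝ) + 1) * m * (β + 1) = m := by field_simp
      linarith
    have h8 : (0 : ℝ) ≤ b := Nat.cast_nonneg _
    nlinarith
  have h5 : (B : ℝ) ^ j ≤ m ^ j * (2 * M + 1) ^ j := by
    rw [← mul_pow]
    exact pow_le_pow_left₀ (Nat.cast_nonneg _) h4 j
  have h6 : (dg ℂ (Sum.elim u w) : ℝ) * Module.finrank K K' ≤
      (ε * m ^ j) * Module.finrank K K' := by
    calc (dg ℂ (Sum.elim u w) : ℝ) * Module.finrank K K' ≤ (B : ℝ) ^ j * dg ℂ v := h3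
      _ ≤ (m ^ j * (2 * M + 1) ^ j) * dg ℂ v :=
        mul_le_mul_of_nonneg_right h5 (Nat.cast_nonneg _)
      _ ≤ (m ^ j * (2 * M + 1) ^ j) * (ε / (2 * M + 1) ^ j * Module.finrank K K') :=
        mul_le_mul_of_nonneg_left h2 (by positivity)
      _ = (ε * m ^ j) * Module.finrank K K' := by
        field_simp
  exact le_of_mul_le_mul_right h6 hdeg0

end

end Pool.Agent.R887
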