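import Pool.Agent.R887.NormF

/-!
The orders of the sections of the multiples of a divisor grow at most linearly.
-/

set_option autoImplicit false
set_option linter.overlappingInstances false
set_option linter.unusedSectionVars false

open FF Module MvPolynomial Pool.Agent.W602.GT Pool.Agent.W603.LV Pool.Agent.W619.PQ
open Pool.Agent.Y172 Pool.Agent.Y191

namespace Pool.Agent.R887

section

variable {K : Type} [Field K] [Algebra ℂ K] {N n : ℕ} {y : Fin (N + 1) → K}

/-- the poles of the function `k` are bounded by `m T + b A` -/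
def Sec (y : Fin (N + 1) → K) (T A : Place ℂ K → ℚ) (m b : ℕ) (k : K) : Prop :=
  ∀ P, IsPrimeDivisor y P → 0 ≤ (P.ord k : ℚ) + m * T P + b * A P

theorem Sec.mul {T A : Place ℂ K → ℚ} {m b m' b' : ℕ} {k k' : K} (hk : k ≠ 0) (hk' : k' ≠ 0)
    (h : Sec y T A m b k) (h' : Sec y T A m' b' k') : Sec y T A (m + m') (b + b') (k * k') := by
  intro P hP
  have h1 := h P hP
  have h2 := h' P hP
  rw [P.ord_mul hk hk']
  push_cast
  linarith

theorem Sec.pow {T A : Place ℂ K → ℚ} {m b : ℕ} {k : K} (h : Sec y T A m b k) (r : ℕ) :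
    Sec y T A (r * m) (r * b) (k ^ r) := by
  intro P hP
  have h1 := mul_nonneg (show (0 : ℚ) ≤ r from Nat.cast_nonneg r) (h P hP)
  rw [P.ord_pow]
  push_cast
  linarith

theorem Sec.mono {T A : Place ℂ K → ℚ} (hA : Effective y A) {m b b' : ℕ} {k : K}
    (h : Sec y T A m b k) (hb : b ≤ b') : Sec y T A m b' k := by
  intro P hP
  have h1 := h P hP
  have h2 : (b : ℚ) ≤ b' := by exact_mod_cast hb
  have h3 := mul_le_mul_of_nonneg_right h2 (hA.1 P hP)
  linarith

/-- **The orders of the sections grow at most linearly.** -/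
theorem lin_ord (hy : NormalModel y) (hn : Algebra.trdeg ℂ K = n) (hn0 : 0 < n)
    {T A : Place ℂ K → ℚ} (hT : {P | IsPrimeDivisor y P ∧ T P ≠ 0}.Finite) (hA : Effective y A)
    {P0 : Place ℂ K} (hP0 : IsPrimeDivisor y P0) :
    ∃ C : ℕ, ∀ m b : ℕ, b ≤ m → ∀ k : K, k ≠ 0 → Sec y T A m b k → P0.ord k ≤ C * m := by
  classical
  have hess := hy.ess
  obtain ⟨i, hi⟩ := hy.ne
  obtain ⟨H, hH, hHP⟩ := exists_hyp hy hi
  have hA' : Effective y (fun P => |T P| + A P) := by
    refine ⟨fun P hP => add_nonneg (abs_nonneg _) (hA.1 P hP), (hT.union hA.2).subset ?_⟩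
    rintro P ⟨hP, h0⟩
    by_cases h1 : T P = 0
    · right
      refine ⟨hP, fun h2 => h0 ?_⟩
      simp only []
      rw [h1, h2, abs_zero, add_zero]
    · exact Or.inl ⟨hP, h1⟩
  obtain ⟨f, β, hf0, hfb⟩ := dominate hy hA' hi hH hHP
  obtain ⟨u, -, hu⟩ := exists_pencils (n := n) hy.ne (Set.finite_singleton P0)
    (fun P hP => by rw [Set.mem_singleton_iff.1 hP]; exact hP0)
    (fun P hP => by rw [Set.mem_singleton_iff.1 hP]; exact hP0.divisorial hy hn)
  have hu0 := hu P0 (Set.mem_singleton _)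
  obtain ⟨F, hF⟩ : ∃ F, F = IntermediateField.adjoin ℂ (Set.range u) := ⟨_, rfl⟩
  have htriv : ∀ m ∈ F, m ≠ 0 → P0.ord m = 0 := by
    rw [hF]
    exact hu0.triv
  obtain ⟨g, hg0, hg⟩ := P0.surj
  have htr : Transcendental F g := (up P0 F htriv).transcendental_of_ord_ne (f := g) (by
    change P0.ord g ≠ 0
    omega)
  have htr' : Transcendental (Algebra.adjoin ℂ (Set.range u)) g := by
    intro h5
    apply htr
    rw [hF]
    open scoped IntermediateField.algebraAdjoinAdjoin in
    exact h5.extendScalars (S := IntermediateField.adjoin ℂ (Set.range u))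
      (FaithfulSMul.algebraMap_injective _ _)
  obtain ⟨w, hw⟩ : ∃ w : Option (Fin (n - 1)) → K, w = fun o => o.elim g u := ⟨_, rfl⟩
  have hwi : AlgebraicIndependent ℂ w := by
    rw [hw]
    exact (hu0.algInd.option_iff_transcendental g).2 htr'
  have hcard : (Cardinal.mk (Option (Fin (n - 1)))) = n := by
    rw [Cardinal.mk_fintype, Fintype.card_option, Fintype.card_fin]
    congr 1
    omega
  have hbas : IsTranscendenceBasis ℂ w :=
    hwi.isTranscendenceBasis_of_trdeg_le_of_finite (by rw [hn, hcard])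
  have hr : Set.range w = Set.range u ∪ {g} := by
    rw [hw]
    ext x
    simp only [Set.mem_range, Set.mem_union, Set.mem_singleton_iff]
    constructor
    · rintro ⟨o, rfl⟩
      rcases o with _ | i
      · exact Or.inr rfl
      · exact Or.inl ⟨i, rfl⟩
    · rintro (⟨i, rfl⟩ | rfl)
      · exact ⟨some i, rfl⟩
      · exact ⟨none, rfl⟩
  have hpos : 0 < dg ℂ w := dg_pos hbas.isAlgebraic_field
  have hd : dg ℂ w = finrank (IntermediateField.adjoin F {g}) K := by
    rw [hF]
    exact dg_simple hr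
  have hfin' : FiniteDimensional (IntermediateField.adjoin F {g}) K :=
    FiniteDimensional.of_finrank_pos (by rw [← hd]; exact hpos)
  have : IsFF F K := IsFF.of_finite htr hfin'
  obtain ⟨Pi0, hPi⟩ : ∃ Pi0 : Place F K →₀ ℤ, Pi0 = polar (k := F) f⁻¹ +
      β • ∑ l, polar (k := F) (y i / y l)⁻¹ := ⟨_, rfl⟩
  refine ⟨(ddeg Pi0).toNat, fun m b hb k hk0 hk => ?_⟩
  -- the poles of `k`
  have hpol : polar (k := F) k ≤ m • Pi0 := by
    intro Q
    obtain ⟨l, hl⟩ := exists_centred hy (down F Q)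
    have hyl : y i / y l ≠ 0 := div_ne_zero hi hl.1
    have hz0 : k * f ^ m * (y i / y l) ^ (m * β) ≠ 0 :=
      mul_ne_zero (mul_ne_zero hk0 (pow_ne_zero _ hf0)) (pow_ne_zero _ hyl)
    have h1 : 0 ≤ (down F Q).ord (k * f ^ m * (y i / y l) ^ (m * β)) := by
      refine reg_of_through hy hz0 fun P hP ht => ?_
      have hPl := ht.centred hl
      have h2 := hk P hP
      have h3 := hfb P hP
      rw [hHP P l hP hPl] at h3
      rw [P.ord_mul (mul_ne_zero hk0 (pow_ne_zero _ hf0)) (pow_ne_zero _ hyl),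
        P.ord_mul hk0 (pow_ne_zero _ hf0), P.ord_pow, P.ord_pow]
      have hm0 : (0 : ℚ) ≤ m := Nat.cast_nonneg _
      have h4 := mul_le_mul_of_nonneg_left h3 hm0
      have h5 := mul_le_mul_of_nonneg_left (le_abs_self (T P)) hm0
      have h6 : (b : ℚ) ≤ m := by exact_mod_cast hb
      have h7 := mul_le_mul_of_nonneg_right h6 (hA.1 P hP)
      have h8 : (0 : ℚ) ≤ ((P.ord k + m * P.ord f + (m * β : ℕ) * P.ord (y i / y l) : ℤ) : ℚ) := by
        push_cast
        nlinarith
      exact_mod_cast h8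
    have h2 : (down F Q).ord (k * f ^ m * (y i / y l) ^ (m * β)) =
        Q.ord k + m * Q.ord f + (m * β : ℕ) * Q.ord (y i / y l) := by
      change Q.ord (k * f ^ m * (y i / y l) ^ (m * β)) = _
      rw [Q.ord_mul (mul_ne_zero hk0 (pow_ne_zero _ hf0)) (pow_ne_zero _ hyl),
        Q.ord_mul hk0 (pow_ne_zero _ hf0), Q.ord_pow, Q.ord_pow]
    rw [h2] at h1
    rw [polar_apply, Finsupp.smul_apply, hPi, Finsupp.add_apply, Finsupp.smul_apply,
      Finsupp.finsetSum_apply, nsmul_eq_mul, nsmul_eq_mul, polar_apply]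
    have h3 : Q.ord f ≤ max (-Q.ord f⁻¹) 0 := by
      rw [Q.ord_inv, neg_neg]
      exact le_max_left _ _
    have h4 : Q.ord (y i / y l) ≤ ∑ l, polar (k := F) (y i / y l)⁻¹ Q := by
      have h5 : Q.ord (y i / y l) ≤ polar (k := F) (y i / y l)⁻¹ Q := by
        rw [polar_apply, Q.ord_inv, neg_neg]
        exact le_max_left _ _
      exact h5.trans (Finset.single_le_sum (f := fun l => polar (k := F) (y i / y l)⁻¹ Q)
        (fun l _ => by rw [polar_apply]; exact le_max_right _ _) (Finset.mem_univ l))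
    have h5 : 0 ≤ ∑ l, polar (k := F) (y i / y l)⁻¹ Q :=
      Finset.sum_nonneg fun l _ => by rw [polar_apply]; exact le_max_right _ _
    have h6 : (0 : ℤ) ≤ max (-Q.ord f⁻¹) 0 := le_max_right _ _
    have hm0 : (0 : ℤ) ≤ m := Int.natCast_nonneg _
    have hβ0 : (0 : ℤ) ≤ β := Int.natCast_nonneg _
    have h7 := mul_le_mul_of_nonneg_left h3 hm0
    have h8 := mul_le_mul_of_nonneg_left h4 (mul_nonneg hm0 hβ0)
    refine max_le ?_ ?_
    · push_cast at h1
      nlinarith
    · exact mul_nonneg hm0 (add_nonneg h6 (mul_nonneg hβ0 h5))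
  by_cases hneg : P0.ord k ≤ 0
  · exact hneg.trans (mul_nonneg (Int.natCast_nonneg _) (Int.natCast_nonneg _))
  push Not at hneg
  have h1 : Finsupp.single (up P0 F htriv) (P0.ord k) ≤ polar (k := F) k⁻¹ := by
    intro Q
    rw [polar_apply, Q.ord_inv, neg_neg]
    by_cases hQ : up P0 F htriv = Q
    · rw [← hQ, Finsupp.single_eq_same]
      exact le_max_left _ _
    · rw [Finsupp.single_eq_of_ne' hQ]
      exact le_max_right _ _
  have h2 : polar (k := F) k⁻¹ = polar (k := F) k + divisor F k := by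
    ext Q
    rw [polar_apply, Finsupp.add_apply, polar_apply, divisor_apply, Q.ord_inv, neg_neg]
    rcases le_total (Q.ord k) 0 with h | h
    · rw [max_eq_right h, max_eq_left (by omega)]
      omega
    · rw [max_eq_left h, max_eq_right (by omega)]
      omega
  have h3 := ddeg_mono h1
  rw [h2, ddeg_add, ddeg_divisor, add_zero, ddeg_single] at h3
  have h4 := ddeg_mono hpol
  rw [ddeg_nsmul] at h4
  have h5 := (up P0 F htriv).deg_pos
  have h6 : (1 : ℤ) ≤ (up P0 F htriv).deg := by exact_mod_cast h5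
  have h7 : P0.ord k * 1 ≤ P0.ord k * (up P0 F htriv).deg :=
    mul_le_mul_of_nonneg_left h6 hneg.le
  have h8 : ddeg Pi0 ≤ ((ddeg Pi0).toNat : ℤ) := Int.self_le_toNat _
  have h9 : (m : ℤ) * ddeg Pi0 ≤ m * ((ddeg Pi0).toNat : ℤ) :=
    mul_le_mul_of_nonneg_left h8 (Int.natCast_nonneg _)
  linarith

end

end Pool.Agent.R887
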