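import Pool.Agent.R887.PsA

/-!
Descent of the sections of multiples of a divisor from a covering, with control of the order at one
prime divisor.
-/

set_option autoImplicit false
set_option linter.overlappingInstances false
set_option linter.unusedSectionVars false

open FF Module MvPolynomial Pool.Agent.W602.GT Pool.Agent.W603.LV Pool.Agent.W619.PQ
open Pool.Agent.Y172 Pool.Agent.Y191

namespace Pool.Agent.R887

section

variable {K L : Type} [Field K] [Field L] [Algebra ℂ K] [Algebra ℂ L]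
  [Algebra K L] [IsScalarTower ℂ K L] [FiniteDimensional K L] {N : ℕ} {y : Fin (N + 1) → K}

theorem ord_finprod {K : Type} [Field K] [Algebra ℂ K] (P : Place ℂ K) {ι : Type} (s : Finset ι)
    (f : ι → K) (hf : ∀ i ∈ s, f i ≠ 0) : P.ord (∏ i ∈ s, f i) = ∑ i ∈ s, P.ord (f i) := by
  classical
  induction s using Finset.induction_on with
  | empty => rw [Finset.prod_empty, Finset.sum_empty, P.ord_one]
  | insert a s ha ih =>
    rw [Finset.prod_insert ha, Finset.sum_insert ha,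
      P.ord_mul (hf a (Finset.mem_insert_self _ _))
        (Finset.prod_ne_zero_iff.2 fun i hi => hf i (Finset.mem_insert_of_mem hi)),
      ih fun i hi => hf i (Finset.mem_insert_of_mem hi)]

/-- descent of sections, with a Galois extension -/
theorem descend_aux {Ω : Type} [Field Ω] [Algebra ℂ Ω] [Algebra K Ω] [Algebra L Ω]
    [IsScalarTower ℂ K Ω] [IsScalarTower ℂ L Ω] [IsScalarTower K L Ω] [FiniteDimensional K Ω]
    [FiniteDimensional L Ω] [IsGalois K Ω] {T A : Place ℂ K → ℚ} {m b : ℕ} {h : L} (h0 : h ≠ 0)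
    (hh : ∀ (Q : Place ℂ L) (P : Place ℂ K) (e : ℕ), Over Q P e → IsPrimeDivisor y P →
      0 ≤ (Q.ord h : ℚ) + e * (m * T P + b * A P)) {Q0 : Place ℂ L} {P0 : Place ℂ K} {e0 : ℕ}
    (hov : Over Q0 P0 e0) :
    ∃ (M : ℕ) (k : K), 1 ≤ M ∧ k ≠ 0 ∧ Sec y T A (M * m) (M * b) k ∧
      (e0 : ℤ) * P0.ord k ≤ M * Q0.ord h := by
  classical
  have hcK : CharZero K := charZero_of_injective_algebraMap (algebraMap ℂ K).injective
  have hι : Fintype (L →ₐ[K] Ω) := Fintype.ofFinite _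
  obtain ⟨i0, hi0⟩ : ∃ i0 : L →ₐ[K] Ω, i0 = IsScalarTower.toAlgHom K L Ω := ⟨_, rfl⟩
  obtain ⟨R0, e1, hR0⟩ := exists_above (k := ℂ) (K := L) (L := Ω) Q0
  have hR0P : Over R0 P0 (e1 * e0) := by
    refine ⟨Nat.mul_pos hR0.1 hov.1, fun f => ?_⟩
    rw [IsScalarTower.algebraMap_apply K L Ω, hR0.2, hov.2]
    push_cast
    ring
  obtain ⟨v, hv, hv0, hvo⟩ := exists_generic (k₀ := ℂ) (k := ℂ)
    (S := Set.range fun σ : L →ₐ[K] Ω => σ h) (Set.finite_range _)
    {R : Place ℂ Ω | ∃ e, Over R P0 e} (Pool.Agent.Y172.finite_over (K' := Ω) P0)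
    ⟨i0 h, ⟨i0, rfl⟩, by rwa [Ne, map_eq_zero]⟩
  -- the poles of `v`
  have hvR : ∀ (R : Place ℂ Ω) (P : Place ℂ K) (e : ℕ), Over R P e → IsPrimeDivisor y P →
      0 ≤ (R.ord v : ℚ) + e * (m * T P + b * A P) := by
    intro R P e hR hP
    obtain ⟨c, hc⟩ : ∃ c : ℤ, c = ⌈-((e : ℚ) * (m * T P + b * A P))⌉ := ⟨_, rfl⟩
    have h1 : ∀ z ∈ Submodule.span ℂ (Set.range fun σ : L →ₐ[K] Ω => σ h),
        z ∈ geSub ℂ R c := by
      intro z hz
      refine (Submodule.span_le.2 ?_) hz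
      rintro _ ⟨σ, rfl⟩
      obtain ⟨Q, e', e1', hQ, he1, hee, hord⟩ := below_emb σ hR
      rw [SetLike.mem_coe, mem_geSub]
      right
      change c ≤ R.ord (σ h)
      rw [hord, hc, Int.ceil_le]
      have h2 := hh Q P e' hQ hP
      have h3 := mul_nonneg (show (0 : ℚ) ≤ e1' from Nat.cast_nonneg _) h2
      rw [hee]
      push_cast
      linarith
    have h2 := (mem_geSub.1 (h1 v hv)).resolve_left hv0
    rw [hc, Int.ceil_le] at h2
    linarith
  -- the conjugates of `v`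
  have hgR : ∀ (g : Ω ≃ₐ[K] Ω) (R : Place ℂ Ω) (P : Place ℂ K) (e : ℕ), Over R P e →
      IsPrimeDivisor y P → 0 ≤ (R.ord (g v) : ℚ) + e * (m * T P + b * A P) := by
    intro g R P e hR hP
    obtain ⟨R1, e', e1', hR1, he1, hee, hord⟩ := below_emb (L := Ω) (g : Ω →ₐ[K] Ω) hR
    have h1 : R.ord (g v) = e1' * R1.ord v := hord v
    have h2 := hvR R1 P e' hR1 hP
    have h3 := mul_nonneg (show (0 : ℚ) ≤ e1' from Nat.cast_nonneg _) h2
    rw [h1, hee]
    push_cast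
    linarith
  have hgv0 : ∀ g : Ω ≃ₐ[K] Ω, g v ≠ 0 := fun g => by rwa [Ne, map_eq_zero]
  have hgR0 : ∀ g : Ω ≃ₐ[K] Ω, R0.ord (g v) ≤ e1 * Q0.ord h := by
    intro g
    obtain ⟨R1, e', e1', hR1, he1, hee, hord⟩ := below_emb (L := Ω) (g : Ω →ₐ[K] Ω) hR0P
    have h1 : R0.ord (g v) = e1' * R1.ord v := hord v
    have h2 : R0.ord (g (g.symm (i0 h))) = e1' * R1.ord (g.symm (i0 h)) := hord _
    rw [AlgEquiv.apply_symm_apply] at h2
    have h3 : R0.ord (i0 h) = e1 * Q0.ord h := by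
      rw [hi0]
      exact hR0.2 h
    have h4 : R1.ord v ≤ R1.ord (g.symm (i0 h)) :=
      hvo R1 ⟨e', hR1⟩ (g.symm (i0 h)) ⟨(g.symm : Ω →ₐ[K] Ω).comp i0, rfl⟩ (by
        rw [Ne, map_eq_zero, map_eq_zero]
        exact h0)
    have h5 := mul_le_mul_of_nonneg_left h4 (Int.natCast_nonneg e1')
    rw [h1, ← h3, h2]
    exact h5
  -- the norm
  obtain ⟨k, hk⟩ : ∃ k : K, k = Algebra.norm K v := ⟨_, rfl⟩
  have hkp : algebraMap K Ω k = ∏ g : Ω ≃ₐ[K] Ω, g v := by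
    rw [hk]
    exact Algebra.norm_eq_prod_automorphisms K v
  have hk0 : k ≠ 0 := by
    intro h1
    rw [h1, map_zero] at hkp
    exact Finset.prod_ne_zero_iff.2 (fun g _ => hgv0 g) hkp.symm
  have hkord : ∀ (R : Place ℂ Ω) (P : Place ℂ K) (e : ℕ), Over R P e →
      (e : ℤ) * P.ord k = ∑ g : Ω ≃ₐ[K] Ω, R.ord (g v) := by
    intro R P e hR
    rw [← hR.2, hkp, ord_finprod R _ _ fun g _ => hgv0 g]
  refine ⟨Fintype.card (Ω ≃ₐ[K] Ω), k, Fintype.card_pos, hk0, fun P hP => ?_, ?_⟩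
  · obtain ⟨R, e, hR⟩ := exists_above (k := ℂ) (K := K) (L := Ω) P
    have he : (0 : ℚ) < e := by exact_mod_cast hR.1
    have h1 : ((e : ℤ) * P.ord k : ℤ) = ∑ g : Ω ≃ₐ[K] Ω, R.ord (g v) := hkord R P e hR
    have h2 : ((e : ℚ) * P.ord k) = ∑ g : Ω ≃ₐ[K] Ω, (R.ord (g v) : ℚ) := by
      have h3 : (((e : ℤ) * P.ord k : ℤ) : ℚ) = ((∑ g : Ω ≃ₐ[K] Ω, R.ord (g v) : ℤ) : ℚ) := by
        rw [h1]
      push_cast at h3
      exact h3
    have h3 : ∑ g : Ω ≃ₐ[K] Ω, (-(e * (m * T P + b * A P)) : ℚ) ≤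
        ∑ g : Ω ≃ₐ[K] Ω, (R.ord (g v) : ℚ) :=
      Finset.sum_le_sum fun g _ => by
        have := hgR g R P e hR hP
        linarith
    rw [← h2, Finset.sum_const, Finset.card_univ, nsmul_eq_mul] at h3
    have h4 : (0 : ℚ) ≤ e * (P.ord k + (Fintype.card (Ω ≃ₐ[K] Ω) * m : ℕ) * T P +
        (Fintype.card (Ω ≃ₐ[K] Ω) * b : ℕ) * A P) := by
      push_cast
      linarith
    exact nonneg_of_mul_nonneg_right h4 he
  · have h1 := hkord R0 P0 (e1 * e0) hR0P
    have h2 : ∑ g : Ω ≃ₐ[K] Ω, R0.ord (g v) ≤ ∑ g : Ω ≃ₐ[K] Ω, (e1 * Q0.ord h : ℤ) :=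
      Finset.sum_le_sum fun g _ => hgR0 g
    rw [← h1, Finset.sum_const, Finset.card_univ, nsmul_eq_mul] at h2
    have he1 : (0 : ℤ) < e1 := by exact_mod_cast hR0.1
    have h3 : (e1 : ℤ) * (e0 * P0.ord k) ≤ e1 * (Fintype.card (Ω ≃ₐ[K] Ω) * Q0.ord h) := by
      push_cast at h2
      linarith
    exact le_of_mul_le_mul_left h3 he1

/-- **Descent of sections.** -/
theorem descend {T A : Place ℂ K → ℚ} {m b : ℕ} {h : L} (h0 : h ≠ 0)
    (hh : ∀ (Q : Place ℂ L) (P : Place ℂ K) (e : ℕ), Over Q P e → IsPrimeDivisor y P →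
      0 ≤ (Q.ord h : ℚ) + e * (m * T P + b * A P)) {Q0 : Place ℂ L} {P0 : Place ℂ K} {e0 : ℕ}
    (hov : Over Q0 P0 e0) :
    ∃ (M : ℕ) (k : K), 1 ≤ M ∧ k ≠ 0 ∧ Sec y T A (M * m) (M * b) k ∧
      (e0 : ℤ) * P0.ord k ≤ M * Q0.ord h := by
  have hcK : CharZero K := charZero_of_injective_algebraMap (algebraMap ℂ K).injective
  let Ω := IntermediateField.normalClosure K L (AlgebraicClosure L)
  let ik : Algebra ℂ Ω := ((algebraMap K Ω).comp (algebraMap ℂ K)).toAlgebra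
  have htow : IsScalarTower ℂ K Ω := IsScalarTower.of_algebraMap_eq fun _ => rfl
  have hfin : FiniteDimensional K Ω := inferInstance
  have hnorm : Normal K Ω := inferInstance
  have hgal : IsGalois K Ω := IsGalois.mk
  have htowL : IsScalarTower ℂ L Ω := IsScalarTower.of_algebraMap_eq fun c => by
    rw [IsScalarTower.algebraMap_apply ℂ K L, ← IsScalarTower.algebraMap_apply K L Ω]
    rfl
  have hfinL : FiniteDimensional L Ω := FiniteDimensional.right K L Ω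
  exact descend_aux (Ω := Ω) h0 hh hov

end

end Pool.Agent.R887
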