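import Pool.Agent.R887.PsB

/-!
The asymptotic fixed part of a divisor, and functions which approximate the rest.
-/

set_option autoImplicit false
set_option linter.overlappingInstances false
set_option linter.unusedSectionVars false

open FF Module MvPolynomial Pool.Agent.W602.GT Pool.Agent.W603.LV Pool.Agent.W619.PQ
open Pool.Agent.Y172 Pool.Agent.Y191

namespace Pool.Agent.R887

section

variable {K : Type} [Field K] [Algebra ℂ K] {N n : ℕ} {y : Fin (N + 1) → K}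

/-- the coefficient of `P` in the asymptotic fixed part of `T` is at least `ν` -/
def LowB (y : Fin (N + 1) → K) (T A : Place ℂ K → ℚ) (P : Place ℂ K) (ν : ℝ) : Prop :=
  ∃ t : ℝ, 0 < t ∧ ∃ m0 : ℕ, ∀ m b : ℕ, m0 ≤ m → (b : ℝ) ≤ t * m → ∀ k : K, k ≠ 0 →
    Sec y T A m b k → (m : ℝ) * ν ≤ (P.ord k : ℝ) + m * (T P : ℝ) + b * (A P : ℝ)

/-- `T` is pseudo-effective -/
def PsT (y : Fin (N + 1) → K) (T A : Place ℂ K → ℚ) : Prop :=
  ∀ t : ℝ, 0 < t → ∀ m0 : ℕ, ∃ (m b : ℕ) (k : K), m0 ≤ m ∧ (b : ℝ) ≤ t * m ∧ k ≠ 0 ∧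
    Sec y T A m b k

theorem LowB.bdd (hy : NormalModel y) (hn : Algebra.trdeg ℂ K = n) (hn0 : 0 < n)
    {T A : Place ℂ K → ℚ} (hT : {P | IsPrimeDivisor y P ∧ T P ≠ 0}.Finite) (hA : Effective y A)
    (hps : PsT y T A) {P : Place ℂ K} (hP : IsPrimeDivisor y P) :
    ∃ C : ℝ, ∀ ν : ℝ, LowB y T A P ν → ν ≤ C := by
  obtain ⟨C, hC⟩ := lin_ord hy hn hn0 hT hA hP
  refine ⟨C + |(T P : ℝ)| + A P, fun ν hν => ?_⟩
  obtain ⟨t, ht, m0, h⟩ := hν
  obtain ⟨m, b, k, hm, hb, hk0, hk⟩ := hps (min t 1) (lt_min ht one_pos) (m0 + 1)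
  have hm1 : (0 : ℝ) < m := by
    have : 0 < m := by omega
    exact_mod_cast this
  have hbt : (b : ℝ) ≤ t * m := hb.trans (mul_le_mul_of_nonneg_right (min_le_left _ _) hm1.le)
  have hb1 : (b : ℝ) ≤ m := by
    have := hb.trans (mul_le_mul_of_nonneg_right (min_le_right _ _) hm1.le)
    rwa [one_mul] at this
  have h1 := h m b (by omega) hbt k hk0 hk
  have h2 : (P.ord k : ℝ) ≤ C * m := by
    have := hC m b (by exact_mod_cast hb1) k hk0 hk
    exact_mod_cast this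
  have h3 : (m : ℝ) * (T P : ℝ) ≤ m * |(T P : ℝ)| :=
    mul_le_mul_of_nonneg_left (le_abs_self _) hm1.le
  have hA0 : (0 : ℝ) ≤ A P := by exact_mod_cast hA.1 P hP
  have h4 : (b : ℝ) * (A P : ℝ) ≤ m * A P := mul_le_mul_of_nonneg_right hb1 hA0
  have h5 : (m : ℝ) * ν ≤ m * (C + |(T P : ℝ)| + A P) := by linarith
  exact le_of_mul_le_mul_left h5 hm1

theorem LowB.zero {T A : Place ℂ K → ℚ} {P : Place ℂ K} (hP : IsPrimeDivisor y P) :
    LowB y T A P 0 := by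
  refine ⟨1, one_pos, 0, fun m b _ _ k _ hk => ?_⟩
  rw [mul_zero]
  exact_mod_cast hk P hP

/-- the coefficients of the asymptotic fixed part, up to `1 / M` -/
theorem exists_kappa (hy : NormalModel y) (hn : Algebra.trdeg ℂ K = n) (hn0 : 0 < n)
    {T A : Place ℂ K → ℚ} (hT : {P | IsPrimeDivisor y P ∧ T P ≠ 0}.Finite) (hA : Effective y A)
    (hps : PsT y T A) {P : Place ℂ K} (hP : IsPrimeDivisor y P) {M : ℕ} (hM : 1 ≤ M) :
    ∃ κ : ℕ, LowB y T A P ((κ : ℝ) / M) ∧ ¬ LowB y T A P (((κ : ℝ) + 1) / M) := by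
  classical
  obtain ⟨C, hC⟩ := LowB.bdd hy hn hn0 hT hA hps hP
  have hM0 : (0 : ℝ) < M := by exact_mod_cast hM
  have hex : ∃ κ : ℕ, ¬ LowB y T A P ((κ : ℝ) / M) := by
    refine ⟨⌈C * M⌉₊ + 1, fun h => ?_⟩
    have h1 := hC _ h
    rw [div_le_iff₀ hM0] at h1
    have h2 := Nat.le_ceil (C * M)
    push_cast at h1
    linarith
  have h1 := Nat.find_spec hex
  have h2 : Nat.find hex ≠ 0 := by
    intro h0
    rw [h0, Nat.cast_zero, zero_div] at h1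
    exact h1 (LowB.zero hP)
  refine ⟨Nat.find hex - 1, ?_, ?_⟩
  · by_contra h3
    exact Nat.find_min hex (by omega) h3
  · have h3 : (((Nat.find hex - 1 : ℕ) : ℝ) + 1) = (Nat.find hex : ℝ) := by
      have h4 : (Nat.find hex - 1) + 1 = Nat.find hex := by omega
      exact_mod_cast h4
    rw [h3]
    exact h1

/-- **Approximation of the positive part.** -/
theorem exists_theta (hy : NormalModel y) (hn : Algebra.trdeg ℂ K = n) (hn0 : 0 < n)
    {i : Fin (N + 1)} (hi : y i ≠ 0) {T A : Place ℂ K → ℚ}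
    (hT : {P | IsPrimeDivisor y P ∧ T P ≠ 0}.Finite) (hA : Effective y A)
    (hAP : ∀ P l, IsPrimeDivisor y P → Centred y l P → A P = P.ord (y i / y l)) {μ : ℝ}
    (hμ : 0 ≤ μ)
    (hdeg : ∀ ε : ℝ, 0 < ε → ∃ t : ℝ, 0 < t ∧ ∃ m0 : ℕ, ∀ m b : ℕ, m0 ≤ m → (b : ℝ) ≤ t * m →
      ∀ k k' : K, k ≠ 0 → k' ≠ 0 → Sec y T A m b k → Sec y T A m b k' →
      ∀ u : Fin (n - 1) → K, (∀ a, IsPencil y (u a)) →
        (degreeOver u (fun _ : Fin 1 => k' / k) : ℝ) ≤ (μ + ε) * m)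
    (hps : PsT y T A) {ε : ℝ} (hε : 0 < ε) :
    ∃ (s a M : ℕ) (θ : K) (κ : Place ℂ K → ℕ) (t : ℝ) (m0 : ℕ), 1 ≤ s ∧ 1 ≤ M ∧ θ ≠ 0 ∧ 0 < t ∧
      (a : ℝ) ≤ (μ + 2 * ε) * s ∧
      (∀ P, IsPrimeDivisor y P → (P.ord θ : ℝ) ≤ -(s * (T P : ℝ)) + s * ((κ P : ℝ) / M) +
        a * (A P : ℝ)) ∧
      ∀ m b : ℕ, m0 ≤ m → (b : ℝ) ≤ t * m → ∀ k : K, k ≠ 0 → Sec y T A m b k →
        ∀ P, IsPrimeDivisor y P → (m : ℝ) * ((κ P : ℝ) / M) ≤
          (P.ord k : ℝ) + m * (T P : ℝ) + b * (A P : ℝ) := by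
  classical
  have hess := hy.ess
  obtain ⟨t1, ht1, m1, hd⟩ := hdeg ε hε
  -- a first section
  obtain ⟨s1, b, k1, hs1, hb, hk10, hk1⟩ := hps (t1 / 2) (by positivity) (⌈2 / t1⌉₊ + 1)
  obtain ⟨b1, hb1⟩ : ∃ b1, b1 = b + 1 := ⟨_, rfl⟩
  have hs1r : 2 / t1 ≤ s1 := by
    have h1 := Nat.le_ceil (2 / t1)
    have h2 : ((⌈2 / t1⌉₊ : ℕ) : ℝ) ≤ s1 := by
      have : ⌈2 / t1⌉₊ ≤ s1 := by omega
      exact_mod_cast this
    linarith
  have hs1pos : 1 ≤ s1 := by omega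
  have hs10 : (0 : ℝ) < s1 := by exact_mod_cast hs1pos
  have hb1t : (b1 : ℝ) ≤ t1 * s1 := by
    rw [div_le_iff₀ ht1] at hs1r
    rw [hb1]
    push_cast
    linarith
  have hb10 : (0 : ℝ) < b1 := by
    rw [hb1]
    positivity
  have hk1' : Sec y T A s1 b1 k1 := hk1.mono hA (by omega)
  -- its zeros
  have hZfin : {P | IsPrimeDivisor y P ∧ (P.ord k1 : ℚ) + s1 * T P + b1 * A P ≠ 0}.Finite := by
    refine (((finite_ord hy hk10).union hT).union hA.2).subset ?_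
    rintro P ⟨hP, h0⟩
    by_contra hcon
    apply h0
    simp only [Set.mem_union, Set.mem_ofPred_eq, not_or, not_and, not_not] at hcon
    obtain ⟨⟨h1, h2⟩, h3⟩ := hcon
    rw [h1 hP, h2 hP, h3 hP]
    simp
  obtain ⟨Z, hZ⟩ : ∃ Z : Finset (Place ℂ K), ∀ P, P ∈ Z ↔ IsPrimeDivisor y P ∧
      (P.ord k1 : ℚ) + s1 * T P + b1 * A P ≠ 0 := ⟨hZfin.toFinset, fun P => by
    rw [Set.Finite.mem_toFinset]
    rfl⟩
  have hZe : Effective y (fun P => if P ∈ Z then (1 : ℚ) else 0) := by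
    refine ⟨fun P _ => ?_, Z.finite_toSet.subset ?_⟩
    · simp only []
      split_ifs
      · exact zero_le_one
      · exact le_rfl
    · rintro P ⟨-, h0⟩
      by_contra hcon
      apply h0
      simp only []
      rw [if_neg]
      exact hcon
  obtain ⟨f1, β1, hf10, hf1⟩ := dominate hy hZe hi hA hAP
  obtain ⟨M, hM⟩ : ∃ M : ℕ, M = ⌈β1 / ε⌉₊ + 1 := ⟨_, rfl⟩
  have hM1 : 1 ≤ M := by omega
  have hM0 : (0 : ℝ) < M := by exact_mod_cast hM1
  have hMβ : (β1 : ℝ) ≤ ε * M := by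
    have h1 := Nat.le_ceil ((β1 : ℝ) / ε)
    have h2 : ((⌈(β1 : ℝ) / ε⌉₊ : ℕ) : ℝ) ≤ M := by
      have : ⌈(β1 : ℝ) / ε⌉₊ ≤ M := by omega
      exact_mod_cast this
    have h3 : (β1 : ℝ) / ε ≤ M := h1.trans h2
    rw [div_le_iff₀ hε] at h3
    linarith
  -- the coefficients
  have hκ : ∀ P : Place ℂ K, ∃ κ : ℕ, P ∈ Z → LowB y T A P ((κ : ℝ) / M) ∧
      ¬ LowB y T A P (((κ : ℝ) + 1) / M) := by
    intro P
    by_cases hP : P ∈ Z
    · obtain ⟨κ, h⟩ := exists_kappa hy hn hn0 hT hA hps ((hZ P).1 hP).1 hM1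
      exact ⟨κ, fun _ => h⟩
    · exact ⟨0, fun h => absurd h hP⟩
  choose κ hκ using hκ
  -- sections with small orders
  have hsec : ∀ P : Place ℂ K, ∃ (m : ℕ) (g : K), 1 ≤ m ∧ g ≠ 0 ∧ Sec y T A (m * s1) (m * b1) g ∧
      (P ∈ Z → (P.ord g : ℝ) ≤ (m * s1) * (((κ P : ℝ) + 1) / M) - (m * s1) * (T P : ℝ)) := by
    intro P
    by_cases hP : P ∈ Z
    · obtain ⟨-, h1⟩ := hκ P hP
      obtain ⟨m, b', hm, hb', k, hk0, hk, hlt⟩ : ∃ m b' : ℕ, 1 ≤ m ∧
          (b' : ℝ) ≤ b1 / s1 * m ∧ ∃ k : K, k ≠ 0 ∧ Sec y T A m b' k ∧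
          (P.ord k : ℝ) + m * (T P : ℝ) + b' * (A P : ℝ) < m * (((κ P : ℝ) + 1) / M) := by
        by_contra hcon
        push Not at hcon
        exact h1 ⟨b1 / s1, by positivity, 1, fun m b' hm hb' k hk0 hk =>
          hcon m b' hm hb' k hk0 hk⟩
      have hPp := ((hZ P).1 hP).1
      have hbb : s1 * b' ≤ m * b1 := by
        have h2 : (b' : ℝ) * s1 ≤ b1 * m := by
          rw [div_mul_eq_mul_div, le_div_iff₀ hs10] at hb'
          exact hb'
        have h3 : ((s1 * b' : ℕ) : ℝ) ≤ ((m * b1 : ℕ) : ℝ) := by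
          push_cast
          linarith
        exact_mod_cast h3
      refine ⟨m, k ^ s1, hm, pow_ne_zero _ hk0, ?_, fun _ => ?_⟩
      · have h2 := hk.pow s1
        rw [Nat.mul_comm s1 m] at h2
        exact h2.mono hA hbb
      · rw [P.ord_pow]
        push_cast
        have hA0 : (0 : ℝ) ≤ A P := by exact_mod_cast hA.1 P hPp
        have h2 : (0 : ℝ) ≤ b' * (A P : ℝ) := by positivity
        have h3 : (P.ord k : ℝ) ≤ m * (((κ P : ℝ) + 1) / M) - m * (T P : ℝ) := by linarith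
        have h4 := mul_le_mul_of_nonneg_left h3 hs10.le
        linarith
    · refine ⟨1, k1, le_rfl, hk10, ?_, fun h => absurd h hP⟩
      rw [one_mul, one_mul]
      exact hk1'
  choose mP g hmP hg0 hg hgo using hsec
  -- a common multiple
  obtain ⟨R, hR⟩ : ∃ R : ℕ, R = (m1 + 1) * ∏ P ∈ Z, mP P := ⟨_, rfl⟩
  have hprod : 1 ≤ ∏ P ∈ Z, mP P := Nat.one_le_iff_ne_zero.2
    (Finset.prod_ne_zero_iff.2 fun P _ => by have := hmP P; omega)
  have hR1 : m1 + 1 ≤ R := by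
    rw [hR]
    exact Nat.le_mul_of_pos_right _ hprod
  obtain ⟨s', hs'⟩ : ∃ s', s' = R * s1 := ⟨_, rfl⟩
  obtain ⟨s, hs⟩ : ∃ s, s = M * R * s1 := ⟨_, rfl⟩
  have hss' : s = M * s' := by rw [hs, hs', Nat.mul_assoc]
  have hs1' : 1 ≤ s := by
    rw [hs]
    exact Nat.mul_pos (Nat.mul_pos hM1 (by omega)) hs1pos
  obtain ⟨η0, hη0⟩ : ∃ η0 : K, η0 = k1 ^ (M * R) := ⟨_, rfl⟩
  have hη00 : η0 ≠ 0 := by
    rw [hη0]
    exact pow_ne_zero _ hk10
  have hη0s : Sec y T A s (M * R * b1) η0 := by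
    rw [hη0, hs]
    exact hk1'.pow (M * R)
  have hdvd : ∀ P ∈ Z, mP P * (M * R / mP P) = M * R := by
    intro P hP
    apply Nat.mul_div_cancel'
    rw [hR]
    exact ((Finset.dvd_prod_of_mem mP hP).mul_left _).mul_left _
  obtain ⟨G, hG⟩ : ∃ G : Place ℂ K → K, ∀ P, G P = g P ^ (M * R / mP P) := ⟨_, fun _ => rfl⟩
  have hG0 : ∀ P, G P ≠ 0 := fun P => by
    rw [hG]
    exact pow_ne_zero _ (hg0 P)
  have hGs : ∀ P ∈ Z, Sec y T A s (M * R * b1) (G P) := by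
    intro P hP
    have h1 := (hg P).pow (M * R / mP P)
    have h2 : M * R / mP P * (mP P * s1) = s := by
      rw [hs, ← Nat.mul_assoc, Nat.mul_comm (M * R / mP P), hdvd P hP]
    have h3 : M * R / mP P * (mP P * b1) = M * R * b1 := by
      rw [← Nat.mul_assoc, Nat.mul_comm (M * R / mP P), hdvd P hP]
    rw [h2, h3] at h1
    rw [hG]
    exact h1
  have hGo : ∀ P ∈ Z, ((P.ord (G P) : ℤ) : ℝ) ≤
      s * (((κ P : ℝ) + 1) / M) - s * (T P : ℝ) := by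
    intro P hP
    obtain ⟨r, hr⟩ : ∃ r, r = M * R / mP P := ⟨_, rfl⟩
    rw [hG, P.ord_pow, ← hr]
    have h1 := hgo P hP
    have h2 := mul_le_mul_of_nonneg_left h1
      (show (0 : ℝ) ≤ (r : ℝ) from Nat.cast_nonneg _)
    have h3 : (r : ℝ) * ((mP P : ℝ) * s1) = s := by
      have h4 : r * (mP P * s1) = s := by
        rw [hs, ← Nat.mul_assoc, Nat.mul_comm r, hr, hdvd P hP]
      exact_mod_cast h4
    push_cast
    rw [← h3]
    linarith
  -- a general section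
  obtain ⟨v, hv, hv0, hvo⟩ := exists_generic (k₀ := ℂ) (k := ℂ)
    (S := ((insert η0 (Z.image G) : Finset K) : Set K)) (Finset.finite_toSet _)
    (Z : Set (Place ℂ K)) (Finset.finite_toSet _) ⟨η0, by simp, hη00⟩
  have hvs : Sec y T A s (M * R * b1) v := by
    intro P hP
    obtain ⟨c, hc⟩ : ∃ c : ℤ, c = ⌈-((s : ℚ) * T P + (M * R * b1 : ℕ) * A P)⌉ := ⟨_, rfl⟩
    have h1 : ∀ k : K, Sec y T A s (M * R * b1) k → k ∈ geSub ℂ P c := by
      intro k hk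
      rw [mem_geSub]
      right
      rw [hc, Int.ceil_le]
      have := hk P hP
      linarith
    have h2 : v ∈ geSub ℂ P c := by
      refine (Submodule.span_le.2 ?_) hv
      intro k hk
      rw [Finset.mem_coe, Finset.mem_insert, Finset.mem_image] at hk
      rcases hk with rfl | ⟨P', hP', rfl⟩
      · exact h1 _ hη0s
      · exact h1 _ (hGs P' hP')
    have h3 := (mem_geSub.1 h2).resolve_left hv0
    rw [hc, Int.ceil_le] at h3
    linarith
  -- the degree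
  obtain ⟨B, hB⟩ : ∃ B : ℕ, B = ⌊(μ + ε) * (s : ℝ)⌋₊ := ⟨_, rfl⟩
  have hsm : m1 ≤ s := by
    rw [hs]
    calc m1 ≤ R := by omega
      _ ≤ M * R * s1 := by
        rw [Nat.mul_comm M R, Nat.mul_assoc]
        exact Nat.le_mul_of_pos_right _ (Nat.mul_pos hM1 hs1pos)
  have hbm : ((M * R * b1 : ℕ) : ℝ) ≤ t1 * s := by
    rw [hs]
    push_cast
    have h1 := mul_le_mul_of_nonneg_left hb1t (show (0 : ℝ) ≤ M * R by positivity)
    linarith
  obtain ⟨q, hq0, hq⟩ := norm_bound hy hn hn0 hi (w := v / η0) (B := B) fun u hu => by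
    rw [hB]
    exact Nat.le_floor (hd s _ hsm hbm η0 v hη00 hv0 hη0s hvs u hu)
  have hq' : ∀ P, IsPrimeDivisor y P → (0 : ℝ) ≤ (P.ord q : ℝ) + B * (A P : ℝ) ∧
      (P.ord η0 : ℝ) - P.ord v ≤ (P.ord q : ℝ) + B * (A P : ℝ) := by
    intro P hP
    obtain ⟨l, hl⟩ := exists_centred hy P
    obtain ⟨h1, h2⟩ := hq P l hl
    rw [P.ord_div hv0 hη00] at h2
    have h3 : (A P : ℝ) = ((P.ord (y i / y l) : ℤ) : ℝ) := by
      rw [hAP P l hP hl]
      norm_cast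
    rw [h3]
    refine ⟨by exact_mod_cast h1, ?_⟩
    have h4 : P.ord η0 - P.ord v ≤ P.ord q + B * P.ord (y i / y l) := by omega
    exact_mod_cast h4
  have hf1' : ∀ P, IsPrimeDivisor y P → (if P ∈ Z then (1 : ℝ) else 0) ≤
      (P.ord f1 : ℝ) + β1 * (A P : ℝ) := by
    intro P hP
    have h1 := hf1 P hP
    split_ifs at h1 ⊢
    · exact_mod_cast h1
    · exact_mod_cast h1
  -- the lower bounds
  have hlow : ∀ P : Place ℂ K, ∃ (t : ℝ) (m0 : ℕ), 0 < t ∧ (P ∈ Z → ∀ m b : ℕ, m0 ≤ m →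
      (b : ℝ) ≤ t * m → ∀ k : K, k ≠ 0 → Sec y T A m b k →
        (m : ℝ) * ((κ P : ℝ) / M) ≤ (P.ord k : ℝ) + m * (T P : ℝ) + b * (A P : ℝ)) := by
    intro P
    by_cases hP : P ∈ Z
    · obtain ⟨t, ht, m0, h⟩ := (hκ P hP).1
      exact ⟨t, m0, ht, fun _ => h⟩
    · exact ⟨1, 0, one_pos, fun h => absurd h hP⟩
  choose tP m0P htP hlowP using hlow
  have hsum0 : 0 ≤ ∑ P ∈ Z, (tP P)⁻¹ := Finset.sum_nonneg fun P _ => (inv_pos.2 (htP P)).le
  refine ⟨s, B + s' * β1, M, η0 / (q * f1 ^ s'), fun P => if P ∈ Z then κ P else 0,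
    (∑ P ∈ Z, (tP P)⁻¹ + 1)⁻¹, ∑ P ∈ Z, m0P P, hs1', hM1,
    div_ne_zero hη00 (mul_ne_zero hq0 (pow_ne_zero _ hf10)), by positivity, ?_, ?_, ?_⟩
  · push_cast
    have h1 : (B : ℝ) ≤ (μ + ε) * s := by
      rw [hB]
      exact Nat.floor_le (by positivity)
    have h2 : (s' : ℝ) * β1 ≤ ε * s := by
      rw [hss']
      push_cast
      have h3 := mul_le_mul_of_nonneg_left hMβ (show (0 : ℝ) ≤ s' from Nat.cast_nonneg _)
      linarith
    linarith
  · intro P hP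
    obtain ⟨h1, h2⟩ := hq' P hP
    have h3 := hf1' P hP
    have hA0 : (0 : ℝ) ≤ A P := by exact_mod_cast hA.1 P hP
    rw [P.ord_div hη00 (mul_ne_zero hq0 (pow_ne_zero _ hf10)),
      P.ord_mul hq0 (pow_ne_zero _ hf10), P.ord_pow]
    push_cast
    have hs'0 : (0 : ℝ) ≤ s' := Nat.cast_nonneg _
    have h4 := mul_le_mul_of_nonneg_left h3 hs'0
    by_cases hPZ : P ∈ Z
    · rw [if_pos hPZ] at h4
      rw [if_pos hPZ]
      have h5 := hvo P (Finset.mem_coe.2 hPZ) (G P) (by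
        rw [Finset.mem_coe, Finset.mem_insert]
        exact Or.inr (Finset.mem_image_of_mem _ hPZ)) (hG0 P)
      have h6 : (P.ord v : ℝ) ≤ ((P.ord (G P) : ℤ) : ℝ) := by exact_mod_cast h5
      have h7 := hGo P hPZ
      have h8 : (s : ℝ) * (((κ P : ℝ) + 1) / M) = s * ((κ P : ℝ) / M) + s' := by
        rw [hss']
        push_cast
        field_simp
      rw [h8] at h7
      linarith
    · rw [if_neg hPZ] at h4
      rw [if_neg hPZ]
      have h5 : (P.ord k1 : ℚ) + s1 * T P + b1 * A P = 0 := by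
        by_contra h6
        exact hPZ ((hZ P).2 ⟨hP, h6⟩)
      have h6 : (P.ord k1 : ℝ) = -(s1 * (T P : ℝ)) - b1 * (A P : ℝ) := by
        have h7 : (P.ord k1 : ℚ) = -(s1 * T P) - b1 * A P := by linarith
        exact_mod_cast h7
      have h7 : (P.ord η0 : ℝ) = -(s * (T P : ℝ)) - (M * R * b1) * (A P : ℝ) := by
        rw [hη0, P.ord_pow, hs]
        push_cast
        rw [h6]
        ring
      rw [h7]
      have h8 : (0 : ℝ) ≤ (M * R * b1) * (A P : ℝ) := by positivity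
      push_cast
      rw [zero_div, mul_zero]
      linarith
  · intro m b' hm hb' k hk0 hk P hP
    by_cases hPZ : P ∈ Z
    · simp only [if_pos hPZ]
      refine hlowP P hPZ m b' ?_ (hb'.trans ?_) k hk0 hk
      · exact (Finset.single_le_sum (f := m0P) (fun _ _ => Nat.zero_le _) hPZ).trans hm
      · refine mul_le_mul_of_nonneg_right ?_ (Nat.cast_nonneg _)
        rw [inv_le_comm₀ (by positivity) (htP P)]
        have h1 := Finset.single_le_sum (f := fun P => (tP P)⁻¹)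
          (fun P _ => (inv_pos.2 (htP P)).le) hPZ
        linarith
    · simp only [if_neg hPZ]
      rw [Nat.cast_zero, zero_div, mul_zero]
      exact_mod_cast hk P hP

end

end Pool.Agent.R887
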