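import Pool.Agent.R887.PsC
import Pool.Agent.R887.NormF

/-!
The pull back of a section under a multi-valued map as a section over the covering, and the degrees
of the maps given by sections.
-/

set_option autoImplicit false
set_option linter.overlappingInstances false
set_option linter.unusedSectionVars false

open FF Module MvPolynomial Pool.Agent.W602.GT Pool.Agent.W603.LV Pool.Agent.W619.PQ
open Pool.Agent.Y172 Pool.Agent.Y191

namespace Pool.Agent.R887

section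

variable {K' : Type} [Field K'] [Algebra ℂ K'] {N' n : ℕ} {y' : Fin (N' + 1) → K'}

/-- functions and forms -/
theorem section_frm {Δ' A' : Place ℂ K' → ℚ} {x' : Fin n → K'}
    {E' : Fin n → Derivation ℂ K' K'} (hE' : ∀ i j, E' i (x' j) = if i = j then 1 else 0)
    {c' : Place ℂ K' → ℤ} (hc' : ∀ P, IsPrimeDivisor y' P → ∀ (m : ℕ)
      (ω : (Fin n → Derivation ℂ K' K') → K'), IsPluri m ω → ∀ r : ℚ, OrdGe P ω r ↔
        (ω E' = 0 ∨ r ≤ m * c' P + P.ord (ω E'))) {m b : ℕ} {k : K'}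
    (hk : Sec y' (fun P => c' P + Δ' P) A' m b k) :
    IsSection y' n m (m • Δ' + b • A') (frm x' m k) := by
  refine ⟨frm_pluri _ _ _, fun P hP => (hc' P hP m _ (frm_pluri _ _ _) _).2 (Or.inr ?_)⟩
  have h1 := hk P hP
  simp only [] at h1
  rw [frm_self hE', Pi.add_apply, Pi.smul_apply, Pi.smul_apply, nsmul_eq_mul, nsmul_eq_mul]
  linarith

/-- the degrees of the quotients of the sections -/
theorem sec_deg {Δ' A' : Place ℂ K' → ℚ} (hA' : Effective y' A') {x' : Fin n → K'}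
    {E' : Fin n → Derivation ℂ K' K'} (hE' : ∀ i j, E' i (x' j) = if i = j then 1 else 0)
    {c' : Place ℂ K' → ℤ} (hc' : ∀ P, IsPrimeDivisor y' P → ∀ (m : ℕ)
      (ω : (Fin n → Derivation ℂ K' K') → K'), IsPluri m ω → ∀ r : ℚ, OrdGe P ω r ↔
        (ω E' = 0 ∨ r ≤ m * c' P + P.ord (ω E'))) {μ : ℝ}
    (hpp : PositiveProductLe y' n Δ' 1 μ) :
    ∀ ε : ℝ, 0 < ε → ∃ t : ℝ, 0 < t ∧ ∃ m0 : ℕ, ∀ m b : ℕ, m0 ≤ m → (b : ℝ) ≤ t * m →
      ∀ k k' : K', k ≠ 0 → k' ≠ 0 → Sec y' (fun P => c' P + Δ' P) A' m b k →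
      Sec y' (fun P => c' P + Δ' P) A' m b k' →
      ∀ u : Fin (n - 1) → K', (∀ a, IsPencil y' (u a)) →
        (degreeOver u (fun _ : Fin 1 => k' / k) : ℝ) ≤ (μ + ε) * m := by
  intro ε hε
  obtain ⟨t, ht, m0, h⟩ := hpp A' hA' ε hε
  refine ⟨t, ht, m0, fun m b hm hb k k' hk0 hk0' hk hk' u hu => ?_⟩
  have h1 := h m b hm hb u hu ![frm x' m k, frm x' m k'] E' (by
    intro a
    fin_cases a
    · exact section_frm hE' hc' hk
    · exact section_frm hE' hc' hk') (by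
    change frm x' m k E' ≠ 0
    rwa [frm_self hE'])
  have h2 : (fun a : Fin 1 => (![frm x' m k, frm x' m k'] :
      Fin 2 → (Fin n → Derivation ℂ K' K') → K') a.succ E' /
      (![frm x' m k, frm x' m k'] : Fin 2 → (Fin n → Derivation ℂ K' K') → K') 0 E') =
      fun _ => k' / k := by
    funext a
    fin_cases a
    change frm x' m k' E' / frm x' m k E' = _
    rw [frm_self hE', frm_self hE']
  rw [h2, pow_one] at h1
  exact h1

end

section

variable {K K' L : Type} [Field K] [Algebra ℂ K] [Field K'] [Algebra ℂ K'] [Field L] [Algebra ℂ L]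
  [Algebra K L] [IsScalarTower ℂ K L] [FiniteDimensional K L] [Algebra K' L]
  [IsScalarTower ℂ K' L] [FiniteDimensional K' L] {N N' : ℕ} {y : Fin (N + 1) → K}
  {y' : Fin (N' + 1) → K'} {n : ℕ}

/-- **The pull back of a section is a section over the covering.** -/
theorem pull_sec (hy : NormalModel y) (hn : Algebra.trdeg ℂ K = n) (hy' : NormalModel y')
    (hn' : Algebra.trdeg ℂ K' = n) {Δ A : Place ℂ K → ℚ} (hA : Effective y A)
    (hLC : LogCanonical y n Δ) {Δ' : Place ℂ K' → ℚ} (hΔ' : Effective y' Δ')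
    (hun : Unram L y' {P | 1 ≤ Δ' P})
    (hmap : MapOut2 y n Δ (fun Q : Place ℂ L => ∀ Q' e, Over Q Q' e →
      IsPrimeDivisor y' Q' ∧ Q' ∉ {P : Place ℂ K' | 1 ≤ Δ' P})) {x : Fin n → K}
    {E : Fin n → Derivation ℂ K K} (hx : IsTranscendenceBasis ℂ x)
    (hE : ∀ i j, E i (x j) = if i = j then 1 else 0) (hfr : IsFrame E)
    {x' : Fin n → K'} {E' : Fin n → Derivation ℂ K' K'} (hx' : IsTranscendenceBasis ℂ x')
    (hE' : ∀ i j, E' i (x' j) = if i = j then 1 else 0) {D : Fin n → Derivation ℂ L L}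
    (hD : ∀ i f, D i (algebraMap K' L f) = algebraMap K' L (E' i f)) {c' : Place ℂ K' → ℤ}
    (hc' : ∀ P, IsPrimeDivisor y' P → ∀ (m : ℕ)
      (ω : (Fin n → Derivation ℂ K' K') → K'), IsPluri m ω → ∀ r : ℚ, OrdGe P ω r ↔
        (ω E' = 0 ∨ r ≤ m * c' P + P.ord (ω E'))) {i : Fin (N' + 1)} (hi : y' i ≠ 0)
    {A' : Place ℂ K' → ℚ}
    (hAP : ∀ P l, IsPrimeDivisor y' P → Centred y' l P → A' P = P.ord (y' i / y' l)) :
    ∃ (f : K') (β : ℕ), f ≠ 0 ∧ ∀ m b : ℕ, 1 ≤ m → ∀ ω, IsSection y n m (m • Δ + b • A) ω →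
      ω E ≠ 0 → pull L x E m ω D * algebraMap K' L f ^ b ≠ 0 ∧
      ∀ (Q : Place ℂ L) (P' : Place ℂ K') (e : ℕ), Over Q P' e → IsPrimeDivisor y' P' →
        0 ≤ (Q.ord (pull L x E m ω D * algebraMap K' L f ^ b) : ℚ) +
          e * (m * (c' P' + Δ' P') + (b * β : ℕ) * A' P') := by
  classical
  have hess := hy.ess
  have hess' := hy'.ess
  have hDfr : IsFrame D := fun F => ⟨fun j => F (algebraMap K' L (x' j)),
    (Pool.Agent.W73.PG.PULL.expand _ (hx'.algebraMap_comp (A := L)) D (lift_dual hE' hD) F).symm⟩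
  choose t htc ht0 hb using fun j => disc_bound2 (Δ := Δ) (n := n) hy hA hfr j
  obtain ⟨f, β, hf0, hfb⟩ := correct (L := L) hy' hi (fun j => algebraMap K L (t j))
    (fun j => by rw [Ne, map_eq_zero]; exact ht0 j) 1
  have hfL : algebraMap K' L f ≠ 0 := by rwa [Ne, map_eq_zero]
  have hdet : (Matrix.of fun i j => D i (algebraMap K L (x j))).det ≠ 0 := pull_ne hn hE hDfr
  refine ⟨f, β, hf0, fun m b hm ω hω hω0 => ?_⟩
  have hp0 : pull L x E m ω D ≠ 0 := by
    refine mul_ne_zero (pow_ne_zero _ hdet) ?_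
    rwa [Ne, map_eq_zero]
  refine ⟨mul_ne_zero hp0 (pow_ne_zero _ hfL), fun Q P' e' hov' hP' => ?_⟩
  have hov := over_bel K Q
  have hdP' : Divisorial n P' := hP'.divisorial hy' hn'
  have hdQ : Divisorial n Q := divisorial_up hov' hdP'
  have hPd : Divisorial n (bel K Q) := divisorial_down hov hdQ
  obtain ⟨j, hj⟩ := exists_centred hy (bel K Q)
  obtain ⟨l, hl⟩ := exists_centred hy' P'
  have hz : OrdEq P' (frm x' 1 (1 : K')) ((1 : ℕ) * c' P' + P'.ord (frm x' 1 (1 : K') E')) :=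
    ordEq_of_val hc' hP' (frm_pluri x' 1 1) (by rw [frm_self hE']; exact one_ne_zero)
  rw [frm_self hE', P'.ord_one] at hz
  have hfb' := hfb Q P' e' hov' hP' l hl j
  rw [hov'.2 (y' i / y' l)] at hfb'
  have ho := hAP P' l hP' hl
  have he1 : (1 : ℚ) ≤ e' := by exact_mod_cast hov'.1
  have hm0 : (0 : ℚ) < m := by exact_mod_cast hm
  have hb0 : (0 : ℚ) ≤ b := Nat.cast_nonneg _
  have hram : (0 : ℚ) < ram K Q := by exact_mod_cast hov.1
  -- the order of the section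
  have hgen : ∀ α : ℚ, LogDisc y n Δ (bel K Q) α →
      (m * (ram K Q * α - e') - b * Q.ord (algebraMap K L (t j)) - m * e' * c' P' : ℚ) ≤
        Q.ord (pull L x E m ω D) := by
    intro α hα
    have h1 := hb j (bel K Q) hj α hα m b hm ω hω
    obtain ⟨c1, hc1⟩ : ∃ c1 : ℤ, c1 = ⌈(m : ℚ) * (α - 1)⌉ - b * (bel K Q).ord (t j) := ⟨_, rfl⟩
    have h2 : OrdGe (bel K Q) ω c1 := by
      intro E' hE'
      refine (h1 E' hE').imp_right fun h => ?_
      have h3 : (m : ℚ) * (α - 1) ≤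
          (((bel K Q).ord (ω E') + b * (bel K Q).ord (t j) : ℤ) : ℚ) := by
        push_cast
        linarith
      have h4 := Int.ceil_le.2 h3
      rw [hc1]
      have h5 : ⌈(m : ℚ) * (α - 1)⌉ - b * (bel K Q).ord (t j) ≤ (bel K Q).ord (ω E') := by
        omega
      exact_mod_cast h5
    have h3 := (ratio_bound hn hn' hx' hE' hD hx hE (frm_pluri x' 1 1) hov' hdP' hz hov hPd hω.1
      h2 hp0).2
    rw [frm_self hE', map_one, one_pow, div_one, pow_one] at h3
    refine le_trans ?_ h3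
    rw [hc1, hov.2]
    push_cast
    have h4 : (m : ℚ) * (α - 1) ≤ ⌈(m : ℚ) * (α - 1)⌉ := Int.le_ceil _
    have h5 := mul_le_mul_of_nonneg_left h4 hram.le
    have h6 : (m * (ram K Q * α - e') - b * (ram K Q * (bel K Q).ord (t j)) : ℚ) ≤
        m * (ram K Q - e') + ram K Q * (⌈(m : ℚ) * (α - 1)⌉ - b * (bel K Q).ord (t j)) := by
      nlinarith
    linarith
  have hfb2 : (Q.ord (algebraMap K L (t j)) : ℚ) ≤ Q.ord (algebraMap K' L f) +
      β * (e' * A' P') := by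
    rw [ho]
    rw [Nat.cast_one, one_mul] at hfb'
    exact_mod_cast hfb'
  have hfb3 := mul_le_mul_of_nonneg_left hfb2 hb0
  rw [Q.ord_mul hp0 (pow_ne_zero _ hfL), Q.ord_pow]
  push_cast
  by_cases hS : 1 ≤ Δ' P'
  · have h1 := hgen 0 (lc_disc hLC hPd)
    have h2 : (0 : ℚ) ≤ m * (e' * (Δ' P' - 1)) :=
      mul_nonneg hm0.le (mul_nonneg (by linarith) (by linarith))
    linarith
  · have h0 : e' = 1 := hun Q P' e' hP' hS hov'
    obtain ⟨α, hα, hα1⟩ := hmap Q (fun Q1 e1 h1 => by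
      obtain ⟨h2, -⟩ := bel_eq K' h1
      obtain ⟨h3, -⟩ := bel_eq K' hov'
      rw [← h2, h3]
      exact ⟨hP', hS⟩) _ _ hov
    have h1 := hgen α hα
    have h3 : (0 : ℚ) ≤ m * (ram K Q * α - 1) := mul_nonneg hm0.le (by linarith)
    have h4 : (0 : ℚ) ≤ m * Δ' P' := mul_nonneg hm0.le (hΔ'.1 P' hP')
    rw [h0] at h1 hfb3 ⊢
    push_cast at h1 hfb3 ⊢
    linarith

/-- **The degrees of the maps given by the sections.** -/
theorem deg_step (hn : Algebra.trdeg ℂ K = n) (hnL : Algebra.trdeg ℂ L = n)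
    {A Δ : Place ℂ K → ℚ} (φ : K →ₐ[ℂ] L) (ψ : K' →ₐ[ℂ] L)
    (hφ : ∀ f, φ f = algebraMap K L f) (hψ : ∀ f, ψ f = algebraMap K' L f)
    (hdeg : mapDegree φ = Module.finrank K L)
    {i : Fin (N' + 1)} (hi : y' i ≠ 0) {E : Fin n → Derivation ℂ K K} (hfr : IsFrame E)
    {j : ℕ} (hj : j ≤ n) {c : ℝ} (hc0 : 0 ≤ c) (hφ2 : MultiDegreeLe φ ψ y y' (n - j) j c)
    {s B m b : ℕ} (hs : 1 ≤ s) {F : ((Fin n → Derivation ℂ K K) → K) → L}
    (hF1 : ∀ ω, IsSection y n m (m • Δ + b • A) ω → ω E ≠ 0 → F ω ≠ 0 ∧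
      Bnd ℂ (affL L y' i) B (F ω))
    (hF2 : ∀ ω ω', IsSection y n m (m • Δ + b • A) ω → IsSection y n m (m • Δ + b • A) ω' →
      ω E ≠ 0 → ω' E ≠ 0 → F ω' / F ω = algebraMap K L (ω' E / ω E) ^ s)
    {u : Fin (n - j) → K} (hu : ∀ a, IsPencil y (u a))
    {ω : Fin (j + 1) → (Fin n → Derivation ℂ K K) → K} {E' : Fin n → Derivation ℂ K K}
    (hω : ∀ i, IsSection y n m (m • Δ + b • A) (ω i)) (hω0 : ω 0 E' ≠ 0) :
    (s : ℝ) ^ j * (degreeOver u (fun i : Fin j => ω i.succ E' / ω 0 E') : ℝ) ≤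
      c * B ^ j := by
  classical
  have hdeg0 : (0 : ℝ) < Module.finrank K L := by
    exact_mod_cast Module.finrank_pos
  have hs0 : (0 : ℝ) < s := by exact_mod_cast hs
  obtain ⟨w, hw⟩ : ∃ w : Fin j → K, w = fun i => ω i.succ E' / ω 0 E' := ⟨_, rfl⟩
  rw [← hw, degreeOver_eq]
  by_cases h0 : dg ℂ (Sum.elim u w) = 0
  · rw [h0]
    push_cast
    rw [mul_zero]
    positivity
  have hcard : Nat.card (Fin (n - j) ⊕ Fin j) = n := by
    rw [Nat.card_eq_fintype_card, Fintype.card_sum, Fintype.card_fin, Fintype.card_fin]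
    omega
  have hbas := basis_of_dg (k := ℂ) (w := Sum.elim u w) (by rw [hn, hcard]) h0
  -- the sections are not zero
  have hωE : ∀ i, ω i E ≠ 0 := by
    intro i
    have h1 := (ratio_frame hfr (hω 0).1 (hω 0).1 hω0).1
    refine Fin.cases h1 (fun i => ?_) i
    intro h2
    have h3 := (ratio_frame hfr (hω 0).1 (hω i.succ).1 hω0).2
    rw [h2, zero_div] at h3
    have h4 := hbas.1.ne_zero (Sum.inr i)
    rw [Sum.elim_inr, hw] at h4
    exact h4 h3
  -- replace the sections by pencils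
  obtain ⟨w', hw'⟩ : ∃ w' : Fin (n - j) ⊕ Fin j → K, w' = fun i =>
      if i ∈ Finset.univ.image (Sum.inr : Fin j → Fin (n - j) ⊕ Fin j) then
        Sum.elim u w i ^ s else Sum.elim u w i := ⟨_, rfl⟩
  have hpow := dg_pow_all (k := ℂ) (by rw [hn, hcard]) (Sum.elim u w)
    (Finset.univ.image Sum.inr) (q := s) hs h0
  rw [Finset.card_image_of_injective _ Sum.inr_injective, Finset.card_univ, Fintype.card_fin,
    ← hw'] at hpow
  have hw'r : ∀ i, w' (Sum.inr i) = w i ^ s := by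
    intro i
    rw [hw']
    simp
  have hw'l : ∀ i, w' (Sum.inl i) = u i := by
    intro i
    rw [hw']
    simp
  have hwE : ∀ i, algebraMap K L (w' (Sum.inr i)) = F (ω i.succ) / F (ω 0) := by
    intro i
    rw [hF2 _ _ (hω 0) (hω i.succ) (hωE 0) (hωE i.succ), hw'r, hw, map_pow]
    congr 2
    exact (ratio_frame hfr (hω 0).1 (hω i.succ).1 hω0).2
  obtain ⟨v, hv1, hv2, hv3⟩ := replace_all (k := ℂ) (K := L) (ι := Fin (n - j) ⊕ Fin j)
    (by rw [hnL, hcard]) (S := affL L y' i) (Set.finite_range _)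
    ⟨i, by simp only []; rw [div_self hi, map_one]⟩ (B := B)
    (f₀ := F (ω 0)) (hF1 _ (hω 0) (hωE 0)).1 (hF1 _ (hω 0) (hωE 0)).2
    (Finset.univ.image Sum.inr) (fun i => algebraMap K L (w' i))
    (Sum.elim (fun _ => 1) fun i => F (ω i.succ)) (by
      intro i hi
      obtain ⟨a, -, rfl⟩ := Finset.mem_image.1 hi
      exact (hF1 _ (hω _) (hωE _)).1) (by
      intro i hi
      obtain ⟨a, -, rfl⟩ := Finset.mem_image.1 hi
      exact (hF1 _ (hω _) (hωE _)).2) (by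
      intro i hi
      obtain ⟨a, -, rfl⟩ := Finset.mem_image.1 hi
      exact hwE a)
  choose v' hv'1 hv'2 using fun k => pencil_of_span2 (y' := y') ψ (fun f => (hψ f).symm) hi
    (hv1 (Sum.inr k) (Finset.mem_image_of_mem _ (Finset.mem_univ k)))
  have h1 : dg ℂ v = degreeOver (fun a => φ (u a)) (fun i => ψ (v' i)) := by
    rw [degreeOver_eq]
    congr 1
    funext k
    rcases k with k | k
    · rw [hv2 (Sum.inl k) (by simp), hw'l]
      exact (hφ _).symm
    · exact hv'2 k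
  have h2 := hφ2 u hu v' hv'1
  rw [← h1, hdeg] at h2
  rw [dg_tower, Finset.card_image_of_injective _ Sum.inr_injective, Finset.card_univ,
    Fintype.card_fin, hpow] at hv3
  have h3 : ((s : ℝ) ^ j * dg ℂ (Sum.elim u w)) * Module.finrank K L ≤ (B : ℝ) ^ j * dg ℂ v := by
    exact_mod_cast hv3
  have h6 : ((s : ℝ) ^ j * dg ℂ (Sum.elim u w)) * Module.finrank K L ≤
      (c * B ^ j) * Module.finrank K L := by
    calc ((s : ℝ) ^ j * dg ℂ (Sum.elim u w)) * Module.finrank K L ≤ (B : ℝ) ^ j * dg ℂ v := h3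
      _ ≤ (B : ℝ) ^ j * (c * Module.finrank K L) :=
        mul_le_mul_of_nonneg_left h2 (by positivity)
      _ = (c * B ^ j) * Module.finrank K L := by ring
  exact le_of_mul_le_mul_right h6 hdeg0

end

end Pool.Agent.R887
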