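import Pool.Agent.R887.PsD

/-!
**The degree inequality for multi-valued maps of log canonical pairs.**
-/

set_option autoImplicit false
set_option linter.overlappingInstances false
set_option linter.unusedSectionVars false

open FF Module MvPolynomial Pool.Agent.W602.GT Pool.Agent.W603.LV Pool.Agent.W619.PQ
open Pool.Agent.Y172 Pool.Agent.Y191

namespace Pool.Agent.R887

section

variable {K K' L : Type} [Field K] [Algebra ℂ K] [Field K'] [Algebra ℂ K'] [Field L] [Algebra ℂ L]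
  [Algebra K L] [IsScalarTower ℂ K L] [FiniteDimensional K L] [Algebra K' L]
  [IsScalarTower ℂ K' L] [FiniteDimensional K' L] {N N' : ℕ} {y : Fin (N + 1) → K}
  {y' : Fin (N' + 1) → K'} {n : ℕ}

/-- the bound of a function from the bounds over the prime divisors -/
theorem bnd_of_prime (hy' : NormalModel y') {i : Fin (N' + 1)} (hi : y' i ≠ 0) {B : ℕ} {h : L}
    (h0 : h ≠ 0) (hh : ∀ (Q : Place ℂ L) (P' : Place ℂ K') (e : ℕ), Over Q P' e →
      IsPrimeDivisor y' P' → ∀ l, Centred y' l P' →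
        0 ≤ Q.ord h + B * Q.ord (algebraMap K' L (y' i / y' l))) :
    Bnd ℂ (affL L y' i) B h := by
  intro Q
  obtain ⟨l, hl⟩ := exists_centred hy' (bel K' Q)
  have hyl : algebraMap K' L (y' i / y' l) ≠ 0 := by
    rw [Ne, map_eq_zero]
    exact div_ne_zero hi hl.1
  obtain ⟨w, hw⟩ : ∃ w, w = h * algebraMap K' L (y' i / y' l) ^ B := ⟨_, rfl⟩
  have hordw : ∀ Q : Place ℂ L, Q.ord w = Q.ord h +
      B * Q.ord (algebraMap K' L (y' i / y' l)) := by
    intro Q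
    rw [hw, Q.ord_mul h0 (pow_ne_zero _ hyl), Q.ord_pow]
  have hw0 : w ≠ 0 := by
    rw [hw]
    exact mul_ne_zero h0 (pow_ne_zero _ hyl)
  have h2 : Q.Reg w := hartogs_up hy' (l := l) (fun Q1 P' e hov hP' hl' => Or.inr (by
    rw [hordw]
    exact hh Q1 P' e hov hP' l hl')) hl
  have h3 := (Q.reg_iff hw0).1 h2
  rw [hordw] at h3
  refine ⟨algebraMap K' L (y' l / y' i), ⟨l, rfl⟩, ?_, ?_⟩
  · rw [Ne, map_eq_zero]
    exact div_ne_zero hl.1 hi
  · have h4 : Q.ord (algebraMap K' L (y' l / y' i)) =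
        -Q.ord (algebraMap K' L (y' i / y' l)) := by
      rw [← Q.ord_inv, ← map_inv₀, inv_div]
    rw [h4]
    linarith

/-- **The degree inequality**, in terms of algebras. -/
theorem psef_aux (hy' : NormalModel y') (hn' : Algebra.trdeg ℂ K' = n) (hn0 : 0 < n)
    {Δ' : Place ℂ K' → ℚ} (hΔ' : Effective y' Δ') {μ : ℝ} (hμ : 0 ≤ μ)
    (hpp : PositiveProductLe y' n Δ' 1 μ) (hy : NormalModel y) (hn : Algebra.trdeg ℂ K = n)
    {Δ : Place ℂ K → ℚ} (hLC : LogCanonical y n Δ) (φ : K →ₐ[ℂ] L) (ψ : K' →ₐ[ℂ] L)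
    (hφ : ∀ f, φ f = algebraMap K L f) (hψ : ∀ f, ψ f = algebraMap K' L f)
    (hdeg : mapDegree φ = Module.finrank K L) (hun : Unram L y' {P | 1 ≤ Δ' P})
    (hmap : MapOut2 y n Δ (fun Q : Place ℂ L => ∀ Q' e, Over Q Q' e →
      IsPrimeDivisor y' Q' ∧ Q' ∉ {P : Place ℂ K' | 1 ≤ Δ' P})) {j : ℕ} (hj : j ≤ n) {c : ℝ}
    (hc : MultiDegreeLe φ ψ y y' (n - j) j c) : PositiveProductLe y n Δ j (c * μ ^ j) := by
  classical
  have hess := hy.ess
  have hess' := hy'.ess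
  have hnL : Algebra.trdeg ℂ L = n := trdeg_up (K := K') hn'
  have hc0 : 0 ≤ c := multi_nonneg hy hy' hc (by
    rw [hdeg]
    exact Module.finrank_pos)
  obtain ⟨x, E, hx, hE⟩ := exists_crd hn (k := ℂ) (K := K)
  have hfr : IsFrame E := fun F => ⟨fun j => F (x j),
    (Pool.Agent.W73.PG.PULL.expand x hx E hE F).symm⟩
  obtain ⟨x', E', hx', hE'⟩ := exists_crd hn' (k := ℂ) (K := K')
  choose D hD using fun i => exists_lift (L := L) hn' (E' i)
  have hDfr : IsFrame D := fun F => ⟨fun j => F (algebraMap K' L (x' j)),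
    (Pool.Agent.W73.PG.PULL.expand _ (hx'.algebraMap_comp (A := L)) D (lift_dual hE' hD) F).symm⟩
  have hdet : (Matrix.of fun i j => D i (algebraMap K L (x j))).det ≠ 0 := pull_ne hn hE hDfr
  obtain ⟨c', hc'fin, hc'⟩ := exists_ordc hy' hn' hx' hE'
  obtain ⟨i, hi⟩ := hy'.ne
  obtain ⟨A', hA', hAP⟩ := exists_hyp hy' hi
  obtain ⟨T, hT⟩ : ∃ T : Place ℂ K' → ℚ, T = fun P => c' P + Δ' P := ⟨_, rfl⟩
  have hTfin : {P | IsPrimeDivisor y' P ∧ T P ≠ 0}.Finite := by
    refine (hc'fin.union hΔ'.2).subset ?_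
    rintro P ⟨hP, h0⟩
    by_cases h1 : c' P = 0
    · right
      refine ⟨hP, fun h2 => h0 ?_⟩
      rw [hT]
      simp only []
      rw [h1, h2, Int.cast_zero, zero_add]
    · exact Or.inl ⟨hP, h1⟩
  intro A hA ε hε
  obtain ⟨f, β, hf0, hps⟩ := pull_sec (L := L) hy hn hy' hn' hA hLC hΔ' hun hmap hx hE hfr hx'
    hE' hD hc' hi hAP
  have hfL : algebraMap K' L f ≠ 0 := by rwa [Ne, map_eq_zero]
  have hps' : ∀ m b : ℕ, 1 ≤ m → ∀ ω, IsSection y n m (m • Δ + b • A) ω → ω E ≠ 0 →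
      pull L x E m ω D * algebraMap K' L f ^ b ≠ 0 ∧
      ∀ (Q : Place ℂ L) (P' : Place ℂ K') (e : ℕ), Over Q P' e → IsPrimeDivisor y' P' →
        0 ≤ (Q.ord (pull L x E m ω D * algebraMap K' L f ^ b) : ℚ) +
          e * (m * T P' + (b * β : ℕ) * A' P') := by
    rw [hT]
    exact hps
  have hβ1 : (0 : ℝ) < (β : ℝ) + 1 := by positivity
  by_cases hpsT : PsT y' T A'
  swap
  · -- no sections
    unfold PsT at hpsT
    push Not at hpsT
    obtain ⟨t, ht, m0, hno⟩ := hpsT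
    obtain ⟨P0, hP0⟩ := exists_prime hy' hn' hn0
    obtain ⟨Q0, e0, hQ0⟩ := exists_above (k := ℂ) (K := K') (L := L) P0
    refine ⟨t / (β + 1), by positivity, m0 + 1, fun m b hm hb u hu ω F hω h0 => ?_⟩
    exfalso
    have hm1 : 1 ≤ m := by omega
    have hmr : (0 : ℝ) < m := by exact_mod_cast hm1
    have h1 := (ratio_frame hfr (hω 0).1 (hω 0).1 h0).1
    obtain ⟨h2, h3⟩ := hps' m b hm1 _ (hω 0) h1
    obtain ⟨M, k, hM, hk0, hk, -⟩ := descend h2 h3 hQ0
    refine hno (M * m) (M * (b * β)) k ?_ ?_ hk0 hk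
    · calc m0 ≤ m := by omega
        _ ≤ M * m := Nat.le_mul_of_pos_left m hM
    · have h4 : (b : ℝ) * β ≤ t * m := by
        have h5 := mul_le_mul_of_nonneg_right hb hβ1.le
        have h6 : t / ((β : ℝ) + 1) * m * (β + 1) = t * m := by field_simp
        have h7 : (0 : ℝ) ≤ b := Nat.cast_nonneg _
        linarith
      push_cast
      have h5 := mul_le_mul_of_nonneg_left h4 (show (0 : ℝ) ≤ M from Nat.cast_nonneg _)
      linarith
  obtain ⟨δ, hδ, hδ0⟩ : ∃ δ : ℝ, c * (μ + 3 * δ) ^ j < c * μ ^ j + ε ∧ 0 < δ := by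
    have h1 : Filter.Tendsto (fun δ : ℝ => c * ((μ : ℝ) + 3 * δ) ^ j) (nhds 0)
        (nhds (c * ((μ : ℝ) + 3 * 0) ^ j)) :=
      (((Filter.tendsto_id.const_mul 3).const_add _).pow j).const_mul c
    rw [mul_zero, add_zero] at h1
    have h2 : ∀ᶠ δ : ℝ in nhds 0, c * ((μ : ℝ) + 3 * δ) ^ j < c * μ ^ j + ε :=
      h1.eventually_lt_const (by linarith)
    have h3 : ∀ᶠ δ : ℝ in nhdsWithin 0 (Set.Ioi 0), c * ((μ : ℝ) + 3 * δ) ^ j < c * μ ^ j + ε :=
      h2.filter_mono nhdsWithin_le_nhds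
    have h4 : ∀ᶠ δ : ℝ in nhdsWithin (0 : ℝ) (Set.Ioi 0), 0 < δ := self_mem_nhdsWithin
    exact (h3.and h4).exists
  obtain ⟨s, a, M, θ, κ, t, m0, hs1, hM1, hθ0, ht, has, hθ, hlow⟩ :=
    exists_theta hy' hn' hn0 hi hTfin hA' hAP hμ (by
      rw [hT]
      exact sec_deg hA' hE' hc' hpp) hpsT hδ0
  have hθL : algebraMap K' L θ ≠ 0 := by rwa [Ne, map_eq_zero]
  have hs0 : (0 : ℝ) < s := by exact_mod_cast hs1
  refine ⟨min t δ / (β + 1), div_pos (lt_min ht hδ0) hβ1, m0 + 1,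
    fun m b hm hb u hu ω F hω h0 => ?_⟩
  have hm1 : 1 ≤ m := by omega
  have hmr : (0 : ℝ) < m := by exact_mod_cast hm1
  have hbβ : (b : ℝ) * β ≤ min t δ * m := by
    have h5 := mul_le_mul_of_nonneg_right hb hβ1.le
    have h6 : min t δ / ((β : ℝ) + 1) * m * (β + 1) = min t δ * m := by field_simp
    have h7 : (0 : ℝ) ≤ b := Nat.cast_nonneg _
    linarith
  have hbt : (b : ℝ) * β ≤ t * m :=
    hbβ.trans (mul_le_mul_of_nonneg_right (min_le_left _ _) hmr.le)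
  have hbδ : (b : ℝ) * β ≤ δ * m :=
    hbβ.trans (mul_le_mul_of_nonneg_right (min_le_right _ _) hmr.le)
  -- the orders of the pull backs
  have hord : ∀ ω, IsSection y n m (m • Δ + b • A) ω → ω E ≠ 0 → ∀ (Q : Place ℂ L)
      (P' : Place ℂ K') (e : ℕ), Over Q P' e → IsPrimeDivisor y' P' →
      (e : ℝ) * (m * ((κ P' : ℝ) / M)) ≤
        (Q.ord (pull L x E m ω D * algebraMap K' L f ^ b) : ℝ) +
          e * (m * (T P' : ℝ) + (b * β : ℝ) * (A' P' : ℝ)) := by
    intro ω hω hω0 Q P' e hov hP'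
    obtain ⟨h2, h3⟩ := hps' m b hm1 ω hω hω0
    obtain ⟨M', k, hM', hk0, hk, hk1⟩ := descend h2 h3 hov
    have hM'0 : (0 : ℝ) < M' := by exact_mod_cast hM'
    have h4 := hlow (M' * m) (M' * (b * β)) (by
      calc m0 ≤ m := by omega
        _ ≤ M' * m := Nat.le_mul_of_pos_left m hM') (by
      push_cast
      have h5 := mul_le_mul_of_nonneg_left hbt hM'0.le
      linarith) k hk0 hk P' hP'
    have h5 : (e : ℝ) * (P'.ord k : ℝ) ≤
        M' * (Q.ord (pull L x E m ω D * algebraMap K' L f ^ b) : ℝ) := by exact_mod_cast hk1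
    have h6 := mul_le_mul_of_nonneg_left h4 (show (0 : ℝ) ≤ e from Nat.cast_nonneg _)
    push_cast at h6
    have h7 : (M' : ℝ) * ((e : ℝ) * (m * ((κ P' : ℝ) / M))) ≤
        M' * ((Q.ord (pull L x E m ω D * algebraMap K' L f ^ b) : ℝ) +
          e * (m * (T P' : ℝ) + (b * β : ℝ) * (A' P' : ℝ))) := by linarith
    exact le_of_mul_le_mul_left h7 hM'0
  -- the functions
  obtain ⟨B, hB⟩ : ∃ B : ℕ, B = m * a + s * (b * β) := ⟨_, rfl⟩
  have hBr : (B : ℝ) = m * a + s * (b * β) := by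
    rw [hB]
    push_cast
    ring
  have h9 := deg_step (Δ := Δ) (A := A) (m := m) (b := b) (s := s) (B := B) hn hnL φ ψ hφ hψ hdeg
    hi hfr hj hc0 hc hs1
    (F := fun ω => (pull L x E m ω D * algebraMap K' L f ^ b) ^ s / algebraMap K' L θ ^ m)
    (fun ω hω hω0 => ?_) (fun ω ω' hω hω' h1 h2 => ?_) hu hω h0
  · -- the degrees
    have h10 : (B : ℝ) ≤ s * ((μ + 3 * δ) * m) := by
      rw [hBr]
      have h11 := mul_le_mul_of_nonneg_left has hmr.le
      have h12 := mul_le_mul_of_nonneg_left hbδ hs0.le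
      linarith
    have h11 : (B : ℝ) ^ j ≤ (s * ((μ + 3 * δ) * m)) ^ j :=
      pow_le_pow_left₀ (Nat.cast_nonneg _) h10 j
    have h12 := mul_le_mul_of_nonneg_left h11 hc0
    have h13 := h9.trans h12
    rw [mul_pow] at h13
    have h14 : (0 : ℝ) < (s : ℝ) ^ j := by positivity
    have h15 : (s : ℝ) ^ j *
        (degreeOver u (fun i : Fin j => ω i.succ F / ω 0 F) : ℝ) ≤
        s ^ j * (c * ((μ + 3 * δ) * m) ^ j) := by linarith
    have h16 := le_of_mul_le_mul_left h15 h14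
    refine h16.trans ?_
    rw [mul_pow, ← mul_assoc]
    exact mul_le_mul_of_nonneg_right hδ.le (by positivity)
  · -- the bounds
    obtain ⟨h2, -⟩ := hps' m b hm1 ω hω hω0
    have h3 : (pull L x E m ω D * algebraMap K' L f ^ b) ^ s / algebraMap K' L θ ^ m ≠ 0 :=
      div_ne_zero (pow_ne_zero _ h2) (pow_ne_zero _ hθL)
    refine ⟨h3, bnd_of_prime hy' hi h3 fun Q P' e hov hP' l hl => ?_⟩
    have h4 := hord ω hω hω0 Q P' e hov hP'
    have h5 := hθ P' hP'
    have h6 : (A' P' : ℝ) = ((P'.ord (y' i / y' l) : ℤ) : ℝ) := by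
      rw [hAP P' l hP' hl]
      norm_cast
    rw [Q.ord_div (pow_ne_zero _ h2) (pow_ne_zero _ hθL), Q.ord_pow, Q.ord_pow, hov.2, hov.2]
    have h7 : (0 : ℝ) ≤ ((s * Q.ord (pull L x E m ω D * algebraMap K' L f ^ b) -
        m * (e * P'.ord θ) + B * (e * P'.ord (y' i / y' l)) : ℤ) : ℝ) := by
      push_cast
      rw [← h6, hBr]
      have h8 := mul_le_mul_of_nonneg_left h4 hs0.le
      have h9 := mul_le_mul_of_nonneg_left h5 (show (0 : ℝ) ≤ m * e by positivity)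
      linarith
    exact_mod_cast h7
  · -- the quotients
    have h3 : algebraMap K L (ω E) ≠ 0 := by rwa [Ne, map_eq_zero]
    have h4 : algebraMap K' L f ^ b ≠ 0 := pow_ne_zero _ hfL
    have h5 : algebraMap K' L θ ^ m ≠ 0 := pow_ne_zero _ hθL
    have h6 : (Matrix.of fun i j => D i (algebraMap K L (x j))).det ^ m ≠ 0 :=
      pow_ne_zero _ hdet
    rw [div_div_div_cancel_right₀ h5, ← div_pow, mul_div_mul_right _ _ h4]
    congr 1
    rw [map_div₀]
    unfold pull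
    rw [mul_div_mul_left _ _ h6]

end

section

variable {K K' L : Type} [Field K] [Algebra ℂ K] [Field K'] [Algebra ℂ K'] [Field L] [Algebra ℂ L]
  {N N' : ℕ} {y : Fin (N + 1) → K} {y' : Fin (N' + 1) → K'} {n : ℕ}

/-- **The degree inequality for multi-valued maps of log canonical pairs.** -/
theorem psef_degree_le (hy' : NormalModel y') (hn' : Algebra.trdeg ℂ K' = n) (hn0 : 0 < n)
    {Δ' : Place ℂ K' → ℚ} (hΔ' : Effective y' Δ') {μ : ℝ} (hμ : 0 ≤ μ)
    (hpp : PositiveProductLe y' n Δ' 1 μ) (hy : NormalModel y) (hn : Algebra.trdeg ℂ K = n)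
    {Δ : Place ℂ K → ℚ} (hLC : LogCanonical y n Δ) (φ : K →ₐ[ℂ] L) (ψ : K' →ₐ[ℂ] L)
    (hψ0 : FiniteDimensional ψ.fieldRange L) (hun : UnramifiedOutside ψ y' {P | 1 ≤ Δ' P})
    (hφ1 : MultiPullBackLe φ ψ y n Δ y' {P | 1 ≤ Δ' P}) {j : ℕ} (hj : j ≤ n) {c : ℝ}
    (hc : MultiDegreeLe φ ψ y y' (n - j) j c) :
    0 ≤ c ∧ PositiveProductLe y n Δ j (c * μ ^ j) := by
  have hess' := hy'.ess
  have hess := hy.ess
  let _ : Algebra K L := φ.toRingHom.toAlgebra
  let _ : Algebra K' L := ψ.toRingHom.toAlgebra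
  have hst : IsScalarTower ℂ K L := IsScalarTower.of_algebraMap_eq fun c => (φ.commutes c).symm
  have hst' : IsScalarTower ℂ K' L := IsScalarTower.of_algebraMap_eq fun c => (ψ.commutes c).symm
  have hfd' : FiniteDimensional K' L := fd_of_range ψ hψ0
  have hessL : Algebra.EssFiniteType ℂ L := by
    have h1 : Algebra.EssFiniteType K' L := inferInstance
    exact Algebra.EssFiniteType.comp ℂ K' L
  have hnL : Algebra.trdeg ℂ L = n := trdeg_up (K := K') hn'
  have hfd : FiniteDimensional K L := finite_map hn hnL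
  have hdeg : mapDegree φ = Module.finrank K L := by
    unfold mapDegree
    let e : K ≃ₐ[ℂ] φ.fieldRange := AlgEquiv.ofInjectiveField φ
    refine (Algebra.finrank_eq_of_equiv_equiv e.toRingEquiv (RingEquiv.refl L) ?_).symm
    ext x
    rfl
  refine ⟨multi_nonneg hy hy' hc (by rw [hdeg]; exact Module.finrank_pos),
    psef_aux (L := L) hy' hn' hn0 hΔ' hμ hpp hy hn hLC φ ψ (fun _ => rfl) (fun _ => rfl) hdeg
      (fun Q Q' e hQ' hQS ho => hun Q' hQ' hQS Q e ho)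
      (fun Q hQ P e ho => by
        have hov := over_bel K' Q
        obtain ⟨h1, h2⟩ := hQ _ _ hov
        exact hφ1 _ h1 h2 Q _ hov P e ho) hj hc⟩

/-- **Self-correspondences of log canonical pairs.** -/
theorem psef_self_gap (hy : NormalModel y) (hn : Algebra.trdeg ℂ K = n) (hn0 : 0 < n)
    {Δ : Place ℂ K → ℚ} (hΔ : Effective y Δ) (hLC : LogCanonical y n Δ)
    (φ ψ : K →ₐ[ℂ] L) (hψ0 : FiniteDimensional ψ.fieldRange L)
    (hun : UnramifiedOutside ψ y {P | 1 ≤ Δ P})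
    (hφ1 : MultiPullBackLe φ ψ y n Δ y {P | 1 ≤ Δ P}) {c : ℝ}
    (hc : MultiDegreeLe φ ψ y y (n - 1) 1 c) (hc1 : c < 1) : NumDimLt y n Δ 1 := by
  have hfin : {P | IsPrimeDivisor y P ∧ P ∈ {P : Place ℂ K | 1 ≤ Δ P}}.Finite := by
    refine hΔ.2.subset ?_
    rintro P ⟨h1, h2⟩
    refine ⟨h1, ?_⟩
    have h3 : 1 ≤ Δ P := h2
    intro h4
    rw [h4] at h3
    linarith
  obtain ⟨C, -, h1⟩ := one_map_lc hy hn hn0 hfin
  obtain ⟨hc0, h2⟩ := h1 hy hn hLC φ ψ hψ0 hun.prime hφ1.prime 1 c (by omega) hc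
  have hall : ∀ k : ℕ, PositiveProductLe y n Δ 1 (c ^ k * (c * C ^ 1)) := by
    intro k
    induction k with
    | zero =>
      rw [pow_zero, one_mul]
      exact h2
    | succ k ih =>
      have h3 := (psef_degree_le hy hn hn0 hΔ (by positivity) ih hy hn hLC φ ψ hψ0 hun hφ1
        (j := 1) (by omega) hc).2
      rw [pow_one] at h3
      refine h3.mono (le_of_eq ?_)
      ring
  refine PositiveProductLe.numDimLt (PositiveProductLe.of_forall fun ε hε => ?_)
  have hlim : Filter.Tendsto (fun k : ℕ => c ^ k * (c * (C : ℝ) ^ 1)) Filter.atTop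
      (nhds (0 * (c * (C : ℝ) ^ 1))) :=
    (tendsto_pow_atTop_nhds_zero_of_lt_one hc0 hc1).mul_const _
  rw [zero_mul] at hlim
  obtain ⟨k, hk⟩ := (hlim.eventually_lt_const hε).exists
  exact ⟨_, by linarith, hall k⟩

end

end Pool.Agent.R887
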