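import Pool.Agent.R887.PsE

/-!
**Chains and cycles of multi-valued maps of log canonical pairs.**
-/

set_option autoImplicit false
set_option linter.overlappingInstances false
set_option linter.unusedSectionVars false

open FF Module MvPolynomial Pool.Agent.W602.GT Pool.Agent.W603.LV Pool.Agent.W619.PQ
open Pool.Agent.Y172 Pool.Agent.Y191

namespace Pool.Agent.R887

section

variable {K K' L : Type} [Field K] [Algebra ℂ K] [Field K'] [Algebra ℂ K'] [Field L] [Algebra ℂ L]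
  {N N' : ℕ} {y : Fin (N + 1) → K} {y' : Fin (N' + 1) → K'} {n : ℕ}

theorem multi_nonneg' (hy : NormalModel y) (hn : Algebra.trdeg ℂ K = n) (hy' : NormalModel y')
    (hn' : Algebra.trdeg ℂ K' = n) (φ : K →ₐ[ℂ] L) (ψ : K' →ₐ[ℂ] L)
    (hψ0 : FiniteDimensional ψ.fieldRange L) {i j : ℕ} {c : ℝ}
    (hc : MultiDegreeLe φ ψ y y' i j c) : 0 ≤ c := by
  have hess' := hy'.ess
  have hess := hy.ess
  let _ : Algebra K L := φ.toRingHom.toAlgebra
  let _ : Algebra K' L := ψ.toRingHom.toAlgebra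
  have hst : IsScalarTower ℂ K L := IsScalarTower.of_algebraMap_eq fun c => (φ.commutes c).symm
  have hst' : IsScalarTower ℂ K' L := IsScalarTower.of_algebraMap_eq fun c => (ψ.commutes c).symm
  have hfd' : FiniteDimensional K' L := fd_of_range ψ hψ0
  have hessL : Algebra.EssFiniteType ℂ L := by
    have h1 : Algebra.EssFiniteType K' L := inferInstance
    exact Algebra.EssFiniteType.comp ℂ K' L
  have hnL : Algebra.trdeg ℂ L = n := trdeg_up (K := K') hn'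
  have hfd : FiniteDimensional K L := finite_map hn hnL
  have hdeg : mapDegree φ = Module.finrank K L := by
    unfold mapDegree
    let e : K ≃ₐ[ℂ] φ.fieldRange := AlgEquiv.ofInjectiveField φ
    refine (Algebra.finrank_eq_of_equiv_equiv e.toRingEquiv (RingEquiv.refl L) ?_).symm
    ext x
    rfl
  exact multi_nonneg hy hy' hc (by rw [hdeg]; exact Module.finrank_pos)

end

section

variable {ι : Type} {K L : ι → Type} [∀ i, Field (K i)] [∀ i, Algebra ℂ (K i)]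
  [∀ i, Field (L i)] [∀ i, Algebra ℂ (L i)] {N : ι → ℕ} {y : ∀ i, Fin (N i + 1) → K i} {n : ℕ}

/-- **Chains of multi-valued maps.** -/
theorem chain_le (hy : ∀ i, NormalModel (y i)) (hn : ∀ i, Algebra.trdeg ℂ (K i) = n)
    (hn0 : 0 < n) {Δ : ∀ i, Place ℂ (K i) → ℚ} (hΔ : ∀ i, Effective (y i) (Δ i))
    (hLC : ∀ i, LogCanonical (y i) n (Δ i)) (σ : ι → ι) (φ : ∀ i, K i →ₐ[ℂ] L i)
    (ψ : ∀ i, K (σ i) →ₐ[ℂ] L i) (hψ : ∀ i, FiniteDimensional (ψ i).fieldRange (L i))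
    (hun : ∀ i, UnramifiedOutside (ψ i) (y (σ i)) {P | 1 ≤ Δ (σ i) P})
    (hpb : ∀ i, MultiPullBackLe (φ i) (ψ i) (y i) n (Δ i) (y (σ i)) {P | 1 ≤ Δ (σ i) P})
    {c : ι → ℝ} (hc : ∀ i, MultiDegreeLe (φ i) (ψ i) (y i) (y (σ i)) (n - 1) 1 (c i)) (k : ℕ) :
    ∀ i {μ : ℝ}, 0 ≤ μ → PositiveProductLe (y (σ^[k] i)) n (Δ (σ^[k] i)) 1 μ →
      0 ≤ (∏ l ∈ Finset.range k, c (σ^[l] i)) * μ ∧
      PositiveProductLe (y i) n (Δ i) 1 ((∏ l ∈ Finset.range k, c (σ^[l] i)) * μ) := by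
  induction k with
  | zero =>
    intro i μ hμ h
    rw [Finset.prod_range_zero, one_mul]
    exact ⟨hμ, h⟩
  | succ k ih =>
    intro i μ hμ h
    rw [Function.iterate_succ_apply] at h
    obtain ⟨h1, h2⟩ := ih (σ i) hμ h
    have h3 := psef_degree_le (hy (σ i)) (hn (σ i)) hn0 (hΔ (σ i)) h1 h2 (hy i) (hn i) (hLC i)
      (φ i) (ψ i) (hψ i) (hun i) (hpb i) (j := 1) (by omega) (hc i)
    rw [pow_one] at h3
    have h4 : (∏ l ∈ Finset.range (k + 1), c (σ^[l] i)) * μ =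
        c i * ((∏ l ∈ Finset.range k, c (σ^[l] (σ i))) * μ) := by
      rw [Finset.prod_range_succ']
      simp only [Function.iterate_succ_apply, Function.iterate_zero, id]
      ring
    rw [h4]
    exact ⟨mul_nonneg h3.1 h1, h3.2⟩

/-- the positive degree is finite -/
theorem finite_degree {K K' L : Type} [Field K] [Algebra ℂ K] [Field K'] [Algebra ℂ K'] [Field L]
    [Algebra ℂ L] {N N' : ℕ} {y : Fin (N + 1) → K} {y' : Fin (N' + 1) → K'} {n : ℕ}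
    (hy : NormalModel y) (hn : Algebra.trdeg ℂ K = n) (hn0 : 0 < n) {Δ : Place ℂ K → ℚ}
    (hLC : LogCanonical y n Δ) (hy' : NormalModel y') (hn' : Algebra.trdeg ℂ K' = n)
    {Δ' : Place ℂ K' → ℚ} (hΔ' : Effective y' Δ') (φ : K →ₐ[ℂ] L) (ψ : K' →ₐ[ℂ] L)
    (hψ0 : FiniteDimensional ψ.fieldRange L) (hun : UnramifiedOutside ψ y' {P | 1 ≤ Δ' P})
    (hφ1 : MultiPullBackLe φ ψ y n Δ y' {P | 1 ≤ Δ' P}) {c : ℝ}
    (hc : MultiDegreeLe φ ψ y y' (n - 1) 1 c) : ∃ μ : ℝ, 0 ≤ μ ∧ PositiveProductLe y n Δ 1 μ := by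
  have hfin : {P | IsPrimeDivisor y' P ∧ P ∈ {P : Place ℂ K' | 1 ≤ Δ' P}}.Finite := by
    refine hΔ'.2.subset ?_
    rintro P ⟨h1, h2⟩
    refine ⟨h1, ?_⟩
    have h3 : 1 ≤ Δ' P := h2
    intro h4
    rw [h4] at h3
    linarith
  obtain ⟨C, -, h1⟩ := one_map_lc hy' hn' hn0 hfin
  obtain ⟨hc0, h2⟩ := h1 hy hn hLC φ ψ hψ0 hun.prime hφ1.prime 1 c (by omega) hc
  exact ⟨c * C ^ 1, by positivity, h2⟩

/-- **Cycles of multi-valued maps.** -/
theorem cycle_gap [Finite ι] (hy : ∀ i, NormalModel (y i))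
    (hn : ∀ i, Algebra.trdeg ℂ (K i) = n) (hn0 : 0 < n) {Δ : ∀ i, Place ℂ (K i) → ℚ}
    (hΔ : ∀ i, Effective (y i) (Δ i)) (hLC : ∀ i, LogCanonical (y i) n (Δ i)) (σ : ι → ι)
    (φ : ∀ i, K i →ₐ[ℂ] L i) (ψ : ∀ i, K (σ i) →ₐ[ℂ] L i)
    (hψ : ∀ i, FiniteDimensional (ψ i).fieldRange (L i))
    (hun : ∀ i, UnramifiedOutside (ψ i) (y (σ i)) {P | 1 ≤ Δ (σ i) P})
    (hpb : ∀ i, MultiPullBackLe (φ i) (ψ i) (y i) n (Δ i) (y (σ i)) {P | 1 ≤ Δ (σ i) P})
    {c : ι → ℝ} (hc : ∀ i, MultiDegreeLe (φ i) (ψ i) (y i) (y (σ i)) (n - 1) 1 (c i)) {r : ℕ}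
    (hr : ∀ i, ∏ l ∈ Finset.range r, c (σ^[l] i) < 1) (i : ι) : NumDimLt (y i) n (Δ i) 1 := by
  classical
  have : Fintype ι := Fintype.ofFinite ι
  have hc0 : ∀ i, 0 ≤ c i := fun i =>
    multi_nonneg' (hy i) (hn i) (hy (σ i)) (hn (σ i)) (φ i) (ψ i) (hψ i) (hc i)
  choose μ hμ0 hμ using fun i => finite_degree (hy i) (hn i) hn0 (hLC i) (hy (σ i)) (hn (σ i))
    (hΔ (σ i)) (φ i) (ψ i) (hψ i) (hun i) (hpb i) (hc i)
  obtain ⟨M, hM⟩ : ∃ M, M = ∑ i, μ i := ⟨_, rfl⟩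
  have hM0 : 0 ≤ M := by
    rw [hM]
    exact Finset.sum_nonneg fun i _ => hμ0 i
  have hMi : ∀ i, PositiveProductLe (y i) n (Δ i) 1 M := fun i => (hμ i).mono (by
    rw [hM]
    exact Finset.single_le_sum (f := μ) (fun i _ => hμ0 i) (Finset.mem_univ i))
  have hne : (Finset.univ : Finset ι).Nonempty := ⟨i, Finset.mem_univ i⟩
  obtain ⟨i1, -, hi1⟩ := Finset.exists_max_image Finset.univ
    (fun i => ∏ l ∈ Finset.range r, c (σ^[l] i)) hne
  obtain ⟨q, hq⟩ : ∃ q, q = ∏ l ∈ Finset.range r, c (σ^[l] i1) := ⟨_, rfl⟩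
  have hq1 : q < 1 := by
    rw [hq]
    exact hr i1
  have hq0 : 0 ≤ q := by
    rw [hq]
    exact Finset.prod_nonneg fun l _ => hc0 _
  have hall : ∀ t : ℕ, ∀ i, PositiveProductLe (y i) n (Δ i) 1 (q ^ t * M) := by
    intro t
    induction t with
    | zero =>
      intro i
      rw [pow_zero, one_mul]
      exact hMi i
    | succ t ih =>
      intro i
      have h1 := (chain_le hy hn hn0 hΔ hLC σ φ ψ hψ hun hpb hc r i
        (mul_nonneg (pow_nonneg hq0 t) hM0) (ih _)).2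
      refine h1.mono ?_
      rw [pow_succ', mul_assoc]
      refine mul_le_mul_of_nonneg_right ?_ (mul_nonneg (pow_nonneg hq0 t) hM0)
      rw [hq]
      exact hi1 i (Finset.mem_univ i)
  refine PositiveProductLe.numDimLt (PositiveProductLe.of_forall fun ε hε => ?_)
  have hlim : Filter.Tendsto (fun k : ℕ => q ^ k * M) Filter.atTop (nhds (0 * M)) :=
    (tendsto_pow_atTop_nhds_zero_of_lt_one hq0 hq1).mul_const _
  rw [zero_mul] at hlim
  obtain ⟨k, hk⟩ := (hlim.eventually_lt_const hε).exists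
  exact ⟨_, by linarith, hall k i⟩

end

end Pool.Agent.R887
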