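import Pool.Agent.Y172.Cov5

/-!
The pull back of pluricanonical forms to a finite extension. (The lemmas are those of
`Pool.Agent.Y191.GeoA`, repeated here in order to have few imports.)
-/

set_option autoImplicit false
set_option linter.overlappingInstances false
set_option linter.unusedSectionVars false

open FF MvPolynomial Pool.Agent.W602.GT Pool.Agent.W603.LV Pool.Agent.W619.PQ
open Pool.Agent.Y172

namespace Pool.Agent.R887

section

variable {K : Type} (K' : Type) [Field K] [Field K'] [Algebra ℂ K] [Algebra ℂ K'] [Algebra K K']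
  [IsScalarTower ℂ K K'] {n : ℕ}

/-- the pull back of a pluricanonical form to an extension of the field, by means of coordinates
`x` with dual derivations `E` -/
noncomputable def pull (x : Fin n → K) (E : Fin n → Derivation ℂ K K) (m : ℕ)
    (ω : (Fin n → Derivation ℂ K K) → K) (D : Fin n → Derivation ℂ K' K') : K' :=
  (Matrix.of fun i j => D i (algebraMap K K' (x j))).det ^ m * algebraMap K K' (ω E)

variable {K'}

theorem pull_pluri (x : Fin n → K) (E : Fin n → Derivation ℂ K K) (m : ℕ)
    (ω : (Fin n → Derivation ℂ K K) → K) : IsPluri m (pull K' x E m ω) := by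
  intro A D
  have e1 : (Matrix.of fun a b => (∑ j, A a j • D j) (algebraMap K K' (x b))) =
      A * Matrix.of fun a b => D a (algebraMap K K' (x b)) := by
    ext a b
    rw [Matrix.of_apply, Matrix.mul_apply, sum_smul_apply]
    rfl
  change (Matrix.of fun a b => (∑ j, A a j • D j) (algebraMap K K' (x b))).det ^ m *
    algebraMap K K' (ω E) = _
  rw [e1, Matrix.det_mul, mul_pow, mul_assoc]
  rfl

variable [FiniteDimensional K K']

/-- the pull back does not depend on the coordinates -/
theorem pull_change (hn : Algebra.trdeg ℂ K = n) {x x2 : Fin n → K}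
    {E E2 : Fin n → Derivation ℂ K K} (hx : IsTranscendenceBasis ℂ x)
    (hE : ∀ i j, E i (x j) = if i = j then 1 else 0) (hx2 : IsTranscendenceBasis ℂ x2)
    (hE2 : ∀ i j, E2 i (x2 j) = if i = j then 1 else 0) {m : ℕ}
    {ω : (Fin n → Derivation ℂ K K) → K} (hω : IsPluri m ω) (D : Fin n → Derivation ℂ K' K') :
    pull K' x E m ω D = pull K' x2 E2 m ω D := by
  choose E2' hE2' using fun i => exists_lift (L := K') hn (E2 i)
  have h1 := pluri_coord (hx2.algebraMap_comp (A := K')) (lift_dual hE2 hE2')
    (pull_pluri (K' := K') x E m ω) D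
  rw [h1]
  have h2 : pull K' x E m ω E2' = algebraMap K K' (ω E2) := by
    rw [pluri_coord hx hE hω E2, map_mul, map_pow, RingHom.map_det]
    unfold pull
    congr 3
    ext i j
    rw [Matrix.of_apply, RingHom.mapMatrix_apply, Matrix.map_apply, Matrix.of_apply]
    exact hE2' i (x j)
  rw [h2]
  rfl

/-- the order of the pull back -/
theorem pull_ord [Algebra.EssFiniteType ℂ K] (hn : Algebra.trdeg ℂ K = n) {x : Fin n → K}
    {E : Fin n → Derivation ℂ K K} (hx : IsTranscendenceBasis ℂ x)
    (hE : ∀ i j, E i (x j) = if i = j then 1 else 0) {Q : Place ℂ K'} {P : Place ℂ K} {ε : ℕ}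
    (h : Over Q P ε) (hP : Divisorial n P) {m : ℕ} {ω : (Fin n → Derivation ℂ K K) → K}
    (hω : IsPluri m ω) {c : ℤ} (hc : OrdGe P ω c) {D : Fin n → Derivation ℂ K' K'}
    (hD : ∀ i, DerReg Q (D i)) : Ge Q (m * (ε - 1) + ε * c) (pull K' x E m ω D) := by
  obtain ⟨xP, EP, i0, hl⟩ := exists_loc hn hP
  rw [pull_change hn hx hE hl.bas hl.dual hω D]
  refine pull_reg h hl hD ?_
  refine (hc EP fun i => hl.pres i).imp_right fun h1 => ?_
  exact_mod_cast h1

theorem pull_ne (hn : Algebra.trdeg ℂ K = n) {x : Fin n → K} {E : Fin n → Derivation ℂ K K}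
    (hE : ∀ i j, E i (x j) = if i = j then 1 else 0) {D : Fin n → Derivation ℂ K' K'}
    (hD : IsFrame D) : (Matrix.of fun i j => D i (algebraMap K K' (x j))).det ≠ 0 := by
  choose E' hE' using fun i => exists_lift (L := K') hn (E i)
  choose a ha using fun i => hD (E' i)
  have h1 : Matrix.of a * (Matrix.of fun i j => D i (algebraMap K K' (x j))) = 1 := by
    ext i j
    rw [Matrix.mul_apply, Matrix.one_apply]
    have h2 := lift_dual hE hE' i j
    rw [ha i, sum_smul_apply] at h2
    exact h2
  intro h0
  have h2 := congrArg Matrix.det h1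
  rw [Matrix.det_mul, h0, mul_zero, Matrix.det_one] at h2
  exact zero_ne_one h2

end

end Pool.Agent.R887
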