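import Pool.Agent.R887.DefsTens
import Pool.Agent.R887.Pull
import Pool.Agent.R887.CorC

/-!
The pull back of covariant tensor fields to a finite extension.
-/

set_option autoImplicit false
set_option linter.overlappingInstances false
set_option linter.unusedSectionVars false

open FF MvPolynomial Pool.Agent.W602.GT Pool.Agent.W603.LV Pool.Agent.W619.PQ
open Pool.Agent.Y172

namespace Pool.Agent.R887

section

variable {K : Type} (L : Type) [Field K] [Field L] [Algebra ℂ K] [Algebra ℂ L] [Algebra K L]
  [IsScalarTower ℂ K L] {n r : ℕ}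

/-- the pull back of a tensor field to an extension of the field, by means of coordinates `x` with
dual derivations `E` -/
noncomputable def tpull (x : Fin n → K) (E : Fin n → Derivation ℂ K K) (σ : Tensor K r)
    (D : Fin r → Derivation ℂ L L) : L :=
  ∑ I : Fin r → Fin n, (∏ k, D k (algebraMap K L (x (I k)))) *
    algebraMap K L (σ fun k => E (I k))

variable {L}

theorem tpull_sum (x : Fin n → K) (E : Fin n → Derivation ℂ K K) (σ : Tensor K r) {l : ℕ}
    (a : Fin r → Fin l → L) (D : Fin l → Derivation ℂ L L) :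
    tpull L x E σ (fun k => ∑ j, a k j • D j) =
      ∑ J : Fin r → Fin l, (∏ k, a k (J k)) * tpull L x E σ fun k => D (J k) := by
  unfold tpull
  have h1 : ∀ I : Fin r → Fin n, (∏ k, (∑ j, a k j • D j) (algebraMap K L (x (I k)))) =
      ∑ J : Fin r → Fin l, (∏ k, a k (J k)) * ∏ k, D (J k) (algebraMap K L (x (I k))) := by
    intro I
    have h2 : ∀ k, (∑ j, a k j • D j) (algebraMap K L (x (I k))) =
        ∑ j, a k j * D j (algebraMap K L (x (I k))) := fun k => sum_smul_apply _ _ _ _
    rw [Finset.prod_congr rfl fun k _ => h2 k, Finset.prod_univ_sum, Fintype.piFinset_univ]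
    exact Finset.sum_congr rfl fun J _ => Finset.prod_mul_distrib
  rw [Finset.sum_congr rfl fun I _ => by rw [h1 I]]
  simp only [Finset.sum_mul, Finset.mul_sum]
  rw [Finset.sum_comm]
  refine Finset.sum_congr rfl fun J _ => Finset.sum_congr rfl fun I _ => ?_
  ring

theorem tpull_smul (x : Fin n → K) (E : Fin n → Derivation ℂ K K) (σ : Tensor K r)
    (z : L) (D : Fin r → Derivation ℂ L L) :
    tpull L x E σ (fun k => z • D k) = z ^ r * tpull L x E σ D := by
  unfold tpull
  rw [Finset.mul_sum]
  refine Finset.sum_congr rfl fun I _ => ?_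
  have h1 : (∏ k, (z • D k) (algebraMap K L (x (I k)))) =
      z ^ r * ∏ k, D k (algebraMap K L (x (I k))) := by
    have h2 : ∀ k, (z • D k) (algebraMap K L (x (I k))) = z * D k (algebraMap K L (x (I k))) :=
      fun k => rfl
    rw [Finset.prod_congr rfl fun k _ => h2 k, Finset.prod_mul_distrib, Finset.prod_const,
      Finset.card_univ, Fintype.card_fin]
  rw [h1, mul_assoc]

/-- tensor fields in coordinates -/
theorem tensor_coord {x : Fin n → K} {E : Fin n → Derivation ℂ K K}
    (hx : IsTranscendenceBasis ℂ x) (hE : ∀ i j, E i (x j) = if i = j then 1 else 0)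
    (σ : Tensor K r) (D : Fin r → Derivation ℂ K K) :
    σ D = ∑ I : Fin r → Fin n, (∏ k, D k (x (I k))) * σ fun k => E (I k) := by
  have h1 : D = fun k => ∑ j, D k (x j) • E j := by
    funext k
    exact (Pool.Agent.W73.PG.PULL.expand x hx E hE (D k)).symm
  conv_lhs => rw [h1]
  rw [MultilinearMap.map_sum]
  refine Finset.sum_congr rfl fun I _ => ?_
  rw [MultilinearMap.map_smul_univ, smul_eq_mul]

variable [FiniteDimensional K L]

/-- the chain rule -/
theorem chain (hn : Algebra.trdeg ℂ K = n) {x : Fin n → K} {E : Fin n → Derivation ℂ K K}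
    (hx : IsTranscendenceBasis ℂ x) (hE : ∀ i j, E i (x j) = if i = j then 1 else 0)
    (D : Derivation ℂ L L) (f : K) :
    D (algebraMap K L f) = ∑ j, D (algebraMap K L (x j)) * algebraMap K L (E j f) := by
  choose E' hE' using fun i => exists_lift (L := L) hn (E i)
  have h1 := Pool.Agent.W73.PG.PULL.expand _ (hx.algebraMap_comp (A := L)) E' (lift_dual hE hE') D
  conv_lhs => rw [← h1]
  rw [sum_smul_apply]
  exact Finset.sum_congr rfl fun j _ => by rw [hE']; rfl

/-- the pull back does not depend on the coordinates -/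
theorem tpull_change (hn : Algebra.trdeg ℂ K = n) {x x2 : Fin n → K}
    {E E2 : Fin n → Derivation ℂ K K} (hx : IsTranscendenceBasis ℂ x)
    (hE : ∀ i j, E i (x j) = if i = j then 1 else 0) (hx2 : IsTranscendenceBasis ℂ x2)
    (hE2 : ∀ i j, E2 i (x2 j) = if i = j then 1 else 0) (σ : Tensor K r)
    (D : Fin r → Derivation ℂ L L) :
    tpull L x E σ D = tpull L x2 E2 σ D := by
  unfold tpull
  have h1 : ∀ J : Fin r → Fin n, algebraMap K L (σ fun k => E2 (J k)) =
      ∑ I : Fin r → Fin n, (∏ k, algebraMap K L (E2 (J k) (x (I k)))) *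
        algebraMap K L (σ fun k => E (I k)) := by
    intro J
    rw [tensor_coord hx hE σ fun k => E2 (J k), map_sum]
    refine Finset.sum_congr rfl fun I _ => ?_
    rw [map_mul, map_prod]
  symm
  have h3 : ∀ J ∈ (Finset.univ : Finset (Fin r → Fin n)),
      (∏ k, D k (algebraMap K L (x2 (J k)))) * algebraMap K L (σ fun k => E2 (J k)) =
        ∑ I : Fin r → Fin n, (∏ k, D k (algebraMap K L (x2 (J k)))) *
          ((∏ k, algebraMap K L (E2 (J k) (x (I k)))) * algebraMap K L (σ fun k => E (I k))) :=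
    fun J _ => by rw [h1 J, Finset.mul_sum]
  rw [Finset.sum_congr rfl h3, Finset.sum_comm]
  refine Finset.sum_congr rfl fun I _ => ?_
  have h2 : (∏ k, D k (algebraMap K L (x (I k)))) = ∑ J : Fin r → Fin n,
      ∏ k, D k (algebraMap K L (x2 (J k))) * algebraMap K L (E2 (J k) (x (I k))) := by
    rw [Finset.prod_congr rfl fun k _ => chain hn hx2 hE2 (D k) (x (I k)),
      Finset.prod_univ_sum, Fintype.piFinset_univ]
  rw [h2, Finset.sum_mul]
  refine Finset.sum_congr rfl fun J _ => ?_
  rw [Finset.prod_mul_distrib, mul_assoc]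

/-- the pull back is not zero on a frame -/
theorem tpull_ne (hn : Algebra.trdeg ℂ K = n) {x : Fin n → K} {E : Fin n → Derivation ℂ K K}
    (hx : IsTranscendenceBasis ℂ x) (hE : ∀ i j, E i (x j) = if i = j then 1 else 0)
    {σ : Tensor K r} (hσ : σ ≠ 0) {D : Fin n → Derivation ℂ L L} (hD : IsFrame D) :
    ∃ J : Fin r → Fin n, tpull L x E σ (fun k => D (J k)) ≠ 0 := by
  by_contra hcon
  push Not at hcon
  apply hσ
  ext F
  rw [tensor_coord hx hE σ F, zero_apply]
  refine Finset.sum_eq_zero fun I _ => ?_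
  choose E' hE' using fun i => exists_lift (L := L) hn (E i)
  choose a ha using fun i => hD (E' i)
  have h1 := tpull_sum x E σ (fun k : Fin r => a (I k)) D
  rw [Finset.sum_eq_zero fun J _ => by rw [hcon J, mul_zero]] at h1
  have h2 : (fun k : Fin r => ∑ j, a (I k) j • D j) = fun k => E' (I k) := by
    funext k
    exact (ha (I k)).symm
  rw [h2] at h1
  have h3 : tpull L x E σ (fun k => E' (I k)) = algebraMap K L (σ fun k => E (I k)) := by
    rw [tensor_coord hx hE σ fun k => E (I k), map_sum]
    unfold tpull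
    refine Finset.sum_congr rfl fun J _ => ?_
    rw [map_mul, map_prod]
    congr 1
    exact Finset.prod_congr rfl fun k _ => hE' (I k) (x (J k))
  rw [h3, map_eq_zero] at h1
  rw [h1, mul_zero]

end

section

variable {K L : Type} [Field K] [Field L] [Algebra ℂ K] [Algebra ℂ L] [Algebra K L]
  [IsScalarTower ℂ K L] {n r : ℕ}

/-- orders of pull backs -/
theorem tpull_reg {Q : Place ℂ L} {P : Place ℂ K} {e : ℕ} (h : Over Q P e) {x : Fin n → K}
    {E : Fin n → Derivation ℂ K K} {l : Fin n → K} (hl : ∀ i, l i ≠ 0)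
    {D : Fin r → Derivation ℂ L L}
    (hD : ∀ k i, Q.Reg (D k (algebraMap K L (x i)) / algebraMap K L (l i))) {σ : Tensor K r}
    {m : ℕ} (hm : 1 ≤ m) {g : K}
    (hg : ∀ I : Fin r → Fin n, P.Reg (g * σ (fun k => l (I k) • E (I k)) ^ m)) :
    Q.Reg (algebraMap K L g * tpull L x E σ D ^ m) := by
  by_cases hg0 : g = 0
  · rw [hg0, map_zero, zero_mul]
    exact Q.reg_zero
  have hg0' : algebraMap K L g ≠ 0 := by rwa [Ne, map_eq_zero]
  obtain ⟨a, ha⟩ : ∃ a, a = Q.ord (algebraMap K L g) := ⟨_, rfl⟩
  have hm0 : (0 : ℤ) < m := by exact_mod_cast hm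
  have h1 : Ge Q (-(a / m)) (tpull L x E σ D) := by
    refine Ge.sum _ _ fun I _ => ?_
    obtain ⟨s, hs⟩ : ∃ s, s = σ fun k => l (I k) • E (I k) := ⟨_, rfl⟩
    have e1 : (∏ k, D k (algebraMap K L (x (I k)))) * algebraMap K L (σ fun k => E (I k)) =
        (∏ k, D k (algebraMap K L (x (I k))) / algebraMap K L (l (I k))) * algebraMap K L s := by
      rw [hs, MultilinearMap.map_smul_univ, smul_eq_mul, map_mul, map_prod, ← mul_assoc,
        ← Finset.prod_mul_distrib]
      congr 1
      refine Finset.prod_congr rfl fun k _ => ?_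
      rw [div_mul_cancel₀]
      rw [Ne, map_eq_zero]
      exact hl _
    rw [e1]
    obtain ⟨p, hp⟩ : ∃ p, p = ∏ k, D k (algebraMap K L (x (I k))) / algebraMap K L (l (I k)) :=
      ⟨_, rfl⟩
    rw [← hp]
    have hpr : Q.Reg p := by
      rw [hp]
      have : ∀ t : Finset (Fin r), Q.Reg (∏ k ∈ t, D k (algebraMap K L (x (I k))) /
          algebraMap K L (l (I k))) := by
        classical
        intro t
        induction t using Finset.induction_on with
        | empty => exact Q.reg_one
        | insert k t hk ih =>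
          rw [Finset.prod_insert hk]
          exact Q.reg_mul (hD k _) ih
      exact this _
    by_cases hs0 : s = 0
    · left
      rw [hs0, map_zero, mul_zero]
    have hs0' : algebraMap K L s ≠ 0 := by rwa [Ne, map_eq_zero]
    by_cases hp0 : p = 0
    · left
      rw [hp0, zero_mul]
    right
    have h2 := hg I
    rw [← hs] at h2
    have h3 := (P.reg_iff (mul_ne_zero hg0 (pow_ne_zero _ hs0))).1 h2
    rw [P.ord_mul hg0 (pow_ne_zero _ hs0), P.ord_pow] at h3
    have h4 := (Q.reg_iff hp0).1 hpr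
    rw [Q.ord_mul hp0 hs0']
    rw [h.2] at ha ⊢
    have he : (0 : ℤ) ≤ e := Int.natCast_nonneg _
    have h5 := mul_nonneg he h3
    have h6 : -((e : ℤ) * P.ord s) ≤ a / m := by
      rw [Int.le_ediv_iff_mul_le hm0, ha]
      nlinarith
    omega
  rcases h1 with h1 | h1
  · rw [h1, zero_pow (by omega), mul_zero]
    exact Q.reg_zero
  by_cases ht : tpull L x E σ D = 0
  · rw [ht, zero_pow (by omega), mul_zero]
    exact Q.reg_zero
  refine (Q.reg_iff (mul_ne_zero hg0' (pow_ne_zero _ ht))).2 ?_
  rw [Q.ord_mul hg0' (pow_ne_zero _ ht), Q.ord_pow, ← ha]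
  have h2 : (a / m) * m ≤ a := Int.ediv_mul_le a hm0.ne'
  nlinarith

end

end Pool.Agent.R887
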