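import Pool.Agent.R887.TensA
import Pool.Agent.R887.CorD

/-!
Bounds for the pull backs of the sections of rank one sheaves of tensor fields under multi-valued
maps from a fixed variety.
-/

set_option autoImplicit false
set_option linter.overlappingInstances false
set_option linter.unusedSectionVars false

open FF MvPolynomial Pool.Agent.W602.GT Pool.Agent.W603.LV Pool.Agent.W619.PQ
open Pool.Agent.Y172 Pool.Agent.Y191

namespace Pool.Agent.R887

section

variable {K : Type} [Field K] [Algebra ℂ K]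

theorem derLog_reg' {P : Place ℂ K} {D : Derivation ℂ K K} (hD : DerLog P D) : DerReg P D := by
  intro f hf
  by_cases h0 : f = 0
  · rw [h0, map_zero]
    exact P.reg_zero
  have h1 := P.reg_mul (hD f) hf
  rwa [div_mul_cancel₀ _ h0] at h1

theorem log_of_reg {P : Place ℂ K} {D : Derivation ℂ K K} (hD : DerReg P D) {z : K}
    (hz : Ge P 1 z) : DerLog P (z • D) := by
  intro f
  by_cases hf : f = 0
  · rw [hf, div_zero]
    exact P.reg_zero
  have h1 := hz.mul (ge_der_reg hD f)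
  have h2 := ge_div hf h1
  change P.Reg (z * D f / f)
  refine (h2.mono ?_)
  omega

end

section maps

variable {K L : Type} [Field K] [Algebra ℂ K] [Field L] [Algebra ℂ L] [Algebra K L]
  [IsScalarTower ℂ K L] [FiniteDimensional K L] {n r : ℕ}

theorem treg_section (hess : Algebra.EssFiniteType ℂ K) (hn : Algebra.trdeg ℂ K = n)
    {Bd : Set (Place ℂ K)} {x : Fin n → K} {E : Fin n → Derivation ℂ K K}
    (hx : IsTranscendenceBasis ℂ x) (hE : ∀ i j, E i (x j) = if i = j then 1 else 0)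
    {σ : Tensor K r} {m : ℕ} (hm : 1 ≤ m) {g : K} (hg : IsTensorSection n Bd σ m g)
    {Q : Place ℂ L} (hQ : Divisorial n Q) {D : Fin r → Derivation ℂ L L} :
    ((∀ k, DerLog Q (D k)) → Q.Reg (algebraMap K L g * tpull L x E σ D ^ m)) ∧
    (bel K Q ∉ Bd → (∀ k, DerReg Q (D k)) →
      Q.Reg (algebraMap K L g * tpull L x E σ D ^ m)) := by
  have hov := over_bel K Q
  have hPd : Divisorial n (bel K Q) := divisorial_down hov hQ
  obtain ⟨xP, EP, i0, hl⟩ := exists_loc hn hPd
  rw [tpull_change hn hx hE hl.bas hl.dual σ D]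
  constructor
  · intro hD
    refine tpull_reg hov (l := lc xP i0) (fun i => ?_) (fun k i => ?_) hm fun I =>
      hg.1 _ hPd _ fun k => hl.log (I k)
    · unfold lc
      split_ifs
      · exact hl.ne
      · exact one_ne_zero
    · unfold lc
      split_ifs with hi
      · rw [hi]
        exact hD k _
      · rw [map_one, div_one]
        exact derLog_reg' (hD k) _ (hov.reg.2 (hl.reg i))
  · intro hB hD
    refine tpull_reg hov (l := fun _ => 1) (fun i => one_ne_zero) (fun k i => ?_) hm fun I => ?_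
    · rw [map_one, div_one]
      exact hD k _ (hov.reg.2 (hl.reg i))
    · simp only [one_smul]
      exact hg.2 _ hPd hB _ fun k => hl.pres (I k)

theorem tuniform (hess : Algebra.EssFiniteType ℂ K) (hn : Algebra.trdeg ℂ K = n) (hn0 : 0 < n)
    {Bd : Set (Place ℂ K)} {Good : Place ℂ L → Prop} {U : Fin n → L}
    {D : Fin n → Derivation ℂ L L} {G : MvPolynomial (Fin n) ℂ} {i0 : Fin n} {c : ℕ}
    (hs : Src2 Good U D G i0 c) (hmap : ∀ Q, Good Q → bel K Q ∉ Bd) {x : Fin n → K}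
    {E : Fin n → Derivation ℂ K K} (hx : IsTranscendenceBasis ℂ x)
    (hE : ∀ i j, E i (x j) = if i = j then 1 else 0) {σ : Tensor K r} (J : Fin r → Fin n)
    {m : ℕ} (hm : 1 ≤ m) {g : K} (hg : IsTensorSection n Bd σ m g) :
    (∀ (P : Place ℂ L) (q : MvPolynomial (Fin n) ℂ), Irreducible q → AdicS P U q →
      P.Reg (algebraMap K L g * tpull L x E σ (fun k => D (J k)) ^ m *
        (aeval U G) ^ (r * m))) ∧
    (∀ (P : Place ℂ L) (ρ : ℕ), AtInf U P ρ →
      Ge P (-((m * (r * (c + 1 + bd (k := ℂ) Finset.univ G)) : ℕ) : ℤ) * ρ)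
        (algebraMap K L g * tpull L x E σ (fun k => D (J k)) ^ m *
          (aeval U G) ^ (r * m))) := by
  classical
  have hU0 : ∀ Q : MvPolynomial (Fin n) ℂ, Q ≠ 0 → aeval U Q ≠ 0 := fun Q hQ h0 =>
    hQ ((injective_iff_map_eq_zero _).1 hs.bas.1 Q h0)
  refine ⟨?_, ?_⟩
  · intro Q q hq hQ
    obtain ⟨hdQ, hQD, hQS⟩ := hs.adic Q q hq hQ
    have hG0 : 0 ≤ Q.ord (aeval U G) := (hQ G hs.Gne).1
    rcases hQS with h1 | h1
    · have h2 := (treg_section hess hn hx hE hm hg hdQ (D := fun k => D (J k))).2 (hmap Q h1)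
        fun k => hQD _
      refine Q.reg_mul h2 (Or.inr ?_)
      rw [Q.ord_pow]
      positivity
    · have h2 := (treg_section hess hn hx hE hm hg hdQ
        (D := fun k => aeval U G • D (J k))).1 fun k => log_of_reg (hQD _) (Or.inr h1)
      rw [tpull_smul, mul_pow] at h2
      have h3 : algebraMap K L g * (((aeval U G) ^ r) ^ m *
          tpull L x E σ (fun k => D (J k)) ^ m) = algebraMap K L g *
          tpull L x E σ (fun k => D (J k)) ^ m * (aeval U G) ^ (r * m) := by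
        rw [pow_mul]
        ring
      rwa [h3] at h2
  · intro w ρ hw
    have hρ := hw.1
    have hwd : Divisorial n w := hw.divisorial hn0 hs.bas.1
    have hUi0 : U i0 ≠ 0 := by
      have := hU0 (X i0) (X_ne_zero _)
      rwa [aeval_X] at this
    obtain ⟨z, hz⟩ : ∃ z, z = (U i0)⁻¹ ^ (c + 1) := ⟨_, rfl⟩
    have hz0 : z ≠ 0 := by
      rw [hz]
      exact pow_ne_zero _ (inv_ne_zero hUi0)
    have hzo : w.ord z = (c + 1) * ρ := by
      rw [hz, w.ord_pow, w.ord_inv, hw.crd i0, neg_neg]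
      push_cast
      ring
    have h1 : ∀ k, DerLog w (z • D (J k)) := by
      intro k
      have h2 := log_of_reg (hs.inf w ρ hw (J k)) (z := (U i0)⁻¹) (Or.inr (by
        rw [w.ord_inv, hw.crd i0, neg_neg]
        exact_mod_cast hρ))
      rw [smul_smul, ← pow_succ', ← hz] at h2
      exact h2
    have h2 := (treg_section hess hn hx hE hm hg hwd (D := fun k => z • D (J k))).1 h1
    rw [tpull_smul, mul_pow] at h2
    have h3 : algebraMap K L g * ((z ^ r) ^ m * tpull L x E σ (fun k => D (J k)) ^ m) =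
        (z ^ r) ^ m * (algebraMap K L g * tpull L x E σ (fun k => D (J k)) ^ m) := by ring
    rw [h3] at h2
    have h4 := Ge.of_mul (pow_ne_zero _ (pow_ne_zero _ hz0)) (show Ge w 0 _ from h2)
    have h6 : Ge w ((r * m : ℕ) * w.ord (aeval U G)) ((aeval U G) ^ (r * m)) :=
      Or.inr (by rw [w.ord_pow])
    refine (h4.mul h6).mono ?_
    rw [w.ord_pow, w.ord_pow, hzo, hw.2 G hs.Gne]
    push_cast
    apply le_of_eq
    ring

end maps

section source

variable {K' : Type} [Field K'] [Algebra ℂ K'] {N' : ℕ} {y' : Fin (N' + 1) → K'} {n : ℕ}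

/-- The quotients of the sections, on the coverings of the source. -/
theorem tsource (hy' : NormalModel y') (hn' : Algebra.trdeg ℂ K' = n) (hn0 : 0 < n)
    {S : Set (Place ℂ K')} (hS : S.Finite) {j' : Fin (N' + 1)} (hj' : y' j' ≠ 0) :
    ∃ M : ℕ, ∀ {K L : Type} [Field K] [Algebra ℂ K] [Field L] [Algebra ℂ L] [Algebra K L]
      [IsScalarTower ℂ K L] [FiniteDimensional K L] [Algebra K' L] [IsScalarTower ℂ K' L]
      [FiniteDimensional K' L], Algebra.EssFiniteType ℂ K → Algebra.trdeg ℂ K = n →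
      ∀ {Bd : Set (Place ℂ K)}, Unram L y' S →
      (∀ (Q : Place ℂ L) (Q' : Place ℂ K') (e : ℕ), Over Q Q' e → IsPrimeDivisor y' Q' →
        Q' ∉ S → bel K Q ∉ Bd) →
      ∃ C : ℕ, ∀ {r : ℕ} {σ : Tensor K r}, σ ≠ 0 → ∀ m : ℕ, 1 ≤ m → ∃ F : K → L,
        (∀ g, IsTensorSection n Bd σ m g → g ≠ 0 → F g ≠ 0 ∧
          Bnd ℂ (affL L y' j') (m * (r * M) + C) (F g)) ∧
        ∀ g g', g ≠ 0 → F g' / F g = algebraMap K L (g' / g) := by
  classical
  obtain ⟨U, D, G, i0, c, hs⟩ := exists_src hy' hn' hn0 hS hj'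
  obtain ⟨d, hd⟩ := bnd_chart2 hj' hs.mem
  have hess' := hy'.ess
  have : Nonempty (Fin n) := ⟨⟨0, hn0⟩⟩
  obtain ⟨c2, hc2⟩ : ∃ c2 : ℕ, c2 = c + 1 + bd (k := ℂ) Finset.univ G := ⟨_, rfl⟩
  refine ⟨(c2 + 1 + bd (k := ℂ) Finset.univ G) * d, ?_⟩
  intro K L _ _ _ _ _ _ _ _ _ _ hess hn Bd hun hmap
  obtain ⟨x, E, hx, hE⟩ := exists_crd hn (k := ℂ) (K := K)
  obtain ⟨D', hs2⟩ := src_up hess' hn' hs hun
  rw [← hc2] at hs2
  have hessL : Algebra.EssFiniteType ℂ L := by
    have h1 : Algebra.EssFiniteType K' L := inferInstance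
    exact Algebra.EssFiniteType.comp ℂ K' L
  have hfd : FiniteDimensional (IntermediateField.adjoin ℂ
      (Set.range fun i => algebraMap K' L (U i))) L := fd_basis hs2.bas
  obtain ⟨g0, hg0, C, hC⟩ := lin_bound (k := ℂ) hs2.bas
  have hU0 : ∀ Q : MvPolynomial (Fin n) ℂ, Q ≠ 0 → aeval (fun i => algebraMap K' L (U i)) Q ≠ 0 :=
    fun Q hQ h0 => hQ ((injective_iff_map_eq_zero _).1 hs2.bas.1 Q h0)
  refine ⟨C * d, fun {r σ} hσ m hm => ?_⟩
  obtain ⟨J, hJ⟩ := tpull_ne hn hx hE hσ hs2.fr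
  refine ⟨fun g => algebraMap K L g * tpull L x E σ (fun k => D' (J k)) ^ m *
    (aeval (fun i => algebraMap K' L (U i)) G) ^ (r * m) *
    aeval (fun i => algebraMap K' L (U i)) g0, ?_, ?_⟩
  · intro g hg hg1
    obtain ⟨h1, h2⟩ := tuniform hess hn hn0 hs2 (fun Q hQ => by
      obtain ⟨h1, h2⟩ := hQ _ _ (over_bel K' Q)
      exact hmap Q _ _ (over_bel K' Q) h1 h2) hx hE J hm hg
    have h3 : algebraMap K L g * tpull L x E σ (fun k => D' (J k)) ^ m *
        (aeval (fun i => algebraMap K' L (U i)) G) ^ (r * m) ≠ 0 := by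
      refine mul_ne_zero (mul_ne_zero ?_ (pow_ne_zero _ hJ)) (pow_ne_zero _ (hU0 G hs2.Gne))
      rwa [Ne, map_eq_zero]
    refine ⟨mul_ne_zero h3 (hU0 g0 hg0), ?_⟩
    have h4 := hC _ _ h3 h1 fun P ρ hρ hP => by
      have := h2 P ρ ⟨hρ, hP⟩
      rwa [neg_mul] at this
    have h5 := hd L _ _ h4
    have h6 : (m * (r * (c2 + 1 + bd (k := ℂ) Finset.univ G)) + C) * d =
        m * (r * ((c2 + 1 + bd (k := ℂ) Finset.univ G) * d)) + C * d := by ring
    rw [h6] at h5
    exact h5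
  · intro g g' h1
    have h4 : (aeval (fun i => algebraMap K' L (U i)) G) ^ (r * m) ≠ 0 :=
      pow_ne_zero _ (hU0 G hs2.Gne)
    have h5 := hU0 g0 hg0
    have h6 : tpull L x E σ (fun k => D' (J k)) ^ m ≠ 0 := pow_ne_zero _ hJ
    have h7 : algebraMap K L g ≠ 0 := by rwa [Ne, map_eq_zero]
    rw [map_div₀]
    field_simp

end source

end Pool.Agent.R887
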