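import Pool.Agent.R887.TensB
import Pool.Agent.R887.CorF
import Pool.Agent.R887.DefsCor

/-!
The degree inequality for the sections of rank one sheaves of tensor fields, for a single
multi-valued map, with a constant which depends only on the source.
-/

set_option autoImplicit false
set_option linter.overlappingInstances false
set_option linter.unusedSectionVars false

open FF MvPolynomial Pool.Agent.W602.GT Pool.Agent.W603.LV Pool.Agent.W619.PQ
open Pool.Agent.Y172 Pool.Agent.Y191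

namespace Pool.Agent.R887

section

variable {K : Type} [Field K] [Algebra ℂ K] {n r : ℕ}

theorem IsTensorSection.pow {Bd : Set (Place ℂ K)} {σ : Tensor K r} {m : ℕ} {g : K}
    (h : IsTensorSection n Bd σ m g) (q : ℕ) : IsTensorSection n Bd σ (m * q) (g ^ q) := by
  have key : ∀ (P : Place ℂ K) (E : Fin r → Derivation ℂ K K), P.Reg (g * σ E ^ m) →
      P.Reg (g ^ q * σ E ^ (m * q)) := by
    intro P E h1
    have h2 : g ^ q * σ E ^ (m * q) = (g * σ E ^ m) ^ q := by rw [mul_pow, pow_mul]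
    rw [h2]
    induction q with
    | zero =>
      rw [pow_zero]
      exact P.reg_one
    | succ q ih =>
      rw [pow_succ]
      refine P.reg_mul (ih ?_) h1
      rw [mul_pow, pow_mul]
  exact ⟨fun P hP E hE => key P E (h.1 P hP E hE), fun P hP hB E hE => key P E (h.2 P hP hB E hE)⟩

end

section

variable {K' : Type} [Field K'] [Algebra ℂ K'] {N' : ℕ} {y' : Fin (N' + 1) → K'} {n : ℕ}

/-- **The degree inequality for one multi-valued map.** -/
theorem tens_one_map (hy' : NormalModel y') (hn' : Algebra.trdeg ℂ K' = n) (hn0 : 0 < n)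
    {S : Set (Place ℂ K')} (hS : S.Finite) :
    ∃ M : ℕ, ∀ {K L : Type} [Field K] [Algebra ℂ K] [Field L] [Algebra ℂ L] {N : ℕ}
      {y : Fin (N + 1) → K} {Bd : Set (Place ℂ K)}, NormalModel y → Algebra.trdeg ℂ K = n →
      ∀ (φ : K →ₐ[ℂ] L) (ψ : K' →ₐ[ℂ] L),
      FiniteDimensional ψ.fieldRange L → UnramifiedOutside ψ y' S →
      (∀ Q' : Place ℂ K', IsPrimeDivisor y' Q' → Q' ∉ S → ∀ (Q : Place ℂ L) (e' : ℕ),
        LiesOver ψ Q Q' e' → ∀ (P : Place ℂ K) (e : ℕ), LiesOver φ Q P e → P ∉ Bd) →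
      ∃ C : ℕ, ∀ {r : ℕ} {σ : Tensor K r}, σ ≠ 0 → ∀ {j : ℕ}, j ≤ n →
      ∀ {c : ℝ}, MultiDegreeLe φ ψ y y' (n - j) j c →
      ∀ m : ℕ, 1 ≤ m → ∀ u : Fin (n - j) → K, (∀ a, IsPencil y (u a)) →
      ∀ g : Fin (j + 1) → K, (∀ i, IsTensorSection n Bd σ m (g i)) → g 0 ≠ 0 →
        0 ≤ c ∧ (degreeOver u (fun i : Fin j => g i.succ / g 0) : ℝ) ≤
          c * (m * (r * M) + C) ^ j := by
  classical
  obtain ⟨j', hj'⟩ := hy'.ne
  have hess' := hy'.ess
  obtain ⟨M, hM⟩ := tsource hy' hn' hn0 hS hj'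
  refine ⟨M, ?_⟩
  intro K L _ _ _ _ N y Bd hy hn φ ψ hψ0 hun hφ1
  have hess := hy.ess
  let _ : Algebra K L := φ.toRingHom.toAlgebra
  let _ : Algebra K' L := ψ.toRingHom.toAlgebra
  have hst : IsScalarTower ℂ K L := IsScalarTower.of_algebraMap_eq fun c => (φ.commutes c).symm
  have hst' : IsScalarTower ℂ K' L := IsScalarTower.of_algebraMap_eq fun c => (ψ.commutes c).symm
  have hfd' : FiniteDimensional K' L := fd_of_range ψ hψ0
  have hessL : Algebra.EssFiniteType ℂ L := by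
    have h1 : Algebra.EssFiniteType K' L := inferInstance
    exact Algebra.EssFiniteType.comp ℂ K' L
  have hnL : Algebra.trdeg ℂ L = n := trdeg_up (K := K') hn'
  have hfd : FiniteDimensional K L := finite_map hn hnL
  obtain ⟨C, hβ⟩ := hM hess hn (Bd := Bd) (fun Q Q' e hQ' hQS ho => hun Q' hQ' hQS Q e ho)
    (fun Q Q' e ho hQ' hQS => hφ1 Q' hQ' hQS Q e ho _ _ (over_bel K Q))
  have hdeg : mapDegree φ = Module.finrank K L := by
    unfold mapDegree
    let e : K ≃ₐ[ℂ] φ.fieldRange := AlgEquiv.ofInjectiveField φ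
    refine (Algebra.finrank_eq_of_equiv_equiv e.toRingEquiv (RingEquiv.refl L) ?_).symm
    ext x
    rfl
  have hdegp : 0 < mapDegree φ := by
    rw [hdeg]
    exact Module.finrank_pos
  have hdeg0 : (0 : ℝ) < Module.finrank K L := by
    exact_mod_cast Module.finrank_pos
  refine ⟨C, fun {r σ} hσ {j} hj {c} hφ2 m hm1 u hu g hg hg0 => ?_⟩
  have hc0 := multi_nonneg hy hy' hφ2 hdegp
  refine ⟨hc0, ?_⟩
  have hm0 : (0 : ℝ) < m := by exact_mod_cast hm1
  obtain ⟨w, hw⟩ : ∃ w : Fin j → K, w = fun i => g i.succ / g 0 := ⟨_, rfl⟩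
  rw [← hw, degreeOver_eq]
  by_cases h0 : dg ℂ (Sum.elim u w) = 0
  · rw [h0]
    push_cast
    positivity
  have hcard : Nat.card (Fin (n - j) ⊕ Fin j) = n := by
    rw [Nat.card_eq_fintype_card, Fintype.card_sum, Fintype.card_fin, Fintype.card_fin]
    omega
  have hbas := basis_of_dg (k := ℂ) (w := Sum.elim u w) (by rw [hn, hcard]) h0
  -- the sections are not zero
  have hgi : ∀ i, g i ≠ 0 := by
    intro i
    refine Fin.cases hg0 (fun i => ?_) i
    intro h2
    have h4 := hbas.1.ne_zero (Sum.inr i)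
    rw [Sum.elim_inr, hw] at h4
    simp only [] at h4
    rw [h2, zero_div] at h4
    exact h4 rfl
  obtain ⟨F, hF1, hF2⟩ := hβ hσ m hm1
  obtain ⟨B, hB⟩ : ∃ B, B = m * (r * M) + C := ⟨_, rfl⟩
  -- replace the sections by pencils
  have hwE : ∀ i, algebraMap K L (w i) = F (g i.succ) / F (g 0) := by
    intro i
    rw [hF2 _ _ hg0, hw]
  obtain ⟨v, hv1, hv2, hv3⟩ := replace_all (k := ℂ) (K := L) (ι := Fin (n - j) ⊕ Fin j)
    (by rw [hnL, hcard]) (S := affL L y' j') (Set.finite_range _)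
    ⟨j', by simp only []; rw [div_self hj', map_one]⟩ (B := B)
    (f₀ := F (g 0)) (hF1 _ (hg 0) hg0).1 (by rw [hB]; exact (hF1 _ (hg 0) hg0).2)
    (Finset.univ.image Sum.inr) (fun i => algebraMap K L (Sum.elim u w i))
    (Sum.elim (fun _ => 1) fun i => F (g i.succ)) (by
      intro i hi
      obtain ⟨a, -, rfl⟩ := Finset.mem_image.1 hi
      exact (hF1 _ (hg _) (hgi _)).1) (by
      intro i hi
      obtain ⟨a, -, rfl⟩ := Finset.mem_image.1 hi
      rw [hB]
      exact (hF1 _ (hg _) (hgi _)).2) (by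
      intro i hi
      obtain ⟨a, -, rfl⟩ := Finset.mem_image.1 hi
      exact hwE a)
  choose v' hv'1 hv'2 using fun i => pencil_of_span2 (y' := y') ψ (fun _ => rfl) hj'
    (hv1 (Sum.inr i) (Finset.mem_image_of_mem _ (Finset.mem_univ i)))
  have h1 : dg ℂ v = degreeOver (fun a => φ (u a)) (fun i => ψ (v' i)) := by
    rw [degreeOver_eq]
    congr 1
    funext i
    rcases i with i | i
    · rw [hv2 (Sum.inl i) (by simp)]
      rfl
    · exact hv'2 i
  have h2 := hφ2 u hu v' hv'1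
  rw [← h1, hdeg] at h2
  rw [dg_tower, Finset.card_image_of_injective _ Sum.inr_injective, Finset.card_univ,
    Fintype.card_fin] at hv3
  have h3 : (dg ℂ (Sum.elim u w) : ℝ) * Module.finrank K L ≤ (B : ℝ) ^ j * dg ℂ v := by
    exact_mod_cast hv3
  have hBr : (B : ℝ) = m * (r * M) + C := by
    rw [hB]
    push_cast
    ring
  have h6 : (dg ℂ (Sum.elim u w) : ℝ) * Module.finrank K L ≤
      (c * (m * (r * M) + C) ^ j) * Module.finrank K L := by
    calc (dg ℂ (Sum.elim u w) : ℝ) * Module.finrank K L ≤ (B : ℝ) ^ j * dg ℂ v := h3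
      _ ≤ (B : ℝ) ^ j * (c * Module.finrank K L) :=
        mul_le_mul_of_nonneg_left h2 (by positivity)
      _ = (c * (m * (r * M) + C) ^ j) * Module.finrank K L := by
        rw [hBr]
        ring
  exact le_of_mul_le_mul_right h6 hdeg0

end

section

variable {K : Type} [Field K] [Algebra ℂ K] {N n r : ℕ} {y : Fin (N + 1) → K}

/-- the bound for large multiples gives the bound without the additive constant -/
theorem tens_bound (hn : Algebra.trdeg ℂ K = n) {Bd : Set (Place ℂ K)} {σ : Tensor K r} {j : ℕ}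
    (hj : j ≤ n) {c : ℝ} (hc : 0 ≤ c) {M C : ℕ}
    (h : ∀ m : ℕ, 1 ≤ m → ∀ u : Fin (n - j) → K, (∀ a, IsPencil y (u a)) →
      ∀ g : Fin (j + 1) → K, (∀ i, IsTensorSection n Bd σ m (g i)) → g 0 ≠ 0 →
        (degreeOver u (fun i : Fin j => g i.succ / g 0) : ℝ) ≤ c * (m * M + C) ^ j)
    {m : ℕ} (hm : 1 ≤ m) {u : Fin (n - j) → K} (hu : ∀ a, IsPencil y (u a))
    {g : Fin (j + 1) → K} (hg : ∀ i, IsTensorSection n Bd σ m (g i)) (h0 : g 0 ≠ 0) :
    (degreeOver u (fun i : Fin j => g i.succ / g 0) : ℝ) ≤ c * (m * M) ^ j := by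
  classical
  obtain ⟨w, hw⟩ : ∃ w : Fin j → K, w = fun i => g i.succ / g 0 := ⟨_, rfl⟩
  rw [← hw, degreeOver_eq]
  by_cases hd : dg ℂ (Sum.elim u w) = 0
  · rw [hd]
    push_cast
    positivity
  have hcard : Nat.card (Fin (n - j) ⊕ Fin j) = n := by
    rw [Nat.card_eq_fintype_card, Fintype.card_sum, Fintype.card_fin, Fintype.card_fin]
    omega
  have key : ∀ q : ℕ, (dg ℂ (Sum.elim u w) : ℝ) ≤ c * (m * M + C * ((q : ℝ) + 1)⁻¹) ^ j := by
    intro q
    have h1 := h (m * (q + 1)) (by nlinarith) u hu (fun i => g i ^ (q + 1))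
      (fun i => (hg i).pow (q + 1)) (pow_ne_zero _ h0)
    have h2 := dg_pow_all (k := ℂ) (by rw [hn, hcard]) (Sum.elim u w) (Finset.univ.image Sum.inr)
      (q := q + 1) (by omega) hd
    rw [Finset.card_image_of_injective _ Sum.inr_injective, Finset.card_univ,
      Fintype.card_fin] at h2
    have h3' : (Sum.elim u fun i : Fin j => g i.succ ^ (q + 1) / g 0 ^ (q + 1)) =
        fun i => if i ∈ Finset.univ.image Sum.inr then Sum.elim u w i ^ (q + 1)
          else Sum.elim u w i := by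
      funext i
      rcases i with i | i
      · simp
      · simp [hw, div_pow]
    have h3 : degreeOver u (fun i : Fin j => g i.succ ^ (q + 1) / g 0 ^ (q + 1)) =
        dg ℂ (fun i => if i ∈ Finset.univ.image Sum.inr then Sum.elim u w i ^ (q + 1)
          else Sum.elim u w i) := by
      rw [← h3']
      unfold degreeOver dg
      rw [Set.Sum.elim_range]
    change ((degreeOver u (fun i : Fin j => g i.succ ^ (q + 1) / g 0 ^ (q + 1)) : ℕ) : ℝ) ≤ _
      at h1
    rw [h3, h2] at h1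
    push_cast at h1
    have hq : (0 : ℝ) < (q : ℝ) + 1 := by positivity
    have h4 : c * (m * ((q : ℝ) + 1) * M + C) ^ j =
        ((q : ℝ) + 1) ^ j * (c * (m * M + C * ((q : ℝ) + 1)⁻¹) ^ j) := by
      have h5 : m * ((q : ℝ) + 1) * M + C = ((q : ℝ) + 1) * (m * M + C * ((q : ℝ) + 1)⁻¹) := by
        field_simp
      rw [h5, mul_pow]
      ring
    rw [h4] at h1
    exact le_of_mul_le_mul_left h1 (by positivity)
  have hlim : Filter.Tendsto (fun q : ℕ => c * (m * M + C * ((q : ℝ) + 1)⁻¹) ^ j) Filter.atTop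
      (nhds (c * (m * M + C * 0) ^ j)) := by
    have h1 : Filter.Tendsto (fun q : ℕ => ((q : ℝ) + 1)⁻¹) Filter.atTop (nhds 0) := by
      have := tendsto_one_div_add_atTop_nhds_zero_nat (𝕜 := ℝ)
      simpa [one_div] using this
    exact ((h1.const_mul _).const_add _).pow j |>.const_mul c
  rw [mul_zero, add_zero] at hlim
  exact ge_of_tendsto' hlim key

end

section

variable {K' : Type} [Field K'] [Algebra ℂ K'] {N' : ℕ} {y' : Fin (N' + 1) → K'} {n : ℕ}

/-- **Sections of rank one sheaves of tensor fields and one multi-valued map.** -/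
theorem tens_one (hy' : NormalModel y') (hn' : Algebra.trdeg ℂ K' = n) (hn0 : 0 < n)
    {S : Set (Place ℂ K')} (hS : S.Finite) :
    ∃ C : ℕ, 0 < C ∧ ∀ {K L : Type} [Field K] [Algebra ℂ K] [Field L] [Algebra ℂ L] {N : ℕ}
      {y : Fin (N + 1) → K} {Bd : Set (Place ℂ K)}, NormalModel y → Algebra.trdeg ℂ K = n →
      ∀ (φ : K →ₐ[ℂ] L) (ψ : K' →ₐ[ℂ] L),
      FiniteDimensional ψ.fieldRange L → UnramifiedOutside ψ y' S →
      (∀ Q' : Place ℂ K', IsPrimeDivisor y' Q' → Q' ∉ S → ∀ (Q : Place ℂ L) (e' : ℕ),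
        LiesOver ψ Q Q' e' → ∀ (P : Place ℂ K) (e : ℕ), LiesOver φ Q P e → P ∉ Bd) →
      ∀ {r : ℕ} {σ : Tensor K r}, σ ≠ 0 → ∀ {j : ℕ}, j ≤ n →
      ∀ {c : ℝ}, MultiDegreeLe φ ψ y y' (n - j) j c →
      ∀ m : ℕ, 1 ≤ m → ∀ u : Fin (n - j) → K, (∀ a, IsPencil y (u a)) →
      ∀ g : Fin (j + 1) → K, (∀ i, IsTensorSection n Bd σ m (g i)) → g 0 ≠ 0 →
        (degreeOver u (fun i : Fin j => g i.succ / g 0) : ℝ) ≤ c * (C * r * m) ^ j := by
  obtain ⟨M, hM⟩ := tens_one_map hy' hn' hn0 hS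
  refine ⟨M + 1, Nat.succ_pos _, ?_⟩
  intro K L _ _ _ _ N y Bd hy hn φ ψ hψ hun hφ1 r σ hσ j hj c hc m hm u hu g hg hg0
  obtain ⟨C, h⟩ := hM hy hn φ ψ hψ hun hφ1
  have hc0 : 0 ≤ c := (h hσ hj hc m hm u hu g hg hg0).1
  have h1 := tens_bound (y := y) (M := r * M) (C := C) hn hj hc0
    (fun m hm u hu g hg hg0 => by
      have := (h hσ hj hc m hm u hu g hg hg0).2
      push_cast
      exact this) hm hu hg hg0
  refine h1.trans (mul_le_mul_of_nonneg_left (pow_le_pow_left₀ (by positivity) ?_ j) hc0)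
  push_cast
  have h2 : (0 : ℝ) ≤ r * m := by positivity
  nlinarith

end

end Pool.Agent.R887
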