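import Pool.Agent.R887.TensC

/-!
Rank one sheaves of tensor fields on the varieties with multi-valued maps of large degree.
-/

set_option autoImplicit false
set_option linter.overlappingInstances false
set_option linter.unusedSectionVars false

open FF MvPolynomial Pool.Agent.W602.GT Pool.Agent.W603.LV Pool.Agent.W619.PQ
open Pool.Agent.Y172 Pool.Agent.Y191

namespace Pool.Agent.R887

section

variable {K K' : Type} [Field K] [Algebra ℂ K] [Field K'] [Algebra ℂ K'] {N N' n : ℕ}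
  {y : Fin (N + 1) → K} {y' : Fin (N' + 1) → K'}

theorem TensorKodairaGe.mono {Bd : Set (Place ℂ K)} {r : ℕ} {σ : Tensor K r} {k l : ℕ}
    (h : TensorKodairaGe n Bd σ k) (hl : l ≤ k) : TensorKodairaGe n Bd σ l := by
  obtain ⟨m, hm, g, hg, h0, hind⟩ := h
  refine ⟨m, hm, fun i => g (Fin.castLE (by omega) i), fun i => hg _, ?_, ?_⟩
  · exact h0
  · have h1 := hind.comp (Fin.castLE hl) (Fin.castLE_injective hl)
    exact h1

/-- a bound for the degrees bounds the Kodaira dimension -/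
theorem tens_not_ge (hy : NormalModel y) (hn : Algebra.trdeg ℂ K = n) {Bd : Set (Place ℂ K)}
    {r : ℕ} {σ : Tensor K r} {j : ℕ} (hj : j ≤ n)
    (h : ∀ m : ℕ, 1 ≤ m → ∃ B : ℝ, ∀ ε : ℝ, 0 < ε → ∀ u : Fin (n - j) → K, (∀ a, IsPencil y (u a)) →
      ∀ g : Fin (j + 1) → K, (∀ i, IsTensorSection n Bd σ m (g i)) → g 0 ≠ 0 →
        (degreeOver u (fun i : Fin j => g i.succ / g 0) : ℝ) ≤ ε * B) :
    ¬ TensorKodairaGe n Bd σ j := by
  rintro ⟨m, hm, g, hg, hg0, hind⟩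
  obtain ⟨u, hu, hd⟩ := exists_complete hy hn hj hind
  obtain ⟨B, hB⟩ := h m hm
  have hdw : degreeOver u (fun i : Fin j => g i.succ / g 0) =
      dg ℂ (Sum.elim u fun i : Fin j => g i.succ / g 0) := by
    unfold degreeOver dg
    rw [Set.Sum.elim_range]
  have h1 : (1 : ℝ) ≤ dg ℂ (Sum.elim u fun i : Fin j => g i.succ / g 0) := by exact_mod_cast hd
  have h2 := hB (1 / (2 * (|B| + 1))) (by positivity) u hu g hg hg0
  rw [hdw] at h2
  have h3 : 1 / (2 * (|B| + 1)) * B ≤ 1 / 2 := by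
    have h4 : B ≤ |B| + 1 := (le_abs_self B).trans (by linarith)
    have h5 : (0 : ℝ) < |B| + 1 := by positivity
    rw [div_mul_eq_mul_div, one_mul, div_le_div_iff₀ (by positivity) (by norm_num)]
    nlinarith
  linarith

/-- **The Kodaira dimensions of the rank one sheaves of tensor fields.** -/
theorem tens_seq (hy : NormalModel y) (hy' : NormalModel y') (hn : Algebra.trdeg ℂ K = n)
    (hn' : Algebra.trdeg ℂ K' = n) (hn0 : 0 < n) {S : Set (Place ℂ K')} (hS : S.Finite)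
    {Bd : Set (Place ℂ K)} {j : ℕ} (hj : j ≤ n)
    (hmap : ∀ ε : ℝ, 0 < ε → ∃ (L : Type) (_ : Field L) (_ : Algebra ℂ L)
      (φ : K →ₐ[ℂ] L) (ψ : K' →ₐ[ℂ] L), FiniteDimensional ψ.fieldRange L ∧
        UnramifiedOutside ψ y' S ∧
        (∀ Q' : Place ℂ K', IsPrimeDivisor y' Q' → Q' ∉ S → ∀ (Q : Place ℂ L) (e' : ℕ),
          LiesOver ψ Q Q' e' → ∀ (P : Place ℂ K) (e : ℕ), LiesOver φ Q P e → P ∉ Bd) ∧
        MultiDegreeLe φ ψ y y' (n - j) j ε) {r : ℕ} {σ : Tensor K r} (hσ : σ ≠ 0) :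
    ¬ TensorKodairaGe n Bd σ j := by
  obtain ⟨C, hC, h⟩ := tens_one hy' hn' hn0 hS
  refine tens_not_ge hy hn hj fun m hm => ⟨(C * r * m) ^ j, fun ε hε u hu g hg hg0 => ?_⟩
  obtain ⟨L, _, _, φ, ψ, h1, h2, h3, h4⟩ := hmap ε hε
  exact h hy hn φ ψ h1 h2 h3 hσ hj h4 m hm u hu g hg hg0

end

end Pool.Agent.R887
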