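import Pool.Agent.R887.TensD
import Pool.Agent.R887.DefsHol

/-!
Holomorphic tensor fields on the varieties with multi-valued maps of large degree.
-/

set_option autoImplicit false
set_option linter.overlappingInstances false
set_option linter.unusedSectionVars false

open FF MvPolynomial Pool.Agent.W602.GT Pool.Agent.W603.LV Pool.Agent.W619.PQ
open Pool.Agent.Y172 Pool.Agent.Y191

namespace Pool.Agent.R887

section

variable {K : Type} [Field K] [Algebra ℂ K] {n r q : ℕ}

theorem slot_update (E : Fin (q * r) → Derivation ℂ K K) (j0 : Fin q) (a0 : Fin r)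
    (v : Derivation ℂ K K) (j : Fin q) :
    (fun a => Function.update E (finProdFinEquiv (j0, a0)) v (finProdFinEquiv (j, a))) =
      if j = j0 then Function.update (fun a => E (finProdFinEquiv (j0, a))) a0 v
      else fun a => E (finProdFinEquiv (j, a)) := by
  funext a
  by_cases hj : j = j0
  · rw [if_pos hj, hj]
    by_cases ha : a = a0
    · rw [ha, Function.update_self, Function.update_self]
    · rw [Function.update_of_ne ha, Function.update_of_ne]
      intro h
      have := finProdFinEquiv.injective h
      exact ha (Prod.ext_iff.1 this).2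
  · rw [if_neg hj, Function.update_of_ne]
    intro h
    have := finProdFinEquiv.injective h
    exact hj (Prod.ext_iff.1 this).1

theorem mat_update (τ : Fin q → Tensor K r) (E : Fin (q * r) → Derivation ℂ K K) (j0 : Fin q)
    (a0 : Fin r) (v : Derivation ℂ K K) :
    (Matrix.of fun i j => τ i fun a =>
      Function.update E (finProdFinEquiv (j0, a0)) v (finProdFinEquiv (j, a))) =
      (Matrix.of fun i j => τ i fun a => E (finProdFinEquiv (j, a))).updateCol j0
        (fun i => τ i (Function.update (fun a => E (finProdFinEquiv (j0, a))) a0 v)) := by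
  ext i j
  rw [Matrix.of_apply, slot_update, Matrix.updateCol_apply]
  by_cases hj : j = j0
  · rw [if_pos hj, if_pos hj]
  · rw [if_neg hj, if_neg hj]
    rfl

/-- the determinant of tensor fields -/
noncomputable def detTensor (τ : Fin q → Tensor K r) : Tensor K (q * r) where
  toFun E := (Matrix.of fun i j => τ i fun a => E (finProdFinEquiv (j, a))).det
  map_update_add' {inst} E c v w := by
    have hinst : inst = instDecidableEqFin (q * r) := Subsingleton.elim _ _
    subst hinst
    obtain ⟨⟨j0, a0⟩, rfl⟩ := finProdFinEquiv.surjective c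
    rw [mat_update, mat_update, mat_update, ← Matrix.det_updateCol_add]
    congr 2
    funext i
    rw [Pi.add_apply, MultilinearMap.map_update_add]
  map_update_smul' {inst} E c z v := by
    have hinst : inst = instDecidableEqFin (q * r) := Subsingleton.elim _ _
    subst hinst
    obtain ⟨⟨j0, a0⟩, rfl⟩ := finProdFinEquiv.surjective c
    rw [mat_update, mat_update, smul_eq_mul, ← Matrix.det_updateCol_smul]
    congr 2
    funext i
    rw [Pi.smul_apply, MultilinearMap.map_update_smul]

theorem detTensor_apply (τ : Fin q → Tensor K r) (E : Fin (q * r) → Derivation ℂ K K) :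
    detTensor τ E = (Matrix.of fun i j => τ i fun a => E (finProdFinEquiv (j, a))).det := rfl

/-- linearly independent tensor fields have a determinant which is not zero -/
theorem detTensor_ne {τ : Fin q → Tensor K r} (h : LinearIndependent K τ) : detTensor τ ≠ 0 := by
  classical
  obtain ⟨ev, hev⟩ : ∃ ev : (Fin r → Derivation ℂ K K) → (Fin q → K), ev = fun E i => τ i E :=
    ⟨_, rfl⟩
  have hspan : Submodule.span K (Set.range ev) = ⊤ := by
    by_contra hcon
    obtain ⟨f, hf0, hf⟩ := Submodule.exists_le_ker_of_lt_top _ (lt_top_iff_ne_top.2 hcon)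
    obtain ⟨c, hc⟩ : ∃ c : Fin q → K, c = fun i => f (Pi.single i 1) := ⟨_, rfl⟩
    have hfc : ∀ z : Fin q → K, f z = ∑ i, z i * c i := by
      intro z
      conv_lhs => rw [pi_eq_sum_univ' z]
      rw [map_sum, hc]
      refine Finset.sum_congr rfl fun i _ => ?_
      rw [map_smul, smul_eq_mul]
    have h1 : ∑ i, c i • τ i = 0 := by
      ext E
      have h2 : ev E ∈ LinearMap.ker f := hf (Submodule.subset_span ⟨E, rfl⟩)
      rw [LinearMap.mem_ker, hfc, hev] at h2
      rw [MultilinearMap.sum_apply, zero_apply]
      rw [← h2]
      exact Finset.sum_congr rfl fun i _ => by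
        rw [MultilinearMap.smul_apply, smul_eq_mul, mul_comm]
    have h2 := Fintype.linearIndependent_iff.1 h c h1
    apply hf0
    ext z
    simp only [LinearMap.coe_comp, LinearMap.coe_single, Function.comp_apply,
      LinearMap.zero_apply]
    rw [hfc]
    exact Finset.sum_eq_zero fun i _ => by rw [h2 i, mul_zero]
  obtain ⟨F, hFs, hF1, hF2⟩ := Submodule.exists_fun_fin_finrank_span_eq K (Set.range ev)
  have hq : Module.finrank K (Submodule.span K (Set.range ev)) = q := by
    rw [hspan, finrank_top, Module.finrank_fin_fun]
  obtain ⟨G, hG⟩ : ∃ G : Fin q → (Fin q → K), (∀ j, G j ∈ Set.range ev) ∧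
      LinearIndependent K G := by
    refine ⟨F ∘ Fin.cast hq.symm, fun j => hFs _, ?_⟩
    exact hF2.comp _ (Fin.cast_injective _)
  choose E hE using hG.1
  intro h0
  have h1 : detTensor τ (fun c => E (finProdFinEquiv.symm c).1 (finProdFinEquiv.symm c).2) = 0 := by
    rw [h0]
    rfl
  rw [detTensor_apply] at h1
  have h2 : (Matrix.of fun i j => τ i fun a =>
      E (finProdFinEquiv.symm (finProdFinEquiv (j, a))).1
        (finProdFinEquiv.symm (finProdFinEquiv (j, a))).2) = (Matrix.of G).transpose := by
    ext i j
    rw [Matrix.of_apply, Matrix.transpose_apply, Matrix.of_apply, ← hE j, hev]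
    simp only [Equiv.symm_apply_apply]
  rw [h2, Matrix.det_transpose] at h1
  have h3 : LinearIndependent K (Matrix.of G).row := hG.2
  rw [Matrix.linearIndependent_rows_iff_isUnit, Matrix.isUnit_iff_isUnit_det, h1] at h3
  exact not_isUnit_zero h3

/-- the determinants of holomorphic tensor fields are holomorphic -/
theorem detTensor_section {τ : Fin q → Tensor K r} (h : ∀ i, HolomorphicTensor n (τ i))
    {σ : Tensor K (q * r)} {g : K} (hg : detTensor τ = g • σ) : IsTensorSection n ∅ σ 1 g := by
  have key : ∀ P : Place ℂ K, Divisorial n P → ∀ E : Fin (q * r) → Derivation ℂ K K,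
      (∀ i, DerReg P (E i)) → P.Reg (g * σ E ^ 1) := by
    intro P hP E hE
    have h1 : g * σ E ^ 1 = detTensor τ E := by
      rw [hg, pow_one, MultilinearMap.smul_apply, smul_eq_mul]
    rw [h1, detTensor_apply]
    exact det_reg fun i j => h i P hP _ fun a => hE _
  exact ⟨fun P hP E hE => key P hP E fun i => derLog_reg' (hE i), fun P hP _ E hE => key P hP E hE⟩

/-- the coordinates of tensor fields -/
noncomputable def coords (r : ℕ) (E : Fin n → Derivation ℂ K K) :
    Tensor K r →ₗ[K] ((Fin r → Fin n) → K) where
  toFun τ I := τ fun k => E (I k)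
  map_add' _ _ := rfl
  map_smul' _ _ := rfl

theorem card_le {x : Fin n → K} {E : Fin n → Derivation ℂ K K} (hx : IsTranscendenceBasis ℂ x)
    (hE : ∀ i j, E i (x j) = if i = j then 1 else 0) {τ : Fin q → Tensor K r}
    (h : LinearIndependent K τ) : q ≤ n ^ r := by
  have h1 : LinearMap.ker (coords r E) = ⊥ := by
    rw [LinearMap.ker_eq_bot']
    intro σ hσ
    ext D
    rw [tensor_coord hx hE σ D, zero_apply]
    exact Finset.sum_eq_zero fun I _ => by
      have h2 : σ (fun k => E (I k)) = 0 := congrFun hσ I
      rw [h2, mul_zero]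
  have h2 := (h.map' (coords r E) h1).fintype_card_le_finrank
  rw [Fintype.card_fin, Module.finrank_fintype_fun_eq_card, Fintype.card_fun, Fintype.card_fin,
    Fintype.card_fin] at h2
  exact h2

end

end Pool.Agent.R887
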