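import Pool.Agent.R887.TensE
import Pool.Agent.R887.PsF

/-!
**The holomorphic tensor fields on the varieties with multi-valued maps of large degree are
determined by their values at one point.**
-/

set_option autoImplicit false
set_option linter.overlappingInstances false
set_option linter.unusedSectionVars false

open FF MvPolynomial Pool.Agent.W602.GT Pool.Agent.W603.LV Pool.Agent.W619.PQ
open Pool.Agent.Y172 Pool.Agent.Y191

namespace Pool.Agent.R887

section

variable {K : Type} [Field K] [Algebra ℂ K] {N n r : ℕ} {y : Fin (N + 1) → K}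

/-- a function of degree zero is constant -/
theorem const_of_degree (hy : NormalModel y) (hn : Algebra.trdeg ℂ K = n) (hn0 : 0 < n) {g : K}
    (h : ∀ u : Fin (n - 1) → K, (∀ a, IsPencil y (u a)) →
      degreeOver u (fun _ : Fin 1 => g) = 0) : ∃ z : ℂ, algebraMap ℂ K z = g := by
  by_cases htr : Transcendental ℂ g
  · exfalso
    have h1 : AlgebraicIndependent ℂ (fun _ : Fin 1 => g) :=
      algebraicIndependent_unique_type_iff.2 htr
    obtain ⟨u, hu, hd⟩ := exists_complete hy hn (j := 1) (by omega) h1
    have h2 := h u hu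
    unfold degreeOver at h2
    unfold dg at hd
    rw [Set.Sum.elim_range] at hd
    omega
  · have halg : IsAlgebraic ℂ g := by
      rwa [Transcendental, not_not] at htr
    have hint : IsIntegral ℂ g := halg.isIntegral
    have h1 := IsAlgClosed.degree_eq_one_of_irreducible ℂ (minpoly.irreducible hint)
    exact minpoly.mem_range_of_degree_eq_one ℂ g h1

/-- linear independence over the constants and over the functions -/
theorem hol_indep {x : Fin n → K} {E : Fin n → Derivation ℂ K K} (hx : IsTranscendenceBasis ℂ x)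
    (hE : ∀ i j, E i (x j) = if i = j then 1 else 0)
    (H : ∀ q, q ≤ n ^ r → ∀ σ : Tensor K (q * r), σ ≠ 0 → ∀ g : K,
      IsTensorSection n ∅ σ 1 1 → IsTensorSection n ∅ σ 1 g → ∃ z : ℂ, algebraMap ℂ K z = g)
    {l : ℕ} {τ : Fin l → Tensor K r} (hτ : ∀ i, HolomorphicTensor n (τ i))
    (h : LinearIndependent ℂ τ) : LinearIndependent K τ := by
  classical
  induction l with
  | zero => exact linearIndependent_empty_type
  | succ q ih =>
    rw [linearIndependent_finSucc'] at h ⊢
    have h1 := ih (τ := Fin.init τ) (fun i => hτ _) h.1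
    refine ⟨h1, fun hmem => h.2 ?_⟩
    have hq := card_le hx hE h1
    rw [Submodule.mem_span_range_iff_exists_fun] at hmem
    obtain ⟨g, hg⟩ := hmem
    have hσ0 := detTensor_ne h1
    have hs1 : IsTensorSection n ∅ (detTensor (Fin.init τ)) 1 1 :=
      detTensor_section (τ := Fin.init τ) (fun i => hτ _) (one_smul _ _).symm
    have hz : ∀ i, ∃ z : ℂ, algebraMap ℂ K z = g i := by
      intro i
      refine H q hq _ hσ0 _ hs1 (detTensor_section
        (τ := Function.update (Fin.init τ) i (τ (Fin.last q))) (fun j => ?_) ?_)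
      · by_cases hj : j = i
        · rw [hj, Function.update_self]
          exact hτ _
        · rw [Function.update_of_ne hj]
          exact hτ _
      · ext F
        rw [MultilinearMap.smul_apply, detTensor_apply, detTensor_apply, ← Matrix.det_updateRow_sum]
        congr 1
        ext j k
        rw [Matrix.of_apply, Matrix.updateRow_apply]
        by_cases hj : j = i
        · rw [if_pos hj, hj, Function.update_self, ← hg, MultilinearMap.sum_apply,
            Finset.sum_apply]
          rfl
        · rw [if_neg hj, Function.update_of_ne hj]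
          rfl
    choose z hz using hz
    rw [Submodule.mem_span_range_iff_exists_fun]
    refine ⟨z, ?_⟩
    rw [← hg]
    refine Finset.sum_congr rfl fun i _ => ?_
    ext F
    rw [MultilinearMap.smul_apply, MultilinearMap.smul_apply, ← hz i, Algebra.smul_def,
      smul_eq_mul]

end

section

variable {K' : Type} [Field K'] [Algebra ℂ K'] {N' : ℕ} {y' : Fin (N' + 1) → K'} {n : ℕ}

/-- **Holomorphic tensor fields and one multi-valued map.** -/
theorem hol_one (hy' : NormalModel y') (hn' : Algebra.trdeg ℂ K' = n) (hn0 : 0 < n)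
    {S : Set (Place ℂ K')} (hS : S.Finite) :
    ∃ C : ℕ, 0 < C ∧ ∀ {K L : Type} [Field K] [Algebra ℂ K] [Field L] [Algebra ℂ L] {N : ℕ}
      {y : Fin (N + 1) → K}, NormalModel y → Algebra.trdeg ℂ K = n →
      ∀ (φ : K →ₐ[ℂ] L) (ψ : K' →ₐ[ℂ] L),
      FiniteDimensional ψ.fieldRange L → UnramifiedOutside ψ y' S →
      ∀ {r : ℕ} {c : ℝ}, MultiDegreeLe φ ψ y y' (n - 1) 1 c → c * (C * r * n ^ r) < 1 →
      ∀ {l : ℕ} {τ : Fin l → Tensor K r}, (∀ i, HolomorphicTensor n (τ i)) →
      LinearIndependent ℂ τ → LinearIndependent K τ ∧ l ≤ n ^ r := by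
  obtain ⟨C, hC, hM⟩ := tens_one hy' hn' hn0 hS
  refine ⟨C, hC, ?_⟩
  intro K L _ _ _ _ N y hy hn φ ψ hψ hun r c hc hlt l τ hτ hind
  have hess := hy.ess
  obtain ⟨x, E, hx, hE⟩ := exists_crd hn (k := ℂ) (K := K)
  have hc0 : 0 ≤ c := multi_nonneg' hy hn hy' hn' φ ψ hψ hc
  have h1 := hol_indep hx hE (fun q hq σ hσ g hs1 hsg => const_of_degree hy hn hn0 fun u hu => by
    have h2 := hM hy hn φ ψ hψ hun (fun _ _ _ _ _ _ P _ _ => Set.notMem_empty P) hσ (j := 1)
      (by omega) hc 1 le_rfl u hu ![1, g] (fun i => by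
        fin_cases i
        · exact hs1
        · exact hsg) one_ne_zero
    have h3 : (fun i : Fin 1 => (![1, g] : Fin 2 → K) i.succ / (![1, g] : Fin 2 → K) 0) =
        fun _ => g := by
      funext i
      fin_cases i
      change g / 1 = g
      rw [div_one]
    rw [h3, pow_one] at h2
    have h4 : ((q : ℝ)) ≤ (n : ℝ) ^ r := by exact_mod_cast hq
    have h5 : c * (C * (q * r : ℕ) * (1 : ℕ)) ≤ c * (C * r * n ^ r) := by
      refine mul_le_mul_of_nonneg_left ?_ hc0
      push_cast
      have h6 : (0 : ℝ) ≤ C * r := by positivity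
      have h7 := mul_le_mul_of_nonneg_left h4 h6
      linarith
    have h6 : (degreeOver u (fun _ : Fin 1 => g) : ℝ) < 1 := lt_of_le_of_lt (h2.trans h5) hlt
    have h7 : degreeOver u (fun _ : Fin 1 => g) < 1 := by exact_mod_cast h6
    omega) hτ hind
  exact ⟨h1, card_le hx hE h1⟩

end

end Pool.Agent.R887
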