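import Pool.Agent.R887.BezB

/-!
The degrees of norms.
-/

set_option autoImplicit false
set_option linter.overlappingInstances false
set_option linter.unusedSectionVars false

open FF Module MvPolynomial Pool.Agent.W602.GT Pool.Agent.W603.LV Pool.Agent.W619.PQ
open Pool.Agent.Y172 Pool.Agent.Y191
open scoped IntermediateField

namespace Pool.Agent.R887

section

variable {K : Type} [Field K] [Algebra ℂ K] {n : ℕ}

theorem elim_range {l : ℕ} (u : Fin l → K) (z : K) :
    Set.range (Sum.elim u (fun _ : Fin 1 => z)) = Set.range u ∪ {z} := by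
  rw [Set.Sum.elim_range, Set.range_const]

theorem degreeOver_finrank {l : ℕ} (u : Fin l → K) (z : K) :
    degreeOver u (fun _ : Fin 1 => z) =
      finrank (IntermediateField.adjoin ℂ (Set.range u))⟮z⟯ K := by
  rw [degreeOver_eq]
  exact dg_simple (elim_range u z)

theorem transc_of_degree (hn : Algebra.trdeg ℂ K = n) (hn0 : 0 < n) {u : Fin (n - 1) → K} {z : K}
    (h : degreeOver u (fun _ : Fin 1 => z) ≠ 0) :
    Transcendental (IntermediateField.adjoin ℂ (Set.range u)) z := by
  rw [degreeOver_eq] at h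
  have hcard : Nat.card (Fin (n - 1) ⊕ Fin 1) = n := by
    rw [Nat.card_eq_fintype_card, Fintype.card_sum, Fintype.card_fin, Fintype.card_fin]
    omega
  have hbas := basis_of_dg (k := ℂ) (w := Sum.elim u (fun _ : Fin 1 => z)) (by rw [hn, hcard]) h
  have h1 := transc_of_basis hbas.1 (s := {Sum.inr 0}ᶜ) (i := Sum.inr 0) (by simp)
  have h2 : Sum.elim u (fun _ : Fin 1 => z) '' {Sum.inr 0}ᶜ = Set.range u := by
    ext x
    simp only [Set.mem_image, Set.mem_compl_iff, Set.mem_singleton_iff, Set.mem_range]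
    constructor
    · rintro ⟨k, hk, rfl⟩
      rcases k with k | k
      · exact ⟨k, rfl⟩
      · exact absurd (by rw [Subsingleton.elim k 0]) hk
    · rintro ⟨k, rfl⟩
      exact ⟨Sum.inl k, by simp, rfl⟩
  rw [h2] at h1
  exact h1

/-- the degree of a product -/
theorem degree_mul (hn : Algebra.trdeg ℂ K = n) (hn0 : 0 < n) {u : Fin (n - 1) → K} {f g : K}
    (hf : f ≠ 0) (hg : g ≠ 0) :
    degreeOver u (fun _ : Fin 1 => f * g) ≤
      degreeOver u (fun _ : Fin 1 => f) + degreeOver u (fun _ : Fin 1 => g) := by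
  classical
  by_cases h0 : degreeOver u (fun _ : Fin 1 => f * g) = 0
  · rw [h0]
    exact Nat.zero_le _
  obtain ⟨F, hF⟩ : ∃ F, F = IntermediateField.adjoin ℂ (Set.range u) := ⟨_, rfl⟩
  have htr : Transcendental F (f * g) := by
    rw [hF]
    exact transc_of_degree hn hn0 h0
  rw [degreeOver_finrank, ← hF] at h0
  have h3 : FiniteDimensional F⟮f * g⟯ K := FiniteDimensional.of_finrank_pos
    (Nat.pos_of_ne_zero h0)
  have : IsFF F K := IsFF.of_finite htr h3
  rw [degreeOver_finrank, degreeOver_finrank, degreeOver_finrank, ← hF]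
  have key : ∀ z : K, z ≠ 0 → ddeg (polar (k := F) z) ≤ (finrank F⟮z⟯ K : ℤ) := by
    intro z hz
    by_cases hz1 : Transcendental F z
    · rw [ddeg_polar hz1]
    · have halg : IsAlgebraic F z := by rwa [Transcendental, not_not] at hz1
      have h1 : polar (k := F) z = 0 := by
        ext Q
        rw [polar_apply, Finsupp.zero_apply, Q.ord_eq_zero_of_isAlgebraic hz halg]
        simp
      rw [h1, ddeg_zero]
      exact Int.natCast_nonneg _
  have h4 : polar (k := F) (f * g) ≤ polar (k := F) f + polar (k := F) g := by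
    intro Q
    rw [Finsupp.add_apply, polar_apply, polar_apply, polar_apply, Q.ord_mul hf hg]
    rcases le_total (-Q.ord f) 0 with h | h <;> rcases le_total (-Q.ord g) 0 with h' | h' <;>
      simp only [max_def] <;> split_ifs <;> omega
  have h5 := ddeg_mono h4
  rw [ddeg_add, ddeg_polar htr] at h5
  have h6 := key f hf
  have h7 := key g hg
  have h8 : (finrank F⟮f * g⟯ K : ℤ) ≤ (finrank F⟮f⟯ K : ℤ) + (finrank F⟮g⟯ K : ℤ) := by linarith
  exact_mod_cast h8

theorem degree_one (hn : Algebra.trdeg ℂ K = n) (hn0 : 0 < n) (u : Fin (n - 1) → K) :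
    degreeOver u (fun _ : Fin 1 => (1 : K)) = 0 := by
  by_contra h0
  exact transc_of_degree hn hn0 h0 isAlgebraic_one

theorem degree_prod (hn : Algebra.trdeg ℂ K = n) (hn0 : 0 < n) {u : Fin (n - 1) → K} {ι : Type}
    (s : Finset ι) (f : ι → K) (hf : ∀ i ∈ s, f i ≠ 0) :
    degreeOver u (fun _ : Fin 1 => ∏ i ∈ s, f i) ≤
      ∑ i ∈ s, degreeOver u (fun _ : Fin 1 => f i) := by
  classical
  induction s using Finset.induction_on with
  | empty =>
    rw [Finset.sum_empty, Finset.prod_empty, degree_one hn hn0]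
  | insert a s ha ih =>
    rw [Finset.prod_insert ha, Finset.sum_insert ha]
    refine (degree_mul hn hn0 (hf a (Finset.mem_insert_self _ _))
      (Finset.prod_ne_zero_iff.2 fun i hi => hf i (Finset.mem_insert_of_mem hi))).trans ?_
    exact Nat.add_le_add_left (ih fun i hi => hf i (Finset.mem_insert_of_mem hi)) _

/-- automorphisms do not change the degree -/
theorem dg_aut (σ : K ≃ₐ[ℂ] K) {ι : Type} (w : ι → K) : dg ℂ (fun i => σ (w i)) = dg ℂ w := by
  unfold dg
  obtain ⟨M, hM⟩ : ∃ M, M = IntermediateField.adjoin ℂ (Set.range w) := ⟨_, rfl⟩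
  have h1 : IntermediateField.adjoin ℂ (Set.range fun i => σ (w i)) = M.map σ.toAlgHom := by
    rw [hM, IntermediateField.adjoin_map, ← Set.range_comp]
    rfl
  rw [h1, ← hM]
  refine (Algebra.finrank_eq_of_equiv_equiv
    (IntermediateField.intermediateFieldMap σ M).toRingEquiv σ.toRingEquiv ?_).symm
  ext x
  rfl

end

section

variable {K Ω : Type} [Field K] [Field Ω] [Algebra ℂ K] [Algebra ℂ Ω] [Algebra K Ω]
  [IsScalarTower ℂ K Ω] [FiniteDimensional K Ω] [IsGalois K Ω] {n : ℕ}

/-- **The degree of a norm.** -/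
theorem degree_norm (hnΩ : Algebra.trdeg ℂ Ω = n) (hn0 : 0 < n) {u : Fin (n - 1) → K} {v : Ω}
    (hv : v ≠ 0) : degreeOver u (fun _ : Fin 1 => Algebra.norm K v) ≤
      degreeOver (fun a => algebraMap K Ω (u a)) (fun _ : Fin 1 => v) := by
  classical
  have hG : Fintype.card (Ω ≃ₐ[K] Ω) = finrank K Ω := by
    rw [← Nat.card_eq_fintype_card]
    exact IsGalois.card_aut_eq_finrank K Ω
  have hpos : 0 < finrank K Ω := finrank_pos
  have hst : ∀ σ : Ω ≃ₐ[K] Ω, ∃ τ : Ω ≃ₐ[ℂ] Ω, ∀ z, τ z = σ z := fun σ =>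
    ⟨σ.restrictScalars ℂ, fun _ => rfl⟩
  have h1 : degreeOver (fun a => algebraMap K Ω (u a))
      (fun _ : Fin 1 => algebraMap K Ω (Algebra.norm K v)) =
      degreeOver u (fun _ : Fin 1 => Algebra.norm K v) * finrank K Ω := by
    rw [degreeOver_eq, degreeOver_eq, ← dg_tower]
    congr 1
    funext k
    rcases k with k | k <;> rfl
  have h2 : algebraMap K Ω (Algebra.norm K v) = ∏ g : Ω ≃ₐ[K] Ω, g v :=
    Algebra.norm_eq_prod_automorphisms K v
  have h3 : ∀ g : Ω ≃ₐ[K] Ω, degreeOver (fun a => algebraMap K Ω (u a)) (fun _ : Fin 1 => g v) =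
      degreeOver (fun a => algebraMap K Ω (u a)) (fun _ : Fin 1 => v) := by
    intro g
    obtain ⟨τ, hτ⟩ := hst g
    rw [degreeOver_eq, degreeOver_eq, ← dg_aut τ (Sum.elim (fun a => algebraMap K Ω (u a))
      fun _ : Fin 1 => v)]
    congr 1
    funext k
    rcases k with k | k
    · change algebraMap K Ω (u k) = τ (algebraMap K Ω (u k))
      rw [hτ, AlgEquiv.commutes]
    · exact (hτ v).symm
  have h4 := degree_prod hnΩ hn0 (u := fun a => algebraMap K Ω (u a)) Finset.univ
    (fun g : Ω ≃ₐ[K] Ω => g v) (fun g _ => by rwa [Ne, map_eq_zero])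
  rw [← h2, h1, Finset.sum_congr rfl fun g _ => h3 g, Finset.sum_const, Finset.card_univ, hG,
    smul_eq_mul, mul_comm] at h4
  exact Nat.le_of_mul_le_mul_left h4 hpos

end

end Pool.Agent.R887
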