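import Pool.Agent.R887.TrvA

/-!
Divisors which are bounded by hyperplane sections, and norms.
-/

set_option autoImplicit false
set_option linter.overlappingInstances false
set_option linter.unusedSectionVars false

open FF Module MvPolynomial Pool.Agent.W602.GT Pool.Agent.W603.LV Pool.Agent.W619.PQ
open Pool.Agent.Y172 Pool.Agent.Y191
open scoped IntermediateField

namespace Pool.Agent.R887

section

variable {K K' Ω : Type} [Field K] [Field K'] [Field Ω] [Algebra ℂ K] [Algebra ℂ K'] [Algebra ℂ Ω]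
  [Algebra K Ω] [IsScalarTower ℂ K Ω] [FiniteDimensional K Ω] [Algebra K' Ω]
  [IsScalarTower ℂ K' Ω] [FiniteDimensional K' Ω] {n N N' : ℕ} {y : Fin (N + 1) → K}
  {y' : Fin (N' + 1) → K'}

/-- the orders of norms, from the orders of the conjugates -/
theorem norm_ord_ge [IsGalois K Ω] {P : Place ℂ K} {R : Place ℂ Ω} {E : ℕ} (hR : Over R P E)
    {z : Ω} (hz : z ≠ 0) {v : Ω} (hv : v ≠ 0) {g : ℕ} {d ρ : ℝ}
    (h : ∀ (R1 : Place ℂ Ω) (e : ℕ), Over R1 P e → (e : ℝ) * d ≤ R1.ord z - g * R1.ord v)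
    (hρ : (E : ℝ) * d + ρ ≤ R.ord z - g * R.ord v) :
    (finrank K Ω : ℝ) * d + ρ / E ≤
      P.ord (Algebra.norm K z) - g * P.ord (Algebra.norm K v) := by
  classical
  have hG : Fintype.card (Ω ≃ₐ[K] Ω) = finrank K Ω := by
    rw [← Nat.card_eq_fintype_card]
    exact IsGalois.card_aut_eq_finrank K Ω
  have hnorm : ∀ x : Ω, x ≠ 0 → (E : ℤ) * P.ord (Algebra.norm K x) =
      ∑ σ : Ω ≃ₐ[K] Ω, R.ord (σ x) := by
    intro x hx
    rw [← hR.2, Algebra.norm_eq_prod_automorphisms K x,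
      ord_finprod R _ _ fun σ _ => by rwa [Ne, map_eq_zero]]
  have hnorm' : ∀ x : Ω, x ≠ 0 → (E : ℝ) * P.ord (Algebra.norm K x) =
      ∑ σ : Ω ≃ₐ[K] Ω, (R.ord (σ x) : ℝ) := by
    intro x hx
    have h1 : (((E : ℤ) * P.ord (Algebra.norm K x) : ℤ) : ℝ) =
        ((∑ σ : Ω ≃ₐ[K] Ω, R.ord (σ x) : ℤ) : ℝ) := by rw [hnorm x hx]
    push_cast at h1
    exact h1
  have hE : (0 : ℝ) < E := by exact_mod_cast hR.1
  have hσ : ∀ σ : Ω ≃ₐ[K] Ω, (E : ℝ) * d + (if σ = 1 then ρ else 0) ≤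
      R.ord (σ z) - g * R.ord (σ v) := by
    intro σ
    split_ifs with hσ1
    · rw [hσ1]
      exact hρ
    obtain ⟨R1, e, e1, hR1, he1, hee, hord⟩ := below_emb (L := Ω) (σ : Ω →ₐ[K] Ω) hR
    have h1 : R.ord (σ z) = e1 * R1.ord z := hord z
    have h2 : R.ord (σ v) = e1 * R1.ord v := hord v
    have h3 := mul_le_mul_of_nonneg_left (h R1 e hR1) (show (0 : ℝ) ≤ e1 from Nat.cast_nonneg _)
    rw [h1, h2, hee]
    push_cast
    linarith
  have h1 : ∑ σ : Ω ≃ₐ[K] Ω, ((E : ℝ) * d + (if σ = 1 then ρ else 0)) ≤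
      ∑ σ : Ω ≃ₐ[K] Ω, ((R.ord (σ z) : ℝ) - g * R.ord (σ v)) :=
    Finset.sum_le_sum fun σ _ => hσ σ
  rw [Finset.sum_add_distrib, Finset.sum_ite_eq' Finset.univ (1 : Ω ≃ₐ[K] Ω),
    if_pos (Finset.mem_univ _), Finset.sum_const, Finset.card_univ, hG, nsmul_eq_mul,
    Finset.sum_sub_distrib, ← Finset.mul_sum, ← hnorm' z hz, ← hnorm' v hv] at h1
  have h2 : (E : ℝ) * ((finrank K Ω : ℝ) * d + ρ / E) ≤
      E * (P.ord (Algebra.norm K z) - g * P.ord (Algebra.norm K v)) := by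
    rw [mul_add, mul_div_cancel₀ _ hE.ne']
    linarith
  exact le_of_mul_le_mul_left h2 hE

/-- **The push forward of a bound by hyperplane sections.** -/
theorem push_step [IsGalois K Ω] (hy : NormalModel y) (hn : Algebra.trdeg ℂ K = n) (hn0 : 0 < n)
    (hnΩ : Algebra.trdeg ℂ Ω = n) (hy' : NormalModel y') {i0 : Fin (N + 1)} (hi0 : y i0 ≠ 0)
    {i : Fin (N' + 1)} (hi : y' i ≠ 0) {D : Place ℂ K → ℝ} {D' : Place ℂ K' → ℝ} {δ : Ω}
    (hδ : δ ≠ 0) (hinv : ∀ (R : Place ℂ Ω) (P : Place ℂ K) (e : ℕ), Over R P e →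
      IsPrimeDivisor y P → ∀ (P' : Place ℂ K') (e' : ℕ), Over R P' e' →
        IsPrimeDivisor y' P' ∧ (e : ℝ) * D P ≤ e' * D' P' + R.ord δ) {R0 : Place ℂ Ω}
    {P0 : Place ℂ K} {E0 : ℕ} (hR0 : Over R0 P0 E0) (hP0 : IsPrimeDivisor y P0) {ρ : ℝ}
    (hρ : ∀ (P' : Place ℂ K') (e' : ℕ), Over R0 P' e' →
      (E0 : ℝ) * D P0 + ρ ≤ e' * D' P' + R0.ord δ) {B : ℕ}
    (hB : ∀ u : Fin (n - 1) → K, (∀ a, IsPencil y (u a)) →
      ∀ v ∈ Submodule.span ℂ (affL Ω y' i),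
        degreeOver (fun a => algebraMap K Ω (u a)) (fun _ : Fin 1 => v) ≤ B) {q : K'}
    (hq0 : q ≠ 0) {g r : ℕ} (hq : ∀ P' l, IsPrimeDivisor y' P' → Centred y' l P' →
      (r : ℝ) * D' P' ≤ P'.ord q + g * P'.ord (y' i / y' l)) :
    ∃ k : K, k ≠ 0 ∧ (∀ P l, IsPrimeDivisor y P → Centred y l P →
      ((finrank K Ω * r : ℕ) : ℝ) * D P ≤
        P.ord k + ((g * B : ℕ) : ℝ) * P.ord (y i0 / y l)) ∧ ∀ l, Centred y l P0 →
      ((finrank K Ω * r : ℕ) : ℝ) * D P0 + r * ρ / E0 ≤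
        P0.ord k + ((g * B : ℕ) : ℝ) * P0.ord (y i0 / y l) := by
  classical
  have hess := hy.ess
  have h1S : (1 : Ω) ∈ affL Ω y' i := ⟨i, by simp only []; rw [div_self hi, map_one]⟩
  have hSfin : (affL Ω y' i).Finite := Set.finite_range _
  obtain ⟨μ, hμ⟩ := exists_isMin (k := ℂ) (S := affL Ω y' i) hSfin ⟨1, h1S, one_ne_zero⟩
  have hμ0 : ∀ R, μ R ≤ 0 := fun R => hμ.nonpos h1S R
  obtain ⟨z, hz⟩ : ∃ z, z = algebraMap K' Ω q * δ ^ r := ⟨_, rfl⟩
  have hqΩ : algebraMap K' Ω q ≠ 0 := by rwa [Ne, map_eq_zero]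
  have hz0 : z ≠ 0 := by
    rw [hz]
    exact mul_ne_zero hqΩ (pow_ne_zero _ hδ)
  -- the bounds over the prime divisors
  have star0 : ∀ (R : Place ℂ Ω) (P : Place ℂ K) (e : ℕ) (d : ℝ), Over R P e →
      IsPrimeDivisor y P → (∀ (P' : Place ℂ K') (e' : ℕ), Over R P' e' →
        (e : ℝ) * D P + d ≤ e' * D' P' + R.ord δ) →
      (e : ℝ) * (r * D P) + r * d ≤ R.ord z - g * μ R := by
    intro R P e d hov hP hd
    have hov' := over_bel K' R
    obtain ⟨hP', -⟩ := hinv R P e hov hP _ _ hov'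
    have h1 := hd _ _ hov'
    obtain ⟨l, hl⟩ := exists_centred hy' (bel K' R)
    have h2 := hq _ l hP' hl
    obtain ⟨e', he'⟩ : ∃ e', e' = ram K' R := ⟨_, rfl⟩
    rw [← he'] at h1 hov'
    have hyl : algebraMap K' Ω (y' l / y' i) ≠ 0 := by
      rw [Ne, map_eq_zero]
      exact div_ne_zero hl.1 hi
    have h3 : μ R ≤ R.ord (algebraMap K' Ω (y' l / y' i)) := hμ.le R _ ⟨l, rfl⟩ hyl
    have h4 : R.ord (algebraMap K' Ω (y' l / y' i)) =
        -((e' : ℤ) * (bel K' R).ord (y' i / y' l)) := by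
      rw [← hov'.2, ← R.ord_inv, ← map_inv₀, inv_div]
    rw [h4] at h3
    have h5 : (μ R : ℝ) ≤ -((e' : ℝ) * (bel K' R).ord (y' i / y' l)) := by exact_mod_cast h3
    have h6 : (R.ord z : ℝ) = e' * (bel K' R).ord q + r * R.ord δ := by
      rw [hz, R.ord_mul hqΩ (pow_ne_zero _ hδ), R.ord_pow, hov'.2]
      push_cast
      ring
    rw [h6]
    have hr0 : (0 : ℝ) ≤ r := Nat.cast_nonneg _
    have he0 : (0 : ℝ) ≤ e' := Nat.cast_nonneg _
    have hg0 : (0 : ℝ) ≤ g := Nat.cast_nonneg _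
    have h7 := mul_le_mul_of_nonneg_left h1 hr0
    have h8 := mul_le_mul_of_nonneg_left h2 he0
    have h9 := mul_le_mul_of_nonneg_left h5 hg0
    linarith
  have star : ∀ (R : Place ℂ Ω) (P : Place ℂ K) (e : ℕ), Over R P e → IsPrimeDivisor y P →
      (e : ℝ) * (r * D P) ≤ R.ord z - g * μ R := by
    intro R P e hov hP
    have h1 := star0 R P e 0 hov hP fun P' e' h => by
      rw [add_zero]
      exact (hinv R P e hov hP P' e' h).2
    rwa [mul_zero, add_zero] at h1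
  -- the places with poles
  obtain ⟨T, hT⟩ : ∃ T : Set (Place ℂ Ω), T = ⋃ s ∈ affL Ω y' i,
      {R : Place ℂ Ω | IsPrimeDivisor y (bel K R) ∧ R.ord s ≠ 0} := ⟨_, rfl⟩
  have hTfin : T.Finite := by
    rw [hT]
    refine hSfin.biUnion fun s _ => ?_
    by_cases hs : s = 0
    · refine Set.finite_empty.subset ?_
      rintro R ⟨-, h⟩
      exact absurd (by rw [hs, R.ord_zero]) h
    · exact finite_ord_up hy hs
  obtain ⟨S', hS'⟩ : ∃ S' : Set (Place ℂ Ω), S' = ⋃ P ∈ bel K '' T, {R | ∃ e, Over R P e} :=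
    ⟨_, rfl⟩
  have hcK : CharZero K := charZero_of_injective_algebraMap (algebraMap ℂ K).injective
  have hS'fin : S'.Finite := by
    rw [hS']
    exact (hTfin.image _).biUnion fun P _ => Pool.Agent.Y172.finite_over (K' := Ω) P
  obtain ⟨v, hv, hv0, hvo⟩ := exists_generic (k₀ := ℂ) (k := ℂ) hSfin S' hS'fin
    ⟨1, h1S, one_ne_zero⟩
  obtain ⟨q2, hq20, hq2⟩ := norm_bound hy hn hn0 hi0 (w := Algebra.norm K v) (B := B)
    fun u hu => (degree_norm hnΩ hn0 hv0).trans (hB u hu v hv)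
  have hNz : Algebra.norm K z ≠ 0 := by rwa [Ne, Algebra.norm_eq_zero_iff]
  have hg0 : (0 : ℝ) ≤ g := Nat.cast_nonneg _
  -- the main bound
  have main : ∀ (P : Place ℂ K) (l : Fin (N + 1)) (R : Place ℂ Ω) (E : ℕ) (d : ℝ), Over R P E →
      IsPrimeDivisor y P → Centred y l P → (∀ (P' : Place ℂ K') (e' : ℕ), Over R P' e' →
        (E : ℝ) * D P + d ≤ e' * D' P' + R.ord δ) →
      ((finrank K Ω * r : ℕ) : ℝ) * D P + r * d / E ≤
        P.ord (Algebra.norm K z * q2 ^ g) + ((g * B : ℕ) : ℝ) * P.ord (y i0 / y l) := by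
    intro P l R E d hR hP hl hd
    obtain ⟨h1, h2⟩ := hq2 P l hl
    have h1' : (0 : ℝ) ≤ P.ord q2 + B * P.ord (y i0 / y l) := by exact_mod_cast h1
    have h2' : -(P.ord (Algebra.norm K v) : ℝ) ≤ P.ord q2 + B * P.ord (y i0 / y l) := by
      exact_mod_cast h2
    have hs := star0 R P E d hR hP hd
    rw [P.ord_mul hNz (pow_ne_zero _ hq20), P.ord_pow]
    push_cast
    by_cases hPT : P ∈ bel K '' T
    · have hvm : ∀ (R1 : Place ℂ Ω) (e : ℕ), Over R1 P e → (R1.ord v : ℝ) ≤ μ R1 := by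
        intro R1 e hR1
        have h5 : R1 ∈ S' := by
          rw [hS']
          exact Set.mem_iUnion₂.2 ⟨P, hPT, ⟨e, hR1⟩⟩
        obtain ⟨s, hs, hs0, h6⟩ := hμ.att R1
        have h7 := hvo R1 h5 s hs hs0
        rw [h6] at h7
        exact_mod_cast h7
      have h3 := norm_ord_ge (g := g) (d := r * D P) (ρ := r * d) hR hz0 hv0 (fun R1 e hR1 => by
        have h4 := star R1 P e hR1 hP
        have h9 := mul_le_mul_of_nonneg_left (hvm R1 e hR1) hg0
        linarith) (by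
        have h9 := mul_le_mul_of_nonneg_left (hvm R E hR) hg0
        linarith)
      have h4 := mul_le_mul_of_nonneg_left h2' hg0
      linarith
    · have hm0 : ∀ (R1 : Place ℂ Ω) (e : ℕ), Over R1 P e → μ R1 = 0 := by
        intro R1 e hR1
        by_contra h6
        apply hPT
        obtain ⟨s, hs, hs0, h7⟩ := hμ.att R1
        obtain ⟨h8, -⟩ := bel_eq K hR1
        refine ⟨R1, ?_, h8⟩
        rw [hT]
        refine Set.mem_iUnion₂.2 ⟨s, hs, ?_, ?_⟩
        · rw [h8]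
          exact hP
        · rw [h7]
          exact h6
      have h3 := norm_ord_ge (g := 0) (d := r * D P) (ρ := r * d) hR hz0 hv0 (fun R1 e hR1 => by
        have h4 := star R1 P e hR1 hP
        rw [hm0 R1 e hR1] at h4
        push_cast at h4 ⊢
        linarith) (by
        rw [hm0 R E hR] at hs
        push_cast at hs ⊢
        linarith)
      push_cast at h3
      have h4 := mul_le_mul_of_nonneg_left h1' hg0
      linarith
  refine ⟨Algebra.norm K z * q2 ^ g, mul_ne_zero hNz (pow_ne_zero _ hq20),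
    fun P l hP hl => ?_, fun l hl => main P0 l R0 E0 ρ hR0 hP0 hl hρ⟩
  obtain ⟨R, E, hR⟩ := exists_above (k := ℂ) (K := K) (L := Ω) P
  have h1 := main P l R E 0 hR hP hl fun P' e' h => by
    rw [add_zero]
    exact (hinv R P E hR hP P' e' h).2
  rwa [mul_zero, zero_div, add_zero] at h1

end

end Pool.Agent.R887
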