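import Pool.Agent.R887.TrvB

/-!
Divisors which are bounded by hyperplane sections, and correspondences.
-/

set_option autoImplicit false
set_option linter.overlappingInstances false
set_option linter.unusedSectionVars false

open FF Module MvPolynomial Pool.Agent.W602.GT Pool.Agent.W603.LV Pool.Agent.W619.PQ
open Pool.Agent.Y172 Pool.Agent.Y191

namespace Pool.Agent.R887

section

variable {K K' L : Type} [Field K] [Algebra ℂ K] [Field K'] [Algebra ℂ K'] [Field L] [Algebra ℂ L]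
  [Algebra K L] [IsScalarTower ℂ K L] [FiniteDimensional K L] [Algebra K' L]
  [IsScalarTower ℂ K' L] [FiniteDimensional K' L] {N N' : ℕ} {y : Fin (N + 1) → K}
  {y' : Fin (N' + 1) → K'} {n : ℕ}

theorem over_of_tower {Ω : Type} [Field Ω] [Algebra ℂ Ω] [Algebra K Ω] [Algebra L Ω]
    [IsScalarTower ℂ K Ω] [IsScalarTower ℂ L Ω] [IsScalarTower K L Ω] [FiniteDimensional K Ω]
    [FiniteDimensional L Ω] {R : Place ℂ Ω} {Q : Place ℂ L} {e1 : ℕ} (hR : Over R Q e1)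
    {P : Place ℂ K} {e : ℕ} (h : Over R P e) : ∃ e2, Over Q P e2 ∧ e = e1 * e2 := by
  have h1 := over_bel K Q
  have h2 : Over R (bel K Q) (e1 * ram K Q) := by
    refine ⟨Nat.mul_pos hR.1 h1.1, fun f => ?_⟩
    rw [IsScalarTower.algebraMap_apply K L Ω, hR.2, h1.2]
    push_cast
    ring
  obtain ⟨h3, h4⟩ := Pool.Agent.Y172.over_unique' h h2
  rw [h3, h4]
  exact ⟨_, h1, rfl⟩

theorem over_tower {Ω : Type} [Field Ω] [Algebra ℂ Ω] [Algebra K Ω] [Algebra L Ω]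
    [IsScalarTower ℂ K Ω] [IsScalarTower ℂ L Ω] [IsScalarTower K L Ω]
    {R : Place ℂ Ω} {Q : Place ℂ L} {e1 : ℕ} (hR : Over R Q e1)
    {P : Place ℂ K} {e : ℕ} (h : Over Q P e) : Over R P (e1 * e) := by
  refine ⟨Nat.mul_pos hR.1 h.1, fun f => ?_⟩
  rw [IsScalarTower.algebraMap_apply K L Ω, hR.2, h.2]
  push_cast
  ring

theorem corr_step_aux {Ω : Type} [Field Ω] [Algebra ℂ Ω] [Algebra K Ω] [Algebra L Ω]
    [IsScalarTower ℂ K Ω] [IsScalarTower ℂ L Ω] [IsScalarTower K L Ω] [FiniteDimensional K Ω]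
    [FiniteDimensional L Ω] [Algebra K' Ω] [IsScalarTower ℂ K' Ω] [IsScalarTower K' L Ω]
    [FiniteDimensional K' Ω] [IsGalois K Ω]
    (hy : NormalModel y) (hn : Algebra.trdeg ℂ K = n) (hn0 : 0 < n)
    (hy' : NormalModel y') (φ : K →ₐ[ℂ] L) (ψ : K' →ₐ[ℂ] L)
    (hφ : ∀ f, φ f = algebraMap K L f) (hψ : ∀ f, ψ f = algebraMap K' L f)
    (hdeg : mapDegree φ = Module.finrank K L) {i0 : Fin (N + 1)} (hi0 : y i0 ≠ 0)
    {i : Fin (N' + 1)} (hi : y' i ≠ 0)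
    {D : Place ℂ K → ℝ} {D' : Place ℂ K' → ℝ} {δ : L} (hδ : δ ≠ 0)
    (hinv : ∀ (Q : Place ℂ L) (P : Place ℂ K) (e : ℕ), Over Q P e → IsPrimeDivisor y P →
      ∀ (P' : Place ℂ K') (e' : ℕ), Over Q P' e' →
        IsPrimeDivisor y' P' ∧ (e : ℝ) * D P ≤ e' * D' P' + Q.ord δ)
    {Q0 : Place ℂ L} {P0 : Place ℂ K} {e0 : ℕ} (hQ0 : Over Q0 P0 e0) (hP0 : IsPrimeDivisor y P0)
    {P0' : Place ℂ K'} {e0' : ℕ} (hQ0' : Over Q0 P0' e0') {ρ : ℝ}
    (hρ : (e0 : ℝ) * D P0 + ρ ≤ e0' * D' P0' + Q0.ord δ) (hρ0 : 0 ≤ ρ)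
    {c : ℝ} (hc0 : 0 ≤ c) (hc : MultiDegreeLe φ ψ y y' (n - 1) 1 c) :
    ∃ (F : ℕ) (ρ1 : ℝ), 1 ≤ F ∧ 0 ≤ ρ1 ∧ (0 < ρ → 0 < ρ1) ∧ ∀ (q : K') (g r : ℕ), q ≠ 0 →
      (∀ P' l, IsPrimeDivisor y' P' → Centred y' l P' →
        (r : ℝ) * D' P' ≤ P'.ord q + g * P'.ord (y' i / y' l)) →
      ∃ (k : K) (B : ℕ), k ≠ 0 ∧ (B : ℝ) ≤ c * F ∧
        (∀ P l, IsPrimeDivisor y P → Centred y l P →
          ((F * r : ℕ) : ℝ) * D P ≤ P.ord k + ((g * B : ℕ) : ℝ) * P.ord (y i0 / y l)) ∧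
        ∀ l, Centred y l P0 → ((F * r : ℕ) : ℝ) * (D P0 + ρ1) ≤
          P0.ord k + ((g * B : ℕ) : ℝ) * P0.ord (y i0 / y l) := by
  classical
  have hess := hy.ess
  have hnΩ : Algebra.trdeg ℂ Ω = n := trdeg_up (K := K) hn
  have hF1 : 1 ≤ finrank K Ω := finrank_pos
  have hF0 : (0 : ℝ) < finrank K Ω := by exact_mod_cast hF1
  obtain ⟨R0, e1, hR0⟩ := exists_above (k := ℂ) (K := L) (L := Ω) Q0
  have hR0P := over_tower (K := K) (Ω := Ω) hR0 hQ0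
  have hE0 : (0 : ℝ) < ((e1 * e0 : ℕ) : ℝ) := by exact_mod_cast hR0P.1
  have he1 : (0 : ℝ) < e1 := by exact_mod_cast hR0.1
  have hδΩ : algebraMap L Ω δ ≠ 0 := by rwa [Ne, map_eq_zero]
  refine ⟨finrank K Ω, e1 * ρ / ((e1 * e0 : ℕ) : ℝ) / finrank K Ω, hF1, by positivity,
    fun h => by positivity, fun q g r hq0 hq => ?_⟩
  obtain ⟨B, hB⟩ : ∃ B : ℕ, B = ⌊c * (finrank K Ω : ℝ)⌋₊ := ⟨_, rfl⟩
  -- the degrees
  have hdg : ∀ u : Fin (n - 1) → K, (∀ a, IsPencil y (u a)) →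
      ∀ v ∈ Submodule.span ℂ (affL Ω y' i),
        degreeOver (fun a => algebraMap K Ω (u a)) (fun _ : Fin 1 => v) ≤ B := by
    intro u hu v hv
    have hv' : v ∈ Submodule.span ℂ (affL Ω y' i) := hv
    obtain ⟨ψΩ, hψΩ⟩ : ∃ ψΩ : K' →ₐ[ℂ] Ω, ψΩ = IsScalarTower.toAlgHom ℂ K' Ω := ⟨_, rfl⟩
    obtain ⟨v', hv'1, hv'2⟩ := pencil_of_span2 ψΩ (fun f => by rw [hψΩ]; rfl) hi hv'
    have h1 := hc u hu (fun _ => v') (fun _ => hv'1)
    rw [hdeg] at h1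
    have h2 : degreeOver (fun a => algebraMap K Ω (u a)) (fun _ : Fin 1 => v) =
        degreeOver (fun a => φ (u a)) (fun _ : Fin 1 => ψ v') * finrank L Ω := by
      rw [degreeOver_eq, degreeOver_eq, ← dg_tower]
      congr 1
      funext k
      rcases k with k | k
      · change algebraMap K Ω (u k) = algebraMap L Ω (φ (u k))
        rw [hφ, ← IsScalarTower.algebraMap_apply K L Ω]
      · change v = algebraMap L Ω (ψ v')
        rw [hψ, ← IsScalarTower.algebraMap_apply K' L Ω, hv'2, hψΩ]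
        rfl
    rw [h2, hB]
    refine Nat.le_floor ?_
    rw [← finrank_mul_finrank K L Ω]
    push_cast
    have h3 := mul_le_mul_of_nonneg_right h1 (show (0 : ℝ) ≤ (finrank L Ω : ℕ) from
      Nat.cast_nonneg _)
    linarith
  obtain ⟨k, hk0, hk, hk1⟩ := push_step (Ω := Ω) (D := D) (D' := D') (δ := algebraMap L Ω δ)
    (R0 := R0) (P0 := P0) (E0 := e1 * e0) (ρ := e1 * ρ) (B := B) (g := g) (r := r) hy hn hn0 hnΩ hy'
    hi0 hi hδΩ (fun R P e hR hP P' e' hR' => by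
      have h1 := over_bel L R
      obtain ⟨e2, h2, h3⟩ := over_of_tower (K := K) h1 hR
      obtain ⟨e2', h2', h3'⟩ := over_of_tower (K := K') h1 hR'
      obtain ⟨h4, h5⟩ := hinv _ P e2 h2 hP P' e2' h2'
      refine ⟨h4, ?_⟩
      rw [h1.2, h3, h3']
      push_cast
      have h6 := mul_le_mul_of_nonneg_left h5
        (show (0 : ℝ) ≤ (ram L R : ℕ) from Nat.cast_nonneg _)
      linarith) hR0P hP0 (fun P' e' hR' => by
      have h1 := over_tower (K := K') (Ω := Ω) hR0 hQ0'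
      obtain ⟨h3, h4⟩ := Pool.Agent.Y172.over_unique' hR' h1
      rw [h3, h4, hR0.2]
      push_cast
      have h6 := mul_le_mul_of_nonneg_left hρ he1.le
      linarith) hdg hq0 hq
  refine ⟨k, B, hk0, ?_, hk, fun l hl => ?_⟩
  · rw [hB]
    exact Nat.floor_le (by positivity)
  · have h1 := hk1 l hl
    have h2 : ((finrank K Ω * r : ℕ) : ℝ) * (e1 * ρ / ((e1 * e0 : ℕ) : ℝ) / finrank K Ω) =
          r * (e1 * ρ) / ((e1 * e0 : ℕ) : ℝ) := by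
      push_cast
      field_simp
    rw [mul_add, h2]
    exact h1

/-- **One step**, for divisors which are compared by a correspondence. -/
theorem corr_step (hy : NormalModel y) (hn : Algebra.trdeg ℂ K = n) (hn0 : 0 < n)
    (hy' : NormalModel y') (φ : K →ₐ[ℂ] L) (ψ : K' →ₐ[ℂ] L)
    (hφ : ∀ f, φ f = algebraMap K L f) (hψ : ∀ f, ψ f = algebraMap K' L f)
    (hdeg : mapDegree φ = Module.finrank K L) {i0 : Fin (N + 1)} (hi0 : y i0 ≠ 0)
    {i : Fin (N' + 1)} (hi : y' i ≠ 0)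
    {D : Place ℂ K → ℝ} {D' : Place ℂ K' → ℝ} {δ : L} (hδ : δ ≠ 0)
    (hinv : ∀ (Q : Place ℂ L) (P : Place ℂ K) (e : ℕ), Over Q P e → IsPrimeDivisor y P →
      ∀ (P' : Place ℂ K') (e' : ℕ), Over Q P' e' →
        IsPrimeDivisor y' P' ∧ (e : ℝ) * D P ≤ e' * D' P' + Q.ord δ)
    {Q0 : Place ℂ L} {P0 : Place ℂ K} {e0 : ℕ} (hQ0 : Over Q0 P0 e0) (hP0 : IsPrimeDivisor y P0)
    {P0' : Place ℂ K'} {e0' : ℕ} (hQ0' : Over Q0 P0' e0') {ρ : ℝ}
    (hρ : (e0 : ℝ) * D P0 + ρ ≤ e0' * D' P0' + Q0.ord δ) (hρ0 : 0 ≤ ρ)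
    {c : ℝ} (hc0 : 0 ≤ c) (hc : MultiDegreeLe φ ψ y y' (n - 1) 1 c) :
    ∃ (F : ℕ) (ρ1 : ℝ), 1 ≤ F ∧ 0 ≤ ρ1 ∧ (0 < ρ → 0 < ρ1) ∧ ∀ (q : K') (g r : ℕ), q ≠ 0 →
      (∀ P' l, IsPrimeDivisor y' P' → Centred y' l P' →
        (r : ℝ) * D' P' ≤ P'.ord q + g * P'.ord (y' i / y' l)) →
      ∃ (k : K) (B : ℕ), k ≠ 0 ∧ (B : ℝ) ≤ c * F ∧
        (∀ P l, IsPrimeDivisor y P → Centred y l P →
          ((F * r : ℕ) : ℝ) * D P ≤ P.ord k + ((g * B : ℕ) : ℝ) * P.ord (y i0 / y l)) ∧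
        ∀ l, Centred y l P0 → ((F * r : ℕ) : ℝ) * (D P0 + ρ1) ≤
          P0.ord k + ((g * B : ℕ) : ℝ) * P0.ord (y i0 / y l) := by
  have hcK : CharZero K := charZero_of_injective_algebraMap (algebraMap ℂ K).injective
  let Ω := IntermediateField.normalClosure K L (AlgebraicClosure L)
  let ik : Algebra ℂ Ω := ((algebraMap K Ω).comp (algebraMap ℂ K)).toAlgebra
  have htow : IsScalarTower ℂ K Ω := IsScalarTower.of_algebraMap_eq fun _ => rfl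
  have hfin : FiniteDimensional K Ω := inferInstance
  have hnorm : Normal K Ω := inferInstance
  have hgal : IsGalois K Ω := IsGalois.mk
  have htowL : IsScalarTower ℂ L Ω := IsScalarTower.of_algebraMap_eq fun c => by
    rw [IsScalarTower.algebraMap_apply ℂ K L, ← IsScalarTower.algebraMap_apply K L Ω]
    rfl
  have hfinL : FiniteDimensional L Ω := FiniteDimensional.right K L Ω
  let ik' : Algebra K' Ω := ((algebraMap L Ω).comp (algebraMap K' L)).toAlgebra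
  have htow1 : IsScalarTower K' L Ω := IsScalarTower.of_algebraMap_eq fun _ => rfl
  have htow2 : IsScalarTower ℂ K' Ω := IsScalarTower.of_algebraMap_eq fun c => by
    rw [IsScalarTower.algebraMap_apply ℂ L Ω, IsScalarTower.algebraMap_apply ℂ K' L]
    rfl
  have hfinK' : FiniteDimensional K' Ω := FiniteDimensional.trans K' L Ω
  exact corr_step_aux (Ω := Ω) hy hn hn0 hy' φ ψ hφ hψ hdeg hi0 hi hδ hinv hQ0 hP0 hQ0' hρ hρ0
    hc0 hc

end

end Pool.Agent.R887
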