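import Pool.Agent.R887.TrvC
import Pool.Agent.R887.DefsTrv

/-!
Finite self-correspondences: the anticanonical divisor is pseudo-effective.
-/

set_option autoImplicit false
set_option linter.overlappingInstances false
set_option linter.unusedSectionVars false

open FF Module MvPolynomial Pool.Agent.W602.GT Pool.Agent.W603.LV Pool.Agent.W619.PQ
open Pool.Agent.Y172 Pool.Agent.Y191

namespace Pool.Agent.R887

section

variable {K K' L : Type} [Field K] [Algebra ℂ K] [Field K'] [Algebra ℂ K'] [Field L] [Algebra ℂ L]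
  [Algebra K L] [IsScalarTower ℂ K L] [FiniteDimensional K L] [Algebra K' L]
  [IsScalarTower ℂ K' L] [FiniteDimensional K' L] {N N' : ℕ} {y : Fin (N + 1) → K}
  {y' : Fin (N' + 1) → K'} {n : ℕ}

/-- **The order of the Jacobian determinant.** -/
theorem jac_le (hy : NormalModel y) (hn : Algebra.trdeg ℂ K = n) (hy' : NormalModel y')
    (hn' : Algebra.trdeg ℂ K' = n) {x : Fin n → K} {E : Fin n → Derivation ℂ K K}
    (hx : IsTranscendenceBasis ℂ x) (hE : ∀ i j, E i (x j) = if i = j then 1 else 0)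
    {x' : Fin n → K'} {E' : Fin n → Derivation ℂ K' K'} (hx' : IsTranscendenceBasis ℂ x')
    (hE' : ∀ i j, E' i (x' j) = if i = j then 1 else 0) {D : Fin n → Derivation ℂ L L}
    (hD : ∀ i f, D i (algebraMap K' L f) = algebraMap K' L (E' i f)) {c : Place ℂ K → ℤ}
    (hc : ∀ P, IsPrimeDivisor y P → ∀ (m : ℕ)
      (ω : (Fin n → Derivation ℂ K K) → K), IsPluri m ω → ∀ r : ℚ, OrdGe P ω r ↔
        (ω E = 0 ∨ r ≤ m * c P + P.ord (ω E))) {c' : Place ℂ K' → ℤ}
    (hc' : ∀ P, IsPrimeDivisor y' P → ∀ (m : ℕ)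
      (ω : (Fin n → Derivation ℂ K' K') → K'), IsPluri m ω → ∀ r : ℚ, OrdGe P ω r ↔
        (ω E' = 0 ∨ r ≤ m * c' P + P.ord (ω E')))
    {Q : Place ℂ L} {P : Place ℂ K} {e : ℕ} (hov : Over Q P e) (hP : IsPrimeDivisor y P)
    {P' : Place ℂ K'} {e' : ℕ} (hov' : Over Q P' e') (hP' : IsPrimeDivisor y' P') :
    (Matrix.of fun i j => D i (algebraMap K L (x j))).det ≠ 0 ∧
    (e : ℝ) * c P + e ≤ Q.ord (Matrix.of fun i j => D i (algebraMap K L (x j))).det +
      e' * c' P' + e' := by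
  classical
  have hess := hy.ess
  have hess' := hy'.ess
  have hDfr : IsFrame D := fun F => ⟨fun j => F (algebraMap K' L (x' j)),
    (Pool.Agent.W73.PG.PULL.expand _ (hx'.algebraMap_comp (A := L)) D (lift_dual hE' hD) F).symm⟩
  have hdet : (Matrix.of fun i j => D i (algebraMap K L (x j))).det ≠ 0 := pull_ne hn hE hDfr
  refine ⟨hdet, ?_⟩
  have hdP' : Divisorial n P' := hP'.divisorial hy' hn'
  have hdP : Divisorial n P := hP.divisorial hy hn
  have hp : pull L x E 1 (frm x 1 (1 : K)) D =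
      (Matrix.of fun i j => D i (algebraMap K L (x j))).det := by
    unfold pull
    rw [frm_self hE, map_one, mul_one, pow_one]
  have hz : OrdEq P' (frm x' 1 (1 : K')) ((1 : ℕ) * c' P' + P'.ord (frm x' 1 (1 : K') E')) :=
    ordEq_of_val hc' hP' (frm_pluri x' 1 1) (by rw [frm_self hE']; exact one_ne_zero)
  rw [frm_self hE', P'.ord_one] at hz
  have h2 : OrdGe P (frm x 1 (1 : K)) ((c P : ℤ) : ℚ) := by
    refine (hc P hP 1 _ (frm_pluri x 1 1) _).2 (Or.inr ?_)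
    rw [frm_self hE, P.ord_one]
    push_cast
    linarith
  have h3 := (ratio_bound hn hn' hx' hE' hD hx hE (frm_pluri x' 1 1) hov' hdP' hz hov hdP
    (frm_pluri x 1 1) h2 (by rw [hp]; exact hdet)).2
  rw [hp, frm_self hE', map_one, one_pow, div_one, pow_one] at h3
  push_cast at h3
  have h4 : (e : ℚ) * c P + e ≤ Q.ord (Matrix.of fun i j => D i (algebraMap K L (x j))).det +
      e' * c' P' + e' := by linarith
  exact_mod_cast h4

end

section

variable {K : Type} [Field K] [Algebra ℂ K] {N n : ℕ} {y : Fin (N + 1) → K}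

/-- a first bound by hyperplane sections -/
theorem first_bound (hy : NormalModel y) {i : Fin (N + 1)} (hi : y i ≠ 0) {D : Place ℂ K → ℝ}
    (hD : {P | IsPrimeDivisor y P ∧ D P ≠ 0}.Finite) :
    ∃ (q : K) (g : ℕ), q ≠ 0 ∧ ∀ P l, IsPrimeDivisor y P → Centred y l P →
      D P ≤ P.ord q + g * P.ord (y i / y l) := by
  classical
  obtain ⟨A, hA, hAP⟩ := exists_hyp hy hi
  obtain ⟨f, s, hf0, hf⟩ := dominate hy (A' := fun P => ((⌈|D P|⌉ : ℤ) : ℚ)) ⟨fun P _ => by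
    have h1 : (0 : ℤ) ≤ ⌈|D P|⌉ := Int.ceil_nonneg (abs_nonneg _)
    simp only []
    exact_mod_cast h1, hD.subset (by
    rintro P ⟨hP, h0⟩
    refine ⟨hP, fun h1 => h0 ?_⟩
    simp only []
    rw [h1, abs_zero, Int.ceil_zero, Int.cast_zero])⟩ hi hA hAP
  refine ⟨f, s, hf0, fun P l hP hl => ?_⟩
  have h1 := hf P hP
  rw [hAP P l hP hl] at h1
  have h2 : (⌈|D P|⌉ : ℤ) ≤ P.ord f + s * P.ord (y i / y l) := by exact_mod_cast h1
  have h3 : ((⌈|D P|⌉ : ℤ) : ℝ) ≤ P.ord f + s * P.ord (y i / y l) := by exact_mod_cast h2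
  exact ((le_abs_self _).trans (Int.le_ceil _)).trans h3

/-- functions with small poles have small zeros -/
theorem small_zeros (hy : NormalModel y) (hn : Algebra.trdeg ℂ K = n) (hn0 : 0 < n)
    {i : Fin (N + 1)} (hi : y i ≠ 0) {P0 : Place ℂ K} (hP0 : IsPrimeDivisor y P0) :
    ∃ C : ℝ, 0 ≤ C ∧ ∀ (M : ℕ) (h : K) (d : ℝ), h ≠ 0 → (∀ P l, IsPrimeDivisor y P →
      Centred y l P → -(M * P.ord (y i / y l) : ℝ) ≤ P.ord h) → (∀ l, Centred y l P0 →
        d - M * P0.ord (y i / y l) ≤ P0.ord h) → d ≤ C * M := by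
  classical
  obtain ⟨A, hA, hAP⟩ := exists_hyp hy hi
  obtain ⟨C, hC⟩ := lin_ord hy hn hn0 (T := fun _ => 0) (by
    refine Set.finite_empty.subset ?_
    rintro P ⟨-, h⟩
    exact absurd rfl h) hA hP0
  obtain ⟨l0, hl0⟩ := exists_centred hy P0
  have hA0 : (0 : ℝ) ≤ P0.ord (y i / y l0) := by
    have h1 := hA.1 P0 hP0
    rw [hAP P0 l0 hP0 hl0] at h1
    exact_mod_cast h1
  refine ⟨C + P0.ord (y i / y l0), by positivity, fun M h d h0 h1 h2 => ?_⟩
  have h3 := hC M M le_rfl h h0 (fun P hP => by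
    obtain ⟨l, hl⟩ := exists_centred hy P
    have h4 := h1 P l hP hl
    rw [hAP P l hP hl, mul_zero, add_zero]
    have h5 : (0 : ℝ) ≤ P.ord h + M * P.ord (y i / y l) := by linarith
    exact_mod_cast h5)
  have h4 := h2 l0 hl0
  have h5 : (P0.ord h : ℝ) ≤ C * M := by exact_mod_cast h3
  linarith

end

section

variable {K L : Type} [Field K] [Algebra ℂ K] [Field L] [Algebra ℂ L] {N n : ℕ}
  {y : Fin (N + 1) → K}

/-- **Iteration.** -/
theorem iter_bound (hy : NormalModel y) {i : Fin (N + 1)} (hi : y i ≠ 0) {D : Place ℂ K → ℝ}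
    (hD : {P | IsPrimeDivisor y P ∧ D P ≠ 0}.Finite) {c : ℝ} (hc0 : 0 ≤ c) (hc1 : c < 1) {F : ℕ}
    (hF : 1 ≤ F) (hstep : ∀ (q : K) (g r : ℕ), q ≠ 0 →
      (∀ P l, IsPrimeDivisor y P → Centred y l P →
        (r : ℝ) * D P ≤ P.ord q + g * P.ord (y i / y l)) →
      ∃ (k : K) (B : ℕ), k ≠ 0 ∧ (B : ℝ) ≤ c * F ∧ ∀ P l, IsPrimeDivisor y P → Centred y l P →
        ((F * r : ℕ) : ℝ) * D P ≤ P.ord k + ((g * B : ℕ) : ℝ) * P.ord (y i / y l)) {ε : ℝ}
    (hε : 0 < ε) :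
    ∃ (q : K) (g r : ℕ), q ≠ 0 ∧ 1 ≤ r ∧ (g : ℝ) ≤ ε * r ∧ ∀ P l, IsPrimeDivisor y P →
      Centred y l P → (r : ℝ) * D P ≤ P.ord q + g * P.ord (y i / y l) := by
  classical
  obtain ⟨q0, g0, hq0, h0⟩ := first_bound hy hi hD
  have hall : ∀ t : ℕ, ∃ (q : K) (g r : ℕ), q ≠ 0 ∧ 1 ≤ r ∧ (g : ℝ) ≤ (c ^ t * g0) * r ∧
      ∀ P l, IsPrimeDivisor y P → Centred y l P →
        (r : ℝ) * D P ≤ P.ord q + g * P.ord (y i / y l) := by
    intro t
    induction t with
    | zero =>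
      refine ⟨q0, g0, 1, hq0, le_rfl, by simp, fun P l hP hl => ?_⟩
      rw [Nat.cast_one, one_mul]
      exact h0 P l hP hl
    | succ t ih =>
      obtain ⟨q, g, r, hq, hr, hg, h⟩ := ih
      obtain ⟨k, B, hk, hB, hb⟩ := hstep q g r hq h
      refine ⟨k, g * B, F * r, hk, Nat.mul_pos hF hr, ?_, hb⟩
      push_cast
      have h1 : (g : ℝ) * B ≤ (c ^ t * g0 * r) * (c * F) :=
        mul_le_mul hg hB (Nat.cast_nonneg _) (by positivity)
      refine h1.trans (le_of_eq ?_)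
      rw [pow_succ]
      ring
  have hlim : Filter.Tendsto (fun k : ℕ => c ^ k * (g0 : ℝ)) Filter.atTop (nhds (0 * (g0 : ℝ))) :=
    (tendsto_pow_atTop_nhds_zero_of_lt_one hc0 hc1).mul_const _
  rw [zero_mul] at hlim
  obtain ⟨t, ht⟩ := (hlim.eventually_lt_const hε).exists
  obtain ⟨q, g, r, hq, hr, hg, h⟩ := hall t
  refine ⟨q, g, r, hq, hr, hg.trans ?_, h⟩
  exact mul_le_mul_of_nonneg_right ht.le (Nat.cast_nonneg _)

end

end Pool.Agent.R887
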