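import Pool.Agent.R887.TrvD

/-!
Finite self-correspondences: the anticanonical divisor is pseudo-effective.
-/

set_option autoImplicit false
set_option linter.overlappingInstances false
set_option linter.unusedSectionVars false

open FF Module MvPolynomial Pool.Agent.W602.GT Pool.Agent.W603.LV Pool.Agent.W619.PQ
open Pool.Agent.Y172 Pool.Agent.Y191

namespace Pool.Agent.R887

section

variable {K K' L : Type} [Field K] [Algebra ℂ K] [Field K'] [Algebra ℂ K'] [Field L] [Algebra ℂ L]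
  {N N' : ℕ} {y : Fin (N + 1) → K} {y' : Fin (N' + 1) → K'} {n : ℕ}

/-- **One step for canonical divisors.** -/
theorem log_step (hy : NormalModel y) (hn : Algebra.trdeg ℂ K = n) (hn0 : 0 < n)
    (hy' : NormalModel y') (hn' : Algebra.trdeg ℂ K' = n) {Δ : Place ℂ K → ℝ}
    {Δ' : Place ℂ K' → ℝ} (φ : K →ₐ[ℂ] L) (ψ : K' →ₐ[ℂ] L)
    (hψ0 : FiniteDimensional ψ.fieldRange L) (hlog : FiniteLogPullBackLe φ ψ y Δ y' Δ')
    {x : Fin n → K} {E : Fin n → Derivation ℂ K K}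
    (hx : IsTranscendenceBasis ℂ x) (hE : ∀ i j, E i (x j) = if i = j then 1 else 0)
    {x' : Fin n → K'} {E' : Fin n → Derivation ℂ K' K'} (hx' : IsTranscendenceBasis ℂ x')
    (hE' : ∀ i j, E' i (x' j) = if i = j then 1 else 0) {κ : Place ℂ K → ℤ}
    (hκ : ∀ P, IsPrimeDivisor y P → ∀ (m : ℕ)
      (ω : (Fin n → Derivation ℂ K K) → K), IsPluri m ω → ∀ r : ℚ, OrdGe P ω r ↔
        (ω E = 0 ∨ r ≤ m * κ P + P.ord (ω E))) {κ' : Place ℂ K' → ℤ}
    (hκ' : ∀ P, IsPrimeDivisor y' P → ∀ (m : ℕ)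
      (ω : (Fin n → Derivation ℂ K' K') → K'), IsPluri m ω → ∀ r : ℚ, OrdGe P ω r ↔
        (ω E' = 0 ∨ r ≤ m * κ' P + P.ord (ω E')))
    {i0 : Fin (N + 1)} (hi0 : y i0 ≠ 0) {i : Fin (N' + 1)} (hi : y' i ≠ 0) {c : ℝ}
    (hc : MultiDegreeLe φ ψ y y' (n - 1) 1 c) {Q0 : Place ℂ L} {P0 : Place ℂ K} {e0 : ℕ}
    (hQ0 : LiesOver φ Q0 P0 e0) (hP0 : IsPrimeDivisor y P0) {P0' : Place ℂ K'} {e0' : ℕ}
    (hQ0' : LiesOver ψ Q0 P0' e0') :
    ∃ (F : ℕ) (ρ1 : ℝ), 1 ≤ F ∧ 0 ≤ ρ1 ∧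
      ((e0' : ℝ) * (1 - Δ' P0') < e0 * (1 - Δ P0) → 0 < ρ1) ∧ ∀ (q : K') (g r : ℕ), q ≠ 0 →
      (∀ P' l, IsPrimeDivisor y' P' → Centred y' l P' →
        (r : ℝ) * (κ' P' + Δ' P') ≤ P'.ord q + g * P'.ord (y' i / y' l)) →
      ∃ (k : K) (B : ℕ), k ≠ 0 ∧ (B : ℝ) ≤ c * F ∧
        (∀ P l, IsPrimeDivisor y P → Centred y l P → ((F * r : ℕ) : ℝ) * (κ P + Δ P) ≤
          P.ord k + ((g * B : ℕ) : ℝ) * P.ord (y i0 / y l)) ∧
        ∀ l, Centred y l P0 → ((F * r : ℕ) : ℝ) * (κ P0 + Δ P0 + ρ1) ≤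
          P0.ord k + ((g * B : ℕ) : ℝ) * P0.ord (y i0 / y l) := by
  have hess' := hy'.ess
  have hess := hy.ess
  let _ : Algebra K L := φ.toRingHom.toAlgebra
  let _ : Algebra K' L := ψ.toRingHom.toAlgebra
  have hst : IsScalarTower ℂ K L := IsScalarTower.of_algebraMap_eq fun c => (φ.commutes c).symm
  have hst' : IsScalarTower ℂ K' L := IsScalarTower.of_algebraMap_eq fun c => (ψ.commutes c).symm
  have hfd' : FiniteDimensional K' L := fd_of_range ψ hψ0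
  have hessL : Algebra.EssFiniteType ℂ L := by
    have h1 : Algebra.EssFiniteType K' L := inferInstance
    exact Algebra.EssFiniteType.comp ℂ K' L
  have hnL : Algebra.trdeg ℂ L = n := trdeg_up (K := K') hn'
  have hfd : FiniteDimensional K L := finite_map hn hnL
  have hdeg : mapDegree φ = Module.finrank K L := by
    unfold mapDegree
    let e : K ≃ₐ[ℂ] φ.fieldRange := AlgEquiv.ofInjectiveField φ
    refine (Algebra.finrank_eq_of_equiv_equiv e.toRingEquiv (RingEquiv.refl L) ?_).symm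
    ext x
    rfl
  have hc0 : 0 ≤ c := multi_nonneg hy hy' hc (by rw [hdeg]; exact Module.finrank_pos)
  choose D hD using fun i => exists_lift (L := L) hn' (E' i)
  have hP0' : IsPrimeDivisor y' P0' := (hlog P0 hP0 Q0 e0 hQ0 P0' e0' hQ0').1
  have hQ0o : Over Q0 P0 e0 := hQ0
  have hQ0o' : Over Q0 P0' e0' := hQ0'
  obtain ⟨hdet, hj⟩ := jac_le (L := L) hy hn hy' hn' hx hE hx' hE' hD hκ hκ' hQ0o hP0 hQ0o' hP0'
  have hinv : ∀ (Q : Place ℂ L) (P : Place ℂ K) (e : ℕ), Over Q P e → IsPrimeDivisor y P →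
      ∀ (P' : Place ℂ K') (e' : ℕ), Over Q P' e' →
        IsPrimeDivisor y' P' ∧ (e : ℝ) * (κ P + Δ P) ≤ e' * (κ' P' + Δ' P') +
          Q.ord (Matrix.of fun i j => D i (algebraMap K L (x j))).det := by
    intro Q P e hov hP P' e' hov'
    obtain ⟨hP', h1⟩ := hlog P hP Q e hov P' e' hov'
    refine ⟨hP', ?_⟩
    have h2 := (jac_le (L := L) hy hn hy' hn' hx hE hx' hE' hD hκ hκ' hov hP hov' hP').2
    linarith
  obtain ⟨F, ρ1, hF, hρ1, hρ2, h⟩ := corr_step (L := L) (D := fun P => (κ P : ℝ) + Δ P)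
    (D' := fun P => (κ' P : ℝ) + Δ' P) hy hn hn0 hy' φ ψ (fun _ => rfl) (fun _ => rfl) hdeg hi0 hi
    hdet hinv hQ0o hP0 hQ0o' (ρ := e0 * (1 - Δ P0) - e0' * (1 - Δ' P0')) (by linarith) (by
      have := (hlog P0 hP0 Q0 e0 hQ0 P0' e0' hQ0').2
      linarith) hc0 hc
  exact ⟨F, ρ1, hF, hρ1, fun h1 => hρ2 (by linarith), h⟩

/-- places over a prime divisor -/
theorem exists_lies (hn : Algebra.trdeg ℂ K = n) (hy : NormalModel y)
    (hy' : NormalModel y') (hn' : Algebra.trdeg ℂ K' = n) (φ : K →ₐ[ℂ] L) (ψ : K' →ₐ[ℂ] L)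
    (hψ0 : FiniteDimensional ψ.fieldRange L) (P : Place ℂ K) :
    ∃ (Q : Place ℂ L) (e : ℕ) (P' : Place ℂ K') (e' : ℕ), LiesOver φ Q P e ∧
      LiesOver ψ Q P' e' := by
  have hess' := hy'.ess
  have hess := hy.ess
  let _ : Algebra K L := φ.toRingHom.toAlgebra
  let _ : Algebra K' L := ψ.toRingHom.toAlgebra
  have hst : IsScalarTower ℂ K L := IsScalarTower.of_algebraMap_eq fun c => (φ.commutes c).symm
  have hst' : IsScalarTower ℂ K' L := IsScalarTower.of_algebraMap_eq fun c => (ψ.commutes c).symm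
  have hfd' : FiniteDimensional K' L := fd_of_range ψ hψ0
  have hessL : Algebra.EssFiniteType ℂ L := by
    have h1 : Algebra.EssFiniteType K' L := inferInstance
    exact Algebra.EssFiniteType.comp ℂ K' L
  have hnL : Algebra.trdeg ℂ L = n := trdeg_up (K := K') hn'
  have hfd : FiniteDimensional K L := finite_map hn hnL
  obtain ⟨Q, e, h1⟩ := exists_above (k := ℂ) (K := K) (L := L) P
  exact ⟨Q, e, bel K' Q, ram K' Q, h1, over_bel K' Q⟩

/-- **Finite self-correspondences of pairs.** -/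
theorem anti_psef (hy : NormalModel y) (hn : Algebra.trdeg ℂ K = n) (hn0 : 0 < n)
    {Δ : Place ℂ K → ℝ} (hΔ : {P | IsPrimeDivisor y P ∧ Δ P ≠ 0}.Finite) (φ ψ : K →ₐ[ℂ] L)
    (hψ0 : FiniteDimensional ψ.fieldRange L) (hlog : FiniteLogPullBackLe φ ψ y Δ y Δ) {c : ℝ}
    (hc : MultiDegreeLe φ ψ y y (n - 1) 1 c) (hc1 : c < 1) :
    AntiPseudoEffectiveR y n Δ ∧ (PseudoEffectiveR y n Δ →
      (∀ P, IsPrimeDivisor y P → ∀ (Q : Place ℂ L) (e : ℕ), LiesOver φ Q P e →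
        ∀ (P' : Place ℂ K) (e' : ℕ), LiesOver ψ Q P' e' →
          (e' : ℝ) * (1 - Δ P') = e * (1 - Δ P)) ∧
      ∀ (m : ℕ) (η : (Fin n → Derivation ℂ K K) → K), 1 ≤ m → IsPluri m η →
        (∀ P, IsPrimeDivisor y P → ∃ z : ℚ, OrdEq P η z ∧ -(m * Δ P) ≤ z) →
        ∀ P, IsPrimeDivisor y P → ∀ z : ℚ, OrdEq P η z → (z : ℝ) = -(m * Δ P)) := by
  classical
  have hc0 := multi_nonneg' hy hn hy hn φ ψ hψ0 hc
  obtain ⟨x, E, hx, hE⟩ := exists_crd hn (k := ℂ) (K := K)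
  obtain ⟨κ, hκfin, hκ⟩ := exists_ordc hy hn hx hE
  have hval : ∀ (P : Place ℂ K), IsPrimeDivisor y P → ∀ (m : ℕ)
      (ω : (Fin n → Derivation ℂ K K) → K), IsPluri m ω → ∀ z : ℚ, OrdEq P ω z →
        ω E ≠ 0 ∧ z = m * κ P + P.ord (ω E) := by
    intro P hP m ω hω z hz
    have h0 : ω E ≠ 0 := by
      intro h0
      obtain ⟨G, hG, hG0, hGz⟩ := hz.2
      have h1 : OrdGe P ω (z + 1) := (hκ P hP m ω hω _).2 (Or.inl h0)
      rcases h1 G hG with h2 | h2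
      · exact hG0 h2
      · rw [hGz] at h2
        linarith
    refine ⟨h0, ?_⟩
    have h1 := ((hκ P hP m ω hω z).1 hz.1).resolve_left h0
    have h2 : OrdGe P ω ((m : ℚ) * κ P + P.ord (ω E)) := (hκ P hP m ω hω _).2 (Or.inr le_rfl)
    obtain ⟨G, hG, hG0, hGz⟩ := hz.2
    have h3 := (h2 G hG).resolve_left hG0
    rw [hGz] at h3
    linarith
  have hDfin : {P | IsPrimeDivisor y P ∧ (κ P : ℝ) + Δ P ≠ 0}.Finite := by
    refine (hκfin.union hΔ).subset ?_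
    rintro P ⟨hP, h0⟩
    by_cases h1 : κ P = 0
    · right
      refine ⟨hP, fun h2 => h0 ?_⟩
      rw [h1, h2, Int.cast_zero, zero_add]
    · exact Or.inl ⟨hP, h1⟩
  obtain ⟨P1, hP1⟩ := exists_prime hy hn hn0
  obtain ⟨Q1, e1, P1', e1', hQ1, hQ1'⟩ := exists_lies hn hy hy hn φ ψ hψ0 P1
  have hiter : ∀ i, y i ≠ 0 → ∀ ε : ℝ, 0 < ε → ∃ (q : K) (g r : ℕ), q ≠ 0 ∧ 1 ≤ r ∧
      (g : ℝ) ≤ ε * r ∧ ∀ P l, IsPrimeDivisor y P → Centred y l P →
        (r : ℝ) * (κ P + Δ P) ≤ P.ord q + g * P.ord (y i / y l) := by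
    intro i hi ε hε
    obtain ⟨F, ρ1, hF, -, -, h⟩ := log_step hy hn hn0 hy hn φ ψ hψ0 hlog hx hE hx hE hκ hκ hi hi hc
      hQ1 hP1 hQ1'
    exact iter_bound hy hi hDfin hc0 hc1 hF (fun q g r hq hb => by
      obtain ⟨k, B, hk, hB, h1, -⟩ := h q g r hq hb
      exact ⟨k, B, hk, hB, h1⟩) hε
  refine ⟨fun i hi ε hε => ?_, fun hps => ⟨fun P0 hP0 Q0 e0 hQ0 P0' e0' hQ0' => ?_,
    fun m η hm hη hsec P0 hP0 z0 hz0 => ?_⟩⟩
  · -- the anticanonical divisor is pseudo-effective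
    obtain ⟨q, g, r, hq, hr, hg, h⟩ := hiter i hi ε hε
    refine ⟨r, g, hr, hg, frm x r q⁻¹, frm_pluri _ _ _, fun P l hP hl => ?_⟩
    have h1 := ordEq_of_val hκ hP (frm_pluri x r q⁻¹) (by
      rw [frm_self hE]
      exact inv_ne_zero hq)
    rw [frm_self hE] at h1
    refine ⟨_, h1, ?_⟩
    rw [P.ord_inv]
    push_cast
    have h2 := h P l hP hl
    linarith
  · -- the ramification
    by_contra hne
    have hlt : (e0' : ℝ) * (1 - Δ P0') < e0 * (1 - Δ P0) :=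
      lt_of_le_of_ne (hlog P0 hP0 Q0 e0 hQ0 P0' e0' hQ0').2 hne
    obtain ⟨i, hi⟩ := hy.ne
    obtain ⟨F, ρ1, hF, -, hρ, h⟩ := log_step hy hn hn0 hy hn φ ψ hψ0 hlog hx hE hx hE hκ hκ hi hi
      hc hQ0 hP0 hQ0'
    have hρ1 := hρ hlt
    obtain ⟨C, hC0, hC⟩ := small_zeros hy hn hn0 hi hP0
    obtain ⟨δ, hδ⟩ : ∃ δ : ℝ, δ = ρ1 / (4 * (C + 1)) := ⟨_, rfl⟩
    have hδ0 : 0 < δ := by
      rw [hδ]
      positivity
    obtain ⟨q, g, r, hq, hr, hg, hb⟩ := hiter i hi δ hδ0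
    obtain ⟨k, B, hk, hB, h1, h2⟩ := h q g r hq hb
    obtain ⟨m, b, hm, hbm, η, hη, hηo⟩ := hps i hi δ hδ0
    have hηE : η E ≠ 0 := by
      obtain ⟨l, hl⟩ := exists_centred hy P0
      obtain ⟨z, hz, -⟩ := hηo P0 l hP0 hl
      exact (hval P0 hP0 m η hη z hz).1
    have hord : ∀ P l, IsPrimeDivisor y P → Centred y l P →
        -((m : ℝ) * (κ P + Δ P)) - b * P.ord (y i / y l) ≤ P.ord (η E) := by
      intro P l hP hl
      obtain ⟨z, hz, hz1⟩ := hηo P l hP hl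
      rw [(hval P hP m η hη z hz).2] at hz1
      push_cast at hz1
      linarith
    have hFr0 : (0 : ℝ) < (F * r : ℕ) := by
      have : 0 < F * r := Nat.mul_pos hF hr
      exact_mod_cast this
    have hm0 : (0 : ℝ) < m := by exact_mod_cast hm
    have h3 := hC (m * (g * B) + F * r * b) (k ^ m * η E ^ (F * r)) (m * ((F * r : ℕ) * ρ1))
      (mul_ne_zero (pow_ne_zero _ hk) (pow_ne_zero _ hηE)) (fun P l hP hl => by
        rw [P.ord_mul (pow_ne_zero _ hk) (pow_ne_zero _ hηE), P.ord_pow, P.ord_pow]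
        have h4 := mul_le_mul_of_nonneg_left (h1 P l hP hl) hm0.le
        have h5 := mul_le_mul_of_nonneg_left (hord P l hP hl) hFr0.le
        push_cast at h4 h5 ⊢
        linarith) (fun l hl => by
        rw [P0.ord_mul (pow_ne_zero _ hk) (pow_ne_zero _ hηE), P0.ord_pow, P0.ord_pow]
        have h4 := mul_le_mul_of_nonneg_left (h2 l hl) hm0.le
        have h5 := mul_le_mul_of_nonneg_left (hord P0 l hP0 hl) hFr0.le
        push_cast at h4 h5 ⊢
        linarith)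
    have h4 : ((m * (g * B) + F * r * b : ℕ) : ℝ) ≤ (m * (F * r : ℕ)) * (2 * δ) := by
      have h5 : (g : ℝ) * B ≤ (δ * r) * (1 * F) := by
        refine mul_le_mul hg (hB.trans ?_) (Nat.cast_nonneg _) (by positivity)
        exact mul_le_mul_of_nonneg_right hc1.le (Nat.cast_nonneg _)
      have h6 := mul_le_mul_of_nonneg_left h5 hm0.le
      have h7 := mul_le_mul_of_nonneg_left hbm hFr0.le
      push_cast at h6 h7 ⊢
      linarith
    have h5 : (m : ℝ) * ((F * r : ℕ) * ρ1) ≤ (m * (F * r : ℕ)) * (C * (2 * δ)) := by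
      refine h3.trans ((mul_le_mul_of_nonneg_left h4 hC0).trans (le_of_eq ?_))
      ring
    have h6 : (0 : ℝ) < m * (F * r : ℕ) := mul_pos hm0 hFr0
    have h7 : ρ1 ≤ C * (2 * δ) := by
      refine le_of_mul_le_mul_left ?_ h6
      rw [mul_assoc]
      exact h5
    have h8 : C * (2 * δ) ≤ (C + 1) * (2 * δ) :=
      mul_le_mul_of_nonneg_right (by linarith) (by positivity)
    have h9 : (C + 1) * (2 * δ) = ρ1 / 2 := by
      rw [hδ]
      field_simp
      ring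
    linarith
  · -- the sections have no zeros
    obtain ⟨i, hi⟩ := hy.ne
    obtain ⟨h0, h1⟩ := hval P0 hP0 m η hη z0 hz0
    have hord : ∀ P, IsPrimeDivisor y P → -((m : ℝ) * (κ P + Δ P)) ≤ P.ord (η E) := by
      intro P hP
      obtain ⟨z, hz, hz1⟩ := hsec P hP
      rw [(hval P hP m η hη z hz).2] at hz1
      push_cast at hz1
      linarith
    have hge : -(m * Δ P0) ≤ (z0 : ℝ) := by
      rw [h1]
      push_cast
      have := hord P0 hP0
      linarith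
    refine le_antisymm ?_ hge
    obtain ⟨C, hC0, hC⟩ := small_zeros hy hn hn0 hi hP0
    have hm0 : (0 : ℝ) < m := by exact_mod_cast hm
    refine le_of_forall_pos_le_add fun ε hε => ?_
    obtain ⟨δ, hδ⟩ : ∃ δ : ℝ, δ = ε / (m * (C + 1)) := ⟨_, rfl⟩
    have hδ0 : 0 < δ := by
      rw [hδ]
      positivity
    obtain ⟨q, g, r, hq, hr, hg, hb⟩ := hiter i hi δ hδ0
    have hr0 : (0 : ℝ) < r := by exact_mod_cast hr
    have h3 := hC (m * g) (q ^ m * η E ^ r) (r * (z0 + m * Δ P0))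
      (mul_ne_zero (pow_ne_zero _ hq) (pow_ne_zero _ h0)) (fun P l hP hl => by
        rw [P.ord_mul (pow_ne_zero _ hq) (pow_ne_zero _ h0), P.ord_pow, P.ord_pow]
        have h4 := mul_le_mul_of_nonneg_left (hb P l hP hl) hm0.le
        have h5 := mul_le_mul_of_nonneg_left (hord P hP) hr0.le
        push_cast at h4 h5 ⊢
        linarith) (fun l hl => by
        rw [P0.ord_mul (pow_ne_zero _ hq) (pow_ne_zero _ h0), P0.ord_pow, P0.ord_pow]
        have h4 := mul_le_mul_of_nonneg_left (hb P0 l hP0 hl) hm0.le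
        rw [h1]
        push_cast at h4 ⊢
        linarith)
    have h4 : C * ((m * g : ℕ) : ℝ) ≤ r * ε := by
      have h5 : ((m * g : ℕ) : ℝ) ≤ m * (δ * r) := by
        push_cast
        exact mul_le_mul_of_nonneg_left hg hm0.le
      have h6 := mul_le_mul_of_nonneg_left h5 hC0
      have h7 : C * (m * (δ * r)) ≤ (C + 1) * (m * (δ * r)) :=
        mul_le_mul_of_nonneg_right (by linarith) (by positivity)
      have h8 : (C + 1) * (m * (δ * r)) = r * ε := by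
        rw [hδ]
        field_simp
      linarith
    have h5 : (r : ℝ) * (z0 + m * Δ P0) ≤ r * ε := h3.trans h4
    have h6 := le_of_mul_le_mul_left h5 hr0
    linarith

end

end Pool.Agent.R887
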