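import Pool.Agent.R887.TrvE

/-!
Finite self-correspondences, the opposite inequality: the canonical divisor is pseudo-effective.
-/

set_option autoImplicit false
set_option linter.overlappingInstances false
set_option linter.unusedSectionVars false

open FF Module MvPolynomial Pool.Agent.W602.GT Pool.Agent.W603.LV Pool.Agent.W619.PQ
open Pool.Agent.Y172 Pool.Agent.Y191

namespace Pool.Agent.R887

section

variable {K K' L : Type} [Field K] [Algebra ℂ K] [Field K'] [Algebra ℂ K'] [Field L] [Algebra ℂ L]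
  [Algebra K L] [IsScalarTower ℂ K L] [FiniteDimensional K L] [Algebra K' L]
  [IsScalarTower ℂ K' L] [FiniteDimensional K' L] {N N' : ℕ} {y : Fin (N + 1) → K}
  {y' : Fin (N' + 1) → K'} {n : ℕ}

/-- **One step for canonical divisors**, opposite inequality, in terms of algebras. -/
theorem neg_step_aux (hy : NormalModel y) (hn : Algebra.trdeg ℂ K = n) (hn0 : 0 < n)
    (hy' : NormalModel y') (hn' : Algebra.trdeg ℂ K' = n) {Δ : Place ℂ K → ℝ}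
    {Δ' : Place ℂ K' → ℝ} (φ : K →ₐ[ℂ] L) (ψ : K' →ₐ[ℂ] L)
    (hφ : ∀ f, φ f = algebraMap K L f) (hψ : ∀ f, ψ f = algebraMap K' L f)
    (hdeg : mapDegree φ = Module.finrank K L)
    (hlog : ∀ (Q : Place ℂ L) (P : Place ℂ K) (e : ℕ), Over Q P e → IsPrimeDivisor y P →
      ∀ (P' : Place ℂ K') (e' : ℕ), Over Q P' e' →
        IsPrimeDivisor y' P' ∧ (e : ℝ) * (1 - Δ P) ≤ e' * (1 - Δ' P'))
    {x : Fin n → K} {E : Fin n → Derivation ℂ K K}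
    (hx : IsTranscendenceBasis ℂ x) (hE : ∀ i j, E i (x j) = if i = j then 1 else 0)
    {x' : Fin n → K'} {E' : Fin n → Derivation ℂ K' K'} (hx' : IsTranscendenceBasis ℂ x')
    (hE' : ∀ i j, E' i (x' j) = if i = j then 1 else 0) {κ : Place ℂ K → ℤ}
    (hκ : ∀ P, IsPrimeDivisor y P → ∀ (m : ℕ)
      (ω : (Fin n → Derivation ℂ K K) → K), IsPluri m ω → ∀ r : ℚ, OrdGe P ω r ↔
        (ω E = 0 ∨ r ≤ m * κ P + P.ord (ω E))) {κ' : Place ℂ K' → ℤ}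
    (hκ' : ∀ P, IsPrimeDivisor y' P → ∀ (m : ℕ)
      (ω : (Fin n → Derivation ℂ K' K') → K'), IsPluri m ω → ∀ r : ℚ, OrdGe P ω r ↔
        (ω E' = 0 ∨ r ≤ m * κ' P + P.ord (ω E')))
    {i0 : Fin (N + 1)} (hi0 : y i0 ≠ 0) {i : Fin (N' + 1)} (hi : y' i ≠ 0) {c : ℝ} (hc0 : 0 ≤ c)
    (hc : MultiDegreeLe φ ψ y y' (n - 1) 1 c) {Q0 : Place ℂ L} {P0 : Place ℂ K} {e0 : ℕ}
    (hQ0 : Over Q0 P0 e0) (hP0 : IsPrimeDivisor y P0) {P0' : Place ℂ K'} {e0' : ℕ}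
    (hQ0' : Over Q0 P0' e0') :
    ∃ (F : ℕ) (ρ1 : ℝ), 1 ≤ F ∧ 0 ≤ ρ1 ∧
      ((e0 : ℝ) * (1 - Δ P0) < e0' * (1 - Δ' P0') → 0 < ρ1) ∧ ∀ (q : K') (g r : ℕ), q ≠ 0 →
      (∀ P' l, IsPrimeDivisor y' P' → Centred y' l P' →
        (r : ℝ) * -(κ' P' + Δ' P') ≤ P'.ord q + g * P'.ord (y' i / y' l)) →
      ∃ (k : K) (B : ℕ), k ≠ 0 ∧ (B : ℝ) ≤ c * F ∧
        (∀ P l, IsPrimeDivisor y P → Centred y l P → ((F * r : ℕ) : ℝ) * -(κ P + Δ P) ≤
          P.ord k + ((g * B : ℕ) : ℝ) * P.ord (y i0 / y l)) ∧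
        ∀ l, Centred y l P0 → ((F * r : ℕ) : ℝ) * (-(κ P0 + Δ P0) + ρ1) ≤
          P0.ord k + ((g * B : ℕ) : ℝ) * P0.ord (y i0 / y l) := by
  choose D hD using fun i => exists_lift (L := L) hn (E i)
  have hP0' : IsPrimeDivisor y' P0' := (hlog Q0 P0 e0 hQ0 hP0 P0' e0' hQ0').1
  have hj : ∀ (Q : Place ℂ L) (P : Place ℂ K) (e : ℕ), Over Q P e → IsPrimeDivisor y P →
      ∀ (P' : Place ℂ K') (e' : ℕ), Over Q P' e' → IsPrimeDivisor y' P' →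
      (Matrix.of fun i j => D i (algebraMap K' L (x' j))).det ≠ 0 ∧
      (e' : ℝ) * κ' P' + e' ≤ Q.ord (Matrix.of fun i j => D i (algebraMap K' L (x' j))).det +
        e * κ P + e := fun Q P e hov hP P' e' hov' hP' =>
    jac_le (K := K') (K' := K) (L := L) hy' hn' hy hn hx' hE' hx hE hD hκ' hκ hov' hP' hov hP
  obtain ⟨hdet, -⟩ := hj Q0 P0 e0 hQ0 hP0 P0' e0' hQ0' hP0'
  have hinv : ∀ (Q : Place ℂ L) (P : Place ℂ K) (e : ℕ), Over Q P e → IsPrimeDivisor y P →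
      ∀ (P' : Place ℂ K') (e' : ℕ), Over Q P' e' →
        IsPrimeDivisor y' P' ∧ (e : ℝ) * -(κ P + Δ P) ≤ e' * -(κ' P' + Δ' P') +
          Q.ord (Matrix.of fun i j => D i (algebraMap K' L (x' j))).det := by
    intro Q P e hov hP P' e' hov'
    obtain ⟨hP', h1⟩ := hlog Q P e hov hP P' e' hov'
    refine ⟨hP', ?_⟩
    have h2 := (hj Q P e hov hP P' e' hov' hP').2
    linarith
  obtain ⟨F, ρ1, hF, hρ1, hρ2, h⟩ := corr_step (L := L) (D := fun P => -((κ P : ℝ) + Δ P))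
    (D' := fun P => -((κ' P : ℝ) + Δ' P)) hy hn hn0 hy' φ ψ hφ hψ hdeg hi0 hi
    hdet hinv hQ0 hP0 hQ0' (ρ := e0' * (1 - Δ' P0') - e0 * (1 - Δ P0)) (by
      have := (hj Q0 P0 e0 hQ0 hP0 P0' e0' hQ0' hP0').2
      linarith) (by
      have := (hlog Q0 P0 e0 hQ0 hP0 P0' e0' hQ0').2
      linarith) hc0 hc
  exact ⟨F, ρ1, hF, hρ1, fun h1 => hρ2 (by linarith), h⟩

end

section

variable {K K' L : Type} [Field K] [Algebra ℂ K] [Field K'] [Algebra ℂ K'] [Field L] [Algebra ℂ L]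
  {N N' : ℕ} {y : Fin (N + 1) → K} {y' : Fin (N' + 1) → K'} {n : ℕ}

/-- **One step for canonical divisors**, opposite inequality. -/
theorem neg_step (hy : NormalModel y) (hn : Algebra.trdeg ℂ K = n) (hn0 : 0 < n)
    (hy' : NormalModel y') (hn' : Algebra.trdeg ℂ K' = n) {Δ : Place ℂ K → ℝ}
    {Δ' : Place ℂ K' → ℝ} (φ : K →ₐ[ℂ] L) (ψ : K' →ₐ[ℂ] L)
    (hψ0 : FiniteDimensional ψ.fieldRange L)
    (hlog : ∀ P : Place ℂ K, IsPrimeDivisor y P → ∀ (Q : Place ℂ L) (e : ℕ), LiesOver φ Q P e →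
      ∀ (P' : Place ℂ K') (e' : ℕ), LiesOver ψ Q P' e' →
        IsPrimeDivisor y' P' ∧ (e : ℝ) * (1 - Δ P) ≤ e' * (1 - Δ' P'))
    {x : Fin n → K} {E : Fin n → Derivation ℂ K K}
    (hx : IsTranscendenceBasis ℂ x) (hE : ∀ i j, E i (x j) = if i = j then 1 else 0)
    {x' : Fin n → K'} {E' : Fin n → Derivation ℂ K' K'} (hx' : IsTranscendenceBasis ℂ x')
    (hE' : ∀ i j, E' i (x' j) = if i = j then 1 else 0) {κ : Place ℂ K → ℤ}
    (hκ : ∀ P, IsPrimeDivisor y P → ∀ (m : ℕ)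
      (ω : (Fin n → Derivation ℂ K K) → K), IsPluri m ω → ∀ r : ℚ, OrdGe P ω r ↔
        (ω E = 0 ∨ r ≤ m * κ P + P.ord (ω E))) {κ' : Place ℂ K' → ℤ}
    (hκ' : ∀ P, IsPrimeDivisor y' P → ∀ (m : ℕ)
      (ω : (Fin n → Derivation ℂ K' K') → K'), IsPluri m ω → ∀ r : ℚ, OrdGe P ω r ↔
        (ω E' = 0 ∨ r ≤ m * κ' P + P.ord (ω E')))
    {i0 : Fin (N + 1)} (hi0 : y i0 ≠ 0) {i : Fin (N' + 1)} (hi : y' i ≠ 0) {c : ℝ}
    (hc : MultiDegreeLe φ ψ y y' (n - 1) 1 c) {Q0 : Place ℂ L} {P0 : Place ℂ K} {e0 : ℕ}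
    (hQ0 : LiesOver φ Q0 P0 e0) (hP0 : IsPrimeDivisor y P0) {P0' : Place ℂ K'} {e0' : ℕ}
    (hQ0' : LiesOver ψ Q0 P0' e0') :
    ∃ (F : ℕ) (ρ1 : ℝ), 1 ≤ F ∧ 0 ≤ ρ1 ∧
      ((e0 : ℝ) * (1 - Δ P0) < e0' * (1 - Δ' P0') → 0 < ρ1) ∧ ∀ (q : K') (g r : ℕ), q ≠ 0 →
      (∀ P' l, IsPrimeDivisor y' P' → Centred y' l P' →
        (r : ℝ) * -(κ' P' + Δ' P') ≤ P'.ord q + g * P'.ord (y' i / y' l)) →
      ∃ (k : K) (B : ℕ), k ≠ 0 ∧ (B : ℝ) ≤ c * F ∧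
        (∀ P l, IsPrimeDivisor y P → Centred y l P → ((F * r : ℕ) : ℝ) * -(κ P + Δ P) ≤
          P.ord k + ((g * B : ℕ) : ℝ) * P.ord (y i0 / y l)) ∧
        ∀ l, Centred y l P0 → ((F * r : ℕ) : ℝ) * (-(κ P0 + Δ P0) + ρ1) ≤
          P0.ord k + ((g * B : ℕ) : ℝ) * P0.ord (y i0 / y l) := by
  have hess' := hy'.ess
  have hess := hy.ess
  let _ : Algebra K L := φ.toRingHom.toAlgebra
  let _ : Algebra K' L := ψ.toRingHom.toAlgebra
  have hst : IsScalarTower ℂ K L := IsScalarTower.of_algebraMap_eq fun c => (φ.commutes c).symm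
  have hst' : IsScalarTower ℂ K' L := IsScalarTower.of_algebraMap_eq fun c => (ψ.commutes c).symm
  have hfd' : FiniteDimensional K' L := fd_of_range ψ hψ0
  have hessL : Algebra.EssFiniteType ℂ L := by
    have h1 : Algebra.EssFiniteType K' L := inferInstance
    exact Algebra.EssFiniteType.comp ℂ K' L
  have hnL : Algebra.trdeg ℂ L = n := trdeg_up (K := K') hn'
  have hfd : FiniteDimensional K L := finite_map hn hnL
  have hdeg : mapDegree φ = Module.finrank K L := by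
    unfold mapDegree
    let e : K ≃ₐ[ℂ] φ.fieldRange := AlgEquiv.ofInjectiveField φ
    refine (Algebra.finrank_eq_of_equiv_equiv e.toRingEquiv (RingEquiv.refl L) ?_).symm
    ext x
    rfl
  have hc0 : 0 ≤ c := multi_nonneg hy hy' hc (by rw [hdeg]; exact Module.finrank_pos)
  exact neg_step_aux (L := L) hy hn hn0 hy' hn' φ ψ (fun _ => rfl) (fun _ => rfl) hdeg
    (fun Q P e h hP P' e' h' => hlog P hP Q e h P' e' h') hx hE hx' hE' hκ hκ' hi0 hi hc0 hc hQ0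
    hP0 hQ0'

/-- **Finite self-correspondences**, opposite inequality: `K_X + Δ` is pseudo-effective. -/
theorem pos_psef (hy : NormalModel y) (hn : Algebra.trdeg ℂ K = n) (hn0 : 0 < n)
    {Δ : Place ℂ K → ℝ} (hΔ : {P | IsPrimeDivisor y P ∧ Δ P ≠ 0}.Finite) (φ ψ : K →ₐ[ℂ] L)
    (hψ0 : FiniteDimensional ψ.fieldRange L)
    (hlog : ∀ P : Place ℂ K, IsPrimeDivisor y P → ∀ (Q : Place ℂ L) (e : ℕ), LiesOver φ Q P e →
      ∀ (P' : Place ℂ K) (e' : ℕ), LiesOver ψ Q P' e' →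
        IsPrimeDivisor y P' ∧ (e : ℝ) * (1 - Δ P) ≤ e' * (1 - Δ P')) {c : ℝ}
    (hc : MultiDegreeLe φ ψ y y (n - 1) 1 c) (hc1 : c < 1) : PseudoEffectiveR y n Δ := by
  classical
  have hc0 := multi_nonneg' hy hn hy hn φ ψ hψ0 hc
  obtain ⟨x, E, hx, hE⟩ := exists_crd hn (k := ℂ) (K := K)
  obtain ⟨κ, hκfin, hκ⟩ := exists_ordc hy hn hx hE
  have hDfin : {P | IsPrimeDivisor y P ∧ -((κ P : ℝ) + Δ P) ≠ 0}.Finite := by
    refine (hκfin.union hΔ).subset ?_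
    rintro P ⟨hP, h0⟩
    by_cases h1 : κ P = 0
    · right
      refine ⟨hP, fun h2 => h0 ?_⟩
      rw [h1, h2, Int.cast_zero, zero_add, neg_zero]
    · exact Or.inl ⟨hP, h1⟩
  obtain ⟨P1, hP1⟩ := exists_prime hy hn hn0
  obtain ⟨Q1, e1, P1', e1', hQ1, hQ1'⟩ := exists_lies hn hy hy hn φ ψ hψ0 P1
  intro i hi ε hε
  obtain ⟨F, ρ1, hF, -, -, h⟩ := neg_step hy hn hn0 hy hn φ ψ hψ0 hlog hx hE hx hE hκ hκ hi hi hc
    hQ1 hP1 hQ1'
  obtain ⟨q, g, r, hq, hr, hg, hb⟩ := iter_bound hy hi hDfin hc0 hc1 hF (fun q g r hq hb => by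
    obtain ⟨k, B, hk, hB, h1, -⟩ := h q g r hq hb
    exact ⟨k, B, hk, hB, h1⟩) hε
  refine ⟨r, g, hr, hg, frm x r q, frm_pluri _ _ _, fun P l hP hl => ?_⟩
  have h1 := ordEq_of_val hκ hP (frm_pluri x r q) (by
    rw [frm_self hE]
    exact hq)
  rw [frm_self hE] at h1
  refine ⟨_, h1, ?_⟩
  push_cast
  have h2 := hb P l hP hl
  linarith

end

end Pool.Agent.R887
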