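import Pool.Agent.R887.TrvF

/-!
Finite self-correspondences: the dichotomy.
-/

set_option autoImplicit false
set_option linter.overlappingInstances false
set_option linter.unusedSectionVars false

open FF Module MvPolynomial Pool.Agent.W602.GT Pool.Agent.W603.LV Pool.Agent.W619.PQ
open Pool.Agent.Y172 Pool.Agent.Y191

namespace Pool.Agent.R887

section

variable {K L : Type} [Field K] [Algebra ℂ K] [Field L] [Algebra ℂ L]
  {N : ℕ} {y : Fin (N + 1) → K} {n : ℕ}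

/-- a pluricanonical form which vanishes on a frame is zero -/
theorem pluri_zero {E : Fin n → Derivation ℂ K K} (hfr : IsFrame E) {m : ℕ}
    {ω : (Fin n → Derivation ℂ K K) → K} (hω : IsPluri m ω) (h0 : ω E = 0) : ω = 0 := by
  funext G
  choose A hA using fun i => hfr (G i)
  have h1 : G = fun i => ∑ j, (Matrix.of A) i j • E j := by
    funext i
    exact hA i
  rw [h1, hω, h0, mul_zero]
  rfl

/-- a nonzero section shows that the divisor is pseudo-effective -/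
theorem psef_of_section (hy : NormalModel y) (hn : Algebra.trdeg ℂ K = n) {m : ℕ} (hm : 1 ≤ m)
    {ω : (Fin n → Derivation ℂ K K) → K} (hω : IsSection y n m 0 ω) (h0 : ω ≠ 0) :
    PseudoEffectiveR y n 0 := by
  obtain ⟨x, E, hx, hE⟩ := exists_crd hn (k := ℂ) (K := K)
  obtain ⟨κ, hκfin, hκ⟩ := exists_ordc hy hn hx hE
  have hfr : IsFrame E := fun F => ⟨fun j => F (x j),
    (Pool.Agent.W73.PG.PULL.expand x hx E hE F).symm⟩
  have hωE : ω E ≠ 0 := fun h => h0 (pluri_zero hfr hω.1 h)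
  intro i hi ε hε
  refine ⟨m, 0, hm, by push_cast; positivity, ω, hω.1, fun P l hP hl => ?_⟩
  have h1 := ordEq_of_val hκ hP hω.1 hωE
  refine ⟨_, h1, ?_⟩
  have h2 := ((hκ P hP m ω hω.1 _).1 (hω.2 P hP)).resolve_left hωE
  have h3 : -(((0 : Place ℂ K → ℚ) P : ℚ) : ℝ) ≤ (((m : ℚ) * κ P + P.ord (ω E) : ℚ) : ℝ) := by
    exact_mod_cast h2
  simp only [Pi.zero_apply, Rat.cast_zero, neg_zero, mul_zero, Nat.cast_zero, zero_mul,
    sub_zero] at h3 ⊢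
  exact h3

/-- **The dichotomy.** -/
theorem dichotomy (hy : NormalModel y) (hn : Algebra.trdeg ℂ K = n) (hn0 : 0 < n)
    {Δ : Place ℂ K → ℝ} (hΔ : {P | IsPrimeDivisor y P ∧ Δ P ≠ 0}.Finite) (φ ψ : K →ₐ[ℂ] L)
    (hψ0 : FiniteDimensional ψ.fieldRange L) (hlog : FiniteLogPullBackLe φ ψ y Δ y Δ) {c : ℝ}
    (hc : MultiDegreeLe φ ψ y y (n - 1) 1 c) (hc1 : c < 1) :
    ((∀ P, IsPrimeDivisor y P → ∀ (Q : Place ℂ L) (e : ℕ), LiesOver φ Q P e →
        ∀ (P' : Place ℂ K) (e' : ℕ), LiesOver ψ Q P' e' →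
          (e' : ℝ) * (1 - Δ P') = e * (1 - Δ P)) ∧ NumTrivialR y n Δ) ∨
    ((∃ (P P' : Place ℂ K) (Q : Place ℂ L) (e e' : ℕ), IsPrimeDivisor y P ∧ LiesOver φ Q P e ∧
        LiesOver ψ Q P' e' ∧ (e' : ℝ) * (1 - Δ P') < e * (1 - Δ P)) ∧
      AntiPseudoEffectiveR y n Δ ∧ ¬ PseudoEffectiveR y n Δ) := by
  obtain ⟨h1, h2⟩ := anti_psef hy hn hn0 hΔ φ ψ hψ0 hlog hc hc1
  by_cases h : ∀ P, IsPrimeDivisor y P → ∀ (Q : Place ℂ L) (e : ℕ), LiesOver φ Q P e →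
      ∀ (P' : Place ℂ K) (e' : ℕ), LiesOver ψ Q P' e' → (e' : ℝ) * (1 - Δ P') = e * (1 - Δ P)
  · left
    exact ⟨h, pos_psef hy hn hn0 hΔ φ ψ hψ0 (fun P hP Q e hQ P' e' hQ' =>
      ⟨(hlog P hP Q e hQ P' e' hQ').1, (h P hP Q e hQ P' e' hQ').ge⟩) hc hc1, h1⟩
  · right
    refine ⟨?_, h1, fun h3 => h (h2 h3).1⟩
    push Not at h
    obtain ⟨P, hP, Q, e, hQ, P', e', hQ', hne⟩ := h
    exact ⟨P, P', Q, e, e', hP, hQ, hQ', lt_of_le_of_ne (hlog P hP Q e hQ P' e' hQ').2 hne⟩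

end

end Pool.Agent.R887
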