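import Pool.Agent.R887.TrvH

/-!
The zeros of the functions with bounded poles, explicit version, and the coefficients of the
effective parts of the canonical divisor.
-/

set_option autoImplicit false
set_option linter.overlappingInstances false
set_option linter.unusedSectionVars false

open FF Module MvPolynomial Pool.Agent.W602.GT Pool.Agent.W603.LV Pool.Agent.W619.PQ
open Pool.Agent.Y172 Pool.Agent.Y191
open scoped IntermediateField

namespace Pool.Agent.R887

section

variable {K : Type} [Field K] [Algebra ℂ K] {N n : ℕ} {y : Fin (N + 1) → K}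

/-- **The order at a prime divisor is at most the degree of the poles.** -/
theorem zeros_le (hy : NormalModel y) (hn : Algebra.trdeg ℂ K = n) (hn0 : 0 < n) {d : ℕ}
    (hd : ∀ u : Fin (n - 1) → K, (∀ a, IsPencil y (u a)) → ∀ v, IsPencil y v →
      degreeOver u (fun _ : Fin 1 => v) ≤ d) {l0 : Fin (N + 1)} {P0 : Place ℂ K}
    (hP0 : IsPrimeDivisor y P0) (hl0 : y l0 ≠ 0) {M : ℕ} {h : K} (h0 : h ≠ 0)
    (hh : ∀ P l, IsPrimeDivisor y P → Centred y l P → 0 ≤ P.ord h + M * P.ord (y l0 / y l)) :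
    P0.ord h ≤ d * M := by
  classical
  have hess := hy.ess
  by_cases hneg : P0.ord h ≤ 0
  · exact hneg.trans (mul_nonneg (Int.natCast_nonneg _) (Int.natCast_nonneg _))
  push Not at hneg
  obtain ⟨u, hup, hu⟩ := exists_pencils (n := n) hy.ne (Set.finite_singleton P0)
    (fun P hP => by rw [Set.mem_singleton_iff.1 hP]; exact hP0)
    (fun P hP => by rw [Set.mem_singleton_iff.1 hP]; exact hP0.divisorial hy hn)
  have hu0 := hu P0 (Set.mem_singleton _)
  obtain ⟨F, hF⟩ : ∃ F, F = IntermediateField.adjoin ℂ (Set.range u) := ⟨_, rfl⟩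
  have htriv : ∀ m ∈ F, m ≠ 0 → P0.ord m = 0 := by
    rw [hF]
    exact hu0.triv
  have htr : Transcendental F h := (up P0 F htriv).transcendental_of_ord_ne (f := h) (by
    change P0.ord h ≠ 0
    omega)
  have htr' : Transcendental (Algebra.adjoin ℂ (Set.range u)) h := by
    intro h5
    apply htr
    rw [hF]
    open scoped IntermediateField.algebraAdjoinAdjoin in
    exact h5.extendScalars (S := IntermediateField.adjoin ℂ (Set.range u))
      (FaithfulSMul.algebraMap_injective _ _)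
  obtain ⟨w, hw⟩ : ∃ w : Option (Fin (n - 1)) → K, w = fun o => o.elim h u := ⟨_, rfl⟩
  have hwi : AlgebraicIndependent ℂ w := by
    rw [hw]
    exact (hu0.algInd.option_iff_transcendental h).2 htr'
  have hcard : (Cardinal.mk (Option (Fin (n - 1)))) = n := by
    rw [Cardinal.mk_fintype, Fintype.card_option, Fintype.card_fin]
    congr 1
    omega
  have hbas : IsTranscendenceBasis ℂ w :=
    hwi.isTranscendenceBasis_of_trdeg_le_of_finite (by rw [hn, hcard])
  have hr : Set.range w = Set.range u ∪ {h} := by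
    rw [hw]
    ext x
    simp only [Set.mem_range, Set.mem_union, Set.mem_singleton_iff]
    constructor
    · rintro ⟨o, rfl⟩
      rcases o with _ | i
      · exact Or.inr rfl
      · exact Or.inl ⟨i, rfl⟩
    · rintro (⟨i, rfl⟩ | rfl)
      · exact ⟨some i, rfl⟩
      · exact ⟨none, rfl⟩
  have hpos : 0 < dg ℂ w := dg_pos hbas.isAlgebraic_field
  have hdd : dg ℂ w = finrank (IntermediateField.adjoin F {h}) K := by
    rw [hF]
    exact dg_simple hr
  have hfin' : FiniteDimensional (IntermediateField.adjoin F {h}) K :=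
    FiniteDimensional.of_finrank_pos (by rw [← hdd]; exact hpos)
  have : IsFF F K := IsFF.of_finite htr hfin'
  -- the degree is at least the order
  have hlow : P0.ord h ≤ (dg ℂ w : ℤ) := by
    have h1 : Finsupp.single (up P0 F htriv) (P0.ord h) ≤ polar (k := F) h⁻¹ := by
      intro Q
      rw [polar_apply, Q.ord_inv, neg_neg]
      by_cases hQ : up P0 F htriv = Q
      · rw [← hQ, Finsupp.single_eq_same]
        exact le_max_left _ _
      · rw [Finsupp.single_eq_of_ne' hQ]
        exact le_max_right _ _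
    have h2 : polar (k := F) h⁻¹ = polar (k := F) h + divisor F h := by
      ext Q
      rw [polar_apply, Finsupp.add_apply, polar_apply, divisor_apply, Q.ord_inv, neg_neg]
      rcases le_total (Q.ord h) 0 with h | h
      · rw [max_eq_right h, max_eq_left (by omega)]
        omega
      · rw [max_eq_left h, max_eq_right (by omega)]
        omega
    have h3 := ddeg_mono h1
    rw [h2, ddeg_add, ddeg_divisor, add_zero, ddeg_single, ddeg_polar htr, ← hdd] at h3
    have h5 := (up P0 F htriv).deg_pos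
    have h6 : (1 : ℤ) ≤ (up P0 F htriv).deg := by exact_mod_cast h5
    have h7 : P0.ord h * 1 ≤ P0.ord h * (up P0 F htriv).deg :=
      mul_le_mul_of_nonneg_left h6 hneg.le
    linarith
  -- the degree is bounded
  have hb1 : Bnd ℂ (affL K y l0) M h := bnd_of_prime hy hl0 h0 fun Q P e hov hP l hl => by
    have h1 := hh P l hP hl
    obtain ⟨h3, h4⟩ := Pool.Agent.Y172.over_unique' hov
      (show Over Q Q 1 from ⟨Nat.one_pos, fun f => by
        rw [Nat.cast_one, one_mul]
        rfl⟩)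
    rw [← h3]
    exact h1
  have hone : (1 : K) ∈ affL K y l0 := ⟨l0, by simp only []; rw [div_self hl0, map_one]⟩
  have hb0 : Bnd ℂ (affL K y l0) M (1 : K) := fun P =>
    ⟨1, hone, one_ne_zero, by rw [P.ord_one, mul_zero]⟩
  obtain ⟨v, hv, hle⟩ := replace_one (k := ℂ) (K := K) (ι := Fin (n - 1) ⊕ Fin 1) (by
    rw [hn, Nat.card_eq_fintype_card, Fintype.card_sum, Fintype.card_fin, Fintype.card_fin]
    congr 1
    omega) (S := affL K y l0) (Set.finite_range _) hone one_ne_zero h0 hb0 hb1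
    (Sum.elim u fun _ => h) (Sum.inr 0)
    (by rw [Sum.elim_inr, div_one])
  have hv' : IsPencil y v := by
    have h1 : affL K y l0 = aff y l0 := by
      unfold affL aff
      congr 1
    rw [h1] at hv
    exact pencil_of_span hl0 hv
  have h1 : Function.update (Sum.elim u fun _ : Fin 1 => h) (Sum.inr 0) v =
      Sum.elim u fun _ : Fin 1 => v := by
    funext k
    rcases k with k | k
    · rw [Function.update_of_ne (by simp), Sum.elim_inl, Sum.elim_inl]
    · rw [Subsingleton.elim k 0, Function.update_self, Sum.elim_inr]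
  rw [h1] at hle
  have h2 := hd u hup v hv'
  rw [degreeOver_eq] at h2
  have h3 : dg ℂ w = dg ℂ (Sum.elim u fun _ : Fin 1 => h) := dg_congr (by
    rw [hr, elim_range])
  rw [← h3] at hle
  have h4 : dg ℂ w ≤ M * d := hle.trans (Nat.mul_le_mul_left _ h2)
  have h5 : (dg ℂ w : ℤ) ≤ M * d := by exact_mod_cast h4
  linarith

/-- **The coefficients of effective divisors `A` with `K_X + Δ - A` pseudo-effective.** -/
theorem coeff_le (hy : NormalModel y) (hn : Algebra.trdeg ℂ K = n) (hn0 : 0 < n) {d : ℕ}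
    (hd : ∀ u : Fin (n - 1) → K, (∀ a, IsPencil y (u a)) → ∀ v, IsPencil y v →
      degreeOver u (fun _ : Fin 1 => v) ≤ d) {A : Place ℂ K → ℚ} (hA : Effective y A)
    (hps : PseudoEffective y n (-A)) {τ : ℝ} (hτ0 : 0 ≤ τ) (hτ : ThresholdLe y n 0 τ)
    {P0 : Place ℂ K} (hP0 : IsPrimeDivisor y P0) : (A P0 : ℝ) ≤ d * τ := by
  classical
  obtain ⟨x, E, hx, hE⟩ := exists_crd hn (k := ℂ) (K := K)
  obtain ⟨κ, -, hκ⟩ := exists_ordc hy hn hx hE
  have hfr : IsFrame E := fun F => ⟨fun j => F (x j),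
    (Pool.Agent.W73.PG.PULL.expand x hx E hE F).symm⟩
  obtain ⟨H, hH, hsec⟩ := hps
  obtain ⟨l0, hl0⟩ := exists_centred hy P0
  obtain ⟨G, hG, hGP⟩ := exists_hyp hy hl0.1
  obtain ⟨f, s, hf0, hf⟩ := dominate hy hH hl0.1 hG hGP
  refine le_of_forall_pos_le_add fun ε hε => ?_
  obtain ⟨δ, hδ⟩ : ∃ δ : ℝ, δ = ε / (d * (s + |(P0.ord f : ℝ)| + 1) + s + |(P0.ord f : ℝ)| + 1) :=
    ⟨_, rfl⟩
  have hδ0 : 0 < δ := by
    rw [hδ]
    positivity
  obtain ⟨m, b, hm, hb, η, hη, hη0⟩ := hsec δ hδ0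
  obtain ⟨m', b', hm', hb', θ, hθ, hθo⟩ := hτ l0 hl0.1 δ hδ0
  have hηE : η E ≠ 0 := fun h => hη0 (pluri_zero hfr hη.1 h)
  obtain ⟨z0, hz0, -⟩ := hθo P0 l0 hP0 hl0
  have hθE : θ E ≠ 0 := (val_of_ordEq hκ hP0 hθ hz0).1
  have hm0 : (0 : ℝ) < m := by exact_mod_cast hm
  have hm'0 : (0 : ℝ) < m' := by exact_mod_cast hm'
  have hηo : ∀ P, IsPrimeDivisor y P →
      (m : ℝ) * A P - b * H P ≤ m * κ P + P.ord (η E) := by
    intro P hP
    have h1 := ((hκ P hP m η hη.1 _).1 (hη.2 P hP)).resolve_left hηE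
    have h2 : -((m • -A + b • H) P) = (m : ℚ) * A P - b * H P := by
      rw [Pi.add_apply, Pi.smul_apply, Pi.smul_apply, Pi.neg_apply, nsmul_eq_mul, nsmul_eq_mul]
      ring
    rw [h2] at h1
    exact_mod_cast h1
  have hθo' : ∀ P l, IsPrimeDivisor y P → Centred y l P →
      (m' : ℝ) * κ P + P.ord (θ E) ≤ b' * P.ord (y l0 / y l) := by
    intro P l hP hl
    obtain ⟨z, hz, hz1⟩ := hθo P l hP hl
    rw [(val_of_ordEq hκ hP hθ hz).2] at hz1
    push_cast at hz1
    simp only [Pi.zero_apply, mul_zero, neg_zero, zero_add] at hz1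
    exact hz1
  have hHo : ∀ P l, IsPrimeDivisor y P → Centred y l P →
      (H P : ℝ) ≤ P.ord f + s * P.ord (y l0 / y l) := by
    intro P l hP hl
    have h1 := hf P hP
    rw [hGP P l hP hl] at h1
    exact_mod_cast h1
  -- the function
  have hh0 : η E ^ m' / θ E ^ m * f ^ (m' * b) ≠ 0 :=
    mul_ne_zero (div_ne_zero (pow_ne_zero _ hηE) (pow_ne_zero _ hθE)) (pow_ne_zero _ hf0)
  have hord : ∀ P l, IsPrimeDivisor y P → Centred y l P →
      (m' * m : ℝ) * A P - (m' * b * s + m * b') * P.ord (y l0 / y l) ≤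
        P.ord (η E ^ m' / θ E ^ m * f ^ (m' * b)) := by
    intro P l hP hl
    rw [P.ord_mul (div_ne_zero (pow_ne_zero _ hηE) (pow_ne_zero _ hθE)) (pow_ne_zero _ hf0),
      P.ord_div (pow_ne_zero _ hηE) (pow_ne_zero _ hθE), P.ord_pow, P.ord_pow, P.ord_pow]
    have h1 := mul_le_mul_of_nonneg_left (hηo P hP) hm'0.le
    have h2 := mul_le_mul_of_nonneg_left (hθo' P l hP hl) hm0.le
    have h3 := mul_le_mul_of_nonneg_left (hHo P l hP hl)
      (show (0 : ℝ) ≤ m' * b by positivity)
    push_cast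
    linarith
  have hA0 : ∀ P, IsPrimeDivisor y P → (0 : ℝ) ≤ A P := fun P hP => by exact_mod_cast hA.1 P hP
  have hz := zeros_le hy hn hn0 hd (M := m' * b * s + m * b') hP0 hl0.1 hh0 (fun P l hP hl => by
    have h1 := hord P l hP hl
    have h2 : (0 : ℝ) ≤ (m' * m : ℝ) * A P := mul_nonneg (by positivity) (hA0 P hP)
    have h3 : (0 : ℝ) ≤ P.ord (η E ^ m' / θ E ^ m * f ^ (m' * b)) +
        (m' * b * s + m * b' : ℕ) * P.ord (y l0 / y l) := by
      push_cast at h1 ⊢
      linarith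
    exact_mod_cast h3)
  have h1 := hord P0 l0 hP0 hl0
  rw [div_self hl0.1, P0.ord_one] at h1
  have h2 : (P0.ord (η E ^ m' / θ E ^ m * f ^ (m' * b)) : ℝ) ≤
      d * (m' * b * s + m * b') := by
    have h3 : ((P0.ord (η E ^ m' / θ E ^ m * f ^ (m' * b)) : ℤ) : ℝ) ≤
        ((d * (m' * b * s + m * b' : ℕ) : ℤ) : ℝ) := by exact_mod_cast hz
    push_cast at h3
    exact h3
  have h3 : (m' * m : ℝ) * A P0 ≤ d * (m' * b * s + m * b') := by
    push_cast at h1
    linarith
  have hd0 : (0 : ℝ) ≤ d := Nat.cast_nonneg _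
  have hs0 : (0 : ℝ) ≤ s := Nat.cast_nonneg _
  have h4 : (m' * b * s + m * b' : ℝ) ≤ (m' * m) * (δ * s + τ + δ) := by
    have h5 := mul_le_mul_of_nonneg_left hb (show (0 : ℝ) ≤ m' * s by positivity)
    have h6 := mul_le_mul_of_nonneg_left hb' hm0.le
    linarith
  have h5 : (m' * m : ℝ) * A P0 ≤ (m' * m) * (d * (δ * s + τ + δ)) := by
    have h6 := mul_le_mul_of_nonneg_left h4 hd0
    linarith
  have h6 : (A P0 : ℝ) ≤ d * (δ * s + τ + δ) :=
    le_of_mul_le_mul_left h5 (by positivity)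
  have h7 : (d : ℝ) * (δ * s + δ) ≤ ε := by
    have h8 : ε = δ * (d * (s + |(P0.ord f : ℝ)| + 1) + s + |(P0.ord f : ℝ)| + 1) := by
      rw [hδ]
      field_simp
    rw [h8]
    have h9 : (0 : ℝ) ≤ |(P0.ord f : ℝ)| := abs_nonneg _
    have h10 : (0 : ℝ) ≤ δ * (d * |(P0.ord f : ℝ)| + s + |(P0.ord f : ℝ)| + 1) := by positivity
    linarith
  linarith

end

end Pool.Agent.R887
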