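import Pool.Agent.R887.TrvI

/-!
Decompositions of the canonical divisor and finite multi-valued maps.
-/

set_option autoImplicit false
set_option linter.overlappingInstances false
set_option linter.unusedSectionVars false

open FF Module MvPolynomial Pool.Agent.W602.GT Pool.Agent.W603.LV Pool.Agent.W619.PQ
open Pool.Agent.Y172 Pool.Agent.Y191

namespace Pool.Agent.R887

/-- the two notions of pseudo-effective divisors -/
theorem psefR_of_psef {K : Type} [Field K] [Algebra ℂ K] {N n : ℕ} {y : Fin (N + 1) → K}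
    (hy : NormalModel y) (hn : Algebra.trdeg ℂ K = n) {D : Place ℂ K → ℚ}
    (h : PseudoEffective y n D) {Δ : Place ℂ K → ℝ}
    (hΔ : ∀ P, IsPrimeDivisor y P → (D P : ℝ) ≤ Δ P) : PseudoEffectiveR y n Δ := by
  classical
  obtain ⟨x, E, hx, hE⟩ := exists_crd hn (k := ℂ) (K := K)
  obtain ⟨κ, -, hκ⟩ := exists_ordc hy hn hx hE
  have hfr : IsFrame E := fun F => ⟨fun j => F (x j),
    (Pool.Agent.W73.PG.PULL.expand x hx E hE F).symm⟩
  obtain ⟨H, hH, hsec⟩ := h
  intro i hi ε hε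
  obtain ⟨G, hG, hGP⟩ := exists_hyp hy hi
  obtain ⟨f, s, hf0, hf⟩ := dominate hy hH hi hG hGP
  obtain ⟨m, b, hm, hb, η, hη, hη0⟩ := hsec (ε / (s + 1)) (by positivity)
  have hηE : η E ≠ 0 := fun h => hη0 (pluri_zero hfr hη.1 h)
  have hb0 : (0 : ℝ) ≤ b := Nat.cast_nonneg _
  have hm0 : (0 : ℝ) ≤ m := Nat.cast_nonneg _
  refine ⟨m, b * s, hm, ?_, frm x m (η E * f ^ b), frm_pluri _ _ _, fun P l hP hl => ?_⟩
  · have h1 := mul_le_mul_of_nonneg_right hb (show (0 : ℝ) ≤ s + 1 by positivity)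
    have h2 : ε / (s + 1) * m * (s + 1) = ε * m := by field_simp
    push_cast
    linarith
  · have h1 := ordEq_of_val hκ hP (frm_pluri x m (η E * f ^ b)) (by
      rw [frm_self hE]
      exact mul_ne_zero hηE (pow_ne_zero _ hf0))
    rw [frm_self hE] at h1
    refine ⟨_, h1, ?_⟩
    rw [P.ord_mul hηE (pow_ne_zero _ hf0), P.ord_pow]
    have h2 := ((hκ P hP m η hη.1 _).1 (hη.2 P hP)).resolve_left hηE
    have h3 : -((m • D + b • H) P) = -((m : ℚ) * D P) - b * H P := by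
      rw [Pi.add_apply, Pi.smul_apply, Pi.smul_apply, nsmul_eq_mul, nsmul_eq_mul]
      ring
    rw [h3] at h2
    have h4 : -((m : ℝ) * D P) - b * H P ≤ m * κ P + P.ord (η E) := by exact_mod_cast h2
    have h5 := hf P hP
    rw [hGP P l hP hl] at h5
    have h6 : (H P : ℝ) ≤ P.ord f + s * P.ord (y i / y l) := by exact_mod_cast h5
    have h7 := mul_le_mul_of_nonneg_left h6 hb0
    have h8 := mul_le_mul_of_nonneg_left (hΔ P hP) hm0
    push_cast
    linarith

open scoped Classical in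
/-- **Decompositions of the canonical divisor**, one map. -/
theorem decomp_one {K' : Type} [Field K'] [Algebra ℂ K'] {N' n : ℕ} {y' : Fin (N' + 1) → K'}
    (hy' : NormalModel y') (hn' : Algebra.trdeg ℂ K' = n) (hn0 : 0 < n) {S : Set (Place ℂ K')}
    (hS : S.Finite) :
    ∃ C : ℝ, 0 ≤ C ∧ ∀ (K : Type) [Field K] [Algebra ℂ K] (N : ℕ) (y : Fin (N + 1) → K) (d : ℕ),
      NormalModel y → Algebra.trdeg ℂ K = n →
      (∀ u : Fin (n - 1) → K, (∀ a, IsPencil y (u a)) → ∀ v, IsPencil y v →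
        degreeOver u (fun _ : Fin 1 => v) ≤ d) →
      ∀ (L : Type) [Field L] [Algebra ℂ L] (φ : K →ₐ[ℂ] L) (ψ : K' →ₐ[ℂ] L),
      FiniteDimensional ψ.fieldRange L →
      (∀ P : Place ℂ K, IsPrimeDivisor y P → ∀ (Q : Place ℂ L) (e : ℕ), LiesOver φ Q P e →
        ∀ (P' : Place ℂ K') (e' : ℕ), LiesOver ψ Q P' e' →
          IsPrimeDivisor y' P' ∧ (P' ∉ S → e' ≤ e)) →
      ∀ c : ℝ, MultiDegreeLe φ ψ y y' (n - 1) 1 c →
      ∀ A : Place ℂ K → ℚ, Effective y A → PseudoEffective y n (-A) →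
        ∀ P, IsPrimeDivisor y P → (A P : ℝ) ≤ c * C * d := by
  obtain ⟨C, hC0, hC⟩ := exists_threshold hy' hn' (Δ := fun P => if P ∈ S then (1 : ℝ) else 0) (by
    refine hS.subset ?_
    rintro P ⟨-, h⟩
    by_contra h1
    exact h (if_neg h1))
  refine ⟨C, hC0, fun K _ _ N y d hy hn hd L _ _ φ ψ hψ hfin c hc A hA hps P hP => ?_⟩
  have hlog : FiniteLogPullBackLe φ ψ y 0 y' (fun P => if P ∈ S then (1 : ℝ) else 0) := by
    intro P hP Q e hQ P' e' hQ'
    obtain ⟨h1, h2⟩ := hfin P hP Q e hQ P' e' hQ'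
    refine ⟨h1, ?_⟩
    simp only [Pi.zero_apply, sub_zero, mul_one]
    split_ifs with h3
    · rw [sub_self, mul_zero]
      exact Nat.cast_nonneg _
    · rw [sub_zero, mul_one]
      exact_mod_cast h2 h3
  obtain ⟨hc0, h1⟩ := threshold_le hy hn hn0 hy' hn' φ ψ hψ hlog hc hC0 hC
  have h2 := coeff_le hy hn hn0 hd hA hps (mul_nonneg hc0 hC0) h1 hP
  linarith

/-- **Decompositions of the canonical divisor**, self-correspondences. -/
theorem decomp_self {K L : Type} [Field K] [Algebra ℂ K] [Field L] [Algebra ℂ L] {N n : ℕ}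
    {y : Fin (N + 1) → K} (hy : NormalModel y) (hn : Algebra.trdeg ℂ K = n) (hn0 : 0 < n)
    (φ ψ : K →ₐ[ℂ] L) (hψ : FiniteDimensional ψ.fieldRange L)
    (hpf : ∀ P : Place ℂ K, IsPrimeDivisor y P → ∀ (Q : Place ℂ L) (e : ℕ), LiesOver φ Q P e →
      ∀ (P' : Place ℂ K) (e' : ℕ), LiesOver ψ Q P' e' → IsPrimeDivisor y P' ∧ e' ≤ e) {c : ℝ}
    (hc : MultiDegreeLe φ ψ y y (n - 1) 1 c) (hc1 : c < 1) {A : Place ℂ K → ℚ}
    (hA : Effective y A) (hps : PseudoEffective y n (-A)) :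
    (∀ P, IsPrimeDivisor y P → A P = 0) ∧ NumTrivialR y n 0 := by
  have hanti := (anti_psef hy hn hn0 (Δ := 0) (by
    refine Set.finite_empty.subset ?_
    rintro P ⟨-, h⟩
    exact absurd rfl h) φ ψ hψ (fun P hP Q e hQ P' e' hQ' => by
    obtain ⟨h1, h2⟩ := hpf P hP Q e hQ P' e' hQ'
    refine ⟨h1, ?_⟩
    rw [Pi.zero_apply, Pi.zero_apply, sub_zero, mul_one, mul_one]
    exact_mod_cast h2) hc hc1).1
  have h0 : ThresholdLe y n 0 0 := by
    intro i hi ε hε
    obtain ⟨m, b, hm, hb, η, hη⟩ := hanti i hi ε hε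
    refine ⟨m, b, hm, ?_, η, hη⟩
    rw [zero_add]
    exact hb
  refine ⟨fun P hP => ?_, psefR_of_psef hy hn hps (fun P hP => ?_), hanti⟩
  swap
  · have h1 := hA.1 P hP
    rw [Pi.neg_apply, Pi.zero_apply]
    push_cast
    have h2 : (0 : ℝ) ≤ A P := by exact_mod_cast h1
    linarith
  obtain ⟨C, hC⟩ := bezout hy hn
  have h1 := coeff_le hy hn hn0 (d := C) (fun u hu v hv => by
    rw [degreeOver_eq]
    refine hC (by
      rw [Nat.card_eq_fintype_card, Fintype.card_sum, Fintype.card_fin, Fintype.card_fin]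
      omega) _ fun k => ?_
    rcases k with k | k
    · exact hu k
    · exact hv) hA hps le_rfl h0 hP
  rw [mul_zero] at h1
  have h2 := hA.1 P hP
  have h3 : (A P : ℝ) ≤ ((0 : ℚ) : ℝ) := by
    rw [Rat.cast_zero]
    exact h1
  exact le_antisymm (by exact_mod_cast h3) h2

end Pool.Agent.R887
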