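import Pool.Agent.R887.TrvY

/-!
Systems of divisors and finite multi-valued maps.
-/

set_option autoImplicit false
set_option linter.overlappingInstances false
set_option linter.unusedSectionVars false

open FF Module MvPolynomial Pool.Agent.W602.GT Pool.Agent.W603.LV Pool.Agent.W619.PQ
open Pool.Agent.Y172 Pool.Agent.Y191

namespace Pool.Agent.R887

section

variable {K : Type} [Field K] [Algebra ℂ K] {N n : ℕ} {y : Fin (N + 1) → K}

/-- the zero divisor -/
theorem divThreshold_zero : DivThresholdLe y (fun _ => 0) 0 := by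
  intro i hi ε hε
  refine ⟨1, 0, le_rfl, by push_cast; positivity, 1, one_ne_zero, fun P l hP hl => ?_⟩
  rw [P.ord_one]
  simp

/-- sums -/
theorem DivThresholdLe.add {D D' : Place ℂ K → ℝ} {τ τ' : ℝ} (h : DivThresholdLe y D τ)
    (h' : DivThresholdLe y D' τ') : DivThresholdLe y (fun P => D P + D' P) (τ + τ') := by
  intro i hi ε hε
  obtain ⟨m, b, hm, hb, q, hq, hqo⟩ := h i hi (ε / 2) (by positivity)
  obtain ⟨m', b', hm', hb', q', hq', hqo'⟩ := h' i hi (ε / 2) (by positivity)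
  have hm0 : (0 : ℝ) ≤ m := Nat.cast_nonneg _
  have hm'0 : (0 : ℝ) ≤ m' := Nat.cast_nonneg _
  refine ⟨m * m', m' * b + m * b', Nat.mul_pos hm hm', ?_, q ^ m' * q' ^ m,
    mul_ne_zero (pow_ne_zero _ hq) (pow_ne_zero _ hq'), fun P l hP hl => ?_⟩
  · push_cast
    have h1 := mul_le_mul_of_nonneg_left hb hm'0
    have h2 := mul_le_mul_of_nonneg_left hb' hm0
    linarith
  · rw [P.ord_mul (pow_ne_zero _ hq) (pow_ne_zero _ hq'), P.ord_pow, P.ord_pow]
    have h1 := mul_le_mul_of_nonneg_left (hqo P l hP hl) hm'0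
    have h2 := mul_le_mul_of_nonneg_left (hqo' P l hP hl) hm0
    push_cast
    linarith

/-- multiples by natural numbers -/
theorem DivThresholdLe.nsmul' {D : Place ℂ K → ℝ} {τ : ℝ} (h : DivThresholdLe y D τ) (a : ℕ) :
    DivThresholdLe y (fun P => a * D P) (a * τ) := by
  rcases Nat.eq_zero_or_pos a with ha | ha
  · subst ha
    simp only [Nat.cast_zero, zero_mul]
    exact divThreshold_zero
  · exact h.nsmul ha

/-- nonnegative combinations -/
theorem DivThresholdLe.sum {ι : Type} (s : Finset ι) {D : ι → Place ℂ K → ℝ} {τ : ι → ℝ}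
    (h : ∀ i, DivThresholdLe y (D i) (τ i)) (a : ι → ℕ) :
    DivThresholdLe y (fun P => ∑ i ∈ s, a i * D i P) (∑ i ∈ s, a i * τ i) := by
  classical
  induction s using Finset.induction_on with
  | empty =>
    simp only [Finset.sum_empty]
    exact divThreshold_zero
  | insert i s hi ih =>
    have h1 := ((h i).nsmul' (a i)).add ih
    rw [Finset.sum_insert hi]
    have h2 : (fun P => ∑ j ∈ insert i s, (a j : ℝ) * D j P) =
        fun P => (a i : ℝ) * D i P + ∑ j ∈ s, (a j : ℝ) * D j P := by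
      funext P
      rw [Finset.sum_insert hi]
    rw [h2]
    exact h1

end

section

variable {K : Type} [Field K] [Algebra ℂ K] {N n : ℕ} {y : Fin (N + 1) → K}

/-- **Systems of divisors**: `b f^* D i ≤ ∑ j, a i j p^* D j`, with a positive vector `w` such that
`c ∑ j, a i j w j ≤ λ b w i`, `λ < 1`. -/
theorem div_system (hy : NormalModel y) (hn : Algebra.trdeg ℂ K = n) (hn0 : 0 < n)
    {ι : Type} [Fintype ι] {D : ι → Place ℂ K → ℝ}
    (hD : ∀ i, {P | IsPrimeDivisor y P ∧ D i P ≠ 0}.Finite) {L : ι → Type} [∀ i, Field (L i)]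
    [∀ i, Algebra ℂ (L i)] (φ ψ : ∀ i, K →ₐ[ℂ] L i)
    (hψ0 : ∀ i, FiniteDimensional (ψ i).fieldRange (L i)) {a : ι → ι → ℕ} {b s : ι → ℕ}
    {δ : ∀ i, L i}
    (hb : ∀ i, 1 ≤ b i)
    (hpull : ∀ i, FinitePullBackLe (φ i) (ψ i) y (fun P => b i * D i P) y
      (fun P => ∑ j, a i j * D j P) (s i) (δ i)) {c : ι → ℝ}
    (hc : ∀ i, MultiDegreeLe (φ i) (ψ i) y y (n - 1) 1 (c i)) {w : ι → ℝ} (hw : ∀ i, 0 < w i)
    {ρ : ℝ} (hρ1 : ρ < 1) (hρ : ∀ i, c i * ∑ j, a i j * w j ≤ ρ * (b i * w i)) :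
    (∀ i, DivThresholdLe y (D i) 0) ∧ ∀ i, DivPsef y (D i) → DivNumTrivial y (D i) ∧
      PullBackEq (φ i) (ψ i) y (fun P => b i * D i P) (fun P => ∑ j, a i j * D j P) (s i) (δ i) := by
  classical
  rcases isEmpty_or_nonempty ι with hι | hι
  · exact ⟨fun i => hι.elim i, fun i => hι.elim i⟩
  choose τ hτ0 hτ using fun i => exists_divThreshold hy (hD i)
  obtain ⟨μ, hμ0, hμ⟩ : ∃ μ : ℝ, 0 ≤ μ ∧ ∀ i, τ i ≤ μ * w i := by
    refine ⟨∑ i, τ i / w i, Finset.sum_nonneg fun i _ => div_nonneg (hτ0 i) (hw i).le,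
      fun i => ?_⟩
    have h1 : τ i / w i ≤ ∑ i, τ i / w i :=
      Finset.single_le_sum (f := fun i => τ i / w i) (fun i _ => div_nonneg (hτ0 i) (hw i).le)
        (Finset.mem_univ i)
    exact (div_le_iff₀ (hw i)).1 h1
  have hρ0 : 0 ≤ ρ := by
    obtain ⟨i⟩ := hι
    have hc0 := multi_nonneg' hy hn hy hn (φ i) (ψ i) (hψ0 i) (hc i)
    have hb0 : (0 : ℝ) < b i := by exact_mod_cast hb i
    have h1 : 0 ≤ ρ * (b i * w i) := by
      refine le_trans ?_ (hρ i)
      exact mul_nonneg hc0 (Finset.sum_nonneg fun j _ =>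
        mul_nonneg (Nat.cast_nonneg _) (hw j).le)
    have h2 : 0 < b i * w i := mul_pos hb0 (hw i)
    by_contra hneg
    push Not at hneg
    nlinarith
  have hall : ∀ k : ℕ, ∀ i, DivThresholdLe y (D i) (ρ ^ k * (μ * w i)) := by
    intro k
    induction k with
    | zero =>
      intro i
      rw [pow_zero, one_mul]
      exact (hτ i).mono (hμ i)
    | succ k ih =>
      intro i
      have hb0 : (0 : ℝ) < b i := by exact_mod_cast hb i
      have hsum := DivThresholdLe.sum Finset.univ ih (a i)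
      have h0 : 0 ≤ ∑ j, (a i j : ℝ) * (ρ ^ k * (μ * w j)) := Finset.sum_nonneg fun j _ =>
        mul_nonneg (Nat.cast_nonneg _) (mul_nonneg (pow_nonneg hρ0 _)
          (mul_nonneg hμ0 (hw j).le))
      have h1 := (divThreshold_le hy hn hn0 hy hn (φ i) (ψ i) (hψ0 i) (hpull i) (hc i) h0 hsum).2
      refine DivThresholdLe.div (hb i) (h1.mono ?_)
      have h2 : ∑ j, (a i j : ℝ) * (ρ ^ k * (μ * w j)) = ρ ^ k * μ * ∑ j, a i j * w j := by
        rw [Finset.mul_sum]
        refine Finset.sum_congr rfl fun j _ => ?_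
        ring
      rw [h2]
      have h3 := mul_le_mul_of_nonneg_left (hρ i)
        (mul_nonneg (pow_nonneg hρ0 k) hμ0)
      calc c i * (ρ ^ k * μ * ∑ j, (a i j : ℝ) * w j)
          = ρ ^ k * μ * (c i * ∑ j, (a i j : ℝ) * w j) := by ring
        _ ≤ ρ ^ k * μ * (ρ * (b i * w i)) := h3
        _ = b i * (ρ ^ (k + 1) * (μ * w i)) := by ring
  have hanti : ∀ i, DivThresholdLe y (D i) 0 := by
    intro i
    have hlim : Filter.Tendsto (fun k : ℕ => ρ ^ k * (μ * w i)) Filter.atTop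
        (nhds (0 * (μ * w i))) :=
      (tendsto_pow_atTop_nhds_zero_of_lt_one hρ0 hρ1).mul_const _
    rw [zero_mul] at hlim
    refine divThresholdLe_of_forall fun ε hε => ?_
    obtain ⟨k, hk⟩ := (hlim.eventually_lt_const hε).exists
    exact (hall k i).mono (by linarith)
  refine ⟨hanti, fun i hps => ⟨⟨hps, ?_⟩, ?_⟩⟩
  · unfold DivPsef
    simp only [neg_neg]
    exact hanti i
  · refine div_rigid hy hn hn0 hy hn (φ i) (ψ i) (hψ0 i) (hpull i) (hc i) ?_ ?_
    · have h1 := DivThresholdLe.nsmul hps (hb i)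
      rw [mul_zero] at h1
      unfold DivPsef
      simp only [mul_neg] at h1
      exact h1
    · have h1 := DivThresholdLe.sum Finset.univ hanti (a i)
      simp only [mul_zero, Finset.sum_const_zero] at h1
      exact h1

end

end Pool.Agent.R887
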