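import Pool.Agent.R887.TrvM
import Pool.Agent.R887.TrvX

/-!
Towers of `ℝ`-divisors.
-/

set_option autoImplicit false
set_option linter.overlappingInstances false
set_option linter.unusedSectionVars false

open FF Module MvPolynomial Pool.Agent.W602.GT Pool.Agent.W603.LV Pool.Agent.W619.PQ
open Pool.Agent.Y172 Pool.Agent.Y191

namespace Pool.Agent.R887

section

variable {K L : ℕ → Type} [∀ k, Field (K k)] [∀ k, Algebra ℂ (K k)] [∀ k, Field (L k)]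
  [∀ k, Algebra ℂ (L k)] {N : ℕ → ℕ} {y : ∀ k, Fin (N k + 1) → K k} {n : ℕ}

theorem div_tower (hy : ∀ k, NormalModel (y k)) (hn : ∀ k, Algebra.trdeg ℂ (K k) = n)
    (hn0 : 0 < n) {D : ∀ k, Place ℂ (K k) → ℝ} (φ : ∀ k, K k →ₐ[ℂ] L k)
    (ψ : ∀ k, K (k + 1) →ₐ[ℂ] L k) (hψ : ∀ k, FiniteDimensional (ψ k).fieldRange (L k))
    {t : ℕ → ℕ} {δ : ∀ k, L k}
    (hpull : ∀ k, FinitePullBackLe (φ k) (ψ k) (y k) (D k) (y (k + 1)) (D (k + 1)) (t k) (δ k))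
    {c : ℕ → ℝ} (hc : ∀ k, MultiDegreeLe (φ k) (ψ k) (y k) (y (k + 1)) (n - 1) 1 (c k)) (s : ℕ) :
    ∀ (k : ℕ) {τ : ℝ}, 0 ≤ τ → DivThresholdLe (y (k + s)) (D (k + s)) τ →
      0 ≤ (∏ l ∈ Finset.range s, c (k + l)) * τ ∧
      DivThresholdLe (y k) (D k) ((∏ l ∈ Finset.range s, c (k + l)) * τ) := by
  induction s with
  | zero =>
    intro k τ hτ h
    rw [Finset.prod_range_zero, one_mul]
    exact ⟨hτ, h⟩
  | succ s ih =>
    intro k τ hτ h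
    have h0 : DivThresholdLe (y (k + 1 + s)) (D (k + 1 + s)) τ := by
      have he : k + (s + 1) = k + 1 + s := by ring
      rw [← he]
      exact h
    obtain ⟨h1, h2⟩ := ih (k + 1) hτ h0
    obtain ⟨h3, h4⟩ := divThreshold_le (hy k) (hn k) hn0 (hy (k + 1)) (hn (k + 1)) (φ k) (ψ k)
      (hψ k) (hpull k) (hc k) h1 h2
    have h5 : (∏ l ∈ Finset.range (s + 1), c (k + l)) * τ =
        c k * ((∏ l ∈ Finset.range s, c (k + 1 + l)) * τ) := by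
      rw [Finset.prod_range_succ', add_zero]
      have h6 : ∏ l ∈ Finset.range s, c (k + (l + 1)) = ∏ l ∈ Finset.range s, c (k + 1 + l) :=
        Finset.prod_congr rfl fun l _ => by
          congr 1
          ring
      rw [h6]
      ring
    rw [h5]
    exact ⟨mul_nonneg h3 h1, h4⟩

theorem div_tower_main (hy : ∀ k, NormalModel (y k)) (hn : ∀ k, Algebra.trdeg ℂ (K k) = n)
    (hn0 : 0 < n) {D : ∀ k, Place ℂ (K k) → ℝ} (φ : ∀ k, K k →ₐ[ℂ] L k)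
    (ψ : ∀ k, K (k + 1) →ₐ[ℂ] L k) (hψ : ∀ k, FiniteDimensional (ψ k).fieldRange (L k))
    {t : ℕ → ℕ} {δ : ∀ k, L k}
    (hpull : ∀ k, FinitePullBackLe (φ k) (ψ k) (y k) (D k) (y (k + 1)) (D (k + 1)) (t k) (δ k))
    {c τ : ℕ → ℝ} (hc0 : ∀ k, 0 < c k)
    (hc : ∀ k, MultiDegreeLe (φ k) (ψ k) (y k) (y (k + 1)) (n - 1) 1 (c k))
    (hτ0 : ∀ k, 0 ≤ τ k) (hτ : ∀ k, DivThresholdLe (y k) (D k) (τ k))
    (hlim : Filter.Tendsto (fun s => (∏ l ∈ Finset.range s, c l) * τ s) Filter.atTop (nhds 0)) :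
    ∀ k, DivThresholdLe (y k) (D k) 0 ∧ (DivPsef (y k) (D k) → DivNumTrivial (y k) (D k) ∧
      PullBackEq (φ k) (ψ k) (y k) (D k) (D (k + 1)) (t k) (δ k)) := by
  have h1 : ∀ k, DivThresholdLe (y k) (D k) 0 := by
    intro k
    refine divThresholdLe_of_forall fun ε hε => ?_
    rw [zero_add]
    obtain ⟨s, hs⟩ := tail_limit hc0 hlim k hε
    exact (div_tower hy hn hn0 φ ψ hψ hpull hc s k (hτ0 (k + s)) (hτ (k + s))).2.mono hs.le
  intro k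
  refine ⟨h1 k, fun hps => ⟨⟨hps, ?_⟩, ?_⟩⟩
  · have h2 := h1 k
    unfold DivPsef
    simpa only [neg_neg] using h2
  · exact div_rigid (hy k) (hn k) hn0 (hy (k + 1)) (hn (k + 1)) (φ k) (ψ k) (hψ k) (hpull k) (hc k)
      hps (h1 (k + 1))

end

end Pool.Agent.R887
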