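import Pool.Agent.R887.TrvJ
import Pool.Agent.R887.TensF
import Pool.Agent.R887.DefsTTh

/-!
Finite multi-valued maps and the rank one subsheaves of the tensor powers of the sheaf of
differential forms: local computations.
-/

set_option autoImplicit false
set_option linter.overlappingInstances false
set_option linter.unusedSectionVars false

open FF Module MvPolynomial Pool.Agent.W602.GT Pool.Agent.W603.LV Pool.Agent.W619.PQ
open Pool.Agent.Y172 Pool.Agent.Y191

namespace Pool.Agent.R887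

theorem exists_ord_eq {K : Type} [Field K] [Algebra ℂ K] (P : Place ℂ K) (a : ℤ) :
    ∃ z : K, z ≠ 0 ∧ P.ord z = a := by
  obtain ⟨π, hπ0, hπ⟩ := P.surj
  obtain ⟨b, hb⟩ := Int.eq_nat_or_neg a
  rcases hb with hb | hb
  · refine ⟨π ^ b, pow_ne_zero _ hπ0, ?_⟩
    rw [P.ord_pow, hπ, hb, mul_one]
  · refine ⟨(π ^ b)⁻¹, inv_ne_zero (pow_ne_zero _ hπ0), ?_⟩
    rw [P.ord_inv, P.ord_pow, hπ, hb, mul_one]

section

variable {K L : Type} [Field K] [Algebra ℂ K] [Field L] [Algebra ℂ L] [Algebra K L]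
  [IsScalarTower ℂ K L] [FiniteDimensional K L] {N n r : ℕ} {y : Fin (N + 1) → K}

/-- **The order of a tensor field at a prime divisor, and of its pull backs.** -/
theorem exists_mu (hy : NormalModel y) (hn : Algebra.trdeg ℂ K = n) {Bd : Set (Place ℂ K)}
    {x : Fin n → K} {E : Fin n → Derivation ℂ K K} (hx : IsTranscendenceBasis ℂ x)
    (hE : ∀ i j, E i (x j) = if i = j then 1 else 0) {σ : Tensor K r} (hσ : σ ≠ 0)
    {P : Place ℂ K} (hP : IsPrimeDivisor y P) :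
    ∃ μ : ℤ, (∃ G : Fin r → Derivation ℂ K K, (∀ k, DerReg P (G k)) ∧
        (P ∈ Bd → ∀ k, DerLog P (G k)) ∧ σ G ≠ 0 ∧ P.ord (σ G) = μ) ∧
      ∀ (Q : Place ℂ L) (e : ℕ), Over Q P e → ∀ D : Fin r → Derivation ℂ L L,
        (∀ k, DerReg Q (D k)) → (P ∈ Bd → ∀ k, DerLog Q (D k)) →
        Ge Q (e * μ) (tpull L x E σ D) := by
  classical
  have hess := hy.ess
  obtain ⟨z, G, i0, hl⟩ := exists_loc hn (hP.divisorial hy hn)
  obtain ⟨l, hldef⟩ : ∃ l : Fin n → K, l = if P ∈ Bd then lc z i0 else fun _ => 1 := ⟨_, rfl⟩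
  have hl0 : ∀ i, l i ≠ 0 := by
    intro i
    rw [hldef]
    split_ifs
    · unfold lc
      split_ifs
      · exact hl.ne
      · exact one_ne_zero
    · exact one_ne_zero
  have hreg : ∀ i, DerReg P (l i • G i) := by
    intro i
    rw [hldef]
    split_ifs
    · exact derLog_reg' (hl.log i)
    · rw [one_smul]
      exact hl.pres i
  have hlog : P ∈ Bd → ∀ i, DerLog P (l i • G i) := by
    intro hB i
    rw [hldef, if_pos hB]
    exact hl.log i
  have hex : ∃ I : Fin r → Fin n, σ (fun k => l (I k) • G (I k)) ≠ 0 := by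
    by_contra hcon
    push Not at hcon
    apply hσ
    ext F
    rw [tensor_coord hl.bas hl.dual σ F, zero_apply]
    refine Finset.sum_eq_zero fun I _ => ?_
    have h1 := hcon I
    rw [MultilinearMap.map_smul_univ, smul_eq_mul] at h1
    rcases mul_eq_zero.1 h1 with h2 | h2
    · exact absurd h2 (Finset.prod_ne_zero_iff.2 fun k _ => hl0 _)
    · rw [h2, mul_zero]
  obtain ⟨I1, hI1⟩ := hex
  obtain ⟨I0, hI0, hmin⟩ := Finset.exists_min_image
    (Finset.univ.filter fun I : Fin r → Fin n => σ (fun k => l (I k) • G (I k)) ≠ 0)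
    (fun I => P.ord (σ fun k => l (I k) • G (I k))) ⟨I1, by simp [hI1]⟩
  rw [Finset.mem_filter] at hI0
  refine ⟨P.ord (σ fun k => l (I0 k) • G (I0 k)), ⟨fun k => l (I0 k) • G (I0 k),
    fun k => hreg _, fun hB k => hlog hB _, hI0.2, rfl⟩, fun Q e hov D hD hDl => ?_⟩
  obtain ⟨μ, hμ⟩ : ∃ μ, μ = P.ord (σ fun k => l (I0 k) • G (I0 k)) := ⟨_, rfl⟩
  rw [← hμ]
  obtain ⟨g, hg0, hg⟩ := exists_ord_eq P (-μ)
  rw [tpull_change hn hx hE hl.bas hl.dual σ D]
  have h1 := tpull_reg hov (x := z) (E := G) (l := l) hl0 (D := D) (fun k i => ?_) (σ := σ) (m := 1) le_rfl (g := g)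
    fun I => ?_
  · have hgL : algebraMap K L g ≠ 0 := by rwa [Ne, map_eq_zero]
    rw [pow_one] at h1
    by_cases ht : tpull L z G σ D = 0
    · exact Or.inl ht
    right
    have h2 := (Q.reg_iff (mul_ne_zero hgL ht)).1 h1
    rw [Q.ord_mul hgL ht, hov.2, hg] at h2
    linarith
  · rw [hldef]
    split_ifs with hB
    · unfold lc
      split_ifs with hi
      · rw [hi]
        exact hDl hB k _
      · rw [map_one, div_one]
        exact hD k _ (hov.reg.2 (hl.reg i))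
    · rw [map_one, div_one]
      exact hD k _ (hov.reg.2 (hl.reg i))
  · rw [pow_one]
    by_cases hs : σ (fun k => l (I k) • G (I k)) = 0
    · rw [hs, mul_zero]
      exact P.reg_zero
    · rw [P.reg_iff (mul_ne_zero hg0 hs), P.ord_mul hg0 hs, hg]
      have h2 := hmin I (by simp [hs])
      rw [← hμ] at h2
      omega

end

section

variable {K : Type} [Field K] [Algebra ℂ K] {N n : ℕ} {y : Fin (N + 1) → K}

/-- the poles of a frame -/
theorem exists_poles (hy : NormalModel y) (E : Fin n → Derivation ℂ K K) :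
    ∃ t : Place ℂ K → ℕ, {P | IsPrimeDivisor y P ∧ t P ≠ 0}.Finite ∧
      ∀ P, IsPrimeDivisor y P → ∀ z : K, z ≠ 0 → (t P : ℤ) ≤ P.ord z → ∀ i,
        DerReg P (z • E i) := by
  classical
  have hden : ∀ j, ∃ h : K, h ≠ 0 ∧ (y j ≠ 0 → h ∈ chart y j ∧
      ∀ i, ∀ f ∈ chart y j, h * E i f ∈ chart y j) := by
    intro j
    by_cases hj : y j = 0
    · exact ⟨1, one_ne_zero, fun h => absurd hj h⟩
    · obtain ⟨h, h1, h2, h3⟩ := exists_den_frame hy hj E
      exact ⟨h, h2, fun _ => ⟨h1, h3⟩⟩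
  choose h hh0 hh using hden
  refine ⟨fun P => ∑ j, (P.ord (h j)).toNat, ?_, fun P hP z hz0 hz i => ?_⟩
  · have hf1 : (⋃ j, {P | IsPrimeDivisor y P ∧ P.ord (h j) ≠ 0}).Finite :=
      Set.finite_iUnion fun j => finite_ord hy (hh0 j)
    refine hf1.subset ?_
    rintro P ⟨hP, h1⟩
    by_contra h2
    apply h1
    refine Finset.sum_eq_zero fun j _ => ?_
    have h3 : P.ord (h j) = 0 := by
      by_contra h4
      exact h2 (Set.mem_iUnion.2 ⟨j, hP, h4⟩)
    rw [h3]
    rfl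
  · obtain ⟨j, hj⟩ := exists_centred hy P
    obtain ⟨hhc, hhE⟩ := hh j hj.1
    have h1 : DerReg P (h j • E i) := derReg_of_chart hP hj fun f hf => hhE i f hf
    have h2 : (P.ord (h j) : ℤ) ≤ P.ord z := by
      refine le_trans ?_ hz
      have h3 : (P.ord (h j)).toNat ≤ ∑ j, (P.ord (h j)).toNat :=
        Finset.single_le_sum (f := fun j => (P.ord (h j)).toNat) (fun _ _ => Nat.zero_le _)
          (Finset.mem_univ j)
      have h4 : P.ord (h j) ≤ ((P.ord (h j)).toNat : ℤ) := Int.self_le_toNat _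
      have h5 : ((P.ord (h j)).toNat : ℤ) ≤ ((∑ j, (P.ord (h j)).toNat : ℕ) : ℤ) := by
        exact_mod_cast h3
      exact h4.trans h5
    intro f hf
    have h3 : (z • E i) f = z / h j * (h j • E i) f := by
      change z * E i f = z / h j * (h j * E i f)
      field_simp [hh0 j]
    rw [h3]
    refine P.reg_mul ?_ (h1 f hf)
    rw [P.reg_iff (div_ne_zero hz0 (hh0 j)), P.ord_div hz0 (hh0 j)]
    omega

end

section

variable {K K' L : Type} [Field K] [Algebra ℂ K] [Field K'] [Algebra ℂ K'] [Field L] [Algebra ℂ L]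
  [Algebra K L] [IsScalarTower ℂ K L] [FiniteDimensional K L] [Algebra K' L]
  [IsScalarTower ℂ K' L] [FiniteDimensional K' L] {N N' : ℕ} {y : Fin (N + 1) → K}
  {y' : Fin (N' + 1) → K'} {n r : ℕ}

/-- **The pull back of a tensor field on a frame of the source.** -/
theorem tens_pull (hy : NormalModel y) (hn : Algebra.trdeg ℂ K = n)
    (hy' : NormalModel y') (hn' : Algebra.trdeg ℂ K' = n) {Bd : Set (Place ℂ K)}
    {Bd' : Set (Place ℂ K')} {x' : Fin n → K'} {E' : Fin n → Derivation ℂ K' K'}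
    (hx' : IsTranscendenceBasis ℂ x') (hE' : ∀ i j, E' i (x' j) = if i = j then 1 else 0)
    {T : Place ℂ K' → ℕ} (hT : ∀ P, IsPrimeDivisor y' P → ∀ z : K', z ≠ 0 →
      (T P : ℤ) ≤ P.ord z → ∀ i, DerReg P (z • E' i) ∧ (P ∈ Bd' → DerLog P (z • E' i)))
    (hfe : ∀ (Q : Place ℂ L) (P : Place ℂ K) (e : ℕ), Over Q P e → IsPrimeDivisor y P →
      ∀ (P' : Place ℂ K') (e' : ℕ), Over Q P' e' →
        IsPrimeDivisor y' P' ∧ (P' ∉ Bd' → P ∉ Bd ∧ e' = 1)) {σ : Tensor K r} (hσ : σ ≠ 0) :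
    ∃ (μ : Place ℂ K → ℤ) (δ : L), δ ≠ 0 ∧ (∀ P, IsPrimeDivisor y P →
      ∃ G : Fin r → Derivation ℂ K K, (∀ k, DerReg P (G k)) ∧
        (P ∈ Bd → ∀ k, DerLog P (G k)) ∧ σ G ≠ 0 ∧ P.ord (σ G) = μ P) ∧
      ∀ (Q : Place ℂ L) (P : Place ℂ K) (e : ℕ), Over Q P e → IsPrimeDivisor y P →
        ∀ (P' : Place ℂ K') (e' : ℕ), Over Q P' e' →
          IsPrimeDivisor y' P' ∧ (e : ℝ) * μ P ≤ e' * (r * T P') + Q.ord δ := by
  classical
  have hess := hy.ess
  have hess' := hy'.ess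
  obtain ⟨x, E, hx, hE⟩ := exists_crd hn (k := ℂ) (K := K)
  choose D hD using fun i => exists_lift (L := L) hn' (E' i)
  have hDfr : IsFrame D := fun F => ⟨fun j => F (algebraMap K' L (x' j)),
    (Pool.Agent.W73.PG.PULL.expand _ (hx'.algebraMap_comp (A := L)) D (lift_dual hE' hD) F).symm⟩
  obtain ⟨J, hJ⟩ := tpull_ne hn hx hE hσ hDfr
  have hμ : ∀ P : Place ℂ K, ∃ μ : ℤ, IsPrimeDivisor y P →
      (∃ G : Fin r → Derivation ℂ K K, (∀ k, DerReg P (G k)) ∧
        (P ∈ Bd → ∀ k, DerLog P (G k)) ∧ σ G ≠ 0 ∧ P.ord (σ G) = μ) ∧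
      ∀ (Q : Place ℂ L) (e : ℕ), Over Q P e → ∀ D : Fin r → Derivation ℂ L L,
        (∀ k, DerReg Q (D k)) → (P ∈ Bd → ∀ k, DerLog Q (D k)) →
        Ge Q (e * μ) (tpull L x E σ D) := by
    intro P
    by_cases hP : IsPrimeDivisor y P
    · obtain ⟨μ, h⟩ := exists_mu (L := L) (Bd := Bd) hy hn hx hE hσ hP
      exact ⟨μ, fun _ => h⟩
    · exact ⟨0, fun h => absurd h hP⟩
  choose μ hμ using hμ
  refine ⟨μ, tpull L x E σ (fun k => D (J k)), hJ, fun P hP => (hμ P hP).1,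
    fun Q P e hov hP P' e' hov' => ?_⟩
  obtain ⟨hP', h1⟩ := hfe Q P e hov hP P' e' hov'
  refine ⟨hP', ?_⟩
  obtain ⟨z, hz0, hz⟩ := exists_ord_eq P' (T P')
  have hzL : algebraMap K' L z ≠ 0 := by rwa [Ne, map_eq_zero]
  have hlift : ∀ i f, (algebraMap K' L z • D i) (algebraMap K' L f) =
      algebraMap K' L ((z • E' i) f) := by
    intro i f
    change algebraMap K' L z * D i (algebraMap K' L f) = algebraMap K' L (z * E' i f)
    rw [hD, map_mul]
  have hadm : ∀ i, DerReg Q (algebraMap K' L z • D i) ∧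
      (P ∈ Bd → DerLog Q (algebraMap K' L z • D i)) := by
    intro i
    obtain ⟨h2, h3⟩ := hT P' hP' z hz0 (by rw [hz]) i
    by_cases hB : P' ∈ Bd'
    · have h4 := lift_log hov' (h3 hB) (hlift i)
      exact ⟨derLog_reg' h4, fun _ => h4⟩
    · obtain ⟨h4, h5⟩ := h1 hB
      refine ⟨?_, fun h6 => absurd h6 h4⟩
      rw [h5] at hov'
      have hdP' : Divisorial n P' := hP'.divisorial hy' hn'
      exact reg_up hn' hov' hdP' (divisorial_up hov' hdP') (hlift i) h2
  have h2 := (hμ P hP).2 Q e hov (fun k => algebraMap K' L z • D (J k))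
    (fun k => (hadm _).1) fun hB k => (hadm _).2 hB
  rw [tpull_smul] at h2
  rcases h2 with h2 | h2
  · exact absurd h2 (mul_ne_zero (pow_ne_zero _ hzL) hJ)
  rw [Q.ord_mul (pow_ne_zero _ hzL) hJ, Q.ord_pow, hov'.2, hz] at h2
  have h3 : ((e : ℤ) * μ P : ℝ) ≤ ((r * (e' * T P') +
      Q.ord (tpull L x E σ fun k => D (J k)) : ℤ) : ℝ) := by exact_mod_cast h2
  push_cast at h3
  linarith

end

end Pool.Agent.R887
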