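import Pool.Agent.R887.TrvT

/-!
Finite multi-valued maps and the rank one subsheaves of the tensor powers of the sheaf of
differential forms.
-/

set_option autoImplicit false
set_option linter.overlappingInstances false
set_option linter.unusedSectionVars false

open FF Module MvPolynomial Pool.Agent.W602.GT Pool.Agent.W603.LV Pool.Agent.W619.PQ
open Pool.Agent.Y172 Pool.Agent.Y191

namespace Pool.Agent.R887

section

variable {K K' L : Type} [Field K] [Algebra ℂ K] [Field K'] [Algebra ℂ K'] [Field L] [Algebra ℂ L]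
  {N N' : ℕ} {y : Fin (N + 1) → K} {y' : Fin (N' + 1) → K'} {n r : ℕ}

/-- one map, with a bound for the poles of a frame of the source -/
theorem tens_finite_aux (hy : NormalModel y) (hn : Algebra.trdeg ℂ K = n) (hn0 : 0 < n)
    (hy' : NormalModel y') (hn' : Algebra.trdeg ℂ K' = n) {Bd : Set (Place ℂ K)}
    {Bd' : Set (Place ℂ K')} (φ : K →ₐ[ℂ] L) (ψ : K' →ₐ[ℂ] L)
    (hψ0 : FiniteDimensional ψ.fieldRange L) (hfe : FiniteEtale φ ψ y Bd y' Bd')
    {x' : Fin n → K'} {E' : Fin n → Derivation ℂ K' K'}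
    (hx' : IsTranscendenceBasis ℂ x') (hE' : ∀ i j, E' i (x' j) = if i = j then 1 else 0)
    {T : Place ℂ K' → ℕ} (hT : ∀ P, IsPrimeDivisor y' P → ∀ z : K', z ≠ 0 →
      (T P : ℤ) ≤ P.ord z → ∀ i, DerReg P (z • E' i) ∧ (P ∈ Bd' → DerLog P (z • E' i)))
    {i' : Fin (N' + 1)} (hi' : y' i' ≠ 0) {q : K'} {g : ℕ} (hq0 : q ≠ 0)
    (hq : ∀ P l, IsPrimeDivisor y' P → Centred y' l P →
      (T P : ℝ) ≤ P.ord q + g * P.ord (y' i' / y' l)) {c : ℝ}
    (hc : MultiDegreeLe φ ψ y y' (n - 1) 1 c) {σ : Tensor K r} (hσ : σ ≠ 0) :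
    0 ≤ c ∧ TensorLe y Bd σ (c * g * r) := by
  have hess' := hy'.ess
  have hess := hy.ess
  let _ : Algebra K L := φ.toRingHom.toAlgebra
  let _ : Algebra K' L := ψ.toRingHom.toAlgebra
  have hst : IsScalarTower ℂ K L := IsScalarTower.of_algebraMap_eq fun c => (φ.commutes c).symm
  have hst' : IsScalarTower ℂ K' L := IsScalarTower.of_algebraMap_eq fun c => (ψ.commutes c).symm
  have hfd' : FiniteDimensional K' L := fd_of_range ψ hψ0
  have hessL : Algebra.EssFiniteType ℂ L := by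
    have h1 : Algebra.EssFiniteType K' L := inferInstance
    exact Algebra.EssFiniteType.comp ℂ K' L
  have hnL : Algebra.trdeg ℂ L = n := trdeg_up (K := K') hn'
  have hfd : FiniteDimensional K L := finite_map hn hnL
  have hdeg : mapDegree φ = Module.finrank K L := by
    unfold mapDegree
    let e : K ≃ₐ[ℂ] φ.fieldRange := AlgEquiv.ofInjectiveField φ
    refine (Algebra.finrank_eq_of_equiv_equiv e.toRingEquiv (RingEquiv.refl L) ?_).symm
    ext x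
    rfl
  have hc0 : 0 ≤ c := multi_nonneg hy hy' hc (by rw [hdeg]; exact Module.finrank_pos)
  obtain ⟨μ, δ, hδ, hμ, hinv⟩ := tens_pull (L := L) (Bd := Bd) (Bd' := Bd') hy hn hy' hn' hx' hE'
    hT (fun Q P e hov hP P' e' hov' => hfe P hP Q e hov P' e' hov') hσ
  obtain ⟨P1, hP1⟩ := exists_prime hy hn hn0
  obtain ⟨Q1, e1, hQ1⟩ := exists_above (k := ℂ) (K := K) (L := L) P1
  refine ⟨hc0, fun i hi => ?_⟩
  obtain ⟨F, ρ1, hF, -, -, h⟩ := corr_step (L := L) (D := fun P => (μ P : ℝ))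
    (D' := fun P => (r : ℝ) * T P) hy hn hn0 hy' φ ψ (fun _ => rfl) (fun _ => rfl) hdeg hi hi'
    hδ hinv hQ1 hP1 (over_bel K' Q1) (ρ := 0) (by
      rw [add_zero]
      exact (hinv Q1 P1 e1 hQ1 hP1 _ _ (over_bel K' Q1)).2) le_rfl hc0 hc
  obtain ⟨k, B, hk, hB, h1, -⟩ := h (q ^ r) (r * g) 1 (pow_ne_zero _ hq0) (fun P' l hP' hl => by
    have h2 := mul_le_mul_of_nonneg_left (hq P' l hP' hl) (show (0 : ℝ) ≤ r from Nat.cast_nonneg _)
    rw [P'.ord_pow]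
    push_cast
    linarith)
  refine ⟨F, r * g * B, hF, ?_, k, hk, fun P l hP hl => ?_⟩
  · push_cast
    have h2 := mul_le_mul_of_nonneg_left hB (show (0 : ℝ) ≤ r * g by positivity)
    linarith
  · obtain ⟨G, hG1, hG2, hG3, hG4⟩ := hμ P hP
    refine ⟨G, hG1, hG2, hG3, ?_⟩
    have h2 := h1 P l hP hl
    rw [hG4]
    have h3 : ((F * μ P : ℤ) : ℝ) ≤ ((P.ord k + (r * g * B : ℕ) * P.ord (y i / y l) : ℤ) : ℝ) := by
      push_cast at h2 ⊢
      linarith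
    exact_mod_cast h3

open scoped Classical in
/-- **Rank one subsheaves of the tensor powers, one map.** -/
theorem tens_finite (hy' : NormalModel y') (hn' : Algebra.trdeg ℂ K' = n) (hn0 : 0 < n)
    {Bd' : Set (Place ℂ K')} (hBd' : Bd'.Finite) :
    ∃ C : ℝ, 0 ≤ C ∧ ∀ (K : Type) [Field K] [Algebra ℂ K] (N : ℕ) (y : Fin (N + 1) → K)
      (Bd : Set (Place ℂ K)), NormalModel y → Algebra.trdeg ℂ K = n →
      ∀ (L : Type) [Field L] [Algebra ℂ L] (φ : K →ₐ[ℂ] L) (ψ : K' →ₐ[ℂ] L),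
      FiniteDimensional ψ.fieldRange L → FiniteEtale φ ψ y Bd y' Bd' →
      ∀ c : ℝ, MultiDegreeLe φ ψ y y' (n - 1) 1 c → 0 ≤ c ∧
      ∀ (r : ℕ) (σ : Tensor K r), σ ≠ 0 → TensorLe y Bd σ (c * C * r) := by
  obtain ⟨x', E', hx', hE'⟩ := exists_crd hn' (k := ℂ) (K := K')
  obtain ⟨t, htfin, ht⟩ := exists_poles hy' E'
  obtain ⟨T, hTdef⟩ : ∃ T : Place ℂ K' → ℕ, ∀ P, T P = t P + if P ∈ Bd' then 1 else 0 :=
    ⟨_, fun _ => rfl⟩
  have hT : ∀ P, IsPrimeDivisor y' P → ∀ z : K', z ≠ 0 →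
      (T P : ℤ) ≤ P.ord z → ∀ i, DerReg P (z • E' i) ∧ (P ∈ Bd' → DerLog P (z • E' i)) := by
    intro P hP z hz0 hz i
    rw [hTdef] at hz
    refine ⟨ht P hP z hz0 (by push_cast at hz; split_ifs at hz <;> omega) i, fun hB => ?_⟩
    rw [if_pos hB] at hz
    obtain ⟨π, hπ0, hπ⟩ := P.surj
    have h1 := ht P hP (z / π) (div_ne_zero hz0 hπ0) (by
      rw [P.ord_div hz0 hπ0, hπ]
      push_cast at hz
      omega) i
    have h2 := log_of_reg h1 (z := π) (Or.inr hπ.ge)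
    rw [smul_smul, mul_div_cancel₀ _ hπ0] at h2
    exact h2
  obtain ⟨i', hi'⟩ := hy'.ne
  obtain ⟨q, g, hq0, hq⟩ := first_bound hy' hi' (D := fun P => (T P : ℝ)) (by
    refine (htfin.union hBd').subset ?_
    rintro P ⟨hP, h0⟩
    by_contra hcon
    simp only [Set.mem_union, Set.mem_ofPred_eq, not_or, not_and, not_not] at hcon
    apply h0
    rw [hTdef, hcon.1 hP, if_neg hcon.2]
    simp)
  refine ⟨g, Nat.cast_nonneg _, fun K _ _ N y Bd hy hn L _ _ φ ψ hψ hfe c hc => ?_⟩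
  have hess' := hy'.ess
  refine ⟨multi_nonneg' hy hn hy' hn' φ ψ hψ hc, fun r σ hσ => ?_⟩
  exact (tens_finite_aux hy hn hn0 hy' hn' φ ψ hψ hfe hx' hE' hT hi' hq0 hq hc hσ).2

end

section

variable {K : Type} [Field K] [Algebra ℂ K] {N n r : ℕ} {y : Fin (N + 1) → K}

/-- **Regular tensor fields have no zeros.** -/
theorem tens_no_zero (hy : NormalModel y) (hn : Algebra.trdeg ℂ K = n) (hn0 : 0 < n) {d : ℕ}
    (hd : ∀ u : Fin (n - 1) → K, (∀ a, IsPencil y (u a)) → ∀ v, IsPencil y v →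
      degreeOver u (fun _ : Fin 1 => v) ≤ d) {Bd : Set (Place ℂ K)} {τ : Tensor K r} {t : ℝ}
    (ht : TensorLe y Bd τ t) (htd : t * d < 1)
    (hτ : ∀ P, IsPrimeDivisor y P → ∀ E : Fin r → Derivation ℂ K K, (∀ j, DerReg P (E j)) →
      (P ∈ Bd → ∀ j, DerLog P (E j)) → P.Reg (τ E)) {P0 : Place ℂ K}
    (hP0 : IsPrimeDivisor y P0) : ∃ E : Fin r → Derivation ℂ K K, (∀ j, DerReg P0 (E j)) ∧
      (P0 ∈ Bd → ∀ j, DerLog P0 (E j)) ∧ τ E ≠ 0 ∧ P0.ord (τ E) = 0 := by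
  obtain ⟨l0, hl0⟩ := exists_centred hy P0
  obtain ⟨m, b, hm, hb, k, hk0, hk⟩ := ht l0 hl0.1
  have hm0 : (0 : ℤ) < m := by exact_mod_cast hm
  have h1 := zeros_le hy hn hn0 hd (M := b) hP0 hl0.1 hk0 fun P l hP hl => by
    obtain ⟨E, hE1, hE2, hE3, hE4⟩ := hk P l hP hl
    have h2 := (P.reg_iff hE3).1 (hτ P hP E hE1 hE2)
    have h3 := mul_nonneg hm0.le h2
    omega
  obtain ⟨E, hE1, hE2, hE3, hE4⟩ := hk P0 l0 hP0 hl0
  refine ⟨E, hE1, hE2, hE3, ?_⟩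
  rw [div_self hl0.1, P0.ord_one, mul_zero, add_zero] at hE4
  have h2 := (P0.reg_iff hE3).1 (hτ P0 hP0 E hE1 hE2)
  by_contra h3
  have h4 : 1 ≤ P0.ord (τ E) := by omega
  have h5 : (m : ℤ) ≤ d * b := by
    have h6 := mul_le_mul_of_nonneg_left h4 hm0.le
    linarith
  have h6 : (m : ℝ) ≤ d * b := by exact_mod_cast h5
  have h7 := mul_le_mul_of_nonneg_left hb (show (0 : ℝ) ≤ d from Nat.cast_nonneg _)
  have h8 : (0 : ℝ) < m := by exact_mod_cast hm
  nlinarith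

end

end Pool.Agent.R887
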