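import Pool.Agent.R887.TrvH
import Pool.Agent.R887.DefsTwo

/-!
Thresholds of the canonical divisor, and rigidity of finite multi-valued maps.
-/

set_option autoImplicit false
set_option linter.overlappingInstances false
set_option linter.unusedSectionVars false

open FF Module MvPolynomial Pool.Agent.W602.GT Pool.Agent.W603.LV Pool.Agent.W619.PQ
open Pool.Agent.Y172 Pool.Agent.Y191

namespace Pool.Agent.R887

section

variable {K : Type} [Field K] [Algebra ℂ K] {N n : ℕ} {y : Fin (N + 1) → K}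

theorem LowerThresholdLe.mono {Δ : Place ℂ K → ℝ} {τ τ' : ℝ} (h : LowerThresholdLe y n Δ τ)
    (hτ : τ ≤ τ') : LowerThresholdLe y n Δ τ' := by
  intro i hi ε hε
  obtain ⟨m, b, hm, hb, η, hη⟩ := h i hi ε hε
  exact ⟨m, b, hm, hb.trans (mul_le_mul_of_nonneg_right (by linarith) (Nat.cast_nonneg _)), η, hη⟩

theorem lowerThresholdLe_of_forall {Δ : Place ℂ K → ℝ} {τ : ℝ}
    (h : ∀ ε : ℝ, 0 < ε → LowerThresholdLe y n Δ (τ + ε)) : LowerThresholdLe y n Δ τ := by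
  intro i hi ε hε
  obtain ⟨m, b, hm, hb, η, hη⟩ := h (ε / 2) (by positivity) i hi (ε / 2) (by positivity)
  refine ⟨m, b, hm, hb.trans (le_of_eq ?_), η, hη⟩
  ring

theorem lowerThresholdLe_zero {Δ : Place ℂ K → ℝ} (h : LowerThresholdLe y n Δ 0) :
    PseudoEffectiveR y n Δ := by
  intro i hi ε hε
  obtain ⟨m, b, hm, hb, η, hη⟩ := h i hi ε hε
  rw [zero_add] at hb
  exact ⟨m, b, hm, hb, η, hη⟩

/-- the lower threshold is finite -/
theorem exists_lowerThreshold (hy : NormalModel y) (hn : Algebra.trdeg ℂ K = n)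
    {Δ : Place ℂ K → ℝ} (hΔ : {P | IsPrimeDivisor y P ∧ Δ P ≠ 0}.Finite) :
    ∃ τ : ℝ, 0 ≤ τ ∧ LowerThresholdLe y n Δ τ := by
  classical
  obtain ⟨x, E, hx, hE⟩ := exists_crd hn (k := ℂ) (K := K)
  obtain ⟨κ, hκfin, hκ⟩ := exists_ordc hy hn hx hE
  have hDfin : {P | IsPrimeDivisor y P ∧ -((κ P : ℝ) + Δ P) ≠ 0}.Finite := by
    refine (hκfin.union hΔ).subset ?_
    rintro P ⟨hP, h0⟩
    by_cases h1 : κ P = 0
    · right
      refine ⟨hP, fun h2 => h0 ?_⟩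
      rw [h1, h2, Int.cast_zero, zero_add, neg_zero]
    · exact Or.inl ⟨hP, h1⟩
  choose q g hq hb using fun i : {i // y i ≠ 0} => first_bound hy i.2 hDfin
  refine ⟨∑ i, (g i : ℝ), Finset.sum_nonneg fun i _ => Nat.cast_nonneg _, fun i hi ε hε => ?_⟩
  refine ⟨1, g ⟨i, hi⟩, le_rfl, ?_, frm x 1 (q ⟨i, hi⟩), frm_pluri _ _ _,
    fun P l hP hl => ?_⟩
  · have h1 : (g ⟨i, hi⟩ : ℝ) ≤ ∑ i, (g i : ℝ) :=
      Finset.single_le_sum (f := fun i => (g i : ℝ)) (fun i _ => Nat.cast_nonneg _)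
        (Finset.mem_univ _)
    push_cast
    linarith
  · have h1 := ordEq_of_val hκ hP (frm_pluri x 1 (q ⟨i, hi⟩)) (by
      rw [frm_self hE]
      exact hq _)
    rw [frm_self hE] at h1
    refine ⟨_, h1, ?_⟩
    push_cast
    have h2 := hb ⟨i, hi⟩ P l hP hl
    linarith

end

section

variable {K K' L : Type} [Field K] [Algebra ℂ K] [Field K'] [Algebra ℂ K'] [Field L] [Algebra ℂ L]
  {N N' : ℕ} {y : Fin (N + 1) → K} {y' : Fin (N' + 1) → K'} {n : ℕ}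

/-- **The inequality for the lower thresholds.** -/
theorem lowerThreshold_le (hy : NormalModel y) (hn : Algebra.trdeg ℂ K = n) (hn0 : 0 < n)
    (hy' : NormalModel y') (hn' : Algebra.trdeg ℂ K' = n) {Δ : Place ℂ K → ℝ}
    {Δ' : Place ℂ K' → ℝ} (φ : K →ₐ[ℂ] L) (ψ : K' →ₐ[ℂ] L)
    (hψ0 : FiniteDimensional ψ.fieldRange L)
    (hlog : ∀ P : Place ℂ K, IsPrimeDivisor y P → ∀ (Q : Place ℂ L) (e : ℕ), LiesOver φ Q P e →
      ∀ (P' : Place ℂ K') (e' : ℕ), LiesOver ψ Q P' e' →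
        IsPrimeDivisor y' P' ∧ (e : ℝ) * (1 - Δ P) ≤ e' * (1 - Δ' P')) {c : ℝ}
    (hc : MultiDegreeLe φ ψ y y' (n - 1) 1 c) {τ : ℝ} (hτ0 : 0 ≤ τ)
    (hτ : LowerThresholdLe y' n Δ' τ) : LowerThresholdLe y n Δ (c * τ) := by
  classical
  have hc0 := multi_nonneg' hy hn hy' hn' φ ψ hψ0 hc
  intro i0 hi0 ε hε
  obtain ⟨x, E, hx, hE⟩ := exists_crd hn (k := ℂ) (K := K)
  obtain ⟨κ, -, hκ⟩ := exists_ordc hy hn hx hE
  obtain ⟨x', E', hx', hE'⟩ := exists_crd hn' (k := ℂ) (K := K')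
  obtain ⟨κ', -, hκ'⟩ := exists_ordc hy' hn' hx' hE'
  obtain ⟨P1, hP1⟩ := exists_prime hy hn hn0
  obtain ⟨Q1, e1, P1', e1', hQ1, hQ1'⟩ := exists_lies hn hy hy' hn' φ ψ hψ0 P1
  obtain ⟨i, hi⟩ := hy'.ne
  obtain ⟨F, ρ1, hF, -, -, h⟩ := neg_step hy hn hn0 hy' hn' φ ψ hψ0 hlog hx hE hx' hE' hκ hκ' hi0
    hi hc hQ1 hP1 hQ1'
  obtain ⟨m, b, hm, hb, η, hη, hηo⟩ := hτ i hi (ε / (c + 1)) (by positivity)
  have hηE : η E' ≠ 0 := by
    obtain ⟨P0, hP0⟩ := exists_prime hy' hn' hn0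
    obtain ⟨l, hl⟩ := exists_centred hy' P0
    obtain ⟨z, hz, -⟩ := hηo P0 l hP0 hl
    exact (val_of_ordEq hκ' hP0 hη hz).1
  obtain ⟨k, B, hk, hB, h1, -⟩ := h (η E') b m hηE (fun P' l hP' hl => by
    obtain ⟨z, hz, hz1⟩ := hηo P' l hP' hl
    rw [(val_of_ordEq hκ' hP' hη hz).2] at hz1
    push_cast at hz1 ⊢
    linarith)
  refine ⟨F * m, b * B, Nat.mul_pos hF hm, ?_, frm x (F * m) k, frm_pluri _ _ _,
    fun P l hP hl => ?_⟩
  · push_cast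
    have h2 : (b : ℝ) * B ≤ ((τ + ε / (c + 1)) * m) * (c * F) :=
      mul_le_mul hb hB (Nat.cast_nonneg _) (by positivity)
    refine h2.trans ?_
    have h3 : ε / (c + 1) * c ≤ ε := by
      rw [div_mul_eq_mul_div, div_le_iff₀ (by positivity)]
      nlinarith
    have h4 := mul_le_mul_of_nonneg_right h3 (show (0 : ℝ) ≤ F * m by positivity)
    have h5 : (τ + ε / (c + 1)) * m * (c * F) = c * τ * (F * m) + ε / (c + 1) * c * (F * m) := by
      ring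
    rw [h5]
    linarith
  · have h2 := ordEq_of_val hκ hP (frm_pluri x (F * m) k) (by
      rw [frm_self hE]
      exact hk)
    rw [frm_self hE] at h2
    refine ⟨_, h2, ?_⟩
    have h3 := h1 P l hP hl
    push_cast at h3 ⊢
    linarith

/-- **Rigidity**: if `K_X + Δ` and `-(K_X' + Δ')` are pseudo-effective, the map is crepant. -/
theorem crepant_of_psef (hy : NormalModel y) (hn : Algebra.trdeg ℂ K = n) (hn0 : 0 < n)
    (hy' : NormalModel y') (hn' : Algebra.trdeg ℂ K' = n) {Δ : Place ℂ K → ℝ}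
    {Δ' : Place ℂ K' → ℝ} (φ : K →ₐ[ℂ] L) (ψ : K' →ₐ[ℂ] L)
    (hψ0 : FiniteDimensional ψ.fieldRange L) (hlog : FiniteLogPullBackLe φ ψ y Δ y' Δ') {c : ℝ}
    (hc : MultiDegreeLe φ ψ y y' (n - 1) 1 c) (hps : PseudoEffectiveR y n Δ)
    (hanti : AntiPseudoEffectiveR y' n Δ') : CrepantOver φ ψ y Δ Δ' := by
  classical
  have hc0 := multi_nonneg' hy hn hy' hn' φ ψ hψ0 hc
  obtain ⟨x, E, hx, hE⟩ := exists_crd hn (k := ℂ) (K := K)
  obtain ⟨κ, -, hκ⟩ := exists_ordc hy hn hx hE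
  obtain ⟨x', E', hx', hE'⟩ := exists_crd hn' (k := ℂ) (K := K')
  obtain ⟨κ', -, hκ'⟩ := exists_ordc hy' hn' hx' hE'
  intro P0 hP0 Q0 e0 hQ0 P0' e0' hQ0'
  by_contra hne
  have hlt : (e0' : ℝ) * (1 - Δ' P0') < e0 * (1 - Δ P0) :=
    lt_of_le_of_ne (hlog P0 hP0 Q0 e0 hQ0 P0' e0' hQ0').2 hne
  obtain ⟨i0, hi0⟩ := hy.ne
  obtain ⟨i, hi⟩ := hy'.ne
  obtain ⟨F, ρ1, hF, -, hρ, h⟩ := log_step hy hn hn0 hy' hn' φ ψ hψ0 hlog hx hE hx' hE' hκ hκ' hi0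
    hi hc hQ0 hP0 hQ0'
  have hρ1 := hρ hlt
  obtain ⟨C, hC0, hC⟩ := small_zeros hy hn hn0 hi0 hP0
  obtain ⟨δ, hδ⟩ : ∃ δ : ℝ, δ = ρ1 / (2 * ((C + 1) * (c + 1))) := ⟨_, rfl⟩
  have hδ0 : 0 < δ := by
    rw [hδ]
    positivity
  obtain ⟨r, g, hr, hg, θ, hθ, hθo⟩ := hanti i hi δ hδ0
  have hθE : θ E' ≠ 0 := by
    obtain ⟨P1, hP1⟩ := exists_prime hy' hn' hn0
    obtain ⟨l, hl⟩ := exists_centred hy' P1
    obtain ⟨z, hz, -⟩ := hθo P1 l hP1 hl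
    exact (val_of_ordEq hκ' hP1 hθ hz).1
  obtain ⟨k, B, hk, hB, h1, h2⟩ := h (θ E')⁻¹ g r (inv_ne_zero hθE) (fun P' l hP' hl => by
    obtain ⟨z, hz, hz1⟩ := hθo P' l hP' hl
    rw [(val_of_ordEq hκ' hP' hθ hz).2] at hz1
    rw [P'.ord_inv]
    push_cast at hz1 ⊢
    linarith)
  obtain ⟨m, b, hm, hbm, η, hη, hηo⟩ := hps i0 hi0 δ hδ0
  have hηE : η E ≠ 0 := by
    obtain ⟨l, hl⟩ := exists_centred hy P0
    obtain ⟨z, hz, -⟩ := hηo P0 l hP0 hl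
    exact (val_of_ordEq hκ hP0 hη hz).1
  have hord : ∀ P l, IsPrimeDivisor y P → Centred y l P →
      -((m : ℝ) * (κ P + Δ P)) - b * P.ord (y i0 / y l) ≤ P.ord (η E) := by
    intro P l hP hl
    obtain ⟨z, hz, hz1⟩ := hηo P l hP hl
    rw [(val_of_ordEq hκ hP hη hz).2] at hz1
    push_cast at hz1
    linarith
  have hFr0 : (0 : ℝ) < (F * r : ℕ) := by
    have : 0 < F * r := Nat.mul_pos hF hr
    exact_mod_cast this
  have hm0 : (0 : ℝ) < m := by exact_mod_cast hm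
  have h3 := hC (m * (g * B) + F * r * b) (k ^ m * η E ^ (F * r)) (m * ((F * r : ℕ) * ρ1))
    (mul_ne_zero (pow_ne_zero _ hk) (pow_ne_zero _ hηE)) (fun P l hP hl => by
      rw [P.ord_mul (pow_ne_zero _ hk) (pow_ne_zero _ hηE), P.ord_pow, P.ord_pow]
      have h4 := mul_le_mul_of_nonneg_left (h1 P l hP hl) hm0.le
      have h5 := mul_le_mul_of_nonneg_left (hord P l hP hl) hFr0.le
      push_cast at h4 h5 ⊢
      linarith) (fun l hl => by
      rw [P0.ord_mul (pow_ne_zero _ hk) (pow_ne_zero _ hηE), P0.ord_pow, P0.ord_pow]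
      have h4 := mul_le_mul_of_nonneg_left (h2 l hl) hm0.le
      have h5 := mul_le_mul_of_nonneg_left (hord P0 l hP0 hl) hFr0.le
      push_cast at h4 h5 ⊢
      linarith)
  have h4 : ((m * (g * B) + F * r * b : ℕ) : ℝ) ≤ (m * (F * r : ℕ)) * (δ * (c + 1)) := by
    have h5 : (g : ℝ) * B ≤ (δ * r) * (c * F) :=
      mul_le_mul hg hB (Nat.cast_nonneg _) (by positivity)
    have h6 := mul_le_mul_of_nonneg_left h5 hm0.le
    have h7 := mul_le_mul_of_nonneg_left hbm hFr0.le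
    push_cast at h6 h7 ⊢
    linarith
  have h5 : (m : ℝ) * ((F * r : ℕ) * ρ1) ≤ (m * (F * r : ℕ)) * (C * (δ * (c + 1))) := by
    refine h3.trans ((mul_le_mul_of_nonneg_left h4 hC0).trans (le_of_eq ?_))
    ring
  have h6 : (0 : ℝ) < m * (F * r : ℕ) := mul_pos hm0 hFr0
  have h7 : ρ1 ≤ C * (δ * (c + 1)) := by
    refine le_of_mul_le_mul_left ?_ h6
    rw [mul_assoc]
    exact h5
  have h8 : C * (δ * (c + 1)) ≤ (C + 1) * (δ * (c + 1)) :=
    mul_le_mul_of_nonneg_right (by linarith) (by positivity)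
  have h9 : (C + 1) * (δ * (c + 1)) = ρ1 / 2 := by
    rw [hδ]
    field_simp
  linarith

end

section

variable {K L : ℕ → Type} [∀ k, Field (K k)] [∀ k, Algebra ℂ (K k)]
  [∀ k, Field (L k)] [∀ k, Algebra ℂ (L k)] {N : ℕ → ℕ} {y : ∀ k, Fin (N k + 1) → K k} {n : ℕ}

/-- **Towers of finite multi-valued maps.** -/
theorem tower_upper (hy : ∀ k, NormalModel (y k)) (hn : ∀ k, Algebra.trdeg ℂ (K k) = n)
    (hn0 : 0 < n) {Δ : ∀ k, Place ℂ (K k) → ℝ} (φ : ∀ k, K k →ₐ[ℂ] L k)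
    (ψ : ∀ k, K (k + 1) →ₐ[ℂ] L k) (hψ : ∀ k, FiniteDimensional (ψ k).fieldRange (L k))
    (hlog : ∀ k, FiniteLogPullBackLe (φ k) (ψ k) (y k) (Δ k) (y (k + 1)) (Δ (k + 1)))
    {c : ℕ → ℝ} (hc : ∀ k, MultiDegreeLe (φ k) (ψ k) (y k) (y (k + 1)) (n - 1) 1 (c k)) (s : ℕ) :
    ∀ (k : ℕ) {τ : ℝ}, 0 ≤ τ → ThresholdLe (y (k + s)) n (Δ (k + s)) τ →
      0 ≤ (∏ l ∈ Finset.range s, c (k + l)) * τ ∧
      ThresholdLe (y k) n (Δ k) ((∏ l ∈ Finset.range s, c (k + l)) * τ) := by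
  induction s with
  | zero =>
    intro k τ hτ h
    rw [Finset.prod_range_zero, one_mul]
    exact ⟨hτ, h⟩
  | succ s ih =>
    intro k τ hτ h
    have h0 : ThresholdLe (y (k + 1 + s)) n (Δ (k + 1 + s)) τ := by
      have he : k + (s + 1) = k + 1 + s := by ring
      rw [← he]
      exact h
    obtain ⟨h1, h2⟩ := ih (k + 1) hτ h0
    obtain ⟨h3, h4⟩ := threshold_le (hy k) (hn k) hn0 (hy (k + 1)) (hn (k + 1)) (φ k) (ψ k) (hψ k)
      (hlog k) (hc k) h1 h2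
    have h5 : (∏ l ∈ Finset.range (s + 1), c (k + l)) * τ =
        c k * ((∏ l ∈ Finset.range s, c (k + 1 + l)) * τ) := by
      rw [Finset.prod_range_succ', add_zero]
      have h6 : ∏ l ∈ Finset.range s, c (k + (l + 1)) = ∏ l ∈ Finset.range s, c (k + 1 + l) :=
        Finset.prod_congr rfl fun l _ => by
          congr 1
          ring
      rw [h6]
      ring
    rw [h5]
    exact ⟨mul_nonneg h3 h1, h4⟩

/-- **Towers of finite multi-valued maps**, lower thresholds. -/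
theorem tower_lower (hy : ∀ k, NormalModel (y k)) (hn : ∀ k, Algebra.trdeg ℂ (K k) = n)
    (hn0 : 0 < n) {Δ : ∀ k, Place ℂ (K k) → ℝ} (φ : ∀ k, K k →ₐ[ℂ] L k)
    (ψ : ∀ k, K (k + 1) →ₐ[ℂ] L k) (hψ : ∀ k, FiniteDimensional (ψ k).fieldRange (L k))
    (hlog : ∀ k, ∀ P : Place ℂ (K k), IsPrimeDivisor (y k) P → ∀ (Q : Place ℂ (L k)) (e : ℕ),
      LiesOver (φ k) Q P e → ∀ (P' : Place ℂ (K (k + 1))) (e' : ℕ), LiesOver (ψ k) Q P' e' →
        IsPrimeDivisor (y (k + 1)) P' ∧ (e : ℝ) * (1 - Δ k P) ≤ e' * (1 - Δ (k + 1) P'))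
    {c : ℕ → ℝ} (hc : ∀ k, MultiDegreeLe (φ k) (ψ k) (y k) (y (k + 1)) (n - 1) 1 (c k)) (s : ℕ) :
    ∀ (k : ℕ) {τ : ℝ}, 0 ≤ τ → LowerThresholdLe (y (k + s)) n (Δ (k + s)) τ →
      0 ≤ (∏ l ∈ Finset.range s, c (k + l)) * τ ∧
      LowerThresholdLe (y k) n (Δ k) ((∏ l ∈ Finset.range s, c (k + l)) * τ) := by
  induction s with
  | zero =>
    intro k τ hτ h
    rw [Finset.prod_range_zero, one_mul]
    exact ⟨hτ, h⟩
  | succ s ih =>
    intro k τ hτ h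
    have h0 : LowerThresholdLe (y (k + 1 + s)) n (Δ (k + 1 + s)) τ := by
      have he : k + (s + 1) = k + 1 + s := by ring
      rw [← he]
      exact h
    obtain ⟨h1, h2⟩ := ih (k + 1) hτ h0
    have h3 := multi_nonneg' (hy k) (hn k) (hy (k + 1)) (hn (k + 1)) (φ k) (ψ k) (hψ k) (hc k)
    have h4 := lowerThreshold_le (hy k) (hn k) hn0 (hy (k + 1)) (hn (k + 1)) (φ k) (ψ k) (hψ k)
      (hlog k) (hc k) h1 h2
    have h5 : (∏ l ∈ Finset.range (s + 1), c (k + l)) * τ =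
        c k * ((∏ l ∈ Finset.range s, c (k + 1 + l)) * τ) := by
      rw [Finset.prod_range_succ', add_zero]
      have h6 : ∏ l ∈ Finset.range s, c (k + (l + 1)) = ∏ l ∈ Finset.range s, c (k + 1 + l) :=
        Finset.prod_congr rfl fun l _ => by
          congr 1
          ring
      rw [h6]
      ring
    rw [h5]
    exact ⟨mul_nonneg h3 h1, h4⟩

end

end Pool.Agent.R887
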