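import Pool.Agent.R887.TrvX
import Pool.Agent.R887.DefsDivR

/-!
Finite multi-valued maps and `ℝ`-divisors.
-/

set_option autoImplicit false
set_option linter.overlappingInstances false
set_option linter.unusedSectionVars false

open FF Module MvPolynomial Pool.Agent.W602.GT Pool.Agent.W603.LV Pool.Agent.W619.PQ
open Pool.Agent.Y172 Pool.Agent.Y191

namespace Pool.Agent.R887

section

variable {K : Type} [Field K] [Algebra ℂ K] {N n : ℕ} {y : Fin (N + 1) → K}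

theorem DivThresholdLe.mono {D : Place ℂ K → ℝ} {τ τ' : ℝ} (h : DivThresholdLe y D τ)
    (hτ : τ ≤ τ') : DivThresholdLe y D τ' := by
  intro i hi ε hε
  obtain ⟨m, b, hm, hb, q, hq⟩ := h i hi ε hε
  exact ⟨m, b, hm, hb.trans (mul_le_mul_of_nonneg_right (by linarith) (Nat.cast_nonneg _)), q, hq⟩

theorem divThresholdLe_of_forall {D : Place ℂ K → ℝ} {τ : ℝ}
    (h : ∀ ε : ℝ, 0 < ε → DivThresholdLe y D (τ + ε)) : DivThresholdLe y D τ := by
  intro i hi ε hε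
  obtain ⟨m, b, hm, hb, q, hq⟩ := h (ε / 2) (by positivity) i hi (ε / 2) (by positivity)
  refine ⟨m, b, hm, hb.trans (le_of_eq ?_), q, hq⟩
  ring

/-- the threshold is finite -/
theorem exists_divThreshold (hy : NormalModel y) {D : Place ℂ K → ℝ}
    (hD : {P | IsPrimeDivisor y P ∧ D P ≠ 0}.Finite) :
    ∃ τ : ℝ, 0 ≤ τ ∧ DivThresholdLe y D τ := by
  classical
  choose q g hq hb using fun i : {i // y i ≠ 0} => first_bound hy i.2 hD
  refine ⟨∑ i, (g i : ℝ), Finset.sum_nonneg fun i _ => Nat.cast_nonneg _, fun i hi ε hε => ?_⟩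
  refine ⟨1, g ⟨i, hi⟩, le_rfl, ?_, q ⟨i, hi⟩, hq _, fun P l hP hl => ?_⟩
  · have h1 : (g ⟨i, hi⟩ : ℝ) ≤ ∑ i, (g i : ℝ) :=
      Finset.single_le_sum (f := fun i => (g i : ℝ)) (fun i _ => Nat.cast_nonneg _)
        (Finset.mem_univ _)
    push_cast
    linarith
  · have h2 := hb ⟨i, hi⟩ P l hP hl
    rw [Nat.cast_one, one_mul]
    exact h2

/-- multiples -/
theorem DivThresholdLe.nsmul {D : Place ℂ K → ℝ} {τ : ℝ} (h : DivThresholdLe y D τ) {a : ℕ}
    (ha : 1 ≤ a) : DivThresholdLe y (fun P => a * D P) (a * τ) := by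
  intro i hi ε hε
  have ha0 : (0 : ℝ) < a := by exact_mod_cast ha
  obtain ⟨m, b, hm, hb, q, hq, hqo⟩ := h i hi (ε / a) (by positivity)
  refine ⟨m, a * b, hm, ?_, q ^ a, pow_ne_zero _ hq, fun P l hP hl => ?_⟩
  · push_cast
    have h1 := mul_le_mul_of_nonneg_left hb ha0.le
    refine h1.trans (le_of_eq ?_)
    field_simp
  · rw [P.ord_pow]
    push_cast
    have h1 := mul_le_mul_of_nonneg_left (hqo P l hP hl) ha0.le
    linarith

/-- division -/
theorem DivThresholdLe.div {D : Place ℂ K → ℝ} {τ : ℝ} {a : ℕ} (ha : 1 ≤ a)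
    (h : DivThresholdLe y (fun P => a * D P) (a * τ)) : DivThresholdLe y D τ := by
  intro i hi ε hε
  have ha0 : (0 : ℝ) < a := by exact_mod_cast ha
  obtain ⟨m, b, hm, hb, q, hq, hqo⟩ := h i hi (a * ε) (by positivity)
  refine ⟨m * a, b, Nat.mul_pos hm ha, ?_, q, hq, fun P l hP hl => ?_⟩
  · push_cast
    refine hb.trans (le_of_eq ?_)
    ring
  · push_cast
    have h1 := hqo P l hP hl
    linarith

end

section

variable {K K' L : Type} [Field K] [Algebra ℂ K] [Field K'] [Algebra ℂ K'] [Field L] [Algebra ℂ L]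
  {N N' : ℕ} {y : Fin (N + 1) → K} {y' : Fin (N' + 1) → K'} {n : ℕ}

/-- **One step for `ℝ`-divisors.** -/
theorem div_step (hy : NormalModel y) (hn : Algebra.trdeg ℂ K = n) (hn0 : 0 < n)
    (hy' : NormalModel y') (hn' : Algebra.trdeg ℂ K' = n) {D : Place ℂ K → ℝ}
    {D' : Place ℂ K' → ℝ} (φ : K →ₐ[ℂ] L) (ψ : K' →ₐ[ℂ] L)
    (hψ0 : FiniteDimensional ψ.fieldRange L) {s : ℕ} {δ : L}
    (hpull : FinitePullBackLe φ ψ y D y' D' s δ)
    {i0 : Fin (N + 1)} (hi0 : y i0 ≠ 0) {i : Fin (N' + 1)} (hi : y' i ≠ 0) {c : ℝ}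
    (hc : MultiDegreeLe φ ψ y y' (n - 1) 1 c) {Q0 : Place ℂ L} {P0 : Place ℂ K} {e0 : ℕ}
    (hQ0 : LiesOver φ Q0 P0 e0) (hP0 : IsPrimeDivisor y P0) {P0' : Place ℂ K'} {e0' : ℕ}
    (hQ0' : LiesOver ψ Q0 P0' e0') :
    ∃ (F : ℕ) (ρ1 : ℝ), 1 ≤ F ∧ 0 ≤ ρ1 ∧
      ((s : ℝ) * (e0 * D P0) < s * (e0' * D' P0') + Q0.ord δ → 0 < ρ1) ∧
      ∀ (q : K') (g r : ℕ), q ≠ 0 →
      (∀ P' l, IsPrimeDivisor y' P' → Centred y' l P' →
        (r : ℝ) * D' P' ≤ P'.ord q + g * P'.ord (y' i / y' l)) →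
      ∃ (k : K) (B : ℕ), k ≠ 0 ∧ (B : ℝ) ≤ c * F ∧
        (∀ P l, IsPrimeDivisor y P → Centred y l P → ((F * r : ℕ) : ℝ) * (s * D P) ≤
          P.ord k + ((s * g * B : ℕ) : ℝ) * P.ord (y i0 / y l)) ∧
        ∀ l, Centred y l P0 → ((F * r : ℕ) : ℝ) * (s * D P0 + ρ1) ≤
          P0.ord k + ((s * g * B : ℕ) : ℝ) * P0.ord (y i0 / y l) := by
  have hess' := hy'.ess
  have hess := hy.ess
  let _ : Algebra K L := φ.toRingHom.toAlgebra
  let _ : Algebra K' L := ψ.toRingHom.toAlgebra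
  have hst : IsScalarTower ℂ K L := IsScalarTower.of_algebraMap_eq fun c => (φ.commutes c).symm
  have hst' : IsScalarTower ℂ K' L := IsScalarTower.of_algebraMap_eq fun c => (ψ.commutes c).symm
  have hfd' : FiniteDimensional K' L := fd_of_range ψ hψ0
  have hessL : Algebra.EssFiniteType ℂ L := by
    have h1 : Algebra.EssFiniteType K' L := inferInstance
    exact Algebra.EssFiniteType.comp ℂ K' L
  have hnL : Algebra.trdeg ℂ L = n := trdeg_up (K := K') hn'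
  have hfd : FiniteDimensional K L := finite_map hn hnL
  have hdeg : mapDegree φ = Module.finrank K L := by
    unfold mapDegree
    let e : K ≃ₐ[ℂ] φ.fieldRange := AlgEquiv.ofInjectiveField φ
    refine (Algebra.finrank_eq_of_equiv_equiv e.toRingEquiv (RingEquiv.refl L) ?_).symm
    ext x
    rfl
  have hc0 : 0 ≤ c := multi_nonneg hy hy' hc (by rw [hdeg]; exact Module.finrank_pos)
  obtain ⟨hs, hδ, hp⟩ := hpull
  have hinv : ∀ (Q : Place ℂ L) (P : Place ℂ K) (e : ℕ), Over Q P e → IsPrimeDivisor y P →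
      ∀ (P' : Place ℂ K') (e' : ℕ), Over Q P' e' →
        IsPrimeDivisor y' P' ∧ (e : ℝ) * (s * D P) ≤ e' * (s * D' P') + Q.ord δ := by
    intro Q P e hov hP P' e' hov'
    obtain ⟨hP', h1⟩ := hp P hP Q e hov P' e' hov'
    refine ⟨hP', ?_⟩
    linarith
  have h00 := (hp P0 hP0 Q0 e0 hQ0 P0' e0' hQ0').2
  have hQ0o : Over Q0 P0 e0 := hQ0
  have hQ0o' : Over Q0 P0' e0' := hQ0'
  obtain ⟨F, ρ1, hF, hρ1, hρ2, h⟩ := corr_step (L := L) (D := fun P => (s : ℝ) * D P)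
    (D' := fun P => (s : ℝ) * D' P) hy hn hn0 hy' φ ψ (fun _ => rfl) (fun _ => rfl) hdeg hi0 hi
    hδ hinv hQ0o hP0 hQ0o' (ρ := s * (e0' * D' P0') + Q0.ord δ - s * (e0 * D P0)) (by linarith)
    (by linarith) hc0 hc
  refine ⟨F, ρ1, hF, hρ1, fun h1 => hρ2 (by linarith), fun q g r hq hb => ?_⟩
  have hs0 : (0 : ℝ) ≤ s := Nat.cast_nonneg _
  obtain ⟨k, B, hk, hB, h1, h2⟩ := h (q ^ s) (s * g) r (pow_ne_zero _ hq) (fun P' l hP' hl => by
    have h3 := mul_le_mul_of_nonneg_left (hb P' l hP' hl) hs0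
    rw [P'.ord_pow]
    push_cast
    linarith)
  exact ⟨k, B, hk, hB, h1, h2⟩

/-- **The inequality for the thresholds of `ℝ`-divisors.** -/
theorem divThreshold_le (hy : NormalModel y) (hn : Algebra.trdeg ℂ K = n) (hn0 : 0 < n)
    (hy' : NormalModel y') (hn' : Algebra.trdeg ℂ K' = n) {D : Place ℂ K → ℝ}
    {D' : Place ℂ K' → ℝ} (φ : K →ₐ[ℂ] L) (ψ : K' →ₐ[ℂ] L)
    (hψ0 : FiniteDimensional ψ.fieldRange L) {s : ℕ} {δ : L}
    (hpull : FinitePullBackLe φ ψ y D y' D' s δ) {c : ℝ}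
    (hc : MultiDegreeLe φ ψ y y' (n - 1) 1 c) {τ : ℝ} (hτ0 : 0 ≤ τ)
    (hτ : DivThresholdLe y' D' τ) : 0 ≤ c ∧ DivThresholdLe y D (c * τ) := by
  classical
  have hc0 := multi_nonneg' hy hn hy' hn' φ ψ hψ0 hc
  refine ⟨hc0, fun i0 hi0 ε hε => ?_⟩
  obtain ⟨P1, hP1⟩ := exists_prime hy hn hn0
  obtain ⟨Q1, e1, P1', e1', hQ1, hQ1'⟩ := exists_lies hn hy hy' hn' φ ψ hψ0 P1
  obtain ⟨i, hi⟩ := hy'.ne
  obtain ⟨F, ρ1, hF, -, -, h⟩ := div_step hy hn hn0 hy' hn' φ ψ hψ0 hpull hi0 hi hc hQ1 hP1 hQ1'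
  obtain ⟨m, b, hm, hb, q, hq, hqo⟩ := hτ i hi (ε / (c + 1)) (by positivity)
  obtain ⟨k, B, hk, hB, h1, -⟩ := h q b m hq hqo
  have hs := hpull.1
  have hs0 : (0 : ℝ) ≤ s := Nat.cast_nonneg _
  refine ⟨F * m * s, s * b * B, Nat.mul_pos (Nat.mul_pos hF hm) hs, ?_, k, hk,
    fun P l hP hl => ?_⟩
  · push_cast
    have h2 : (b : ℝ) * B ≤ ((τ + ε / (c + 1)) * m) * (c * F) :=
      mul_le_mul hb hB (Nat.cast_nonneg _) (by positivity)
    have h2' := mul_le_mul_of_nonneg_left h2 hs0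
    have h3 : ε / (c + 1) * c ≤ ε := by
      rw [div_mul_eq_mul_div, div_le_iff₀ (by positivity)]
      nlinarith
    have h4 := mul_le_mul_of_nonneg_right h3 (show (0 : ℝ) ≤ F * m * s by positivity)
    have h5 : (s : ℝ) * ((τ + ε / (c + 1)) * m * (c * F)) =
        c * τ * (F * m * s) + ε / (c + 1) * c * (F * m * s) := by
      ring
    rw [h5] at h2'
    linarith
  · have h3 := h1 P l hP hl
    push_cast at h3 ⊢
    linarith

/-- **Rigidity for `ℝ`-divisors**: if `D` and `-D'` are pseudo-effective, there is equality. -/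
theorem div_rigid (hy : NormalModel y) (hn : Algebra.trdeg ℂ K = n) (hn0 : 0 < n)
    (hy' : NormalModel y') (hn' : Algebra.trdeg ℂ K' = n) {D : Place ℂ K → ℝ}
    {D' : Place ℂ K' → ℝ} (φ : K →ₐ[ℂ] L) (ψ : K' →ₐ[ℂ] L)
    (hψ0 : FiniteDimensional ψ.fieldRange L) {s : ℕ} {δ : L}
    (hpull : FinitePullBackLe φ ψ y D y' D' s δ) {c : ℝ}
    (hc : MultiDegreeLe φ ψ y y' (n - 1) 1 c) (hps : DivPsef y D)
    (hanti : DivThresholdLe y' D' 0) : PullBackEq φ ψ y D D' s δ := by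
  classical
  have hc0 := multi_nonneg' hy hn hy' hn' φ ψ hψ0 hc
  intro P0 hP0 Q0 e0 hQ0 P0' e0' hQ0'
  by_contra hne
  have hlt : (s : ℝ) * (e0 * D P0) < s * (e0' * D' P0') + Q0.ord δ :=
    lt_of_le_of_ne (hpull.2.2 P0 hP0 Q0 e0 hQ0 P0' e0' hQ0').2 hne
  have hs := hpull.1
  have hs0 : (0 : ℝ) < s := by exact_mod_cast hs
  obtain ⟨i0, hi0⟩ := hy.ne
  obtain ⟨i, hi⟩ := hy'.ne
  obtain ⟨F, ρ1, hF, -, hρ, h⟩ := div_step hy hn hn0 hy' hn' φ ψ hψ0 hpull hi0 hi hc hQ0 hP0 hQ0'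
  have hρ1 := hρ hlt
  obtain ⟨C, hC0, hC⟩ := small_zeros hy hn hn0 hi0 hP0
  obtain ⟨η, hη⟩ : ∃ η : ℝ, η = ρ1 / (2 * ((C + 1) * (s * (c + 1)))) := ⟨_, rfl⟩
  have hη0 : 0 < η := by
    rw [hη]
    positivity
  obtain ⟨r, g, hr, hg, q, hq, hqo⟩ := hanti i hi η hη0
  obtain ⟨k, B, hk, hB, h1, h2⟩ := h q g r hq hqo
  obtain ⟨m, b, hm, hbm, w, hw, hwo⟩ := hps i0 hi0 η hη0
  rw [zero_add] at hg hbm
  have hFr0 : (0 : ℝ) < (F * r : ℕ) := by
    have : 0 < F * r := Nat.mul_pos hF hr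
    exact_mod_cast this
  have hm0 : (0 : ℝ) < m := by exact_mod_cast hm
  have hB0 : (0 : ℝ) ≤ B := Nat.cast_nonneg _
  have hg0 : (0 : ℝ) ≤ g := Nat.cast_nonneg _
  have h3 := hC (m * (s * g * B) + F * r * s * b) (k ^ m * w ^ (F * r * s))
    (m * ((F * r : ℕ) * ρ1))
    (mul_ne_zero (pow_ne_zero _ hk) (pow_ne_zero _ hw)) (fun P l hP hl => by
      rw [P.ord_mul (pow_ne_zero _ hk) (pow_ne_zero _ hw), P.ord_pow, P.ord_pow]
      have h4 := mul_le_mul_of_nonneg_left (h1 P l hP hl) hm0.le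
      have h5 := mul_le_mul_of_nonneg_left (hwo P l hP hl) (mul_nonneg hFr0.le hs0.le)
      push_cast at h4 h5 ⊢
      linarith) (fun l hl => by
      rw [P0.ord_mul (pow_ne_zero _ hk) (pow_ne_zero _ hw), P0.ord_pow, P0.ord_pow]
      have h4 := mul_le_mul_of_nonneg_left (h2 l hl) hm0.le
      have h5 := mul_le_mul_of_nonneg_left (hwo P0 l hP0 hl) (mul_nonneg hFr0.le hs0.le)
      push_cast at h4 h5 ⊢
      linarith)
  have h4 : ((m * (s * g * B) + F * r * s * b : ℕ) : ℝ) ≤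
      (m * (F * r : ℕ)) * (η * (s * (c + 1))) := by
    have h5 : (g : ℝ) * B ≤ (η * r) * (c * F) := mul_le_mul hg hB hB0 (by positivity)
    have h6 := mul_le_mul_of_nonneg_left h5 (mul_nonneg hm0.le hs0.le)
    have h7 := mul_le_mul_of_nonneg_left hbm (mul_nonneg hFr0.le hs0.le)
    push_cast at h6 h7 ⊢
    linarith
  have h5 : (m : ℝ) * ((F * r : ℕ) * ρ1) ≤ (m * (F * r : ℕ)) * (C * (η * (s * (c + 1)))) := by
    refine h3.trans ((mul_le_mul_of_nonneg_left h4 hC0).trans (le_of_eq ?_))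
    ring
  have h6 : (0 : ℝ) < m * (F * r : ℕ) := mul_pos hm0 hFr0
  have h7 : ρ1 ≤ C * (η * (s * (c + 1))) := by
    refine le_of_mul_le_mul_left ?_ h6
    rw [mul_assoc]
    exact h5
  have h8 : C * (η * (s * (c + 1))) ≤ (C + 1) * (η * (s * (c + 1))) :=
    mul_le_mul_of_nonneg_right (by linarith) (by positivity)
  have h9 : (C + 1) * (η * (s * (c + 1))) = ρ1 / 2 := by
    rw [hη]
    field_simp
  linarith

/-- **Self-correspondences and eigendivisors**: `b f^* D ≤ a p^* D` with `c a < b`. -/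
theorem div_self (hy : NormalModel y) (hn : Algebra.trdeg ℂ K = n) (hn0 : 0 < n)
    {D : Place ℂ K → ℝ} (hD : {P | IsPrimeDivisor y P ∧ D P ≠ 0}.Finite) (φ ψ : K →ₐ[ℂ] L)
    (hψ0 : FiniteDimensional ψ.fieldRange L) {a b s : ℕ} {δ : L} (ha : 1 ≤ a) (hb : 1 ≤ b)
    (hpull : FinitePullBackLe φ ψ y (fun P => b * D P) y (fun P => a * D P) s δ) {c : ℝ}
    (hc : MultiDegreeLe φ ψ y y (n - 1) 1 c) (hcab : c * a < b) :
    DivThresholdLe y D 0 ∧ (DivPsef y D → DivNumTrivial y D ∧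
      PullBackEq φ ψ y (fun P => b * D P) (fun P => a * D P) s δ) := by
  have hc0 := multi_nonneg' hy hn hy hn φ ψ hψ0 hc
  have ha0 : (0 : ℝ) < a := by exact_mod_cast ha
  have hb0 : (0 : ℝ) < b := by exact_mod_cast hb
  obtain ⟨τ, hτ0, hτ⟩ := exists_divThreshold hy hD
  have hall : ∀ k : ℕ, DivThresholdLe y D ((c * a / b) ^ k * τ) := by
    intro k
    induction k with
    | zero =>
      rw [pow_zero, one_mul]
      exact hτ
    | succ k ih =>
      have h1 := (divThreshold_le hy hn hn0 hy hn φ ψ hψ0 hpull hc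
        (τ := a * ((c * a / b) ^ k * τ)) (by positivity) (ih.nsmul ha)).2
      refine DivThresholdLe.div hb (h1.mono (le_of_eq ?_))
      rw [pow_succ]
      field_simp
  have hq1 : c * a / b < 1 := (div_lt_one hb0).2 hcab
  have hlim : Filter.Tendsto (fun k : ℕ => (c * a / b) ^ k * τ) Filter.atTop (nhds (0 * τ)) :=
    (tendsto_pow_atTop_nhds_zero_of_lt_one (by positivity) hq1).mul_const _
  rw [zero_mul] at hlim
  have hanti : DivThresholdLe y D 0 := divThresholdLe_of_forall fun ε hε => by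
    obtain ⟨k, hk⟩ := (hlim.eventually_lt_const hε).exists
    exact (hall k).mono (by linarith)
  have hneg : DivPsef y (fun P => -D P) := by
    unfold DivPsef
    simp only [neg_neg]
    exact hanti
  refine ⟨hanti, fun hps => ⟨⟨hps, hneg⟩, ?_⟩⟩
  refine div_rigid hy hn hn0 hy hn φ ψ hψ0 hpull hc ?_ ?_
  · have h1 := DivThresholdLe.nsmul hps hb
    rw [mul_zero] at h1
    unfold DivPsef
    simp only [mul_neg] at h1
    exact h1
  · have h1 := hanti.nsmul ha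
    rw [mul_zero] at h1
    exact h1

end

end Pool.Agent.R887
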