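import Pool.Agent.R887.TrvY
import Pool.Agent.R887.TrvI
import Pool.Agent.R887.DefsCP

/-!
Effective parts and sections of divisors with small thresholds.
-/

set_option autoImplicit false
set_option linter.overlappingInstances false
set_option linter.unusedSectionVars false

open FF Module MvPolynomial Pool.Agent.W602.GT Pool.Agent.W603.LV Pool.Agent.W619.PQ
open Pool.Agent.Y172 Pool.Agent.Y191

namespace Pool.Agent.R887

section

variable {K : Type} [Field K] [Algebra ℂ K] {N n : ℕ} {y : Fin (N + 1) → K}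

/-- **The coefficients of effective divisors `E` with `D - E` pseudo-effective.** -/
theorem div_coeff_le (hy : NormalModel y) (hn : Algebra.trdeg ℂ K = n) (hn0 : 0 < n) {d : ℕ}
    (hd : ∀ u : Fin (n - 1) → K, (∀ a, IsPencil y (u a)) → ∀ v, IsPencil y v →
      degreeOver u (fun _ : Fin 1 => v) ≤ d) {D E : Place ℂ K → ℝ}
    (hE : ∀ P, IsPrimeDivisor y P → 0 ≤ E P) (hps : DivPsef y (fun P => D P - E P)) {τ : ℝ}
    (hτ : DivThresholdLe y D τ) {P0 : Place ℂ K} (hP0 : IsPrimeDivisor y P0) : E P0 ≤ d * τ := by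
  classical
  obtain ⟨l0, hl0⟩ := exists_centred hy P0
  refine le_of_forall_pos_le_add fun ε hε => ?_
  obtain ⟨δ, hδ⟩ : ∃ δ : ℝ, δ = ε / (2 * (d + 1)) := ⟨_, rfl⟩
  have hδ0 : 0 < δ := by
    rw [hδ]
    positivity
  obtain ⟨m, b, hm, hb, w, hw, hwo⟩ := hps l0 hl0.1 δ hδ0
  obtain ⟨m', b', hm', hb', q, hq, hqo⟩ := hτ l0 hl0.1 δ hδ0
  rw [zero_add] at hb
  have hm0 : (0 : ℝ) < m := by exact_mod_cast hm
  have hm'0 : (0 : ℝ) < m' := by exact_mod_cast hm'
  have hh0 : w ^ m' * q ^ m ≠ 0 := mul_ne_zero (pow_ne_zero _ hw) (pow_ne_zero _ hq)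
  have hord : ∀ P l, IsPrimeDivisor y P → Centred y l P →
      (m' * m : ℝ) * E P - (m' * b + m * b') * P.ord (y l0 / y l) ≤ P.ord (w ^ m' * q ^ m) := by
    intro P l hP hl
    rw [P.ord_mul (pow_ne_zero _ hw) (pow_ne_zero _ hq), P.ord_pow, P.ord_pow]
    have h1 := mul_le_mul_of_nonneg_left (hwo P l hP hl) hm'0.le
    have h2 := mul_le_mul_of_nonneg_left (hqo P l hP hl) hm0.le
    push_cast
    linarith
  have hz := zeros_le hy hn hn0 hd (M := m' * b + m * b') hP0 hl0.1 hh0 (fun P l hP hl => by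
    have h1 := hord P l hP hl
    have h2 : (0 : ℝ) ≤ (m' * m : ℝ) * E P := mul_nonneg (by positivity) (hE P hP)
    have h3 : (0 : ℝ) ≤ P.ord (w ^ m' * q ^ m) +
        (m' * b + m * b' : ℕ) * P.ord (y l0 / y l) := by
      push_cast at h1 ⊢
      linarith
    exact_mod_cast h3)
  have h1 := hord P0 l0 hP0 hl0
  rw [_root_.div_self hl0.1, P0.ord_one] at h1
  have h2 : (P0.ord (w ^ m' * q ^ m) : ℝ) ≤ d * (m' * b + m * b') := by
    have h3 : ((P0.ord (w ^ m' * q ^ m) : ℤ) : ℝ) ≤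
        ((d * (m' * b + m * b' : ℕ) : ℤ) : ℝ) := by exact_mod_cast hz
    push_cast at h3
    exact h3
  have hd0 : (0 : ℝ) ≤ d := Nat.cast_nonneg _
  have h3 : (m' * m : ℝ) * E P0 ≤ (m' * m) * (d * τ + ε) := by
    push_cast at h1
    have h4 := mul_le_mul_of_nonneg_left hb (mul_nonneg hd0 hm'0.le)
    have h5 := mul_le_mul_of_nonneg_left hb' (mul_nonneg hd0 hm0.le)
    have h6 : (d : ℝ) * (2 * δ) ≤ ε := by
      rw [hδ]
      have h7 : (d : ℝ) * (2 * (ε / (2 * (d + 1)))) = ε * (d / (d + 1)) := by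
        field_simp
      rw [h7]
      have h8 : (d : ℝ) / (d + 1) ≤ 1 := (div_le_one (by positivity)).2 (by linarith)
      nlinarith
    have h7 := mul_le_mul_of_nonneg_left h6 (mul_nonneg hm'0.le hm0.le)
    nlinarith
  exact le_of_mul_le_mul_left h3 (mul_pos hm'0 hm0)

/-- **Sections of multiples of divisors with small thresholds have no zeros.** -/
theorem section_no_zero (hy : NormalModel y) (hn : Algebra.trdeg ℂ K = n) (hn0 : 0 < n) {d : ℕ}
    (hd : ∀ u : Fin (n - 1) → K, (∀ a, IsPencil y (u a)) → ∀ v, IsPencil y v →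
      degreeOver u (fun _ : Fin 1 => v) ≤ d) {D : Place ℂ K → ℤ} {τ : ℝ}
    (hτ : DivThresholdLe y (fun P => (D P : ℝ)) τ) {m : ℕ} (hm : 1 ≤ m) (hsmall : m * τ * d < 1)
    {g : K} (hg0 : g ≠ 0) (hg : ∀ P, IsPrimeDivisor y P → -(m * D P) ≤ P.ord g) {P0 : Place ℂ K}
    (hP0 : IsPrimeDivisor y P0) : P0.ord g = -(m * D P0) := by
  have h1 : DivPsef y (fun P => ((m : ℝ) * (D P : ℝ)) - ((m * D P + P.ord g : ℤ) : ℝ)) := by
    intro i hi ε hε
    refine ⟨1, 0, le_rfl, by push_cast; positivity, g, hg0, fun P l hP hl => ?_⟩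
    push_cast
    linarith
  have h2 := div_coeff_le hy hn hn0 hd (D := fun P => (m : ℝ) * (D P : ℝ))
    (E := fun P => ((m * D P + P.ord g : ℤ) : ℝ)) (fun P hP => by
      have := hg P hP
      have h3 : (0 : ℤ) ≤ m * D P + P.ord g := by linarith
      exact_mod_cast h3) h1 (hτ.nsmul hm) hP0
  have h3 : ((m * D P0 + P0.ord g : ℤ) : ℝ) < 1 := by
    refine lt_of_le_of_lt h2 ?_
    linarith
  have h4 : m * D P0 + P0.ord g < 1 := by exact_mod_cast h3
  have h5 := hg P0 hP0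
  omega

end

end Pool.Agent.R887
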