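import Pool.Agent.R887.Noe
import Pool.Agent.R887.Infty
import Pool.Agent.R887.Disc2
import Pool.Agent.R887.Pull
import Pool.Agent.Y191.Base

/-!
Uniform bounds for the pull backs of sections under the generically finite rational maps from a
fixed variety.
-/

set_option autoImplicit false
set_option linter.overlappingInstances false
set_option linter.unusedSectionVars false

open FF MvPolynomial Pool.Agent.W602.GT Pool.Agent.W603.LV Pool.Agent.W619.PQ
open Pool.Agent.Y172 Pool.Agent.Y191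

namespace Pool.Agent.R887

section dom

variable {k K : Type} [Field k] [CharZero k] [Field K] [Algebra k K] {σ : Type}

/-- a polynomial whose order bounds the orders of finitely many functions -/
theorem dom_poly' {U : σ → K} (hU : IsTranscendenceBasis k U)
    (S : Finset K) : ∃ h : MvPolynomial σ k, h ≠ 0 ∧ ∀ P : Place k K,
      (∀ Q : MvPolynomial σ k, P.Reg (aeval U Q)) → ∀ s ∈ S, s ≠ 0 →
        P.ord s ≤ P.ord (aeval U h) := by
  classical
  have hne : ∀ R : MvPolynomial σ k, R ≠ 0 → aeval U R ≠ 0 := fun R hR h0 =>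
    hR ((injective_iff_map_eq_zero _).1 hU.1 R h0)
  induction S using Finset.induction_on with
  | empty => exact ⟨1, one_ne_zero, fun P _ s hs => absurd hs (Finset.notMem_empty s)⟩
  | insert s S _ ih =>
    obtain ⟨h, hh, hS⟩ := ih
    obtain ⟨Q, hQ, hint⟩ := exists_multS (k := k) hU s⁻¹
    refine ⟨h * Q, mul_ne_zero hh hQ, fun P hP t ht ht0 => ?_⟩
    rw [map_mul, P.ord_mul (hne h hh) (hne Q hQ)]
    have h1 := (P.reg_iff (hne h hh)).1 (hP h)
    have h2 := (P.reg_iff (hne Q hQ)).1 (hP Q)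
    rcases Finset.mem_insert.1 ht with rfl | ht
    · have h3 := reg_of_intS hP hint
      have h4 := (P.reg_iff (mul_ne_zero (hne Q hQ) (inv_ne_zero ht0))).1 h3
      rw [P.ord_mul (hne Q hQ) (inv_ne_zero ht0), P.ord_inv] at h4
      omega
    · have := hS P hP t ht ht0
      omega

end dom

section fixed

variable {K' : Type} [Field K'] [Algebra ℂ K'] {N' : ℕ} {y' : Fin (N' + 1) → K'} {n : ℕ}

/-- The data on the source of the maps. -/
structure Src (y' : Fin (N' + 1) → K') (j : Fin (N' + 1)) (S : Set (Place ℂ K')) (U : Fin n → K')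
    (D : Fin n → Derivation ℂ K' K') (G : MvPolynomial (Fin n) ℂ) (i0 : Fin n) (c : ℕ) : Prop where
  bas : IsTranscendenceBasis ℂ U
  mem : ∀ i, U i ∈ chart y' j
  fr : IsFrame D
  Gne : G ≠ 0
  adic : ∀ (Q : Place ℂ K') (q : MvPolynomial (Fin n) ℂ), Irreducible q → AdicS Q U q →
    IsPrimeDivisor y' Q ∧ Divisorial n Q ∧ (∀ i, DerReg Q (D i)) ∧
      (Q ∈ S → 1 ≤ Q.ord (aeval U G))
  inf : ∀ (w : Place ℂ K') (ρ : ℕ), AtInf U w ρ → ∀ i, DerReg w (((U i0)⁻¹ ^ c) • D i)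

theorem exists_src (hy' : NormalModel y') (hn' : Algebra.trdeg ℂ K' = n) (hn0 : 0 < n)
    {S : Set (Place ℂ K')} (hS : S.Finite) {j : Fin (N' + 1)} (hj : y' j ≠ 0) :
    ∃ (U : Fin n → K') (D : Fin n → Derivation ℂ K' K') (G : MvPolynomial (Fin n) ℂ)
      (i0 : Fin n) (c : ℕ), Src y' j S U D G i0 c := by
  classical
  have hess := hy'.ess
  obtain ⟨U, hU, hUc, hint⟩ := exists_noether hy' hn' hj
  obtain ⟨E, hE⟩ := exists_dual hU.1
  obtain ⟨h, hhc, hh0, hh⟩ := exists_den_frame hy' hj E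
  have hfd : FiniteDimensional (IntermediateField.adjoin ℂ (Set.range U)) K' := fd_basis hU
  have hU0 : ∀ Q : MvPolynomial (Fin n) ℂ, Q ≠ 0 → aeval U Q ≠ 0 := fun Q hQ h0 =>
    hQ ((injective_iff_map_eq_zero _).1 hU.1 Q h0)
  -- the polynomial
  let gP : Place ℂ K' → MvPolynomial (Fin n) ℂ := fun P =>
    if h : ∃ g : MvPolynomial (Fin n) ℂ, Irreducible g ∧ AdicS P U g then h.choose else 1
  have hgP : ∀ P, (∃ g : MvPolynomial (Fin n) ℂ, Irreducible g ∧ AdicS P U g) →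
      Irreducible (gP P) ∧ AdicS P U (gP P) := by
    intro P h
    have h1 : gP P = h.choose := dif_pos h
    rw [h1]
    exact h.choose_spec
  have hgP0 : ∀ P, gP P ≠ 0 := by
    intro P
    by_cases h : ∃ g : MvPolynomial (Fin n) ℂ, Irreducible g ∧ AdicS P U g
    · exact (hgP P h).1.ne_zero
    · have h1 : gP P = 1 := dif_neg h
      rw [h1]
      exact one_ne_zero
  -- the places at infinity
  have : Nonempty (Fin n) := ⟨⟨0, hn0⟩⟩
  let i0 : Fin n := ⟨0, hn0⟩
  have hfin := finite_inf (k := ℂ) hU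
  have hex : ∀ w : Place ℂ K', ∃ c : ℕ, (∃ ρ, AtInf U w ρ) → ∀ c', c ≤ c' →
      ∀ i, DerReg w (((U i0)⁻¹ ^ c') • (h • E i)) := by
    intro w
    by_cases hw : ∃ ρ, AtInf U w ρ
    · obtain ⟨ρ, hρ⟩ := hw
      have hdiv : Divisorial n w := hρ.divisorial hn0 hU.1
      have hz : 0 < w.ord (U i0)⁻¹ := by
        rw [w.ord_inv, hρ.crd i0, neg_neg]
        have := hρ.1
        omega
      choose c hc using fun i => reg_scale hn' hdiv hz (h • E i)
      refine ⟨∑ i, c i, fun _ c' hc' i => hc i c' (le_trans ?_ hc')⟩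
      exact Finset.single_le_sum (fun _ _ => Nat.zero_le _) (Finset.mem_univ i)
    · exact ⟨0, fun h => absurd h hw⟩
  choose c hc using hex
  refine ⟨U, fun i => h • E i, ∏ P ∈ hS.toFinset, gP P, i0, ∑ w ∈ hfin.toFinset, c w,
    ⟨hU, hUc, ?_, Finset.prod_ne_zero_iff.2 fun P _ => hgP0 P, ?_, ?_⟩⟩
  · intro F
    refine ⟨fun j => F (U j) * h⁻¹, ?_⟩
    have h1 : F = ∑ j, F (U j) • E j := (Pool.Agent.W73.PG.PULL.expand U hU E hE F).symm
    conv_lhs => rw [h1]
    refine Finset.sum_congr rfl fun j _ => ?_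
    rw [smul_smul, mul_assoc, inv_mul_cancel₀ hh0, mul_one]
  · intro Q q hq hQ
    obtain ⟨hQ1, hQ2⟩ := prime_of_adic hy' hj hU hUc hint hq hQ
    refine ⟨hQ1, hQ1.divisorial hy' hn', fun i => derReg_of_chart hQ1 hQ2 fun f hf => ?_,
      fun hQS => ?_⟩
    · change h * E i f ∈ chart y' j
      exact hh i f hf
    · have h1 : gP Q ∣ ∏ P ∈ hS.toFinset, gP P :=
        Finset.dvd_prod_of_mem gP (by rwa [Set.Finite.mem_toFinset])
      obtain ⟨r, hr⟩ := h1
      have h2 := hgP Q ⟨q, hq, hQ⟩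
      have h3 := h2.2.pos h2.1.ne_zero
      have hr0 : r ≠ 0 := by
        rintro rfl
        rw [mul_zero] at hr
        exact Finset.prod_ne_zero_iff.2 (fun P _ => hgP0 P) hr
      have h4 := (h2.2 r hr0).1
      rw [hr, map_mul, Q.ord_mul (hU0 _ (hgP0 Q)) (hU0 r hr0)]
      omega
  · intro w ρ hw i
    refine hc w ⟨ρ, hw⟩ _ ?_ i
    exact Finset.single_le_sum (fun _ _ => Nat.zero_le _)
      (by rw [Set.Finite.mem_toFinset]; exact ⟨ρ, hw⟩)

end fixed

section maps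

variable {K K' : Type} [Field K] [Algebra ℂ K] [Field K'] [Algebra ℂ K'] [Algebra K K']
  [IsScalarTower ℂ K K'] [FiniteDimensional K K'] {N N' : ℕ} {y : Fin (N + 1) → K}
  {y' : Fin (N' + 1) → K'} {n : ℕ}

/-- Outside of the finite set `S` of prime divisors, the pull back of `K + Δ` is at most the
canonical divisor: the product of the ramification index and of the log discrepancy is at
least one. -/
def MapOut (y : Fin (N + 1) → K) (n : ℕ) (Δ : Place ℂ K → ℚ) (y' : Fin (N' + 1) → K')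
    (S : Set (Place ℂ K')) : Prop :=
  ∀ Q : Place ℂ K', IsPrimeDivisor y' Q → Q ∉ S → ∀ (P : Place ℂ K) (e : ℕ), Over Q P e →
    ∃ α : ℚ, LogDisc y n Δ P α ∧ 1 ≤ e * α

theorem uniform (hy : NormalModel y) (hn : Algebra.trdeg ℂ K = n) (hn0 : 0 < n)
    {Δ A : Place ℂ K → ℚ} (hA : Effective y A) (hLC : LogCanonical y n Δ)
    {S : Set (Place ℂ K')} {j : Fin (N' + 1)} {U : Fin n → K'} {D : Fin n → Derivation ℂ K' K'}
    {G : MvPolynomial (Fin n) ℂ} {i0 : Fin n} {c : ℕ} (hs : Src y' j S U D G i0 c)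
    (hmap : MapOut y n Δ y' S) {x : Fin n → K}
    {E : Fin n → Derivation ℂ K K} (hx : IsTranscendenceBasis ℂ x)
    (hE : ∀ i j, E i (x j) = if i = j then 1 else 0) (hfr : IsFrame E) :
    ∃ (H : K') (β : ℕ), H ≠ 0 ∧ ∀ m b : ℕ, 1 ≤ m → ∀ ω,
      IsSection y n m (m • Δ + b • A) ω →
      (∀ (P : Place ℂ K') (q : MvPolynomial (Fin n) ℂ), Irreducible q → AdicS P U q →
        P.Reg (pull K' x E m ω D * H ^ b * (aeval U G) ^ m)) ∧
      (∀ (P : Place ℂ K') (ρ : ℕ), AtInf U P ρ →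
        Ge P (-(((m * (1 + c * n + bd (k := ℂ) Finset.univ G) + b * β : ℕ) : ℤ) * ρ))
          (pull K' x E m ω D * H ^ b * (aeval U G) ^ m)) := by
  classical
  have hess := hy.ess
  have hU0 : ∀ Q : MvPolynomial (Fin n) ℂ, Q ≠ 0 → aeval U Q ≠ 0 := fun Q hQ h0 =>
    hQ ((injective_iff_map_eq_zero _).1 hs.bas.1 Q h0)
  have : Algebra.EssFiniteType K K' := inferInstance
  have hess' : Algebra.EssFiniteType ℂ K' := Algebra.EssFiniteType.comp ℂ K K'
  have hfd : FiniteDimensional (IntermediateField.adjoin ℂ (Set.range U)) K' :=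
    fd_basis hs.bas
  have : Nonempty (Fin n) := ⟨⟨0, hn0⟩⟩
  choose s hsc hs0 hb using fun j => disc_bound2 (Δ := Δ) (n := n) hy hA hfr j
  obtain ⟨h0, hh0, hdom⟩ := dom_poly' hs.bas (Finset.univ.image fun j => algebraMap K K' (s j))
  have hfin := finite_inf (k := ℂ) hs.bas
  obtain ⟨T, hT⟩ : ∃ T : ℕ, T = ∑ w ∈ hfin.toFinset, ∑ j, (w.ord (algebraMap K K' (s j))).natAbs :=
    ⟨_, rfl⟩
  have hTw : ∀ (w : Place ℂ K') (ρ : ℕ), AtInf U w ρ → ∀ j, w.ord (algebraMap K K' (s j)) ≤ T := by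
    intro w ρ hw j
    have h1 : (w.ord (algebraMap K K' (s j))).natAbs ≤
        ∑ j, (w.ord (algebraMap K K' (s j))).natAbs :=
      Finset.single_le_sum (f := fun j => (w.ord (algebraMap K K' (s j))).natAbs)
        (fun _ _ => Nat.zero_le _) (Finset.mem_univ j)
    have h2 : ∑ j, (w.ord (algebraMap K K' (s j))).natAbs ≤
        ∑ w ∈ hfin.toFinset, ∑ j, (w.ord (algebraMap K K' (s j))).natAbs :=
      Finset.single_le_sum (f := fun w : Place ℂ K' =>
        ∑ j, (w.ord (algebraMap K K' (s j))).natAbs) (fun _ _ => Nat.zero_le _)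
        (by rw [Set.Finite.mem_toFinset]; exact ⟨ρ, hw⟩)
    rw [← hT] at h2
    omega
  refine ⟨aeval U h0, T + bd (k := ℂ) Finset.univ h0, hU0 h0 hh0, fun m b hm ω hω => ⟨?_, ?_⟩⟩
  · intro Q q hq hQ
    obtain ⟨hQp, hdQ, hQD, hQS⟩ := hs.adic Q q hq hQ
    have hreg : ∀ R : MvPolynomial (Fin n) ℂ, Q.Reg (aeval U R) := by
      intro R
      by_cases hR : R = 0
      · rw [hR, map_zero]
        exact Q.reg_zero
      · exact Or.inr (hQ R hR).1
    have hov := over_bel K Q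
    have hPd : Divisorial n (bel K Q) := divisorial_down hov hdQ
    obtain ⟨j, hj⟩ := exists_centred hy (bel K Q)
    obtain ⟨α, hα, hα'⟩ : ∃ α : ℚ, LogDisc y n Δ (bel K Q) α ∧
        (0 : ℚ) ≤ ram K Q * α - 1 + Q.ord (aeval U G) := by
      have hG0 : 0 ≤ Q.ord (aeval U G) := (hQ G hs.Gne).1
      have hG0' : (0 : ℚ) ≤ Q.ord (aeval U G) := by exact_mod_cast hG0
      by_cases hQS' : Q ∈ S
      · have h1 := hQS hQS'
        have h1' : (1 : ℚ) ≤ Q.ord (aeval U G) := by exact_mod_cast h1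
        exact ⟨0, lc_disc hLC hPd, by linarith⟩
      · obtain ⟨α, h1, h2⟩ := hmap Q hQp hQS' _ _ hov
        exact ⟨α, h1, by linarith⟩
    have h1 := hb j (bel K Q) hj α hα m b hm ω hω
    obtain ⟨c1, hc1⟩ : ∃ c1 : ℤ, c1 = ⌈(m : ℚ) * (α - 1)⌉ - b * (bel K Q).ord (s j) := ⟨_, rfl⟩
    have h2 : OrdGe (bel K Q) ω c1 := by
      intro E' hE'
      refine (h1 E' hE').imp_right fun h => ?_
      have h3 : (m : ℚ) * (α - 1) ≤ (((bel K Q).ord (ω E') + b * (bel K Q).ord (s j) : ℤ) : ℚ) := by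
        push_cast
        linarith
      have h4 := Int.ceil_le.2 h3
      rw [hc1]
      have h5 : ⌈(m : ℚ) * (α - 1)⌉ - b * (bel K Q).ord (s j) ≤ (bel K Q).ord (ω E') := by
        omega
      exact_mod_cast h5
    have h3 := pull_ord hn hx hE hov hPd hω.1 h2 hQD
    have h4 : Ge Q (b * Q.ord (aeval U h0)) ((aeval U h0) ^ b) := Or.inr (by rw [Q.ord_pow])
    have h5 : Ge Q (m * Q.ord (aeval U G)) ((aeval U G) ^ m) := Or.inr (by rw [Q.ord_pow])
    refine ((h3.mul h4).mul h5).mono ?_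
    have h6 := hdom Q hreg (algebraMap K K' (s j))
      (Finset.mem_image_of_mem _ (Finset.mem_univ j)) (by
        rw [Ne, map_eq_zero]
        exact hs0 j)
    rw [hov.2] at h6
    have h7 : (m : ℚ) * (α - 1) ≤ ⌈(m : ℚ) * (α - 1)⌉ := Int.le_ceil _
    have h8 : (0 : ℚ) < m := by exact_mod_cast hm
    have h9 : (0 : ℚ) < ram K Q := by exact_mod_cast hov.1
    have h10 : (0 : ℚ) ≤ b := Nat.cast_nonneg b
    have h11 : (0 : ℚ) ≤ (m * (ram K Q - 1) + ram K Q * c1 + b * Q.ord (aeval U h0) +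
        m * Q.ord (aeval U G) : ℚ) := by
      rw [hc1]
      push_cast
      have h12 : ((ram K Q * (bel K Q).ord (s j) : ℤ) : ℚ) ≤ Q.ord (aeval U h0) := by
        exact_mod_cast h6
      push_cast at h12
      have h13 := mul_le_mul_of_nonneg_left h7 h9.le
      have h14 := mul_le_mul_of_nonneg_left h12 h10
      have h15 := mul_nonneg h8.le hα'
      nlinarith
    exact_mod_cast h11
  · intro w ρ hw
    have hρ := hw.1
    have hov := over_bel K w
    have hwd : Divisorial n w := hw.divisorial hn0 hs.bas.1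
    have hPd : Divisorial n (bel K w) := divisorial_down hov hwd
    obtain ⟨j, hj⟩ := exists_centred hy (bel K w)
    have h1 := hb j (bel K w) hj 0 (lc_disc hLC hPd) m b hm ω hω
    obtain ⟨c1, hc1⟩ : ∃ c1 : ℤ, c1 = -(m : ℤ) - b * (bel K w).ord (s j) := ⟨_, rfl⟩
    have h2 : OrdGe (bel K w) ω c1 := by
      intro E' hE'
      refine (h1 E' hE').imp_right fun h => le_trans (le_of_eq ?_) h
      rw [hc1]
      push_cast
      ring
    obtain ⟨z, hz⟩ : ∃ z, z = (U i0)⁻¹ ^ c := ⟨_, rfl⟩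
    have hUi0 : U i0 ≠ 0 := by
      have := hU0 (X i0) (X_ne_zero _)
      rwa [aeval_X] at this
    have hz0 : z ≠ 0 := by
      rw [hz]
      exact pow_ne_zero _ (inv_ne_zero hUi0)
    have hzo : w.ord z = c * ρ := by
      rw [hz, w.ord_pow, w.ord_inv, hw.crd i0, neg_neg]
    have h3 := pull_ord hn hx hE hov hPd hω.1 h2 (D := fun i => z • D i) (fun i => by
      rw [hz]
      exact hs.inf w ρ hw i)
    rw [pluri_smul (pull_pluri x E m ω)] at h3
    have hz1 : (z ^ n) ^ m ≠ 0 := pow_ne_zero _ (pow_ne_zero _ hz0)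
    have h4 := Ge.of_mul hz1 h3
    have h5 : Ge w (b * w.ord (aeval U h0)) ((aeval U h0) ^ b) := Or.inr (by rw [w.ord_pow])
    have h6 : Ge w (m * w.ord (aeval U G)) ((aeval U G) ^ m) := Or.inr (by rw [w.ord_pow])
    refine ((h4.mul h5).mul h6).mono ?_
    rw [w.ord_pow, w.ord_pow, hzo, hw.2 h0 hh0, hw.2 G hs.Gne, hc1]
    have h7 := hTw w ρ hw j
    rw [hov.2] at h7
    have h8 : (1 : ℤ) ≤ ρ := by exact_mod_cast hρ
    have h9 : (0 : ℤ) ≤ b := Int.natCast_nonneg _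
    have h10 : (0 : ℤ) ≤ m := Int.natCast_nonneg _
    have h11 : (0 : ℤ) ≤ T := Int.natCast_nonneg _
    have h12 := mul_le_mul_of_nonneg_left h7 h9
    have h13 : (b : ℤ) * T * 1 ≤ b * T * ρ := mul_le_mul_of_nonneg_left h8 (mul_nonneg h9 h11)
    have h14 : (m : ℤ) * 1 ≤ m * ρ := mul_le_mul_of_nonneg_left h8 h10
    push_cast
    nlinarith

end maps

end Pool.Agent.R887
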